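import Pool.Agent.Lib.MP_17a322_nt.VN.DefsC
import Pool.Agent.Lib.MP_17a322_nt.VJ.E8

/-!
# JOB C03: block polynomials, degrees

PROOFS. Use the small lemmas `E8_alg, E8_num, E8_mul, E8_pow, E8_add, E8_sub, E8_X, E8_vec, E8_vc, E8_mu` of `VJ/E8.lean`.
`EO_degree`: claim `degreeOf y (EO s d n).1 ≤ n * D` and `(EO s d n).2 = 0 ∨ degreeOf y (EO s d n).2 + D ≤ n * D` by induction
(`n = 0`: `(1, 0)`). If `O = 0` then `d * O = 0`, otherwise `degreeOf (d * O) ≤ 2 D + degreeOf O ≤ (n + 1) D`; `O_{n+1} = E_n + s O_n` has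
`degreeOf ≤ n * D`, i.e. `+ D ≤ (n + 1) D`. In particular `degreeOf y (EO s d n).2 ≤ n * D`.
`chG_degree`: with `D = 2 * (r + q)`: `SV W R Q i` has degree `≤ 2 r + 2 q` (as in the proof of `E8_S3`, or by `SV_zero`, `SV_one`, `SV_two` of `VJ/E3.lean`),
`ph W R` has degree `≤ 4 r`, so `ph W R * ph W Q` has degree `≤ 4 (r + q) = 2 D`; for `ν ≤ b` the degree of `chG` is `≤ ν D + (b - ν) D = b D`.
`UU_degree`: `degreeOf y (∏ t, f t) ≤ ∑ t, degreeOf y (f t)` (`MvPolynomial.degreeOf_prod_le` or induction); for `y = inl t0`: only the factor `t0`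
involves `y`: `R = mu (W t) j ![X (inl t), 1]` has degree `≤ 4 ^ j * (if inl t0 = inl t then 1 else 0)` (`E8_vec`, `E8_mu`), `Q` degree `0`: the factor has degree
`≤ 2 b (4 ^ j * ite)`, the sum is `2 b 4 ^ j`. For `y = inr t0` similarly with `E8_vc`: `2 b`.
-/

namespace Pool.Agent.Lib.MP_17a322_nt.VN

open MvPolynomial Height
open Pool.Agent.Lib.MP_17a322_nt.RO Pool.Agent.Lib.MP_17a322_nt.VJ

theorem C03_EO {K : Type*} [Field K] {σ : Type*} {y : σ} {s d : MvPolynomial σ K} {D : ℕ}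
    (hs : degreeOf y s ≤ D) (hd : degreeOf y d ≤ 2 * D) (n : ℕ) :
    degreeOf y (EO s d n).1 ≤ n * D ∧
      ((EO s d n).2 = 0 ∨ degreeOf y (EO s d n).2 + D ≤ n * D) := by
  induction n with
  | zero =>
    refine ⟨?_, Or.inl rfl⟩
    show degreeOf y (1 : MvPolynomial σ K) ≤ _
    rw [degreeOf_one]
    exact Nat.zero_le _
  | succ n ih =>
    obtain ⟨h1, h2⟩ := ih
    have e1 : (EO s d (n + 1)).1 = s * (EO s d n).1 + d * (EO s d n).2 := rfl
    have e2 : (EO s d (n + 1)).2 = (EO s d n).1 + s * (EO s d n).2 := rfl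
    have e3 : (n + 1) * D = n * D + D := by ring
    rw [e1, e2, e3]
    have h3 : degreeOf y (s * (EO s d n).1) ≤ n * D + D := (E8_mul hs h1).trans (by omega)
    rcases h2 with h2 | h2
    · rw [h2, mul_zero, mul_zero, add_zero, add_zero]
      exact ⟨h3, Or.inr (by omega)⟩
    · have h4 : degreeOf y (d * (EO s d n).2) ≤ n * D + D :=
        (E8_mul hd (le_refl _)).trans (by omega)
      have h5 : degreeOf y (s * (EO s d n).2) ≤ n * D := (E8_mul hs (le_refl _)).trans (by omega)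
      have h6 := E8_add h1 h5
      exact ⟨E8_add h3 h4, Or.inr (by omega)⟩

theorem C03_SV {K : Type*} [Field K] (W : WeierstrassCurve K) {σ : Type*} {y : σ} {r q : ℕ}
    {R Q : Fin 2 → MvPolynomial σ K} (hR : ∀ i, degreeOf y (R i) ≤ r)
    (hQ : ∀ i, degreeOf y (Q i) ≤ q) :
    degreeOf y (SV W R Q 0) ≤ 2 * (r + q) ∧ degreeOf y (SV W R Q 1) ≤ 2 * (r + q) ∧
      degreeOf y (SV W R Q 2) ≤ 2 * (r + q) := by
  have h2 : degreeOf y (2 : MvPolynomial σ K) ≤ 0 := E8_num y 2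
  have hm : ∀ i k, degreeOf y (R i * Q k) ≤ r + q := fun i k => E8_mul (hR i) (hQ k)
  refine ⟨?_, ?_, ?_⟩
  · rw [SV_zero]
    refine E8_sub (E8_sub (E8_sub ?_ ?_) ?_) ?_
    · exact (E8_pow 2 (hm 0 0)).trans (by omega)
    · exact (E8_mul (E8_mul (E8_alg y _) (hm 0 0)) (hm 1 1)).trans (by omega)
    · exact (E8_mul (E8_mul (E8_alg y _) (E8_add (hm 0 1) (hm 1 0))) (hm 1 1)).trans (by omega)
    · exact (E8_mul (E8_alg y _) (E8_pow 2 (hm 1 1))).trans (by omega)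
  · rw [SV_one]
    refine E8_add (E8_add (E8_add ?_ ?_) ?_) ?_
    · exact (E8_mul (E8_mul h2 (E8_add (hm 0 1) (hm 1 0))) (hm 0 0)).trans (by omega)
    · exact (E8_mul (E8_mul (E8_alg y _) (hm 0 0)) (hm 1 1)).trans (by omega)
    · exact (E8_mul (E8_mul (E8_alg y _) (E8_add (hm 0 1) (hm 1 0))) (hm 1 1)).trans (by omega)
    · exact (E8_mul (E8_alg y _) (E8_pow 2 (hm 1 1))).trans (by omega)
  · rw [SV_two]
    unfold wd
    exact (E8_pow 2 (E8_sub (hm 0 1) (hm 1 0))).trans (by omega)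

theorem C03_ph {K : Type*} [Field K] (W : WeierstrassCurve K) {σ : Type*} {y : σ} {r : ℕ}
    {R : Fin 2 → MvPolynomial σ K} (hR : ∀ i, degreeOf y (R i) ≤ r) :
    degreeOf y (ph W R) ≤ 4 * r := by
  have h2 : degreeOf y (2 : MvPolynomial σ K) ≤ 0 := E8_num y 2
  have h4 : degreeOf y (4 : MvPolynomial σ K) ≤ 0 := E8_num y 4
  unfold ph
  have h : degreeOf y (4 * R 0 ^ 3 + algebraMap K _ W.b₂ * R 0 ^ 2 * R 1 +
      2 * algebraMap K _ W.b₄ * R 0 * R 1 ^ 2 + algebraMap K _ W.b₆ * R 1 ^ 3) ≤ 3 * r := by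
    refine E8_add (E8_add (E8_add ?_ ?_) ?_) ?_
    · exact (E8_mul h4 (E8_pow 3 (hR 0))).trans (by omega)
    · exact (E8_mul (E8_mul (E8_alg y _) (E8_pow 2 (hR 0))) (hR 1)).trans (by omega)
    · exact (E8_mul (E8_mul (E8_mul h2 (E8_alg y _)) (hR 0)) (E8_pow 2 (hR 1))).trans (by omega)
    · exact (E8_mul (E8_alg y _) (E8_pow 3 (hR 1))).trans (by omega)
  exact (E8_mul (hR 1) h).trans (by omega)

theorem EO_degree {K : Type*} [Field K] {σ : Type*} {y : σ} {s d : MvPolynomial σ K} {D : ℕ}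
    (hs : degreeOf y s ≤ D) (hd : degreeOf y d ≤ 2 * D) (n : ℕ) :
    degreeOf y (EO s d n).1 ≤ n * D ∧ degreeOf y (EO s d n).2 ≤ n * D := by
  obtain ⟨h1, h2⟩ := C03_EO hs hd n
  refine ⟨h1, ?_⟩
  rcases h2 with h2 | h2
  · rw [h2, degreeOf_zero]
    exact Nat.zero_le _
  · omega

theorem chG_degree {K : Type*} [Field K] (W : WeierstrassCurve K) {σ : Type*} {y : σ} {r q : ℕ}
    {R Q : Fin 2 → MvPolynomial σ K} (hR : ∀ i, degreeOf y (R i) ≤ r)
    (hQ : ∀ i, degreeOf y (Q i) ≤ q) (c e : Bool) {b ν : ℕ} (hν : ν ≤ b) :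
    degreeOf y (chG W R Q c e b ν) ≤ b * (2 * (r + q)) := by
  obtain ⟨s0, s1, s2⟩ := C03_SV W hR hQ
  have hd : degreeOf y (ph W R * ph W Q) ≤ 2 * (2 * (r + q)) :=
    (E8_mul (C03_ph W hR) (C03_ph W hQ)).trans (by omega)
  have h2 : degreeOf y (2 : MvPolynomial σ K) ≤ 0 := E8_num y 2
  have hE := fun n => EO_degree s1 hd n
  have hsum : ν * (2 * (r + q)) + (b - ν) * (2 * (r + q)) = b * (2 * (r + q)) := by
    rw [← Nat.add_mul, Nat.add_sub_cancel' hν]
  have t2 : degreeOf y ((2 * SV W R Q 2) ^ (b - ν)) ≤ (b - ν) * (2 * (r + q)) :=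
    E8_pow _ ((E8_mul h2 s2).trans (by omega))
  have t0 : degreeOf y ((2 * SV W R Q 0) ^ ν) ≤ ν * (2 * (r + q)) :=
    E8_pow _ ((E8_mul h2 s0).trans (by omega))
  unfold chG
  rw [← hsum]
  cases c
  · rw [if_neg Bool.false_ne_true]
    refine E8_mul t0 ?_
    cases e
    · rw [if_neg Bool.false_ne_true]
      exact (hE _).1
    · rw [if_pos rfl, degreeOf_neg]
      exact (hE _).2
  · rw [if_pos rfl]
    refine E8_mul ?_ t2
    cases e
    · rw [if_neg Bool.false_ne_true]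
      exact (hE _).1
    · rw [if_pos rfl]
      exact (hE _).2

theorem UU_degree {K : Type*} [Field K] {n : ℕ} (W : Fin n → WeierstrassCurve K)
    (χ : Fin n → Bool) (j b : ℕ) (c e : Fin n → Bool) (ν : Fin n → ℕ) (hν : ∀ t, ν t ≤ b)
    (t : Fin n) :
    degreeOf (Sum.inl t) (UU W χ j b c e ν) ≤ 2 * (b * 4 ^ j) ∧
      degreeOf (Sum.inr t) (UU W χ j b c e ν) ≤ 2 * b := by
  classical
  have key : ∀ y : Fin n ⊕ Fin n, degreeOf y (UU W χ j b c e ν) ≤
      ∑ t, b * (2 * (4 ^ j * (if y = Sum.inl t then 1 else 0) + if y = Sum.inr t then 1 else 0)) := by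
    intro y
    unfold UU UV
    refine (degreeOf_prod_le y _ _).trans (Finset.sum_le_sum fun t _ => ?_)
    exact chG_degree (W t) (E8_mu (W t) (E8_vec _ _) j) (E8_vc _ _ _) (c t) (e t) (hν t)
  constructor
  · refine (key (Sum.inl t)).trans (le_of_eq ?_)
    rw [Finset.sum_eq_single t]
    · rw [if_pos rfl, if_neg (by simp)]
      ring
    · intro t' _ ht
      rw [if_neg (fun h => ht (Sum.inl_injective h).symm), if_neg (by simp)]
      simp
    · intro h
      exact absurd (Finset.mem_univ t) h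
  · refine (key (Sum.inr t)).trans (le_of_eq ?_)
    rw [Finset.sum_eq_single t]
    · rw [if_neg (by simp), if_pos rfl]
      ring
    · intro t' _ ht
      rw [if_neg (by simp), if_neg (fun h => ht (Sum.inr_injective h).symm)]
      simp
    · intro h
      exact absurd (Finset.mem_univ t) h

end Pool.Agent.Lib.MP_17a322_nt.VN
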