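import Pool.Agent.Lib.MP_17a322_nt.VN.C04

/-!
# JOB C05: the coefficients with respect to a representation

PROOFS.
`GG_eval`: `aeval (Sum.elim x u) P = ∑ m ∈ P.support, coeff m P * (∏ t, x t ^ m (inl t)) * ∏ t, u t ^ m (inr t)` (`MvPolynomial.aeval_def`,
`eval₂_eq'`, `Fintype.prod_sum_type`). By `rep_mpw` with `m = 0` (`ρ.w_zero : ρ.w 0 = 1`): `∏ t, u t ^ m (inr t) = ∑ l, aeval u (ρ.w l) *
aeval (fun t => aeval u (ρ.z t)) (mpw ρ.M _ l 0)`. And `aeval (Sum.elim x z') (rename inr p) = aeval z' p` (`aeval_rename`), `map_sum`, exchange of the sums.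
`GG_NV`: every summand of `GG` is `C c * M * rename inr p` with `NV v (C c) = v c`, `NV v M ≤ 1` (product of variables), `NV_rename`, `mpw_NV`:
`≤ v c * (cst * B) ^ D` for `m ∈ P.support` (`∑ t, m (inr t) ≤ D` because `m (inr t) ≤ degreeOf (inr t) P`; `1 ≤ cst * B`).
Sum: nonarchimedean `v`: maximum, `v c ≤ NV v P`; archimedean: `∑ v (coeff m P) = NV v P` (`A2_ar`, `A2_coeff_le`, `SN.sum_le_max`, `SN.sum_le_sum`).
`GG_degree_inl`: `degreeOf_sum_le`, `degreeOf (inl t) (rename inr p) = 0` (the variables of `rename inr p` are in the range of `inr`), `degreeOf (inl t)` of the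
product of the `X (inl t) ^ m (inl t)` is `m (inl t) ≤ degreeOf (inl t) P`.
`GG_degree_inr`: `degreeOf (inr t) (rename inr p) = degreeOf t p` (`degreeOf_rename_of_injective`), `mpw_degree`.
`GG_map`: `f` injective, so `(map f P).support = P.support`; `map_sum`, `map_mul`, `map_rename`, `map_mpw`.
`GG_sum`: additivity and homogeneity: `GG ρ (∑ i ∈ s, C (c i) * P i) l = ∑ i ∈ s, C (c i) * GG ρ (P i) l`: write `GG ρ P l = ∑ m ∈ T, C (coeff m P) * E m` for any finite
`T ⊇ P.support`.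
-/

namespace Pool.Agent.Lib.MP_17a322_nt.VN

open MvPolynomial Height
open Pool.Agent.Lib.MP_17a322_nt.RO Pool.Agent.Lib.MP_17a322_nt.VJ

theorem C05_degX {R σ : Type*} [CommRing R] (i j : σ) (a : ℕ) (d : ℕ) (h : i = j → a ≤ d) :
    degreeOf i (X j ^ a : MvPolynomial σ R) ≤ d := by
  classical
  rw [degreeOf_le_iff]
  intro m hm
  rw [X_pow_eq_monomial] at hm
  have h1 := support_monomial_subset hm
  rw [Finset.mem_singleton] at h1
  rw [h1, Finsupp.single_apply]
  split_ifs with h2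
  · exact h h2.symm
  · exact Nat.zero_le _

theorem C05_deg_inl {R σ τ : Type*} [CommRing R] (p : MvPolynomial τ R) (t : σ) :
    degreeOf (Sum.inl t) (rename (Sum.inr : τ → σ ⊕ τ) p) = 0 := by
  classical
  refine Nat.le_zero.1 ?_
  rw [degreeOf_le_iff]
  intro m hm
  rw [support_rename_of_injective Sum.inr_injective] at hm
  obtain ⟨d, _, rfl⟩ := Finset.mem_image.1 hm
  rw [Finsupp.mapDomain_of_notMem_range]
  rintro ⟨y, hy⟩
  exact Sum.inr_ne_inl hy

/-- The coefficient polynomials over any finite set containing the support. -/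
theorem C05_superset {k : Type*} [CommRing k] {n e : ℕ} (ρ : REP k n e)
    (P : MvPolynomial (Fin n ⊕ Fin n) k) (l : Fin (e + 1)) (T : Finset (Fin n ⊕ Fin n →₀ ℕ))
    (hT : P.support ⊆ T) :
    GG ρ P l = ∑ m ∈ T, C (coeff m P) * ((∏ t, X (Sum.inl t) ^ m (Sum.inl t)) *
      rename Sum.inr (mpw ρ.M (fun t => m (Sum.inr t)) l 0)) := by
  unfold GG
  rw [Finset.sum_subset hT]
  · exact Finset.sum_congr rfl fun m _ => mul_assoc _ _ _
  · intro m _ hm
    rw [notMem_support_iff.1 hm, map_zero, zero_mul, zero_mul]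

theorem GG_eval {k : Type*} [CommRing k] {n e : ℕ} (ρ : REP k n e)
    (P : MvPolynomial (Fin n ⊕ Fin n) k) {A : Type*} [CommRing A] [Algebra k A] (x u : Fin n → A) :
    aeval (Sum.elim x u) P =
      ∑ l, aeval u (ρ.w l) * aeval (Sum.elim x fun t => aeval u (ρ.z t)) (GG ρ P l) := by
  have h0 : ∀ m : Fin n ⊕ Fin n →₀ ℕ, (∏ t, u t ^ m (Sum.inr t)) =
      ∑ l, aeval u (ρ.w l) *
        aeval (fun t => aeval u (ρ.z t)) (mpw ρ.M (fun t => m (Sum.inr t)) l 0) := by
    intro m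
    rw [rep_mpw ρ u (fun t => m (Sum.inr t)) 0, ρ.w_zero, map_one, mul_one]
  have h1 : ∀ l, aeval (Sum.elim x fun t => aeval u (ρ.z t)) (GG ρ P l) =
      ∑ m ∈ P.support, algebraMap k A (coeff m P) * (∏ t, x t ^ m (Sum.inl t)) *
        aeval (fun t => aeval u (ρ.z t)) (mpw ρ.M (fun t => m (Sum.inr t)) l 0) := by
    intro l
    unfold GG
    rw [map_sum]
    refine Finset.sum_congr rfl fun m _ => ?_
    rw [map_mul, map_mul, map_prod, aeval_rename, aeval_C]
    simp only [map_pow, aeval_X, Sum.elim_inl, Sum.elim_comp_inr]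
  rw [aeval_def, eval₂_eq']
  simp only [h1, Fintype.prod_sum_type, Sum.elim_inl, Sum.elim_inr, h0, Finset.mul_sum]
  rw [Finset.sum_comm]
  refine Finset.sum_congr rfl fun l _ => Finset.sum_congr rfl fun m _ => ?_
  ring

theorem C05_term {L : Type*} [Field L] (v : AbsoluteValue L ℝ) {n : ℕ}
    (m : Fin n ⊕ Fin n →₀ ℕ) (c : L) (p : MvPolynomial (Fin n) L) :
    NV v (C c * (∏ t, X (Sum.inl t) ^ m (Sum.inl t)) * rename Sum.inr p) ≤ v c * NV v p := by
  have hS := SN_NV (L := L) v (σ := Fin n ⊕ Fin n)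
  have h1 : NV v (∏ t : Fin n, (X (Sum.inl t) : MvPolynomial (Fin n ⊕ Fin n) L) ^
      m (Sum.inl t)) ≤ 1 := by
    refine (hS.prod_le Finset.univ _).trans ?_
    refine Finset.prod_le_one (fun t _ => hS.nonneg _) fun t _ => ?_
    refine (hS.pow_le _ _).trans ?_
    show NV v (X (Sum.inl t) : MvPolynomial (Fin n ⊕ Fin n) L) ^ _ ≤ 1
    rw [NV_X, one_pow]
  rw [mul_assoc, NV_C_mul]
  refine mul_le_mul_of_nonneg_left ?_ (v.nonneg c)
  refine (hS.mul _ _).trans ?_
  show NV v (∏ t : Fin n, (X (Sum.inl t) : MvPolynomial (Fin n ⊕ Fin n) L) ^ m (Sum.inl t)) *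
    NV v (rename Sum.inr p) ≤ NV v p
  rw [NV_rename v p Sum.inr Sum.inr_injective]
  exact mul_le_of_le_one_left (A2_nonneg v p) h1

theorem GG_NV {L : Type*} [Field L] (v : AbsoluteValue L ℝ) {n e : ℕ} (ρ : REP L n e)
    (P : MvPolynomial (Fin n ⊕ Fin n) L) {D : ℕ} (hD : ∑ t, degreeOf (Sum.inr t) P ≤ D) {B : ℝ}
    (hB : 1 ≤ B) (h : ∀ j l m, NV v (ρ.M j l m) ≤ B) (l : Fin (e + 1)) :
    NV v (GG ρ P l) ≤ NV v P * (cst v (e + 1) * B) ^ D := by
  have hS := SN_NV (L := L) v (σ := Fin n ⊕ Fin n)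
  have hc1 : 1 ≤ cst v (e + 1) := by
    rw [← cst_one v]
    exact cst_mono v (Nat.le_add_left 1 e)
  have hcB : 1 ≤ cst v (e + 1) * B := one_le_mul_of_one_le_of_one_le hc1 hB
  have hQ : 0 ≤ (cst v (e + 1) * B) ^ D := pow_nonneg (zero_le_one.trans hcB) _
  have hterm : ∀ m ∈ P.support,
      NV v (C (coeff m P) * (∏ t, X (Sum.inl t) ^ m (Sum.inl t)) *
        rename Sum.inr (mpw ρ.M (fun t => m (Sum.inr t)) l 0)) ≤
        v (coeff m P) * (cst v (e + 1) * B) ^ D := by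
    intro m hm
    refine (C05_term v m _ _).trans (mul_le_mul_of_nonneg_left ?_ (v.nonneg _))
    refine (mpw_NV v ρ.M hB h _ l 0).trans ?_
    refine pow_le_pow_right₀ hcB (le_trans ?_ hD)
    exact Finset.sum_le_sum fun t _ => monomial_le_degreeOf (Sum.inr t) hm
  unfold GG
  by_cases hv : IsNonarchimedean v
  · refine hS.sum_le_max hv _ _ (mul_nonneg (A2_nonneg v P) hQ) fun m hm => ?_
    exact (hterm m hm).trans (mul_le_mul_of_nonneg_right (A2_coeff_le v P m) hQ)
  · refine (hS.sum_le_sum _ _).trans ?_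
    refine (Finset.sum_le_sum hterm).trans (le_of_eq ?_)
    rw [← Finset.sum_mul, ← A2_ar hv P]

theorem GG_degree_inl {k : Type*} [CommRing k] {n e : ℕ} (ρ : REP k n e)
    (P : MvPolynomial (Fin n ⊕ Fin n) k) (l : Fin (e + 1)) (t : Fin n) :
    degreeOf (Sum.inl t) (GG ρ P l) ≤ degreeOf (Sum.inl t) P := by
  unfold GG
  refine (degreeOf_sum_le _ _ _).trans (Finset.sup_le fun m hm => ?_)
  refine (degreeOf_mul_le _ _ _).trans ?_
  rw [C05_deg_inl, add_zero]
  refine (degreeOf_C_mul_le _ _ _).trans ((degreeOf_prod_le _ _ _).trans ?_)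
  rw [Finset.sum_eq_single t]
  · exact C05_degX _ _ _ _ fun _ => monomial_le_degreeOf _ hm
  · intro j _ hj
    exact Nat.le_zero.1 (C05_degX _ _ _ _ fun h => absurd (Sum.inl_injective h).symm hj)
  · intro h
    exact absurd (Finset.mem_univ t) h

theorem GG_degree_inr {k : Type*} [CommRing k] {n e : ℕ} (ρ : REP k n e)
    (P : MvPolynomial (Fin n ⊕ Fin n) k) {D D' : ℕ} (hD : ∑ t, degreeOf (Sum.inr t) P ≤ D)
    (t : Fin n) (h : ∀ j l m, degreeOf t (ρ.M j l m) ≤ D') (l : Fin (e + 1)) :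
    degreeOf (Sum.inr t) (GG ρ P l) ≤ D * D' := by
  unfold GG
  refine (degreeOf_sum_le _ _ _).trans (Finset.sup_le fun m hm => ?_)
  refine (degreeOf_mul_le _ _ _).trans ?_
  rw [degreeOf_rename_of_injective Sum.inr_injective]
  have h1 : degreeOf (Sum.inr t) (C (coeff m P) *
      ∏ t : Fin n, (X (Sum.inl t) : MvPolynomial (Fin n ⊕ Fin n) k) ^ m (Sum.inl t)) = 0 := by
    refine Nat.le_zero.1 ?_
    refine (degreeOf_C_mul_le _ _ _).trans ((degreeOf_prod_le _ _ _).trans ?_)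
    refine le_of_eq (Finset.sum_eq_zero fun j _ => ?_)
    exact Nat.le_zero.1 (C05_degX _ _ _ _ fun h => absurd h Sum.inr_ne_inl)
  rw [h1, zero_add]
  refine (mpw_degree t ρ.M h _ l 0).trans (Nat.mul_le_mul_right _ (le_trans ?_ hD))
  exact Finset.sum_le_sum fun j _ => monomial_le_degreeOf (Sum.inr j) hm

theorem GG_map {k k' : Type*} [CommRing k] [CommRing k'] (f : k →+* k')
    (hf : Function.Injective f) {n e : ℕ} (ρ : REP k n e) (P : MvPolynomial (Fin n ⊕ Fin n) k)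
    (l : Fin (e + 1)) :
    MvPolynomial.map f (GG ρ P l) = GG (ρ.map f) (MvPolynomial.map f P) l := by
  unfold GG
  rw [support_map_of_injective P hf, map_sum]
  refine Finset.sum_congr rfl fun m _ => ?_
  rw [map_mul, map_mul, map_C, map_prod, map_rename, coeff_map]
  have h1 : MvPolynomial.map f (mpw ρ.M (fun t => m (Sum.inr t)) l 0) =
      mpw (ρ.map f).M (fun t => m (Sum.inr t)) l 0 :=
    map_mpw (MvPolynomial.map f) ρ.M (fun t => m (Sum.inr t)) l 0
  rw [h1]
  simp only [map_pow, map_X]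

theorem GG_sum {k : Type*} [CommRing k] {n e : ℕ} (ρ : REP k n e) {ι : Type*} (s : Finset ι)
    (c : ι → k) (P : ι → MvPolynomial (Fin n ⊕ Fin n) k) (l : Fin (e + 1)) :
    GG ρ (∑ i ∈ s, C (c i) * P i) l = ∑ i ∈ s, C (c i) * GG ρ (P i) l := by
  classical
  set T : Finset (Fin n ⊕ Fin n →₀ ℕ) :=
    (∑ i ∈ s, C (c i) * P i).support ∪ s.biUnion fun i => (P i).support with hT
  rw [C05_superset ρ _ l T Finset.subset_union_left]
  have h1 : ∀ i ∈ s, C (c i) * GG ρ (P i) l = ∑ m ∈ T, C (c i) * (C (coeff m (P i)) *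
      ((∏ t, X (Sum.inl t) ^ m (Sum.inl t)) *
        rename Sum.inr (mpw ρ.M (fun t => m (Sum.inr t)) l 0))) := by
    intro i hi
    rw [C05_superset ρ (P i) l T, Finset.mul_sum]
    exact (Finset.subset_biUnion_of_mem (fun i => (P i).support) hi).trans
      Finset.subset_union_right
  rw [Finset.sum_congr rfl h1, Finset.sum_comm]
  refine Finset.sum_congr rfl fun m _ => ?_
  rw [coeff_sum, map_sum, Finset.sum_mul]
  refine Finset.sum_congr rfl fun i _ => ?_
  rw [coeff_C_mul, map_mul, mul_assoc]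

end Pool.Agent.Lib.MP_17a322_nt.VN
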