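import Pool.Agent.Lib.MP_17a322_nt.VN.DefsC
import Pool.Agent.Lib.MP_17a322_nt.VJ.A3
import Pool.Agent.Lib.MP_17a322_nt.VJ.G3a
import Pool.Agent.Lib.MP_17a322_nt.VJ.A5
import Pool.Agent.Lib.MP_17a322_nt.VJ.E1

/-!
# JOB C07: specialisation of the variables `x`, and the sizes of centre data

PROOFS.
`aeval_spx`: both sides are `K`-algebra homomorphisms in `P` with the same values at the variables (`MvPolynomial.algHom_ext`, or `comp_aeval`;
restrict scalars), `spx` is `aeval`.
`spx_mul`: `spx x0` is a ring homomorphism, `spx x0 (X (inl t)) = C (x0 t)`; `map_prod`, `map_pow`.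
`spx_coeff`: write `P = ∑ m ∈ P.support, monomial m (coeff m P)`; `spx x0 (monomial m a) = monomial (m ∘ inr) (algebraMap a * ∏ t, x0 t ^ m (inl t))` (as an element of
`Fin n →₀ ℕ`: `Finsupp.equivFunOnFinite.symm fun t => m (inr t)`), the coefficient at `β` is `≠ 0` only for `m = sf q β` with `q t = m (inl t) ≤ degreeOf (inl t) P ≤ D`
(`mem_box`). Bijection between the `m ∈ P.support` with `m (inr t) = β t` and the `q` in the box with `sf q β ∈ P.support` (`Finset.sum_bij_ne_zero` or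
`Finset.sum_nbij'`), or induction on `P` is NOT needed.
`spx_degree`: `degreeOf_le_iff`: if `β` is in the support then by `spx_coeff` (any `D`) some `sf q β` is in the support of `P`; `β t = sf q β (inr t)`.
`spx_NV`: put `c β = coeff β (spx x0 P)`. By `spx_coeff` (with `v`): nonarchimedean `v`: `v (c β) ≤ max_q (∏ v (x0 t) ^ q t * v (coeff (sf q β) P))` and `∏ t, v (x0 t) ^ q t ≤ ∏ t, max 1 (v (x0 t)) ^ D`.
Archimedean: `∑ β, v (c β) ≤ ∑ β ∑ q ...`, the pairs `(q, β)` inject into the exponents `sf q β` of `P`. (Or: write `spx x0 P` as the sum over `m ∈ P.support` of the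
monomials above and use `A2_sum`/`(SN_NV v).sum_le_sum`, `sum_le_max`, `A2_monomial` (`NV v (monomial m a) = v a`), this is much simpler: each term has size
`≤ v (algebraMap (coeff m P)) * ∏ max 1 (v (x0 t)) ^ D`, and `coeff m (map f P) = f (coeff m P)`, `(map f P).support = P.support` for the injective `algebraMap K L`.)
`one_le_RB`, `z_le_RB`, `w_le_RB`, `M_le_RB`: products of factors `≥ 1` (`E1_one_le_prod`, `E1_le_prod` in `VJ/E1.lean`).
`Deg_map`: `totalDegree (map f p) ≤ totalDegree p` (`MvPolynomial.totalDegree_map_le`).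
`FS_log_RB`: `Real.log` of the products = sums of `Real.log (max 1 (NV v p))`, `FS_sum`, and `FS (log (max 1 (NV v p)))`: `p = 0`: zero; otherwise the support is
contained in that of `log (NV v p)` (`FS_log_NV` in `VJ/A5.lean`), as in `FS_log_max` of `VJ/A4.lean`.
`ht_nonneg`: `gs_nonneg`, `Real.log_nonneg`.
-/

namespace Pool.Agent.Lib.MP_17a322_nt.VN

open MvPolynomial Height
open Pool.Agent.Lib.MP_17a322_nt.RO Pool.Agent.Lib.MP_17a322_nt.VJ

/-- `spx` as a sum of monomials. -/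
theorem C07_spx_eq {K L : Type*} [Field K] [Field L] [Algebra K L] {n : ℕ} (x0 : Fin n → L)
    (P : MvPolynomial (Fin n ⊕ Fin n) K) :
    spx x0 P = ∑ m ∈ P.support,
      monomial (Finsupp.equivFunOnFinite.symm fun t => m (Sum.inr t))
        (algebraMap K L (coeff m P) * ∏ t, x0 t ^ m (Sum.inl t)) := by
  unfold spx
  rw [aeval_def, eval₂_eq']
  refine Finset.sum_congr rfl fun m _ => ?_
  rw [Fintype.prod_sum_type, monomial_eq, Finsupp.prod_fintype _ _ (fun i => pow_zero _),
    MvPolynomial.algebraMap_apply, map_mul, map_prod, mul_assoc]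
  simp only [Sum.elim_inl, Sum.elim_inr, Finsupp.equivFunOnFinite_symm_apply_apply, map_pow]

theorem C07_FS {k : Type*} [Field k] [AdmissibleAbsValues k] {σ : Type*} (p : MvPolynomial σ k) :
    FS (fun v : AbsoluteValue k ℝ => Real.log (max 1 (NV v p))) := by
  rcases eq_or_ne p 0 with h | h
  · subst h
    have h0 : ∀ v : AdmissibleAbsValues.nonarchAbsVal (K := k),
        Real.log (max 1 (NV v.val (0 : MvPolynomial σ k))) = 0 := by
      intro v
      rw [A2_zero, max_eq_left zero_le_one, Real.log_one]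
    simp [FS, h0]
  · refine (FS_log_NV h).subset fun v hv => ?_
    intro h1
    have h2 : NV v.val p = 1 := Real.eq_one_of_pos_of_log_eq_zero (NV_pos v.val h) h1
    exact hv (by simp only [h2, max_self, Real.log_one])

theorem C07_z_one {k : Type*} [Field k] {n e : ℕ} (ρ : REP k n e) (v : AbsoluteValue k ℝ) :
    1 ≤ ∏ j, max 1 (NV v (ρ.z j)) := E1_one_le_prod _ _ fun _ => le_max_left _ _

theorem C07_w_one {k : Type*} [Field k] {n e : ℕ} (ρ : REP k n e) (v : AbsoluteValue k ℝ) :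
    1 ≤ ∏ l, max 1 (NV v (ρ.w l)) := E1_one_le_prod _ _ fun _ => le_max_left _ _

theorem C07_M_one {k : Type*} [Field k] {n e : ℕ} (ρ : REP k n e) (v : AbsoluteValue k ℝ) :
    1 ≤ ∏ j, ∏ l, ∏ m, max 1 (NV v (ρ.M j l m)) :=
  E1_one_le_prod _ _ fun _ => E1_one_le_prod _ _ fun _ => E1_one_le_prod _ _ fun _ =>
    le_max_left _ _

theorem aeval_spx {K L : Type*} [Field K] [Field L] [Algebra K L] {A : Type*} [CommRing A]
    [Algebra L A] [Algebra K A] [IsScalarTower K L A] {n : ℕ} (x0 : Fin n → L) (z : Fin n → A)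
    (P : MvPolynomial (Fin n ⊕ Fin n) K) :
    aeval z (spx x0 P) = aeval (Sum.elim (fun t => algebraMap L A (x0 t)) z) P := by
  unfold spx
  have h := MvPolynomial.comp_aeval_apply
    (Sum.elim (fun t => (C (x0 t) : MvPolynomial (Fin n) L)) X)
    ((aeval z : MvPolynomial (Fin n) L →ₐ[L] A).restrictScalars K) P
  rw [AlgHom.restrictScalars_apply] at h
  rw [h]
  congr 2
  funext i
  rcases i with t | t
  · rw [AlgHom.restrictScalars_apply, Sum.elim_inl, Sum.elim_inl, ← MvPolynomial.algebraMap_eq,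
      AlgHom.commutes]
  · rw [AlgHom.restrictScalars_apply, Sum.elim_inr, Sum.elim_inr, aeval_X]

theorem spx_mul {K L : Type*} [Field K] [Field L] [Algebra K L] {n : ℕ} (x0 : Fin n → L)
    (a : Fin n → ℕ) (P : MvPolynomial (Fin n ⊕ Fin n) K) :
    spx x0 ((∏ t, X (Sum.inl t) ^ a t) * P) = C (∏ t, x0 t ^ a t) * spx x0 P := by
  unfold spx
  rw [map_mul, map_prod, map_prod]
  congr 1
  refine Finset.prod_congr rfl fun t _ => ?_
  rw [map_pow, map_pow, aeval_X, Sum.elim_inl]

theorem spx_coeff {K L : Type*} [Field K] [Field L] [Algebra K L] {n : ℕ} (x0 : Fin n → L)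
    (P : MvPolynomial (Fin n ⊕ Fin n) K) {D : ℕ} (hD : ∀ t, degreeOf (Sum.inl t) P ≤ D)
    (β : Fin n →₀ ℕ) :
    coeff β (spx x0 P) = ∑ q ∈ box (fun _ : Fin n => D + 1),
      (∏ t, x0 t ^ q t) * algebraMap K L (coeff (sf q β) P) := by
  classical
  rw [C07_spx_eq, coeff_sum]
  have h1 : ∑ m ∈ P.support, coeff β
      (monomial (Finsupp.equivFunOnFinite.symm fun t => m (Sum.inr t))
        (algebraMap K L (coeff m P) * ∏ t, x0 t ^ m (Sum.inl t))) =
      ∑ m ∈ P.support.filter (fun m => (Finsupp.equivFunOnFinite.symm fun t => m (Sum.inr t)) = β),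
        (algebraMap K L (coeff m P) * ∏ t, x0 t ^ m (Sum.inl t)) := by
    rw [Finset.sum_filter]
    exact Finset.sum_congr rfl fun m _ => coeff_monomial _ _ _
  have h2 : ∑ q ∈ box (fun _ : Fin n => D + 1),
      (∏ t, x0 t ^ q t) * algebraMap K L (coeff (sf q β) P) =
      ∑ q ∈ (box (fun _ : Fin n => D + 1)).filter (fun q => sf q β ∈ P.support),
        (∏ t, x0 t ^ q t) * algebraMap K L (coeff (sf q β) P) := by
    refine (Finset.sum_filter_of_ne fun q _ hq => ?_).symm
    rw [mem_support_iff]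
    intro h0
    exact hq (by rw [h0, map_zero, mul_zero])
  rw [h1, h2]
  have hsf : ∀ m : Fin n ⊕ Fin n →₀ ℕ,
      (Finsupp.equivFunOnFinite.symm fun t => m (Sum.inr t)) = β →
      sf (fun t => m (Sum.inl t)) β = m := by
    intro m hm
    ext a
    rcases a with t | t
    · rfl
    · show β t = m (Sum.inr t)
      rw [← hm]
      rfl
  refine Finset.sum_nbij' (fun m t => m (Sum.inl t)) (fun q => sf q β) ?_ ?_ ?_ ?_ ?_
  · intro m hm
    rw [Finset.mem_filter] at hm ⊢
    refine ⟨(mem_box _ _).2 fun t => ?_, ?_⟩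
    · have h3 := (monomial_le_degreeOf (Sum.inl t) hm.1).trans (hD t)
      show m (Sum.inl t) < D + 1
      omega
    · rw [hsf m hm.2]
      exact hm.1
  · intro q hq
    rw [Finset.mem_filter] at hq ⊢
    refine ⟨hq.2, ?_⟩
    ext t
    rfl
  · intro m hm
    rw [Finset.mem_filter] at hm
    exact hsf m hm.2
  · intro q _
    rfl
  · intro m hm
    rw [Finset.mem_filter] at hm
    show _ = (∏ t, x0 t ^ m (Sum.inl t)) * algebraMap K L (coeff (sf (fun t => m (Sum.inl t)) β) P)
    rw [hsf m hm.2, mul_comm]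

theorem spx_degree {K L : Type*} [Field K] [Field L] [Algebra K L] {n : ℕ} (x0 : Fin n → L)
    (P : MvPolynomial (Fin n ⊕ Fin n) K) (t : Fin n) :
    degreeOf t (spx x0 P) ≤ degreeOf (Sum.inr t) P := by
  classical
  rw [degreeOf_le_iff]
  intro β hβ
  rw [mem_support_iff, C07_spx_eq, coeff_sum] at hβ
  obtain ⟨m, hm, hm0⟩ := Finset.exists_ne_zero_of_sum_ne_zero hβ
  rw [coeff_monomial] at hm0
  split_ifs at hm0 with h
  · rw [← h]
    exact monomial_le_degreeOf (Sum.inr t) hm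
  · exact absurd rfl hm0

theorem spx_NV {K L : Type*} [Field K] [Field L] [Algebra K L] (v : AbsoluteValue L ℝ) {n : ℕ}
    (x0 : Fin n → L) (P : MvPolynomial (Fin n ⊕ Fin n) K) {D : ℕ}
    (hD : ∀ t, degreeOf (Sum.inl t) P ≤ D) :
    NV v (spx x0 P) ≤
      NV v (MvPolynomial.map (algebraMap K L) P) * (∏ t, max 1 (v (x0 t))) ^ D := by
  have hP1 : ∀ t, 1 ≤ max 1 (v (x0 t)) := fun t => le_max_left _ _
  have hP : 1 ≤ ∏ t, max 1 (v (x0 t)) := E1_one_le_prod _ _ hP1
  have hP0 : 0 ≤ (∏ t, max 1 (v (x0 t))) ^ D := pow_nonneg (zero_le_one.trans hP) _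
  have hterm : ∀ m ∈ P.support,
      NV v (monomial (Finsupp.equivFunOnFinite.symm fun t => m (Sum.inr t))
        (algebraMap K L (coeff m P) * ∏ t, x0 t ^ m (Sum.inl t))) ≤
      v (coeff m (MvPolynomial.map (algebraMap K L) P)) * (∏ t, max 1 (v (x0 t))) ^ D := by
    intro m hm
    rw [A2_monomial, map_mul, coeff_map]
    refine mul_le_mul_of_nonneg_left ?_ (v.nonneg _)
    rw [map_prod, ← Finset.prod_pow]
    refine Finset.prod_le_prod (fun t _ => v.nonneg _) fun t _ => ?_
    rw [map_pow]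
    refine (pow_le_pow_left₀ (v.nonneg _) (le_max_right 1 _) _).trans ?_
    exact pow_le_pow_right₀ (hP1 t) ((monomial_le_degreeOf (Sum.inl t) hm).trans (hD t))
  rw [C07_spx_eq]
  by_cases hv : IsNonarchimedean v
  · refine SN.sum_le_max hv (SN_NV v) _ _ (mul_nonneg (A2_nonneg v _) hP0) fun m hm => ?_
    exact (hterm m hm).trans (mul_le_mul_of_nonneg_right (A2_coeff_le v _ m) hP0)
  · refine (A2_sum v _ _).trans ?_
    refine (Finset.sum_le_sum hterm).trans (le_of_eq ?_)
    rw [← Finset.sum_mul]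
    congr 1
    exact (A2_ars hv _ _ (support_map_subset _ _)).symm

theorem one_le_RB {k : Type*} [Field k] {n e : ℕ} (ρ : REP k n e) (v : AbsoluteValue k ℝ) :
    1 ≤ ρ.RB v := by
  unfold REP.RB
  exact one_le_mul_of_one_le_of_one_le
    (one_le_mul_of_one_le_of_one_le (C07_z_one ρ v) (C07_w_one ρ v)) (C07_M_one ρ v)

theorem z_le_RB {k : Type*} [Field k] {n e : ℕ} (ρ : REP k n e) (v : AbsoluteValue k ℝ)
    (j : Fin n) : NV v (ρ.z j) ≤ ρ.RB v := by
  unfold REP.RB
  have h1 : NV v (ρ.z j) ≤ ∏ j, max 1 (NV v (ρ.z j)) :=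
    (le_max_right 1 _).trans
      (E1_le_prod Finset.univ (fun j => max 1 (NV v (ρ.z j))) (fun _ => le_max_left _ _)
        (Finset.mem_univ j))
  refine h1.trans ?_
  rw [mul_assoc]
  exact le_mul_of_one_le_right (zero_le_one.trans (C07_z_one ρ v))
    (one_le_mul_of_one_le_of_one_le (C07_w_one ρ v) (C07_M_one ρ v))

theorem w_le_RB {k : Type*} [Field k] {n e : ℕ} (ρ : REP k n e) (v : AbsoluteValue k ℝ)
    (l : Fin (e + 1)) : NV v (ρ.w l) ≤ ρ.RB v := by
  unfold REP.RB
  have h1 : NV v (ρ.w l) ≤ ∏ l, max 1 (NV v (ρ.w l)) :=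
    (le_max_right 1 _).trans
      (E1_le_prod Finset.univ (fun l => max 1 (NV v (ρ.w l))) (fun _ => le_max_left _ _)
        (Finset.mem_univ l))
  refine h1.trans ?_
  refine (le_mul_of_one_le_left (zero_le_one.trans (C07_w_one ρ v)) (C07_z_one ρ v)).trans ?_
  exact le_mul_of_one_le_right (zero_le_one.trans
    (one_le_mul_of_one_le_of_one_le (C07_z_one ρ v) (C07_w_one ρ v))) (C07_M_one ρ v)

theorem M_le_RB {k : Type*} [Field k] {n e : ℕ} (ρ : REP k n e) (v : AbsoluteValue k ℝ)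
    (j : Fin n) (l m : Fin (e + 1)) : NV v (ρ.M j l m) ≤ ρ.RB v := by
  unfold REP.RB
  have h1 : NV v (ρ.M j l m) ≤ ∏ m, max 1 (NV v (ρ.M j l m)) :=
    (le_max_right 1 _).trans
      (E1_le_prod Finset.univ (fun m => max 1 (NV v (ρ.M j l m))) (fun _ => le_max_left _ _)
        (Finset.mem_univ m))
  have h2 : ∏ m, max 1 (NV v (ρ.M j l m)) ≤ ∏ l, ∏ m, max 1 (NV v (ρ.M j l m)) :=
    E1_le_prod Finset.univ (fun l => ∏ m, max 1 (NV v (ρ.M j l m)))
      (fun _ => E1_one_le_prod _ _ fun _ => le_max_left _ _) (Finset.mem_univ l)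
  have h3 : ∏ l, ∏ m, max 1 (NV v (ρ.M j l m)) ≤ ∏ j, ∏ l, ∏ m, max 1 (NV v (ρ.M j l m)) :=
    E1_le_prod Finset.univ (fun j => ∏ l, ∏ m, max 1 (NV v (ρ.M j l m)))
      (fun _ => E1_one_le_prod _ _ fun _ => E1_one_le_prod _ _ fun _ => le_max_left _ _)
      (Finset.mem_univ j)
  refine (h1.trans (h2.trans h3)).trans ?_
  exact le_mul_of_one_le_left (zero_le_one.trans (C07_M_one ρ v))
    (one_le_mul_of_one_le_of_one_le (C07_z_one ρ v) (C07_w_one ρ v))

theorem Deg_map {k k' : Type*} [CommRing k] [CommRing k'] (f : k →+* k') {n e : ℕ}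
    (ρ : REP k n e) {D : ℕ} (h : ρ.Deg D) : (ρ.map f).Deg D := by
  have key : ∀ p : MvPolynomial (Fin n) k, (MvPolynomial.map f p).totalDegree ≤ p.totalDegree :=
    fun p => Finset.sup_mono (support_map_subset f p)
  exact ⟨fun j => (key _).trans (h.1 j), fun l => (key _).trans (h.2.1 l),
    fun j l m => (key _).trans (h.2.2 j l m)⟩

theorem FS_log_RB {k : Type*} [Field k] [AdmissibleAbsValues k] {n e : ℕ} (ρ : REP k n e) :
    FS (fun v : AbsoluteValue k ℝ => Real.log (ρ.RB v)) := by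
  have hne : ∀ (v : AbsoluteValue k ℝ) (p : MvPolynomial (Fin n) k), max 1 (NV v p) ≠ 0 :=
    fun v p => (zero_lt_one.trans_le (le_max_left 1 (NV v p))).ne'
  have h : (fun v : AbsoluteValue k ℝ => Real.log (ρ.RB v)) = fun v =>
      ((∑ j, Real.log (max 1 (NV v (ρ.z j)))) + ∑ l, Real.log (max 1 (NV v (ρ.w l)))) +
        ∑ j, ∑ l, ∑ m, Real.log (max 1 (NV v (ρ.M j l m))) := by
    funext v
    unfold REP.RB
    rw [Real.log_mul (mul_ne_zero (Finset.prod_ne_zero_iff.2 fun _ _ => hne v _)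
        (Finset.prod_ne_zero_iff.2 fun _ _ => hne v _))
        (Finset.prod_ne_zero_iff.2 fun _ _ => Finset.prod_ne_zero_iff.2 fun _ _ =>
          Finset.prod_ne_zero_iff.2 fun _ _ => hne v _),
      Real.log_mul (Finset.prod_ne_zero_iff.2 fun _ _ => hne v _)
        (Finset.prod_ne_zero_iff.2 fun _ _ => hne v _),
      Real.log_prod fun _ _ => hne v _, Real.log_prod fun _ _ => hne v _,
      Real.log_prod fun _ _ => Finset.prod_ne_zero_iff.2 fun _ _ =>
          Finset.prod_ne_zero_iff.2 fun _ _ => hne v _]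
    congr 1
    refine Finset.sum_congr rfl fun j _ => ?_
    rw [Real.log_prod fun _ _ => Finset.prod_ne_zero_iff.2 fun _ _ => hne v _]
    refine Finset.sum_congr rfl fun l _ => ?_
    rw [Real.log_prod fun _ _ => hne v _]
  rw [h]
  refine FS_add (FS_add (FS_sum _ fun j _ => C07_FS _) (FS_sum _ fun l _ => C07_FS _)) ?_
  exact FS_sum _ fun j _ => FS_sum _ fun l _ => FS_sum _ fun m _ => C07_FS _

theorem ht_nonneg {k : Type*} [Field k] [AdmissibleAbsValues k] {n e : ℕ} (ρ : REP k n e) :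
    0 ≤ ρ.ht := by
  exact gs_nonneg fun v _ => Real.log_nonneg (one_le_RB ρ v)

end Pool.Agent.Lib.MP_17a322_nt.VN
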