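import Pool.Agent.Lib.MP_17a322_nt.VN.F3

/-!
VN, part F: `k0` is relatively algebraically closed in the field of germs.
-/

universe u

namespace Pool.Agent.Lib.MP_17a322_nt.VN

open MvPolynomial Height Filter
open Pool.Agent.Lib.MP_17a322_nt.RO
open Pool.Agent.Lib.MP_17a322_nt.VJ

theorem k0_closed {K : Type u} [Field K] [NumberField K] (H : ℕ → ℝ)
    (hH : Tendsto H (hyperfilter ℕ : Filter ℕ) atTop) (a : GK K) (ha : IsAlgebraic (k0 K H hH) a) :
    a ∈ k0 K H hH := by
  obtain ⟨α, rfl⟩ := exists_gm a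
  have h1 : ¬ AlgebraicIndependent (k0 K H hH) (fun _ : Unit => gm α) := by
    rw [algebraicIndependent_unique_type_iff]
    exact fun h => h ha
  rw [algebraicIndependent_iff] at h1
  push Not at h1
  obtain ⟨p, hp, hp0⟩ := h1
  have h2 : ∀ᶠ i in (hyperfilter ℕ : Filter ℕ), eval (fun _ => α i) (pr p i) = 0 := by
    refine gm_eq_zero_iff.mp ?_
    rw [gm_eval_pr p fun i _ => α i]
    exact hp
  rw [mem_k0]
  refine (oH_nh1_pr p).mono ?_
  filter_upwards [h2, pr_ne_zero hp0] with i h3 h4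
  refine (logHeight_root_le (pr p i) h4 () ?_ (fun _ => α i) h3).trans (nh_le_nh1 _)
  intro x _
  exact Finset.mem_singleton.mpr rfl

end Pool.Agent.Lib.MP_17a322_nt.VN
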