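import Pool.Agent.Lib.MP_17a322_nt.VJ.DefsE

/-!
Definitions for Vojta's inequality (`D = 0`) on products of `n` elliptic curves, all ranks.

Everything happens in one chart `χ : Fin n → Bool`: the coordinate `s t` of the point `P t` in the
chart is `x(P t)` (`χ t = false`) or `1 / x(P t)` (`χ t = true`); `vc (χ t) (s t)` is a vector
proportional to the x-coordinate of `P t`.
-/

universe u

namespace Pool.Agent.Lib.MP_17a322_nt.VN

open MvPolynomial Height Filter
open Pool.Agent.Lib.MP_17a322_nt.RO
open Pool.Agent.Lib.MP_17a322_nt.VJ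

/-- The height of a point of the product: the sum of the heights of the x-coordinates. -/
noncomputable def HN {K : Type*} [Field K] [AdmissibleAbsValues K] {n : ℕ}
    {W : Fin n → WeierstrassCurve K} (P : ∀ t, (W t).toAffine.Point) : ℝ :=
  ∑ t, logHeight (P t).xRep

/-- `s` is the coordinate of the point `P` in the chart `χ`. -/
def CH {K : Type*} [Field K] {W : WeierstrassCurve K} (χ : Bool) (P : W.toAffine.Point) (s : K) :
    Prop :=
  ∃ c : K, c ≠ 0 ∧ P.xRep = c • vc χ s

/-- A centre datum in `n` variables over `k`: polynomials `z` such that the polynomial ring is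
generated as a module over `k[z]` by the polynomials `w` (with `w 0 = 1`); `M j` is a matrix of the
multiplication by the `j`-th variable. The centre is the zero set of the first two `z`. -/
structure REP (k : Type*) [CommRing k] (n e : ℕ) where
  z : Fin n → MvPolynomial (Fin n) k
  w : Fin (e + 1) → MvPolynomial (Fin n) k
  M : Fin n → Matrix (Fin (e + 1)) (Fin (e + 1)) (MvPolynomial (Fin n) k)
  w_zero : w 0 = 1
  rel : ∀ j m, ∑ l, w l * aeval z (M j l m) = X j * w m

/-- All polynomials of the datum have total degree at most `D`. -/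
def REP.Deg {k : Type*} [CommRing k] {n e : ℕ} (ρ : REP k n e) (D : ℕ) : Prop :=
  (∀ j, (ρ.z j).totalDegree ≤ D) ∧ (∀ l, (ρ.w l).totalDegree ≤ D) ∧
    ∀ j l m, (ρ.M j l m).totalDegree ≤ D

/-- The size of the datum at `v`. -/
noncomputable def REP.RB {k : Type*} [Field k] {n e : ℕ} (ρ : REP k n e) (v : AbsoluteValue k ℝ) :
    ℝ :=
  (∏ j, max 1 (NV v (ρ.z j))) * (∏ l, max 1 (NV v (ρ.w l))) *
    ∏ j, ∏ l, ∏ m, max 1 (NV v (ρ.M j l m))

/-- The height of the datum. -/
noncomputable def REP.ht {k : Type*} [Field k] [AdmissibleAbsValues k] {n e : ℕ} (ρ : REP k n e) :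
    ℝ :=
  gs fun v => Real.log (ρ.RB v)

/-- The gain: the sum of `- log (min (1, max (|a|, |b|)))` over the places at which all `|s t|` are at
most one. -/
noncomputable def gn {K : Type*} [Field K] [AdmissibleAbsValues K] {ι : Type*} (s : ι → K)
    (a b : K) : ℝ :=
  open Classical in
  gs fun v => if ∀ t, v (s t) ≤ 1 then - Real.log (min 1 (max (v a) (v b))) else 0

/-- Sequences in `K` modulo equality almost everywhere (for a fixed ultrafilter on `ℕ`): a field. -/
abbrev GK (K : Type*) : Type _ := Filter.Germ (Filter.hyperfilter ℕ : Filter ℕ) K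

/-- The germ of a sequence. -/
noncomputable def gm {K : Type*} (a : ℕ → K) : GK K := (a : GK K)

/-- Constants. -/
noncomputable instance {K : Type*} [Field K] : Algebra K (GK K) :=
  ((Filter.Germ.coeRingHom (Filter.hyperfilter ℕ : Filter ℕ)).comp
    (Pi.constRingHom ℕ K)).toAlgebra

/-- The germ `a` has height `o(H)`. -/
def sml {K : Type*} [Field K] [AdmissibleAbsValues K] (H : ℕ → ℝ) (a : GK K) : Prop :=
  ∃ α : ℕ → K, gm α = a ∧
    ∀ δ : ℝ, 0 < δ → ∀ᶠ i in (Filter.hyperfilter ℕ : Filter ℕ), logHeight₁ (α i) ≤ δ * H i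

end Pool.Agent.Lib.MP_17a322_nt.VN
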