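import Pool.Agent.Lib.MP_17a322_nt.VJ.Defs

/-!
# Z1: charts of the product of projective lines

`sc c x` is the coordinate `x` (`c = false`) or `1 / x` (`c = true`). `chp χ d g` is the form
`hom g d` in the chart `χ`.
-/

namespace Pool.Agent.Lib.MP_17a322_nt.VN

open MvPolynomial Height
open Pool.Agent.Lib.MP_17a322_nt.RO Pool.Agent.Lib.MP_17a322_nt.VJ

/-- The coordinate `x` or `1 / x`. -/
noncomputable def sc {K : Type*} [Field K] (c : Bool) (x : K) : K := if c then x⁻¹ else x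

theorem sc_sc {K : Type*} [Field K] (c : Bool) (x : K) : sc c (sc c x) = x := by
  cases c <;> simp [sc]

theorem sc_ne_zero {K : Type*} [Field K] (c : Bool) {x : K} (hx : x ≠ 0) : sc c x ≠ 0 := by
  cases c <;> simp [sc, hx]

/-- The form `hom g d` in the chart `χ`. -/
noncomputable def chp {K : Type*} [Field K] {n : ℕ} (χ : Fin n → Bool) (d : Fin n → ℕ)
    (g : MvPolynomial (Fin n) K) : MvPolynomial (Fin n) K :=
  aeval (fun p : Fin n × Fin 2 => vc (χ p.1) (X p.1 : MvPolynomial (Fin n) K) p.2) (hom g d)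

theorem aeval_chp {K A : Type*} [Field K] [CommRing A] [Algebra K A] {n : ℕ} (χ : Fin n → Bool)
    (d : Fin n → ℕ) (g : MvPolynomial (Fin n) K) (ξ : Fin n → A) :
    aeval ξ (chp χ d g) = ∑ e ∈ g.support, algebraMap K A (coeff e g) *
      ∏ i, (vc (χ i) (ξ i) 0 ^ e i * vc (χ i) (ξ i) 1 ^ (d i - e i)) := by
  have h1 : ∀ (i : Fin n) (j : Fin 2),
      aeval ξ (vc (χ i) (X i : MvPolynomial (Fin n) K) j) = vc (χ i) (ξ i) j := by
    intro i j
    unfold vc
    cases χ i <;> fin_cases j <;> simp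
  unfold chp hom
  simp only [map_sum, map_mul, map_prod, map_pow, aeval_X, algHom_C, h1, AlgHom.commutes]

theorem vc_ne_zero {A : Type*} [CommRing A] [Nontrivial A] (c : Bool) (ξ : A) :
    vc c ξ 0 ≠ 0 ∨ vc c ξ 1 ≠ 0 := by
  unfold vc
  cases c <;> simp

/-- The value in the chart. -/
theorem aeval_chp_mul {K L : Type*} [Field K] [Field L] [Algebra K L] {n : ℕ} (χ : Fin n → Bool)
    (d : Fin n → ℕ) (g : MvPolynomial (Fin n) K) (hg : ∀ i, g.degreeOf i ≤ d i) (x : Fin n → L)
    (hx : ∀ i, χ i = true → x i ≠ 0) :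
    aeval (fun i => sc (χ i) (x i)) (chp χ d g) * ∏ i, (if χ i then x i ^ d i else 1) =
      aeval x g := by
  rw [aeval_chp, aeval_def, eval₂_eq, Finset.sum_mul]
  refine Finset.sum_congr rfl fun e he => ?_
  rw [mul_assoc, ← Finset.prod_mul_distrib]
  have h1 : ∏ i ∈ e.support, x i ^ e i = ∏ i, x i ^ e i := by
    refine Finset.prod_subset (Finset.subset_univ _) fun i _ hi => ?_
    rw [Finsupp.notMem_support_iff.1 hi, pow_zero]
  rw [h1]
  congr 1
  refine Finset.prod_congr rfl fun i _ => ?_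
  have h2 : e i ≤ d i := (monomial_le_degreeOf i he).trans (hg i)
  unfold sc vc
  cases hχ : χ i
  · simp
  · have h3 := hx i hχ
    have h4 : x i ^ d i = x i ^ e i * x i ^ (d i - e i) := by
      rw [← pow_add, Nat.add_sub_cancel' h2]
    simp only [if_true, Matrix.cons_val_zero, Matrix.cons_val_one, one_pow, one_mul]
    rw [h4, inv_pow]
    field_simp

theorem chp_ne_zero {K : Type*} [Field K] [Infinite K] {n : ℕ} (χ : Fin n → Bool)
    (d : Fin n → ℕ) (g : MvPolynomial (Fin n) K) (hg : ∀ i, g.degreeOf i ≤ d i) (h : g ≠ 0) :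
    chp χ d g ≠ 0 := by
  intro h0
  have h1 : g * ∏ i, X i = 0 := by
    refine MvPolynomial.funext fun x => ?_
    rw [map_zero, map_mul, map_prod]
    by_cases hx : ∀ i, x i ≠ 0
    · have h2 := aeval_chp_mul χ d g hg x (fun i _ => hx i)
      rw [h0, map_zero, zero_mul, aeval_eq_eval] at h2
      rw [show eval x g = 0 from h2.symm, zero_mul]
    · push Not at hx
      obtain ⟨i, hi⟩ := hx
      rw [Finset.prod_eq_zero (Finset.mem_univ i) (by rw [eval_X, hi]), mul_zero]
  rcases mul_eq_zero.1 h1 with h2 | h2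
  · exact h h2
  · obtain ⟨i, _, hi⟩ := Finset.prod_eq_zero_iff.1 h2
    exact MvPolynomial.X_ne_zero i hi

/-- Values in the chart of polynomials in the chart coordinates: `g (sc x) ≠ 0` if
`chp χ d g (x) ≠ 0`. -/
theorem eval_sc_ne_zero {K : Type*} [Field K] {n : ℕ} (χ : Fin n → Bool)
    (d : Fin n → ℕ) (g : MvPolynomial (Fin n) K) (hg : ∀ i, g.degreeOf i ≤ d i) (x : Fin n → K)
    (hx : ∀ i, x i ≠ 0) (h : eval x (chp χ d g) ≠ 0) :
    eval (fun i => sc (χ i) (x i)) g ≠ 0 := by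
  have h1 := aeval_chp_mul χ d g hg (fun i => sc (χ i) (x i)) (fun i _ => sc_ne_zero _ (hx i))
  simp only [sc_sc] at h1
  rw [aeval_eq_eval, aeval_eq_eval] at h1
  intro h2
  rw [show (eval fun i => sc (χ i) (x i)) g = 0 from h2] at h1
  rcases mul_eq_zero.1 h1 with h3 | h3
  · exact h h3
  · obtain ⟨i, _, hi⟩ := Finset.prod_eq_zero_iff.1 h3
    split_ifs at hi
    · exact pow_ne_zero _ (sc_ne_zero _ (hx i)) hi
    · exact one_ne_zero hi

end Pool.Agent.Lib.MP_17a322_nt.VN
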