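import Pool.Agent.Lib.MP_17a322_nt.VJ.A5
import Pool.Agent.Lib.MP_17a322_nt.VN.Defs
import Pool.Agent.Lib.MP_17a322_nt.VN.Z1

/-!
# Z4: the height with respect to the centre is bounded by the sum of the gains in the charts
-/

universe u

namespace Pool.Agent.Lib.MP_17a322_nt.VN

open MvPolynomial Height Filter
open Pool.Agent.Lib.MP_17a322_nt.RO Pool.Agent.Lib.MP_17a322_nt.VJ

theorem one_le_prod_real {ι : Type*} (s : Finset ι) (f : ι → ℝ) (h : ∀ i, 1 ≤ f i) :
    1 ≤ ∏ i ∈ s, f i := by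
  have h1 := Finset.prod_le_prod (s := s) (f := fun _ => (1 : ℝ)) (g := f)
    (fun _ _ => zero_le_one) (fun i _ => h i)
  rwa [Finset.prod_const_one] at h1

theorem single_le_prod_real {ι : Type*} (s : Finset ι) (f : ι → ℝ) (h : ∀ i, 1 ≤ f i) {i : ι}
    (hi : i ∈ s) : f i ≤ ∏ i ∈ s, f i := by
  classical
  rw [← Finset.mul_prod_erase s f hi]
  exact le_mul_of_one_le_right (zero_le_one.trans (h i)) (one_le_prod_real _ f h)

/-- The local term of `gn`. -/
noncomputable def gnl {K : Type*} [Field K] {ι : Type*} (s : ι → K) (a b : K)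
    (v : AbsoluteValue K ℝ) : ℝ :=
  open Classical in
  if ∀ t, v (s t) ≤ 1 then - Real.log (min 1 (max (v a) (v b))) else 0

theorem gn_eq {K : Type*} [Field K] [AdmissibleAbsValues K] {ι : Type*} (s : ι → K) (a b : K) :
    gn s a b = gs (gnl s a b) := rfl

theorem gnl_nonneg {K : Type*} [Field K] {ι : Type*} (s : ι → K) (a b : K)
    (v : AbsoluteValue K ℝ) : 0 ≤ gnl s a b v := by
  unfold gnl
  split_ifs
  · have h1 : 0 ≤ min 1 (max (v a) (v b)) := le_min zero_le_one (le_max_of_le_left (v.nonneg a))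
    have h2 := Real.log_nonpos h1 (min_le_left _ _)
    linarith
  · exact le_rfl

theorem FS_gnl {K : Type*} [Field K] [AdmissibleAbsValues K] {ι : Type*} (s : ι → K) (a b : K) :
    FS (gnl s a b) := by
  have key : ∀ c : K, c ≠ 0 → (∀ v : AbsoluteValue K ℝ, v c ≤ max (v a) (v b)) →
      FS (gnl s a b) := by
    intro c hc h
    refine (FS_log_abv hc).subset fun v hv => ?_
    intro h1
    have h2 : v.val c = 1 := Real.eq_one_of_pos_of_log_eq_zero (v.val.pos hc) h1
    apply hv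
    unfold gnl
    have h3 : min 1 (max (v.val a) (v.val b)) = 1 := min_eq_left (h2 ▸ h v.val)
    rw [h3, Real.log_one, neg_zero, ite_self]
  by_cases ha : a = 0
  · by_cases hb : b = 0
    · have h1 : gnl s a b = fun _ => 0 := by
        funext v
        unfold gnl
        rw [ha, hb, map_zero, max_self, min_eq_right zero_le_one, Real.log_zero, neg_zero, ite_self]
      rw [h1]
      simp [FS]
    · exact key b hb fun v => le_max_right _ _
  · exact key a ha fun v => le_max_left _ _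

theorem gn_nonneg {K : Type*} [Field K] [AdmissibleAbsValues K] {ι : Type*} (s : ι → K) (a b : K) :
    0 ≤ gn s a b := by
  rw [gn_eq]
  exact gs_nonneg fun v _ => gnl_nonneg s a b v

/-- Comparison of gains: `max |a| |b|` is bounded below by a multiple of `max |a'| |b'|`. -/
theorem gn_le {K : Type*} [Field K] [AdmissibleAbsValues K] {ι : Type*} (s : ι → K) (a b a' b' : K)
    (h0 : a' ≠ 0 ∨ b' ≠ 0) (κ : AbsoluteValue K ℝ → ℝ) (hκ : ∀ v, 1 ≤ κ v)
    (hFS : FS fun v => Real.log (κ v))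
    (h : ∀ v, Pl v → (∀ t, v (s t) ≤ 1) → max (v a') (v b') ≤ κ v * max (v a) (v b)) :
    gn s a b ≤ gn s a' b' + gs fun v => Real.log (κ v) := by
  rw [gn_eq, gn_eq, ← gs_add (FS_gnl s a' b') hFS]
  refine gs_le (FS_gnl s a b) (FS_add (FS_gnl s a' b') hFS) fun v hv => ?_
  have h1 : 0 ≤ Real.log (κ v) := Real.log_nonneg (hκ v)
  by_cases hs : ∀ t, v (s t) ≤ 1
  · have h2 := h v hv hs
    have h3 : 0 < max (v a') (v b') := by
      rcases h0 with h0 | h0
      · exact lt_max_of_lt_left (v.pos h0)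
      · exact lt_max_of_lt_right (v.pos h0)
    have hκ0 : 0 < κ v := one_pos.trans_le (hκ v)
    have h4 : 0 < max (v a) (v b) := by
      by_contra hc
      have h5 : max (v a) (v b) ≤ 0 := not_lt.1 hc
      have := mul_nonpos_of_nonneg_of_nonpos hκ0.le h5
      linarith
    unfold gnl
    rw [if_pos hs, if_pos hs]
    have h5 : 0 < min 1 (max (v a) (v b)) := lt_min one_pos h4
    have h6 : 0 < min 1 (max (v a') (v b')) := lt_min one_pos h3
    have h7 : min 1 (max (v a') (v b')) ≤ κ v * min 1 (max (v a) (v b)) := by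
      rcases le_total 1 (max (v a) (v b)) with h8 | h8
      · rw [min_eq_left h8, mul_one]
        exact (min_le_left _ _).trans (hκ v)
      · rw [min_eq_right h8]
        exact (min_le_right _ _).trans h2
    have h8 := Real.log_le_log h6 h7
    rw [Real.log_mul hκ0.ne' h5.ne'] at h8
    linarith
  · unfold gnl
    rw [if_neg hs, if_neg hs]
    linarith

/-- The defect is bounded by the sum of the gains. -/
theorem dfc_le_gn {K : Type u} [Field K] [NumberField K] {n m : ℕ}
    (g : Fin m → MvPolynomial (Fin n) K) (d : Fin n → ℕ) (hd : ∀ k t, (g k).degreeOf t ≤ d t)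
    (a b : (Fin n → Bool) → Fin m → K) :
    ∃ C : ℝ, ∀ x : Fin n → K, (∀ t, x t ≠ 0) →
      (∀ χ, eval (fun t => sc (χ t) (x t)) (∑ k, a χ k • chp χ d (g k)) ≠ 0) →
      ∑ t, (d t : ℝ) * logHeight₁ (x t) - logHeight (fun k => eval x (g k)) ≤
        ∑ χ : Fin n → Bool, gn (fun t => sc (χ t) (x t))
          (eval (fun t => sc (χ t) (x t)) (∑ k, a χ k • chp χ d (g k)))
          (eval (fun t => sc (χ t) (x t)) (∑ k, b χ k • chp χ d (g k))) + C := by
  classical
  -- the constant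
  obtain ⟨κ, hκ⟩ : ∃ κ : AbsoluteValue K ℝ → ℝ, κ = fun v => cst v (m + 1) *
      ∏ χ : Fin n → Bool, ∏ k, (max 1 (v (a χ k)) * max 1 (v (b χ k))) := ⟨_, rfl⟩
  have hge1 : ∀ (v : AbsoluteValue K ℝ) (x y : K), 1 ≤ max 1 (v x) * max 1 (v y) := fun v x y =>
    one_le_mul_of_one_le_of_one_le (le_max_left _ _) (le_max_left _ _)
  have hprod1 : ∀ (v : AbsoluteValue K ℝ) (χ : Fin n → Bool),
      1 ≤ ∏ k, (max 1 (v (a χ k)) * max 1 (v (b χ k))) := fun v χ =>
    one_le_prod_real _ _ fun k => hge1 v _ _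
  have hκ1 : ∀ v, 1 ≤ κ v := by
    intro v
    rw [hκ]
    exact one_le_mul_of_one_le_of_one_le (one_le_cst v (Nat.succ_le_succ (Nat.zero_le m)))
      (one_le_prod_real _ _ fun χ => hprod1 v χ)
  have hlog : (fun v => Real.log (κ v)) = fun v => Real.log (cst v (m + 1)) +
      ∑ χ : Fin n → Bool, ∑ k, (Real.log (max 1 (v (a χ k))) + Real.log (max 1 (v (b χ k)))) := by
    funext v
    have hne : ∀ y : K, max 1 (v y) ≠ 0 := fun y => (lt_max_of_lt_left one_pos).ne'
    rw [hκ, Real.log_mul (one_pos.trans_le (one_le_cst v (Nat.succ_le_succ (Nat.zero_le m)))).ne'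
      (one_pos.trans_le (one_le_prod_real _ _ fun χ => hprod1 v χ)).ne',
      Real.log_prod (fun χ _ => (one_pos.trans_le (hprod1 v χ)).ne')]
    congr 1
    refine Finset.sum_congr rfl fun χ _ => ?_
    rw [Real.log_prod (fun k _ => (one_pos.trans_le (hge1 v _ _)).ne')]
    refine Finset.sum_congr rfl fun k _ => ?_
    rw [Real.log_mul (hne _) (hne _)]
  have hFS : FS fun v => Real.log (κ v) := by
    rw [hlog]
    exact FS_add (FS_log_cst _) (FS_sum _ fun χ _ => FS_sum _ fun k _ =>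
      FS_add (FS_log_max _) (FS_log_max _))
  refine ⟨gs fun v => Real.log (κ v), fun x hx hne => ?_⟩
  obtain ⟨f, hf⟩ : ∃ f : (Fin n → Bool) → K,
      f = fun χ => eval (fun t => sc (χ t) (x t)) (∑ k, a χ k • chp χ d (g k)) := ⟨_, rfl⟩
  obtain ⟨h, hh⟩ : ∃ h : (Fin n → Bool) → K,
      h = fun χ => eval (fun t => sc (χ t) (x t)) (∑ k, b χ k • chp χ d (g k)) := ⟨_, rfl⟩
  have hfv : ∀ χ, eval (fun t => sc (χ t) (x t)) (∑ k, a χ k • chp χ d (g k)) = f χ := fun χ => by
    rw [hf]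
  have hhv : ∀ χ, eval (fun t => sc (χ t) (x t)) (∑ k, b χ k • chp χ d (g k)) = h χ := fun χ => by
    rw [hh]
  simp only [hfv, hhv] at hne ⊢
  -- values in the charts
  obtain ⟨c, hc⟩ : ∃ c : (Fin n → Bool) → Fin m → K,
      c = fun χ k => eval (fun t => sc (χ t) (x t)) (chp χ d (g k)) := ⟨_, rfl⟩
  have hcv : ∀ χ k, eval (fun t => sc (χ t) (x t)) (chp χ d (g k)) = c χ k := fun χ k => by rw [hc]
  have hfc : ∀ χ, f χ = ∑ k, a χ k * c χ k := by
    intro χ
    rw [← hfv, map_sum]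
    refine Finset.sum_congr rfl fun k _ => ?_
    rw [smul_eval, hcv]
  have hhc : ∀ χ, h χ = ∑ k, b χ k * c χ k := by
    intro χ
    rw [← hhv, map_sum]
    refine Finset.sum_congr rfl fun k _ => ?_
    rw [smul_eval, hcv]
  have hmul : ∀ χ k, c χ k * ∏ t, (if χ t then x t ^ d t else 1) = eval x (g k) := by
    intro χ k
    have h1 := aeval_chp_mul χ d (g k) (hd k) x (fun t _ => hx t)
    rw [aeval_eq_eval, aeval_eq_eval] at h1
    rw [← hcv]
    exact h1
  have hcne : ∀ χ, c χ ≠ 0 := by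
    intro χ h0
    apply hne χ
    rw [hfc]
    refine Finset.sum_eq_zero fun k _ => ?_
    rw [h0, Pi.zero_apply, mul_zero]
  have hgne : (fun k => eval x (g k)) ≠ 0 := by
    obtain ⟨k, hk⟩ := Function.ne_iff.1 (hcne fun _ => false)
    intro h0
    have h1 := hmul (fun _ => false) k
    rw [congrFun h0 k] at h1
    simp only [Bool.false_eq_true, if_false, Finset.prod_const_one, mul_one] at h1
    exact hk h1
  -- rewrite the left side as a sum over the places
  have hFSx : ∀ t ∈ (Finset.univ : Finset (Fin n)),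
      FS (fun v : AbsoluteValue K ℝ => (d t : ℝ) * Real.log (max 1 (v (x t)))) := fun t _ =>
    FS_const_mul _ (FS_log_max _)
  have hL : ∑ t, (d t : ℝ) * logHeight₁ (x t) - logHeight (fun k => eval x (g k)) =
      gs fun v => ∑ t, (d t : ℝ) * Real.log (max 1 (v (x t))) -
        Real.log (⨆ k, v (eval x (g k))) := by
    rw [gs_sub (FS_sum _ hFSx) (FS_log_iSup hgne), gs_sum _ hFSx, gs_log_iSup hgne]
    congr 1
    refine Finset.sum_congr rfl fun t _ => ?_
    rw [gs_const_mul, gs_log_max]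
  have hR : ∑ χ : Fin n → Bool, gn (fun t => sc (χ t) (x t)) (f χ) (h χ) +
      gs (fun v => Real.log (κ v)) = gs fun v =>
        ∑ χ : Fin n → Bool, gnl (fun t => sc (χ t) (x t)) (f χ) (h χ) v + Real.log (κ v) := by
    rw [gs_add (FS_sum _ fun χ _ => FS_gnl _ _ _) hFS, gs_sum _ fun χ _ => FS_gnl _ _ _]
    rfl
  rw [hL, hR]
  refine gs_le (FS_sub (FS_sum _ hFSx) (FS_log_iSup hgne))
    (FS_add (FS_sum _ fun χ _ => FS_gnl _ _ _) hFS) fun v _ => ?_
  -- the chart of the place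
  obtain ⟨χ, hχ⟩ : ∃ χ : Fin n → Bool, χ = fun t => decide (1 < v (x t)) := ⟨_, rfl⟩
  have hχt : ∀ t, χ t = true ↔ 1 < v (x t) := fun t => by rw [hχ, decide_eq_true_iff]
  have hle : ∀ t, v (sc (χ t) (x t)) ≤ 1 := by
    intro t
    unfold sc
    by_cases h1 : 1 < v (x t)
    · rw [if_pos ((hχt t).2 h1), map_inv₀]
      exact inv_le_one_of_one_le₀ h1.le
    · have h2 : ¬ χ t = true := fun h2 => h1 ((hχt t).1 h2)
      rw [if_neg h2]
      exact not_lt.1 h1
  have hvp : v (∏ t, (if χ t then x t ^ d t else 1)) = ∏ t, max 1 (v (x t)) ^ d t := by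
    rw [map_prod]
    refine Finset.prod_congr rfl fun t _ => ?_
    by_cases h1 : 1 < v (x t)
    · rw [if_pos ((hχt t).2 h1), map_pow, max_eq_right h1.le]
    · have h2 : ¬ χ t = true := fun h2 => h1 ((hχt t).1 h2)
      rw [if_neg h2, map_one, max_eq_left (not_lt.1 h1), one_pow]
  obtain ⟨Q, hQ⟩ : ∃ Q : ℝ, Q = ∏ t, max 1 (v (x t)) ^ d t := ⟨_, rfl⟩
  have hQ0 : 0 < Q := by
    rw [hQ]
    exact Finset.prod_pos fun t _ => pow_pos (lt_max_of_lt_left one_pos) _
  have hlogQ : Real.log Q = ∑ t, (d t : ℝ) * Real.log (max 1 (v (x t))) := by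
    rw [hQ, Real.log_prod (fun t _ => (pow_pos (lt_max_of_lt_left one_pos) _).ne')]
    refine Finset.sum_congr rfl fun t _ => ?_
    rw [Real.log_pow]
  have hve : ∀ k, v (eval x (g k)) = v (c χ k) * Q := by
    intro k
    rw [← hmul χ k, map_mul, hvp, ← hQ]
  have hsup : ⨆ k, v (eval x (g k)) = (⨆ k, v (c χ k)) * Q := by
    simp only [hve]
    exact (Real.iSup_mul_of_nonneg hQ0.le _).symm
  obtain ⟨M, hM⟩ : ∃ M : ℝ, M = ⨆ k, v (c χ k) := ⟨_, rfl⟩
  have hcM : ∀ k, v (c χ k) ≤ M := fun k => by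
    rw [hM]
    exact Finite.le_ciSup_of_le k le_rfl
  have hM0 : 0 < M := by
    obtain ⟨k, hk⟩ := Function.ne_iff.1 (hcne χ)
    exact (v.pos hk).trans_le (hcM k)
  rw [hsup, ← hM, Real.log_mul hM0.ne' hQ0.ne', hlogQ]
  -- the term of the chart
  have hterm : gnl (fun t => sc (χ t) (x t)) (f χ) (h χ) v ≤
      ∑ χ : Fin n → Bool, gnl (fun t => sc (χ t) (x t)) (f χ) (h χ) v :=
    Finset.single_le_sum (f := fun χ : Fin n → Bool => gnl (fun t => sc (χ t) (x t)) (f χ) (h χ) v)
      (fun χ _ => gnl_nonneg _ _ _ _) (Finset.mem_univ χ)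
  have hcomb : ∀ a' : Fin m → K, (∀ k, max 1 (v (a' k)) ≤
      ∏ k, (max 1 (v (a χ k)) * max 1 (v (b χ k)))) → v (∑ k, a' k * c χ k) ≤ κ v * M := by
    intro a' ha'
    have h1 : 0 ≤ (∏ k, (max 1 (v (a χ k)) * max 1 (v (b χ k)))) * M :=
      mul_nonneg (zero_le_one.trans (hprod1 v χ)) hM0.le
    have h2 := (SN_self v).sum_le Finset.univ (fun k => a' k * c χ k) h1 (fun k _ => by
      rw [map_mul]
      exact mul_le_mul ((le_max_right _ _).trans (ha' k)) (hcM k) (v.nonneg _)
        (zero_le_one.trans (hprod1 v χ)))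
    refine h2.trans ?_
    rw [Finset.card_univ, Fintype.card_fin, hκ, ← mul_assoc]
    refine mul_le_mul_of_nonneg_right ?_ hM0.le
    refine mul_le_mul (cst_mono v (Nat.le_succ m)) ?_ (zero_le_one.trans (hprod1 v χ))
      (cst_nonneg v _)
    exact single_le_prod_real _ (fun χ : Fin n → Bool =>
      ∏ k, (max 1 (v (a χ k)) * max 1 (v (b χ k)))) (fun χ => hprod1 v χ) (Finset.mem_univ χ)
  have hone : ∀ k, max 1 (v (a χ k)) * max 1 (v (b χ k)) ≤
      ∏ k, (max 1 (v (a χ k)) * max 1 (v (b χ k))) := fun k =>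
    single_le_prod_real _ (fun k => max 1 (v (a χ k)) * max 1 (v (b χ k)))
      (fun k => hge1 v _ _) (Finset.mem_univ k)
  have hva : v (f χ) ≤ κ v * M := by
    rw [hfc]
    refine hcomb _ fun k => (le_mul_of_one_le_right ?_ (le_max_left _ _)).trans (hone k)
    exact zero_le_one.trans (le_max_left _ _)
  have hvb : v (h χ) ≤ κ v * M := by
    rw [hhc]
    refine hcomb _ fun k => (le_mul_of_one_le_left ?_ (le_max_left _ _)).trans (hone k)
    exact zero_le_one.trans (le_max_left _ _)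
  have hglχ : Real.log (max (v (f χ)) (v (h χ))) ≤ Real.log (κ v) + Real.log M := by
    rw [← Real.log_mul (one_pos.trans_le (hκ1 v)).ne' hM0.ne']
    exact Real.log_le_log (lt_max_of_lt_left (v.pos (hne χ))) (max_le hva hvb)
  have hgl2 : - Real.log (max (v (f χ)) (v (h χ))) ≤
      gnl (fun t => sc (χ t) (x t)) (f χ) (h χ) v := by
    unfold gnl
    rw [if_pos hle]
    have h1 : 0 < max (v (f χ)) (v (h χ)) := lt_max_of_lt_left (v.pos (hne χ))
    have h2 := Real.log_le_log (lt_min one_pos h1) (min_le_right 1 (max (v (f χ)) (v (h χ))))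
    linarith
  linarith

end Pool.Agent.Lib.MP_17a322_nt.VN
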