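import Pool.Agent.Lib.MP_17a322_nt.VN.F0

/-!
# Z6: the germ of a generic sequence is a generic point
-/

namespace Pool.Agent.Lib.MP_17a322_nt.VN

open MvPolynomial Filter

theorem gm_const {K : Type*} [Field K] (c : K) : gm (fun _ => c) = algebraMap K (GK K) c := rfl

/-- Values of polynomials over `K` at a germ. -/
theorem aeval_gm {K : Type*} [Field K] {σ : Type*} (s : ℕ → σ → K) (G : MvPolynomial σ K) :
    aeval (fun t => gm fun i => s i t) G = gm fun i => eval (s i) G := by
  induction G using MvPolynomial.induction_on with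
  | C a =>
    rw [aeval_C]
    simp only [eval_C]
    rfl
  | add p q hp hq =>
    rw [map_add, hp, hq]
    simp only [map_add]
    rfl
  | mul_X p t hp =>
    rw [map_mul, hp, aeval_X]
    simp only [map_mul, eval_X]
    rfl

theorem algebraicIndependent_gm {K : Type*} [Field K] {n : ℕ} (s : ℕ → Fin n → K)
    (hgen : ∀ G : MvPolynomial (Fin n) K, G ≠ 0 →
      ∀ᶠ i in (hyperfilter ℕ : Filter ℕ), eval (s i) G ≠ 0) :
    AlgebraicIndependent K (fun t => gm fun i => s i t) := by
  rw [algebraicIndependent_iff]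
  intro G hG
  by_contra hG0
  rw [aeval_gm] at hG
  exact gm_ne_zero_iff.2 (hgen G hG0) hG

/-- For an ultrafilter one member of a finite family of conditions holds almost everywhere. -/
theorem eventually_exists_fintype {ι : Type*} [Finite ι] (U : Ultrafilter ℕ) (p : ι → ℕ → Prop)
    (h : ∀ᶠ i in (U : Filter ℕ), ∃ χ, p χ i) : ∃ χ, ∀ᶠ i in (U : Filter ℕ), p χ i := by
  by_contra hc
  push Not at hc
  have h2 : ∀ᶠ i in (U : Filter ℕ), ∀ χ, ¬ p χ i := eventually_all.2 hc
  obtain ⟨i, hi1, hi2⟩ := (h.and h2).exists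
  obtain ⟨χ, hχ⟩ := hi1
  exact hi2 χ hχ

end Pool.Agent.Lib.MP_17a322_nt.VN
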