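import Pool.Agent.Lib.MP_17a322_nt.VN.Defs
import Pool.Agent.Lib.MP_17a322_nt.VJ.A7

/-!
Base change for sums over places of functions which scale under powers of absolute values, in
particular for the gain `gn`.
-/

namespace Pool.Agent.Lib.MP_17a322_nt.VN

open MvPolynomial Height NumberField IsDedekindDomain Ideal
open Pool.Agent.Lib.MP_17a322_nt.RO
open Pool.Agent.Lib.MP_17a322_nt.VJ

/-- The local degree. -/
noncomputable def ldg {K L : Type*} [Field K] [NumberField K] [Field L] [NumberField L]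
    [Algebra K L] (v : HeightOneSpectrum (𝓞 K)) (w : HeightOneSpectrum (𝓞 L)) : ℕ :=
  ramificationIdx' v.asIdeal w.asIdeal * inertiaDeg' v.asIdeal w.asIdeal

theorem ldg_pos {K L : Type*} [Field K] [NumberField K] [Field L] [NumberField L] [Algebra K L]
    (v : HeightOneSpectrum (𝓞 K)) (w : HeightOneSpectrum (𝓞 L)) [w.asIdeal.LiesOver v.asIdeal] :
    0 < ldg v w := by
  have hm : v.asIdeal.IsMaximal := v.isMaximal
  refine Nat.pos_of_ne_zero (mul_ne_zero ?_ ?_)
  · exact IsDedekindDomain.ramificationIdx'_ne_zero_of_liesOver _ v.ne_bot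
  · exact inertiaDeg'_ne_zero _ _

/-- Restriction of a finite place. -/
theorem BC_adic {K L : Type*} [Field K] [NumberField K] [Field L] [NumberField L] [Algebra K L]
    (v : HeightOneSpectrum (𝓞 K)) (w : HeightOneSpectrum (𝓞 L)) [w.asIdeal.LiesOver v.asIdeal]
    (x : K) :
    HeightOneSpectrum.adicAbv L w (algebraMap K L x) =
      HeightOneSpectrum.adicAbv K v x ^ ldg v w := by
  by_cases hx : x = 0
  · subst hx
    rw [map_zero, map_zero, map_zero, zero_pow (ldg_pos v w).ne']
  have hN : Ideal.absNorm w.asIdeal = Ideal.absNorm v.asIdeal ^ inertiaDeg' v.asIdeal w.asIdeal :=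
    absNorm_eq_pow_inertiaDeg'_of_liesOver w.asIdeal v.asIdeal v.isPrime v.ne_bot
  have h0 : v.valuation K x ≠ 0 := (Valuation.ne_zero_iff _).2 hx
  have h1 : v.valuation K x ^ v.asIdeal.ramificationIdx' w.asIdeal ≠ 0 := pow_ne_zero _ h0
  rw [NumberField.HeightOneSpectrum.adicAbv_def, NumberField.HeightOneSpectrum.adicAbv_def,
    ← HeightOneSpectrum.valuation_liesOver L v w, map_pow]
  rw [WithZeroMulInt.toNNReal_neg_apply _ h0, WithZeroMulInt.toNNReal_neg_apply _ h0]
  unfold ldg
  push_cast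
  rw [hN]
  push_cast
  rw [mul_comm (ramificationIdx' v.asIdeal w.asIdeal), pow_mul, ← zpow_natCast, ← zpow_natCast,
    ← zpow_natCast, ← zpow_natCast, ← zpow_mul, ← zpow_mul, ← zpow_mul]
  rw [← zpow_mul]
  congr 1
  ring

/-- The sum of the local degrees. -/
theorem BC_sum {K L : Type*} [Field K] [NumberField K] [Field L] [NumberField L] [Algebra K L]
    (v : HeightOneSpectrum (𝓞 K)) (s : Finset (HeightOneSpectrum (𝓞 L)))
    (hs : ∀ w, w ∈ s ↔ w.under (𝓞 K) = v) :
    ∑ w ∈ s, ldg v w = Module.finrank K L := by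
  classical
  have hm : v.asIdeal.IsMaximal := v.isMaximal
  rw [← sum_ramification_inertia (𝓞 L) K L (p := v.asIdeal) v.ne_bot]
  refine Finset.sum_bij (fun w _ => w.asIdeal) (fun w hw => ?_) (fun w _ w' _ h => ?_)
    (fun P hP => ?_) (fun w _ => rfl)
  · rw [IsDedekindDomain.mem_primesOverFinset_iff v.ne_bot]
    refine ⟨w.isPrime, ⟨?_⟩⟩
    rw [← (hs w).1 hw]
    rfl
  · exact HeightOneSpectrum.ext_iff.mpr h
  · rw [IsDedekindDomain.mem_primesOverFinset_iff v.ne_bot] at hP
    have hP1 : P.IsPrime := hP.1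
    have hP2 : P.LiesOver v.asIdeal := hP.2
    have hb : P ≠ ⊥ := ne_bot_of_mem_primesOver v.ne_bot hP
    refine ⟨⟨P, hP1, hb⟩, ?_, rfl⟩
    rw [hs]
    exact HeightOneSpectrum.ext_iff.mpr hP2.over.symm

/-- Base change of sums over the nonarchimedean places. -/
theorem BC_finsum {K L : Type*} [Field K] [NumberField K] [Field L] [NumberField L] [Algebra K L]
    (φ : HeightOneSpectrum (𝓞 K) → ℝ) (φ' : HeightOneSpectrum (𝓞 L) → ℝ)
    (hφ : (Function.support φ).Finite)
    (h : ∀ w, φ' w = ldg (w.under (𝓞 K)) w * φ (w.under (𝓞 K))) :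
    (Function.support φ').Finite ∧ ∑ᶠ w, φ' w = Module.finrank K L * ∑ᶠ v, φ v := by
  classical
  have hfib : ∀ v : HeightOneSpectrum (𝓞 K),
      {w : HeightOneSpectrum (𝓞 L) | w.under (𝓞 K) = v}.Finite := by
    intro v
    have hm : v.asIdeal.IsMaximal := v.isMaximal
    have h1 := IsDedekindDomain.primesOver_finite v.asIdeal (𝓞 L)
    refine Set.Finite.of_finite_image (f := HeightOneSpectrum.asIdeal) (h1.subset ?_) ?_
    · rintro _ ⟨w, hw, rfl⟩
      refine ⟨w.isPrime, ⟨?_⟩⟩
      rw [← show w.under (𝓞 K) = v from hw]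
      rfl
    · intro w _ w' _ hww
      exact HeightOneSpectrum.ext_iff.mpr hww
  let S : Finset (HeightOneSpectrum (𝓞 K)) := hφ.toFinset
  let T : Finset (HeightOneSpectrum (𝓞 L)) := S.biUnion fun v => (hfib v).toFinset
  have hT : ∀ w, w ∈ T ↔ w.under (𝓞 K) ∈ S := by
    intro w
    simp only [T, Finset.mem_biUnion, Set.Finite.mem_toFinset, Set.mem_ofPred_eq]
    constructor
    · rintro ⟨v, hv, hw⟩
      rw [hw]
      exact hv
    · intro hw
      exact ⟨_, hw, rfl⟩
  have hsub : Function.support φ' ⊆ (T : Set (HeightOneSpectrum (𝓞 L))) := by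
    intro w hw
    rw [Finset.mem_coe, hT, Set.Finite.mem_toFinset]
    intro h0
    apply hw
    rw [h, h0, mul_zero]
  refine ⟨T.finite_toSet.subset hsub, ?_⟩
  rw [finsum_eq_sum_of_support_subset _ hsub,
    finsum_eq_sum_of_support_subset φ (s := S) (by rw [Set.Finite.coe_toFinset]),
    ← Finset.sum_fiberwise_of_maps_to (fun w hw => (hT w).1 hw), Finset.mul_sum]
  refine Finset.sum_congr rfl fun v hv => ?_
  have h2 : ∑ w ∈ T with w.under (𝓞 K) = v, φ' w =
      ∑ w ∈ T with w.under (𝓞 K) = v, (ldg v w : ℝ) * φ v := by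
    refine Finset.sum_congr rfl fun w hw => ?_
    have h3 := (Finset.mem_filter.mp hw).2
    rw [h, h3]
  rw [h2, ← Finset.sum_mul]
  congr 1
  have h4 := BC_sum (L := L) v (T.filter fun w => w.under (𝓞 K) = v) (fun w => by
    rw [Finset.mem_filter]
    refine ⟨fun hw => hw.2, fun hw => ⟨?_, hw⟩⟩
    rw [hT, hw]
    exact hv)
  rw [← h4]
  push_cast
  rfl

/-- Sums over the finite places as sums over the maximal ideals. -/
theorem BC_gs {K : Type*} [Field K] [NumberField K] (φ : AbsoluteValue K ℝ → ℝ) :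
    gs φ = (AdmissibleAbsValues.archAbsVal.map φ).sum +
      ∑ᶠ v : HeightOneSpectrum (𝓞 K), φ (FinitePlace.mk v).val := by
  unfold gs
  congr 1
  rw [NumberField.sum_nonarchAbsVal_eq,
    ← finsum_comp_equiv (FinitePlace.equivHeightOneSpectrum (K := K)).symm]
  rfl

theorem BC_FS {K : Type*} [Field K] [NumberField K] (φ : AbsoluteValue K ℝ → ℝ) :
    FS φ ↔ (Function.support fun v : HeightOneSpectrum (𝓞 K) =>
      φ (FinitePlace.mk v).val).Finite := by
  have hmem : ∀ v : HeightOneSpectrum (𝓞 K),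
      (FinitePlace.mk v).val ∈ AdmissibleAbsValues.nonarchAbsVal (K := K) :=
    fun v => (FinitePlace.mk v).isFinitePlace
  let f : HeightOneSpectrum (𝓞 K) → AdmissibleAbsValues.nonarchAbsVal (K := K) :=
    fun v => ⟨(FinitePlace.mk v).val, hmem v⟩
  have hf : Function.Injective f := by
    intro a b hab
    have h1 : (FinitePlace.mk a).val = (FinitePlace.mk b).val := congrArg Subtype.val hab
    exact FinitePlace.mk_eq_iff.mp (Subtype.ext h1)
  have hs : Function.Surjective f := by
    rintro ⟨v, hv⟩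
    obtain ⟨u, hu⟩ := hv
    exact ⟨u, Subtype.ext hu⟩
  unfold FS
  constructor
  · intro h
    exact Set.Finite.of_finite_image (f := f) (h.subset (by
      rintro _ ⟨v, hv, rfl⟩
      exact hv)) hf.injOn
  · intro h
    refine (h.image f).subset ?_
    intro v hv
    obtain ⟨u, rfl⟩ := hs v
    exact ⟨u, hv, rfl⟩

theorem BC_mk {K : Type*} [Field K] [NumberField K] (v : HeightOneSpectrum (𝓞 K)) (x : K) :
    (FinitePlace.mk v).val x = HeightOneSpectrum.adicAbv K v x :=
  FinitePlace.norm_embedding v x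

/-- Base change. -/
theorem gs_bc {K L : Type*} [Field K] [NumberField K] [Field L] [NumberField L] [Algebra K L]
    (φ : AbsoluteValue K ℝ → ℝ) (φ' : AbsoluteValue L ℝ → ℝ) (hφ : FS φ)
    (ha : ∀ ψ : L →+* ℂ, φ' (InfinitePlace.mk ψ).val =
      φ (InfinitePlace.mk (ψ.comp (algebraMap K L))).val)
    (hn : ∀ (v : AbsoluteValue K ℝ) (w : AbsoluteValue L ℝ) (n : ℕ), 0 < n →
      (∀ x, w (algebraMap K L x) = v x ^ n) → φ' w = n * φ v) :
    FS φ' ∧ gs φ' = Module.finrank K L * gs φ := by
  have h1 := BC_finsum (K := K) (L := L) (fun v => φ (FinitePlace.mk v).val)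
    (fun w => φ' (FinitePlace.mk w).val) ((BC_FS φ).1 hφ) (fun w => by
      have hl : w.asIdeal.LiesOver (w.under (𝓞 K)).asIdeal := ⟨rfl⟩
      refine hn _ _ _ (ldg_pos (w.under (𝓞 K)) w) fun x => ?_
      rw [BC_mk, BC_mk, BC_adic (w.under (𝓞 K)) w])
  refine ⟨(BC_FS φ').2 h1.1, ?_⟩
  rw [BC_gs, BC_gs, A7_arch φ φ' ha, h1.2]
  ring

/-- The gain is a finite sum. -/
theorem BC_FS_gn {K : Type*} [Field K] [NumberField K] {ι : Type*} (s : ι → K) (a b : K) :
    open Classical in
    FS fun v : AbsoluteValue K ℝ =>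
      if ∀ t, v (s t) ≤ 1 then - Real.log (min 1 (max (v a) (v b))) else 0 := by
  classical
  by_cases h : a = 0 ∧ b = 0
  · have : (fun v : AbsoluteValue K ℝ =>
        if ∀ t, v (s t) ≤ 1 then - Real.log (min 1 (max (v a) (v b))) else 0) = fun _ => 0 := by
      funext v
      rw [h.1, h.2, map_zero, max_self, min_eq_right zero_le_one, Real.log_zero, neg_zero, ite_self]
    rw [this]
    unfold FS
    simp
  · have key : ∀ c : K, c ≠ 0 → (c = a ∨ c = b) → FS fun v : AbsoluteValue K ℝ =>
        if ∀ t, v (s t) ≤ 1 then - Real.log (min 1 (max (v a) (v b))) else 0 := by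
      intro c hc hc'
      have h1 := FS_log_abv hc
      unfold FS at h1 ⊢
      refine h1.subset fun v hv => ?_
      intro h2
      apply hv
      have h3 : v.val c = 1 := by
        have h4 : 0 < v.val c := v.val.pos hc
        exact Real.eq_one_of_pos_of_log_eq_zero h4 h2
      have h5 : 1 ≤ max (v.val a) (v.val b) := by
        rcases hc' with rfl | rfl
        · rw [h3]
          exact le_max_left _ _
        · rw [h3]
          exact le_max_right _ _
      show (if ∀ t, v.val (s t) ≤ 1 then - Real.log (min 1 (max (v.val a) (v.val b))) else 0) = 0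
      rw [min_eq_left h5, Real.log_one, neg_zero, ite_self]
    by_cases ha : a = 0
    · exact key b (fun hb => h ⟨ha, hb⟩) (Or.inr rfl)
    · exact key a ha (Or.inl rfl)

/-- Base change of the gain. -/
theorem gn_map {K L : Type*} [Field K] [NumberField K] [Field L] [NumberField L] [Algebra K L]
    {ι : Type*} (s : ι → K) (a b : K) :
    gn (fun t => algebraMap K L (s t)) (algebraMap K L a) (algebraMap K L b) =
      Module.finrank K L * gn s a b := by
  classical
  refine (gs_bc _ _ (BC_FS_gn s a b) (fun ψ => ?_) (fun v w n hn0 hvw => ?_)).2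
  · simp only [A7_apply]
  · simp only [hvw]
    have h1 : (∀ t, v (s t) ^ n ≤ 1) ↔ ∀ t, v (s t) ≤ 1 :=
      forall_congr' fun t => pow_le_one_iff_of_nonneg (v.nonneg _) hn0.ne'
    have h2 : min 1 (max (v a ^ n) (v b ^ n)) = (min 1 (max (v a) (v b))) ^ n := by
      have h3 : max (v a ^ n) (v b ^ n) = (max (v a) (v b)) ^ n := by
        rcases le_total (v a) (v b) with h | h
        · rw [max_eq_right h, max_eq_right (pow_le_pow_left₀ (v.nonneg _) h n)]
        · rw [max_eq_left h, max_eq_left (pow_le_pow_left₀ (v.nonneg _) h n)]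
      have h4 : 0 ≤ max (v a) (v b) := le_max_of_le_left (v.nonneg _)
      rw [h3]
      rcases le_total 1 (max (v a) (v b)) with h | h
      · rw [min_eq_left h, min_eq_left (one_le_pow₀ h), one_pow]
      · rw [min_eq_right h, min_eq_right (pow_le_one₀ h4 h)]
    rw [h2, Real.log_pow]
    by_cases h5 : ∀ t, v (s t) ≤ 1
    · rw [if_pos h5, if_pos (h1.2 h5)]
      ring
    · rw [if_neg h5, if_neg (fun h6 => h5 (h1.1 h6)), mul_zero]

theorem BC_core_nonneg {K : Type*} [Field K] (a b : K) (v : AbsoluteValue K ℝ) :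
    0 ≤ - Real.log (min 1 (max (v a) (v b))) := by
  have h1 : 0 ≤ min 1 (max (v a) (v b)) := le_min zero_le_one (le_max_of_le_left (v.nonneg _))
  have h2 := Real.log_nonpos h1 (min_le_left _ _)
  linarith

/-- Fewer coordinates: larger gain. -/
theorem gn_mono_coord {K : Type*} [Field K] [NumberField K] {ι κ : Type*} (s : ι → K) (f : κ → ι)
    (a b : K) : gn s a b ≤ gn (fun t => s (f t)) a b := by
  refine gs_le (BC_FS_gn s a b) (BC_FS_gn (fun t => s (f t)) a b) fun v _ => ?_
  by_cases h : ∀ t, v (s t) ≤ 1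
  · rw [if_pos h, if_pos fun t => h (f t)]
  · rw [if_neg h]
    split_ifs
    · exact BC_core_nonneg a b v
    · exact le_rfl

/-- The gain is at most the height. -/
theorem gn_le_ht {K : Type*} [Field K] [NumberField K] {ι : Type*} (s : ι → K)
    {a : K} (b : K) (ha : a ≠ 0) : gn s a b ≤ logHeight₁ a := by
  rw [← logHeight₁_inv a, ← gs_log_max]
  refine gs_le (BC_FS_gn s a b) (FS_log_max a⁻¹) fun v _ => ?_
  have h0 : 0 < v a := v.pos ha
  have h1 : 0 ≤ Real.log (max 1 (v a⁻¹)) := Real.log_nonneg (le_max_left _ _)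
  split_ifs
  · have h2 : min 1 (v a) ≤ min 1 (max (v a) (v b)) := min_le_min le_rfl (le_max_left _ _)
    have h3 : 0 < min 1 (v a) := lt_min one_pos h0
    have h4 := Real.log_le_log h3 h2
    have h5 : max 1 (v a⁻¹) = (min 1 (v a))⁻¹ := by
      rw [map_inv₀]
      rcases le_total 1 (v a) with h | h
      · rw [min_eq_left h, inv_one, max_eq_left (inv_le_one_of_one_le₀ h)]
      · rw [min_eq_right h, max_eq_right ((one_le_inv₀ h0).2 h)]
    rw [h5, Real.log_inv]
    linarith
  · exact h1

theorem gn_swap {K : Type*} [Field K] [AdmissibleAbsValues K] {ι : Type*} (s : ι → K)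
    (a b : K) : gn s a b = gn s b a := by
  unfold gn
  simp only [max_comm]

theorem gn_le_ht' {K : Type*} [Field K] [NumberField K] {ι : Type*} (s : ι → K)
    (a : K) {b : K} (hb : b ≠ 0) : gn s a b ≤ logHeight₁ b := by
  rw [gn_swap]
  exact gn_le_ht s a hb

end Pool.Agent.Lib.MP_17a322_nt.VN
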