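import Pool.Agent.Lib.MP_17a322_nt.VN.F3
import Pool.Agent.Lib.MP_17a322_nt.VN.BC

/-!
VN, part F: comparison of gains.
-/

universe u

namespace Pool.Agent.Lib.MP_17a322_nt.VN

open MvPolynomial Height Filter
open Pool.Agent.Lib.MP_17a322_nt.RO
open Pool.Agent.Lib.MP_17a322_nt.VJ

theorem F6_add {K : Type*} [Field K] (v : AbsoluteValue K ℝ) (x y : K) {B : ℝ}
    (hx : v x ≤ B) (hy : v y ≤ B) : v (x + y) ≤ cst v 2 * B := by
  by_cases hv : IsNonarchimedean v
  · have h1 : cst v 2 = 1 := by
      unfold cst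
      rw [if_pos hv]
    rw [h1, one_mul]
    exact (hv x y).trans (max_le hx hy)
  · have h1 : cst v 2 = 2 := by
      unfold cst
      rw [if_neg hv]
      norm_num
    rw [h1]
    have := v.add_le x y
    linarith

theorem F6_eval {K : Type*} [Field K] (v : AbsoluteValue K ℝ) {σ : Type*} [Fintype σ] (s : σ → K)
    (hs : ∀ t, v (s t) ≤ 1) (A : MvPolynomial σ K) : v (eval s A) ≤ max 1 (NV v A) := by
  have h1 := (SN_self v).aeval_le A (fun t => A.degreeOf t) (fun _ => le_rfl) s
  have h2 : ∏ t, (max 1 (v (s t))) ^ (A.degreeOf t) = 1 := by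
    apply Finset.prod_eq_one
    intro t _
    rw [max_eq_left (hs t), one_pow]
  rw [h2, mul_one] at h1
  exact h1.trans (le_max_right _ _)

/-- Combinations with polynomial coefficients do not lose much gain. -/
theorem gn_poly {K : Type u} [Field K] [NumberField K] {σ : Type*} [Fintype σ] (s : σ → K)
    (A B A' B' : MvPolynomial σ K) (a b a' b' : K) (ha : a' = eval s A * a + eval s B * b)
    (hb : b' = eval s A' * a + eval s B' * b) (h0 : a' ≠ 0 ∨ b' ≠ 0) :
    gn s a b ≤ gn s a' b' + (nh1 A + nh1 B + nh1 A' + nh1 B' +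
      totalWeight K * Real.log ((2 : ℕ) : ℝ)) := by
  have hφ : ∀ c d : K, ∃ φ : AbsoluteValue K ℝ → ℝ, FS φ ∧ gs φ = gn s c d ∧
      (∀ v, (∀ t, v (s t) ≤ 1) → φ v = - Real.log (min 1 (max (v c) (v d)))) ∧
      ∀ v, ¬ (∀ t, v (s t) ≤ 1) → φ v = 0 := fun c d =>
    ⟨_, BC_FS_gn s c d, rfl, fun v h => if_pos h, fun v h => if_neg h⟩
  obtain ⟨φ, hφ1, hφ2, hφ3, hφ4⟩ := hφ a b
  obtain ⟨φ', f1, hφ2', hφ3', hφ4'⟩ := hφ a' b'
  have fA := FS_nh1 A
  have fB := FS_nh1 B
  have fA' := FS_nh1 A'
  have fB' := FS_nh1 B'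
  have f2 := FS_log_cst (L := K) 2
  have h1 : gs φ ≤ gs fun v : AbsoluteValue K ℝ => φ' v +
      (Real.log (max 1 (NV v A)) + Real.log (max 1 (NV v B)) + Real.log (max 1 (NV v A')) +
        Real.log (max 1 (NV v B')) + Real.log (cst v 2)) := by
    refine gs_le hφ1
      (FS_add f1 (FS_add (FS_add (FS_add (FS_add fA fB) fA') fB') f2)) fun v _ => ?_
    have c1 : (1 : ℝ) ≤ max 1 (NV v A) := le_max_left _ _
    have c2 : (1 : ℝ) ≤ max 1 (NV v B) := le_max_left _ _
    have c3 : (1 : ℝ) ≤ max 1 (NV v A') := le_max_left _ _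
    have c4 : (1 : ℝ) ≤ max 1 (NV v B') := le_max_left _ _
    have c5 : (1 : ℝ) ≤ cst v 2 := one_le_cst v (by norm_num)
    obtain ⟨C, hC⟩ : ∃ C : ℝ, C = max 1 (NV v A) * max 1 (NV v B) * max 1 (NV v A') *
      max 1 (NV v B') * cst v 2 := ⟨_, rfl⟩
    have hlog : Real.log (max 1 (NV v A)) + Real.log (max 1 (NV v B)) +
        Real.log (max 1 (NV v A')) + Real.log (max 1 (NV v B')) + Real.log (cst v 2) =
        Real.log C := by
      rw [hC, Real.log_mul (by positivity) (by positivity),
        Real.log_mul (by positivity) (by positivity), Real.log_mul (by positivity) (by positivity),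
        Real.log_mul (by positivity) (by positivity)]
    have c12 : 1 ≤ max 1 (NV v A) * max 1 (NV v B) := one_le_mul_of_one_le_of_one_le c1 c2
    have c34 : 1 ≤ max 1 (NV v A') * max 1 (NV v B') := one_le_mul_of_one_le_of_one_le c3 c4
    obtain ⟨E, hE⟩ : ∃ E : ℝ, E = max 1 (NV v A) * max 1 (NV v B) * (max 1 (NV v A') *
      max 1 (NV v B')) := ⟨_, rfl⟩
    have hCE : C = cst v 2 * E := by rw [hC, hE]; ring
    have hE1 : 1 ≤ E := by rw [hE]; exact one_le_mul_of_one_le_of_one_le c12 c34
    have hC1 : 1 ≤ C := by rw [hCE]; exact one_le_mul_of_one_le_of_one_le c5 hE1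
    have eA : max 1 (NV v A) ≤ E := by
      rw [hE]
      calc max 1 (NV v A) = max 1 (NV v A) * 1 * (1 * 1) := by ring
        _ ≤ _ := by gcongr
    have eB : max 1 (NV v B) ≤ E := by
      rw [hE]
      calc max 1 (NV v B) = 1 * max 1 (NV v B) * (1 * 1) := by ring
        _ ≤ _ := by gcongr
    have eA' : max 1 (NV v A') ≤ E := by
      rw [hE]
      calc max 1 (NV v A') = 1 * 1 * (max 1 (NV v A') * 1) := by ring
        _ ≤ _ := by gcongr
    have eB' : max 1 (NV v B') ≤ E := by
      rw [hE]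
      calc max 1 (NV v B') = 1 * 1 * (1 * max 1 (NV v B')) := by ring
        _ ≤ _ := by gcongr
    rw [hlog]
    by_cases hs : ∀ t, v (s t) ≤ 1
    · rw [hφ3 v hs, hφ3' v hs]
      have hE0 : 0 ≤ E := zero_le_one.trans hE1
      have hM : 0 ≤ max (v a) (v b) := le_max_of_le_left (v.nonneg _)
      have key : ∀ P Q : MvPolynomial σ K, max 1 (NV v P) ≤ E → max 1 (NV v Q) ≤ E →
          v (eval s P * a + eval s Q * b) ≤ C * max (v a) (v b) := by
        intro P Q hP hQ
        rw [hCE, mul_assoc]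
        refine F6_add v _ _ ?_ ?_
        · rw [map_mul]
          exact mul_le_mul ((F6_eval v s hs P).trans hP) (le_max_left _ _) (v.nonneg _) hE0
        · rw [map_mul]
          exact mul_le_mul ((F6_eval v s hs Q).trans hQ) (le_max_right _ _) (v.nonneg _) hE0
      have k1 : max (v a') (v b') ≤ C * max (v a) (v b) := by
        refine max_le ?_ ?_
        · rw [ha]
          exact key A B eA eB
        · rw [hb]
          exact key A' B' eA' eB'
      have k2 : 0 < max (v a') (v b') := by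
        rcases h0 with h | h
        · exact lt_max_of_lt_left (v.pos h)
        · exact lt_max_of_lt_right (v.pos h)
      have k3 : 0 < max (v a) (v b) := by
        by_contra hc
        have h3 : max (v a) (v b) = 0 := le_antisymm (not_lt.mp hc) hM
        rw [h3, mul_zero] at k1
        linarith
      have k4 : min 1 (max (v a') (v b')) ≤ C * min 1 (max (v a) (v b)) := by
        rw [mul_min_of_nonneg _ _ (zero_le_one.trans hC1), mul_one]
        exact min_le_min hC1 k1
      have k5 := Real.log_le_log (lt_min one_pos k2) k4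
      rw [Real.log_mul (by linarith) (lt_min one_pos k3).ne'] at k5
      linarith
    · rw [hφ4 v hs, hφ4' v hs, zero_add]
      exact Real.log_nonneg hC1
  rw [gs_add f1 (FS_add (FS_add (FS_add (FS_add fA fB) fA') fB') f2),
    gs_add (FS_add (FS_add (FS_add fA fB) fA') fB') f2, gs_add (FS_add (FS_add fA fB) fA') fB',
    gs_add (FS_add fA fB) fA', gs_add fA fB, hφ2, hφ2'] at h1
  have h2 := gs_log_cst (L := K) (n := 2) (by norm_num)
  refine h1.trans ?_
  show gn s a' b' + (nh1 A + nh1 B + nh1 A' + nh1 B' + _) ≤ _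
  linarith

end Pool.Agent.Lib.MP_17a322_nt.VN
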