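import Pool.Agent.Lib.MP_17a322_nt.VN.L0
import Pool.Agent.Lib.MP_17a322_nt.VJ.G8

/-!
Part L-II of VN: field of definition.

The proof of `exists_field_of_def` (VJ/G8) with `Fin n` for `Fin 2` and
`S := (⋃ t, co t (w t)) ∪ Set.range ζ`.
-/

universe u

namespace Pool.Agent.Lib.MP_17a322_nt.VN

open MvPolynomial Height
open Pool.Agent.Lib.MP_17a322_nt.RO
open Pool.Agent.Lib.MP_17a322_nt.VJ

theorem exists_field_of_def_n {K : Type u} [Field K] [NumberField K] {Ω : Type u} [Field Ω]
    [DecidableEq Ω] [Algebra K Ω] [Algebra.IsAlgebraic K Ω] {n : ℕ}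
    (W : Fin n → WeierstrassCurve K)
    (V : Fin n → WeierstrassCurve Ω) (hV : ∀ t, (W t).map (algebraMap K Ω) = V t)
    (w : ∀ t, (V t).toAffine.Point) {κ : Type*} [Finite κ] (ζ : κ → Ω) :
    ∃ (L : Type u) (_ : Field L) (_ : NumberField L) (_ : DecidableEq L) (_ : Algebra K L)
      (_ : Algebra L Ω) (_ : IsScalarTower K L Ω) (V' : Fin n → WeierstrassCurve L)
      (g : ∀ t, (V' t).toAffine.Point →+ (V t).toAffine.Point)
      (w' : ∀ t, (V' t).toAffine.Point) (ζ' : κ → L),
      (∀ t, (W t).map (algebraMap K L) = V' t) ∧ (∀ t, PB (V' t) (V t) (g t)) ∧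
        (∀ t, g t (w' t) = w t) ∧ ∀ k, algebraMap L Ω (ζ' k) = ζ k := by
  classical
  obtain rfl : (fun t => (W t).map (algebraMap K Ω)) = V := funext hV
  let co : ∀ t, ((W t).map (algebraMap K Ω)).toAffine.Point → Set Ω := fun t R =>
    match R with
    | .zero => ∅
    | .some x y _ => {x, y}
  have hco : ∀ t R, (co t R).Finite := by
    intro t R
    cases R with
    | zero => exact Set.finite_empty
    | some x y h => exact Set.toFinite {x, y}
  let S : Set Ω := (⋃ t, co t (w t)) ∪ Set.range ζ
  have hS : S.Finite := (Set.finite_iUnion fun t => hco t _).union (Set.finite_range ζ)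
  let L' : IntermediateField K Ω := IntermediateField.adjoin K S
  have : Finite S := hS
  have hfin : FiniteDimensional K L' :=
    IntermediateField.finiteDimensional_adjoin fun x _ =>
      (Algebra.IsAlgebraic.isAlgebraic (R := K) x).isIntegral
  have : NumberField L' := NumberField.of_module_finite K L'
  let v : L' →ₐ[K] Ω := L'.val
  have hlift : ∀ t, ∀ R : ((W t).map (algebraMap K Ω)).toAffine.Point, co t R ⊆ S →
      ∃ R₀ : ((W t).map (algebraMap K L')).toAffine.Point,
        WeierstrassCurve.Affine.Point.map (W' := (W t).toAffine) v R₀ = R := by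
    intro t R hR
    cases R with
    | zero => exact ⟨0, rfl⟩
    | some x y h =>
      have hx : x ∈ L' := IntermediateField.subset_adjoin K S (hR (Or.inl rfl))
      have hy : y ∈ L' := IntermediateField.subset_adjoin K S (hR (Or.inr rfl))
      have hns := ((W t).toAffine.baseChange_nonsingular v.injective
        (⟨x, hx⟩ : L') (⟨y, hy⟩ : L')).mp h
      exact ⟨WeierstrassCurve.Affine.Point.some _ _ hns, rfl⟩
  choose w' hw' using fun t => hlift t (w t) (fun z hz => Or.inl (Set.mem_iUnion.2 ⟨t, hz⟩))
  refine ⟨L', inferInstance, inferInstance, inferInstance, inferInstance, inferInstance,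
    inferInstance, fun t => (W t).map (algebraMap K L'),
    fun t => WeierstrassCurve.Affine.Point.map (W' := (W t).toAffine) v, w',
    fun k => ⟨ζ k, IntermediateField.subset_adjoin K S (Or.inr ⟨k, rfl⟩)⟩, fun t => rfl, ?_, hw',
    fun k => rfl⟩
  intro t P i
  cases P with
  | zero =>
    have h : (WeierstrassCurve.Affine.Point.map (W' := (W t).toAffine) v
        (WeierstrassCurve.Affine.Point.zero :
          ((W t).map (algebraMap K L')).toAffine.Point)).xRep = ![1, 0] := rfl
    refine (congrFun h i).trans ?_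
    have h' : ((WeierstrassCurve.Affine.Point.zero :
          ((W t).map (algebraMap K L')).toAffine.Point)).xRep = ![1, 0] := rfl
    rw [h']
    fin_cases i
    · exact (map_one _).symm
    · exact (map_zero _).symm
  | some x y h =>
    fin_cases i
    · rfl
    · exact (map_one _).symm

end Pool.Agent.Lib.MP_17a322_nt.VN
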