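import Pool.Agent.Lib.MP_17a322_nt.VN.L2C1a
import Pool.Agent.Lib.MP_17a322_nt.VN.L2C1b
import Pool.Agent.Lib.MP_17a322_nt.VJ.E9

/-!
Part L-II of VN: (II.3).

`exists_mem_ne`: if `aeval s c = 0` for all `s` with `s y ∈ T y`, then `map (algebraMap K Ω) c = 0` by
`MvPolynomial.funext_set` (`aeval s c = eval s (map (algebraMap K Ω) c)`), so `c = 0` (`map_injective`).

`choose_L`: `Ω = AlgebraicClosure K`, `V t = (W t).map (algebraMap K Ω)` (elliptic: instance for `map`),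
`fΩ t` from `exists_PB` (VJ/E7). `exists_mem_ne` for `c` and the sets: for `Sum.inl t` the set of
`infinite_xx` (L2C1a) for `R = fΩ t (P₀ t)`, `S i = fΩ t (P i t)`, and for `Sum.inr p` the roots of unity
(`infinite_root_one`): `s` with `aeval s c ≠ 0`; let `w t` be the points with
`s (inl t) = (fΩ t (P₀ t) + w t).xRep 0`, `ζ p = s (inr p)`. `L`, `V'`, `g`, `w'`, `ζ'` from
`exists_field_of_def_n` (L2C1b). `f t` with `g t (f t Q) = fΩ t Q`, `PB (W t) (V' t) (f t)` from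
`exists_PB_comp` (VJ/E9). `z t = w' t`. All conditions follow by applying the homomorphisms `g t`
(`map_add`, `map_sub`, `map_nsmul`) and `algebraMap L Ω` (injective; `PB.xRep`, VJ/E7); compare the proof of
`vanishing_alg` (VJ/G12). `aeval (Sum.elim .. ζ') c ≠ 0` since its image under `algebraMap L Ω` (`IsScalarTower`,
`map_aeval` / `IsScalarTower.toAlgHom K L Ω`) is `aeval s c`.
-/

universe u

namespace Pool.Agent.Lib.MP_17a322_nt.VN

open MvPolynomial Height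
open Pool.Agent.Lib.MP_17a322_nt.RO
open Pool.Agent.Lib.MP_17a322_nt.VJ

theorem exists_mem_ne {K Ω : Type*} [Field K] [Field Ω] [Algebra K Ω] {σ : Type*}
    (c : MvPolynomial σ K) (hc : c ≠ 0) (T : σ → Set Ω) (hT : ∀ y, (T y).Infinite) :
    ∃ s : σ → Ω, (∀ y, s y ∈ T y) ∧ aeval s c ≠ 0 := by
  by_contra hcon
  push Not at hcon
  have h1 : MvPolynomial.map (algebraMap K Ω) c = 0 := by
    refine MvPolynomial.funext_set T hT fun x hx => ?_
    rw [eval_map, map_zero]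
    have h2 := hcon x fun y => hx y (Set.mem_univ y)
    rwa [aeval_def] at h2
  exact hc ((MvPolynomial.map_injective _ (algebraMap K Ω).injective) (by rw [h1, map_zero]))

/-- (II.3) The auxiliary point, the roots of unity and the field `L`. -/
theorem choose_L {K : Type u} [Field K] [NumberField K] [DecidableEq K] {m n : ℕ}
    (W : Fin n → WeierstrassCurve K) [∀ t, (W t).IsElliptic]
    (P₀ : ∀ t, (W t).toAffine.Point) (P : Fin m → ∀ t, (W t).toAffine.Point) (j : Fin m → ℕ)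
    (c : MvPolynomial (Fin n ⊕ (Fin m × Fin n)) K) (hc : c ≠ 0) :
    ∃ (L : Type u) (_ : Field L) (_ : NumberField L) (_ : DecidableEq L) (_ : Algebra K L)
      (V : Fin n → WeierstrassCurve L) (f : ∀ t, (W t).toAffine.Point →+ (V t).toAffine.Point)
      (z : ∀ t, (V t).toAffine.Point) (ζ : Fin m × Fin n → L),
      (∀ t, (W t).map (algebraMap K L) = V t) ∧ (∀ t, PB (W t) (V t) (f t)) ∧
      (∀ t, z t ≠ 0 ∧ ∃ N, 0 < N ∧ (z t).xRep 0 ^ N = 1) ∧ (∀ t, f t (P₀ t) + z t ≠ 0) ∧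
      (∀ i t, f t (P i t) - 2 ^ j i • (f t (P₀ t) + z t) ≠ 0) ∧
      (∀ i t, 2 ^ (j i + 1) • (f t (P₀ t) + z t) ≠ 0) ∧ (∀ p, ∃ N, 0 < N ∧ ζ p ^ N = 1) ∧
      aeval (Sum.elim (fun t => (f t (P₀ t) + z t).xRep 0) ζ) c ≠ 0 := by
  classical
  let Ω := AlgebraicClosure K
  let _ : DecidableEq Ω := Classical.decEq _
  let V : Fin n → WeierstrassCurve Ω := fun t => (W t).map (algebraMap K Ω)
  have hVe : ∀ t, (V t).IsElliptic := fun t =>
    inferInstanceAs ((W t).map (algebraMap K Ω)).IsElliptic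
  have hex0 : ∀ t, ∃ f : (W t).toAffine.Point →+ (V t).toAffine.Point, PB (W t) (V t) f :=
    fun t => exists_PB (W t) (V t) rfl
  choose fΩ hfΩ using hex0
  let T : Fin n ⊕ (Fin m × Fin n) → Set Ω := Sum.elim
    (fun t => {ξ : Ω | ∃ w : (V t).toAffine.Point, w ≠ 0 ∧ (∃ N, 0 < N ∧ w.xRep 0 ^ N = 1) ∧
      fΩ t (P₀ t) + w ≠ 0 ∧ (∀ i, fΩ t (P i t) - 2 ^ j i • (fΩ t (P₀ t) + w) ≠ 0) ∧
      (∀ i, 2 ^ (j i + 1) • (fΩ t (P₀ t) + w) ≠ 0) ∧ ξ = (fΩ t (P₀ t) + w).xRep 0})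
    (fun _ => {ζ : Ω | ∃ N, 0 < N ∧ ζ ^ N = 1})
  have hT : ∀ y, (T y).Infinite := by
    rintro (t | p)
    · exact infinite_xx (V t) (fΩ t (P₀ t)) (fun i => fΩ t (P i t)) j
    · exact infinite_root_one Ω
  obtain ⟨s, hs, hsc⟩ := exists_mem_ne c hc T hT
  have hs1 : ∀ t, ∃ w : (V t).toAffine.Point, w ≠ 0 ∧ (∃ N, 0 < N ∧ w.xRep 0 ^ N = 1) ∧
      fΩ t (P₀ t) + w ≠ 0 ∧ (∀ i, fΩ t (P i t) - 2 ^ j i • (fΩ t (P₀ t) + w) ≠ 0) ∧
      (∀ i, 2 ^ (j i + 1) • (fΩ t (P₀ t) + w) ≠ 0) ∧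
      s (Sum.inl t) = (fΩ t (P₀ t) + w).xRep 0 := fun t => hs (Sum.inl t)
  have hs2 : ∀ p, ∃ N, 0 < N ∧ s (Sum.inr p) ^ N = 1 := fun p => hs (Sum.inr p)
  choose w hw0 hwN hw1 hw2 hw3 hw4 using hs1
  obtain ⟨L, _, _, _, _, _, _, V', g, w', ζ', hV', hg, hw', hζ'⟩ :=
    exists_field_of_def_n W V (fun t => rfl) w (fun p => s (Sum.inr p))
  have hex : ∀ t, ∃ f : (W t).toAffine.Point →+ (V' t).toAffine.Point,
      PB (W t) (V' t) f ∧ ∀ Q, g t (f Q) = fΩ t Q :=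
    fun t => exists_PB_comp (hV' t) (hfΩ t) (hg t)
  choose f hf hfg using hex
  have hinj : Function.Injective (algebraMap L Ω) := (algebraMap L Ω).injective
  have hz : ∀ t, g t (f t (P₀ t) + w' t) = fΩ t (P₀ t) + w t := by
    intro t
    rw [map_add, hfg, hw']
  have hQ : ∀ i t, g t (f t (P i t) - 2 ^ j i • (f t (P₀ t) + w' t)) =
      fΩ t (P i t) - 2 ^ j i • (fΩ t (P₀ t) + w t) := by
    intro i t
    rw [map_sub, map_nsmul, hz, hfg]
  refine ⟨L, inferInstance, inferInstance, inferInstance, inferInstance, V', f, w', ζ', hV', hf,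
    ?_, ?_, ?_, ?_, ?_, ?_⟩
  · intro t
    refine ⟨fun h => hw0 t (by rw [← hw' t, h, map_zero]), ?_⟩
    obtain ⟨N, hN, hN1⟩ := hwN t
    refine ⟨N, hN, hinj ?_⟩
    rw [map_pow, map_one, ← hg t, hw', hN1]
  · intro t h
    exact hw1 t (by rw [← hz t, h, map_zero])
  · intro i t h
    exact hw2 t i (by rw [← hQ i t, h, map_zero])
  · intro i t h
    exact hw3 t i (by rw [← hz t, ← map_nsmul, h, map_zero])
  · intro p
    obtain ⟨N, hN, hN1⟩ := hs2 p
    refine ⟨N, hN, hinj ?_⟩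
    rw [map_pow, map_one, hζ', hN1]
  · intro h
    apply hsc
    have h2 := congrArg (IsScalarTower.toAlgHom K L Ω) h
    rw [map_zero, comp_aeval_apply] at h2
    have e1 : (fun i => (IsScalarTower.toAlgHom K L Ω)
        (Sum.elim (fun t => (f t (P₀ t) + w' t).xRep 0) ζ' i)) = s := by
      funext i
      rcases i with t | p
      · rw [hw4 t, ← hz t, hg t]
        rfl
      · exact hζ' p
    rw [e1] at h2
    exact h2

end Pool.Agent.Lib.MP_17a322_nt.VN
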