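import Pool.Agent.Lib.MP_17a322_nt.VN.L1t

/-!
# JOB L1w: the numerical end

PROOFS.
`choose_m`: any `m ≥ max 1 (64 / ε)` and `m ≥ 256 * c₀ / ε ^ 2`: `8 ≤ m ε / 8`, and `(2 N) ^ 2 = 4 N ^ 2 ≤ 4 c₀ m ≤ (m ε / 8) ^ 2`, so `2 N ≤ m ε / 8` (`abs_le_of_sq_le_sq` / `pow_le_pow_left₀`).
`geom_J`: `R₀ ≥ 2` and the gap condition make `j` injective (`i < i'` gives `4 ^ j i < 4 ^ j i'`); so `∑ i, 4 ^ j i = ∑ over the image ≤ ∑_{l < J + 1} 4 ^ l = (4 ^ (J + 1) - 1) / 3 ≤ 2 * 4 ^ J` (`Finset.sum_image`, `Finset.sum_le_sum_of_subset_of_nonneg`, `geom_sum_eq`; or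
prove `∑_{l < J + 1} 4 ^ l ≤ 2 * 4 ^ J` by induction).
`numeric_end`: put `x = 4 ^ J`, `η = min of 1 / 8, 1 / (n + 1), ε / (32 (N n + 1)), ε / (32 (n C₁ N + 1))`, so `η ≤ 1 / 8`, `n η ≤ 1`, `2 N n η ≤ ε / 16`, `2 n η C₁ N ≤ ε / 16`;
`C₀ = (CF + C + m C C₁ N + m ε / 8) / (3 m ε / 8) + 1`. `4 ^ (J - j i) * 4 ^ j i = x` (`j i ≤ J`). Estimates of the parts of `INEQ`: `h ≤ CF x`; `∑ 4 * 4 ^ j i * H ≤ 8 x H`; for every `i`:
`2 N 4 ^ (J - j i) E i ≤ 2 N n η x H ≤ (ε / 16) x H`; `s i (C 4 ^ j i + 2 E i) ≤ (4 ^ j i s i) (C + 2 n η H) ≤ C₁ N x (C + 2 n η H) ≤ (C C₁ N + (ε / 16) H) x`;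
the gain: `hP i ≥ (1 - η) 4 ^ j i H ≥ (7 / 8) 4 ^ j i H ≥ 0`, `(4 ^ (J - j i) - s i : ℕ) * g i + s i * sl i ≥ ((4 ^ (J - j i) - s i : ℕ) + s i) * (ε (7 / 8) 4 ^ j i H) ≥ 4 ^ (J - j i) * (..) = (7 / 8) ε x H` (natural subtraction:
`4 ^ (J - j i) ≤ (4 ^ (J - j i) - s i) + s i`; if `s i = 0` then `s i * sl i = 0`); the last part: `(4 ^ j i)⁻¹ * (C (4 ^ j i + hP i) + 2 E i) ≤ C (1 + 2 H) + 2 n η H ≤ (2 C + 2) (1 + H)`, times `a ≤ s₀ C₁ N x`, is `≤ (ε / 8) x (1 + H)`.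
Sum over the `m` values of `i`, `(2 N + 8) H ≤ (m ε / 4) H`: `0 ≤ x * (CF + C + m C C₁ N + m ε / 8 + H * m ε (1 / 4 + 1 / 16 + 1 / 16 + 1 / 8 - 7 / 8))`, and the coefficient of `H` is `- 3 m ε / 8`. Divide by `x > 0`: contradiction to `C₀ ≤ H`.
-/

namespace Pool.Agent.Lib.MP_17a322_nt.VN

theorem choose_m (c₀ : ℕ) (ε : ℝ) (hε : 0 < ε) :
    ∃ m : ℕ, 1 ≤ m ∧ ∀ N : ℕ, N ^ 2 ≤ c₀ * m → (2 * N + 8 : ℝ) ≤ m * ε / 4 := by
  obtain ⟨m1, hm1⟩ := exists_nat_ge (64 / ε)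
  obtain ⟨m2, hm2⟩ := exists_nat_ge (256 * (c₀ : ℝ) / ε ^ 2)
  refine ⟨m1 + m2 + 1, by omega, fun N hN => ?_⟩
  have hN' : (N : ℝ) ^ 2 ≤ c₀ * ((m1 + m2 + 1 : ℕ) : ℝ) := by exact_mod_cast hN
  have hm1' : 64 ≤ (m1 : ℝ) * ε := by rwa [div_le_iff₀ hε] at hm1
  have hm2' : 256 * (c₀ : ℝ) ≤ (m2 : ℝ) * ε ^ 2 := by rwa [div_le_iff₀ (by positivity)] at hm2
  obtain ⟨M, hM⟩ : ∃ M : ℝ, M = ((m1 + m2 + 1 : ℕ) : ℝ) := ⟨_, rfl⟩
  have hMc : M = (m1 : ℝ) + m2 + 1 := by rw [hM]; push_cast; ring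
  rw [← hM] at hN' ⊢
  have h1 : (0 : ℝ) ≤ m1 := Nat.cast_nonneg _
  have h2 : (0 : ℝ) ≤ m2 := Nat.cast_nonneg _
  have hM0 : 0 ≤ M := by rw [hMc]; positivity
  have h3 : 8 ≤ M * ε / 8 := by
    have h4 : (m1 : ℝ) * ε ≤ M * ε := mul_le_mul_of_nonneg_right (by rw [hMc]; linarith) hε.le
    linarith
  have h5 : 256 * (c₀ : ℝ) ≤ M * ε ^ 2 :=
    hm2'.trans (mul_le_mul_of_nonneg_right (by rw [hMc]; linarith) (by positivity))
  have h6 : (2 * (N : ℝ)) ^ 2 ≤ (M * ε / 8) ^ 2 := by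
    have h7 : 256 * (c₀ : ℝ) * M ≤ M * ε ^ 2 * M := mul_le_mul_of_nonneg_right h5 hM0
    nlinarith
  have h8 : 2 * (N : ℝ) ≤ M * ε / 8 := by
    refine (pow_le_pow_iff_left₀ (by positivity) (by positivity) two_ne_zero).1 h6
  linarith

theorem geom_J {m : ℕ} (j : Fin m → ℕ) (J R₀ : ℕ) (hJ : ∀ i, j i ≤ J) (hR : 2 ≤ R₀)
    (h : ∀ i i', i < i' → R₀ * 4 ^ j i ≤ 4 ^ j i') : ∑ i, (4 : ℝ) ^ j i ≤ 2 * 4 ^ J := by
  have hmono : ∀ i i', i < i' → j i < j i' := by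
    intro i i' hii
    have h1 := h i i' hii
    have h2 : 4 ^ j i < 4 ^ j i' := by
      have h3 : 0 < 4 ^ j i := by positivity
      have h4 : 2 * 4 ^ j i ≤ R₀ * 4 ^ j i := Nat.mul_le_mul_right _ hR
      omega
    exact (Nat.pow_lt_pow_iff_right (by norm_num)).1 h2
  have hinj : Function.Injective j := by
    intro i i' hii
    rcases lt_trichotomy i i' with h1 | h1 | h1
    · exact absurd hii (hmono i i' h1).ne
    · exact h1
    · exact absurd hii (hmono i' i h1).ne'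
  have h1 : ∑ i, (4 : ℝ) ^ j i = ∑ l ∈ Finset.univ.image j, (4 : ℝ) ^ l := by
    rw [Finset.sum_image]
    exact fun a _ b _ hab => hinj hab
  have h2 : Finset.univ.image j ⊆ Finset.range (J + 1) := by
    intro l hl
    obtain ⟨i, -, rfl⟩ := Finset.mem_image.1 hl
    exact Finset.mem_range.2 (Nat.lt_succ_of_le (hJ i))
  have h3 : ∀ K : ℕ, ∑ l ∈ Finset.range (K + 1), (4 : ℝ) ^ l ≤ 2 * 4 ^ K := by
    intro K
    induction K with
    | zero => norm_num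
    | succ K ih =>
      rw [Finset.sum_range_succ]
      have h4 : (4 : ℝ) ^ (K + 1) = 4 * 4 ^ K := by ring
      have h5 : (0 : ℝ) < 4 ^ K := by positivity
      rw [h4]
      linarith
  rw [h1]
  exact (Finset.sum_le_sum_of_subset_of_nonneg h2 fun _ _ _ => by positivity).trans (h3 J)

theorem numeric_end (n m N : ℕ) (ε C C₁ s₀ CF : ℝ) (hε : 0 < ε) (hm : 1 ≤ m)
    (hNε : (2 * N + 8 : ℝ) ≤ m * ε / 4) (hC : 0 ≤ C) (hC₁ : 0 ≤ C₁) (hs₀ : 0 < s₀)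
    (hs : s₀ * (C₁ * N) * (2 * C + 2) ≤ ε / 8) (hCF : 0 ≤ CF) :
    ∃ η C₀ : ℝ, 0 < η ∧ 0 ≤ C₀ ∧ ∀ (h H : ℝ) (J : ℕ) (j s : Fin m → ℕ)
      (E g sl hP : Fin m → ℝ) (a : ℕ), (∀ i, j i ≤ J) → ∑ i, (4 : ℝ) ^ j i ≤ 2 * 4 ^ J →
      C₀ ≤ H → h ≤ CF * 4 ^ J → (∀ i, 0 ≤ E i) → (∀ i, E i ≤ n * (η * (4 ^ j i * H))) →
      (∀ i, |hP i - 4 ^ j i * H| ≤ η * (4 ^ j i * H)) → (∀ i, ε * hP i ≤ g i) →
      (∀ i, s i = 0 ∨ ε * hP i ≤ sl i) →
      (∀ i, (4 : ℝ) ^ j i * s i ≤ C₁ * (N * 4 ^ J)) → (a : ℝ) < s₀ * (C₁ * (N * 4 ^ J)) →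
      INEQ C h H N J j s E g sl hP a → False := by
  obtain ⟨η, hηdef⟩ : ∃ η : ℝ, η = min (min (1 / 8) (1 / ((n : ℝ) + 1)))
      (min (ε / (32 * ((N : ℝ) * n + 1))) (ε / (32 * (n * (C₁ * N) + 1)))) := ⟨_, rfl⟩
  have hn0 : (0 : ℝ) ≤ n := Nat.cast_nonneg _
  have hN0 : (0 : ℝ) ≤ N := Nat.cast_nonneg _
  have hm0 : (0 : ℝ) < m := by exact_mod_cast hm
  have hC₁N : 0 ≤ C₁ * N := mul_nonneg hC₁ hN0
  have hη0 : 0 < η := by
    rw [hηdef]
    refine lt_min (lt_min (by norm_num) (by positivity)) (lt_min (by positivity) (by positivity))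
  have hη1 : η ≤ 1 / 8 := by
    rw [hηdef]
    exact (min_le_left _ _).trans (min_le_left _ _)
  have hη2 : n * η ≤ 1 := by
    have h1 : η ≤ 1 / ((n : ℝ) + 1) := by
      rw [hηdef]
      exact (min_le_left _ _).trans (min_le_right _ _)
    rw [le_div_iff₀ (by positivity)] at h1
    nlinarith
  have hη3 : 2 * N * (n * η) ≤ ε / 16 := by
    have h1 : η ≤ ε / (32 * ((N : ℝ) * n + 1)) := by
      rw [hηdef]
      exact (min_le_right _ _).trans (min_le_left _ _)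
    rw [le_div_iff₀ (by positivity)] at h1
    nlinarith
  have hη4 : 2 * (n * η) * (C₁ * N) ≤ ε / 16 := by
    have h1 : η ≤ ε / (32 * (n * (C₁ * N) + 1)) := by
      rw [hηdef]
      exact (min_le_right _ _).trans (min_le_right _ _)
    rw [le_div_iff₀ (by positivity)] at h1
    nlinarith
  obtain ⟨K0, hK0⟩ : ∃ K0 : ℝ, K0 = CF + C + m * (C * (C₁ * N)) + m * ε / 8 := ⟨_, rfl⟩
  have hK0' : 0 ≤ K0 := by rw [hK0]; positivity
  have h38 : 0 < 3 * (m * ε) / 8 := by positivity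
  refine ⟨η, K0 / (3 * (m * ε) / 8) + 1, hη0, by positivity, ?_⟩
  intro h H J j s E g sl hP a hJ hsum hCH hh hE0 hE hhP hg hsl hsi ha hineq
  have hH1 : 1 ≤ H := le_trans (by have := div_nonneg hK0' h38.le; linarith) hCH
  have hH0 : 0 ≤ H := by linarith
  have hKH : K0 + 3 * (m * ε) / 8 ≤ 3 * (m * ε) / 8 * H := by
    have h1 : K0 / (3 * (m * ε) / 8) ≤ H - 1 := by linarith
    rw [div_le_iff₀ h38] at h1
    linarith
  obtain ⟨x, hx⟩ : ∃ x : ℝ, x = 4 ^ J := ⟨_, rfl⟩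
  have hx0 : 0 < x := by rw [hx]; positivity
  have hterm : ∀ i, (4 * 4 ^ j i * H + 2 * N * 4 ^ (J - j i) * E i + s i * (C * 4 ^ j i + 2 * E i) -
      ((4 ^ (J - j i) - s i : ℕ) : ℝ) * g i - s i * sl i) ≤
      4 * H * 4 ^ j i + x * (C * (C₁ * N) + (ε / 16 + ε / 16 - 7 / 8 * ε) * H) := by
    intro i
    obtain ⟨p, hp⟩ : ∃ p : ℝ, p = 4 ^ j i := ⟨_, rfl⟩
    obtain ⟨q, hq⟩ : ∃ q : ℝ, q = 4 ^ (J - j i) := ⟨_, rfl⟩
    have hp0 : 0 < p := by rw [hp]; positivity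
    have hq0 : 0 < q := by rw [hq]; positivity
    have hpq : q * p = x := by
      rw [hp, hq, hx, ← pow_add, Nat.sub_add_cancel (hJ i)]
    have hs0 : (0 : ℝ) ≤ s i := Nat.cast_nonneg _
    have e1 := hE i
    have e2 := hsi i
    have e3 := hhP i
    have e4 := hg i
    have e5 := hsl i
    have e6 := hE0 i
    rw [← hp] at e1 e2 e3
    rw [← hx] at e2
    rw [← hp, ← hq]
    have hw : ((4 ^ (J - j i) - s i : ℕ) : ℝ) + s i ≥ q := by
      have h1 : 4 ^ (J - j i) ≤ (4 ^ (J - j i) - s i) + s i := le_tsub_add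
      rw [hq]
      exact_mod_cast h1
    obtain ⟨w, hwdef⟩ : ∃ w : ℝ, w = ((4 ^ (J - j i) - s i : ℕ) : ℝ) := ⟨_, rfl⟩
    rw [← hwdef] at hw ⊢
    have hw0 : 0 ≤ w := by rw [hwdef]; exact Nat.cast_nonneg _
    -- part 1
    have a1 : 2 * N * q * E i ≤ ε / 16 * (x * H) := by
      have h1 : 2 * N * q * E i ≤ 2 * N * q * (n * (η * (p * H))) :=
        mul_le_mul_of_nonneg_left e1 (by positivity)
      have h2 : 2 * N * q * (n * (η * (p * H))) = 2 * N * (n * η) * (x * H) := by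
        rw [← hpq]; ring
      rw [h2] at h1
      exact h1.trans (mul_le_mul_of_nonneg_right hη3 (by positivity))
    -- part 2
    have a2 : s i * (C * p + 2 * E i) ≤ x * (C * (C₁ * N)) + ε / 16 * (x * H) := by
      have h1 : s i * (C * p + 2 * E i) ≤ s i * (C * p + 2 * (n * (η * (p * H)))) :=
        mul_le_mul_of_nonneg_left (by linarith) hs0
      have h2 : s i * (C * p + 2 * (n * (η * (p * H)))) = (p * s i) * (C + 2 * (n * η) * H) := by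
        ring
      have h3 : (p * s i) * (C + 2 * (n * η) * H) ≤ (C₁ * (N * x)) * (C + 2 * (n * η) * H) :=
        mul_le_mul_of_nonneg_right e2 (by positivity)
      have h4 : (C₁ * (N * x)) * (C + 2 * (n * η) * H) =
          x * (C * (C₁ * N)) + 2 * (n * η) * (C₁ * N) * (x * H) := by ring
      have h5 : 2 * (n * η) * (C₁ * N) * (x * H) ≤ ε / 16 * (x * H) :=
        mul_le_mul_of_nonneg_right hη4 (by positivity)
      linarith
    -- part 3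
    have a3 : 7 / 8 * ε * (x * H) ≤ w * g i + s i * sl i := by
      have hy : 7 / 8 * (p * H) ≤ hP i := by
        have h1 := (abs_le.1 e3).1
        have h2 : η * (p * H) ≤ 1 / 8 * (p * H) :=
          mul_le_mul_of_nonneg_right hη1 (by positivity)
        linarith
      have hy2 : ε * (7 / 8 * (p * H)) ≤ ε * hP i := mul_le_mul_of_nonneg_left hy hε.le
      have h1 : w * (ε * (7 / 8 * (p * H))) ≤ w * g i :=
        mul_le_mul_of_nonneg_left (hy2.trans e4) hw0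
      have h2 : s i * (ε * (7 / 8 * (p * H))) ≤ s i * sl i := by
        rcases e5 with h0 | h0
        · rw [h0]
          simp
        · exact mul_le_mul_of_nonneg_left (hy2.trans h0) hs0
      have h3 : q * (ε * (7 / 8 * (p * H))) ≤ (w + s i) * (ε * (7 / 8 * (p * H))) :=
        mul_le_mul_of_nonneg_right hw (by positivity)
      have h4 : q * (ε * (7 / 8 * (p * H))) = 7 / 8 * ε * (x * H) := by
        rw [← hpq]; ring
      linarith
    linarith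
  have hlast : ∀ i, (4 ^ j i : ℝ)⁻¹ * (C * (4 ^ j i + hP i) + 2 * E i) ≤ (2 * C + 2) * (1 + H) := by
    intro i
    obtain ⟨p, hp⟩ : ∃ p : ℝ, p = 4 ^ j i := ⟨_, rfl⟩
    have hp0 : 0 < p := by rw [hp]; positivity
    have e1 := hE i
    have e3 := hhP i
    rw [← hp] at e1 e3 ⊢
    rw [inv_mul_le_iff₀ hp0]
    have hy : hP i ≤ 2 * (p * H) := by
      have h1 := (abs_le.1 e3).2
      have h2 : η * (p * H) ≤ 1 / 8 * (p * H) :=
        mul_le_mul_of_nonneg_right hη1 (by positivity)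
      have h3 : 0 ≤ p * H := by positivity
      linarith
    have h1 : C * (p + hP i) ≤ C * (p + 2 * (p * H)) :=
      mul_le_mul_of_nonneg_left (by linarith) hC
    have h2 : n * (η * (p * H)) ≤ p * H := by
      have h3 : n * η * (p * H) ≤ 1 * (p * H) := mul_le_mul_of_nonneg_right hη2 (by positivity)
      linarith
    have h4 : 0 ≤ p * C := by positivity
    have h5 : p * ((2 * C + 2) * (1 + H)) = C * (p + 2 * (p * H)) + 2 * (p * H) + (p * C + 2 * p) := by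
      ring
    rw [h5]
    linarith
  have hS1 : ∑ i, (4 * 4 ^ j i * H + 2 * N * 4 ^ (J - j i) * E i + s i * (C * 4 ^ j i + 2 * E i) -
      ((4 ^ (J - j i) - s i : ℕ) : ℝ) * g i - s i * sl i) ≤
      8 * (x * H) + m * (x * (C * (C₁ * N) + (ε / 16 + ε / 16 - 7 / 8 * ε) * H)) := by
    refine (Finset.sum_le_sum fun i _ => hterm i).trans ?_
    rw [Finset.sum_add_distrib, ← Finset.mul_sum, Finset.sum_const, Finset.card_univ,
      Fintype.card_fin, nsmul_eq_mul]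
    have h1 : 4 * H * ∑ i, (4 : ℝ) ^ j i ≤ 4 * H * (2 * 4 ^ J) :=
      mul_le_mul_of_nonneg_left hsum (by positivity)
    rw [← hx] at h1
    linarith
  have hS2 : ∑ i, (4 ^ j i : ℝ)⁻¹ * (C * (4 ^ j i + hP i) + 2 * E i) ≤
      m * ((2 * C + 2) * (1 + H)) := by
    refine (Finset.sum_le_sum fun i _ => hlast i).trans ?_
    rw [Finset.sum_const, Finset.card_univ, Fintype.card_fin, nsmul_eq_mul]
  have ha0 : (0 : ℝ) ≤ a := Nat.cast_nonneg _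
  have hS3 : a * ∑ i, (4 ^ j i : ℝ)⁻¹ * (C * (4 ^ j i + hP i) + 2 * E i) ≤
      m * (ε / 8 * (x * (1 + H))) := by
    have h1 := mul_le_mul_of_nonneg_left hS2 ha0
    have h2 : (a : ℝ) * (m * ((2 * C + 2) * (1 + H))) ≤
        (s₀ * (C₁ * (N * x))) * (m * ((2 * C + 2) * (1 + H))) := by
      refine mul_le_mul_of_nonneg_right ?_ (by positivity)
      rw [hx]
      exact ha.le
    have h3 : (s₀ * (C₁ * (N * x))) * (m * ((2 * C + 2) * (1 + H))) =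
        (s₀ * (C₁ * N) * (2 * C + 2)) * (m * (x * (1 + H))) := by ring
    have h4 : (s₀ * (C₁ * N) * (2 * C + 2)) * (m * (x * (1 + H))) ≤
        ε / 8 * (m * (x * (1 + H))) := mul_le_mul_of_nonneg_right hs (by positivity)
    linarith
  have hfin := hineq
  rw [INEQ] at hfin
  have hh' : h ≤ CF * x := by rw [hx]; exact hh
  have hfin2 : 0 ≤ CF * x + C * x + 2 * N * x * H +
      (8 * (x * H) + m * (x * (C * (C₁ * N) + (ε / 16 + ε / 16 - 7 / 8 * ε) * H))) +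
      m * (ε / 8 * (x * (1 + H))) := by
    rw [← hx] at hfin
    linarith
  have h1 : (2 * N + 8) * (x * H) ≤ m * ε / 4 * (x * H) :=
    mul_le_mul_of_nonneg_right hNε (by positivity)
  have h2 : 0 ≤ x * (K0 - 3 * (m * ε) / 8 * H) := by
    rw [hK0]
    linarith
  have h3 : K0 - 3 * (m * ε) / 8 * H < 0 := by linarith
  have h4 : x * (K0 - 3 * (m * ε) / 8 * H) < 0 := mul_neg_of_pos_of_neg hx0 h3
  linarith

end Pool.Agent.Lib.MP_17a322_nt.VN
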