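import Pool.Agent.Lib.MP_17a322_nt.VN.F3
import Pool.Agent.Lib.MP_17a322_nt.VJ.K4

/-!
VN, part F: sequences of polynomials of bounded degree, strong independence.
-/

universe u

namespace Pool.Agent.Lib.MP_17a322_nt.VN

open MvPolynomial Height Filter
open Pool.Agent.Lib.MP_17a322_nt.RO
open Pool.Agent.Lib.MP_17a322_nt.VJ

section

variable {K : Type*} [Field K] {σ : Type*}

/-- A sequence of polynomials with monomials in `E` as a polynomial over the sequences. -/
noncomputable def gl (E : Finset (σ →₀ ℕ)) (G : ℕ → MvPolynomial σ K) : MvPolynomial σ (ℕ → K) :=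
  ∑ m ∈ E, monomial m fun i => coeff m (G i)

open Classical in
theorem coeff_gl (E : Finset (σ →₀ ℕ)) (G : ℕ → MvPolynomial σ K)
    (m : σ →₀ ℕ) : coeff m (gl E G) = if m ∈ E then fun i => coeff m (G i) else 0 := by
  unfold gl
  rw [coeff_sum]
  simp only [coeff_monomial]
  rw [Finset.sum_ite_eq']

theorem ev_gl (E : Finset (σ →₀ ℕ)) (G : ℕ → MvPolynomial σ K) (i : ℕ) (h : (G i).support ⊆ E) :
    ev i (gl E G) = G i := by
  classical
  ext m
  rw [coeff_ev, coeff_gl]
  split_ifs with hm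
  · rfl
  · rw [notMem_support_iff.mp fun h' => hm (h h')]
    rfl

/-- The monomials of degree at most `D` in each variable. -/
noncomputable def bx (σ : Type*) [Fintype σ] (D : ℕ) : Finset (σ →₀ ℕ) :=
  open Classical in
  (Fintype.piFinset fun _ : σ => Finset.range (D + 1)).image Finsupp.equivFunOnFinite.symm

theorem mem_bx [Fintype σ] {D : ℕ} {m : σ →₀ ℕ} : m ∈ bx σ D ↔ ∀ t, m t ≤ D := by
  classical
  unfold bx
  rw [Finset.mem_image]
  constructor
  · rintro ⟨f, hf, rfl⟩ t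
    rw [Fintype.mem_piFinset] at hf
    exact Nat.lt_succ_iff.mp (Finset.mem_range.mp (hf t))
  · intro h
    refine ⟨fun t => m t, ?_, ?_⟩
    · rw [Fintype.mem_piFinset]
      exact fun t => Finset.mem_range.mpr (Nat.lt_succ_iff.mpr (h t))
    · ext t
      rfl

theorem support_subset_bx [Fintype σ] {D : ℕ} {R : Type*} [CommRing R] {G : MvPolynomial σ R}
    (h : ∀ t, G.degreeOf t ≤ D) : G.support ⊆ bx σ D := by
  intro m hm
  rw [mem_bx]
  exact fun t => (monomial_le_degreeOf t hm).trans (h t)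

end

/-- Strong independence: no relations of small height over `K` at almost all members of a sequence whose
germ is algebraically independent over `k0`. -/
theorem SI {K : Type u} [Field K] [NumberField K] {H : ℕ → ℝ}
    {hH : Tendsto H (hyperfilter ℕ : Filter ℕ) atTop} {σ ι : Type*} [Fintype σ]
    (s : ℕ → σ → K) (f : ι → σ) (hf : Function.Injective f)
    (hi : AlgebraicIndependent (k0 K H hH) fun t : ι => gm fun i => s i (f t)) (D : ℕ) :
    ∃ δ : ℝ, 0 < δ ∧ ∀ᶠ i in (hyperfilter ℕ : Filter ℕ), ∀ G : MvPolynomial σ K, G ≠ 0 →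
      (∀ t, t ∉ Set.range f → G.degreeOf t = 0) → (∀ t, G.degreeOf t ≤ D) → nh G ≤ δ * H i →
      eval (s i) G ≠ 0 := by
  classical
  by_contra hcon
  push Not at hcon
  have h1 : ∀ N : ℕ, ∀ᶠ i in (hyperfilter ℕ : Filter ℕ), ∃ G : MvPolynomial σ K, G ≠ 0 ∧
      (∀ t, t ∉ Set.range f → G.degreeOf t = 0) ∧ (∀ t, G.degreeOf t ≤ D) ∧
      nh G ≤ 1 / ((N : ℝ) + 1) * H i ∧ eval (s i) G = 0 := by
    intro N
    have h2 := hcon (1 / ((N : ℝ) + 1)) (by positivity)
    filter_upwards [h2] with i hi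
    obtain ⟨G, g1, g2, g3, g4, g5⟩ := hi
    exact ⟨G, g1, g2, g3, g4, g5⟩
  obtain ⟨n, hn1, hn2⟩ := exists_diag h1
  obtain ⟨G, hG⟩ := exists_seq hn1
  -- a monomial which occurs
  have h4 : ∀ᶠ i in (hyperfilter ℕ : Filter ℕ), ∃ m ∈ ((bx σ D : Finset (σ →₀ ℕ)) : Set (σ →₀ ℕ)),
      coeff m (G i) ≠ 0 := by
    filter_upwards [hG] with i hi
    obtain ⟨m, hm⟩ := ne_zero_iff.mp hi.1
    exact ⟨m, support_subset_bx hi.2.2.1 (mem_support_iff.mpr hm), hm⟩
  obtain ⟨m₀, hm₀, h5⟩ := (Ultrafilter.eventually_exists_mem_iff (bx σ D).finite_toSet).mp h4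
  -- normalisation
  obtain ⟨G', hG'⟩ : ∃ G' : ℕ → MvPolynomial σ K, ∀ i, G' i = C (coeff m₀ (G i))⁻¹ * G i :=
    ⟨_, fun _ => rfl⟩
  have h6 : ∀ᶠ i in (hyperfilter ℕ : Filter ℕ), coeff m₀ (G' i) = 1 ∧
      (∀ t, t ∉ Set.range f → (G' i).degreeOf t = 0) ∧ (∀ t, (G' i).degreeOf t ≤ D) ∧
      nh (G' i) ≤ 1 / ((n i : ℝ) + 1) * H i ∧ eval (s i) (G' i) = 0 := by
    filter_upwards [hG, h5] with i hi h5i
    obtain ⟨g1, g2, g3, g4, g5⟩ := hi
    rw [hG']
    refine ⟨?_, ?_, ?_, ?_, ?_⟩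
    · rw [coeff_C_mul, inv_mul_cancel₀ h5i]
    · intro t ht
      exact Nat.le_zero.mp ((degreeOf_C_mul_le _ _ _).trans (g2 t ht).le)
    · exact fun t => (degreeOf_C_mul_le _ _ _).trans (g3 t)
    · rw [nh_C_mul g1 (inv_ne_zero h5i)]
      exact g4
    · rw [map_mul, g5, mul_zero]
  -- the coefficients are in `k0`
  have hk : ∀ m, gm (fun i => coeff m (G' i)) ∈ k0 K H hH := by
    intro m
    rw [mem_k0]
    intro δ hδ
    obtain ⟨N, hN⟩ := exists_nat_one_div_lt hδ
    filter_upwards [h6, hn2 N, hH.eventually_ge_atTop 0] with i g1 g2 g3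
    refine (K4_coeff _ m₀ m g1.1).trans (g1.2.2.2.1.trans ?_)
    refine mul_le_mul_of_nonneg_right ?_ g3
    refine le_trans ?_ hN.le
    apply one_div_le_one_div_of_le (by positivity)
    have : (N : ℝ) ≤ n i := by exact_mod_cast g2
    linarith
  obtain ⟨p, hp⟩ : ∃ p : MvPolynomial σ (k0 K H hH), p = ∑ m ∈ bx σ D,
      monomial m ⟨gm (fun i => coeff m (G' i)), hk m⟩ := ⟨_, rfl⟩
  have hpc : ∀ m, coeff m p = if m ∈ bx σ D then ⟨gm (fun i => coeff m (G' i)), hk m⟩ else 0 := by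
    intro m
    rw [hp, coeff_sum]
    simp only [coeff_monomial]
    rw [Finset.sum_ite_eq']
  have hmap : map (gR K) (gl (bx σ D) G') = map (algebraMap (k0 K H hH) (GK K)) p := by
    ext m
    rw [coeff_map, coeff_map, coeff_gl, hpc]
    split_ifs
    · rfl
    · rfl
  have hp0 : aeval (fun t => gm fun i => s i t) p = 0 := by
    have g1 := gm_eval (gl (bx σ D) G') s
    rw [hmap, eval_map] at g1
    have g2 : aeval (fun t => gm fun i => s i t) p =
        eval₂ (algebraMap (k0 K H hH) (GK K)) (fun t => gm fun i => s i t) p := rfl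
    rw [g2, ← g1, gm_eq_zero_iff]
    filter_upwards [h6] with i hi
    rw [ev_gl _ _ _ (support_subset_bx hi.2.2.1)]
    exact hi.2.2.2.2
  have hpne : p ≠ 0 := by
    intro h
    have g1 := hpc m₀
    rw [h, coeff_zero, if_pos (Finset.mem_coe.mp hm₀)] at g1
    have g2 : gm (fun i => coeff m₀ (G' i)) = 0 := congrArg Subtype.val g1.symm
    rw [gm_eq_zero_iff] at g2
    obtain ⟨i, g3, g4⟩ := (g2.and h6).exists
    rw [g4.1] at g3
    exact one_ne_zero g3
  have hvars : (p.vars : Set σ) ⊆ Set.range f := by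
    intro t ht
    by_contra hc
    obtain ⟨m, hm, hmt⟩ := (mem_vars_iff_mem_support t).mp (Finset.mem_coe.mp ht)
    rw [mem_support_iff, hpc] at hm
    split_ifs at hm with hmem
    · have g1 : gm (fun i => coeff m (G' i)) = 0 := by
        rw [gm_eq_zero_iff]
        filter_upwards [h6] with i hi
        by_contra hne
        have g2 := monomial_le_degreeOf t (mem_support_iff.mpr hne)
        rw [hi.2.1 t hc] at g2
        exact Finsupp.mem_support_iff.mp hmt (Nat.le_zero.mp g2)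
      exact hm (Subtype.ext g1)
    · exact hm rfl
  obtain ⟨p', hp'⟩ := exists_rename_eq_of_vars_subset_range p f hf hvars
  have h7 : aeval (fun t : ι => gm fun i => s i (f t)) p' = 0 := by
    rw [← hp', aeval_rename] at hp0
    exact hp0
  have h8 := (algebraicIndependent_iff.mp hi) p' h7
  rw [h8, map_zero] at hp'
  exact hpne hp'.symm

end Pool.Agent.Lib.MP_17a322_nt.VN
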