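import Pool.Agent.Lib.MP_17a322_nt.Mb

/-!
Transcendence bases of finite families.
-/

namespace Pool.Agent.Lib.MP_17a322_nt.VN

/-- A finite family contains a transcendence basis of the field it generates. Proof. Take `T` maximal with
`AlgebraicIndependent K (fun t : T => w t)` (finitely many subsets), or
`exists_isTranscendenceBasis_subset`/`exists_isTranscendenceBasis_between` from Mathlib. -/
theorem exists_basis_subset {K L ι : Type*} [Finite ι] [Field K] [Field L] [Algebra K L]
    (w : ι → L) : ∃ T : Set ι, AlgebraicIndependent K (fun t : T => w t) ∧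
      ∀ i, IsAlgebraic (IntermediateField.adjoin K (w '' T)) (w i) := by
  classical
  have hne : ({T : Set ι | AlgebraicIndepOn K w T}).Nonempty := by
    refine ⟨∅, ?_⟩
    exact algebraicIndependent_empty_type
  obtain ⟨T, hT⟩ := (Set.toFinite {T : Set ι | AlgebraicIndepOn K w T}).exists_maximal hne
  have hTi : AlgebraicIndepOn K w T := hT.1
  refine ⟨T, hTi, fun i => ?_⟩
  by_cases hi : i ∈ T
  · exact isAlgebraic_algebraMap (A := L)
      (⟨w i, IntermediateField.subset_adjoin K _ ⟨i, hi, rfl⟩⟩ :
        IntermediateField.adjoin K (w '' T))
  · by_contra htr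
    have htr' : Transcendental (Algebra.adjoin K (w '' T)) (w i) := fun h =>
      htr (IntermediateField.isAlgebraic_adjoin_iff.2 h)
    have hins : AlgebraicIndepOn K w (insert i T) := hTi.insert htr'
    exact hi (hT.2 hins (Set.subset_insert i T) (Set.mem_insert i T))

/-- An algebraically independent family in the algebraic closure of a finitely generated field is not
longer than the family of generators. Proof. Let `E` be the algebraic closure of `K(w)` in `L`; a
subfamily of `w` is a transcendence basis of `E` (`exists_basis_subset`), `u` is an independent family of `E`: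
`AlgebraicIndependent.cardinalMk_le_trdeg`, `IsTranscendenceBasis.cardinalMk_eq_trdeg` or similar. -/
theorem indep_card_le {K L ι κ : Type*} [Finite κ] [Field K] [Field L] [Algebra K L] (u : ι → L)
    (hu : AlgebraicIndependent K u) (w : κ → L)
    (h : ∀ i, IsAlgebraic (IntermediateField.adjoin K (Set.range w)) (u i)) :
    Finite ι ∧ Nat.card ι ≤ Nat.card κ := by
  classical
  have hI : (AlgebraicIndependent.matroid K L).Indep (Set.range u) :=
    AlgebraicIndependent.matroid_indep_iff.2 hu.to_subtype_range
  have hsub : Set.range u ⊆ (AlgebraicIndependent.matroid K L).closure (Set.range w) := by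
    rintro _ ⟨i, rfl⟩
    rw [AlgebraicIndependent.matroid_closure_eq]
    exact IntermediateField.isAlgebraic_adjoin_iff.1 (h i)
  have hle : (Set.range u).encard ≤ (Set.range w).encard := by
    rw [← hI.eRk_eq_encard]
    refine ((AlgebraicIndependent.matroid K L).eRk_mono hsub).trans ?_
    rw [Matroid.eRk_closure_eq]
    exact Matroid.eRk_le_encard _ _
  have hwfin : (Set.range w).Finite := Set.finite_range w
  have hufin : (Set.range u).Finite := Set.finite_of_encard_le_coe
    (hle.trans hwfin.encard_eq_coe.le)
  have hncard : (Set.range u).ncard ≤ (Set.range w).ncard := by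
    rw [← hufin.cast_ncard_eq, ← hwfin.cast_ncard_eq] at hle
    exact_mod_cast hle
  have hfin0 : Finite (Set.range u) := hufin.to_subtype
  have hfin : Finite ι := Finite.of_injective (Set.rangeFactorization u)
    (Set.rangeFactorization_injective.2 hu.injective)
  refine ⟨hfin, ?_⟩
  have h1 : Nat.card ι = (Set.range u).ncard := by
    rw [← Set.image_univ, Set.ncard_image_of_injective _ hu.injective, Set.ncard_univ]
  have h2 : (Set.range w).ncard ≤ Nat.card κ := by
    rw [← Set.image_univ, ← Set.ncard_univ]
    exact Set.ncard_image_le (Set.finite_univ)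
  omega

end Pool.Agent.Lib.MP_17a322_nt.VN
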