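import Pool.Agent.Lib.MP_17a322_nt.VN.F0

/-!
VN, part F: the field `k0` of germs of height `o(H)`.
-/

universe u

namespace Pool.Agent.Lib.MP_17a322_nt.VN

open MvPolynomial Height Filter
open Pool.Agent.Lib.MP_17a322_nt.RO
open Pool.Agent.Lib.MP_17a322_nt.VJ

/-- `h ≤ o(H)` along the ultrafilter. -/
def oH (H h : ℕ → ℝ) : Prop :=
  ∀ δ : ℝ, 0 < δ → ∀ᶠ i in (hyperfilter ℕ : Filter ℕ), h i ≤ δ * H i

theorem oH.add {H h h' : ℕ → ℝ} (h1 : oH H h) (h2 : oH H h') : oH H fun i => h i + h' i := by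
  intro δ hδ
  filter_upwards [h1 (δ / 2) (by positivity), h2 (δ / 2) (by positivity)] with i h3 h4
  linarith

theorem oH.mono {H h h' : ℕ → ℝ} (h1 : oH H h)
    (h2 : ∀ᶠ i in (hyperfilter ℕ : Filter ℕ), h' i ≤ h i) : oH H h' := by
  intro δ hδ
  filter_upwards [h1 δ hδ, h2] with i h3 h4
  exact h4.trans h3

theorem oH_const {H : ℕ → ℝ} (hH : Tendsto H (hyperfilter ℕ : Filter ℕ) atTop) (C : ℝ) :
    oH H fun _ => C := by
  intro δ hδ
  filter_upwards [hH.eventually_ge_atTop (C / δ)] with i h1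
  rw [div_le_iff₀ hδ] at h1
  linarith

theorem oH.sum {H : ℕ → ℝ} (hH : Tendsto H (hyperfilter ℕ : Filter ℕ) atTop) {ι : Type*}
    (s : Finset ι) (h : ι → ℕ → ℝ) (h1 : ∀ j ∈ s, oH H (h j)) : oH H fun i => ∑ j ∈ s, h j i := by
  classical
  induction s using Finset.induction_on with
  | empty =>
    simp only [Finset.sum_empty]
    exact oH_const hH 0
  | insert a s ha ih =>
    simp only [Finset.sum_insert ha]
    exact (h1 a (Finset.mem_insert_self a s)).add
      (ih fun j hj => h1 j (Finset.mem_insert_of_mem hj))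

theorem oH.const_mul {H h : ℕ → ℝ} (hH : Tendsto H (hyperfilter ℕ : Filter ℕ) atTop)
    (h1 : oH H h) {c : ℝ} (hc : 0 ≤ c) : oH H fun i => c * h i := by
  rcases eq_or_lt_of_le hc with rfl | hc
  · simp only [zero_mul]
    exact oH_const hH 0
  · intro δ hδ
    filter_upwards [h1 (δ / c) (by positivity)] with i h2
    have h3 := mul_le_mul_of_nonneg_left h2 hc.le
    have h4 : c * (δ / c * H i) = δ * H i := by
      field_simp
    linarith

section

variable {K : Type u} [Field K] [NumberField K]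

theorem sml_iff {H : ℕ → ℝ} {α : ℕ → K} :
    sml H (gm α) ↔ oH H fun i => logHeight₁ (α i) := by
  constructor
  · rintro ⟨β, h1, h2⟩ δ hδ
    filter_upwards [h2 δ hδ, gm_eq_iff.mp h1] with i h3 h4
    rwa [← h4]
  · intro h
    exact ⟨α, rfl, h⟩

theorem sml_add {H : ℕ → ℝ} (hH : Tendsto H (hyperfilter ℕ : Filter ℕ) atTop) {a b : GK K}
    (ha : sml H a) (hb : sml H b) : sml H (a + b) := by
  obtain ⟨α, rfl⟩ := exists_gm a
  obtain ⟨β, rfl⟩ := exists_gm b
  rw [← gm_add]
  rw [sml_iff] at *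
  exact (((oH_const hH (totalWeight K * Real.log 2)).add ha).add hb).mono
    (Eventually.of_forall fun i => logHeight₁_add_le _ _)

theorem sml_mul {H : ℕ → ℝ} {a b : GK K}
    (ha : sml H a) (hb : sml H b) : sml H (a * b) := by
  obtain ⟨α, rfl⟩ := exists_gm a
  obtain ⟨β, rfl⟩ := exists_gm b
  rw [← gm_mul]
  rw [sml_iff] at *
  exact (ha.add hb).mono (Eventually.of_forall fun i => logHeight₁_mul_le _ _)

theorem sml_inv {H : ℕ → ℝ} {a : GK K} (ha : sml H a) : sml H a⁻¹ := by
  obtain ⟨α, rfl⟩ := exists_gm a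
  rw [← gm_inv]
  rw [sml_iff] at *
  exact ha.mono (Eventually.of_forall fun i => (logHeight₁_inv _).le)

theorem sml_const {H : ℕ → ℝ} (hH : Tendsto H (hyperfilter ℕ : Filter ℕ) atTop) (c : K) :
    sml H (algebraMap K (GK K) c) := by
  rw [algebraMap_GK, sml_iff]
  exact oH_const hH _

/-- The field of germs of height `o(H)`. -/
noncomputable def k0 (K : Type u) [Field K] [NumberField K] (H : ℕ → ℝ)
    (hH : Tendsto H (hyperfilter ℕ : Filter ℕ) atTop) : IntermediateField K (GK K) where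
  carrier := {a | sml H a}
  mul_mem' := fun ha hb => sml_mul ha hb
  one_mem' := by
    have h := sml_const hH (1 : K)
    rwa [map_one] at h
  add_mem' := fun ha hb => sml_add hH ha hb
  zero_mem' := by
    have h := sml_const hH (0 : K)
    rwa [map_zero] at h
  algebraMap_mem' := sml_const hH
  inv_mem' := fun _ ha => sml_inv ha

theorem mem_k0 {H : ℕ → ℝ} {hH : Tendsto H (hyperfilter ℕ : Filter ℕ) atTop} {α : ℕ → K} :
    gm α ∈ k0 K H hH ↔ oH H fun i => logHeight₁ (α i) :=
  sml_iff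

end

end Pool.Agent.Lib.MP_17a322_nt.VN
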