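import Pool.Agent.Lib.MP_17a322_nt.VN.E4

/-!
Derivations detect algebraic elements (D2), constants (D3).
-/

namespace Pool.Agent.Lib.MP_17a322_nt.VN

open MvPolynomial

/-- (D2). Proof. If `f` is transcendental over `k`, extend `{f}` to a transcendence basis `X` of `L / k`
(`exists_isTranscendenceBasis_superset` or similar) and apply `exists_derivation` with `δ = 0`, `v = 1` on `f`
and `0` on the others. -/
theorem isAlgebraic_of_derivation {k L : Type*} [Field k] [CharZero k] [Field L] [Algebra k L]
    (f : L) (h : ∀ D : Derivation ℤ L L, (∀ a : k, D (algebraMap k L a) = 0) → D f = 0) :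
    IsAlgebraic k f := by
  classical
  by_contra hf
  have hind : AlgebraicIndepOn k id ({f} : Set L) := by
    have h1 : AlgebraicIndependent k (fun i : ({f} : Set L) => id (i : L)) := by
      rw [algebraicIndependent_unique_type_iff]
      exact hf
    exact h1
  obtain ⟨t, hft, ht⟩ := exists_isTranscendenceBasis_superset hind
  have hfm : f ∈ t := hft (Set.mem_singleton f)
  obtain ⟨D, hD, hDX⟩ := exists_derivation ((↑) : t → L) ht.1 ht.isAlgebraic_field
    (0 : Derivation ℤ k L) (fun i => if i = ⟨f, hfm⟩ then 1 else 0)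
  have h2 : D f = 1 := by
    have h3 := hDX ⟨f, hfm⟩
    rw [if_pos rfl] at h3
    exact h3
  have h4 : D f = 0 := h D fun a => by
    rw [hD]
    rfl
  rw [h2] at h4
  exact one_ne_zero h4

/-- A derivation that kills `k` kills everything algebraic over `k` (characteristic `0`). -/
theorem derivation_algebraic {k L : Type*} [Field k] [CharZero k] [Field L] [Algebra k L]
    (D : Derivation ℤ L L) (hD : ∀ a : k, D (algebraMap k L a) = 0) (f : L) (hf : IsAlgebraic k f) :
    D f = 0 := by
  let D' : Derivation k L L := Derivation.mk'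
    ({ toFun := fun x => D x
       map_add' := fun x y => map_add D x y
       map_smul' := fun a x => by
        rw [Algebra.smul_def, Derivation.leibniz, hD, smul_zero, add_zero, smul_eq_mul,
          RingHom.id_apply, Algebra.smul_def] } : L →ₗ[k] L)
    (fun a b => D.leibniz a b)
  have hf' : IsIntegral k f := hf.isIntegral
  have h1 : D' (Polynomial.aeval f (minpoly k f)) =
      Polynomial.aeval f (Polynomial.derivative (minpoly k f)) • D' f := D'.map_aeval _ _
  rw [minpoly.aeval, map_zero] at h1
  have h2 : Polynomial.aeval f (Polynomial.derivative (minpoly k f)) ≠ 0 :=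
    (minpoly.irreducible hf').separable.aeval_derivative_ne_zero (minpoly.aeval k f)
  have h3 : D' f = 0 := (smul_eq_zero.mp h1.symm).resolve_left h2
  exact h3

private theorem E5_sum_apply {L ι : Type*} [Field L] (s : Finset ι)
    (E : ι → Derivation ℤ L L) (g : L) : (∑ i ∈ s, E i) g = ∑ i ∈ s, E i g := by
  classical
  induction s using Finset.induction_on with
  | empty => rfl
  | insert a s ha ih =>
    rw [Finset.sum_insert ha, Finset.sum_insert ha, ← ih]
    rfl

/-- (D3). Proof. Let `Δ` be a derivation of `L` trivial on `Ω`. By `derivation_eq`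
`Δ = ∑ i, (Δ (X i) / D i (X i)) • D i`, so `Δ f = 0`. By `isAlgebraic_of_derivation` `f` is algebraic over
`Ω`. -/
theorem mem_range_of_derivations {Ω L ι : Type*} [Field Ω] [CharZero Ω] [Field L] [Algebra Ω L]
    [Finite ι] (hΩ : ∀ z : L, IsAlgebraic Ω z → z ∈ (algebraMap Ω L).range) (X : ι → L)
    (hX : AlgebraicIndependent Ω X)
    (hL : Algebra.IsAlgebraic (IntermediateField.adjoin Ω (Set.range X)) L)
    (D : ι → Derivation ℤ L L) (hD : ∀ i, ∀ a : Ω, D i (algebraMap Ω L a) = 0)
    (hDX : ∀ i i', i' ≠ i → D i (X i') = 0) (hDX' : ∀ i, D i (X i) ≠ 0) (f : L)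
    (hf : ∀ i, D i f = 0) : f ∈ (algebraMap Ω L).range := by
  classical
  cases nonempty_fintype ι
  refine hΩ f (isAlgebraic_of_derivation f fun Δ hΔ => ?_)
  have key : ∀ g : L, (∑ i, (Δ (X i) / D i (X i)) • D i) g =
      ∑ i, Δ (X i) / D i (X i) * D i g := fun g => by
    rw [E5_sum_apply]
    exact Finset.sum_congr rfl fun i _ => rfl
  have h1 : Δ = ∑ i, (Δ (X i) / D i (X i)) • D i := by
    refine derivation_eq X hL _ _ (fun a => ?_) fun j => ?_
    · rw [hΔ, key]
      exact (Finset.sum_eq_zero fun i _ => by rw [hD, mul_zero]).symm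
    · rw [key, Finset.sum_eq_single j]
      · rw [div_mul_cancel₀ _ (hDX' j)]
      · intro i _ hij
        rw [hDX i j (Ne.symm hij), mul_zero]
      · intro hj
        exact absurd (Finset.mem_univ j) hj
  rw [h1, key]
  exact Finset.sum_eq_zero fun i _ => by rw [hf, mul_zero]

end Pool.Agent.Lib.MP_17a322_nt.VN
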