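import Pool.Agent.Lib.MP_17a322_nt.Mb

/-!
Descent of divisibility and irreducibility.
-/

namespace Pool.Agent.Lib.MP_17a322_nt.VN

open MvPolynomial

/-- Divisibility descends along extensions of fields.
Proof. Choose a basis of `Ω` over `k` containing `1` and apply the coordinate functional `φ : Ω →ₗ[k] k` of
`1` coefficientwise: from `map a = map g * b` one gets `a = g * φ(b)`. (`LinearMap.exists_leftInverse_of_injective`
gives a `k`-linear `φ` with `φ (algebraMap a) = a`.) Or: `MvPolynomial σ Ω` is faithfully flat. -/
theorem dvd_of_map_dvd {k Ω σ : Type*} [Field k] [Field Ω] [Algebra k Ω] (g a : MvPolynomial σ k)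
    (h : map (algebraMap k Ω) g ∣ map (algebraMap k Ω) a) : g ∣ a := by
  classical
  obtain ⟨b, hb⟩ := h
  obtain ⟨φ, hφ⟩ := LinearMap.exists_leftInverse_of_injective (Algebra.linearMap k Ω)
    (LinearMap.ker_eq_bot.2 (algebraMap k Ω).injective)
  have hφ1 : ∀ x : k, φ (algebraMap k Ω x) = x := fun x => by
    have := LinearMap.congr_fun hφ x
    exact this
  refine ⟨∑ m ∈ b.support, monomial m (φ (coeff m b)), ?_⟩
  have hc : ∀ n, coeff n (∑ m ∈ b.support, monomial m (φ (coeff m b))) = φ (coeff n b) := by
    intro n
    rw [coeff_sum]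
    simp only [coeff_monomial]
    rw [Finset.sum_ite_eq' b.support n (fun m => φ (coeff m b))]
    by_cases hn : n ∈ b.support
    · rw [if_pos hn]
    · rw [if_neg hn, notMem_support_iff.1 hn, map_zero]
  ext n
  rw [coeff_mul]
  simp only [hc]
  have h1 : coeff n (map (algebraMap k Ω) a) = coeff n (map (algebraMap k Ω) g * b) := by rw [hb]
  rw [coeff_map, coeff_mul] at h1
  have h2 := congrArg φ h1
  rw [hφ1, map_sum] at h2
  rw [h2]
  refine Finset.sum_congr rfl fun x _ => ?_
  rw [coeff_map, ← Algebra.smul_def, map_smul, smul_eq_mul]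

/-- Irreducibility descends: a polynomial that is irreducible over a larger field is irreducible.
Proof. `map` is injective, and maps nonunits to nonunits (units of polynomial rings over fields are the
nonzero constants). -/
theorem irreducible_of_map {k Ω σ : Type*} [Field k] [Field Ω] [Algebra k Ω] (g : MvPolynomial σ k)
    (h : Irreducible (map (algebraMap k Ω) g)) : Irreducible g := by
  have key : ∀ a : MvPolynomial σ k, IsUnit (map (algebraMap k Ω) a) → IsUnit a := by
    intro a ha
    refine isUnit_of_dvd_one (dvd_of_map_dvd (Ω := Ω) a 1 ?_)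
    rw [map_one]
    exact ha.dvd
  refine ⟨fun hg => h.not_isUnit (hg.map (map (algebraMap k Ω))), fun a b hab => ?_⟩
  rcases h.isUnit_or_isUnit (a := map (algebraMap k Ω) a) (b := map (algebraMap k Ω) b)
    (by rw [hab, map_mul]) with h1 | h1
  · exact Or.inl (key a h1)
  · exact Or.inr (key b h1)

end Pool.Agent.Lib.MP_17a322_nt.VN
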