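import Pool.Agent.Lib.MP_17a322_nt.VN.E2
import Pool.Agent.Lib.MP_17a322_nt.VN.E3a

/-!
Irreducibility over the algebraic closure of `k` (Galois descent).
-/

namespace Pool.Agent.Lib.MP_17a322_nt.VN

open MvPolynomial

/-- an irreducible factor that vanishes at a given point -/
theorem E3b_factor {K L σ : Type*} [Field K] [Field L] [Algebra K L] (s : σ → L)
    (g : MvPolynomial σ K) (hg : g ≠ 0) (h0 : aeval s g = 0) :
    ∃ g₁ : MvPolynomial σ K, Irreducible g₁ ∧ g₁ ∣ g ∧ aeval s g₁ = 0 := by
  obtain ⟨f, hf, hfg⟩ := UniqueFactorizationMonoid.exists_prime_factors g hg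
  have h1 : aeval s f.prod = 0 := by
    obtain ⟨u, hu⟩ := hfg.symm
    rw [← hu, map_mul, h0, zero_mul]
  rw [map_multiset_prod, Multiset.prod_eq_zero_iff, Multiset.mem_map] at h1
  obtain ⟨b, hb, hb0⟩ := h1
  exact ⟨b, (hf b hb).irreducible, (Multiset.dvd_prod hb).trans hfg.dvd, hb0⟩

/-- normalised at one coefficient -/
theorem E3b_normal {K L σ : Type*} [Field K] [Field L] [Algebra K L] (s : σ → L)
    (g : MvPolynomial σ K) (hg : g ≠ 0) (h0 : aeval s g = 0) :
    ∃ (g₁ : MvPolynomial σ K) (m : σ →₀ ℕ), Irreducible g₁ ∧ g₁ ∣ g ∧ aeval s g₁ = 0 ∧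
      coeff m g₁ = 1 := by
  obtain ⟨b, hb, hbg, hb0⟩ := E3b_factor s g hg h0
  obtain ⟨m, hm⟩ := MvPolynomial.ne_zero_iff.mp hb.ne_zero
  have hu : IsUnit (C (coeff m b)⁻¹ : MvPolynomial σ K) :=
    (IsUnit.mk0 _ (inv_ne_zero hm)).map C
  have ha : Associated (C (coeff m b)⁻¹ * b) b := by
    rw [mul_comm]; exact associated_mul_unit_left b _ hu
  refine ⟨C (coeff m b)⁻¹ * b, m, ha.symm.irreducible hb, ha.dvd.trans hbg, ?_, ?_⟩
  · rw [map_mul, hb0, mul_zero]
  · rw [coeff_C_mul, inv_mul_cancel₀ hm]

/-- a polynomial divisible by `g₁` of no larger degree and with the same coefficient `1` is `g₁` -/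
theorem E3b_eq {K σ : Type*} [Field K] (g₁ q : MvPolynomial σ K) (m : σ →₀ ℕ)
    (h1 : coeff m g₁ = 1) (h2 : coeff m q = 1) (hd : g₁ ∣ q)
    (ht : q.totalDegree ≤ g₁.totalDegree) : q = g₁ := by
  obtain ⟨c, rfl⟩ := hd
  have hg : g₁ ≠ 0 := by rintro rfl; simp at h1
  have hc : c ≠ 0 := by rintro rfl; simp at h2
  rw [totalDegree_mul_of_isDomain hg hc] at ht
  have hc0 : c.totalDegree = 0 := by omega
  rw [totalDegree_eq_zero_iff_eq_C.mp hc0] at h2 ⊢
  rw [mul_comm, coeff_C_mul, h1, mul_one] at h2
  rw [h2, map_one, mul_one]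

theorem E3b_aux {k F Fb σ : Type*} [Finite σ] [Field k] [Field F] [Field Fb] [Algebra k F]
    [Algebra F Fb] [Algebra k Fb] [IsScalarTower k F Fb] [IsGalois F Fb]
    (hk : ∀ z : F, IsAlgebraic k z → z ∈ (algebraMap k F).range) (r : σ) (s : σ → F)
    (hs : AlgebraicIndependent k fun t : {t : σ // t ≠ r} => s t) (g : MvPolynomial σ k)
    (hg : Irreducible g) (h0 : aeval s g = 0) :
    Irreducible (map (algebraMap k (algebraicClosure k Fb)) g) := by
  have hsb : AlgebraicIndependent k fun t : {t : σ // t ≠ r} => algebraMap F Fb (s t) :=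
    hs.map' (f := IsScalarTower.toAlgHom k F Fb) (algebraMap F Fb).injective
  have hsK : AlgebraicIndependent (algebraicClosure k Fb)
      fun t : {t : σ // t ≠ r} => algebraMap F Fb (s t) := hsb.extendScalars _
  have hmap : aeval (fun t => algebraMap F Fb (s t))
      (map (algebraMap k (algebraicClosure k Fb)) g) = 0 := by
    rw [aeval_map_algebraMap, ← map_zero (algebraMap F Fb), ← h0, ← aeval_algebraMap_apply]
    rfl
  have hg0 : map (algebraMap k (algebraicClosure k Fb)) g ≠ 0 := by
    intro h
    exact hg.ne_zero (map_injective _ (algebraMap k (algebraicClosure k Fb)).injective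
      (by rw [h, map_zero]))
  obtain ⟨g₁, m, hirr, hdvd, hz, hm⟩ := E3b_normal _ _ hg0 hmap
  have key : ∀ τ : Gal(Fb/F), ∀ n, τ ((coeff n g₁ : algebraicClosure k Fb) : Fb)
      = ((coeff n g₁ : algebraicClosure k Fb) : Fb) := by
    intro τ n
    let τ' : algebraicClosure k Fb ≃ₐ[k] algebraicClosure k Fb :=
      algebraicClosure.algEquivOfAlgEquiv (τ.restrictScalars k)
    have hτ : ∀ x : algebraicClosure k Fb, ((τ' x : algebraicClosure k Fb) : Fb) = τ (x : Fb) :=
      fun x => rfl
    let f : algebraicClosure k Fb →+* algebraicClosure k Fb := (τ' : _ ≃+* _).toRingHom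
    have hfx : ∀ x : algebraicClosure k Fb, ((f x : algebraicClosure k Fb) : Fb) = τ (x : Fb) :=
      hτ
    have hq : map f g₁ = g₁ := by
      refine E3b_eq g₁ _ m hm ?_ ?_ ?_
      · rw [coeff_map, hm, map_one]
      · have e1 : aeval (fun t => algebraMap F Fb (s t)) (map f g₁)
            = τ (aeval (fun t => algebraMap F Fb (s t)) g₁) := by
          rw [aeval_def, aeval_def, eval₂_map]
          change _ = (τ : Fb →+* Fb) _
          rw [eval₂_comp_left]
          congr 1
          funext t
          exact (τ.commutes (s t)).symm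
        exact generic_dvd r (fun t => algebraMap F Fb (s t)) hsK g₁ (map f g₁) hirr hz
          (by rw [e1, hz, map_zero])
      · exact Finset.sup_mono (support_map_subset f g₁)
    have := congrArg (fun p => ((coeff n p : algebraicClosure k Fb) : Fb)) hq
    simp only [coeff_map] at this
    rw [hfx] at this
    exact this
  have hrange : g₁ ∈ Set.range (map (algebraMap k (algebraicClosure k Fb))) := by
    rw [mem_range_map_iff_coeffs_subset]
    intro c hc
    obtain ⟨n, hn, rfl⟩ := mem_coeffs_iff.mp hc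
    obtain ⟨z, hz⟩ := (InfiniteGalois.mem_range_algebraMap_iff_fixed
      ((coeff n g₁ : algebraicClosure k Fb) : Fb)).mpr
      (fun τ => key τ n)
    have hzalg : IsAlgebraic k z := by
      have h1 : IsAlgebraic k ((coeff n g₁ : algebraicClosure k Fb) : Fb) :=
        mem_algebraicClosure_iff'.mp (coeff n g₁).2 |>.isAlgebraic
      rw [← hz] at h1
      exact (isAlgebraic_algebraMap_iff (algebraMap F Fb).injective).mp h1
    obtain ⟨a, ha⟩ := hk z hzalg
    refine ⟨a, Subtype.ext ?_⟩
    rw [← hz, ← ha, ← IsScalarTower.algebraMap_apply]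
    rfl
  obtain ⟨g₀, hg₀⟩ := hrange
  rw [← hg₀] at hdvd hirr
  have hd := dvd_of_map_dvd g₀ g hdvd
  obtain ⟨h, rfl⟩ := hd
  rcases hg.isUnit_or_isUnit rfl with hu | hu
  · exact absurd (hu.map (map (algebraMap k (algebraicClosure k Fb)))) hirr.not_isUnit
  · rw [map_mul]
    exact (associated_mul_unit_left _ _ (hu.map (map _))).symm.irreducible hirr

/-- Over the algebraic closure `k'` of `k` in `AlgebraicClosure F`.
Proof. Let `Fb = AlgebraicClosure F`, `k' = algebraicClosure k Fb`. The `s t`, `t ≠ r`, stay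
algebraically independent over `k'` in `Fb` (`k' / k` is algebraic: e.g.
`AlgebraicIndependent.extendScalars` or `AlgebraicIndependent.map'` + lemma on algebraic extensions of the
base). `g` is not `0`, `map g (s) = 0` in `Fb`, so some irreducible factor of `map g` in `k'[X]` vanishes at
`s` (unique factorisation: `WfDvdMonoid`, `Multiset.prod` of the normalised factors is associated to
`map g`, `Fb` has no zero divisors); divide it by one of its nonzero coefficients: `g₁ : MvPolynomial σ k'`
irreducible, `g₁ ∣ map g`, `aeval s g₁ = 0`, `coeff m g₁ = 1`. For `τ : Fb ≃ₐ[F] Fb`: `τ` maps `k'` to `k'`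
(elements algebraic over `k` go to such elements), so `τ g₁` (coefficientwise) is in `MvPolynomial σ k'`,
it vanishes at `s` (the `s t` are in `F`), so `g₁ ∣ τ g₁` by `generic_dvd` (E2); `τ g₁` has the same total
degree as `g₁`, so `τ g₁ = c g₁` with a constant `c`, and comparing the coefficients of `m` gives `c = 1`.
So all coefficients of `g₁` are fixed by all `τ`, hence they are in `F` (`isGalois` of `Fb / F`, characteristic
`0`: `InfiniteGalois.fixedField_bot`/`IsGalois.mem_bot_iff_fixed`), and they are algebraic over `k`, so by `hk`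
they come from `k`. So `g₁ = map g₀`, `map g₀ ∣ map g`; `KL_dvd`-like: `g₀ ∣ g` in `k[X]` (see `dvd_of_map_dvd`
below). As `g` is irreducible and `g₀` is not a unit, `g` is associated to `g₀`, so `map g` is associated
to `g₁`, which is irreducible. -/
theorem ABSIRR_aux {k F σ : Type*} [Finite σ] [Field k] [CharZero k] [Field F] [Algebra k F]
    (hk : ∀ z : F, IsAlgebraic k z → z ∈ (algebraMap k F).range) (r : σ) (s : σ → F)
    (hs : AlgebraicIndependent k fun t : {t : σ // t ≠ r} => s t) (g : MvPolynomial σ k)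
    (hg : Irreducible g) (h0 : aeval s g = 0) :
    Irreducible (map (algebraMap k (algebraicClosure k (AlgebraicClosure F))) g) := by
  have : CharZero F := charZero_of_injective_algebraMap (algebraMap k F).injective
  have : IsGalois F (AlgebraicClosure F) := isGalois_iff.mpr ⟨inferInstance, inferInstance⟩
  exact E3b_aux hk r s hs g hg h0

end Pool.Agent.Lib.MP_17a322_nt.VN
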