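import Pool.Agent.Lib.MP_17a322_nt.VN.DefsC
import Pool.Agent.Lib.MP_17a322_nt.VJ.A3

/-!
# JOB C06: the core estimate

PROOFS.
`SN_aeval_mon`: as `SN.aeval_le` (`VJ/A3.lean`, copy the proof): `aeval ξ F = ∑ m ∈ F.support, algebraMap (coeff m F) * ∏ t, ξ t ^ m t`; every
summand has size `≤ v (coeff m F) * M`.
`core_estimate`: let `G i` be the part of `H i` with the monomials `β`, `T ≤ β 0 + β 1` (`∑ β ∈ (H i).support.filter .., monomial β (coeff β (H i))`), `R i` the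
rest; `H i = G i + R i`. Then `∑ i ∈ s, Φ i * aeval z (R i) = 0`: exchange the sums, over `β` in the union of the supports with `β 0 + β 1 < T`:
`∑ i, Φ i * (algebraMap (coeff β (H i)) * ∏ z t ^ β t) = (∑ i, Φ i * algebraMap (coeff β (H i))) * ∏ z t ^ β t = 0` by `hT`. So the left side is
`∑ i ∈ s, Φ i * aeval z (G i)` (`SN.sum_le` for the number of terms). `NV v (G i) ≤ NV v (H i)` (coefficients of `G i` are those of `H i` or `0`; `A2_na`, `A2_ar`, `A2_coeff_le`).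
For `β ∈ (G i).support`: `μ (∏ t, z t ^ β t) ≤ (κ δ) ^ (β 0 + β 1) * Ω ^ (sum of the other β t)` (`SN.prod_le`, `SN.pow_le`, `Fin.prod_univ_succ` twice) `≤ κ ^ (2 E) * δ ^ T * Ω ^ (k E)`,
because `T ≤ β 0 + β 1 ≤ 2 E`, `β t ≤ degreeOf t (H i) ≤ E` (`monomial_le_degreeOf`) and `0 < δ ≤ 1 ≤ κ, Ω`. Use `SN_aeval_mon` for `G i`, and `μ (Φ i * a) ≤ B * μ a`.
-/

namespace Pool.Agent.Lib.MP_17a322_nt.VN

open MvPolynomial Height
open Pool.Agent.Lib.MP_17a322_nt.RO Pool.Agent.Lib.MP_17a322_nt.VJ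

theorem SN_aeval_mon {L : Type*} [Field L] {v : AbsoluteValue L ℝ} {A : Type*} [CommRing A]
    [Algebra L A] {μ : A → ℝ} (h : SN v μ) {σ : Type*} [Fintype σ] (F : MvPolynomial σ L)
    (ξ : σ → A) {M : ℝ} (hM : 0 ≤ M) (hm : ∀ m ∈ F.support, μ (∏ t, ξ t ^ m t) ≤ M) :
    μ (aeval ξ F) ≤ NV v F * M := by
  have hterm : ∀ m ∈ F.support,
      μ (algebraMap L A (coeff m F) * ∏ t, ξ t ^ m t) ≤ v (coeff m F) * M := by
    intro m hm'
    refine (h.mul _ _).trans ?_
    exact mul_le_mul (h.map _) (hm m hm') (h.nonneg _) (v.nonneg _)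
  rw [aeval_def, eval₂_eq']
  by_cases hv : IsNonarchimedean v
  · refine SN.sum_le_max hv h _ _ (mul_nonneg ((v.nonneg _).trans (coeff_le_NV v F 0)) hM)
      fun m hm' => ?_
    exact (hterm m hm').trans (mul_le_mul_of_nonneg_right (coeff_le_NV v F m) hM)
  · refine (h.sum_le_sum _ _).trans ?_
    refine (Finset.sum_le_sum hterm).trans (le_of_eq ?_)
    rw [← Finset.sum_mul]
    congr 1
    unfold NV
    rw [if_neg hv]

/-- The part of `F` with the exponents satisfying `p`. -/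
noncomputable def C06_part {L : Type*} [Field L] {σ : Type*} (p : (σ →₀ ℕ) → Prop)
    (F : MvPolynomial σ L) : MvPolynomial σ L :=
  open Classical in ∑ β ∈ F.support.filter p, monomial β (coeff β F)

theorem C06_coeff {L : Type*} [Field L] {σ : Type*} (p : (σ →₀ ℕ) → Prop) [DecidablePred p]
    (F : MvPolynomial σ L) (m : σ →₀ ℕ) :
    coeff m (C06_part p F) = if p m then coeff m F else 0 := by
  classical
  unfold C06_part
  rw [coeff_sum]
  simp only [coeff_monomial]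
  rw [Finset.sum_ite_eq']
  simp only [Finset.mem_filter]
  by_cases hm : m ∈ F.support
  · by_cases hp : p m
    · rw [if_pos ⟨hm, hp⟩, if_pos hp]
    · rw [if_neg (fun h => hp h.2), if_neg hp]
  · rw [if_neg (fun h => hm h.1)]
    rw [notMem_support_iff] at hm
    rw [hm, ite_self]

theorem C06_support {L : Type*} [Field L] {σ : Type*} (p : (σ →₀ ℕ) → Prop)
    (F : MvPolynomial σ L) (m : σ →₀ ℕ) (hm : m ∈ (C06_part p F).support) :
    m ∈ F.support ∧ p m := by
  classical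
  rw [mem_support_iff, C06_coeff] at hm
  by_cases hp : p m
  · rw [if_pos hp] at hm
    exact ⟨mem_support_iff.2 hm, hp⟩
  · rw [if_neg hp] at hm
    exact absurd rfl hm

theorem C06_NV_le {L : Type*} [Field L] (v : AbsoluteValue L ℝ) {σ : Type*}
    (p : (σ →₀ ℕ) → Prop) (F : MvPolynomial σ L) : NV v (C06_part p F) ≤ NV v F := by
  classical
  have hc : ∀ m, v (coeff m (C06_part p F)) ≤ v (coeff m F) := by
    intro m
    rw [C06_coeff]
    by_cases hp : p m
    · rw [if_pos hp]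
    · rw [if_neg hp, map_zero]
      exact v.nonneg _
  by_cases hv : IsNonarchimedean v
  · rw [A2_na hv (C06_part p F)]
    exact ciSup_le fun m => (hc m).trans (coeff_le_NV v F m)
  · rw [A2_ars hv (C06_part p F) F.support (fun m hm => (C06_support p F m hm).1), A2_ar hv F]
    exact Finset.sum_le_sum fun m _ => hc m

theorem C06_add {L : Type*} [Field L] {σ : Type*} (p : (σ →₀ ℕ) → Prop)
    (F : MvPolynomial σ L) : F = C06_part p F + C06_part (fun m => ¬ p m) F := by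
  classical
  ext m
  rw [coeff_add, C06_coeff, C06_coeff]
  by_cases hp : p m
  · rw [if_pos hp, if_neg (not_not.2 hp), add_zero]
  · rw [if_neg hp, if_pos hp, zero_add]

theorem core_estimate {L : Type*} [Field L] {v : AbsoluteValue L ℝ} {A : Type*} [CommRing A]
    [Algebra L A] {μ : A → ℝ} (h : SN v μ) {k : ℕ} (z : Fin (k + 2) → A) {ι : Type*} (s : Finset ι)
    (Φ : ι → A) (H : ι → MvPolynomial (Fin (k + 2)) L) {T E : ℕ}
    (hT : ∀ β : Fin (k + 2) →₀ ℕ, β 0 + β 1 < T →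
      ∑ i ∈ s, Φ i * algebraMap L A (coeff β (H i)) = 0)
    (hE : ∀ i ∈ s, ∀ t, degreeOf t (H i) ≤ E) {B G Ω κ δ : ℝ} (hB0 : 0 ≤ B) (hG0 : 0 ≤ G)
    (hΩ : 1 ≤ Ω) (hκ : 1 ≤ κ) (hδ : 0 < δ) (hδ1 : δ ≤ 1) (hz : ∀ t, μ (z t) ≤ Ω)
    (hz0 : μ (z 0) ≤ κ * δ) (hz1 : μ (z 1) ≤ κ * δ) (hB : ∀ i ∈ s, μ (Φ i) ≤ B)
    (hG : ∀ i ∈ s, NV v (H i) ≤ G) :
    μ (∑ i ∈ s, Φ i * aeval z (H i)) ≤
      cst v s.card * (B * G) * κ ^ (2 * E) * Ω ^ (k * E) * δ ^ T := by
  classical
  set p : (Fin (k + 2) →₀ ℕ) → Prop := fun β => T ≤ β 0 + β 1 with hp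
  have hκ0 : (0 : ℝ) ≤ κ := zero_le_one.trans hκ
  have hΩ0 : (0 : ℝ) ≤ Ω := zero_le_one.trans hΩ
  -- the low part vanishes
  have hlow : ∑ i ∈ s, Φ i * aeval z (C06_part (fun m => ¬ p m) (H i)) = 0 := by
    set U : Finset (Fin (k + 2) →₀ ℕ) := (s.biUnion fun i => (H i).support).filter fun m => ¬ p m with hU
    have h1 : ∀ i ∈ s, aeval z (C06_part (fun m => ¬ p m) (H i)) =
        ∑ β ∈ U, algebraMap L A (coeff β (H i)) * ∏ t, z t ^ β t := by
      intro i hi
      rw [aeval_def, eval₂_eq']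
      have h2 : ∑ d ∈ (C06_part (fun m => ¬ p m) (H i)).support,
          algebraMap L A (coeff d (C06_part (fun m => ¬ p m) (H i))) * ∏ t, z t ^ d t =
          ∑ d ∈ (C06_part (fun m => ¬ p m) (H i)).support,
          algebraMap L A (coeff d (H i)) * ∏ t, z t ^ d t := by
        refine Finset.sum_congr rfl fun d hd => ?_
        rw [C06_coeff, if_pos (C06_support _ _ d hd).2]
      rw [h2]
      refine Finset.sum_subset ?_ ?_
      · intro d hd
        rw [hU, Finset.mem_filter, Finset.mem_biUnion]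
        exact ⟨⟨i, hi, (C06_support _ _ d hd).1⟩, (C06_support _ _ d hd).2⟩
      · intro d hd hd'
        rw [hU, Finset.mem_filter] at hd
        rw [notMem_support_iff, C06_coeff, if_pos hd.2] at hd'
        rw [hd', map_zero, zero_mul]
    have h3 : ∑ i ∈ s, Φ i * aeval z (C06_part (fun m => ¬ p m) (H i)) =
        ∑ β ∈ U, (∑ i ∈ s, Φ i * algebraMap L A (coeff β (H i))) * ∏ t, z t ^ β t := by
      rw [Finset.sum_congr rfl fun i hi => by rw [h1 i hi, Finset.mul_sum], Finset.sum_comm]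
      refine Finset.sum_congr rfl fun β _ => ?_
      rw [Finset.sum_mul]
      refine Finset.sum_congr rfl fun i _ => ?_
      rw [mul_assoc]
    rw [h3]
    refine Finset.sum_eq_zero fun β hβ => ?_
    rw [hU, Finset.mem_filter] at hβ
    rw [hT β (not_le.1 hβ.2), zero_mul]
  have hsplit : ∑ i ∈ s, Φ i * aeval z (H i) = ∑ i ∈ s, Φ i * aeval z (C06_part p (H i)) := by
    have h1 : ∑ i ∈ s, Φ i * aeval z (H i) =
        ∑ i ∈ s, Φ i * aeval z (C06_part p (H i)) +
          ∑ i ∈ s, Φ i * aeval z (C06_part (fun m => ¬ p m) (H i)) := by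
      rw [← Finset.sum_add_distrib]
      refine Finset.sum_congr rfl fun i _ => ?_
      rw [← mul_add, ← map_add, ← C06_add]
    rw [h1, hlow, add_zero]
  rw [hsplit]
  set M : ℝ := κ ^ (2 * E) * Ω ^ (k * E) * δ ^ T with hMdef
  have hM0 : 0 ≤ M := by positivity
  -- monomials
  have hmon : ∀ i ∈ s, ∀ β ∈ (C06_part p (H i)).support, μ (∏ t, z t ^ β t) ≤ M := by
    intro i hi β hβ
    obtain ⟨hβ1, hβ2⟩ := C06_support _ _ β hβ
    have hdeg : ∀ t, β t ≤ E := fun t => (monomial_le_degreeOf t hβ1).trans (hE i hi t)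
    have hκδ0 : 0 ≤ κ * δ := mul_nonneg hκ0 hδ.le
    have h1 : μ (∏ t, z t ^ β t) ≤ ∏ t, μ (z t) ^ β t := by
      refine (h.prod_le _ _).trans ?_
      exact Finset.prod_le_prod (fun t _ => h.nonneg _) fun t _ => h.pow_le _ _
    have h2 : ∏ t, μ (z t) ^ β t ≤
        (κ * δ) ^ β 0 * ((κ * δ) ^ β 1 * ∏ t : Fin k, Ω ^ β t.succ.succ) := by
      rw [Fin.prod_univ_succ, Fin.prod_univ_succ, Fin.succ_zero_eq_one]
      refine mul_le_mul (pow_le_pow_left₀ (h.nonneg _) hz0 _) ?_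
        (mul_nonneg (pow_nonneg (h.nonneg _) _) (Finset.prod_nonneg fun t _ => pow_nonneg (h.nonneg _) _))
        (pow_nonneg hκδ0 _)
      refine mul_le_mul (pow_le_pow_left₀ (h.nonneg _) hz1 _) ?_
        (Finset.prod_nonneg fun t _ => pow_nonneg (h.nonneg _) _) (pow_nonneg hκδ0 _)
      exact Finset.prod_le_prod (fun t _ => pow_nonneg (h.nonneg _) _)
        fun t _ => pow_le_pow_left₀ (h.nonneg _) (hz _) _
    have h3 : ∏ t : Fin k, Ω ^ β t.succ.succ ≤ Ω ^ (k * E) := by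
      have h31 : ∏ t : Fin k, Ω ^ β t.succ.succ ≤ ∏ _t : Fin k, Ω ^ E :=
        Finset.prod_le_prod (fun t _ => pow_nonneg hΩ0 _)
          fun t _ => pow_le_pow_right₀ hΩ (hdeg _)
      refine h31.trans (le_of_eq ?_)
      rw [Finset.prod_const, Finset.card_univ, Fintype.card_fin, ← pow_mul, mul_comm]
    have h4 : (κ * δ) ^ β 0 * (κ * δ) ^ β 1 ≤ κ ^ (2 * E) * δ ^ T := by
      rw [← pow_add, mul_pow]
      refine mul_le_mul ?_ ?_ (pow_nonneg hδ.le _) (pow_nonneg hκ0 _)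
      · refine pow_le_pow_right₀ hκ ?_
        have e0 := hdeg 0
        have e1 := hdeg 1
        omega
      · exact pow_le_pow_of_le_one hδ.le hδ1 hβ2
    refine h1.trans (h2.trans ?_)
    rw [← mul_assoc]
    calc (κ * δ) ^ β 0 * (κ * δ) ^ β 1 * ∏ t : Fin k, Ω ^ β t.succ.succ
        ≤ (κ ^ (2 * E) * δ ^ T) * Ω ^ (k * E) := by
          refine mul_le_mul h4 h3 (Finset.prod_nonneg fun t _ => pow_nonneg hΩ0 _) ?_
          exact mul_nonneg (pow_nonneg hκ0 _) (pow_nonneg hδ.le _)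
      _ = M := by rw [hMdef]; ring
  have hfin : ∀ i ∈ s, μ (Φ i * aeval z (C06_part p (H i))) ≤ B * (G * M) := by
    intro i hi
    refine (h.mul _ _).trans ?_
    refine mul_le_mul (hB i hi) ?_ (h.nonneg _) hB0
    refine (SN_aeval_mon h (C06_part p (H i)) z hM0 (hmon i hi)).trans ?_
    exact mul_le_mul_of_nonneg_right ((C06_NV_le v p (H i)).trans (hG i hi)) hM0
  refine (h.sum_le s _ (mul_nonneg hB0 (mul_nonneg hG0 hM0)) hfin).trans (le_of_eq ?_)
  rw [hMdef]
  ring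

end Pool.Agent.Lib.MP_17a322_nt.VN
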