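import Pool.Agent.Lib.MP_17a322_nt.VN.DefsC
import Pool.Agent.Lib.MP_17a322_nt.VJ.E3

/-!
# JOB C01: block polynomials, algebra

PROOFS. `EO_add`, `EO_sub`: induction on `n`; `(s + B) * (E + B * O) = (s * E + B ^ 2 * O) + B * (E + s * O)`, and for
`s - B` replace `B` by `-B` (`(-B) ^ 2 = d`).
`col_chG`: unfold `col`, `chG`; `c = true`: `(s + B) ^ ν * (2 S_2) ^ (b - ν)` and `EO_add`; `c = false`:
`(2 S_0) ^ ν * (s - B) ^ (b - ν)` and `EO_sub`; here `s = SV W R Q 1`, `d = ph W R * ph W Q`. (No condition on `ν`.)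
`map_EO`: induction. `map_chG`: `VJ.map_SV`, `VJ.map_ph` (see `VJ/E3.lean` for the exact form of these lemmas), `map_EO`.
`map_UV`: `map_prod`, `map_chG`, `VJ.map_mu`; `f (vc c ξ i) = vc c (f ξ) i` and `f (![x, 1] i) = ![f x, 1] i` by cases.
`aeval_UU`: `UU` is `UV` at the variables, `map_UV` with `f = aeval (Sum.elim x u)`.
`prod_col`: for every `t` the factor is `chG .. (c t) false .. + B t * chG .. (c t) true ..` (`col_chG`); the product over `t` of a sum
over `Bool` is the sum over `ε : Fin n → Bool` of the products (`Finset.prod_univ_sum` with `Fintype.piFinset`, or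
`Finset.prod_add`), and `if false then B t else 1 = 1`.
-/

namespace Pool.Agent.Lib.MP_17a322_nt.VN

open MvPolynomial Height
open Pool.Agent.Lib.MP_17a322_nt.RO Pool.Agent.Lib.MP_17a322_nt.VJ

theorem EO_add {A : Type*} [CommRing A] {s d B : A} (hB : B ^ 2 = d) (n : ℕ) :
    (s + B) ^ n = (EO s d n).1 + B * (EO s d n).2 := by
  induction n with
  | zero => simp [EO]
  | succ n ih =>
    rw [pow_succ, ih]
    simp only [EO]
    linear_combination (EO s d n).2 * hB

theorem EO_sub {A : Type*} [CommRing A] {s d B : A} (hB : B ^ 2 = d) (n : ℕ) :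
    (s - B) ^ n = (EO s d n).1 - B * (EO s d n).2 := by
  induction n with
  | zero => simp [EO]
  | succ n ih =>
    rw [pow_succ, ih]
    simp only [EO]
    linear_combination (EO s d n).2 * hB

theorem col_chG {K : Type*} [Field K] (W : WeierstrassCurve K) {A : Type*} [CommRing A]
    [Algebra K A] (R Q : Fin 2 → A) {B : A} (hB : B ^ 2 = ph W R * ph W Q) (c : Bool) (b ν : ℕ) :
    col W R Q B c 0 ^ ν * col W R Q B c 1 ^ (b - ν) =
      chG W R Q c false b ν + B * chG W R Q c true b ν := by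
  cases c
  · have h0 : col W R Q B false 0 = 2 * SV W R Q 0 := rfl
    have h1 : col W R Q B false 1 = SV W R Q 1 - B := rfl
    have h2 : chG W R Q false false b ν = (2 * SV W R Q 0) ^ ν *
        (EO (SV W R Q 1) (ph W R * ph W Q) (b - ν)).1 := rfl
    have h3 : chG W R Q false true b ν = (2 * SV W R Q 0) ^ ν *
        (-(EO (SV W R Q 1) (ph W R * ph W Q) (b - ν)).2) := rfl
    rw [h0, h1, h2, h3, EO_sub hB]
    ring
  · have h0 : col W R Q B true 0 = SV W R Q 1 + B := rfl
    have h1 : col W R Q B true 1 = 2 * SV W R Q 2 := rfl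
    have h2 : chG W R Q true false b ν = (EO (SV W R Q 1) (ph W R * ph W Q) ν).1 *
        (2 * SV W R Q 2) ^ (b - ν) := rfl
    have h3 : chG W R Q true true b ν = (EO (SV W R Q 1) (ph W R * ph W Q) ν).2 *
        (2 * SV W R Q 2) ^ (b - ν) := rfl
    rw [h0, h1, h2, h3, EO_add hB]
    ring

theorem map_EO {A A' : Type*} [CommRing A] [CommRing A'] (f : A →+* A') (s d : A) (n : ℕ) :
    f (EO s d n).1 = (EO (f s) (f d) n).1 ∧ f (EO s d n).2 = (EO (f s) (f d) n).2 := by
  induction n with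
  | zero => simp [EO]
  | succ n ih =>
    obtain ⟨h1, h2⟩ := ih
    simp only [EO, map_add, map_mul]
    rw [h1, h2]
    exact ⟨rfl, rfl⟩

theorem map_chG {K : Type*} [Field K] (W : WeierstrassCurve K) {A A' : Type*} [CommRing A]
    [Algebra K A] [CommRing A'] [Algebra K A'] (f : A →ₐ[K] A') (R Q : Fin 2 → A) (c e : Bool)
    (b ν : ℕ) :
    f (chG W R Q c e b ν) = chG W (fun i => f (R i)) (fun i => f (Q i)) c e b ν := by
  have hE : ∀ (s d : A) (m : ℕ), f (EO s d m).1 = (EO (f s) (f d) m).1 ∧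
      f (EO s d m).2 = (EO (f s) (f d) m).2 := fun s d m => map_EO (f : A →+* A') s d m
  cases c
  · cases e
    · change f ((2 * SV W R Q 0) ^ ν * (EO (SV W R Q 1) (ph W R * ph W Q) (b - ν)).1) =
        (2 * SV W (fun i => f (R i)) (fun i => f (Q i)) 0) ^ ν *
          (EO (SV W (fun i => f (R i)) (fun i => f (Q i)) 1)
            (ph W (fun i => f (R i)) * ph W (fun i => f (Q i))) (b - ν)).1
      rw [map_mul, map_pow, map_mul, map_ofNat, map_SV, (hE _ _ _).1, map_SV, map_mul, map_ph,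
        map_ph]
    · change f ((2 * SV W R Q 0) ^ ν * (-(EO (SV W R Q 1) (ph W R * ph W Q) (b - ν)).2)) =
        (2 * SV W (fun i => f (R i)) (fun i => f (Q i)) 0) ^ ν *
          (-(EO (SV W (fun i => f (R i)) (fun i => f (Q i)) 1)
            (ph W (fun i => f (R i)) * ph W (fun i => f (Q i))) (b - ν)).2)
      rw [map_mul, map_pow, map_mul, map_ofNat, map_neg, map_SV, (hE _ _ _).2, map_SV, map_mul,
        map_ph, map_ph]
  · cases e
    · change f ((EO (SV W R Q 1) (ph W R * ph W Q) ν).1 * (2 * SV W R Q 2) ^ (b - ν)) =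
        (EO (SV W (fun i => f (R i)) (fun i => f (Q i)) 1)
            (ph W (fun i => f (R i)) * ph W (fun i => f (Q i))) ν).1 *
          (2 * SV W (fun i => f (R i)) (fun i => f (Q i)) 2) ^ (b - ν)
      rw [map_mul, map_pow, map_mul, map_ofNat, map_SV, (hE _ _ _).1, map_SV, map_mul, map_ph,
        map_ph]
    · change f ((EO (SV W R Q 1) (ph W R * ph W Q) ν).2 * (2 * SV W R Q 2) ^ (b - ν)) =
        (EO (SV W (fun i => f (R i)) (fun i => f (Q i)) 1)
            (ph W (fun i => f (R i)) * ph W (fun i => f (Q i))) ν).2 *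
          (2 * SV W (fun i => f (R i)) (fun i => f (Q i)) 2) ^ (b - ν)
      rw [map_mul, map_pow, map_mul, map_ofNat, map_SV, (hE _ _ _).2, map_SV, map_mul, map_ph,
        map_ph]

theorem map_UV {K : Type*} [Field K] {n : ℕ} (W : Fin n → WeierstrassCurve K) (χ : Fin n → Bool)
    (j b : ℕ) {A A' : Type*} [CommRing A] [Algebra K A] [CommRing A'] [Algebra K A']
    (f : A →ₐ[K] A') (x u : Fin n → A) (c e : Fin n → Bool) (ν : Fin n → ℕ) :
    f (UV W χ j b x u c e ν) = UV W χ j b (fun t => f (x t)) (fun t => f (u t)) c e ν := by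
  unfold UV
  rw [map_prod]
  refine Finset.prod_congr rfl fun t _ => ?_
  rw [map_chG]
  have h1 : (fun i => f (mu (W t) j ![x t, 1] i)) = mu (W t) j ![f (x t), 1] := by
    funext i
    rw [map_mu]
    have h2 : (fun i => f ((![x t, 1] : Fin 2 → A) i)) = ![f (x t), 1] := by
      funext i
      fin_cases i
      · rfl
      · exact map_one f
    rw [h2]
  have h3 : (fun i => f (vc (χ t) (u t) i)) = vc (χ t) (f (u t)) := by
    funext i
    cases χ t
    · fin_cases i
      · rfl
      · exact map_one f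
    · fin_cases i
      · exact map_one f
      · rfl
  rw [h1, h3]

theorem aeval_UU {K : Type*} [Field K] {n : ℕ} (W : Fin n → WeierstrassCurve K) (χ : Fin n → Bool)
    (j b : ℕ) {A : Type*} [CommRing A] [Algebra K A] (x u : Fin n → A) (c e : Fin n → Bool)
    (ν : Fin n → ℕ) : aeval (Sum.elim x u) (UU W χ j b c e ν) = UV W χ j b x u c e ν := by
  unfold UU
  rw [map_UV]
  simp only [aeval_X, Sum.elim_inl, Sum.elim_inr]

theorem prod_col {K : Type*} [Field K] {n : ℕ} (W : Fin n → WeierstrassCurve K) (χ : Fin n → Bool)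
    (j b : ℕ) {A : Type*} [CommRing A] [Algebra K A] (x u : Fin n → A) (B : Fin n → A)
    (hB : ∀ t, B t ^ 2 = ph (W t) (mu (W t) j ![x t, 1]) * ph (W t) (vc (χ t) (u t)))
    (c : Fin n → Bool) (ν : Fin n → ℕ) :
    ∏ t, (col (W t) (mu (W t) j ![x t, 1]) (vc (χ t) (u t)) (B t) (c t) 0 ^ (ν t) *
      col (W t) (mu (W t) j ![x t, 1]) (vc (χ t) (u t)) (B t) (c t) 1 ^ (b - ν t)) =
      ∑ ε : Fin n → Bool, (∏ t, if ε t then B t else 1) * UV W χ j b x u c ε ν := by
  have h1 : ∀ t, col (W t) (mu (W t) j ![x t, 1]) (vc (χ t) (u t)) (B t) (c t) 0 ^ (ν t) *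
      col (W t) (mu (W t) j ![x t, 1]) (vc (χ t) (u t)) (B t) (c t) 1 ^ (b - ν t) =
      ∑ ε : Bool, (if ε then B t else 1) *
        chG (W t) (mu (W t) j ![x t, 1]) (vc (χ t) (u t)) (c t) ε b (ν t) := by
    intro t
    rw [col_chG (W t) _ _ (hB t), Fintype.sum_bool]
    simp only [if_true, Bool.false_eq_true, if_false, one_mul]
    ring
  rw [Finset.prod_congr rfl fun t _ => h1 t, Finset.prod_univ_sum, Fintype.piFinset_univ]
  refine Finset.sum_congr rfl fun ε _ => ?_
  rw [Finset.prod_mul_distrib]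
  rfl

end Pool.Agent.Lib.MP_17a322_nt.VN
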