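import Pool.Agent.Lib.MP_17a322_nt.VN.DefsC
import Pool.Agent.Lib.MP_17a322_nt.VN.C01
import Pool.Agent.Lib.MP_17a322_nt.VJ.E2

/-!
# JOB C02: block polynomials, sizes

The setting is that of `VJ/E2.lean`: `K` the field of the curve, `L` a field over `K` with an absolute value `v`, `A` an
`L`-algebra with a seminorm `μ` (`SN v μ`), `cst v 2 ≤ lc W v`, `1 ≤ lc W v`.

PROOFS.
`EO_size`: induction on `n`. `μ (s E + d O) ≤ cst 2 * max (σ μ E) (σ ^ 2 μ O)` (`SN.add_le_cst`, `SN.mul`) and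
`σ ^ 2 μ O = σ * (σ μ O) ≤ σ * (cst 2 * σ) ^ n`; `σ * μ (E + s O) ≤ σ * cst 2 * max (μ E) (σ μ O) ≤ (cst 2 * σ) ^ (n + 1)`. `n = 0`: `μ 1 ≤ 1`
(`SN.one_le`), `μ 0 = 0`.
`chG_size`: put `σ = lc W v ^ 16 * (r * q) ^ 2 ≥ 1`. `SV_size`: `μ (SV W R Q i) ≤ σ`; `ph_size`: `μ (ph R * ph Q) ≤ σ ^ 2`.
`μ (2 * S_i) ≤ μ 2 * σ ≤ lc W v * σ` (`E2_two`). By `EO_size` and `σ ≥ 1` both components of `EO` at `n` have size `≤ (cst v 2 * σ) ^ n ≤ (lc W v * σ) ^ n`.
So `μ (chG ..) ≤ (lc W v * σ) ^ ν * (lc W v * σ) ^ (b - ν) = (lc W v * σ) ^ b = lc W v ^ (17 * b) * (r * q) ^ (2 * b)` for `ν ≤ b`.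
`UV_size`: for every `t`: `chG_size` with `R = mu (W t) j ![x t, 1]`, `r = lc ^ (16 * 4 ^ j) * (max 1 (μ (x t))) ^ (4 ^ j)` (`mu_size`; the entries of
`![x, 1]` have size `≤ max 1 (μ x)`), `Q = vc (χ t) (u t)`, `q = max 1 (μ (u t))`: the factor is
`≤ lc ^ (17 b + 32 b 4 ^ j) * (max 1 (μ (x t))) ^ (2 b 4 ^ j) * (max 1 (μ (u t))) ^ (2 b)` and `17 b + 32 b 4 ^ j ≤ 49 b 4 ^ j`. Then `SN.prod_le`,
`Finset.prod_le_prod`, `Finset.prod_mul_distrib`, `Finset.prod_pow`.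
`NV_UU`: `MvPolynomial.map (algebraMap K L) (UU ..) = UV W χ j b (fun t => X (inl t)) (fun t => X (inr t)) c e ν` in `MvPolynomial _ L`
(a `K`-algebra; ring homomorphisms commute with `mu`, `SV`, `ph`, `EO`: `VN.map_UV` of C01 for the algebra homomorphism
`MvPolynomial.mapAlgHom (Algebra.ofId K L)` or aeval with values in `MvPolynomial _ L`), then `UV_size` for the seminorm
`NV v` (`SN_NV`), `NV_X = 1`. You may import C01.
-/

namespace Pool.Agent.Lib.MP_17a322_nt.VN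

open MvPolynomial Height
open Pool.Agent.Lib.MP_17a322_nt.RO Pool.Agent.Lib.MP_17a322_nt.VJ

theorem EO_size {L : Type*} [Field L] {v : AbsoluteValue L ℝ} {A : Type*} [CommRing A]
    [Algebra L A] {μ : A → ℝ} (h : SN v μ) {s d : A} {σ : ℝ} (hσ : 0 ≤ σ) (hs : μ s ≤ σ)
    (hd : μ d ≤ σ ^ 2) (n : ℕ) :
    μ (EO s d n).1 ≤ (cst v 2 * σ) ^ n ∧ σ * μ (EO s d n).2 ≤ (cst v 2 * σ) ^ n := by
  have hc : 0 ≤ cst v 2 := cst_nonneg v 2
  induction n with
  | zero =>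
    refine ⟨?_, ?_⟩
    · rw [pow_zero]
      exact h.one_le
    · show σ * μ 0 ≤ _
      rw [h.zero, mul_zero, pow_zero]
      exact zero_le_one
  | succ n ih =>
    obtain ⟨h1, h2⟩ := ih
    have hp : 0 ≤ (cst v 2 * σ) ^ n := pow_nonneg (mul_nonneg hc hσ) n
    have a1 : μ (s * (EO s d n).1) ≤ σ * (cst v 2 * σ) ^ n := E2_mul h hs h1
    have a2 : μ (d * (EO s d n).2) ≤ σ * (cst v 2 * σ) ^ n := by
      refine (h.mul _ _).trans ?_
      calc μ d * μ (EO s d n).2 ≤ σ ^ 2 * μ (EO s d n).2 :=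
            mul_le_mul_of_nonneg_right hd (h.nonneg _)
        _ = σ * (σ * μ (EO s d n).2) := by ring
        _ ≤ σ * (cst v 2 * σ) ^ n := mul_le_mul_of_nonneg_left h2 hσ
    have a3 : μ (s * (EO s d n).2) ≤ (cst v 2 * σ) ^ n :=
      ((h.mul _ _).trans (mul_le_mul_of_nonneg_right hs (h.nonneg _))).trans h2
    have b1 := h.add_le_cst a1 a2
    have b2 := h.add_le_cst h1 a3
    refine ⟨?_, ?_⟩
    · show μ (s * (EO s d n).1 + d * (EO s d n).2) ≤ _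
      refine b1.trans (le_of_eq ?_)
      rw [pow_succ]
      ring
    · show σ * μ ((EO s d n).1 + s * (EO s d n).2) ≤ _
      refine (mul_le_mul_of_nonneg_left b2 hσ).trans (le_of_eq ?_)
      rw [pow_succ]
      ring

theorem chG_size {K L : Type*} [Field K] [Field L] [Algebra K L] {v : AbsoluteValue L ℝ}
    {A : Type*} [CommRing A] [Algebra L A] [Algebra K A] [IsScalarTower K L A] {μ : A → ℝ}
    (h : SN v μ) (W : WeierstrassCurve K) (R Q : Fin 2 → A) {r q : ℝ} (hr1 : 1 ≤ r) (hq1 : 1 ≤ q)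
    (hr : ∀ i, μ (R i) ≤ r) (hq : ∀ i, μ (Q i) ≤ q) (c e : Bool) {b ν : ℕ} (hν : ν ≤ b) :
    μ (chG W R Q c e b ν) ≤ lc W v ^ (17 * b) * (r * q) ^ (2 * b) := by
  have hl : 1 ≤ lc W v := one_le_lc W v
  have hl0 : 0 ≤ lc W v := zero_le_one.trans hl
  have hr0 : 0 ≤ r := zero_le_one.trans hr1
  have hq0 : 0 ≤ q := zero_le_one.trans hq1
  have hrq : 1 ≤ r * q := one_le_mul_of_one_le_of_one_le hr1 hq1
  obtain ⟨σ, hσ⟩ : ∃ σ, σ = lc W v ^ 16 * (r * q) ^ 2 := ⟨_, rfl⟩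
  have hσ1 : 1 ≤ σ := by
    rw [hσ]
    exact one_le_mul_of_one_le_of_one_le (one_le_pow₀ hl) (one_le_pow₀ hrq)
  have hσ0 : 0 ≤ σ := zero_le_one.trans hσ1
  have hS : ∀ i, μ (SV W R Q i) ≤ σ := fun i => by
    rw [hσ]
    exact SV_size W h R Q hr hq i
  have hd : μ (ph W R * ph W Q) ≤ σ ^ 2 := by
    refine (E2_mul h (ph_size W h R hr) (ph_size W h Q hq)).trans (le_of_eq ?_)
    rw [hσ]
    ring
  obtain ⟨ρ, hρ⟩ : ∃ ρ, ρ = lc W v * σ := ⟨_, rfl⟩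
  have hρ0 : 0 ≤ ρ := by
    rw [hρ]
    exact mul_nonneg hl0 hσ0
  have h2 : ∀ i, μ (2 * SV W R Q i) ≤ ρ := fun i => by
    rw [hρ]
    have h3 := E2_two (W := W) (v := v) h
    rw [pow_one] at h3
    exact E2_mul h h3 (hS i)
  have hcr : ∀ n, (cst v 2 * σ) ^ n ≤ ρ ^ n := fun n => by
    rw [hρ]
    exact pow_le_pow_left₀ (mul_nonneg (cst_nonneg v 2) hσ0)
      (mul_le_mul_of_nonneg_right (cst_two_le_lc W v) hσ0) n
  have hE1 : ∀ n, μ (EO (SV W R Q 1) (ph W R * ph W Q) n).1 ≤ ρ ^ n := fun n =>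
    (EO_size h hσ0 (hS 1) hd n).1.trans (hcr n)
  have hE2 : ∀ n, μ (EO (SV W R Q 1) (ph W R * ph W Q) n).2 ≤ ρ ^ n := fun n =>
    (le_mul_of_one_le_left (h.nonneg _) hσ1).trans
      ((EO_size h hσ0 (hS 1) hd n).2.trans (hcr n))
  have hp : ∀ i n, μ ((2 * SV W R Q i) ^ n) ≤ ρ ^ n := fun i n =>
    (h.pow_le _ _).trans (pow_le_pow_left₀ (h.nonneg _) (h2 i) n)
  have key : μ (chG W R Q c e b ν) ≤ ρ ^ b := by
    unfold chG
    have e1 : ρ ^ b = ρ ^ ν * ρ ^ (b - ν) := by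
      rw [← pow_add, Nat.add_sub_cancel' hν]
    rw [e1]
    cases c <;> cases e
    · simp only [Bool.false_eq_true, if_false]
      exact E2_mul h (hp 0 ν) (hE1 _)
    · simp only [Bool.false_eq_true, if_false, if_true]
      refine E2_mul h (hp 0 ν) ?_
      rw [h.neg]
      exact hE2 _
    · simp only [Bool.false_eq_true, if_false, if_true]
      exact E2_mul h (hE1 _) (hp 2 _)
    · simp only [if_true]
      exact E2_mul h (hE2 _) (hp 2 _)
  refine key.trans (le_of_eq ?_)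
  rw [hρ, hσ, ← mul_assoc, ← pow_succ', mul_pow, ← pow_mul, ← pow_mul]

theorem UV_size {K L : Type*} [Field K] [Field L] [Algebra K L] {v : AbsoluteValue L ℝ}
    {A : Type*} [CommRing A] [Algebra L A] [Algebra K A] [IsScalarTower K L A] {μ : A → ℝ}
    (h : SN v μ) {n : ℕ} (W : Fin n → WeierstrassCurve K) (χ : Fin n → Bool) (j b : ℕ)
    (x u : Fin n → A) (c e : Fin n → Bool) (ν : Fin n → ℕ) (hν : ∀ t, ν t ≤ b) :
    μ (UV W χ j b x u c e ν) ≤ (∏ t, lc (W t) v) ^ (49 * (b * 4 ^ j)) *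
      (∏ t, max 1 (μ (x t)) ^ (2 * (b * 4 ^ j))) * ∏ t, max 1 (μ (u t)) ^ (2 * b) := by
  have h4 : 1 ≤ 4 ^ j := Nat.one_le_pow _ _ (by norm_num)
  have hfac : ∀ t, μ (chG (W t) (mu (W t) j ![x t, 1]) (vc (χ t) (u t)) (c t) (e t) b (ν t)) ≤
      lc (W t) v ^ (49 * (b * 4 ^ j)) * max 1 (μ (x t)) ^ (2 * (b * 4 ^ j)) *
        max 1 (μ (u t)) ^ (2 * b) := by
    intro t
    have hl : 1 ≤ lc (W t) v := one_le_lc (W t) v
    have hx1 : 1 ≤ max 1 (μ (x t)) := le_max_left _ _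
    have hR0 : ∀ i, μ ((![x t, 1] : Fin 2 → A) i) ≤ max 1 (μ (x t)) := by
      intro i
      fin_cases i
      · exact le_max_right _ _
      · exact h.one_le.trans (le_max_left _ _)
    have hR := mu_size (W t) h j ![x t, 1] hR0
    have hQ : ∀ i, μ (vc (χ t) (u t) i) ≤ max 1 (μ (u t)) := by
      intro i
      unfold vc
      cases χ t <;> fin_cases i
      · exact le_max_right _ _
      · exact h.one_le.trans (le_max_left _ _)
      · exact h.one_le.trans (le_max_left _ _)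
      · exact le_max_right _ _
    have hr1 : 1 ≤ lc (W t) v ^ (16 * 4 ^ j) * max 1 (μ (x t)) ^ (4 ^ j) :=
      one_le_mul_of_one_le_of_one_le (one_le_pow₀ hl) (one_le_pow₀ hx1)
    refine (chG_size h (W t) _ _ hr1 (le_max_left 1 (μ (u t))) hR hQ (c t) (e t) (hν t)).trans ?_
    have e1 : lc (W t) v ^ (17 * b) *
        (lc (W t) v ^ (16 * 4 ^ j) * max 1 (μ (x t)) ^ (4 ^ j) * max 1 (μ (u t))) ^ (2 * b) =
        lc (W t) v ^ (17 * b + 16 * 4 ^ j * (2 * b)) * (max 1 (μ (x t)) ^ (4 ^ j * (2 * b)) *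
          max 1 (μ (u t)) ^ (2 * b)) := by
      rw [mul_pow, mul_pow, ← pow_mul, ← pow_mul, pow_add]
      ring
    rw [e1, mul_assoc (lc (W t) v ^ (49 * (b * 4 ^ j)))]
    have e2 : 4 ^ j * (2 * b) = 2 * (b * 4 ^ j) := by ring
    rw [e2]
    refine mul_le_mul_of_nonneg_right (lc_pow_mono (W t) v ?_) (by positivity)
    have h5 : b ≤ b * 4 ^ j := Nat.le_mul_of_pos_right b h4
    have h6 : 16 * 4 ^ j * (2 * b) = 32 * (b * 4 ^ j) := by ring
    omega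
  unfold UV
  refine (h.prod_le _ _).trans ((Finset.prod_le_prod (fun t _ => h.nonneg _)
    fun t _ => hfac t).trans (le_of_eq ?_))
  rw [Finset.prod_mul_distrib, Finset.prod_mul_distrib, Finset.prod_pow]

theorem NV_UU {K L : Type*} [Field K] [Field L] [Algebra K L] (v : AbsoluteValue L ℝ) {n : ℕ}
    (W : Fin n → WeierstrassCurve K) (χ : Fin n → Bool) (j b : ℕ) (c e : Fin n → Bool)
    (ν : Fin n → ℕ) (hν : ∀ t, ν t ≤ b) :
    NV v (MvPolynomial.map (algebraMap K L) (UU W χ j b c e ν)) ≤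
      (∏ t, lc (W t) v) ^ (49 * (b * 4 ^ j)) := by
  have h1 := map_UV W χ j b (MvPolynomial.mapAlgHom (σ := Fin n ⊕ Fin n) (Algebra.ofId K L))
    (fun t => X (Sum.inl t)) (fun t => X (Sum.inr t)) c e ν
  have h2 : MvPolynomial.map (algebraMap K L) (UU W χ j b c e ν) =
      UV W χ j b (fun t => (X (Sum.inl t) : MvPolynomial (Fin n ⊕ Fin n) L))
        (fun t => X (Sum.inr t)) c e ν := by
    have h3 : MvPolynomial.mapAlgHom (σ := Fin n ⊕ Fin n) (Algebra.ofId K L)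
        (UU W χ j b c e ν) = MvPolynomial.map (algebraMap K L) (UU W χ j b c e ν) := rfl
    rw [← h3]
    refine h1.trans ?_
    have h4 : ∀ s : Fin n ⊕ Fin n, MvPolynomial.mapAlgHom (σ := Fin n ⊕ Fin n)
        (Algebra.ofId K L) (X s) = (X s : MvPolynomial (Fin n ⊕ Fin n) L) := fun s =>
      MvPolynomial.map_X _ s
    simp only [h4]
  rw [h2]
  refine (UV_size (SN_NV v) W χ j b _ _ c e ν hν).trans (le_of_eq ?_)
  simp only [NV_X, max_self, one_pow, Finset.prod_const_one, mul_one]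

end Pool.Agent.Lib.MP_17a322_nt.VN
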