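import Pool.Agent.Lib.MP_17a322_nt.VN.C01
import Pool.Agent.Lib.MP_17a322_nt.VN.C02
import Pool.Agent.Lib.MP_17a322_nt.VN.C03
import Pool.Agent.Lib.MP_17a322_nt.VN.C05
import Pool.Agent.Lib.MP_17a322_nt.VN.C06
import Pool.Agent.Lib.MP_17a322_nt.VN.C07

/-!
# JOB C08: the main estimates

PROOFS.
`H_bound` (the polynomials `H = spx x0 (GG ρ (UU ..) l)`): degrees: `spx_degree`, `GG_degree_inr` with `D := (k + 2) * (2 * b)` (`UU_degree`, sum of `k + 2` terms `≤ 2 b`),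
and `D' := D` (`degreeOf t p ≤ totalDegree p ≤ D`, `MvPolynomial.degreeOf_le_totalDegree`). Size: `spx_NV` (degrees in `inl t`: `GG_degree_inl`, `UU_degree`: `2 * (b * 4 ^ j)`), `GG_map`
(`(algebraMap K L).injective`), `GG_NV` for `ρ.map (algebraMap K L)` with `B = (ρ.map (algebraMap K L)).RB v` (`M_le_RB`, `one_le_RB`) and
`D = (k + 2) * (2 * b)` (the degree does not grow under `map`: `degreeOf_map_le`, as in the proof of `SN.aeval_le'` in `VJ/A3.lean`), `NV_UU`.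
`ORD_estimate`: write `R = (ρ.map ..).RB v`, `n = k + 2`. By `aeval_UU`, `GG_eval` (with `A` as a `K`-algebra), `aeval_spx`:
`UV .. ν = ∑ l, aeval u (ρ.w l) * aeval (fun t => aeval u (ρ.z t)) (H ν l)`. So the sum is `∑ l, aeval u (ρ.w l) * (∑ ν, Φ ν * aeval z (H ν l))`, `z t = aeval u (ρ.z t)`.
`core_estimate` for every `l` with `s = box ..`, `hT` = `hO c ε l`, `E = (k + 2) * (2 * b) * D`, `G` = bound of `H_bound`, `Ω = R * ω ^ (n * D)` (`SN.aeval_le'` with `d t = D`,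
`∏ t, max 1 (μ (u t)) ^ D ≤ ω ^ (n * D)`, `z_le_RB`; the polynomial there is `MvPolynomial.map (algebraMap K L) (ρ.z t) = (ρ.map ..).z t` by `rfl`).
`s.card = (b + 1) ^ n` (`card_box`), `cst v ((b + 1) ^ n) ≤ cst v (2 ^ (n b)) = cst v 2 ^ (n b)` (`cst_mono`, `cst_pow`). `μ (aeval u (ρ.w l)) ≤ R * ω ^ (n * D)`. The sum over `l`: `SN.sum_le`, `cst v (e + 1)`.
Total: `B * lc ^ .. * x ^ .. * δ ^ T` times
`cst v (e+1) ^ (1 + 2 n b) * cst v 2 ^ (n b) * R ^ (1 + 2 n b + k E) * κ ^ (2 E) * ω ^ (n D + n D k E)`; all five exponents are `≤ CE k D * b` since `1 ≤ b`, and the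
bases are `≥ 1` (`one_le_cst`).  Exponents: `E = 2 n b D`, `CE k D = 8 n ^ 3 (D + 1) ^ 2`: `k E = 2 k n b D ≤ 2 n ^ 2 D b`, `n D k E ≤ 2 n ^ 3 D ^ 2 b`, etc. (`nlinarith` or estimate every
term by `c * (n ^ 3 * (D + 1) ^ 2 * b)`.)
`UV_estimate`: `UV_size`: `μ (UV ..) ≤ lc ^ .. * (∏ t, max 1 (μ (x t)) ^ ..) * ω ^ (2 b n)`; `SN.sum_le` and `cst v ((b + 1) ^ n) ≤ cst v 2 ^ (n b) ≤ cst v 2 ^ (2 n b)`.
`B ≥ 0` because `0 ∈ box ..` (`mem_box`) and `μ (Φ 0) ≥ 0`.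
-/

namespace Pool.Agent.Lib.MP_17a322_nt.VN

open MvPolynomial Height
open Pool.Agent.Lib.MP_17a322_nt.RO Pool.Agent.Lib.MP_17a322_nt.VJ

theorem C08_prod_le {A : Type*} {μ : A → ℝ} {n : ℕ} (u : Fin n → A) {ω : ℝ} (hω : 1 ≤ ω)
    (hu : ∀ t, μ (u t) ≤ ω) (D : ℕ) : ∏ t, (max 1 (μ (u t))) ^ D ≤ ω ^ (n * D) := by
  have h1 : ∏ t : Fin n, (max 1 (μ (u t))) ^ D ≤ ∏ _t : Fin n, ω ^ D := by
    refine Finset.prod_le_prod (fun t _ => pow_nonneg (zero_le_one.trans (le_max_left _ _)) _)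
      fun t _ => ?_
    exact pow_le_pow_left₀ (zero_le_one.trans (le_max_left _ _)) (max_le hω (hu t)) _
  refine h1.trans (le_of_eq ?_)
  rw [Finset.prod_const, Finset.card_univ, Fintype.card_fin, ← pow_mul, mul_comm]

theorem C08_cst_card {L : Type*} [Field L] (v : AbsoluteValue L ℝ) (n b : ℕ) :
    cst v ((b + 1) ^ n) ≤ cst v 2 ^ (n * b) := by
  have h1 : (b + 1) ^ n ≤ 2 ^ (n * b) := by
    rw [mul_comm n b, pow_mul]
    exact Nat.pow_le_pow_left (Nat.succ_le_of_lt Nat.lt_two_pow_self) n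
  refine (cst_mono v h1).trans (le_of_eq ?_)
  rw [cst_pow]

theorem C08_card (n b : ℕ) : (box (fun _ : Fin n => b + 1)).card = (b + 1) ^ n := by
  rw [card_box, Finset.prod_const, Finset.card_univ, Fintype.card_fin]

theorem C08_B_nonneg {A : Type*} {μ : A → ℝ} (h : ∀ a, 0 ≤ μ a) {n b : ℕ} {B : ℝ}
    (Φ : (Fin n → ℕ) → A) (hB : ∀ ν ∈ box (fun _ : Fin n => b + 1), μ (Φ ν) ≤ B) : 0 ≤ B := by
  refine (h (Φ 0)).trans (hB 0 ?_)
  rw [mem_box]
  intro a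
  exact Nat.succ_pos b

theorem C08_prod_nonneg {ι : Type*} [Fintype ι] (f : ι → ℝ) (D : ℕ) :
    0 ≤ (∏ t, max 1 (f t)) ^ D :=
  pow_nonneg (Finset.prod_nonneg fun t _ => zero_le_one.trans (le_max_left _ _)) _

theorem C08_lc_nonneg {K L : Type*} [Field K] [Field L] [Algebra K L] (v : AbsoluteValue L ℝ)
    {n : ℕ} (W : Fin n → WeierstrassCurve K) (D : ℕ) : 0 ≤ (∏ t, lc (W t) v) ^ D :=
  pow_nonneg (Finset.prod_nonneg fun t _ => zero_le_one.trans (one_le_lc (W t) v)) _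

theorem C08_exp (k D b n : ℕ) (hn : n = k + 2) (hb : 1 ≤ b) :
    1 + n * (2 * b) ≤ CE k D * b ∧ n * b ≤ CE k D * b ∧
      1 + n * (2 * b) + k * (n * (2 * b) * D) ≤ CE k D * b ∧
      2 * (n * (2 * b) * D) ≤ CE k D * b ∧
      n * D + n * D * (k * (n * (2 * b) * D)) ≤ CE k D * b := by
  have hk : k ≤ n := by omega
  have hn1 : 1 ≤ n := by omega
  have hCE : CE k D * b = 8 * (n ^ 3 * (D + 1) ^ 2 * b) := by
    unfold CE
    rw [← hn]
    ring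
  have gen : ∀ i m : ℕ, i ≤ 3 → m ≤ 2 →
      n ^ i * (D + 1) ^ m * b ≤ n ^ 3 * (D + 1) ^ 2 * b := fun i m hi hm =>
    Nat.mul_le_mul (Nat.mul_le_mul (Nat.pow_le_pow_right hn1 hi)
      (Nat.pow_le_pow_right (Nat.succ_pos D) hm)) le_rfl
  have g0 := gen 0 0 (by norm_num) (by norm_num)
  have g1 := gen 1 0 (by norm_num) (by norm_num)
  have g2 := gen 2 1 (by norm_num) (by norm_num)
  have g3 := gen 1 1 (by norm_num) (by norm_num)
  have g4 := gen 3 2 (by norm_num) (by norm_num)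
  rw [pow_zero, pow_zero, one_mul, one_mul] at g0
  rw [pow_one, pow_zero, mul_one] at g1
  rw [pow_one] at g2
  rw [pow_one, pow_one] at g3
  have e1 : k * (n * (2 * b) * D) ≤ 2 * (n ^ 2 * (D + 1) * b) := by
    calc k * (n * (2 * b) * D) ≤ n * (n * (2 * b) * (D + 1)) :=
          Nat.mul_le_mul hk (Nat.mul_le_mul le_rfl (Nat.le_succ D))
      _ = 2 * (n ^ 2 * (D + 1) * b) := by ring
  have e2 : n * D ≤ n * (D + 1) * b := by
    calc n * D ≤ n * (D + 1) * 1 := by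
          rw [mul_one]
          exact Nat.mul_le_mul le_rfl (Nat.le_succ D)
      _ ≤ n * (D + 1) * b := Nat.mul_le_mul le_rfl hb
  have e3 : n * D * (k * (n * (2 * b) * D)) ≤ 2 * (n ^ 3 * (D + 1) ^ 2 * b) := by
    calc n * D * (k * (n * (2 * b) * D)) ≤ n * (D + 1) * (2 * (n ^ 2 * (D + 1) * b)) :=
          Nat.mul_le_mul (Nat.mul_le_mul le_rfl (Nat.le_succ D)) e1
      _ = 2 * (n ^ 3 * (D + 1) ^ 2 * b) := by ring
  have e4 : 2 * (n * (2 * b) * D) ≤ 4 * (n * (D + 1) * b) := by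
    calc 2 * (n * (2 * b) * D) ≤ 2 * (n * (2 * b) * (D + 1)) :=
          Nat.mul_le_mul le_rfl (Nat.mul_le_mul le_rfl (Nat.le_succ D))
      _ = 4 * (n * (D + 1) * b) := by ring
  have e5 : n * (2 * b) = 2 * (n * b) := by ring
  rw [hCE]
  refine ⟨?_, ?_, ?_, ?_, ?_⟩ <;> omega

theorem C08_bases {c2 ce R κ ω cc : ℝ} (h2 : 1 ≤ c2) (he : 1 ≤ ce) (hR : 1 ≤ R) (hκ : 1 ≤ κ)
    (hω : 1 ≤ ω) (hcc0 : 0 ≤ cc) {n b k D E : ℕ} (hn : n = k + 2) (hb : 1 ≤ b)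
    (hcc : cc ≤ c2 ^ (n * b)) (hE : E = n * (2 * b) * D) :
    ce ^ (1 + n * (2 * b)) * cc * R ^ (1 + n * (2 * b) + k * E) * κ ^ (2 * E) *
        ω ^ (n * D + n * D * (k * E)) ≤
      (c2 * ce * R * κ * ω) ^ (CE k D * b) := by
  obtain ⟨x1, x2, x3, x4, x5⟩ := C08_exp k D b n hn hb
  rw [← hE] at x3 x4 x5
  have y1 := pow_le_pow_right₀ he x1
  have y2 : cc ≤ c2 ^ (CE k D * b) := hcc.trans (pow_le_pow_right₀ h2 x2)
  have y3 := pow_le_pow_right₀ hR x3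
  have y4 := pow_le_pow_right₀ hκ x4
  have y5 := pow_le_pow_right₀ hω x5
  have p1 : 0 ≤ ce := zero_le_one.trans he
  have p2 : 0 ≤ c2 := zero_le_one.trans h2
  have p3 : 0 ≤ R := zero_le_one.trans hR
  have p4 : 0 ≤ κ := zero_le_one.trans hκ
  have p5 : 0 ≤ ω := zero_le_one.trans hω
  calc ce ^ (1 + n * (2 * b)) * cc * R ^ (1 + n * (2 * b) + k * E) * κ ^ (2 * E) *
        ω ^ (n * D + n * D * (k * E)) ≤
      ce ^ (CE k D * b) * c2 ^ (CE k D * b) * R ^ (CE k D * b) * κ ^ (CE k D * b) *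
        ω ^ (CE k D * b) := by
        refine mul_le_mul (mul_le_mul (mul_le_mul (mul_le_mul y1 y2 hcc0 ?_) y3 ?_ ?_) y4 ?_ ?_)
          y5 ?_ ?_ <;> positivity
    _ = (c2 * ce * R * κ * ω) ^ (CE k D * b) := by
        rw [mul_pow, mul_pow, mul_pow, mul_pow]
        ring

theorem H_bound {K L : Type*} [Field K] [Field L] [Algebra K L] (v : AbsoluteValue L ℝ) {k e : ℕ}
    (ρ : REP K (k + 2) e) {D : ℕ} (hD : ρ.Deg D) (W : Fin (k + 2) → WeierstrassCurve K)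
    (χ : Fin (k + 2) → Bool) (j b : ℕ) (x0 : Fin (k + 2) → L) (c ε : Fin (k + 2) → Bool)
    (ν : Fin (k + 2) → ℕ) (hν : ∀ t, ν t ≤ b) (l : Fin (e + 1)) :
    (∀ t, degreeOf t (spx x0 (GG ρ (UU W χ j b c ε ν) l)) ≤ (k + 2) * (2 * b) * D) ∧
      NV v (spx x0 (GG ρ (UU W χ j b c ε ν) l)) ≤
        (∏ t, lc (W t) v) ^ (49 * (b * 4 ^ j)) *
          (cst v (e + 1) * (ρ.map (algebraMap K L)).RB v) ^ ((k + 2) * (2 * b)) *
            (∏ t, max 1 (v (x0 t))) ^ (2 * (b * 4 ^ j)) := by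
  have hdr : ∑ t, degreeOf (Sum.inr t) (UU W χ j b c ε ν) ≤ (k + 2) * (2 * b) := by
    refine (Finset.sum_le_card_nsmul Finset.univ _ (2 * b)
      fun t _ => (UU_degree W χ j b c ε ν hν t).2).trans (le_of_eq ?_)
    rw [Finset.card_univ, Fintype.card_fin, smul_eq_mul]
  refine ⟨fun t => ?_, ?_⟩
  · exact (spx_degree x0 _ t).trans (GG_degree_inr ρ _ hdr t
      (fun j' l' m' => (degreeOf_le_totalDegree _ _).trans (hD.2.2 j' l' m')) l)
  · have hinj : Function.Injective (algebraMap K L) := (algebraMap K L).injective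
    have h1 := spx_NV v x0 (GG ρ (UU W χ j b c ε ν) l) (D := 2 * (b * 4 ^ j))
      fun t => (GG_degree_inl ρ _ l t).trans (UU_degree W χ j b c ε ν hν t).1
    rw [GG_map (algebraMap K L) hinj] at h1
    have hdr' : ∑ t, degreeOf (Sum.inr t) (MvPolynomial.map (algebraMap K L)
        (UU W χ j b c ε ν)) ≤ (k + 2) * (2 * b) := by
      refine le_trans (Finset.sum_le_sum fun t _ => ?_) hdr
      rw [degreeOf_le_iff]
      intro m hm
      exact monomial_le_degreeOf (Sum.inr t) (support_map_subset _ _ hm)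
    have h2 := GG_NV v (ρ.map (algebraMap K L)) (MvPolynomial.map (algebraMap K L)
      (UU W χ j b c ε ν)) hdr' (one_le_RB (ρ.map (algebraMap K L)) v)
      (fun j' l' m' => M_le_RB (ρ.map (algebraMap K L)) v j' l' m') l
    have h3 := NV_UU (L := L) v W χ j b c ε ν hν
    have hR : 0 ≤ (ρ.map (algebraMap K L)).RB v := zero_le_one.trans (one_le_RB _ v)
    refine h1.trans (mul_le_mul_of_nonneg_right ?_ (C08_prod_nonneg _ _))
    exact h2.trans (mul_le_mul_of_nonneg_right h3 (pow_nonneg (mul_nonneg (cst_nonneg _ _) hR) _))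

theorem ORD_estimate {K L : Type*} [Field K] [Field L] [Algebra K L] {v : AbsoluteValue L ℝ}
    {A : Type*} [CommRing A] [Algebra L A] [Algebra K A] [IsScalarTower K L A] {μ : A → ℝ}
    (h : SN v μ) {k e : ℕ} (ρ : REP K (k + 2) e) {D : ℕ} (hD : ρ.Deg D)
    (W : Fin (k + 2) → WeierstrassCurve K) (χ : Fin (k + 2) → Bool) {j b T : ℕ} (hb : 1 ≤ b)
    (Φ : (Fin (k + 2) → ℕ) → A) (x0 : Fin (k + 2) → L) (hO : ORD ρ W χ j b T Φ x0)
    {B ω κ δ : ℝ} (hB : ∀ ν ∈ box (fun _ : Fin (k + 2) => b + 1), μ (Φ ν) ≤ B) (hω : 1 ≤ ω)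
    (hκ : 1 ≤ κ) (hδ : 0 < δ) (hδ1 : δ ≤ 1) (u : Fin (k + 2) → A) (hu : ∀ t, μ (u t) ≤ ω)
    (h0 : μ (aeval u (ρ.z 0)) ≤ κ * δ) (h1 : μ (aeval u (ρ.z 1)) ≤ κ * δ)
    (c ε : Fin (k + 2) → Bool) :
    μ (∑ ν ∈ box (fun _ : Fin (k + 2) => b + 1),
        Φ ν * UV W χ j b (fun t => algebraMap L A (x0 t)) u c ε ν) ≤
      B * (∏ t, lc (W t) v) ^ (49 * (b * 4 ^ j)) * (∏ t, max 1 (v (x0 t))) ^ (2 * (b * 4 ^ j)) *
        (cst v 2 * cst v (e + 1) * (ρ.map (algebraMap K L)).RB v * κ * ω) ^ (CE k D * b) *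
          δ ^ T := by
  classical
  have hB0 : 0 ≤ B := C08_B_nonneg h.nonneg Φ hB
  have hR1 : 1 ≤ (ρ.map (algebraMap K L)).RB v := one_le_RB _ v
  have hev : ∀ ν, UV W χ j b (fun t => algebraMap L A (x0 t)) u c ε ν =
      ∑ l, aeval u (ρ.w l) * aeval (fun t => aeval u (ρ.z t))
        (spx x0 (GG ρ (UU W χ j b c ε ν) l)) := by
    intro ν
    rw [← aeval_UU, GG_eval ρ]
    refine Finset.sum_congr rfl fun l _ => ?_
    rw [aeval_spx]
  have hsum : ∑ ν ∈ box (fun _ : Fin (k + 2) => b + 1),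
        Φ ν * UV W χ j b (fun t => algebraMap L A (x0 t)) u c ε ν =
      ∑ l, aeval u (ρ.w l) * ∑ ν ∈ box (fun _ : Fin (k + 2) => b + 1),
        Φ ν * aeval (fun t => aeval u (ρ.z t)) (spx x0 (GG ρ (UU W χ j b c ε ν) l)) := by
    have h1 : ∀ ν ∈ box (fun _ : Fin (k + 2) => b + 1),
        Φ ν * UV W χ j b (fun t => algebraMap L A (x0 t)) u c ε ν =
        ∑ l, aeval u (ρ.w l) * (Φ ν * aeval (fun t => aeval u (ρ.z t))
          (spx x0 (GG ρ (UU W χ j b c ε ν) l))) := by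
      intro ν _
      rw [hev, Finset.mul_sum]
      exact Finset.sum_congr rfl fun l _ => mul_left_comm _ _ _
    rw [Finset.sum_congr rfl h1, Finset.sum_comm]
    exact Finset.sum_congr rfl fun l _ => (Finset.mul_sum _ _ _).symm
  have hP : ∏ t, (max 1 (μ (u t))) ^ D ≤ ω ^ ((k + 2) * D) := C08_prod_le u hω hu D
  have hω0 : 0 ≤ ω ^ ((k + 2) * D) := pow_nonneg (zero_le_one.trans hω) _
  have hzb : ∀ t, μ (aeval u (ρ.z t)) ≤
      (ρ.map (algebraMap K L)).RB v * ω ^ ((k + 2) * D) := by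
    intro t
    refine (h.aeval_le' (ρ.z t) (fun _ => D)
      (fun t' => (degreeOf_le_totalDegree _ _).trans (hD.1 t)) u).trans ?_
    exact mul_le_mul (z_le_RB (ρ.map (algebraMap K L)) v t) hP
      (Finset.prod_nonneg fun t _ => pow_nonneg (zero_le_one.trans (le_max_left _ _)) _)
      (zero_le_one.trans hR1)
  have hwb : ∀ l, μ (aeval u (ρ.w l)) ≤
      (ρ.map (algebraMap K L)).RB v * ω ^ ((k + 2) * D) := by
    intro l
    refine (h.aeval_le' (ρ.w l) (fun _ => D)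
      (fun t' => (degreeOf_le_totalDegree _ _).trans (hD.2.1 l)) u).trans ?_
    exact mul_le_mul (w_le_RB (ρ.map (algebraMap K L)) v l) hP
      (Finset.prod_nonneg fun t _ => pow_nonneg (zero_le_one.trans (le_max_left _ _)) _)
      (zero_le_one.trans hR1)
  have hΩ1 : 1 ≤ (ρ.map (algebraMap K L)).RB v * ω ^ ((k + 2) * D) :=
    one_le_mul_of_one_le_of_one_le hR1 (one_le_pow₀ hω)
  have hMl : 0 ≤ (∏ t, lc (W t) v) ^ (49 * (b * 4 ^ j)) := C08_lc_nonneg v W _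
  have hMx : 0 ≤ (∏ t, max 1 (v (x0 t))) ^ (2 * (b * 4 ^ j)) := C08_prod_nonneg _ _
  have hG0 : 0 ≤ (∏ t, lc (W t) v) ^ (49 * (b * 4 ^ j)) *
      (cst v (e + 1) * (ρ.map (algebraMap K L)).RB v) ^ ((k + 2) * (2 * b)) *
      (∏ t, max 1 (v (x0 t))) ^ (2 * (b * 4 ^ j)) :=
    mul_nonneg (mul_nonneg hMl (pow_nonneg (mul_nonneg (cst_nonneg _ _)
      (zero_le_one.trans hR1)) _)) hMx
  have hbox : ∀ ν ∈ box (fun _ : Fin (k + 2) => b + 1), ∀ t, ν t ≤ b := by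
    intro ν hν t
    rw [mem_box] at hν
    exact Nat.lt_succ_iff.1 (hν t)
  have hcore : ∀ l, μ (∑ ν ∈ box (fun _ : Fin (k + 2) => b + 1),
        Φ ν * aeval (fun t => aeval u (ρ.z t)) (spx x0 (GG ρ (UU W χ j b c ε ν) l))) ≤
      cst v ((b + 1) ^ (k + 2)) * (B * ((∏ t, lc (W t) v) ^ (49 * (b * 4 ^ j)) *
        (cst v (e + 1) * (ρ.map (algebraMap K L)).RB v) ^ ((k + 2) * (2 * b)) *
        (∏ t, max 1 (v (x0 t))) ^ (2 * (b * 4 ^ j)))) * κ ^ (2 * ((k + 2) * (2 * b) * D)) *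
        ((ρ.map (algebraMap K L)).RB v * ω ^ ((k + 2) * D)) ^ (k * ((k + 2) * (2 * b) * D)) *
        δ ^ T := by
    intro l
    have h1 := core_estimate h (fun t => aeval u (ρ.z t)) (box (fun _ : Fin (k + 2) => b + 1)) Φ
      (fun ν => spx x0 (GG ρ (UU W χ j b c ε ν) l)) (T := T) (E := (k + 2) * (2 * b) * D)
      (fun β hβ => hO c ε l β hβ)
      (fun ν hν t => (H_bound v ρ hD W χ j b x0 c ε ν (hbox ν hν) l).1 t)
      hB0 hG0 hΩ1 hκ hδ hδ1 hzb h0 h1 hB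
      (fun ν hν => (H_bound v ρ hD W χ j b x0 c ε ν (hbox ν hν) l).2)
    rw [C08_card] at h1
    exact h1
  rw [hsum]
  have hκ0 : 0 ≤ κ := zero_le_one.trans hκ
  have hR0 : 0 ≤ (ρ.map (algebraMap K L)).RB v := zero_le_one.trans hR1
  have hcard0 : 0 ≤ cst v ((b + 1) ^ (k + 2)) := cst_nonneg _ _
  have hce0 : 0 ≤ cst v (e + 1) := cst_nonneg _ _
  have hce1 : 1 ≤ cst v (e + 1) := one_le_cst v (Nat.succ_pos e)
  have hc21 : 1 ≤ cst v 2 := one_le_cst v (by norm_num)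
  have hω00 : 0 ≤ ω := zero_le_one.trans hω
  set R := (ρ.map (algebraMap K L)).RB v with hRdef
  set Ml := (∏ t, lc (W t) v) ^ (49 * (b * 4 ^ j)) with hMldef
  set Mx := (∏ t, max 1 (v (x0 t))) ^ (2 * (b * 4 ^ j)) with hMxdef
  have hcore0 : 0 ≤ cst v ((b + 1) ^ (k + 2)) * (B * (Ml *
        (cst v (e + 1) * R) ^ ((k + 2) * (2 * b)) * Mx)) * κ ^ (2 * ((k + 2) * (2 * b) * D)) *
        (R * ω ^ ((k + 2) * D)) ^ (k * ((k + 2) * (2 * b) * D)) * δ ^ T := by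
    positivity
  have hfin := h.sum_le Finset.univ (fun l => aeval u (ρ.w l) *
      ∑ ν ∈ box (fun _ : Fin (k + 2) => b + 1),
        Φ ν * aeval (fun t => aeval u (ρ.z t)) (spx x0 (GG ρ (UU W χ j b c ε ν) l)))
    (B := (R * ω ^ ((k + 2) * D)) * (cst v ((b + 1) ^ (k + 2)) * (B * (Ml *
        (cst v (e + 1) * R) ^ ((k + 2) * (2 * b)) * Mx)) * κ ^ (2 * ((k + 2) * (2 * b) * D)) *
        (R * ω ^ ((k + 2) * D)) ^ (k * ((k + 2) * (2 * b) * D)) * δ ^ T))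
    (mul_nonneg (zero_le_one.trans hΩ1) hcore0)
    (fun l _ => (h.mul _ _).trans (mul_le_mul (hwb l) (hcore l) (h.nonneg _)
      (zero_le_one.trans hΩ1)))
  rw [Finset.card_univ, Fintype.card_fin] at hfin
  refine hfin.trans ?_
  have hmain := C08_bases hc21 hce1 hR1 hκ hω hcard0 (n := k + 2) (b := b) (k := k) (D := D)
    (E := (k + 2) * (2 * b) * D) rfl hb (C08_cst_card v (k + 2) b) rfl
  calc cst v (e + 1) * ((R * ω ^ ((k + 2) * D)) * (cst v ((b + 1) ^ (k + 2)) * (B * (Ml *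
        (cst v (e + 1) * R) ^ ((k + 2) * (2 * b)) * Mx)) * κ ^ (2 * ((k + 2) * (2 * b) * D)) *
        (R * ω ^ ((k + 2) * D)) ^ (k * ((k + 2) * (2 * b) * D)) * δ ^ T)) =
      B * Ml * Mx * (cst v (e + 1) ^ (1 + (k + 2) * (2 * b)) * cst v ((b + 1) ^ (k + 2)) *
        R ^ (1 + (k + 2) * (2 * b) + k * ((k + 2) * (2 * b) * D)) *
        κ ^ (2 * ((k + 2) * (2 * b) * D)) *
        ω ^ ((k + 2) * D + (k + 2) * D * (k * ((k + 2) * (2 * b) * D)))) * δ ^ T := by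
        generalize hEE : k * ((k + 2) * (2 * b) * D) = EE
        generalize hFF : 2 * ((k + 2) * (2 * b) * D) = FF
        generalize hnb : (k + 2) * (2 * b) = nb
        generalize hnD : (k + 2) * D = nD
        rw [mul_pow, mul_pow, ← pow_mul, pow_add, pow_add, pow_add, pow_add, pow_one, pow_one]
        ring
    _ ≤ B * Ml * Mx * (cst v 2 * cst v (e + 1) * R * κ * ω) ^ (CE k D * b) * δ ^ T := by
        refine mul_le_mul_of_nonneg_right (mul_le_mul_of_nonneg_left hmain ?_)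
          (pow_nonneg hδ.le _)
        exact mul_nonneg (mul_nonneg hB0 hMl) hMx

theorem UV_estimate {K L : Type*} [Field K] [Field L] [Algebra K L] {v : AbsoluteValue L ℝ}
    {A : Type*} [CommRing A] [Algebra L A] [Algebra K A] [IsScalarTower K L A] {μ : A → ℝ}
    (h : SN v μ) {n : ℕ} (W : Fin n → WeierstrassCurve K) (χ : Fin n → Bool) (j b : ℕ)
    (Φ : (Fin n → ℕ) → A) (x u : Fin n → A) {B ω : ℝ}
    (hB : ∀ ν ∈ box (fun _ : Fin n => b + 1), μ (Φ ν) ≤ B) (hω : 1 ≤ ω) (hu : ∀ t, μ (u t) ≤ ω)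
    (c ε : Fin n → Bool) :
    μ (∑ ν ∈ box (fun _ : Fin n => b + 1), Φ ν * UV W χ j b x u c ε ν) ≤
      B * (∏ t, lc (W t) v) ^ (49 * (b * 4 ^ j)) * (∏ t, max 1 (μ (x t))) ^ (2 * (b * 4 ^ j)) *
        (cst v 2 * ω) ^ (2 * n * b) := by
  have hB0 : 0 ≤ B := C08_B_nonneg h.nonneg Φ hB
  have hMl : 0 ≤ (∏ t, lc (W t) v) ^ (49 * (b * 4 ^ j)) := C08_lc_nonneg v W _
  have hMx : 0 ≤ (∏ t, max 1 (μ (x t))) ^ (2 * (b * 4 ^ j)) := C08_prod_nonneg _ _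
  have hω0 : 0 ≤ ω := zero_le_one.trans hω
  have hterm : ∀ ν ∈ box (fun _ : Fin n => b + 1), μ (Φ ν * UV W χ j b x u c ε ν) ≤
      B * ((∏ t, lc (W t) v) ^ (49 * (b * 4 ^ j)) *
        (∏ t, max 1 (μ (x t))) ^ (2 * (b * 4 ^ j)) * ω ^ (n * (2 * b))) := by
    intro ν hν
    have hν' : ∀ t, ν t ≤ b := by
      intro t
      rw [mem_box] at hν
      exact Nat.lt_succ_iff.1 (hν t)
    have h1 := UV_size h W χ j b x u c ε ν hν'
    rw [Finset.prod_pow] at h1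
    have h2 := C08_prod_le u hω hu (2 * b)
    refine (h.mul _ _).trans (mul_le_mul (hB ν hν) (h1.trans ?_) (h.nonneg _) hB0)
    exact mul_le_mul_of_nonneg_left h2 (mul_nonneg hMl hMx)
  have h3 := h.sum_le (box (fun _ : Fin n => b + 1)) (fun ν => Φ ν * UV W χ j b x u c ε ν)
    (mul_nonneg hB0 (mul_nonneg (mul_nonneg hMl hMx) (pow_nonneg hω0 _))) hterm
  rw [C08_card] at h3
  refine h3.trans ?_
  have h4 : cst v ((b + 1) ^ n) ≤ cst v 2 ^ (2 * n * b) := by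
    refine (C08_cst_card v n b).trans (pow_le_pow_right₀ (one_le_cst v (by norm_num)) ?_)
    have h5 : 2 * n * b = n * b + n * b := by ring
    omega
  have h6 : n * (2 * b) = 2 * n * b := by ring
  rw [h6]
  calc cst v ((b + 1) ^ n) * (B * ((∏ t, lc (W t) v) ^ (49 * (b * 4 ^ j)) *
        (∏ t, max 1 (μ (x t))) ^ (2 * (b * 4 ^ j)) * ω ^ (2 * n * b))) ≤
      cst v 2 ^ (2 * n * b) * (B * ((∏ t, lc (W t) v) ^ (49 * (b * 4 ^ j)) *
        (∏ t, max 1 (μ (x t))) ^ (2 * (b * 4 ^ j)) * ω ^ (2 * n * b))) :=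
        mul_le_mul_of_nonneg_right h4
          (mul_nonneg hB0 (mul_nonneg (mul_nonneg hMl hMx) (pow_nonneg hω0 _)))
    _ = B * (∏ t, lc (W t) v) ^ (49 * (b * 4 ^ j)) *
        (∏ t, max 1 (μ (x t))) ^ (2 * (b * 4 ^ j)) * (cst v 2 * ω) ^ (2 * n * b) := by
        rw [mul_pow]
        ring

end Pool.Agent.Lib.MP_17a322_nt.VN
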