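import Pool.Agent.Lib.MP_17a322_nt.VN.DefsC
import Pool.Agent.Lib.MP_17a322_nt.VJ.G3a

/-!
# JOB C10: counting

PROOFS.
`mem_BB`, `card_BB`: `Fintype.mem_piFinset`, `Fintype.card_piFinset`, `mem_box`, `card_box`, `Finset.prod_const`.
`card_bt`: `card_box`, `Fin.prod_univ_succ` twice: the values are `T, T, E, ..., E`.
`count_rows`: put `Cst = 12 ^ (k + 2) * (e + 1) * (2 * (k + 2) * D + 1) ^ k`, `U` = right side, `row i` = the summand. For every `i`: `N ^ 2 * row i ≤ Cst * U`: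
with `B = N * 4 ^ J`, `T = 4 ^ (J - j i) ≥ 1`, `b = N * T ≥ 1`: `3 B + 1 ≤ 3 (B + 1)`; `2 * (k + 2) * b * D + 1 ≤ (2 * (k + 2) * D + 1) * b`;
`N ^ 2 * (T * T) * b ^ k = b ^ (k + 2) ≤ (b + 1) ^ (k + 2)`; `2 ^ (k+2) * 2 ^ (k+2) * 3 ^ (k+2) = 12 ^ (k + 2)`; the product over `i'` of the `ite`s times `(b + 1) ^ (k + 2)` is
`∏ i', (N * 4 ^ (J - j i') + 1) ^ (k + 2)` (`Finset.mul_prod_erase`, as in `card_DQ_le` of `VJ/G3a.lean`). Sum over `i : Fin m`: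
`N ^ 2 * ∑ row ≤ m * Cst * U`, so `N ^ 2 * (2 * ∑ row) ≤ 2 * m * Cst * U ≤ N ^ 2 * U`; cancel `N ^ 2 > 0` (`Nat.le_of_mul_le_mul_left`).
`log_unknowns`: `Real.log_mul`, `Real.log_prod`, `Real.log_pow`, `Real.log (x + 1) ≤ x` (`Real.log_le_sub_one_of_pos`), `4 ^ (J - j i) ≤ 4 ^ J`.
-/

namespace Pool.Agent.Lib.MP_17a322_nt.VN

open Pool.Agent.Lib.MP_17a322_nt.VJ

theorem mem_BB {m n : ℕ} (N : Fin m → ℕ) (ν : Fin m → Fin n → ℕ) :
    ν ∈ BB N ↔ ∀ i t, ν i t < N i := by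
  unfold BB
  rw [Fintype.mem_piFinset]
  refine forall_congr' fun i => ?_
  rw [mem_box]

theorem card_BB {m n : ℕ} (N : Fin m → ℕ) :
    (BB N : Finset (Fin m → Fin n → ℕ)).card = ∏ i, N i ^ n := by
  unfold BB
  rw [Fintype.card_piFinset]
  refine Finset.prod_congr rfl fun i _ => ?_
  rw [card_box, Finset.prod_const, Finset.card_univ, Fintype.card_fin]

theorem card_bt (k T E : ℕ) : (box (bt k T E)).card = T * T * E ^ k := by
  rw [card_box, Fin.prod_univ_succ, Fin.prod_univ_succ]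
  have h0 : bt k T E 0 = T := by
    unfold bt
    rw [if_pos]
    simp
  have h1 : bt k T E (Fin.succ 0) = T := by
    unfold bt
    rw [if_pos]
    simp
  have h2 : ∀ i : Fin k, bt k T E (Fin.succ (Fin.succ i)) = E := by
    intro i
    unfold bt
    rw [if_neg]
    simp only [Fin.val_succ, not_lt]
    omega
  rw [h0, h1, Finset.prod_congr rfl (fun i _ => h2 i), Finset.prod_const, Finset.card_univ,
    Fintype.card_fin]
  ring

/-- one block of equations -/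
theorem C10_row (k e D m N J : ℕ) (j : Fin m → ℕ) (hN : 1 ≤ N) (i : Fin m) :
    N ^ 2 * (2 ^ (k + 2) * (2 ^ (k + 2) * ((e + 1) * ((3 * (N * 4 ^ J) + 1) ^ (k + 2) *
      ((4 ^ (J - j i) * 4 ^ (J - j i) * (2 * (k + 2) * (N * 4 ^ (J - j i)) * D + 1) ^ k) *
        ∏ i', (if i' = i then 1 else N * 4 ^ (J - j i') + 1) ^ (k + 2)))))) ≤
      (12 ^ (k + 2) * (e + 1) * (2 * (k + 2) * D + 1) ^ k) *
        ((N * 4 ^ J + 1) ^ (k + 2) * ∏ i, (N * 4 ^ (J - j i) + 1) ^ (k + 2)) := by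
  have hT : 1 ≤ 4 ^ (J - j i) := Nat.one_le_pow _ _ (by norm_num)
  have hprod : (∏ i', (N * 4 ^ (J - j i') + 1) ^ (k + 2)) =
      (N * 4 ^ (J - j i) + 1) ^ (k + 2) *
        ∏ i', (if i' = i then 1 else N * 4 ^ (J - j i') + 1) ^ (k + 2) := by
    rw [← Finset.mul_prod_erase Finset.univ (fun i' => (N * 4 ^ (J - j i') + 1) ^ (k + 2))
      (Finset.mem_univ i), ← Finset.mul_prod_erase Finset.univ
      (fun i' => (if i' = i then 1 else N * 4 ^ (J - j i') + 1) ^ (k + 2)) (Finset.mem_univ i)]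
    rw [if_pos rfl, one_pow, one_mul]
    refine congrArg _ (Finset.prod_congr rfl fun i' hi' => ?_)
    rw [if_neg (Finset.ne_of_mem_erase hi')]
  rw [hprod]
  generalize (∏ i', (if i' = i then 1 else N * 4 ^ (J - j i') + 1) ^ (k + 2)) = Q
  generalize 4 ^ (J - j i) = T at hT
  generalize N * 4 ^ J = B
  have hb : 1 ≤ N * T := Nat.one_le_iff_ne_zero.2 (Nat.mul_ne_zero (by omega) (by omega))
  have h1 : (3 * B + 1) ^ (k + 2) ≤ 3 ^ (k + 2) * (B + 1) ^ (k + 2) := by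
    rw [← mul_pow]
    exact Nat.pow_le_pow_left (by omega) _
  have h2 : (2 * (k + 2) * (N * T) * D + 1) ^ k ≤ (2 * (k + 2) * D + 1) ^ k * (N * T) ^ k := by
    rw [← mul_pow]
    refine Nat.pow_le_pow_left ?_ _
    calc 2 * (k + 2) * (N * T) * D + 1 ≤ 2 * (k + 2) * (N * T) * D + N * T := by omega
      _ = (2 * (k + 2) * D + 1) * (N * T) := by ring
  have h3 : N ^ 2 * (T * T) * (N * T) ^ k ≤ (N * T + 1) ^ (k + 2) := by
    calc N ^ 2 * (T * T) * (N * T) ^ k = (N * T) ^ (k + 2) := by rw [pow_add]; ring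
      _ ≤ (N * T + 1) ^ (k + 2) := Nat.pow_le_pow_left (by omega) _
  have h12 : (12 : ℕ) ^ (k + 2) = 2 ^ (k + 2) * 2 ^ (k + 2) * 3 ^ (k + 2) := by
    rw [← mul_pow, ← mul_pow, show 2 * 2 * 3 = 12 from rfl]
  have h4 : N ^ 2 * (T * T) * (2 * (k + 2) * (N * T) * D + 1) ^ k ≤
      (2 * (k + 2) * D + 1) ^ k * (N * T + 1) ^ (k + 2) := by
    calc N ^ 2 * (T * T) * (2 * (k + 2) * (N * T) * D + 1) ^ k
        ≤ N ^ 2 * (T * T) * ((2 * (k + 2) * D + 1) ^ k * (N * T) ^ k) :=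
          Nat.mul_le_mul_left _ h2
      _ = (2 * (k + 2) * D + 1) ^ k * (N ^ 2 * (T * T) * (N * T) ^ k) := by ring
      _ ≤ _ := Nat.mul_le_mul_left _ h3
  calc N ^ 2 * (2 ^ (k + 2) * (2 ^ (k + 2) * ((e + 1) * ((3 * B + 1) ^ (k + 2) *
      ((T * T * (2 * (k + 2) * (N * T) * D + 1) ^ k) * Q)))))
      = (2 ^ (k + 2) * 2 ^ (k + 2) * (e + 1) * Q) * ((3 * B + 1) ^ (k + 2) *
        (N ^ 2 * (T * T) * (2 * (k + 2) * (N * T) * D + 1) ^ k)) := by ring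
    _ ≤ (2 ^ (k + 2) * 2 ^ (k + 2) * (e + 1) * Q) * ((3 ^ (k + 2) * (B + 1) ^ (k + 2)) *
        ((2 * (k + 2) * D + 1) ^ k * (N * T + 1) ^ (k + 2))) :=
        Nat.mul_le_mul_left _ (Nat.mul_le_mul h1 h4)
    _ = (2 ^ (k + 2) * 2 ^ (k + 2) * 3 ^ (k + 2) * (e + 1) * (2 * (k + 2) * D + 1) ^ k) *
        ((B + 1) ^ (k + 2) * ((N * T + 1) ^ (k + 2) * Q)) := by ring
    _ = _ := by rw [h12]

theorem count_rows (k e D m N J : ℕ) (j : Fin m → ℕ) (hN : 1 ≤ N)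
    (h : 2 * m * (12 ^ (k + 2) * (e + 1) * (2 * (k + 2) * D + 1) ^ k) ≤ N ^ 2) :
    2 * ∑ i, (2 ^ (k + 2) * (2 ^ (k + 2) * ((e + 1) * ((3 * (N * 4 ^ J) + 1) ^ (k + 2) *
      ((4 ^ (J - j i) * 4 ^ (J - j i) * (2 * (k + 2) * (N * 4 ^ (J - j i)) * D + 1) ^ k) *
        ∏ i', (if i' = i then 1 else N * 4 ^ (J - j i') + 1) ^ (k + 2)))))) ≤
      (N * 4 ^ J + 1) ^ (k + 2) * ∏ i, (N * 4 ^ (J - j i) + 1) ^ (k + 2) := by
  have h1 := Finset.sum_le_sum fun (i : Fin m) (_ : i ∈ Finset.univ) =>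
    C10_row k e D m N J j hN i
  rw [← Finset.mul_sum, Finset.sum_const, Finset.card_univ, Fintype.card_fin, smul_eq_mul] at h1
  have hN2 : 0 < N ^ 2 := by positivity
  refine Nat.le_of_mul_le_mul_left ?_ hN2
  generalize (∑ i, (2 ^ (k + 2) * (2 ^ (k + 2) * ((e + 1) * ((3 * (N * 4 ^ J) + 1) ^ (k + 2) *
      ((4 ^ (J - j i) * 4 ^ (J - j i) * (2 * (k + 2) * (N * 4 ^ (J - j i)) * D + 1) ^ k) *
        ∏ i', (if i' = i then 1 else N * 4 ^ (J - j i') + 1) ^ (k + 2))))))) = S at h1 ⊢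
  generalize (N * 4 ^ J + 1) ^ (k + 2) * ∏ i, (N * 4 ^ (J - j i) + 1) ^ (k + 2) = U at h1 ⊢
  calc N ^ 2 * (2 * S) = 2 * (N ^ 2 * S) := by ring
    _ ≤ 2 * (m * ((12 ^ (k + 2) * (e + 1) * (2 * (k + 2) * D + 1) ^ k) * U)) :=
        Nat.mul_le_mul_left _ h1
    _ = (2 * m * (12 ^ (k + 2) * (e + 1) * (2 * (k + 2) * D + 1) ^ k)) * U := by ring
    _ ≤ N ^ 2 * U := Nat.mul_le_mul_right _ h

theorem log_unknowns (k m N J : ℕ) (j : Fin m → ℕ) :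
    Real.log (((N * 4 ^ J + 1) ^ (k + 2) * ∏ i, (N * 4 ^ (J - j i) + 1) ^ (k + 2) : ℕ) : ℝ) ≤
      (k + 2) * (m + 1) * (N * 4 ^ J) := by
  push_cast
  have hB : (0 : ℝ) ≤ (N : ℝ) * 4 ^ J := by positivity
  have hlog : ∀ x : ℝ, 0 ≤ x → Real.log (x + 1) ≤ x := by
    intro x hx
    have := Real.log_le_sub_one_of_pos (show 0 < x + 1 by linarith)
    linarith
  rw [Real.log_mul (by positivity) (Finset.prod_ne_zero_iff.2 fun i _ => by positivity),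
    Real.log_prod (fun i _ => by positivity), Real.log_pow]
  have h1 : ∀ i ∈ (Finset.univ : Finset (Fin m)),
      Real.log (((N : ℝ) * 4 ^ (J - j i) + 1) ^ (k + 2)) ≤ (k + 2) * ((N : ℝ) * 4 ^ J) := by
    intro i _
    rw [Real.log_pow]
    push_cast
    refine mul_le_mul_of_nonneg_left ?_ (by positivity)
    refine (hlog _ (by positivity)).trans ?_
    refine mul_le_mul_of_nonneg_left ?_ (by positivity)
    exact pow_le_pow_right₀ (by norm_num) (Nat.sub_le _ _)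
  have h2 := Finset.sum_le_sum h1
  rw [Finset.sum_const, Finset.card_univ, Fintype.card_fin, nsmul_eq_mul] at h2
  have h3 : (((k + 2 : ℕ) : ℝ)) * Real.log ((N : ℝ) * 4 ^ J + 1) ≤ (k + 2) * ((N : ℝ) * 4 ^ J) := by
    push_cast
    exact mul_le_mul_of_nonneg_left (hlog _ hB) (by positivity)
  calc _ ≤ (k + 2) * ((N : ℝ) * 4 ^ J) + m * ((k + 2) * ((N : ℝ) * 4 ^ J)) := add_le_add h3 h2
    _ = _ := by ring

end Pool.Agent.Lib.MP_17a322_nt.VN
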