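import Pool.Agent.Lib.MP_17a322_nt.VN.F2
import Pool.Agent.Lib.MP_17a322_nt.VJ.A5

/-!
VN, part F: heights of lifts of polynomials over `k0` and transfer of centre data.
-/

universe u

namespace Pool.Agent.Lib.MP_17a322_nt.VN

open MvPolynomial Height Filter
open Pool.Agent.Lib.MP_17a322_nt.RO
open Pool.Agent.Lib.MP_17a322_nt.VJ

section

variable {L : Type*} [Field L] [AdmissibleAbsValues L] {σ : Type*}

/-- The affine height of a polynomial. -/
noncomputable def nh1 (F : MvPolynomial σ L) : ℝ :=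
  gs fun v => Real.log (max 1 (NV v F))

theorem FS_nh1 (F : MvPolynomial σ L) :
    FS fun v : AbsoluteValue L ℝ => Real.log (max 1 (NV v F)) := by
  rcases eq_or_ne F 0 with rfl | hF
  · have h1 : ∀ v : AbsoluteValue L ℝ, Real.log (max 1 (NV v (0 : MvPolynomial σ L))) = 0 := by
      intro v
      rw [(SN_NV v).zero, max_eq_left zero_le_one, Real.log_one]
    simp [FS, h1]
  · refine (FS_log_NV hF).subset fun v hv => ?_
    intro h1
    have h2 : NV v.val F = 1 := Real.eq_one_of_pos_of_log_eq_zero (NV_pos v.val hF) h1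
    exact hv (by simp only [h2, max_self, Real.log_one])

theorem nh_le_nh1 (F : MvPolynomial σ L) : nh F ≤ nh1 F := by
  rcases eq_or_ne F 0 with rfl | hF
  · have h1 : nh (0 : MvPolynomial σ L) = nh1 (0 : MvPolynomial σ L) := by
      unfold nh nh1
      congr 1
      funext v
      rw [(SN_NV v).zero, max_eq_left zero_le_one, Real.log_one, Real.log_zero]
    exact h1.le
  · refine gs_le (FS_log_NV hF) (FS_nh1 F) fun v _ => ?_
    exact Real.log_le_log (NV_pos v hF) (le_max_right _ _)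

theorem nh1_nonneg (F : MvPolynomial σ L) : 0 ≤ nh1 F :=
  gs_nonneg fun _ _ => Real.log_nonneg (le_max_left _ _)

theorem nh1_le (F : MvPolynomial σ L) (S : Finset (σ →₀ ℕ)) (hS : F.support ⊆ S) :
    nh1 F ≤ ∑ m ∈ S, logHeight₁ (coeff m F) +
      totalWeight L * Real.log ((S.card + 1 : ℕ) : ℝ) := by
  classical
  have f1 : FS fun v : AbsoluteValue L ℝ => Real.log (cst v (S.card + 1)) := FS_log_cst _
  have f2 : FS fun v : AbsoluteValue L ℝ => ∑ m ∈ S, Real.log (max 1 (v (coeff m F))) :=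
    FS_sum S fun m _ => FS_log_max _
  have h1 : nh1 F ≤ gs fun v : AbsoluteValue L ℝ =>
      (∑ m ∈ S, Real.log (max 1 (v (coeff m F)))) + Real.log (cst v (S.card + 1)) := by
    refine gs_le (FS_nh1 F) (FS_add f2 f1) fun v _ => ?_
    have g1 : ∀ m, (1 : ℝ) ≤ max 1 (v (coeff m F)) := fun m => le_max_left _ _
    have g2 : (1 : ℝ) ≤ ∏ m ∈ S, max 1 (v (coeff m F)) := by
      refine le_of_eq_of_le (Finset.prod_const_one (s := S)).symm ?_
      exact Finset.prod_le_prod (fun _ _ => zero_le_one) fun m _ => g1 m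
    have g3 : ∀ m, v (coeff m F) ≤ ∏ m ∈ S, max 1 (v (coeff m F)) := by
      intro m
      by_cases hm : m ∈ S
      · rw [← Finset.mul_prod_erase S _ hm]
        have g4 : (1 : ℝ) ≤ ∏ m ∈ S.erase m, max 1 (v (coeff m F)) := by
          refine le_of_eq_of_le (Finset.prod_const_one (s := S.erase m)).symm ?_
          exact Finset.prod_le_prod (fun _ _ => zero_le_one) fun m _ => g1 m
        calc v (coeff m F) ≤ max 1 (v (coeff m F)) := le_max_right _ _
          _ = max 1 (v (coeff m F)) * 1 := (mul_one _).symm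
          _ ≤ _ := mul_le_mul_of_nonneg_left g4 (zero_le_one.trans (g1 m))
      · rw [notMem_support_iff.mp fun h => hm (hS h), map_zero]
        exact zero_le_one.trans g2
    have g5 := NV_le_of_coeff v F (zero_le_one.trans g2) g3
    have g6 : (1 : ℝ) ≤ cst v (S.card + 1) := one_le_cst v (Nat.le_add_left _ _)
    have g7 : cst v F.support.card ≤ cst v (S.card + 1) :=
      cst_mono v ((Finset.card_le_card hS).trans (Nat.le_succ _))
    rw [add_comm, ← Real.log_prod fun m _ => (one_pos.trans_le (g1 m)).ne',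
      ← Real.log_mul (one_pos.trans_le g6).ne' (one_pos.trans_le g2).ne']
    refine Real.log_le_log (lt_max_of_lt_left one_pos) (max_le ?_ ?_)
    · exact one_le_mul_of_one_le_of_one_le g6 g2
    · exact g5.trans (mul_le_mul_of_nonneg_right g7 (zero_le_one.trans g2))
  rw [gs_add f2 f1, gs_sum _ fun m _ => FS_log_max _] at h1
  simp only [gs_log_max] at h1
  have h2 := gs_log_cst (L := L) (n := S.card + 1) (Nat.le_add_left _ _)
  linarith

theorem REP.ht_eq {n e : ℕ} (ρ : REP L n e) :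
    ρ.ht = (∑ j, nh1 (ρ.z j)) + (∑ l, nh1 (ρ.w l)) + ∑ j, ∑ l, ∑ m, nh1 (ρ.M j l m) := by
  have g1 : ∀ F : MvPolynomial (Fin n) L, ∀ v : AbsoluteValue L ℝ, max 1 (NV v F) ≠ 0 :=
    fun F v => (one_pos.trans_le (le_max_left _ _)).ne'
  have h1 : ρ.ht = gs fun v => (∑ j, Real.log (max 1 (NV v (ρ.z j)))) +
      (∑ l, Real.log (max 1 (NV v (ρ.w l)))) +
      ∑ j, ∑ l, ∑ m, Real.log (max 1 (NV v (ρ.M j l m))) := by
    unfold REP.ht REP.RB
    congr 1
    funext v
    have p1 : (∏ j, max 1 (NV v (ρ.z j))) ≠ 0 := Finset.prod_ne_zero_iff.mpr fun j _ => g1 _ v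
    have p2 : (∏ l, max 1 (NV v (ρ.w l))) ≠ 0 := Finset.prod_ne_zero_iff.mpr fun j _ => g1 _ v
    have p5 : ∀ j l, (∏ m, max 1 (NV v (ρ.M j l m))) ≠ 0 :=
      fun j l => Finset.prod_ne_zero_iff.mpr fun m _ => g1 _ v
    have p4 : ∀ j, (∏ l, ∏ m, max 1 (NV v (ρ.M j l m))) ≠ 0 :=
      fun j => Finset.prod_ne_zero_iff.mpr fun l _ => p5 j l
    have p3 : (∏ j, ∏ l, ∏ m, max 1 (NV v (ρ.M j l m))) ≠ 0 :=
      Finset.prod_ne_zero_iff.mpr fun j _ => p4 j
    rw [Real.log_mul (mul_ne_zero p1 p2) p3, Real.log_mul p1 p2, Real.log_prod fun j _ => g1 _ v,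
      Real.log_prod fun j _ => g1 _ v, Real.log_prod fun j _ => p4 j]
    congr 1
    refine Finset.sum_congr rfl fun j _ => ?_
    rw [Real.log_prod fun l _ => p5 j l]
    refine Finset.sum_congr rfl fun l _ => ?_
    rw [Real.log_prod fun m _ => g1 _ v]
  have f1 : FS fun v : AbsoluteValue L ℝ => ∑ j, Real.log (max 1 (NV v (ρ.z j))) :=
    FS_sum _ fun j _ => FS_nh1 _
  have f2 : FS fun v : AbsoluteValue L ℝ => ∑ l, Real.log (max 1 (NV v (ρ.w l))) :=
    FS_sum _ fun j _ => FS_nh1 _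
  have f5 : ∀ j l, FS fun v : AbsoluteValue L ℝ => ∑ m, Real.log (max 1 (NV v (ρ.M j l m))) :=
    fun j l => FS_sum _ fun m _ => FS_nh1 _
  have f4 : ∀ j, FS fun v : AbsoluteValue L ℝ =>
      ∑ l, ∑ m, Real.log (max 1 (NV v (ρ.M j l m))) :=
    fun j => FS_sum _ fun l _ => f5 j l
  have f3 : FS fun v : AbsoluteValue L ℝ =>
      ∑ j, ∑ l, ∑ m, Real.log (max 1 (NV v (ρ.M j l m))) :=
    FS_sum _ fun j _ => f4 j
  rw [h1, gs_add (FS_add f1 f2) f3, gs_add f1 f2, gs_sum _ fun j _ => FS_nh1 _,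
    gs_sum _ fun j _ => FS_nh1 _, gs_sum _ fun j _ => f4 j]
  congr 1
  refine Finset.sum_congr rfl fun j _ => ?_
  rw [gs_sum _ fun l _ => f5 j l]
  refine Finset.sum_congr rfl fun l _ => ?_
  rw [gs_sum _ fun m _ => FS_nh1 _]
  rfl

end

section

variable {K : Type u} [Field K] [NumberField K] {H : ℕ → ℝ}
  {hH : Tendsto H (hyperfilter ℕ : Filter ℕ) atTop} {σ : Type*}

/-- The `i`-th member of a lift of a polynomial over `k0`. -/
noncomputable def pr (p : MvPolynomial σ (k0 K H hH)) (i : ℕ) : MvPolynomial σ K :=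
  ev i (lf (map (algebraMap (k0 K H hH) (GK K)) p))

theorem map_gR_lf (p : MvPolynomial σ (k0 K H hH)) :
    map (gR K) (lf (map (algebraMap (k0 K H hH) (GK K)) p)) =
      map (algebraMap (k0 K H hH) (GK K)) p := map_lf _

theorem support_pr (p : MvPolynomial σ (k0 K H hH)) (i : ℕ) : (pr p i).support ⊆ p.support :=
  (support_ev_lf _ i).trans (support_map_subset _ _)

theorem degreeOf_pr (p : MvPolynomial σ (k0 K H hH)) (i : ℕ) (t : σ) :
    (pr p i).degreeOf t ≤ p.degreeOf t := by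
  classical
  rw [degreeOf_eq_sup, degreeOf_eq_sup]
  exact Finset.sup_mono (support_pr p i)

theorem totalDegree_pr (p : MvPolynomial σ (k0 K H hH)) (i : ℕ) :
    (pr p i).totalDegree ≤ p.totalDegree :=
  Finset.sup_mono (support_pr p i)

theorem oH_nh1_pr (p : MvPolynomial σ (k0 K H hH)) : oH H fun i => nh1 (pr p i) := by
  classical
  have h1 : oH H fun i => ∑ m ∈ p.support, logHeight₁ (coeff m (pr p i)) := by
    refine oH.sum hH _ _ fun m _ => ?_
    rw [← mem_k0 (hH := hH)]
    have h2 : gm (fun i => coeff m (pr p i)) = algebraMap (k0 K H hH) (GK K) (coeff m p) := by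
      have h3 : (fun i => coeff m (pr p i)) =
          rp (coeff m (map (algebraMap (k0 K H hH) (GK K)) p)) := by
        funext i
        unfold pr
        rw [coeff_ev, coeff_lf]
      rw [h3, gm_rp, coeff_map]
    rw [h2]
    exact (coeff m p).2
  have h2 := h1.add (oH_const hH (totalWeight K * Real.log ((p.support.card + 1 : ℕ) : ℝ)))
  exact h2.mono (Eventually.of_forall fun i => nh1_le _ _ (support_pr p i))

theorem gm_eval_pr (p : MvPolynomial σ (k0 K H hH)) (s : ℕ → σ → K) :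
    gm (fun i => eval (s i) (pr p i)) = aeval (fun t => gm fun i => s i t) p := by
  unfold pr
  rw [gm_eval, map_lf, eval_map]
  rfl

/-- Identities between polynomials over `k0` pass to almost all `i`. -/
theorem pr_congr {p : MvPolynomial σ (k0 K H hH)} {P : MvPolynomial σ (ℕ → K)}
    (h : map (gR K) P = map (algebraMap (k0 K H hH) (GK K)) p) :
    ∀ᶠ i in (hyperfilter ℕ : Filter ℕ), pr p i = ev i P := by
  refine ev_eq_of_map_eq ?_
  rw [map_lf, h]

theorem pr_ne_zero {p : MvPolynomial σ (k0 K H hH)} (hp : p ≠ 0) :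
    ∀ᶠ i in (hyperfilter ℕ : Filter ℕ), pr p i ≠ 0 := by
  refine ev_ne_zero ?_
  rw [map_lf]
  intro h
  exact hp (map_injective _ (algebraMap (k0 K H hH) (GK K)).injective (by rw [h, map_zero]))

theorem pr_pderiv (p : MvPolynomial σ (k0 K H hH)) (r : σ) :
    ∀ᶠ i in (hyperfilter ℕ : Filter ℕ), pr (pderiv r p) i = pderiv r (pr p i) := by
  have h := pr_congr (p := pderiv r p)
    (P := pderiv r (lf (map (algebraMap (k0 K H hH) (GK K)) p))) (by
      rw [← pderiv_map, map_lf, pderiv_map])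
  filter_upwards [h] with i hi
  rw [hi, ev_pderiv]
  rfl

/-- Transfer of a centre datum. -/
theorem REP_transfer {n e : ℕ} (ρ : REP (k0 K H hH) n e) :
    ∃ (D : ℕ) (h : ℕ → ℝ), oH H h ∧ ∀ᶠ i in (hyperfilter ℕ : Filter ℕ),
      ∃ ρ' : REP K n e, (∀ j, ρ'.z j = pr (ρ.z j) i) ∧ ρ'.Deg D ∧ ρ'.ht ≤ h i := by
  classical
  refine ⟨(∑ j, (ρ.z j).totalDegree) + (∑ l, (ρ.w l).totalDegree) +
    ∑ j, ∑ l, ∑ m, (ρ.M j l m).totalDegree,
    fun i => (∑ j, nh1 (pr (ρ.z j) i)) + (∑ l, nh1 (pr (ρ.w l) i)) +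
      ∑ j, ∑ l, ∑ m, nh1 (pr (ρ.M j l m) i), ?_, ?_⟩
  · refine oH.add (oH.add ?_ ?_) ?_
    · exact oH.sum hH _ _ fun j _ => oH_nh1_pr _
    · exact oH.sum hH _ _ fun j _ => oH_nh1_pr _
    · exact oH.sum hH _ _ fun j _ => oH.sum hH _ _ fun l _ => oH.sum hH _ _ fun m _ =>
        oH_nh1_pr _
  · have h0 : ∀ᶠ i in (hyperfilter ℕ : Filter ℕ), pr (ρ.w 0) i = 1 := by
      have h := pr_congr (p := ρ.w 0) (P := 1) (by rw [ρ.w_zero, map_one, map_one])
      filter_upwards [h] with i hi
      rw [hi, map_one]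
    have h1 : ∀ j m, ∀ᶠ i in (hyperfilter ℕ : Filter ℕ),
        ∑ l, pr (ρ.w l) i * aeval (fun j => pr (ρ.z j) i) (pr (ρ.M j l m) i) =
          X j * pr (ρ.w m) i := by
      intro j m
      have h := ev_eq_of_map_eq (K := K)
        (P := ∑ l, lf (map (algebraMap (k0 K H hH) (GK K)) (ρ.w l)) *
          bind₁ (fun j => lf (map (algebraMap (k0 K H hH) (GK K)) (ρ.z j)))
            (lf (map (algebraMap (k0 K H hH) (GK K)) (ρ.M j l m))))
        (Q := X j * lf (map (algebraMap (k0 K H hH) (GK K)) (ρ.w m))) (by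
          have h2 := congrArg (MvPolynomial.map (algebraMap (k0 K H hH) (GK K))) (ρ.rel j m)
          rw [map_sum] at h2
          simp only [map_mul, map_X, map_sum, map_bind₁, map_lf] at h2 ⊢
          rw [← h2]
          refine Finset.sum_congr rfl fun l _ => ?_
          congr 1
          exact (map_bind₁ _ _ _).symm)
      filter_upwards [h] with i hi
      rw [map_sum] at hi
      simp only [map_mul] at hi
      have e1 : ev i (X j : MvPolynomial (Fin n) (ℕ → K)) = X j := by
        unfold ev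
        rw [map_X]
      rw [e1] at hi
      rw [show pr (ρ.w m) i = ev i (lf (map (algebraMap (k0 K H hH) (GK K)) (ρ.w m))) from rfl,
        ← hi]
      refine Finset.sum_congr rfl fun l _ => ?_
      congr 1
      unfold ev
      exact (map_bind₁ _ _ _).symm
    have h2 : ∀ᶠ i in (hyperfilter ℕ : Filter ℕ), ∀ j m,
        ∑ l, pr (ρ.w l) i * aeval (fun j => pr (ρ.z j) i) (pr (ρ.M j l m) i) =
          X j * pr (ρ.w m) i := by
      rw [eventually_all]
      intro j
      rw [eventually_all]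
      exact h1 j
    filter_upwards [h0, h2] with i hi0 hi
    refine ⟨⟨fun j => pr (ρ.z j) i, fun l => pr (ρ.w l) i,
      fun j => Matrix.of fun l m => pr (ρ.M j l m) i, hi0, fun j m => hi j m⟩, fun j => rfl, ?_, ?_⟩
    · refine ⟨fun j => ?_, fun l => ?_, fun j l m => ?_⟩
      · refine (totalDegree_pr _ i).trans ?_
        have t1 : (ρ.z j).totalDegree ≤ ∑ j, (ρ.z j).totalDegree :=
          Finset.single_le_sum (f := fun j => (ρ.z j).totalDegree)
            (fun _ _ => Nat.zero_le _) (Finset.mem_univ j)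
        exact t1.trans (by rw [add_assoc]; exact Nat.le_add_right _ _)
      · refine (totalDegree_pr _ i).trans ?_
        have t1 : (ρ.w l).totalDegree ≤ ∑ l, (ρ.w l).totalDegree :=
          Finset.single_le_sum (f := fun l => (ρ.w l).totalDegree)
            (fun _ _ => Nat.zero_le _) (Finset.mem_univ l)
        exact t1.trans ((Nat.le_add_left _ _).trans (Nat.le_add_right _ _))
      · refine (totalDegree_pr _ i).trans ?_
        have t1 : ∑ l, ∑ m, (ρ.M j l m).totalDegree ≤ ∑ j, ∑ l, ∑ m, (ρ.M j l m).totalDegree :=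
          Finset.single_le_sum (f := fun j => ∑ l, ∑ m, (ρ.M j l m).totalDegree)
            (fun _ _ => Nat.zero_le _) (Finset.mem_univ j)
        have t2 : ∑ m, (ρ.M j l m).totalDegree ≤ ∑ l, ∑ m, (ρ.M j l m).totalDegree :=
          Finset.single_le_sum (f := fun l => ∑ m, (ρ.M j l m).totalDegree)
            (fun _ _ => Nat.zero_le _) (Finset.mem_univ l)
        have t3 : (ρ.M j l m).totalDegree ≤ ∑ m, (ρ.M j l m).totalDegree :=
          Finset.single_le_sum (f := fun m => (ρ.M j l m).totalDegree)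
            (fun _ _ => Nat.zero_le _) (Finset.mem_univ m)
        exact ((t3.trans t2).trans t1).trans (Nat.le_add_left _ _)
    · rw [REP.ht_eq]
      rfl

end

end Pool.Agent.Lib.MP_17a322_nt.VN
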