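import Pool.Agent.Lib.MP_17a322_nt.VN.F1
import Pool.Agent.Lib.MP_17a322_nt.VJ.A4

/-!
Comparison of gains: the gain of a pair is at most the gain of a pair of combinations with
coefficients which are polynomials in the chart coordinates over `k0`, up to `o(H)`.
-/

universe u

namespace Pool.Agent.Lib.MP_17a322_nt.VN

open MvPolynomial Height Filter
open Pool.Agent.Lib.MP_17a322_nt.RO
open Pool.Agent.Lib.MP_17a322_nt.VJ

/-- The sum of `log max(1, |b|)` over the places at which all `|s t|` are at most one. -/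
noncomputable def cb {K : Type*} [Field K] [AdmissibleAbsValues K] {ι : Type*} (s : ι → K)
    (b : K) : ℝ :=
  open Classical in
  gs fun v => if ∀ t, v (s t) ≤ 1 then Real.log (max 1 (v b)) else 0

/-- The inequality for sums. -/
theorem Z7_abv_add_le {K : Type*} [Field K] (v : AbsoluteValue K ℝ) (a b : K) : v (a + b) ≤ cst v 2 * max (v a) (v b) := by
  unfold cst
  split_ifs with h
  · rw [one_mul]
    exact h a b
  · refine (v.add_le a b).trans ?_
    have h1 := le_max_left (v a) (v b)
    have h2 := le_max_right (v a) (v b)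
    push_cast
    linarith

theorem Z7_one_le_cst {K : Type*} [Field K] (v : AbsoluteValue K ℝ) : 1 ≤ cst v 2 := by
  unfold cst
  split_ifs
  · exact le_rfl
  · norm_num

section

variable {K : Type*} [Field K] [AdmissibleAbsValues K] {ι : Type*} (s : ι → K)

theorem Z7_FS_ite {p : AbsoluteValue K ℝ → Prop} [DecidablePred p] {f : AbsoluteValue K ℝ → ℝ}
    (hf : FS f) : FS (fun v => if p v then f v else 0) := by
  refine hf.subset fun v hv => ?_
  intro h0
  apply hv
  show (if p v.val then f v.val else 0) = 0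
  rw [h0, ite_self]

theorem Z7_log_nonneg (x : ℝ) : 0 ≤ Real.log (max 1 x) :=
  Real.log_nonneg (le_max_left _ _)

theorem Z7_cb_nonneg (b : K) : 0 ≤ cb s b := by
  classical
  unfold cb
  refine gs_nonneg fun v _ => ?_
  split_ifs
  · exact Z7_log_nonneg _
  · exact le_rfl

theorem cb_le (b : K) : cb s b ≤ logHeight₁ b := by
  classical
  rw [← gs_log_max]
  unfold cb
  refine gs_le (Z7_FS_ite (FS_log_max b)) (FS_log_max b) fun v _ => ?_
  split_ifs
  · exact le_rfl
  · exact Z7_log_nonneg _

theorem cb_coord (t : ι) : cb s (s t) ≤ 0 := by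
  classical
  have h : (fun v : AbsoluteValue K ℝ => if ∀ t, v (s t) ≤ 1 then Real.log (max 1 (v (s t))) else 0)
      = fun _ => 0 := by
    funext v
    split_ifs with h1
    · rw [max_eq_left (h1 t), Real.log_one]
    · rfl
  unfold cb
  rw [h]
  simp [gs]

theorem cb_mul (a b : K) : cb s (a * b) ≤ cb s a + cb s b := by
  classical
  unfold cb
  rw [← gs_add (Z7_FS_ite (FS_log_max a)) (Z7_FS_ite (FS_log_max b))]
  refine gs_le (Z7_FS_ite (FS_log_max _)) (FS_add (Z7_FS_ite (FS_log_max a)) (Z7_FS_ite (FS_log_max b)))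
    fun v _ => ?_
  split_ifs
  · have ha : 1 ≤ max 1 (v a) := le_max_left _ _
    have hb : 1 ≤ max 1 (v b) := le_max_left _ _
    rw [← Real.log_mul (by linarith) (by linarith)]
    refine Real.log_le_log (lt_max_of_lt_left one_pos) ?_
    rw [map_mul]
    refine max_le (one_le_mul_of_one_le_of_one_le ha hb) ?_
    exact mul_le_mul (le_max_right _ _) (le_max_right _ _) (v.nonneg _) (by linarith)
  · simp

theorem cb_add (a b : K) :
    cb s (a + b) ≤ cb s a + cb s b + totalWeight K * Real.log 2 := by
  classical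
  have h2 : gs (fun v : AbsoluteValue K ℝ => Real.log (cst v 2)) ≤ totalWeight K * Real.log 2 := by
    have := gs_log_cst (L := K) (n := 2) (by norm_num)
    simpa using this
  refine le_trans ?_ (add_le_add_right h2 _)
  unfold cb
  rw [← gs_add (Z7_FS_ite (FS_log_max a)) (Z7_FS_ite (FS_log_max b)),
    ← gs_add (FS_add (Z7_FS_ite (FS_log_max a)) (Z7_FS_ite (FS_log_max b))) (FS_log_cst 2)]
  refine gs_le (Z7_FS_ite (FS_log_max _))
    (FS_add (FS_add (Z7_FS_ite (FS_log_max a)) (Z7_FS_ite (FS_log_max b))) (FS_log_cst 2))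
    fun v _ => ?_
  have hc := Z7_one_le_cst v
  split_ifs
  · have ha : 1 ≤ max 1 (v a) := le_max_left _ _
    have hb : 1 ≤ max 1 (v b) := le_max_left _ _
    rw [← Real.log_mul (by linarith) (by linarith), ← Real.log_mul (by positivity) (by linarith)]
    refine Real.log_le_log (lt_max_of_lt_left one_pos) ?_
    refine max_le (one_le_mul_of_one_le_of_one_le (one_le_mul_of_one_le_of_one_le ha hb) hc) ?_
    refine (Z7_abv_add_le v a b).trans ?_
    rw [mul_comm]
    refine mul_le_mul_of_nonneg_right ?_ (by linarith)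
    refine max_le ?_ ?_
    · calc v a ≤ max 1 (v a) := le_max_right _ _
        _ ≤ _ := le_mul_of_one_le_right (by linarith) hb
    · calc v b ≤ max 1 (v b) := le_max_right _ _
        _ ≤ _ := le_mul_of_one_le_left (by linarith) ha
  · simpa using Real.log_nonneg hc

theorem Z7_FS_log_min (a b : K) :
    FS (fun v : AbsoluteValue K ℝ => - Real.log (min 1 (max (v a) (v b)))) := by
  have h1 : ∀ x : K, FS (fun v : AbsoluteValue K ℝ => Real.log (v x)) := by
    intro x
    rcases eq_or_ne x 0 with h | h
    · simp [FS, h]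
    · exact FS_log_abv h
  refine ((h1 a).union (h1 b)).subset fun v hv => ?_
  by_contra hc
  rw [Set.mem_union, not_or] at hc
  have h2 : ∀ x : K, ¬ Real.log (v.val x) ≠ 0 → v.val x = 0 ∨ v.val x = 1 := by
    intro x hx
    rw [not_not, Real.log_eq_zero] at hx
    rcases hx with h | h | h
    · exact Or.inl h
    · exact Or.inr h
    · have := v.val.nonneg x
      rw [h] at this
      norm_num at this
  apply hv
  show - Real.log (min 1 (max (v.val a) (v.val b))) = 0
  rcases h2 a hc.1 with h3 | h3 <;> rcases h2 b hc.2 with h4 | h4 <;> rw [h3, h4] <;> simp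

theorem Z7_gn_comb {a b a' b' A B A' B' : K} (ha : a' = A * a + B * b)
    (hb : b' = A' * a + B' * b) (h0 : a' ≠ 0 ∨ b' ≠ 0) :
    gn s a b ≤ gn s a' b' + (cb s A + cb s B + cb s A' + cb s B' + totalWeight K * Real.log 2) := by
  classical
  have h2 : gs (fun v : AbsoluteValue K ℝ => Real.log (cst v 2)) ≤ totalWeight K * Real.log 2 := by
    have := gs_log_cst (L := K) (n := 2) (by norm_num)
    simpa using this
  refine le_trans ?_ (add_le_add_right (add_le_add_right h2 _) _)
  have hF : ∀ x : K, FS (fun v : AbsoluteValue K ℝ =>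
      if ∀ t, v (s t) ≤ 1 then Real.log (max 1 (v x)) else 0) := fun x => Z7_FS_ite (FS_log_max x)
  have hM : ∀ x y : K, FS (fun v : AbsoluteValue K ℝ =>
      if ∀ t, v (s t) ≤ 1 then - Real.log (min 1 (max (v x) (v y))) else 0) :=
    fun x y => Z7_FS_ite (Z7_FS_log_min x y)
  unfold cb gn
  rw [← gs_add (hF A) (hF B), ← gs_add (FS_add (hF A) (hF B)) (hF A'),
    ← gs_add (FS_add (FS_add (hF A) (hF B)) (hF A')) (hF B'),
    ← gs_add (FS_add (FS_add (FS_add (hF A) (hF B)) (hF A')) (hF B')) (FS_log_cst 2),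
    ← gs_add (hM a' b')
      (FS_add (FS_add (FS_add (FS_add (hF A) (hF B)) (hF A')) (hF B')) (FS_log_cst 2))]
  refine gs_le (hM a b) (FS_add (hM a' b')
      (FS_add (FS_add (FS_add (FS_add (hF A) (hF B)) (hF A')) (hF B')) (FS_log_cst 2)))
    fun v _ => ?_
  have hc := Z7_one_le_cst v
  split_ifs
  · have h1 : ∀ x : K, 1 ≤ max 1 (v x) := fun x => le_max_left _ _
    have h1A := h1 A
    have h1B := h1 B
    have h1A' := h1 A'
    have h1B' := h1 B'
    have hC1 : 1 ≤ max 1 (v A) * max 1 (v B) * max 1 (v A') * max 1 (v B') :=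
      one_le_mul_of_one_le_of_one_le (one_le_mul_of_one_le_of_one_le
        (one_le_mul_of_one_le_of_one_le h1A h1B) h1A') h1B'
    have hC : 1 ≤ max 1 (v A) * max 1 (v B) * max 1 (v A') * max 1 (v B') * cst v 2 :=
      one_le_mul_of_one_le_of_one_le hC1 hc
    set M := max (v a) (v b) with hMdef
    set M' := max (v a') (v b') with hMdef'
    have hM0 : 0 ≤ M := (v.nonneg a).trans (le_max_left _ _)
    have hM'0 : 0 < M' := by
      rcases h0 with h | h
      · exact (v.pos h).trans_le (le_max_left _ _)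
      · exact (v.pos h).trans_le (le_max_right _ _)
    have hle : ∀ x y : K, v (x * a + y * b) ≤ cst v 2 * (max 1 (v x) * max 1 (v y) * M) := by
      intro x y
      refine (Z7_abv_add_le v _ _).trans (mul_le_mul_of_nonneg_left ?_ (by linarith))
      have hx := h1 x
      have hy := h1 y
      rw [map_mul, map_mul]
      refine max_le ?_ ?_
      · calc v x * v a ≤ max 1 (v x) * M :=
              mul_le_mul (le_max_right _ _) (le_max_left _ _) (v.nonneg _) (by linarith)
          _ ≤ max 1 (v x) * max 1 (v y) * M :=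
              mul_le_mul_of_nonneg_right (le_mul_of_one_le_right (by linarith) hy) hM0
      · calc v y * v b ≤ max 1 (v y) * M :=
              mul_le_mul (le_max_right _ _) (le_max_right _ _) (v.nonneg _) (by linarith)
          _ ≤ max 1 (v x) * max 1 (v y) * M :=
              mul_le_mul_of_nonneg_right (le_mul_of_one_le_left (by linarith) hx) hM0
    have hMM : M' ≤ max 1 (v A) * max 1 (v B) * max 1 (v A') * max 1 (v B') * cst v 2 * M := by
      refine max_le ?_ ?_
      · rw [ha]
        refine (hle A B).trans ?_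
        calc cst v 2 * (max 1 (v A) * max 1 (v B) * M)
            = max 1 (v A) * max 1 (v B) * (cst v 2 * M) * 1 * 1 := by ring
          _ ≤ max 1 (v A) * max 1 (v B) * (cst v 2 * M) * max 1 (v A') * max 1 (v B') := by
              gcongr
          _ = _ := by ring
      · rw [hb]
        refine (hle A' B').trans ?_
        calc cst v 2 * (max 1 (v A') * max 1 (v B') * M)
            = 1 * 1 * max 1 (v A') * max 1 (v B') * (cst v 2 * M) := by ring
          _ ≤ max 1 (v A) * max 1 (v B) * max 1 (v A') * max 1 (v B') * (cst v 2 * M) := by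
              gcongr
          _ = _ := by ring
    set C := max 1 (v A) * max 1 (v B) * max 1 (v A') * max 1 (v B') * cst v 2 with hCdef
    have hMpos : 0 < M := by
      rcases hM0.lt_or_eq with h | h
      · exact h
      · rw [← h, mul_zero] at hMM
        exact absurd hMM (not_le.2 hM'0)
    have hlog : Real.log (min 1 M') ≤ Real.log (C * min 1 M) := by
      refine Real.log_le_log (lt_min one_pos hM'0) ?_
      rcases le_total 1 M with h | h
      · rw [min_eq_left h, mul_one]
        exact (min_le_left _ _).trans hC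
      · rw [min_eq_right h]
        exact (min_le_right _ _).trans hMM
    rw [Real.log_mul (by linarith) (lt_min one_pos hMpos).ne', hCdef,
      Real.log_mul (by linarith) (by linarith), Real.log_mul (by positivity) (by linarith),
      Real.log_mul (by positivity) (by linarith), Real.log_mul (by linarith) (by linarith)] at hlog
    linarith
  · simpa using Real.log_nonneg hc

end

theorem Z7_logHeight_vc {K : Type*} [Field K] [AdmissibleAbsValues K] (χ : Bool) (s : K) : logHeight (vc χ s) = logHeight₁ s := by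
  unfold vc
  split_ifs
  · rw [logHeight_swap, logHeight₁_eq_logHeight]
  · rw [logHeight₁_eq_logHeight]

section

variable {K : Type u} [Field K] [NumberField K] {n : ℕ} (H : ℕ → ℝ)
  (hH : Tendsto H (hyperfilter ℕ : Filter ℕ) atTop) (s : ℕ → Fin n → K)

include hH in
theorem Z7_eventually_const_le (c δ : ℝ) (hδ : 0 < δ) :
    ∀ᶠ i in (hyperfilter ℕ : Filter ℕ), c ≤ δ * H i := by
  filter_upwards [hH.eventually_ge_atTop (c / δ)] with i hi
  rw [div_le_iff₀ hδ] at hi
  linarith

/-- Values of polynomials over `k0` at the chart coordinates are bounded up to `o(H)` at the places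
of the chart. -/
theorem cb_rep (p : MvPolynomial (Fin n) (k0 K H hH)) :
    ∃ β : ℕ → K, gm β = aeval (fun t => gm fun i => s i t) p ∧
      ∀ δ : ℝ, 0 < δ → ∀ᶠ i in (hyperfilter ℕ : Filter ℕ), cb (s i) (β i) ≤ δ * H i := by
  induction p using MvPolynomial.induction_on with
  | C a =>
    obtain ⟨α, hα, hα'⟩ : sml H (a : GK K) := a.2
    refine ⟨α, ?_, fun δ hδ => ?_⟩
    · rw [hα, aeval_C]
      rfl
    · filter_upwards [hα' δ hδ] with i hi
      exact (cb_le _ _).trans hi
  | add p q hp hq =>
    obtain ⟨β, hβ, hβ'⟩ := hp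
    obtain ⟨γ, hγ, hγ'⟩ := hq
    refine ⟨fun i => β i + γ i, ?_, fun δ hδ => ?_⟩
    · rw [gm_add, hβ, hγ, map_add]
    · filter_upwards [hβ' (δ / 3) (by linarith), hγ' (δ / 3) (by linarith),
        Z7_eventually_const_le H hH (totalWeight K * Real.log 2) (δ / 3) (by linarith)] with i h1 h2 h3
      have h4 := cb_add (s i) (β i) (γ i)
      show cb (s i) (β i + γ i) ≤ δ * H i
      linarith
  | mul_X p t hp =>
    obtain ⟨β, hβ, hβ'⟩ := hp
    refine ⟨fun i => β i * s i t, ?_, fun δ hδ => ?_⟩
    · rw [gm_mul, hβ, map_mul, aeval_X]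
    · filter_upwards [hβ' δ hδ] with i h1
      have h2 := cb_mul (s i) (β i) (s i t)
      have h3 := cb_coord (s i) t
      show cb (s i) (β i * s i t) ≤ δ * H i
      linarith

/-- Comparison of gains. -/
theorem gn_comb' (a b a' b' : ℕ → K) (A B A' B' : MvPolynomial (Fin n) (k0 K H hH))
    (ha : gm a' = aeval (fun t => gm fun i => s i t) A * gm a +
      aeval (fun t => gm fun i => s i t) B * gm b)
    (hb : gm b' = aeval (fun t => gm fun i => s i t) A' * gm a +
      aeval (fun t => gm fun i => s i t) B' * gm b)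
    (h0 : gm a' ≠ 0 ∨ gm b' ≠ 0) (δ : ℝ) (hδ : 0 < δ) :
    ∀ᶠ i in (hyperfilter ℕ : Filter ℕ),
      gn (s i) (a i) (b i) ≤ gn (s i) (a' i) (b' i) + δ * H i := by
  obtain ⟨α, hα, hα'⟩ := cb_rep H hH s A
  obtain ⟨β, hβ, hβ'⟩ := cb_rep H hH s B
  obtain ⟨γ, hγ, hγ'⟩ := cb_rep H hH s A'
  obtain ⟨ζ, hζ, hζ'⟩ := cb_rep H hH s B'
  rw [← hα, ← hβ, ← gm_mul, ← gm_mul, ← gm_add, gm_eq_iff] at ha
  rw [← hγ, ← hζ, ← gm_mul, ← gm_mul, ← gm_add, gm_eq_iff] at hb
  have h0' : ∀ᶠ i in (hyperfilter ℕ : Filter ℕ), a' i ≠ 0 ∨ b' i ≠ 0 := by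
    rcases h0 with h | h
    · rw [← gm_zero, Ne, gm_eq_iff, ← Ultrafilter.eventually_not] at h
      filter_upwards [h] with i hi
      exact Or.inl hi
    · rw [← gm_zero, Ne, gm_eq_iff, ← Ultrafilter.eventually_not] at h
      filter_upwards [h] with i hi
      exact Or.inr hi
  filter_upwards [hα' (δ / 5) (by linarith), hβ' (δ / 5) (by linarith), hγ' (δ / 5) (by linarith),
    hζ' (δ / 5) (by linarith),
    Z7_eventually_const_le H hH (totalWeight K * Real.log 2) (δ / 5) (by linarith), ha, hb, h0']
    with i h1 h2 h3 h4 h5 h6 h7 h8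
  have h9 := Z7_gn_comb (s i) (A := α i) (B := β i) (A' := γ i) (B' := ζ i) (a := a i) (b := b i)
    h6 h7 h8
  linarith

end

end Pool.Agent.Lib.MP_17a322_nt.VN
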