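import Pool.Agent.Lib.MP_17a322_nt.VN.L0
import Pool.Agent.Lib.MP_17a322_nt.VJ.J5
import Mathlib.RingTheory.PowerSeries.Expand

/-!
# JOB L1c: the seminorm `PA` on power series over a ring with a seminorm

`PA v ν r n f` (VN/L0) is the maximum (nonarchimedean `v`) or the sum of `ν (coeff k f) * r ^ k`,
`k ≤ n`. `PN v r n f` (VJ/J0) is the case `A = L`, `ν = v`: `PN_eq_PA` is `rfl`. Model for all proofs:
VJ/J5.lean (the same statements for `PN`).

PROOFS. `PA_le_mul`: the basic comparison. Nonarchimedean: `ciSup_le` and `le_ciSup` (the family is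
finite, `Fin (n + 1)` nonempty, bounded), and `c * ⨆ = ⨆ c *` is not needed. Archimedean:
`Finset.mul_sum`, `Finset.sum_le_sum`.
`SN_PA`: as `SN_PN` in VJ/J5.lean, with `ν` in place of `v` (`h.add`, `h.add_max`, `h.mul`, `h.zero`,
`h.neg`, `h.nonneg`); `map`: `algebraMap L (PowerSeries A) c = PowerSeries.C (algebraMap L A c)`
(`PowerSeries.algebraMap_apply`), `PA_C`, `h.map`.
`PA_const`, `PA_sub_const`, `PA_mono`, `PA_mono_n`, `PA_map`, `PA_rescale_zero`: from `PA_le_mul` with
`c = 1`, termwise (`PA_mono_n`: sums over more terms / supremum over more terms).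
`PN_expand`: `PowerSeries.coeff_expand`: the coefficient at `k` of `expand w f` is `coeff (k / w) f` if
`w ∣ k` and `0` otherwise; `r ^ k = (r ^ w) ^ (k / w)` and `k ↦ k / w` is injective on the multiples of
`w`, `k / w ≤ n`.
-/

namespace Pool.Agent.Lib.MP_17a322_nt.VN

open MvPolynomial Height
open Pool.Agent.Lib.MP_17a322_nt.RO
open Pool.Agent.Lib.MP_17a322_nt.VJ

section

variable {L : Type*} [Field L] {v : AbsoluteValue L ℝ} {A : Type*} [CommRing A] [Algebra L A]
  {ν : A → ℝ}

theorem PN_eq_PA (v : AbsoluteValue L ℝ) (r : ℝ) (n : ℕ) (f : PowerSeries L) :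
    PN v r n f = PA v (fun x : L => v x) r n f := by
  rfl

omit [Algebra L A] in
private theorem L1c_na (hv : IsNonarchimedean v) (ν : A → ℝ) (r : ℝ) (n : ℕ) (f : PowerSeries A) :
    PA v ν r n f = ⨆ k : Fin (n + 1), ν (PowerSeries.coeff (k : ℕ) f) * r ^ (k : ℕ) := by
  unfold PA
  rw [if_pos hv]

omit [Algebra L A] in
private theorem L1c_ar (hv : ¬ IsNonarchimedean v) (ν : A → ℝ) (r : ℝ) (n : ℕ)
    (f : PowerSeries A) :
    PA v ν r n f = ∑ k : Fin (n + 1), ν (PowerSeries.coeff (k : ℕ) f) * r ^ (k : ℕ) := by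
  unfold PA
  rw [if_neg hv]

theorem PA_le_mul {A' : Type*} [CommRing A'] {ν' : A' → ℝ} {r r' c : ℝ} {n : ℕ} (hc : 0 ≤ c)
    (f : PowerSeries A) (g : PowerSeries A')
    (h : ∀ k ≤ n, ν' (PowerSeries.coeff k g) * r' ^ k ≤ c * (ν (PowerSeries.coeff k f) * r ^ k)) :
    PA v ν' r' n g ≤ c * PA v ν r n f := by
  by_cases hv : IsNonarchimedean v
  · rw [L1c_na hv, L1c_na hv]
    refine ciSup_le fun k => ?_
    refine (h k (Nat.le_of_lt_succ k.2)).trans ?_
    refine mul_le_mul_of_nonneg_left ?_ hc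
    exact le_ciSup (f := fun k : Fin (n + 1) => ν (PowerSeries.coeff (k : ℕ) f) * r ^ (k : ℕ))
      (Set.finite_range _).bddAbove k
  · rw [L1c_ar hv, L1c_ar hv, Finset.mul_sum]
    exact Finset.sum_le_sum fun k _ => h k (Nat.le_of_lt_succ k.2)

private theorem L1c_le {A' : Type*} [CommRing A'] {ν' : A' → ℝ} {r r' : ℝ} {n : ℕ}
    (f : PowerSeries A) (g : PowerSeries A')
    (h : ∀ k ≤ n, ν' (PowerSeries.coeff k g) * r' ^ k ≤ ν (PowerSeries.coeff k f) * r ^ k) :
    PA v ν' r' n g ≤ PA v ν r n f := by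
  have h1 := PA_le_mul (v := v) (ν := ν) (ν' := ν') (r := r) (r' := r') (n := n)
    zero_le_one f g fun k hk => by
      rw [one_mul]
      exact h k hk
  rwa [one_mul] at h1

theorem PA_C (h : SN v ν) (r : ℝ) (n : ℕ) (a : A) : PA v ν r n (PowerSeries.C a) = ν a := by
  have hco : ∀ k : ℕ, ν (PowerSeries.coeff k (PowerSeries.C a)) * r ^ k =
      if k = 0 then ν a else 0 := by
    intro k
    rw [PowerSeries.coeff_C]
    split_ifs with h0
    · rw [h0, pow_zero, mul_one]
    · rw [h.zero, zero_mul]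
  by_cases hv : IsNonarchimedean v
  · simp only [L1c_na hv, hco]
    apply le_antisymm
    · refine ciSup_le fun k => ?_
      split_ifs
      · exact le_rfl
      · exact h.nonneg a
    · have := le_ciSup (f := fun k : Fin (n + 1) => if (k : ℕ) = 0 then ν a else 0)
        (Set.finite_range _).bddAbove ⟨0, Nat.succ_pos n⟩
      simpa using this
  · simp only [L1c_ar hv, hco]
    rw [← Finset.sum_range fun k => if k = 0 then ν a else 0]
    simp

private theorem L1c_coeff_le (h : SN v ν) {r : ℝ} (hr : 0 ≤ r) {n k : ℕ} (hk : k ≤ n)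
    (f : PowerSeries A) : ν (PowerSeries.coeff k f) * r ^ k ≤ PA v ν r n f := by
  by_cases hv : IsNonarchimedean v
  · rw [L1c_na hv]
    exact le_ciSup (f := fun k : Fin (n + 1) => ν (PowerSeries.coeff (k : ℕ) f) * r ^ (k : ℕ))
      (Set.finite_range _).bddAbove ⟨k, Nat.lt_succ_of_le hk⟩
  · rw [L1c_ar hv]
    exact Finset.single_le_sum
      (f := fun k : Fin (n + 1) => ν (PowerSeries.coeff (k : ℕ) f) * r ^ (k : ℕ))
      (fun i _ => mul_nonneg (h.nonneg _) (pow_nonneg hr _))
      (Finset.mem_univ ⟨k, Nat.lt_succ_of_le hk⟩)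

private theorem L1c_nonneg (h : SN v ν) {r : ℝ} (hr : 0 ≤ r) (n : ℕ) (f : PowerSeries A) :
    0 ≤ PA v ν r n f :=
  (mul_nonneg (h.nonneg _) (pow_nonneg hr 0)).trans (L1c_coeff_le h hr (Nat.zero_le n) f)

private theorem L1c_mul (h : SN v ν) {r : ℝ} (hr : 0 ≤ r) (n : ℕ) (f g : PowerSeries A) :
    PA v ν r n (f * g) ≤ PA v ν r n f * PA v ν r n g := by
  classical
  have key : ∀ i j, i + j ≤ n → ν (PowerSeries.coeff i f * PowerSeries.coeff j g) * r ^ (i + j) ≤
      PA v ν r n f * PA v ν r n g := by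
    intro i j hij
    rw [pow_add]
    calc ν (PowerSeries.coeff i f * PowerSeries.coeff j g) * (r ^ i * r ^ j)
        ≤ (ν (PowerSeries.coeff i f) * ν (PowerSeries.coeff j g)) * (r ^ i * r ^ j) :=
          mul_le_mul_of_nonneg_right (h.mul _ _) (mul_nonneg (pow_nonneg hr _) (pow_nonneg hr _))
      _ = (ν (PowerSeries.coeff i f) * r ^ i) * (ν (PowerSeries.coeff j g) * r ^ j) := by ring
      _ ≤ _ := mul_le_mul (L1c_coeff_le h hr (by omega) f) (L1c_coeff_le h hr (by omega) g)
          (mul_nonneg (h.nonneg _) (pow_nonneg hr _)) (L1c_nonneg h hr n f)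
  by_cases hv : IsNonarchimedean v
  · rw [L1c_na hv ν r n (f * g)]
    refine ciSup_le fun k => ?_
    have hk : (k : ℕ) ≤ n := Nat.le_of_lt_succ k.2
    rw [PowerSeries.coeff_mul]
    obtain ⟨p, hp, hle⟩ : ∃ p ∈ Finset.HasAntidiagonal.antidiagonal (k : ℕ),
        ν (∑ p ∈ Finset.HasAntidiagonal.antidiagonal (k : ℕ),
          PowerSeries.coeff p.1 f * PowerSeries.coeff p.2 g) ≤
          ν (PowerSeries.coeff p.1 f * PowerSeries.coeff p.2 g) := by
      have hne : (Finset.HasAntidiagonal.antidiagonal (k : ℕ)).Nonempty := ⟨(0, k), by simp⟩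
      obtain ⟨p, hp, hmax⟩ := Finset.exists_max_image
        (Finset.HasAntidiagonal.antidiagonal (k : ℕ))
        (fun p => ν (PowerSeries.coeff p.1 f * PowerSeries.coeff p.2 g)) hne
      refine ⟨p, hp, ?_⟩
      have aux : ∀ s : Finset (ℕ × ℕ), s ⊆ Finset.HasAntidiagonal.antidiagonal (k : ℕ) →
          ν (∑ p ∈ s, PowerSeries.coeff p.1 f * PowerSeries.coeff p.2 g) ≤
            ν (PowerSeries.coeff p.1 f * PowerSeries.coeff p.2 g) := by
        intro s
        induction s using Finset.induction_on with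
        | empty =>
          intro _
          rw [Finset.sum_empty, h.zero]
          exact h.nonneg _
        | insert a s ha ih =>
          intro hs
          rw [Finset.sum_insert ha]
          refine (h.add_max hv _ _).trans (max_le ?_ ?_)
          · exact hmax a (hs (Finset.mem_insert_self a s))
          · exact ih fun x hx => hs (Finset.mem_insert_of_mem hx)
      exact aux _ (Finset.Subset.refl _)
    rw [Finset.HasAntidiagonal.mem_antidiagonal] at hp
    refine (mul_le_mul_of_nonneg_right hle (pow_nonneg hr _)).trans ?_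
    have := key p.1 p.2 (hp ▸ hk)
    rwa [hp] at this
  · have h1 : PA v ν r n (f * g) ≤ ∑ k ∈ Finset.range (n + 1),
        ∑ p ∈ Finset.HasAntidiagonal.antidiagonal k,
        ν (PowerSeries.coeff p.1 f * PowerSeries.coeff p.2 g) * r ^ (p.1 + p.2) := by
      rw [L1c_ar hv ν r n, ← Finset.sum_range fun k => ν (PowerSeries.coeff k (f * g)) * r ^ k]
      refine Finset.sum_le_sum fun k _ => ?_
      rw [PowerSeries.coeff_mul]
      have h2 : ν (∑ p ∈ Finset.HasAntidiagonal.antidiagonal k,
          PowerSeries.coeff p.1 f * PowerSeries.coeff p.2 g) ≤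
          ∑ p ∈ Finset.HasAntidiagonal.antidiagonal k,
            ν (PowerSeries.coeff p.1 f * PowerSeries.coeff p.2 g) :=
        Finset.le_sum_of_subadditive ν h.zero.le h.add _ _
      refine (mul_le_mul_of_nonneg_right h2 (pow_nonneg hr _)).trans ?_
      rw [Finset.sum_mul]
      refine Finset.sum_le_sum fun p hp => ?_
      rw [Finset.HasAntidiagonal.mem_antidiagonal.mp hp]
    refine h1.trans ?_
    rw [← Finset.sum_biUnion]
    · have h3 : PA v ν r n f * PA v ν r n g =
          ∑ p ∈ Finset.range (n + 1) ×ˢ Finset.range (n + 1),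
          (ν (PowerSeries.coeff p.1 f) * r ^ p.1) * (ν (PowerSeries.coeff p.2 g) * r ^ p.2) := by
        rw [Finset.sum_product, L1c_ar hv, L1c_ar hv,
          ← Finset.sum_range fun k => ν (PowerSeries.coeff k f) * r ^ k,
          ← Finset.sum_range fun k => ν (PowerSeries.coeff k g) * r ^ k, Finset.sum_mul_sum]
      rw [h3]
      refine (Finset.sum_le_sum_of_subset_of_nonneg
        (t := Finset.range (n + 1) ×ˢ Finset.range (n + 1)) ?_ ?_).trans ?_
      · intro p hp
        rw [Finset.mem_biUnion] at hp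
        obtain ⟨k, hk, hpk⟩ := hp
        rw [Finset.mem_range] at hk
        rw [Finset.HasAntidiagonal.mem_antidiagonal] at hpk
        rw [Finset.mem_product, Finset.mem_range, Finset.mem_range]
        omega
      · intro p _ _
        exact mul_nonneg (h.nonneg _) (pow_nonneg hr _)
      · refine Finset.sum_le_sum fun p _ => ?_
        rw [pow_add]
        calc ν (PowerSeries.coeff p.1 f * PowerSeries.coeff p.2 g) * (r ^ p.1 * r ^ p.2)
            ≤ (ν (PowerSeries.coeff p.1 f) * ν (PowerSeries.coeff p.2 g)) *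
                (r ^ p.1 * r ^ p.2) :=
              mul_le_mul_of_nonneg_right (h.mul _ _)
                (mul_nonneg (pow_nonneg hr _) (pow_nonneg hr _))
          _ = _ := by ring
    · intro a _ b _ hab
      rw [Function.onFun, Finset.disjoint_left]
      intro p hp hp'
      rw [Finset.HasAntidiagonal.mem_antidiagonal] at hp hp'
      exact hab (hp.symm.trans hp')

/-- `PA` is a seminorm on power series. -/
theorem SN_PA (h : SN v ν) {r : ℝ} (hr : 0 ≤ r) (n : ℕ) :
    SN v (fun f : PowerSeries A => PA v ν r n f) := by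
  have hadd : IsNonarchimedean v → ∀ a b : PowerSeries A,
      PA v ν r n (a + b) ≤ max (PA v ν r n a) (PA v ν r n b) := by
    intro hv a b
    rw [L1c_na hv ν r n (a + b)]
    refine ciSup_le fun k => ?_
    have hk : (k : ℕ) ≤ n := Nat.le_of_lt_succ k.2
    rw [map_add]
    refine (mul_le_mul_of_nonneg_right (h.add_max hv _ _) (pow_nonneg hr _)).trans ?_
    rw [max_mul_of_nonneg _ _ (pow_nonneg hr _)]
    exact max_le_max (L1c_coeff_le h hr hk a) (L1c_coeff_le h hr hk b)
  refine ⟨fun a => L1c_nonneg h hr n a, ?_, ?_, ?_, hadd, ?_, ?_⟩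
  · by_cases hv : IsNonarchimedean v
    · simp only [L1c_na hv, map_zero, h.zero, zero_mul, ciSup_const]
    · simp only [L1c_ar hv, map_zero, h.zero, zero_mul, Finset.sum_const_zero]
  · intro a
    unfold PA
    simp only [map_neg, h.neg]
  · intro a b
    by_cases hv : IsNonarchimedean v
    · exact (hadd hv a b).trans
        (max_le_add_of_nonneg (L1c_nonneg h hr n a) (L1c_nonneg h hr n b))
    · simp only [L1c_ar hv]
      rw [← Finset.sum_add_distrib]
      refine Finset.sum_le_sum fun k _ => ?_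
      rw [map_add, ← add_mul]
      exact mul_le_mul_of_nonneg_right (h.add _ _) (pow_nonneg hr _)
  · intro a b
    exact L1c_mul h hr n a b
  · intro c
    have h1 : algebraMap L (PowerSeries A) c = PowerSeries.C (algebraMap L A c) :=
      PowerSeries.algebraMap_apply
    show PA v ν r n (algebraMap L (PowerSeries A) c) ≤ v c
    rw [h1, PA_C h]
    exact h.map c

theorem PA_coeff_le (h : SN v ν) {r : ℝ} (hr : 0 ≤ r) {n k : ℕ} (hk : k ≤ n)
    (f : PowerSeries A) : ν (PowerSeries.coeff k f) * r ^ k ≤ PA v ν r n f := by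
  exact L1c_coeff_le h hr hk f

theorem PA_mono (h : SN v ν) {r r' : ℝ} (hr : 0 ≤ r) (hrr : r ≤ r') (n : ℕ)
    (f : PowerSeries A) : PA v ν r n f ≤ PA v ν r' n f := by
  refine L1c_le f f fun k _ => ?_
  exact mul_le_mul_of_nonneg_left (pow_le_pow_left₀ hr hrr k) (h.nonneg _)

theorem PA_mono_n (h : SN v ν) {r : ℝ} (hr : 0 ≤ r) {n n' : ℕ} (hn : n ≤ n')
    (f : PowerSeries A) : PA v ν r n f ≤ PA v ν r n' f := by
  by_cases hv : IsNonarchimedean v
  · rw [L1c_na hv ν r n]
    refine ciSup_le fun k => ?_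
    exact L1c_coeff_le h hr ((Nat.le_of_lt_succ k.2).trans hn) f
  · rw [L1c_ar hv ν r n, L1c_ar hv ν r n',
      ← Finset.sum_range fun k => ν (PowerSeries.coeff k f) * r ^ k,
      ← Finset.sum_range fun k => ν (PowerSeries.coeff k f) * r ^ k]
    refine Finset.sum_le_sum_of_subset_of_nonneg ?_ ?_
    · exact Finset.range_mono (by omega)
    · intro k _ _
      exact mul_nonneg (h.nonneg _) (pow_nonneg hr _)

theorem PA_mono_nu {ν' : A → ℝ} {r : ℝ} (hr : 0 ≤ r) (hν : ∀ a, ν' a ≤ ν a) (n : ℕ)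
    (f : PowerSeries A) : PA v ν' r n f ≤ PA v ν r n f := by
  refine L1c_le f f fun k _ => ?_
  exact mul_le_mul_of_nonneg_right (hν _) (pow_nonneg hr _)

theorem PA_X_le (h : SN v ν) {r : ℝ} (hr : 0 ≤ r) (n : ℕ) :
    PA v ν r n (PowerSeries.X : PowerSeries A) ≤ r := by
  have h1 : ν 1 ≤ 1 := by
    have h2 := h.map 1
    rwa [map_one, map_one] at h2
  have hco : ∀ k : ℕ, ν (PowerSeries.coeff k (PowerSeries.X : PowerSeries A)) * r ^ k =
      if k = 1 then ν 1 * r else 0 := by
    intro k
    rw [PowerSeries.coeff_X]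
    split_ifs with h0
    · rw [h0, pow_one]
    · rw [h.zero, zero_mul]
  have h3 : ν 1 * r ≤ r := by
    calc ν 1 * r ≤ 1 * r := mul_le_mul_of_nonneg_right h1 hr
      _ = r := one_mul r
  by_cases hv : IsNonarchimedean v
  · simp only [L1c_na hv, hco]
    refine ciSup_le fun k => ?_
    split_ifs
    · exact h3
    · exact hr
  · simp only [L1c_ar hv, hco]
    rw [← Finset.sum_range fun k => if k = 1 then ν 1 * r else 0, Finset.sum_ite_eq']
    split_ifs
    · exact h3
    · exact hr

/-- Base change along a homomorphism which does not increase the seminorm. -/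
theorem PA_map {A' : Type*} [CommRing A'] {ν' : A' → ℝ} {r : ℝ} (hr : 0 ≤ r) (E : A →+* A')
    (hE : ∀ a, ν' (E a) ≤ ν a) (n : ℕ) (f : PowerSeries A) :
    PA v ν' r n (PowerSeries.map E f) ≤ PA v ν r n f := by
  refine L1c_le f _ fun k _ => ?_
  rw [PowerSeries.coeff_map]
  exact mul_le_mul_of_nonneg_right (hE _) (pow_nonneg hr _)

theorem PA_const (h : SN v ν) {r : ℝ} (hr : 0 ≤ r) (n : ℕ) (f : PowerSeries A) :
    PA v ν r n (PowerSeries.C (PowerSeries.constantCoeff f)) ≤ PA v ν r n f := by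
  rw [PA_C h]
  have h1 := L1c_coeff_le h hr (Nat.zero_le n) f
  rwa [pow_zero, mul_one, PowerSeries.coeff_zero_eq_constantCoeff_apply] at h1

theorem PA_map_C {r s : ℝ} (n n' : ℕ) (f : PowerSeries L) :
    PA v (fun g : PowerSeries L => PN v s n g) r n' (PowerSeries.map PowerSeries.C f) =
      PN v r n' f := by
  have hco : ∀ k : ℕ, PN v s n (PowerSeries.coeff k (PowerSeries.map PowerSeries.C f)) =
      v (PowerSeries.coeff k f) := by
    intro k
    rw [PowerSeries.coeff_map, PN_C]
  unfold PA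
  rw [PN]
  simp only [hco]

/-- The substitution `T ↦ T ^ w`. -/
theorem PN_expand (v : AbsoluteValue L ℝ) {r : ℝ} (hr : 0 ≤ r) {w : ℕ} (hw : w ≠ 0) (n : ℕ)
    (f : PowerSeries L) : PN v r n (PowerSeries.expand w hw f) ≤ PN v (r ^ w) n f := by
  classical
  have hw0 : 0 < w := Nat.pos_of_ne_zero hw
  have hrw : 0 ≤ r ^ w := pow_nonneg hr w
  have hco : ∀ k : ℕ, v (PowerSeries.coeff k (PowerSeries.expand w hw f)) * r ^ k =
      if w ∣ k then v (PowerSeries.coeff (k / w) f) * (r ^ w) ^ (k / w) else 0 := by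
    intro k
    rw [PowerSeries.coeff_expand]
    split_ifs with h0
    · rw [← pow_mul, Nat.mul_div_cancel' h0]
    · rw [map_zero, zero_mul]
  by_cases hv : IsNonarchimedean v
  · rw [PN_eq_PA, L1c_na hv]
    refine ciSup_le fun k => ?_
    have h1 := hco k
    show v (PowerSeries.coeff (k : ℕ) (PowerSeries.expand w hw f)) * r ^ (k : ℕ) ≤ _
    rw [h1]
    split_ifs
    · exact PN_coeff_le v hrw ((Nat.div_le_self _ _).trans (Nat.le_of_lt_succ k.2)) f
    · exact (mul_nonneg (v.nonneg _) (pow_nonneg hrw 0)).trans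
        (PN_coeff_le v hrw (Nat.zero_le n) f)
  · rw [PN_eq_PA, PN_eq_PA, L1c_ar hv, L1c_ar hv,
      ← Finset.sum_range fun k => v (PowerSeries.coeff k (PowerSeries.expand w hw f)) * r ^ k,
      ← Finset.sum_range fun k => v (PowerSeries.coeff k f) * (r ^ w) ^ k]
    simp only [hco]
    rw [← Finset.sum_filter, ← Finset.sum_image
      (f := fun j => v (PowerSeries.coeff j f) * (r ^ w) ^ j)
      (s := (Finset.range (n + 1)).filter fun k => w ∣ k) (g := fun k => k / w)]
    · refine Finset.sum_le_sum_of_subset_of_nonneg ?_ ?_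
      · intro j hj
        rw [Finset.mem_image] at hj
        obtain ⟨k, hk, rfl⟩ := hj
        rw [Finset.mem_filter, Finset.mem_range] at hk
        rw [Finset.mem_range]
        exact lt_of_le_of_lt (Nat.div_le_self _ _) hk.1
      · intro j _ _
        exact mul_nonneg (v.nonneg _) (pow_nonneg hrw _)
    · intro a ha b hb hab
      rw [Finset.mem_coe, Finset.mem_filter] at ha hb
      have h1 : a / w = b / w := hab
      rw [← Nat.mul_div_cancel' ha.2, ← Nat.mul_div_cancel' hb.2, h1]

end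

end Pool.Agent.Lib.MP_17a322_nt.VN
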