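import Pool.Agent.Lib.MP_17a322_nt.VN.L2D0

/-!
Part L-II of VN: the equation `g i` at the deformed point (II.4).

`coeff_zero_aeval`: algebra homomorphisms. `coeff_one_aeval`: `MvPolynomial.induction_on`: constants, sums
(`map_add`), products with a variable (`pderiv_mul`, `pderiv_X`, `PowerSeries.coeff_one_mul`; or
`MvPolynomial.mkDerivation`: both sides are derivations).

`coeff_dp_gS`: `aeval (dp ..) (gS g i) = aeval (fun t => rs (cc A m n) (e t) (u (i, t))) (g i)` with
`e = ee (C gr') (C (gd l)) r l` (`aeval_rename`, definition of `dp`). The coefficient `0` is the image of `hg`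
under the ring homomorphism `cc A m n` (a `K`-algebra homomorphism); the coefficient `1` is
`∑ t, e t * cc (gd t)`, where only `t = r, l` count:
`C (C gr') * (X 0 - C (C (gd l)) * X 1) * C (C (gd r)) + X 1 * C (C (gd l)) = X 0`.
-/

universe u

namespace Pool.Agent.Lib.MP_17a322_nt.VN

open MvPolynomial Height
open Pool.Agent.Lib.MP_17a322_nt.RO
open Pool.Agent.Lib.MP_17a322_nt.VJ

theorem coeff_zero_aeval {K D σ : Type*} [CommRing K] [CommRing D] [Algebra K D]
    (f : σ → PowerSeries D) (g : MvPolynomial σ K) :
    PowerSeries.coeff 0 (aeval f g) = aeval (fun t => PowerSeries.coeff 0 (f t)) g := by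
  induction g using MvPolynomial.induction_on with
  | C a =>
    rw [aeval_C, aeval_C, PowerSeries.algebraMap_apply, PowerSeries.coeff_zero_C]
  | add p q hp hq => rw [map_add, map_add, map_add, hp, hq]
  | mul_X p i hp =>
    have h1 : ∀ a b : PowerSeries D, PowerSeries.coeff 0 (a * b) =
        PowerSeries.coeff 0 a * PowerSeries.coeff 0 b := by
      intro a b
      rw [PowerSeries.coeff_zero_eq_constantCoeff_apply, PowerSeries.coeff_zero_eq_constantCoeff_apply,
        PowerSeries.coeff_zero_eq_constantCoeff_apply]
      exact (PowerSeries.constantCoeff (R := D)).map_mul _ _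
    rw [map_mul (aeval f), h1, map_mul, aeval_X, aeval_X, hp]

theorem coeff_one_aeval {K D σ : Type*} [CommRing K] [CommRing D] [Algebra K D] [Fintype σ]
    (f : σ → PowerSeries D) (g : MvPolynomial σ K) :
    PowerSeries.coeff 1 (aeval f g) =
      ∑ t, aeval (fun t => PowerSeries.coeff 0 (f t)) (pderiv t g) * PowerSeries.coeff 1 (f t) := by
  classical
  induction g using MvPolynomial.induction_on with
  | C a =>
    rw [aeval_C, PowerSeries.algebraMap_apply, PowerSeries.coeff_C, if_neg one_ne_zero]
    simp
  | add p q hp hq =>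
    rw [map_add, map_add, hp, hq, ← Finset.sum_add_distrib]
    refine Finset.sum_congr rfl fun t _ => ?_
    rw [map_add, map_add, add_mul]
  | mul_X p i hp =>
    have e1 : ∀ t, aeval (fun t => PowerSeries.coeff 0 (f t)) (pderiv t (p * X i)) *
        PowerSeries.coeff 1 (f t) =
        aeval (fun t => PowerSeries.coeff 0 (f t)) (pderiv t p) * PowerSeries.coeff 1 (f t) *
          PowerSeries.coeff 0 (f i) +
        (if t = i then aeval (fun t => PowerSeries.coeff 0 (f t)) p * PowerSeries.coeff 1 (f t)
          else 0) := by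
      intro t
      rw [pderiv_mul, map_add, map_mul, map_mul, aeval_X, add_mul]
      congr 1
      · ring
      · rw [pderiv_X, Pi.single_apply]
        by_cases h : t = i
        · subst h
          simp
        · have h' : ¬ i = t := fun h1 => h h1.symm
          simp [h, h']
    rw [map_mul, aeval_X, PowerSeries.coeff_one_mul, hp, Finset.sum_congr rfl fun t _ => e1 t,
      Finset.sum_add_distrib, Finset.sum_ite_eq' Finset.univ i, if_pos (Finset.mem_univ i),
      ← Finset.sum_mul, ← PowerSeries.coeff_zero_eq_constantCoeff_apply,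
      ← PowerSeries.coeff_zero_eq_constantCoeff_apply, coeff_zero_aeval]
    ring

theorem coeff_dp_gS {K : Type*} [Field K] {A : Type*} [CommRing A] [Algebra K A] {m n : ℕ}
    (x : Fin n → A) (u ξ : Fin m × Fin n → PowerSeries A) (i : Fin m) (r l : Fin n) (hrl : l ≠ r)
    (g : Fin m → MvPolynomial (Fin n) K)
    (hg : aeval (fun t => PowerSeries.constantCoeff (u (i, t))) (g i) = 0) (gd : Fin n → A)
    (hgd : ∀ t, gd t = aeval (fun t => PowerSeries.constantCoeff (u (i, t))) (pderiv t (g i)) *
      PowerSeries.coeff 1 (u (i, t))) (gr' : A) (hr : gr' * gd r = 1) :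
    PowerSeries.coeff 0 (aeval (dp (ee (C gr') (C (gd l)) r l) x u ξ i) (gS g i)) = 0 ∧
      PowerSeries.coeff 1 (aeval (dp (ee (C gr') (C (gd l)) r l) x u ξ i) (gS g i)) = X 0 := by
  classical
  have hcc : ∀ a : K, cc A m n (algebraMap K A a) =
      algebraMap K (MvPolynomial (Fin 2) (MvPolynomial (Fin m × Fin n) A)) a := fun a => rfl
  have h1 : aeval (dp (ee (C gr') (C (gd l)) r l) x u ξ i) (gS g i) =
      aeval (fun t => rs (cc A m n) (ee (C gr') (C (gd l)) r l t) (u (i, t))) (g i) := by
    unfold gS
    rw [aeval_rename]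
    refine congrArg (fun h => aeval h (g i)) ?_
    funext t
    simp [dp]
  have h2 : ∀ p : MvPolynomial (Fin n) K,
      aeval (fun t => PowerSeries.coeff 0
        (rs (cc A m n) (ee (C gr') (C (gd l)) r l t) (u (i, t)))) p =
      cc A m n (aeval (fun t => PowerSeries.constantCoeff (u (i, t))) p) := by
    intro p
    induction p using MvPolynomial.induction_on with
    | C a => rw [aeval_C, aeval_C, hcc]
    | add p q hp hq => rw [map_add, map_add, map_add, hp, hq]
    | mul_X p j hp =>
      rw [map_mul, map_mul, map_mul, aeval_X, aeval_X, hp, coeff_rs, pow_zero, one_mul,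
        PowerSeries.coeff_zero_eq_constantCoeff_apply]
  rw [h1]
  constructor
  · rw [coeff_zero_aeval, h2, hg, map_zero]
  · rw [coeff_one_aeval]
    have h3 : ∀ t, aeval (fun t => PowerSeries.coeff 0
        (rs (cc A m n) (ee (C gr') (C (gd l)) r l t) (u (i, t)))) (pderiv t (g i)) *
        PowerSeries.coeff 1 (rs (cc A m n) (ee (C gr') (C (gd l)) r l t) (u (i, t))) =
        ee (C gr') (C (gd l)) r l t * cc A m n (gd t) := by
      intro t
      rw [h2, coeff_rs, pow_one, hgd t, map_mul]
      ring
    rw [Finset.sum_congr rfl fun t _ => h3 t]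
    have h4 : ∑ t, ee (C gr') (C (gd l)) r l t * cc A m n (gd t) =
        C (C gr') * (X 0 - C (C (gd l)) * X 1) * cc A m n (gd r) + X 1 * cc A m n (gd l) := by
      rw [← Finset.sum_subset (Finset.subset_univ ({r, l} : Finset (Fin n))), Finset.sum_pair hrl.symm]
      · unfold ee
        rw [if_pos rfl, if_neg hrl, if_pos rfl]
      · intro t _ ht
        rw [Finset.mem_insert, Finset.mem_singleton, not_or] at ht
        unfold ee
        rw [if_neg ht.1, if_neg ht.2, zero_mul]
    rw [h4]
    have h5 : (C (C gr') : MvPolynomial (Fin 2) (MvPolynomial (Fin m × Fin n) A)) * cc A m n (gd r) = 1 := by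
      unfold cc
      rw [RingHom.comp_apply, ← map_mul, ← map_mul, hr, map_one, map_one]
    have h6 : cc A m n (gd l) = C (C (gd l)) := rfl
    rw [h6]
    linear_combination (X 0 - C (C (gd l)) * X 1) * h5

end Pool.Agent.Lib.MP_17a322_nt.VN
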