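import Pool.Agent.Lib.MP_17a322_nt.VN.BC
import Pool.Agent.Lib.MP_17a322_nt.VN.C07

/-!
Base change for the height of a centre datum.
-/

namespace Pool.Agent.Lib.MP_17a322_nt.VN

open MvPolynomial Height NumberField IsDedekindDomain Ideal
open Pool.Agent.Lib.MP_17a322_nt.RO
open Pool.Agent.Lib.MP_17a322_nt.VJ

theorem C18_nonarch {K : Type*} [Field K] [NumberField K] (v : HeightOneSpectrum (𝓞 K)) :
    IsNonarchimedean (FinitePlace.mk v).val :=
  AdmissibleAbsValues.isNonarchimedean (K := K) _ (FinitePlace.mk v).isFinitePlace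

/-- Base change, scaling only at the nonarchimedean places. -/
theorem gs_bc_na {K L : Type*} [Field K] [NumberField K] [Field L] [NumberField L] [Algebra K L]
    (φ : AbsoluteValue K ℝ → ℝ) (φ' : AbsoluteValue L ℝ → ℝ) (hφ : FS φ)
    (ha : ∀ ψ : L →+* ℂ, φ' (InfinitePlace.mk ψ).val =
      φ (InfinitePlace.mk (ψ.comp (algebraMap K L))).val)
    (hn : ∀ (v : AbsoluteValue K ℝ) (w : AbsoluteValue L ℝ) (n : ℕ), 0 < n →
      IsNonarchimedean v → IsNonarchimedean w →
      (∀ x, w (algebraMap K L x) = v x ^ n) → φ' w = n * φ v) :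
    FS φ' ∧ gs φ' = Module.finrank K L * gs φ := by
  have h1 := BC_finsum (K := K) (L := L) (fun v => φ (FinitePlace.mk v).val)
    (fun w => φ' (FinitePlace.mk w).val) ((BC_FS φ).1 hφ) (fun w => by
      have hl : w.asIdeal.LiesOver (w.under (𝓞 K)).asIdeal := ⟨rfl⟩
      refine hn _ _ _ (ldg_pos (w.under (𝓞 K)) w) (C18_nonarch _) (C18_nonarch _) fun x => ?_
      rw [BC_mk, BC_mk, BC_adic (w.under (𝓞 K)) w])
  refine ⟨(BC_FS φ').2 h1.1, ?_⟩
  rw [BC_gs, BC_gs, A7_arch φ φ' ha, h1.2]
  ring

/-- Scaling of the size of polynomials at nonarchimedean places. -/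
theorem max_NV_scale {K L : Type*} [Field K] [Field L] [Algebra K L] {v : AbsoluteValue K ℝ}
    {w : AbsoluteValue L ℝ} {n : ℕ} (hv : IsNonarchimedean v) (hw : IsNonarchimedean w)
    (h : ∀ x, w (algebraMap K L x) = v x ^ n) {σ : Type*} (F : MvPolynomial σ K) :
    max 1 (NV w (MvPolynomial.map (algebraMap K L) F)) = max 1 (NV v F) ^ n := by
  have h1 : 1 ≤ max 1 (NV v F) := le_max_left _ _
  apply le_antisymm
  · refine max_le (one_le_pow₀ h1) ?_
    have h2 := NV_le_of_coeff w (MvPolynomial.map (algebraMap K L) F)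
      (B := max 1 (NV v F) ^ n) (by positivity) (fun m => by
        rw [coeff_map, h]
        exact pow_le_pow_left₀ (v.nonneg _) ((coeff_le_NV v F m).trans (le_max_right _ _)) n)
    have h3 : cst w (MvPolynomial.map (algebraMap K L) F).support.card = 1 := by simp [cst, hw]
    rwa [h3, one_mul] at h2
  · rcases le_total (NV v F) 1 with h4 | h4
    · rw [max_eq_left h4, one_pow]
      exact le_max_left _ _
    · rw [max_eq_right h4]
      have hF : F ≠ 0 := by
        intro h0
        rw [h0, A2_zero] at h4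
        linarith
      obtain ⟨m, -, hm⟩ := exists_coeff_ge v F hF
      have h3 : cst v F.support.card = 1 := by simp [cst, hv]
      rw [h3, one_mul] at hm
      refine le_trans ?_ (le_max_right _ _)
      refine (pow_le_pow_left₀ (zero_le_one.trans h4) hm n).trans ?_
      rw [← h, ← coeff_map]
      exact coeff_le_NV w _ m

theorem RB_scale {K L : Type*} [Field K] [Field L] [Algebra K L] {v : AbsoluteValue K ℝ}
    {w : AbsoluteValue L ℝ} {m : ℕ} (hv : IsNonarchimedean v) (hw : IsNonarchimedean w)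
    (h : ∀ x, w (algebraMap K L x) = v x ^ m) {n e : ℕ} (ρ : REP K n e) :
    (ρ.map (algebraMap K L)).RB w = ρ.RB v ^ m := by
  unfold REP.RB REP.map
  simp only [max_NV_scale hv hw h, Finset.prod_pow, mul_pow]

theorem RB_arch {K L : Type*} [Field K] [Field L] [Algebra K L] (φ : L →+* ℂ) {n e : ℕ}
    (ρ : REP K n e) :
    (ρ.map (algebraMap K L)).RB (InfinitePlace.mk φ).val =
      ρ.RB (InfinitePlace.mk (φ.comp (algebraMap K L))).val := by
  unfold REP.RB REP.map
  simp only [A7_NV]

/-- Base change of the height of a centre datum. -/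
theorem ht_map {K L : Type*} [Field K] [NumberField K] [Field L] [NumberField L] [Algebra K L]
    {n e : ℕ} (ρ : REP K n e) :
    (ρ.map (algebraMap K L)).ht = Module.finrank K L * ρ.ht := by
  refine (gs_bc_na (fun v => Real.log (ρ.RB v))
    (fun w => Real.log ((ρ.map (algebraMap K L)).RB w)) (FS_log_RB ρ) (fun ψ => ?_)
    (fun v w m _ hv hw hvw => ?_)).2
  · show Real.log _ = Real.log _
    rw [RB_arch]
  · show Real.log _ = m * Real.log _
    rw [RB_scale hv hw hvw, Real.log_pow]

end Pool.Agent.Lib.MP_17a322_nt.VN
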