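import Pool.Agent.Lib.MP_17a322_nt.VN.L0
import Pool.Agent.Lib.MP_17a322_nt.VJ.A2
import Pool.Agent.Lib.MP_17a322_nt.VJ.A5

/-!
Part L-II of VN: the coefficients `cbp β M` of a polynomial `M` in two kinds of variables.

`coeff_cb`: `MvPolynomial.induction_on` / monomials; or `sumAlgEquiv`. `exists_cb_ne`: `sumAlgEquiv` is
injective. `degreeOf_cb_le`, `nh_cb_le` as `degreeOf_tp_le`, `nh_tp_le` (VJ/G11; `NV_le_of_injOn` VJ/A2,
`nh_le_of_NV_le` VJ/A5). `tr_cb`: both sides of
`sumAlgEquiv K σ τ (tr (Sum.elim 0 ξ) M) = map (tr ξ) (sumAlgEquiv K σ τ M)` are ring homomorphisms in `M`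
(`tr ξ` is `aeval ..`, a ring homomorphism), equal on constants and variables.
-/

universe u

namespace Pool.Agent.Lib.MP_17a322_nt.VN

open MvPolynomial Height
open Pool.Agent.Lib.MP_17a322_nt.RO
open Pool.Agent.Lib.MP_17a322_nt.VJ

/-- The coefficient of `X ^ β` for the variables of the first kind. -/
noncomputable def cbp {K : Type*} [CommRing K] {σ τ : Type*} (β : σ →₀ ℕ)
    (M : MvPolynomial (σ ⊕ τ) K) : MvPolynomial τ K :=
  coeff β (sumAlgEquiv K σ τ M)

theorem L2B1_monomial {K : Type*} [CommRing K] {σ τ : Type*} (u : σ →₀ ℕ) (w : τ →₀ ℕ) (a : K) :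
    sumAlgEquiv K σ τ (monomial (Finsupp.sumElim u w) a) = monomial u (monomial w a) := by
  classical
  have h1 : (monomial (Finsupp.sumElim u w) a : MvPolynomial (σ ⊕ τ) K) =
      rename Sum.inl (monomial u 1) * rename Sum.inr (monomial w a) := by
    rw [rename_monomial, rename_monomial, monomial_mul, one_mul]
    have h2 : Finsupp.sumElim u w = Finsupp.mapDomain Sum.inl u + Finsupp.mapDomain Sum.inr w := by
      ext x
      rcases x with x | x
      · rw [Finsupp.add_apply, Finsupp.mapDomain_apply Sum.inl_injective,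
          Finsupp.mapDomain_of_notMem_range, add_zero, Finsupp.sumElim_inl]
        rintro ⟨y, hy⟩
        cases hy
      · rw [Finsupp.add_apply, Finsupp.mapDomain_apply Sum.inr_injective,
          Finsupp.mapDomain_of_notMem_range, zero_add, Finsupp.sumElim_inr]
        rintro ⟨y, hy⟩
        cases hy
    rw [h2]
  have e1 : sumAlgEquiv K σ τ (rename Sum.inl (monomial u 1)) = monomial u 1 := by
    have h2 := DFunLike.congr_fun (sumAlgEquiv_comp_rename_inl (R := K) (S₁ := σ) (S₂ := τ))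
      (monomial u 1)
    have h3 : sumAlgEquiv K σ τ (rename Sum.inl (monomial u 1)) =
        MvPolynomial.mapAlgHom (Algebra.ofId K (MvPolynomial τ K)) (monomial u 1) := h2
    rw [h3, mapAlgHom_apply, map_monomial]
    have h4 : ((Algebra.ofId K (MvPolynomial τ K) : K →ₐ[K] MvPolynomial τ K) : K →+* MvPolynomial τ K) 1 = 1 :=
      map_one _
    rw [h4]
  have e2 : sumAlgEquiv K σ τ (rename Sum.inr (monomial w a)) = C (monomial w a) :=
    DFunLike.congr_fun (sumAlgEquiv_comp_rename_inr (R := K) (S₁ := σ) (S₂ := τ)) (monomial w a)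
  rw [h1, map_mul, e1, e2, mul_comm, C_mul_monomial, mul_one]

theorem L2B1_inj {σ τ : Type*} {u β : σ →₀ ℕ} {w m : τ →₀ ℕ} :
    Finsupp.sumElim u w = Finsupp.sumElim β m ↔ u = β ∧ w = m := by
  constructor
  · intro h
    constructor
    · ext x
      have := DFunLike.congr_fun h (Sum.inl x)
      rwa [Finsupp.sumElim_inl, Finsupp.sumElim_inl] at this
    · ext x
      have := DFunLike.congr_fun h (Sum.inr x)
      rwa [Finsupp.sumElim_inr, Finsupp.sumElim_inr] at this
  · rintro ⟨rfl, rfl⟩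
    rfl

theorem coeff_cb {K : Type*} [CommRing K] {σ τ : Type*} (β : σ →₀ ℕ) (m : τ →₀ ℕ)
    (M : MvPolynomial (σ ⊕ τ) K) : coeff m (cbp β M) = coeff (Finsupp.sumElim β m) M := by
  classical
  unfold cbp
  induction M using MvPolynomial.induction_on' with
  | add p q hp hq => rw [map_add, coeff_add, coeff_add, coeff_add, hp, hq]
  | monomial u a =>
    obtain ⟨⟨u1, u2⟩, rfl⟩ := Finsupp.sumFinsuppEquivProdFinsupp.symm.surjective u
    have h1 : Finsupp.sumFinsuppEquivProdFinsupp.symm (u1, u2) = Finsupp.sumElim u1 u2 := rfl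
    rw [h1, L2B1_monomial, coeff_monomial, coeff_monomial]
    by_cases h2 : u1 = β
    · rw [if_pos h2, coeff_monomial]
      by_cases h3 : u2 = m
      · rw [if_pos h3, if_pos (L2B1_inj.2 ⟨h2, h3⟩)]
      · rw [if_neg h3, if_neg (fun h => h3 (L2B1_inj.1 h).2)]
    · rw [if_neg h2, if_neg (fun h => h2 (L2B1_inj.1 h).1), coeff_zero]

theorem exists_cb_ne {K : Type*} [CommRing K] {σ τ : Type*} (M : MvPolynomial (σ ⊕ τ) K)
    (hM : M ≠ 0) : ∃ β, cbp β M ≠ 0 := by
  by_contra hc
  push Not at hc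
  apply hM
  have h1 : sumAlgEquiv K σ τ M = 0 := by
    ext β : 1
    rw [coeff_zero]
    exact hc β
  exact (map_eq_zero_iff _ (sumAlgEquiv K σ τ).injective).1 h1

theorem degreeOf_cb_le {K : Type*} [CommRing K] {σ τ : Type*} (β : σ →₀ ℕ)
    (M : MvPolynomial (σ ⊕ τ) K) (p : τ) : (cbp β M).degreeOf p ≤ M.degreeOf (Sum.inr p) := by
  rw [degreeOf_le_iff]
  intro m hm
  rw [mem_support_iff, coeff_cb, ← mem_support_iff] at hm
  have := monomial_le_degreeOf (Sum.inr p) hm
  rwa [Finsupp.sumElim_inr] at this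

theorem nh_cb_le {K : Type*} [Field K] [AdmissibleAbsValues K] {σ τ : Type*} (β : σ →₀ ℕ)
    (M : MvPolynomial (σ ⊕ τ) K) (h : cbp β M ≠ 0) : nh (cbp β M) ≤ nh M := by
  have hM : M ≠ 0 := by
    intro h0
    apply h
    unfold cbp
    rw [h0, map_zero, coeff_zero]
  have h1 := nh_le_of_NV_le hM h (le_refl 1) (fun v _ => by
    have h2 : cst v 1 = 1 := by
      unfold cst
      split_ifs
      · rfl
      · exact Nat.cast_one
    rw [h2, one_mul]
    refine NV_le_of_injOn v M (cbp β M) (fun m => Finsupp.sumElim β m) ?_ ?_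
    · intro x _ y _ hxy
      exact (L2B1_inj.1 hxy).2
    · intro m _
      exact coeff_cb β m M)
  rw [Nat.cast_one, Real.log_one, mul_zero, add_zero] at h1
  exact h1

theorem tr_cb {K : Type*} [CommRing K] {σ τ : Type*} (β : σ →₀ ℕ) (ξ : τ → K)
    (M : MvPolynomial (σ ⊕ τ) K) :
    cbp β (tr (Sum.elim (fun _ => 0) ξ) M) = tr ξ (cbp β M) := by
  let f : MvPolynomial τ K →+* MvPolynomial τ K :=
    (aeval (fun t => X t + C (ξ t)) : MvPolynomial τ K →ₐ[K] MvPolynomial τ K).toRingHom
  have hf : ∀ P, f P = tr ξ P := fun P => rfl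
  have key : sumAlgEquiv K σ τ (tr (Sum.elim (fun _ => 0) ξ) M) = map f (sumAlgEquiv K σ τ M) := by
    have h1 : ((sumAlgEquiv K σ τ : MvPolynomial (σ ⊕ τ) K →+* MvPolynomial σ (MvPolynomial τ K)).comp
        (aeval (fun t => X t + C ((Sum.elim (fun _ => 0) ξ : σ ⊕ τ → K) t)) :
          MvPolynomial (σ ⊕ τ) K →ₐ[K] MvPolynomial (σ ⊕ τ) K).toRingHom) =
        (map f).comp (sumAlgEquiv K σ τ : MvPolynomial (σ ⊕ τ) K →+* MvPolynomial σ (MvPolynomial τ K)) := by
      apply MvPolynomial.ringHom_ext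
      · intro r
        change sumAlgEquiv K σ τ (aeval _ (C r)) = map f (sumAlgEquiv K σ τ (C r))
        rw [aeval_C, sumAlgEquiv_C_inl, map_C, hf]
        have h2 : tr ξ (C r) = C r := by
          unfold tr
          rw [aeval_C]
          rfl
        rw [h2]
        exact sumAlgEquiv_C_inl K σ τ r
      · rintro (i | j)
        · change sumAlgEquiv K σ τ (aeval _ (X (Sum.inl i))) = map f (sumAlgEquiv K σ τ (X (Sum.inl i)))
          rw [aeval_X, map_add, sumAlgEquiv_X_inl, map_X, Sum.elim_inl, C_0, map_zero, add_zero]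
        · change sumAlgEquiv K σ τ (aeval _ (X (Sum.inr j))) = map f (sumAlgEquiv K σ τ (X (Sum.inr j)))
          rw [aeval_X, map_add, sumAlgEquiv_X_inr, map_C, hf, Sum.elim_inr, sumAlgEquiv_C_inl]
          have h2 : tr ξ (X j) = X j + C (ξ j) := by
            unfold tr
            rw [aeval_X]
          rw [h2, C_add]
    exact DFunLike.congr_fun h1 M
  unfold cbp
  rw [key, coeff_map, hf]

end Pool.Agent.Lib.MP_17a322_nt.VN
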