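import Pool.Agent.Lib.MP_17a322_nt.VN.L0b
import Pool.Agent.Lib.MP_17a322_nt.VJ.J8
import Pool.Agent.Lib.MP_17a322_nt.VJ.J9

/-!
# JOB L1j: paths: the implicit coordinate and the square root, with radii

PROOFS.
`sqrt_path`: let `R = ph W (vc χ (C σ + U))`; its constant coefficient is `ph W (vc χ σ) = β ^ 2` (`map_ph` for the homomorphism
`constantCoeff`). `J6_sqrt` (VJ/J6) gives `B` with `constantCoeff B = 0`, `(C β + B) ^ 2 = R`; `Y = C β + B`. Sizes: `z₀ = vn v (vc χ σ) =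
max 1 (v σ)`, `l = lc W v`, `k = kc W v`. At the radius `r₁`: `PN (C σ + U) ≤ cst v 2 * max (v σ) 1 ≤ l * z₀`, so `PN R ≤ l ^ 16 * (l * z₀) ^ 4` (`ph_size`, VJ/E2)
and `R' = R - C (β ^ 2)` has `PN v r₁ n R' ≤ l ^ 21 * z₀ ^ 4` and constant coefficient `0`. Since `v β ^ 2 ≤ l ^ 16 * z₀ ^ 4` the hypothesis on `rho` gives
`rho ≤ r₁`. If `r₁ = 0` then `rho = 0` and at radius `0` only the constant coefficient counts (or use `PN_mono_radius` and treat `t = 0`). Otherwise put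
`t = rho / r₁ ≤ 1`: `PN_scale`: `PN v rho n R' ≤ t * l ^ 21 * z₀ ^ 4 ≤ l ^ 21 * k ^ (-40) * v β ^ 2 ≤ (v (2 β) / cst v 2) ^ 2` because
`v 2 ^ 2 * k ^ 2 ≥ 1` (`|2|⁻¹ ≤ k`) and `cst v 2 ≤ l ≤ k`. `J8_sqrt` (VJ/J8) for `c = 2 β`, `C c * B + B ^ 2 = R'`:
`PN v rho n B ≤ v (2 β) / cst v 2 ≤ v β`, and `SN.add_le_cst`. The bound for `C σ + U`: `PN_mono_radius` and `PN v r₁ n U ≤ 1`.
`implicit_path`: `G = aeval (fun t => if t = r then C (σ r) + X 1 else C (σ t) + C (ζ t) * X 0) g : MvPolynomial (Fin 2) L`.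
`coeff 0 G = aeval σ g = 0`; `coeff (single 1 1) G = aeval σ (pderiv r g)` (the linear coefficient in `X 1`; prove it for all `g` by
`MvPolynomial.induction_on` or by evaluating `pderiv 1 G` at `0`: chain rule; compare `J9_coeff_single_tr` in VJ/J9a).
`J6_implicit`: `U` with `aeval ![X, U] G = 0`, which is the claimed equation (`aeval` of `aeval`). Size: `J7_size` (VJ/J7): for `r₁ ≤ (v (coeff ..) / NV v G) ^ 2`
one has `PN v r₁ n U ≤ v (coeff ..) / NV v G ≤ 1` (`J7_rho`). `NV v G ≤ NV v (map g) * ∏ t, (cst v 2 * max 1 (v (σ t))) ^ D`: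
`SN.aeval_le'` (VJ/A3) for the seminorm `NV v` (`SN_NV`), `NV v (C σ + X) ≤ cst v 2 * max 1 (v σ)`, `v (ζ t) = 1` since `ζ t ^ N = 1`.
`NV v G > 0` as `G ≠ 0`.
`explicit_size`: `PN v 1 n (C ζ * X) ≤ 1`: `PN_C_mul`, `PN_X_le`.
-/

namespace Pool.Agent.Lib.MP_17a322_nt.VN

open MvPolynomial Height
open Pool.Agent.Lib.MP_17a322_nt.RO
open Pool.Agent.Lib.MP_17a322_nt.VJ

private theorem L1j_root {L : Type*} [Field L] (v : AbsoluteValue L ℝ) (ζ : L)
    (hζ : ∃ N, 0 < N ∧ ζ ^ N = 1) : v ζ = 1 := by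
  obtain ⟨N, hN, h⟩ := hζ
  have h1 : v ζ ^ N = 1 := by rw [← map_pow, h, map_one]
  exact (pow_eq_one_iff_of_nonneg (v.nonneg ζ) hN.ne').1 h1

private theorem L1j_vn {L : Type*} [Field L] (v : AbsoluteValue L ℝ) (χ : Bool) (σ : L) :
    vn v (vc χ σ) = max 1 (v σ) := by
  cases χ
  · simp [vn, vc, max_comm]
  · simp [vn, vc]

private theorem L1j_cc {K : Type*} [Field K] (W : WeierstrassCurve K) {L : Type*} [Field L]
    [Algebra K L] (χ : Bool) (σ : L) (U : PowerSeries L)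
    (hU : PowerSeries.constantCoeff U = 0) :
    PowerSeries.constantCoeff (ph W (vc χ (PowerSeries.C σ + U))) = ph W (vc χ σ) := by
  have h2 : (PowerSeries.constantCoeff (2 : PowerSeries L) : L) = 2 := map_ofNat _ 2
  have h4 : (PowerSeries.constantCoeff (4 : PowerSeries L) : L) = 4 := map_ofNat _ 4
  cases χ <;> simp [ph, vc, hU, PowerSeries.algebraMap_apply, h2, h4]

private theorem L1j_two {L : Type*} [Field L] [CharZero L] {K : Type*} [Field K]
    (W : WeierstrassCurve K) [Algebra K L] (v : AbsoluteValue L ℝ) :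
    1 ≤ v 2 * kc W v := by
  have h2 : (2 : L) ≠ 0 := two_ne_zero
  have hv2 : 0 < v 2 := v.pos h2
  have h1 : v (2 : L)⁻¹ ≤ kc W v := by
    unfold kc
    have h3 : v (2 : L)⁻¹ ≤ max 1 (v (2 : L)⁻¹) := le_max_right _ _
    refine h3.trans ?_
    exact le_mul_of_one_le_left (zero_le_one.trans (le_max_left _ _)) (one_le_lc W v)
  rw [map_inv₀] at h1
  calc (1 : ℝ) = v 2 * (v 2)⁻¹ := (mul_inv_cancel₀ hv2.ne').symm
    _ ≤ v 2 * kc W v := mul_le_mul_of_nonneg_left h1 hv2.le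

private theorem L1j_lc_le {L : Type*} [Field L] {K : Type*} [Field K]
    (W : WeierstrassCurve K) [Algebra K L] (v : AbsoluteValue L ℝ) : lc W v ≤ kc W v := by
  unfold kc
  exact le_mul_of_one_le_right (zero_le_one.trans (one_le_lc W v)) (le_max_left _ _)

/-- The real inequality. -/
private theorem L1j_real {t l k z c a b : ℝ} (ht : 0 ≤ t) (hl : 1 ≤ l) (hlk : l ≤ k)
    (hz : 0 ≤ z) (hc : 0 < c) (hcl : c ≤ l) (ha : 0 ≤ a) (hak : 1 ≤ a * k)
    (h : t * (k ^ 40 * z) ≤ b ^ 2) : t * (l ^ 21 * z) ≤ (a * b / c) ^ 2 := by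
  have hk : 1 ≤ k := hl.trans hlk
  have hk0 : 0 ≤ k := zero_le_one.trans hk
  rw [div_pow, le_div_iff₀ (pow_pos hc 2)]
  have h1 : l ^ 21 * c ^ 2 ≤ k ^ 21 * k ^ 2 :=
    mul_le_mul (pow_le_pow_left₀ (zero_le_one.trans hl) hlk 21)
      (pow_le_pow_left₀ hc.le (hcl.trans hlk) 2) (pow_nonneg hc.le 2) (pow_nonneg hk0 21)
  have h2 : (1 : ℝ) ≤ (a * k) ^ 2 := one_le_pow₀ hak
  have h3 : k ^ 23 ≤ k ^ 38 := pow_le_pow_right₀ hk (by norm_num)
  have htz : 0 ≤ t * z := mul_nonneg ht hz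
  calc t * (l ^ 21 * z) * c ^ 2 = (t * z) * (l ^ 21 * c ^ 2) := by ring
    _ ≤ (t * z) * (k ^ 21 * k ^ 2) := mul_le_mul_of_nonneg_left h1 htz
    _ = (t * z) * k ^ 23 := by ring
    _ ≤ (t * z) * k ^ 38 := mul_le_mul_of_nonneg_left h3 htz
    _ = ((t * z) * k ^ 38) * 1 := (mul_one _).symm
    _ ≤ ((t * z) * k ^ 38) * (a * k) ^ 2 :=
        mul_le_mul_of_nonneg_left h2 (mul_nonneg htz (pow_nonneg hk0 38))
    _ = a ^ 2 * (t * (k ^ 40 * z)) := by ring
    _ ≤ a ^ 2 * b ^ 2 := mul_le_mul_of_nonneg_left h (pow_nonneg ha 2)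
    _ = (a * b) ^ 2 := by ring

theorem sqrt_path {K : Type*} [Field K] (W : WeierstrassCurve K) {L : Type*} [Field L]
    [CharZero L] [Algebra K L] (χ : Bool) (σ β : L) (hβ : β ^ 2 = ph W (vc χ σ)) (hβ0 : β ≠ 0)
    (U : PowerSeries L) (hU : PowerSeries.constantCoeff U = 0) :
    ∃ Y : PowerSeries L, PowerSeries.constantCoeff Y = β ∧
      Y ^ 2 = ph W (vc χ (PowerSeries.C σ + U)) ∧
      ∀ (v : AbsoluteValue L ℝ) (r₁ : ℝ), 0 ≤ r₁ → (∀ n, PN v r₁ n U ≤ 1) →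
        ∀ rho : ℝ, 0 ≤ rho →
          rho * (kc W v ^ 40 * vn v (vc χ σ) ^ 4) ≤ r₁ * v β ^ 2 →
          (∀ n, PN v rho n (PowerSeries.C σ + U) ≤ cst v 2 * max 1 (v σ)) ∧
          ∀ n, PN v rho n Y ≤ cst v 2 * v β := by
  have h2 : 2 * β ≠ 0 := mul_ne_zero two_ne_zero hβ0
  have hconst : PowerSeries.constantCoeff (ph W (vc χ (PowerSeries.C σ + U))) = β ^ 2 := by
    rw [L1j_cc W χ σ U hU, hβ]
  obtain ⟨B, hB, hB2⟩ := J6_sqrt (ph W (vc χ (PowerSeries.C σ + U))) β hconst h2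
  refine ⟨PowerSeries.C β + B, ?_, hB2, ?_⟩
  · rw [map_add, PowerSeries.constantCoeff_C, hB, add_zero]
  intro v r₁ hr₁ hU1 rho hrho hle
  rw [L1j_vn] at hle
  set z : ℝ := max 1 (v σ) with hz
  set l : ℝ := lc W v with hl
  set k : ℝ := kc W v with hk
  have hz1 : 1 ≤ z := le_max_left _ _
  have hz0 : 0 ≤ z := zero_le_one.trans hz1
  have hl1 : 1 ≤ l := one_le_lc W v
  have hl0 : 0 ≤ l := zero_le_one.trans hl1
  have hlk : l ≤ k := L1j_lc_le W v
  have hk1 : 1 ≤ k := hl1.trans hlk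
  have hcst : 1 ≤ cst v 2 := one_le_cst v (by norm_num)
  have hcst0 : 0 < cst v 2 := lt_of_lt_of_le one_pos hcst
  have hcl : cst v 2 ≤ l := cst_two_le_lc W v
  have hS : ∀ n, PN v r₁ n (PowerSeries.C σ + U) ≤ cst v 2 * z := by
    intro n
    refine SN.add_le_cst (SN_PN v hr₁ n) ?_ ((hU1 n).trans hz1)
    show PN v r₁ n (PowerSeries.C σ) ≤ z
    rw [PN_C]
    exact le_max_right _ _
  have hlz : 1 ≤ l * z := one_le_mul_of_one_le_of_one_le hl1 hz1
  have hR : ∀ n, PN v r₁ n (ph W (vc χ (PowerSeries.C σ + U))) ≤ l ^ 20 * z ^ 4 := by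
    intro n
    have hvc : ∀ i, PN v r₁ n (vc χ (PowerSeries.C σ + U) i) ≤ l * z := by
      have e1 : PN v r₁ n (PowerSeries.C σ + U) ≤ l * z :=
        (hS n).trans (mul_le_mul_of_nonneg_right hcl hz0)
      have e2 : PN v r₁ n (1 : PowerSeries L) ≤ l * z := ((SN_PN v hr₁ n).one_le).trans hlz
      intro i
      unfold vc
      cases χ
      · fin_cases i
        · exact e1
        · exact e2
      · fin_cases i
        · exact e2
        · exact e1
    have h3 := ph_size W (SN_PN v hr₁ n) (vc χ (PowerSeries.C σ + U)) hvc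
    have h4 : l ^ 16 * (l * z) ^ 4 = l ^ 20 * z ^ 4 := by ring
    rw [← h4]
    exact h3
  have hβle : v β ^ 2 ≤ l ^ 20 * z ^ 4 := by
    have h3 := hR 0
    rw [PN_zero, hconst, map_pow] at h3
    exact h3
  set R' : PowerSeries L := ph W (vc χ (PowerSeries.C σ + U)) - PowerSeries.C (β ^ 2) with hR'
  have hR'c : PowerSeries.constantCoeff R' = 0 := by
    rw [hR', map_sub, hconst, PowerSeries.constantCoeff_C, sub_self]
  have hR'1 : ∀ n, PN v r₁ n R' ≤ l ^ 21 * z ^ 4 := by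
    intro n
    have h3 : PN v r₁ n (PowerSeries.C (β ^ 2)) ≤ l ^ 20 * z ^ 4 := by
      rw [PN_C, map_pow]
      exact hβle
    have h4 : PN v r₁ n R' ≤ cst v 2 * (l ^ 20 * z ^ 4) :=
      SN.sub_le_cst (SN_PN v hr₁ n) (hR n) h3
    refine h4.trans ?_
    calc cst v 2 * (l ^ 20 * z ^ 4) ≤ l * (l ^ 20 * z ^ 4) :=
          mul_le_mul_of_nonneg_right hcl (mul_nonneg (pow_nonneg hl0 _) (pow_nonneg hz0 _))
      _ = l ^ 21 * z ^ 4 := by ring
  have hz4 : 0 < z ^ 4 := pow_pos (lt_of_lt_of_le one_pos hz1) 4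
  have hrr : rho ≤ r₁ := by
    have hk40 : 0 < k ^ 40 * z ^ 4 := mul_pos (pow_pos (lt_of_lt_of_le one_pos hk1) _) hz4
    refine le_of_mul_le_mul_right (hle.trans ?_) hk40
    refine mul_le_mul_of_nonneg_left (hβle.trans ?_) hr₁
    refine mul_le_mul_of_nonneg_right ?_ hz4.le
    exact (pow_le_pow_left₀ hl0 hlk 20).trans (pow_le_pow_right₀ hk1 (by norm_num))
  obtain ⟨t, ht0, ht1, htr, hth⟩ : ∃ t : ℝ, 0 ≤ t ∧ t ≤ 1 ∧ rho = t * r₁ ∧
      t * (k ^ 40 * z ^ 4) ≤ v β ^ 2 := by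
    rcases hr₁.eq_or_lt with h0 | h0
    · refine ⟨0, le_rfl, zero_le_one, ?_, ?_⟩
      · rw [zero_mul]
        exact le_antisymm (hrr.trans h0.ge) hrho
      · rw [zero_mul]
        exact pow_nonneg (v.nonneg _) 2
    · refine ⟨rho / r₁, div_nonneg hrho hr₁, (div_le_one h0).2 hrr, ?_, ?_⟩
      · rw [div_mul_cancel₀ _ h0.ne']
      · rw [div_mul_eq_mul_div, div_le_iff₀ h0, mul_comm (v β ^ 2) r₁]
        exact hle
  have hRr : ∀ n, PN v rho n R' ≤ (v (2 * β) / cst v 2) ^ 2 := by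
    intro n
    rw [htr]
    refine (PN_scale v hr₁ ht0 ht1 n R' hR'c).trans ?_
    refine (mul_le_mul_of_nonneg_left (hR'1 n) ht0).trans ?_
    rw [map_mul]
    exact L1j_real ht0 hl1 hlk hz4.le hcst0 hcl (v.nonneg _) (L1j_two W v) hth
  refine ⟨fun n => (PN_mono_radius v hrho hrr n _).trans (hS n), fun n => ?_⟩
  have hBR : PowerSeries.C (2 * β) * B + B ^ 2 = R' := by
    rw [hR', ← hB2, map_mul, map_pow, map_ofNat]
    ring
  have h3 := J8_sqrt v B R' (2 * β) h2 hB hBR hrho hRr n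
  have h4 : v (2 * β) / cst v 2 ≤ v β := by
    rw [div_le_iff₀ hcst0, map_mul, mul_comm]
    apply mul_le_mul_of_nonneg_left _ (v.nonneg _)
    simpa using J8_natCast_le v 2
  exact SN.add_le_cst (SN_PN v hrho n) (PN_C v n β).le (h3.trans h4)

/-- The substitution. -/
private noncomputable def L1j_phi {L : Type*} [Field L] {n : ℕ} (r : Fin n) (σ ζ : Fin n → L)
    (t : Fin n) : MvPolynomial (Fin 2) L :=
  if t = r then C (σ r) + X 1 else C (σ t) + C (ζ t) * X 0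

private theorem L1j_coeff0 {K : Type*} [Field K] {L : Type*} [Field L] [Algebra K L] {n : ℕ}
    (g : MvPolynomial (Fin n) K) (r : Fin n) (σ ζ : Fin n → L) :
    coeff 0 (aeval (L1j_phi r σ ζ) g) = aeval σ g := by
  induction g using MvPolynomial.induction_on with
  | C a =>
    rw [algHom_C, algHom_C, IsScalarTower.algebraMap_apply K L (MvPolynomial (Fin 2) L),
      algebraMap_eq, coeff_C, if_pos rfl]
  | add p q hp hq => rw [map_add, map_add, coeff_add, hp, hq]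
  | mul_X p j hp =>
    rw [map_mul, map_mul, aeval_X, aeval_X, ← constantCoeff_eq, map_mul, constantCoeff_eq, hp]
    congr 1
    unfold L1j_phi
    split_ifs with h
    · rw [h]
      simp
    · simp

private theorem L1j_coeff1 {K : Type*} [Field K] {L : Type*} [Field L] [Algebra K L] {n : ℕ}
    (g : MvPolynomial (Fin n) K) (r : Fin n) (σ ζ : Fin n → L) :
    coeff (Finsupp.single 1 1) (aeval (L1j_phi r σ ζ) g) = aeval σ (pderiv r g) := by
  induction g using MvPolynomial.induction_on with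
  | C a =>
    rw [algHom_C, IsScalarTower.algebraMap_apply K L (MvPolynomial (Fin 2) L),
      algebraMap_eq, pderiv_C, map_zero, coeff_C, if_neg]
    intro h
    have := DFunLike.congr_fun h (1 : Fin 2)
    simp at this
  | add p q hp hq => rw [map_add, map_add, map_add, coeff_add, hp, hq]
  | mul_X p j hp =>
    rw [map_mul, aeval_X, pderiv_mul, map_add, map_mul, map_mul, aeval_X]
    by_cases h : j = r
    · rw [h, pderiv_X_self, map_one, mul_one]
      have e1 : L1j_phi r σ ζ r = C (σ r) + X 1 := by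
        unfold L1j_phi
        rw [if_pos rfl]
      have e2 : (Finsupp.single 1 1 : Fin 2 →₀ ℕ) = 0 + Finsupp.single 1 1 := by rw [zero_add]
      rw [e1, mul_add, coeff_add, mul_comm _ (C (σ r)), coeff_C_mul, hp, e2, coeff_mul_X,
        L1j_coeff0, mul_comm]
    · rw [pderiv_X_of_ne h, map_zero, mul_zero, add_zero]
      have e1 : L1j_phi r σ ζ j = C (σ j) + C (ζ j) * X 0 := by
        unfold L1j_phi
        rw [if_neg h]
      rw [e1, mul_add, coeff_add, mul_comm _ (C (σ j)), coeff_C_mul, hp, mul_comm (C (ζ j)) (X 0),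
        ← mul_assoc, mul_comm _ (C (ζ j)), coeff_C_mul, coeff_mul_X', if_neg, mul_zero, add_zero,
        mul_comm]
      simp

private theorem L1j_subst {K : Type*} [Field K] {L : Type*} [Field L] [Algebra K L] {n : ℕ}
    (g : MvPolynomial (Fin n) K) (r : Fin n) (σ ζ : Fin n → L) (U : PowerSeries L) :
    aeval (fun t => if t = r then PowerSeries.C (σ r) + U
        else PowerSeries.C (σ t) + PowerSeries.C (ζ t) * PowerSeries.X) g =
      aeval ![PowerSeries.X, U] (aeval (L1j_phi r σ ζ) g) := by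
  induction g using MvPolynomial.induction_on with
  | C a =>
    rw [algHom_C, algHom_C, IsScalarTower.algebraMap_apply K L (MvPolynomial (Fin 2) L),
      algebraMap_eq, algHom_C, IsScalarTower.algebraMap_apply K L (PowerSeries L)]
  | add p q hp hq => rw [map_add, map_add, map_add, hp, hq]
  | mul_X p j hp =>
    rw [map_mul, map_mul, map_mul, hp, aeval_X, aeval_X]
    congr 1
    unfold L1j_phi
    split_ifs with h
    · rw [map_add, algHom_C, aeval_X]
      rfl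
    · rw [map_add, map_mul, algHom_C, algHom_C, aeval_X]
      rfl

private theorem L1j_NV {K : Type*} [Field K] {L : Type*} [Field L] [Algebra K L] {n : ℕ}
    (g : MvPolynomial (Fin n) K) (D : ℕ) (hD : ∀ t, g.degreeOf t ≤ D) (r : Fin n)
    (σ ζ : Fin n → L) (hζ : ∀ t, ∃ N, 0 < N ∧ ζ t ^ N = 1) (v : AbsoluteValue L ℝ) :
    NV v (aeval (L1j_phi r σ ζ) g) ≤ NV v (MvPolynomial.map (algebraMap K L) g) *
      ∏ t, (cst v 2 * max 1 (v (σ t))) ^ D := by
  have hS := SN_NV (L := L) v (σ := Fin 2)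
  refine (SN.aeval_le' hS g (fun _ => D) hD (L1j_phi r σ ζ)).trans ?_
  refine mul_le_mul_of_nonneg_left ?_ (A2_nonneg v _)
  have hcst : 1 ≤ cst v 2 := one_le_cst v (by norm_num)
  refine Finset.prod_le_prod (fun t _ => pow_nonneg (zero_le_one.trans (le_max_left _ _)) _)
    fun t _ => pow_le_pow_left₀ (zero_le_one.trans (le_max_left _ _)) ?_ _
  refine max_le (one_le_mul_of_one_le_of_one_le hcst (le_max_left _ _)) ?_
  have hC : ∀ a : L, NV v (C a : MvPolynomial (Fin 2) L) ≤ max 1 (v a) := fun a => by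
    rw [NV_C]
    exact le_max_right _ _
  unfold L1j_phi
  split_ifs with h
  · rw [h]
    refine SN.add_le_cst hS (hC _) ?_
    show NV v (X 1 : MvPolynomial (Fin 2) L) ≤ _
    rw [NV_X]
    exact le_max_left _ _
  · refine SN.add_le_cst hS (hC _) ?_
    show NV v (C (ζ t) * X 0 : MvPolynomial (Fin 2) L) ≤ _
    rw [NV_C_mul, NV_X, L1j_root v _ (hζ t), one_mul]
    exact le_max_left _ _

theorem implicit_path {K : Type*} [Field K] {L : Type*} [Field L] [Algebra K L] {n : ℕ}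
    (g : MvPolynomial (Fin n) K) (D : ℕ) (hD : ∀ t, g.degreeOf t ≤ D) (r : Fin n)
    (σ ζ : Fin n → L) (hζ : ∀ t, ∃ N, 0 < N ∧ ζ t ^ N = 1) (hg : aeval σ g = 0)
    (hr : aeval σ (pderiv r g) ≠ 0) :
    ∃ U : PowerSeries L, PowerSeries.constantCoeff U = 0 ∧
      aeval (fun t => if t = r then PowerSeries.C (σ r) + U
        else PowerSeries.C (σ t) + PowerSeries.C (ζ t) * PowerSeries.X) g = 0 ∧
      ∀ (v : AbsoluteValue L ℝ) (r₁ : ℝ), 0 ≤ r₁ →
        r₁ * (NV v (MvPolynomial.map (algebraMap K L) g) *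
          ∏ t, (cst v 2 * max 1 (v (σ t))) ^ D) ^ 2 ≤ v (aeval σ (pderiv r g)) ^ 2 →
        ∀ n, PN v r₁ n U ≤ 1 := by
  have h0 : coeff 0 (aeval (L1j_phi r σ ζ) g) = 0 := by rw [L1j_coeff0, hg]
  have h1 : coeff (Finsupp.single 1 1) (aeval (L1j_phi r σ ζ) g) ≠ 0 := by
    rw [L1j_coeff1]
    exact hr
  obtain ⟨U, hU, hGU⟩ := J6_implicit _ h0 h1
  refine ⟨U, hU, ?_, ?_⟩
  · rw [L1j_subst]
    exact hGU
  intro v r₁ hr₁ hle m
  have hG : aeval (L1j_phi r σ ζ) g ≠ 0 := by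
    intro h
    rw [h, coeff_zero] at h1
    exact h1 rfl
  have hN : 0 < NV v (aeval (L1j_phi r σ ζ) g) := NV_pos v hG
  have hNV := L1j_NV g D hD r σ ζ hζ v
  have hle2 : r₁ ≤ (v (coeff (Finsupp.single 1 1) (aeval (L1j_phi r σ ζ) g)) /
      NV v (aeval (L1j_phi r σ ζ) g)) ^ 2 := by
    rw [div_pow, le_div_iff₀ (pow_pos hN 2), L1j_coeff1]
    refine le_trans (mul_le_mul_of_nonneg_left ?_ hr₁) hle
    exact pow_le_pow_left₀ hN.le hNV 2
  exact (J7_size v _ h0 h1 U hU hGU hr₁ hle2 m).trans (J7_rho v _ h1).2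

theorem explicit_size {L : Type*} [Field L] (v : AbsoluteValue L ℝ) (ζ : L)
    (hζ : ∃ N, 0 < N ∧ ζ ^ N = 1) (n : ℕ) :
    PN v 1 n (PowerSeries.C ζ * PowerSeries.X) ≤ 1 := by
  rw [PN_C_mul v zero_le_one, L1j_root v ζ hζ, one_mul]
  exact PN_X_le v zero_le_one n

end Pool.Agent.Lib.MP_17a322_nt.VN
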