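import Pool.Agent.Lib.MP_17a322_nt.VN.L0

/-!
Part L-II of VN, definitions for the chain in stage 2 (II.4).

Fix a block `i`, `B = MvPolynomial (Fin m × Fin n) A`, `D = MvPolynomial (Fin 2) B`. `rs φ e` applies `φ` to
the coefficients of a power series and substitutes `e z` for `z`. `ee gr' gl r l t` is the parameter of the
deformation in the direction `t`: `gr' (X 0 - gl X 1)` for `t = r`, `X 1` for `t = l`, `0` otherwise
(`gr'` is the inverse of `gr`). `dp` is the deformed point, `Psi` its part `B → D[[z]]`.
-/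

universe u

namespace Pool.Agent.Lib.MP_17a322_nt.VN

open MvPolynomial Height
open Pool.Agent.Lib.MP_17a322_nt.RO
open Pool.Agent.Lib.MP_17a322_nt.VJ

theorem aeval_congr_of_degreeOf {R σ : Type*} [CommRing R] {S : Type*} [CommRing S] [Algebra R S]
    (F : MvPolynomial σ R) (s s' : σ → S) (h : ∀ t, F.degreeOf t ≠ 0 → s t = s' t) :
    aeval s F = aeval s' F := by
  classical
  refine eval₂Hom_congr' rfl (fun t ht _ => h t fun h0 => ?_) rfl
  obtain ⟨m, hm, hmt⟩ := (mem_vars t).1 ht
  have h1 : m t ≤ F.degreeOf t := monomial_le_degreeOf t hm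
  rw [h0] at h1
  exact (Finsupp.mem_support_iff.1 hmt) (Nat.le_zero.1 h1)

/-- Substitution of `e z` for `z`, after `φ` on the coefficients. -/
noncomputable def rs {A D : Type*} [CommRing A] [CommRing D] (φ : A →+* D) (e : D) :
    PowerSeries A →+* PowerSeries D :=
  (PowerSeries.rescale e).comp (PowerSeries.map φ)

theorem coeff_rs {A D : Type*} [CommRing A] [CommRing D] (φ : A →+* D) (e : D) (k : ℕ)
    (f : PowerSeries A) : PowerSeries.coeff k (rs φ e f) = e ^ k * φ (PowerSeries.coeff k f) := by
  rw [rs, RingHom.comp_apply, PowerSeries.coeff_rescale, PowerSeries.coeff_map]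

/-- The parameter of the deformation in the direction `t`. -/
noncomputable def ee {B : Type*} [CommRing B] {n : ℕ} (gr' gl : B) (r l t : Fin n) :
    MvPolynomial (Fin 2) B :=
  if t = r then C gr' * (X 0 - C gl * X 1) else if t = l then X 1 else 0

/-- The inclusion of the constants. -/
noncomputable def cc (A : Type*) [CommRing A] (m n : ℕ) :
    A →+* MvPolynomial (Fin 2) (MvPolynomial (Fin m × Fin n) A) :=
  (C : MvPolynomial (Fin m × Fin n) A →+* _).comp C

/-- The homomorphism `Ψ` for the block `i`. -/
noncomputable def Psi {A : Type*} [CommRing A] {m n : ℕ} (e : Fin n →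
    MvPolynomial (Fin 2) (MvPolynomial (Fin m × Fin n) A)) (ξ : Fin m × Fin n → PowerSeries A)
    (i : Fin m) : MvPolynomial (Fin m × Fin n) A →+*
      PowerSeries (MvPolynomial (Fin 2) (MvPolynomial (Fin m × Fin n) A)) :=
  eval₂Hom (PowerSeries.C.comp (cc A m n)) fun p =>
    if p.1 = i then rs (cc A m n) (e p.2) (ξ p) else PowerSeries.C (C (X p))

/-- The deformed point. -/
noncomputable def dp {A : Type*} [CommRing A] {m n : ℕ} (e : Fin n →
    MvPolynomial (Fin 2) (MvPolynomial (Fin m × Fin n) A)) (x : Fin n → A)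
    (u ξ : Fin m × Fin n → PowerSeries A) (i : Fin m) :
    VL m n → PowerSeries (MvPolynomial (Fin 2) (MvPolynomial (Fin m × Fin n) A)) :=
  Sum.elim (fun t => PowerSeries.C (cc A m n (x t)))
    (Sum.elim (fun p => if p.1 = i then rs (cc A m n) (e p.2) (u p) else
        PowerSeries.C (cc A m n (PowerSeries.constantCoeff (u p))))
      fun p => if p.1 = i then rs (cc A m n) (e p.2) (ξ p) else PowerSeries.C (C (X p)))

end Pool.Agent.Lib.MP_17a322_nt.VN
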