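import Pool.Agent.Lib.MP_17a322_nt.VN.L2B1

/-!
Part L-II of VN: the coefficients of `P(X T ^ w)` and of `M(X, σ + Z T ^ w)` in `T`.

`coeff_wT`: both sides are additive in `P`; for `P = monomial s c` the series is
`PowerSeries.C (monomial s c) * PowerSeries.X ^ (Finsupp.weight w s)` (`aeval_monomial`,
`Finsupp.weight_apply`, `Finsupp.prod_pow`-type computation, or induction `MvPolynomial.induction_on''`).

`gen_ne_zero`: the series is `aeval (fun y => C (X y) * X ^ w' y) (tr (Sum.elim 0 σ) M)` with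
`w' = Sum.elim 0 w` (`tr ξ F = aeval (fun t => X t + C (ξ t)) F`; two algebra homomorphisms in `M` equal on
the variables); by `coeff_wT` its coefficient of `T ^ weight w m₀` has at `Finsupp.sumElim β m₀`, whose weight
is `weight w m₀`, the coefficient `coeff (Finsupp.sumElim β m₀) (tr (Sum.elim 0 σ) M)
= coeff m₀ (cbp β (tr ..)) = coeff m₀ (tr σ (cbp β M)) ≠ 0` (`coeff_cb`, `tr_cb`).
-/

universe u

namespace Pool.Agent.Lib.MP_17a322_nt.VN

open MvPolynomial Height
open Pool.Agent.Lib.MP_17a322_nt.RO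
open Pool.Agent.Lib.MP_17a322_nt.VJ

theorem L2B2_wT_monomial {K : Type*} [Field K] {ι : Type*} (w : ι → ℕ) (s : ι →₀ ℕ) (c : K) :
    aeval (fun y =>
      (PowerSeries.C (X y) * PowerSeries.X ^ w y : PowerSeries (MvPolynomial ι K)))
        (monomial s c) =
      PowerSeries.C (monomial s c) * PowerSeries.X ^ Finsupp.weight w s := by
  rw [aeval_monomial]
  have h1 : (s.prod fun y k =>
      (PowerSeries.C (X y) * PowerSeries.X ^ w y : PowerSeries (MvPolynomial ι K)) ^ k) =
      PowerSeries.C (s.prod fun y k => (X y : MvPolynomial ι K) ^ k) *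
        PowerSeries.X ^ Finsupp.weight w s := by
    rw [Finsupp.weight_apply]
    unfold Finsupp.prod Finsupp.sum
    rw [map_prod, ← Finset.prod_pow_eq_pow_sum, ← Finset.prod_mul_distrib]
    apply Finset.prod_congr rfl
    intro y _
    beta_reduce
    rw [mul_pow, ← pow_mul, map_pow, smul_eq_mul, mul_comm (w y) (s y)]
  rw [h1, PowerSeries.algebraMap_apply, ← mul_assoc, ← map_mul]
  have h2 : (algebraMap K (MvPolynomial ι K)) c * (s.prod fun y k => (X y : MvPolynomial ι K) ^ k) =
      monomial s c := by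
    rw [MvPolynomial.algebraMap_eq, MvPolynomial.monomial_eq]
  rw [h2]

theorem coeff_wT {K : Type*} [Field K] {ι : Type*} (w : ι → ℕ) (P : MvPolynomial ι K) (a : ℕ)
    (e : ι →₀ ℕ) :
    coeff e (PowerSeries.coeff a (aeval (fun y =>
      (PowerSeries.C (X y) * PowerSeries.X ^ w y : PowerSeries (MvPolynomial ι K))) P)) =
      if Finsupp.weight w e = a then coeff e P else 0 := by
  classical
  induction P using MvPolynomial.induction_on' with
  | monomial s c =>
    rw [L2B2_wT_monomial, PowerSeries.coeff_C_mul_X_pow]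
    by_cases hse : s = e
    · subst hse
      by_cases ha : a = Finsupp.weight w s
      · rw [if_pos ha, if_pos ha.symm]
      · rw [if_neg ha, if_neg (fun h => ha h.symm), coeff_zero]
    · have h0 : coeff e (monomial s c) = 0 := by
        rw [coeff_monomial, if_neg hse]
      by_cases ha : a = Finsupp.weight w s
      · rw [if_pos ha, h0, ite_self]
      · rw [if_neg ha, h0, coeff_zero, ite_self]
  | add p q hp hq =>
    rw [map_add, map_add, coeff_add, hp, hq, coeff_add]
    by_cases ha : Finsupp.weight w e = a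
    · rw [if_pos ha, if_pos ha, if_pos ha]
    · rw [if_neg ha, if_neg ha, if_neg ha, add_zero]

/-- The series `M(X, σ + Z T ^ w)`. -/
noncomputable def gen {K : Type*} [Field K] {κ ι : Type*} (w : ι → ℕ) (σ : ι → K)
    (M : MvPolynomial (κ ⊕ ι) K) : PowerSeries (MvPolynomial (κ ⊕ ι) K) :=
  aeval (Sum.elim (fun t => PowerSeries.C (X (Sum.inl t))) fun p =>
    PowerSeries.C (C (σ p)) + PowerSeries.C (X (Sum.inr p)) * PowerSeries.X ^ w p) M

theorem L2B2_weight {κ ι : Type*} (w : ι → ℕ) (β : κ →₀ ℕ) (m₀ : ι →₀ ℕ) :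
    Finsupp.weight (Sum.elim (fun _ => 0) w) (Finsupp.sumElim β m₀) = Finsupp.weight w m₀ := by
  rw [Finsupp.weight_apply, Finsupp.weight_apply, Finsupp.sum_sumElim]
  have h : (β.sum ((fun (i : κ ⊕ ι) (c : ℕ) => c • (Sum.elim (fun _ => 0) w i : ℕ)) ∘ Sum.inl)) =
      0 := by
    unfold Finsupp.sum
    apply Finset.sum_eq_zero
    intro i _
    show β i • (0 : ℕ) = 0
    rw [smul_zero]
  rw [h, zero_add]
  rfl

theorem L2B2_gen {K : Type*} [Field K] {κ ι : Type*} (w : ι → ℕ) (σ : ι → K)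
    (M : MvPolynomial (κ ⊕ ι) K) :
    gen w σ M = aeval (fun y => (PowerSeries.C (X y) *
      PowerSeries.X ^ (Sum.elim (fun _ => 0) w y : ℕ) : PowerSeries (MvPolynomial (κ ⊕ ι) K)))
        (tr (Sum.elim (fun _ => 0) σ) M) := by
  unfold gen tr
  rw [MvPolynomial.comp_aeval_apply]
  have h : (Sum.elim (fun t => PowerSeries.C (X (Sum.inl t))) fun p =>
      PowerSeries.C (C (σ p)) + PowerSeries.C (X (Sum.inr p)) * PowerSeries.X ^ w p :
        κ ⊕ ι → PowerSeries (MvPolynomial (κ ⊕ ι) K)) =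
      fun i => aeval (fun y => (PowerSeries.C (X y) *
        PowerSeries.X ^ (Sum.elim (fun _ => 0) w y : ℕ) : PowerSeries (MvPolynomial (κ ⊕ ι) K)))
        (X i + C ((Sum.elim (fun _ => 0) σ : κ ⊕ ι → K) i)) := by
    funext i
    rw [map_add, aeval_X, aeval_C, PowerSeries.algebraMap_apply, MvPolynomial.algebraMap_eq]
    rcases i with t | p
    · rw [Sum.elim_inl, Sum.elim_inl, Sum.elim_inl, pow_zero, mul_one, map_zero, map_zero,
        add_zero]
    · rw [Sum.elim_inr, Sum.elim_inr, Sum.elim_inr, add_comm]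
  rw [h]

theorem gen_ne_zero {K : Type*} [Field K] {κ ι : Type*} (w : ι → ℕ) (σ : ι → K)
    (M : MvPolynomial (κ ⊕ ι) K) (β : κ →₀ ℕ) (m₀ : ι →₀ ℕ)
    (h : coeff m₀ (tr σ (cbp β M)) ≠ 0) :
    PowerSeries.coeff (Finsupp.weight w m₀) (gen w σ M) ≠ 0 := by
  intro h0
  apply h
  have h1 := congrArg (coeff (Finsupp.sumElim β m₀)) h0
  rw [L2B2_gen, coeff_wT, if_pos (L2B2_weight w β m₀), coeff_zero, ← coeff_cb, tr_cb] at h1
  exact h1

/-- Specialisation: `PowerSeries.map (aeval (Sum.elim x ζ))` of `gen w σ M` (algebra homomorphisms in `M`,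
equal on the variables). -/
theorem map_gen {K : Type*} [Field K] {κ ι : Type*} (w : ι → ℕ) (σ : ι → K)
    (M : MvPolynomial (κ ⊕ ι) K) {L : Type*} [Field L] [Algebra K L] (x : κ → L) (ζ : ι → L)
    (a : ℕ) :
    aeval (Sum.elim x ζ) (PowerSeries.coeff a (gen w σ M)) =
      PowerSeries.coeff a (aeval (Sum.elim (fun t => PowerSeries.C (x t)) fun p =>
        PowerSeries.C (algebraMap K L (σ p)) + PowerSeries.C (ζ p) * PowerSeries.X ^ w p) M) := by
  have h1 : PowerSeries.mapAlgHom (aeval (Sum.elim x ζ) : MvPolynomial (κ ⊕ ι) K →ₐ[K] L)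
      (gen w σ M) = aeval (Sum.elim (fun t => PowerSeries.C (x t)) fun p =>
        PowerSeries.C (algebraMap K L (σ p)) + PowerSeries.C (ζ p) * PowerSeries.X ^ w p) M := by
    unfold gen
    rw [MvPolynomial.comp_aeval_apply]
    have h : (fun i => PowerSeries.mapAlgHom
        (aeval (Sum.elim x ζ) : MvPolynomial (κ ⊕ ι) K →ₐ[K] L)
        ((Sum.elim (fun t => PowerSeries.C (X (Sum.inl t))) fun p =>
          PowerSeries.C (C (σ p)) + PowerSeries.C (X (Sum.inr p)) * PowerSeries.X ^ w p :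
            κ ⊕ ι → PowerSeries (MvPolynomial (κ ⊕ ι) K)) i)) =
        Sum.elim (fun t => PowerSeries.C (x t)) fun p =>
          PowerSeries.C (algebraMap K L (σ p)) + PowerSeries.C (ζ p) * PowerSeries.X ^ w p := by
      funext i
      rw [PowerSeries.mapAlgHom_apply]
      rcases i with t | p
      · rw [Sum.elim_inl, Sum.elim_inl, PowerSeries.map_C]
        simp
      · rw [Sum.elim_inr, Sum.elim_inr, map_add, map_mul, map_pow, PowerSeries.map_C,
          PowerSeries.map_C, PowerSeries.map_X]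
        simp
    rw [h]
  rw [← h1, PowerSeries.mapAlgHom_apply, PowerSeries.coeff_map]
  rfl

end Pool.Agent.Lib.MP_17a322_nt.VN
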