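import Pool.Agent.Lib.MP_17a322_nt.VN.L1c

/-!
# JOB L1d: power series in two variables: scaling of the radii and inverses

Here `f : PowerSeries (PowerSeries L)` (inner variable `T`, radius `r`, outer variable `z`, radius
`κ`), seminorm `PA v (PN v r n) κ n'`; `SN_PN` (VJ/J5) and `SN_PA` (L1c).

PROOFS. `PA2_scale`: the term for `z ^ k`: `PN v (lam * r) n (coeff k f) * (lam * κ) ^ k`. For `k ≥ 1` use
`PN_mono_radius` (`lam * r ≤ r`) and `lam ^ k ≤ lam`; for `k = 0` the constant coefficient in `T` is zero and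
`PN_scale` (VJ/J5) gives the factor `lam`. Then `PA_le_mul` with `c = lam`.
`PA2_sub_const`: the coefficients of `f - C (C f₀₀)` are those of `f` except the coefficient `(0, 0)`, which is
zero; termwise (inner level: `PN v r n (g - C (constantCoeff g)) ≤ PN v r n g`, again `PA_le_mul`).
`PA2_inv`: put `a = constantCoeff (constantCoeff f)`, `a ≠ 0` because of `h`. `d = f - C (C a)`; for every `s` in
`[0, 1]` by `PA2_scale`, `PA2_sub_const`: the size of `d` at the radii `(s * lam * r, s * lam * κ)` is `≤ s * lam * B`.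
From `f * g = 1`: `C (C a⁻¹) = g + C (C a⁻¹) * d * g`, i.e. `g = C (C a⁻¹) - C (C a⁻¹) * (d * g)`.
Archimedean `v` (`cst v 2 = 2`): `ν g ≤ 1 / |a| + (1 / |a|) * (|a| / 2) * ν g`, so `ν g ≤ 2 / |a|`.
Nonarchimedean `v` (`cst v 2 = 1`, `lam * B ≤ |a|`): for `0 ≤ s < 1` and the radii `(s * lam * r, s * lam * κ)`:
`ν_s g ≤ max (1 / |a|) ((1 / |a|) * (s * |a|) * ν_s g) = max (1 / |a|) (s * ν_s g)`, hence `ν_s g ≤ 1 / |a|` (if
`ν_s g > 0` then `s * ν_s g < ν_s g`). So every coefficient `(k, l)` of `g`, `k ≤ n'`, `l ≤ n`, satisfies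
`|g_kl| * (s * lam * κ) ^ k * (s * lam * r) ^ l ≤ 1 / |a|` for all `s < 1` (`PA_coeff_le`, `PN_coeff_le`); let `s → 1`
(continuity: `le_of_tendsto`, or: if the inequality fails at `s = 1` it fails for `s` close to `1`). Then
`PA .. ≤ 1 / |a|` because both levels are suprema (`ciSup_le`).
-/

namespace Pool.Agent.Lib.MP_17a322_nt.VN

open MvPolynomial Height
open Pool.Agent.Lib.MP_17a322_nt.RO
open Pool.Agent.Lib.MP_17a322_nt.VJ

section

variable {L : Type*} [Field L] (v : AbsoluteValue L ℝ)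

private theorem L1d_PN_sub {r : ℝ} (hr : 0 ≤ r) (n : ℕ) (g : PowerSeries L) :
    PN v r n (g - PowerSeries.C (PowerSeries.constantCoeff g)) ≤ PN v r n g := by
  have h : PA v (fun x : L => v x) r n (g - PowerSeries.C (PowerSeries.constantCoeff g)) ≤
      1 * PA v (fun x : L => v x) r n g := by
    refine PA_le_mul zero_le_one g _ fun k _ => ?_
    rw [one_mul]
    cases k with
    | zero =>
      rw [map_sub, PowerSeries.coeff_zero_eq_constantCoeff_apply,
        PowerSeries.coeff_zero_eq_constantCoeff_apply, PowerSeries.constantCoeff_C, sub_self, map_zero, zero_mul]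
      exact mul_nonneg (v.nonneg _) (pow_nonneg hr _)
    | succ k =>
      rw [map_sub, PowerSeries.coeff_C, if_neg (Nat.succ_ne_zero k), sub_zero]
  rw [one_mul] at h
  rw [PN_eq_PA, PN_eq_PA]
  exact h

private theorem L1d_PN_low {r s : ℝ} (hr : 0 ≤ r) (hs : 0 < s) (hs1 : s ≤ 1) (n : ℕ)
    (g : PowerSeries L) : PN v r n g ≤ (s ^ n)⁻¹ * PN v (s * r) n g := by
  rw [PN_eq_PA, PN_eq_PA]
  refine PA_le_mul (inv_nonneg.2 (pow_nonneg hs.le _)) g g fun k hk => ?_
  have h1 : 1 ≤ (s ^ n)⁻¹ * s ^ k := by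
    rw [← div_eq_inv_mul, one_le_div (pow_pos hs _)]
    exact pow_le_pow_of_le_one hs.le hs1 hk
  calc v (PowerSeries.coeff k g) * r ^ k ≤ ((s ^ n)⁻¹ * s ^ k) * (v (PowerSeries.coeff k g) * r ^ k) :=
        le_mul_of_one_le_left (mul_nonneg (v.nonneg _) (pow_nonneg hr _)) h1
    _ = (s ^ n)⁻¹ * (v (PowerSeries.coeff k g) * (s * r) ^ k) := by
        rw [mul_pow]
        ring

private theorem L1d_PA_low {r κ s : ℝ} (hr : 0 ≤ r) (hκ : 0 ≤ κ) (hs : 0 < s) (hs1 : s ≤ 1) (n n' : ℕ)
    (g : PowerSeries (PowerSeries L)) :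
    PA v (fun g : PowerSeries L => PN v r n g) κ n' g ≤
      (s ^ (n + n'))⁻¹ * PA v (fun g : PowerSeries L => PN v (s * r) n g) (s * κ) n' g := by
  refine PA_le_mul (inv_nonneg.2 (pow_nonneg hs.le _)) g g fun k hk => ?_
  have h1 : 1 ≤ (s ^ n')⁻¹ * s ^ k := by
    rw [← div_eq_inv_mul, one_le_div (pow_pos hs _)]
    exact pow_le_pow_of_le_one hs.le hs1 hk
  have h2 := L1d_PN_low v hr hs hs1 n (PowerSeries.coeff k g)
  have h3 : 0 ≤ PN v (s * r) n (PowerSeries.coeff k g) := (SN_PN v (mul_nonneg hs.le hr) n).nonneg _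
  have h4 : 0 ≤ (s ^ n)⁻¹ := inv_nonneg.2 (pow_nonneg hs.le _)
  calc PN v r n (PowerSeries.coeff k g) * κ ^ k
      ≤ ((s ^ n)⁻¹ * PN v (s * r) n (PowerSeries.coeff k g)) * κ ^ k :=
        mul_le_mul_of_nonneg_right h2 (pow_nonneg hκ _)
    _ ≤ ((s ^ n')⁻¹ * s ^ k) * (((s ^ n)⁻¹ * PN v (s * r) n (PowerSeries.coeff k g)) * κ ^ k) :=
        le_mul_of_one_le_left (mul_nonneg (mul_nonneg h4 h3) (pow_nonneg hκ _)) h1
    _ = (s ^ (n + n'))⁻¹ * (PN v (s * r) n (PowerSeries.coeff k g) * (s * κ) ^ k) := by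
        rw [mul_pow, pow_add, mul_inv]
        ring

/-- The general statement: a family of seminorms `N s`, `s` in `[0, 1]`. -/
private theorem L1d_inv {A : Type*} [CommRing A] [Algebra L A] (N : ℝ → A → ℝ)
    (hN : ∀ s, 0 ≤ s → s ≤ 1 → SN v (N s)) (m : ℕ)
    (hm : ∀ s, 0 < s → s ≤ 1 → ∀ g, N 1 g ≤ (s ^ m)⁻¹ * N s g) (f g : A) (h : f * g = 1) (a : L)
    (ha : a ≠ 0)
    (hd : ∀ s, 0 ≤ s → s ≤ 1 → cst v 2 * N s (f - algebraMap L A a) ≤ s * v a) :
    N 1 g ≤ cst v 2 / v a := by
  have hva : 0 < v a := v.pos ha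
  have hinv : v a⁻¹ = (v a)⁻¹ := map_inv₀ v a
  -- the identity for `g`
  have e : g = algebraMap L A a⁻¹ + -(algebraMap L A a⁻¹ * ((f - algebraMap L A a) * g)) := by
    have e1 : algebraMap L A a⁻¹ * algebraMap L A a = 1 := by
      rw [← map_mul, inv_mul_cancel₀ ha, map_one]
    have e2 : algebraMap L A a⁻¹ + -(algebraMap L A a⁻¹ * ((f - algebraMap L A a) * g)) =
        algebraMap L A a⁻¹ * (1 - f * g) + (algebraMap L A a⁻¹ * algebraMap L A a) * g := by ring
    rw [e2, h, e1, sub_self, mul_zero, zero_add, one_mul]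
  have key : ∀ s, 0 ≤ s → s ≤ 1 → N s (-(algebraMap L A a⁻¹ * ((f - algebraMap L A a) * g))) ≤
      (v a)⁻¹ * (N s (f - algebraMap L A a) * N s g) := by
    intro s hs hs1
    have hS := hN s hs hs1
    rw [hS.neg]
    refine (hS.mul _ _).trans ?_
    refine mul_le_mul ?_ (hS.mul _ _) (hS.nonneg _) (inv_nonneg.2 hva.le)
    rw [← hinv]
    exact hS.map _
  by_cases hv : IsNonarchimedean v
  · have hc : cst v 2 = 1 := by
      unfold cst
      rw [if_pos hv]
    rw [hc] at hd ⊢
    have h1 : ∀ s, 0 < s → s < 1 → N s g ≤ 1 / v a := by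
      intro s hs hs1
      have hS := hN s hs.le hs1.le
      have h2 : N s g ≤ max ((v a)⁻¹) ((v a)⁻¹ * (N s (f - algebraMap L A a) * N s g)) := by
        rw [congrArg (N s) e]
        refine (hS.add_max hv _ _).trans (max_le_max ?_ ?_)
        · rw [← hinv]
          exact hS.map _
        · rw [← e]
          exact key s hs.le hs1.le
      have h3 : (v a)⁻¹ * (N s (f - algebraMap L A a) * N s g) ≤ s * N s g := by
        have h4 := hd s hs.le hs1.le
        rw [one_mul] at h4
        calc (v a)⁻¹ * (N s (f - algebraMap L A a) * N s g) ≤ (v a)⁻¹ * ((s * v a) * N s g) :=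
              mul_le_mul_of_nonneg_left (mul_le_mul_of_nonneg_right h4 (hS.nonneg _))
                (inv_nonneg.2 hva.le)
          _ = s * N s g * ((v a)⁻¹ * v a) := by ring
          _ = s * N s g := by rw [inv_mul_cancel₀ hva.ne', mul_one]
      rw [one_div]
      rcases le_max_iff.1 h2 with h5 | h5
      · exact h5
      · have h6 : N s g ≤ s * N s g := h5.trans h3
        have h7 := hS.nonneg g
        have h8 : N s g = 0 := by nlinarith
        rw [h8]
        exact inv_nonneg.2 hva.le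
    have h2 : ∀ s, 0 < s → s < 1 → s ^ m * N 1 g ≤ 1 / v a := by
      intro s hs hs1
      refine le_trans ?_ (h1 s hs hs1)
      have h3 := hm s hs hs1.le g
      rw [inv_mul_eq_div, le_div_iff₀ (pow_pos hs _)] at h3
      rw [mul_comm]
      exact h3
    have h3 : Filter.Tendsto (fun s : ℝ => s ^ m * N 1 g) (nhdsWithin 1 (Set.Iio 1)) (nhds (1 ^ m * N 1 g)) := by
      refine Filter.Tendsto.mono_left ?_ nhdsWithin_le_nhds
      exact ((continuous_id.pow m).mul continuous_const).tendsto 1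
    rw [one_pow, one_mul] at h3
    refine le_of_tendsto h3 ?_
    have h4 : Set.Ioo (0 : ℝ) 1 ∈ nhdsWithin (1 : ℝ) (Set.Iio 1) := Ioo_mem_nhdsLT zero_lt_one
    filter_upwards [h4] with s hs
    exact h2 s hs.1 hs.2
  · have hc : cst v 2 = 2 := by
      unfold cst
      rw [if_neg hv]
      norm_num
    rw [hc] at hd ⊢
    have hS := hN 1 zero_le_one le_rfl
    have h4 := hd 1 zero_le_one le_rfl
    rw [one_mul] at h4
    have h5 := hS.nonneg g
    have h2 : N 1 g ≤ (v a)⁻¹ + (v a)⁻¹ * (N 1 (f - algebraMap L A a) * N 1 g) := by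
      calc N 1 g = N 1 (algebraMap L A a⁻¹ + -(algebraMap L A a⁻¹ * ((f - algebraMap L A a) * g))) := by
            rw [← e]
        _ ≤ _ := (hS.add _ _).trans (add_le_add (by
            rw [← hinv]
            exact hS.map _) (key 1 zero_le_one le_rfl))
    have h3 : (v a)⁻¹ * (N 1 (f - algebraMap L A a) * N 1 g) ≤ (1 / 2) * N 1 g := by
      have h6 : N 1 (f - algebraMap L A a) ≤ v a / 2 := by linarith
      calc (v a)⁻¹ * (N 1 (f - algebraMap L A a) * N 1 g) ≤ (v a)⁻¹ * ((v a / 2) * N 1 g) :=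
            mul_le_mul_of_nonneg_left (mul_le_mul_of_nonneg_right h6 h5) (inv_nonneg.2 hva.le)
        _ = (1 / 2) * N 1 g * ((v a)⁻¹ * v a) := by ring
        _ = (1 / 2) * N 1 g := by rw [inv_mul_cancel₀ hva.ne', mul_one]
    rw [div_eq_mul_inv]
    linarith

theorem PA2_scale {r κ lam : ℝ} (hr : 0 ≤ r) (hκ : 0 ≤ κ) (h0 : 0 ≤ lam) (h1 : lam ≤ 1)
    (n n' : ℕ) (f : PowerSeries (PowerSeries L))
    (hf : PowerSeries.constantCoeff (PowerSeries.constantCoeff f) = 0) :
    PA v (fun g : PowerSeries L => PN v (lam * r) n g) (lam * κ) n' f ≤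
      lam * PA v (fun g : PowerSeries L => PN v r n g) κ n' f := by
  refine PA_le_mul h0 f f fun k _ => ?_
  cases k with
  | zero =>
    rw [pow_zero, pow_zero, mul_one, mul_one]
    exact PN_scale v hr h0 h1 n _ (by
      rw [PowerSeries.coeff_zero_eq_constantCoeff_apply]
      exact hf)
  | succ k =>
    have h2 : PN v (lam * r) n (PowerSeries.coeff (k + 1) f) ≤ PN v r n (PowerSeries.coeff (k + 1) f) :=
      PN_mono_radius v (mul_nonneg h0 hr) (mul_le_of_le_one_left hr h1) n _
    have h3 : (lam * κ) ^ (k + 1) ≤ lam * κ ^ (k + 1) := by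
      rw [mul_pow]
      refine mul_le_mul_of_nonneg_right ?_ (pow_nonneg hκ _)
      rw [pow_succ]
      exact mul_le_of_le_one_left h0 (pow_le_one₀ h0 h1)
    have h4 : 0 ≤ PN v r n (PowerSeries.coeff (k + 1) f) := (SN_PN v hr n).nonneg _
    calc PN v (lam * r) n (PowerSeries.coeff (k + 1) f) * (lam * κ) ^ (k + 1)
        ≤ PN v r n (PowerSeries.coeff (k + 1) f) * (lam * κ ^ (k + 1)) :=
          mul_le_mul h2 h3 (pow_nonneg (mul_nonneg h0 hκ) _) h4
      _ = lam * (PN v r n (PowerSeries.coeff (k + 1) f) * κ ^ (k + 1)) := by ring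

theorem PA2_sub_const {r κ : ℝ} (hr : 0 ≤ r) (hκ : 0 ≤ κ) (n n' : ℕ)
    (f : PowerSeries (PowerSeries L)) :
    PA v (fun g : PowerSeries L => PN v r n g) κ n' (f - PowerSeries.C (PowerSeries.C
      (PowerSeries.constantCoeff (PowerSeries.constantCoeff f)))) ≤
      PA v (fun g : PowerSeries L => PN v r n g) κ n' f := by
  have h : PA v (fun g : PowerSeries L => PN v r n g) κ n' (f - PowerSeries.C (PowerSeries.C
      (PowerSeries.constantCoeff (PowerSeries.constantCoeff f)))) ≤
      1 * PA v (fun g : PowerSeries L => PN v r n g) κ n' f := by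
    refine PA_le_mul zero_le_one f _ fun k _ => ?_
    rw [one_mul]
    refine mul_le_mul_of_nonneg_right ?_ (pow_nonneg hκ _)
    cases k with
    | zero =>
      rw [map_sub, PowerSeries.coeff_zero_eq_constantCoeff_apply,
        PowerSeries.coeff_zero_eq_constantCoeff_apply, PowerSeries.constantCoeff_C]
      exact L1d_PN_sub v hr n _
    | succ k =>
      rw [map_sub, PowerSeries.coeff_C, if_neg (Nat.succ_ne_zero k), sub_zero]
  rwa [one_mul] at h

theorem PA2_mono {r r' κ κ' : ℝ} (hr : 0 ≤ r) (hr' : r ≤ r') (hκ : 0 ≤ κ) (hκ' : κ ≤ κ')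
    (n n' : ℕ) (f : PowerSeries (PowerSeries L)) :
    PA v (fun g : PowerSeries L => PN v r n g) κ n' f ≤
      PA v (fun g : PowerSeries L => PN v r' n g) κ' n' f := by
  have h : PA v (fun g : PowerSeries L => PN v r n g) κ n' f ≤
      1 * PA v (fun g : PowerSeries L => PN v r' n g) κ' n' f := by
    refine PA_le_mul zero_le_one f f fun k _ => ?_
    rw [one_mul]
    exact mul_le_mul (PN_mono_radius v hr hr' n _) (pow_le_pow_left₀ hκ hκ' k) (pow_nonneg hκ _)
      ((SN_PN v (hr.trans hr') n).nonneg _)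
  rwa [one_mul] at h

/-- The size of the inverse. -/
theorem PA2_inv {r κ lam B : ℝ} (hr : 0 ≤ r) (hκ : 0 ≤ κ) (h0 : 0 ≤ lam) (h1 : lam ≤ 1)
    (f g : PowerSeries (PowerSeries L)) (h : f * g = 1)
    (hB : ∀ n n', PA v (fun g : PowerSeries L => PN v r n g) κ n' f ≤ B)
    (hlam : lam * (cst v 2 * B) ≤
      v (PowerSeries.constantCoeff (PowerSeries.constantCoeff f))) (n n' : ℕ) :
    PA v (fun g : PowerSeries L => PN v (lam * r) n g) (lam * κ) n' g ≤
      cst v 2 / v (PowerSeries.constantCoeff (PowerSeries.constantCoeff f)) := by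
  have ha : PowerSeries.constantCoeff (PowerSeries.constantCoeff f) ≠ 0 := by
    intro h2
    have h3 := congrArg (fun x => PowerSeries.constantCoeff (PowerSeries.constantCoeff x)) h
    simp only [map_mul, map_one] at h3
    rw [h2, zero_mul] at h3
    exact zero_ne_one h3
  have key := L1d_inv v (A := PowerSeries (PowerSeries L))
    (fun s x => PA v (fun g : PowerSeries L => PN v (s * (lam * r)) n g) (s * (lam * κ)) n' x)
    (fun s hs _ => SN_PA (SN_PN v (mul_nonneg hs (mul_nonneg h0 hr)) n)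
      (mul_nonneg hs (mul_nonneg h0 hκ)) n') (n + n') (by
        intro s hs hs1 g
        simp only [one_mul]
        exact L1d_PA_low v (mul_nonneg h0 hr) (mul_nonneg h0 hκ) hs hs1 n n' g) f g h _ ha (by
      intro s hs hs1
      have e1 : algebraMap L (PowerSeries (PowerSeries L))
          (PowerSeries.constantCoeff (PowerSeries.constantCoeff f)) = PowerSeries.C (PowerSeries.C
            (PowerSeries.constantCoeff (PowerSeries.constantCoeff f))) := by
        rw [PowerSeries.algebraMap_apply, PowerSeries.algebraMap_apply, Algebra.algebraMap_self_apply]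
      have h2 := PA2_scale v hr hκ (mul_nonneg hs h0) (mul_le_one₀ hs1 h0 h1) n n'
        (f - PowerSeries.C (PowerSeries.C (PowerSeries.constantCoeff (PowerSeries.constantCoeff f))))
        (by rw [map_sub, map_sub, PowerSeries.constantCoeff_C, PowerSeries.constantCoeff_C, sub_self])
      have h3 := (PA2_sub_const v hr hκ n n' f).trans (hB n n')
      have h4 := mul_le_mul_of_nonneg_left h3 (mul_nonneg hs h0)
      have h5 := h2.trans h4
      rw [mul_assoc s lam r, mul_assoc s lam κ] at h5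
      simp only [e1]
      calc _ ≤ cst v 2 * (s * lam * B) := mul_le_mul_of_nonneg_left h5 (cst_nonneg v 2)
        _ = s * (lam * (cst v 2 * B)) := by ring
        _ ≤ _ := mul_le_mul_of_nonneg_left hlam hs)
  simp only [one_mul] at key
  exact key

/-- The size of the inverse, one variable. -/
theorem PN_inv {r lam B : ℝ} (hr : 0 ≤ r) (h0 : 0 ≤ lam) (h1 : lam ≤ 1)
    (f g : PowerSeries L) (h : f * g = 1) (hB : ∀ n, PN v r n f ≤ B)
    (hlam : lam * (cst v 2 * B) ≤ v (PowerSeries.constantCoeff f)) (n : ℕ) :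
    PN v (lam * r) n g ≤ cst v 2 / v (PowerSeries.constantCoeff f) := by
  have ha : PowerSeries.constantCoeff f ≠ 0 := by
    intro h2
    have h3 := congrArg (fun x => PowerSeries.constantCoeff x) h
    simp only [map_mul, map_one] at h3
    rw [h2, zero_mul] at h3
    exact zero_ne_one h3
  have key := L1d_inv v (A := PowerSeries L)
    (fun s x => PN v (s * (lam * r)) n x)
    (fun s hs _ => SN_PN v (mul_nonneg hs (mul_nonneg h0 hr)) n) n (by
        intro s hs hs1 g
        simp only [one_mul]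
        exact L1d_PN_low v (mul_nonneg h0 hr) hs hs1 n g) f g h _ ha (by
      intro s hs hs1
      have e1 : algebraMap L (PowerSeries L) (PowerSeries.constantCoeff f) =
        PowerSeries.C (PowerSeries.constantCoeff f) := rfl
      have h2 := PN_scale v hr (mul_nonneg hs h0) (mul_le_one₀ hs1 h0 h1) n
        (f - PowerSeries.C (PowerSeries.constantCoeff f))
        (by rw [map_sub, PowerSeries.constantCoeff_C, sub_self])
      have h3 := (L1d_PN_sub v hr n f).trans (hB n)
      have h4 := mul_le_mul_of_nonneg_left h3 (mul_nonneg hs h0)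
      have h5 := h2.trans h4
      rw [mul_assoc s lam r] at h5
      simp only [e1]
      calc _ ≤ cst v 2 * (s * lam * B) := mul_le_mul_of_nonneg_left h5 (cst_nonneg v 2)
        _ = s * (lam * (cst v 2 * B)) := by ring
        _ ≤ _ := mul_le_mul_of_nonneg_left hlam hs)
  simp only [one_mul] at key
  exact key

end

end Pool.Agent.Lib.MP_17a322_nt.VN
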