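import Pool.Agent.Lib.MP_17a322_nt.VN.Defs
import Pool.Agent.Lib.MP_17a322_nt.VJ.DefsG

/-!
Definitions for Vojta's inequality on products of `n` elliptic curves: columns, block polynomials,
centre data (representations), vanishing conditions.
-/

namespace Pool.Agent.Lib.MP_17a322_nt.VN

open MvPolynomial Height
open Pool.Agent.Lib.MP_17a322_nt.RO Pool.Agent.Lib.MP_17a322_nt.VJ

/-- `(s + B) ^ n = (EO s d n).1 + B * (EO s d n).2` if `B ^ 2 = d`. -/
def EO {A : Type*} [CommRing A] (s d : A) : ℕ → A × A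
  | 0 => (1, 0)
  | n + 1 => (s * (EO s d n).1 + d * (EO s d n).2, (EO s d n).1 + s * (EO s d n).2)

/-- The two columns: if `R`, `Q` are the x-coordinates of points `z`, `P` and `B` is the square root of
`ph W R * ph W Q` with the right sign, both are multiples of the x-coordinates of `P - z`. -/
noncomputable def col {K : Type*} [Field K] (W : WeierstrassCurve K) {A : Type*} [CommRing A]
    [Algebra K A] (R Q : Fin 2 → A) (B : A) (c : Bool) : Fin 2 → A :=
  if c then ![SV W R Q 1 + B, 2 * SV W R Q 2] else ![2 * SV W R Q 0, SV W R Q 1 - B]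

/-- The even (`e = false`) and odd (`e = true`) part of `col 0 ^ ν * col 1 ^ (b - ν)`. -/
noncomputable def chG {K : Type*} [Field K] (W : WeierstrassCurve K) {A : Type*} [CommRing A]
    [Algebra K A] (R Q : Fin 2 → A) (c e : Bool) (b ν : ℕ) : A :=
  if c then
    (if e then (EO (SV W R Q 1) (ph W R * ph W Q) ν).2
      else (EO (SV W R Q 1) (ph W R * ph W Q) ν).1) * (2 * SV W R Q 2) ^ (b - ν)
  else
    (2 * SV W R Q 0) ^ ν *
      (if e then -(EO (SV W R Q 1) (ph W R * ph W Q) (b - ν)).2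
        else (EO (SV W R Q 1) (ph W R * ph W Q) (b - ν)).1)

/-- The value at `x`, `u` of the block polynomial: product over `t` of the even/odd parts for
`R = mu j (x t, 1)` and `Q` the vector of the chart coordinate `u t`. -/
noncomputable def UV {K : Type*} [Field K] {n : ℕ} (W : Fin n → WeierstrassCurve K)
    (χ : Fin n → Bool) (j b : ℕ) {A : Type*} [CommRing A] [Algebra K A] (x u : Fin n → A)
    (c e : Fin n → Bool) (ν : Fin n → ℕ) : A :=
  ∏ t, chG (W t) (mu (W t) j ![x t, 1]) (vc (χ t) (u t)) (c t) (e t) b (ν t)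

/-- The block polynomial in the variables `x t` (`Sum.inl t`) and `u t` (`Sum.inr t`). -/
noncomputable def UU {K : Type*} [Field K] {n : ℕ} (W : Fin n → WeierstrassCurve K)
    (χ : Fin n → Bool) (j b : ℕ) (c e : Fin n → Bool) (ν : Fin n → ℕ) :
    MvPolynomial (Fin n ⊕ Fin n) K :=
  UV W χ j b (fun t => X (Sum.inl t)) (fun t => X (Sum.inr t)) c e ν

theorem REP_map_rel {k k' : Type*} [CommRing k] [CommRing k'] (f : k →+* k') {n e : ℕ}
    (z : Fin n → MvPolynomial (Fin n) k) (w : Fin (e + 1) → MvPolynomial (Fin n) k)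
    (M : Fin n → Matrix (Fin (e + 1)) (Fin (e + 1)) (MvPolynomial (Fin n) k))
    (rel : ∀ j m, ∑ l, w l * aeval z (M j l m) = X j * w m) (j : Fin n) (m : Fin (e + 1)) :
    ∑ l, MvPolynomial.map f (w l) *
      aeval (fun t => MvPolynomial.map f (z t)) (MvPolynomial.map f (M j l m)) =
      X j * MvPolynomial.map f (w m) := by
  have h := congrArg (MvPolynomial.map f) (rel j m)
  rw [map_sum, map_mul, MvPolynomial.map_X] at h
  rw [← h]
  refine Finset.sum_congr rfl fun l _ => ?_
  rw [map_mul]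
  congr 1
  have e1 : ((MvPolynomial.map f).comp (algebraMap k (MvPolynomial (Fin n) k))) =
      (algebraMap k' (MvPolynomial (Fin n) k')).comp f := by
    ext1 x
    simp [MvPolynomial.algebraMap_eq]
  have e2 := MvPolynomial.eval₂_comp_left (MvPolynomial.map f)
    (algebraMap k (MvPolynomial (Fin n) k)) z (M j l m)
  rw [e1] at e2
  rw [MvPolynomial.aeval_def, MvPolynomial.aeval_def, MvPolynomial.eval₂_map]
  exact e2.symm

/-- Base change of a representation. -/
noncomputable def REP.map {k k' : Type*} [CommRing k] [CommRing k'] (f : k →+* k') {n e : ℕ}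
    (ρ : REP k n e) : REP k' n e where
  z := fun j => MvPolynomial.map f (ρ.z j)
  w := fun l => MvPolynomial.map f (ρ.w l)
  M := fun j l m => MvPolynomial.map f (ρ.M j l m)
  w_zero := by rw [ρ.w_zero, map_one]
  rel := REP_map_rel f ρ.z ρ.w ρ.M ρ.rel

/-- The ordered product of the powers `M j ^ a j`. -/
noncomputable def mpw {A : Type*} [CommRing A] {n e : ℕ}
    (M : Fin n → Matrix (Fin (e + 1)) (Fin (e + 1)) A) (a : Fin n → ℕ) :
    Matrix (Fin (e + 1)) (Fin (e + 1)) A :=
  (List.ofFn fun j => M j ^ a j).prod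

/-- The coefficients of a polynomial in `x`, `S` with respect to a representation: polynomials in
`x`, `Z` with `P(x, S) = ∑ l, w l * (GG ρ P l)(x, z)`. -/
noncomputable def GG {k : Type*} [CommRing k] {n e : ℕ} (ρ : REP k n e)
    (P : MvPolynomial (Fin n ⊕ Fin n) k) (l : Fin (e + 1)) : MvPolynomial (Fin n ⊕ Fin n) k :=
  ∑ m ∈ P.support, C (coeff m P) * (∏ t, X (Sum.inl t) ^ m (Sum.inl t)) *
    rename Sum.inr (mpw ρ.M (fun t => m (Sum.inr t)) l 0)

/-- Specialisation `x = x0`. -/
noncomputable def spx {k L : Type*} [CommRing k] [CommRing L] [Algebra k L] {n : ℕ} (x0 : Fin n → L)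
    (P : MvPolynomial (Fin n ⊕ Fin n) k) : MvPolynomial (Fin n) L :=
  aeval (Sum.elim (fun t => (C (x0 t) : MvPolynomial (Fin n) L)) X) P

/-- The vanishing condition of order `T` (along `z 0 = z 1 = 0`) for the family `Φ` with values in the
`L`-algebra `A`, at the point `x0`. -/
def ORD {K : Type*} [Field K] {k e : ℕ} (ρ : REP K (k + 2) e) (W : Fin (k + 2) → WeierstrassCurve K)
    (χ : Fin (k + 2) → Bool) (j b T : ℕ) {L : Type*} [Field L] [Algebra K L]
    {A : Type*} [CommRing A] [Algebra L A]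
    (Φ : (Fin (k + 2) → ℕ) → A) (x0 : Fin (k + 2) → L) : Prop :=
  ∀ (c ε : Fin (k + 2) → Bool) (l : Fin (e + 1)) (β : Fin (k + 2) →₀ ℕ), β 0 + β 1 < T →
    ∑ ν ∈ box (fun _ : Fin (k + 2) => b + 1),
      Φ ν * algebraMap L A (coeff β (spx x0 (GG ρ (UU W χ j b c ε ν) l))) = 0

/-- Exponents of the variables `x` and `Z`. -/
noncomputable def sf {n : ℕ} (q β : Fin n → ℕ) : Fin n ⊕ Fin n →₀ ℕ :=
  Finsupp.equivFunOnFinite.symm (Sum.elim q β)

/-- The coefficient of the unknown `F a μ` in the linear equation for the exponents `q`, `β`. -/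
noncomputable def MC {K : Type*} [Field K] {k e : ℕ} (ρ : REP K (k + 2) e)
    (W : Fin (k + 2) → WeierstrassCurve K) (χ : Fin (k + 2) → Bool) (j b : ℕ)
    (c ε : Fin (k + 2) → Bool) (l : Fin (e + 1)) (q β a μ : Fin (k + 2) → ℕ) : K :=
  coeff (sf q β) ((∏ t, X (Sum.inl t) ^ a t) * GG ρ (UU W χ j b c ε μ) l)

/-- The linear equations for the auxiliary polynomial: `m` blocks, `b = N * 4 ^ J`,
`b_i = N * 4 ^ (J - j i)`, `T_i = 4 ^ (J - j i)`. -/
def CC {K : Type*} [Field K] {k e m : ℕ} (ρ : Fin m → REP K (k + 2) e)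
    (W : Fin (k + 2) → WeierstrassCurve K) (χ : Fin (k + 2) → Bool) (N J : ℕ) (j : Fin m → ℕ)
    (F : (Fin (k + 2) → ℕ) → (Fin m → Fin (k + 2) → ℕ) → K) : Prop :=
  ∀ (i : Fin m) (c ε : Fin (k + 2) → Bool) (l : Fin (e + 1)) (q β : Fin (k + 2) → ℕ)
    (ν : Fin m → Fin (k + 2) → ℕ), β 0 + β 1 < 4 ^ (J - j i) →
    ∑ a ∈ box (fun _ : Fin (k + 2) => N * 4 ^ J + 1),
      ∑ μ ∈ box (fun _ : Fin (k + 2) => N * 4 ^ (J - j i) + 1),
        F a (Function.update ν i μ) *
          MC (ρ i) W χ (j i) (N * 4 ^ (J - j i)) c ε l q β a μ = 0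

/-- The tuples `ν` with `ν i` in the box of side `N i`. -/
def BB {m n : ℕ} (N : Fin m → ℕ) : Finset (Fin m → Fin n → ℕ) :=
  Fintype.piFinset fun i => box (fun _ : Fin n => N i)

/-- Numbers of values of the exponents of `Z`: `T` for the first two variables, `E` for the others. -/
def bt (k T E : ℕ) (t : Fin (k + 2)) : ℕ := if (t : ℕ) < 2 then T else E

/-- The exponent in the estimates. -/
def CE (k D : ℕ) : ℕ := 8 * (k + 2) ^ 3 * (D + 1) ^ 2

end Pool.Agent.Lib.MP_17a322_nt.VN
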