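import Pool.Agent.Lib.MP_17a322_nt.Mb

/-!
Dependent choice of finite length.
-/

universe v

namespace Pool.Agent.Lib.MP_17a322_nt.VN

/-- Dependent choice of finite length. -/
theorem exists_chain {α : Type v} (m : ℕ) (P : ℕ → α → Prop) (Q : Fin m → α → α → Prop) (a₀ : α)
    (h0 : P 0 a₀) (step : ∀ (i : Fin m) (a : α), P i a → ∃ a', P ((i : ℕ) + 1) a' ∧ Q i a a') :
    ∃ f : Fin (m + 1) → α, f 0 = a₀ ∧ (∀ k : Fin (m + 1), P (k : ℕ) (f k)) ∧
      ∀ i : Fin m, Q i (f i.castSucc) (f i.succ) := by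
  classical
  choose F hF hQ using step
  let s : ℕ → α := fun k => Nat.rec a₀ (fun k a =>
    if h : ∃ hk : k < m, P k a then F ⟨k, h.1⟩ a h.2 else a) k
  have hs0 : s 0 = a₀ := rfl
  have hs1 : ∀ k, s (k + 1) = if h : ∃ hk : k < m, P k (s k) then F ⟨k, h.1⟩ (s k) h.2 else s k :=
    fun k => rfl
  have hP : ∀ k, k ≤ m → P k (s k) := by
    intro k
    induction k with
    | zero => intro _; exact h0
    | succ k ih =>
      intro hk
      have h1 : P k (s k) := ih (Nat.le_of_succ_le hk)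
      have h2 : ∃ hk : k < m, P k (s k) := ⟨hk, h1⟩
      rw [hs1, dif_pos h2]
      exact hF ⟨k, hk⟩ (s k) h1
  refine ⟨fun k => s k, hs0, fun k => hP k (Nat.lt_succ_iff.1 k.2), fun i => ?_⟩
  have h1 : P i (s i) := hP i i.2.le
  have h2 : ∃ hk : (i : ℕ) < m, P i (s i) := ⟨i.2, h1⟩
  have h3 : s ((i : ℕ) + 1) = F i (s i) h1 := by
    rw [hs1, dif_pos h2]
  have h4 : Q i (s i) (F i (s i) h1) := hQ i (s i) h1
  rw [← h3] at h4
  exact h4

end Pool.Agent.Lib.MP_17a322_nt.VN
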