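import Pool.Agent.Lib.MP_17a322_nt.VN.L2A1
import Pool.Agent.Lib.MP_17a322_nt.VJ.E5
import Pool.Agent.Lib.MP_17a322_nt.VJ.J1c
import Pool.Agent.Lib.MP_17a322_nt.RV.T0a

/-!
Part L-II of VN: the eliminant of `ξ_p` from the relation and `N` is not zero.

Proof of `SV_ne_zero`: if all `SV W R Q i = 0`, then by `E5_condition` (VJ/E5), applied to
`x = sq2 R Q` (`SV W R Q i = aeval (sq2 R Q) (WeierstrassCurve.addSubMap W i)`), `sq2 R Q i ^ 4 = 0`, so
`sq2 R Q = 0`, so `R = 0` or `Q = 0` (a product of two nonzero linear forms over a field is not zero;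
`sq2` is in RO/Defs).

Proof of `El_al_ne_zero`. Let `Ω = AlgebraicClosure (FractionRing (MvPolynomial (VL m n) K))` and
`s y = algebraMap _ Ω (X y)` (generic point), algebraically independent over `K`, so
`aeval s F = 0 → F = 0`. Suppose `El (vZ p) (al W χ j p) N = 0`. `lcv (vZ p) (al W χ j p) ≠ 0`
(`J1c_lcv_ne_zero`, VJ/J1c), so it does not vanish at `s`. By `exists_root_of_El` (VJ/C3; `degreeOf_al_Z`)
there is `ρ` such that `al W χ j p` and `N` vanish at `s' = Function.update s (vZ p) ρ`.
Let `v = Function.update s' (vS p) (s (vZ p))`. Claim: `v` is algebraically independent over `K`. By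
`indep_of_algebraic` (RV/T0a) with `w = s` it is enough that each `s b` is algebraic over `K(v)`. For
`b ≠ vZ p, vS p`: `s b = v b`. For `b = vZ p`: `s b = v (vS p)`. For `b = vS p`: by `aeval_al` and
`S3_comm'` (VJ/E3), `0 = S3 W₀ R ![ρ, 1] (vc c (s (vS p))) = QF (SV W₀ R ![ρ, 1]) (vc c (s (vS p)))`
with `R = mu W₀ (j p.1) ![s (vX p.2), 1]`. The vector `σ = SV W₀ R ![ρ, 1]` has entries in the intermediate
field `K(v)` (`s (vX p.2) = v (vX p.2)`, `ρ = v (vZ p)`; entries of `SV`, `mu` are the images of the same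
expressions over the field `K(v)`: `map_SV`, `map_mu` of VJ/E3 for the algebra homomorphism
`IntermediateField.val`), and it is not zero: `![ρ, 1] ≠ 0`, `R ≠ 0` since `R 0` is the value at the
transcendental element `s (vX p.2)` of a monic polynomial of positive degree (`mu_X_degrees`,
`aeval_mu_X`, VJ/E8), `SV_ne_zero`. So `s (vS p)` is a root of the nonzero polynomial
`σ 0 - σ 1 z + σ 2 z ^ 2` (`c = false`) or `σ 0 z ^ 2 - σ 1 z + σ 2` (`c = true`) over `K(v)`.
Finally `aeval v N = aeval s' N = 0` since `N` does not involve `vS p` (`aeval_update_of_degreeOf_eq_zero`,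
VJ/C1), so `N = 0`.
-/

universe u

namespace Pool.Agent.Lib.MP_17a322_nt.VN

open MvPolynomial Height
open Pool.Agent.Lib.MP_17a322_nt.RO
open Pool.Agent.Lib.MP_17a322_nt.VJ

theorem L2A2_generic (K : Type u) [Field K] (σ : Type) :
    ∃ (Ω : Type u) (_ : Field Ω) (_ : IsAlgClosed Ω) (_ : Algebra K Ω) (s : σ → Ω),
      AlgebraicIndependent K s := by
  refine ⟨AlgebraicClosure (FractionRing (MvPolynomial σ K)), inferInstance, inferInstance,
    inferInstance, _, (MvPolynomial.algebraicIndependent_X σ K).map'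
      (f := IsScalarTower.toAlgHom K (MvPolynomial σ K)
        (AlgebraicClosure (FractionRing (MvPolynomial σ K)))) ?_⟩
  intro a b hab
  have h1 : algebraMap (MvPolynomial σ K) (AlgebraicClosure (FractionRing (MvPolynomial σ K))) a =
      algebraMap (MvPolynomial σ K) (AlgebraicClosure (FractionRing (MvPolynomial σ K))) b := hab
  rw [IsScalarTower.algebraMap_apply (MvPolynomial σ K) (FractionRing (MvPolynomial σ K)),
    IsScalarTower.algebraMap_apply (MvPolynomial σ K) (FractionRing (MvPolynomial σ K))] at h1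
  exact IsFractionRing.injective (MvPolynomial σ K) (FractionRing (MvPolynomial σ K))
    ((algebraMap (FractionRing (MvPolynomial σ K))
      (AlgebraicClosure (FractionRing (MvPolynomial σ K)))).injective h1)

theorem L2A2_alg {F Ω : Type*} [Field F] [Field Ω] [Algebra F Ω] (a : Fin 3 → F) (ha : a ≠ 0)
    (c : Bool) (y : Ω) (h : QF (fun i => algebraMap F Ω (a i)) (vc c y) = 0) :
    IsAlgebraic F y := by
  have key : ∀ b : Fin 3 → F, b ≠ 0 → Polynomial.C (b 0) - Polynomial.C (b 1) * Polynomial.X +
      Polynomial.C (b 2) * Polynomial.X ^ 2 ≠ 0 := by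
    intro b hb h0
    apply hb
    have h00 := congrArg (fun q => Polynomial.coeff q 0) h0
    have h01 := congrArg (fun q => Polynomial.coeff q 1) h0
    have h02 := congrArg (fun q => Polynomial.coeff q 2) h0
    simp [Polynomial.coeff_C, Polynomial.coeff_X, Polynomial.coeff_X_pow] at h00 h01 h02
    funext i
    fin_cases i
    · exact h00
    · exact h01
    · exact h02
  cases c with
  | false =>
    refine ⟨_, key a ha, ?_⟩
    have h1 : algebraMap F Ω (a 0) * 1 ^ 2 - algebraMap F Ω (a 1) * (y * 1) +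
        algebraMap F Ω (a 2) * y ^ 2 = 0 := h
    simp only [map_add, map_sub, map_mul, map_pow, Polynomial.aeval_C, Polynomial.aeval_X]
    linear_combination h1
  | true =>
    have hb : (![a 2, a 1, a 0] : Fin 3 → F) ≠ 0 := by
      intro h0
      apply ha
      funext i
      fin_cases i
      · exact congrFun h0 2
      · exact congrFun h0 1
      · exact congrFun h0 0
    refine ⟨_, key _ hb, ?_⟩
    have h1 : algebraMap F Ω (a 0) * y ^ 2 - algebraMap F Ω (a 1) * (1 * y) +
        algebraMap F Ω (a 2) * 1 ^ 2 = 0 := h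
    have e0 : (![a 2, a 1, a 0] : Fin 3 → F) 0 = a 2 := rfl
    have e1 : (![a 2, a 1, a 0] : Fin 3 → F) 1 = a 1 := rfl
    have e2 : (![a 2, a 1, a 0] : Fin 3 → F) 2 = a 0 := rfl
    rw [e0, e1, e2]
    simp only [map_add, map_sub, map_mul, map_pow, Polynomial.aeval_C, Polynomial.aeval_X]
    linear_combination h1

theorem SV_ne_zero {K : Type*} [Field K] (W : WeierstrassCurve K) [W.IsElliptic] {L : Type*}
    [Field L] [Algebra K L] (R Q : Fin 2 → L) (hR : R ≠ 0) (hQ : Q ≠ 0) : SV W R Q ≠ 0 := by
  intro h0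
  have hc : ∀ i, sq2 R Q i = 0 := by
    intro i
    have h1 := E5_condition W (sq2 R Q) i
    have h2 : ∀ j, aeval (sq2 R Q) (WeierstrassCurve.addSubMap W j) = 0 := fun j =>
      congrFun h0 j
    rw [Finset.sum_eq_zero fun j _ => by rw [h2 j, mul_zero]] at h1
    exact pow_eq_zero_iff (n := 4) (by norm_num) |>.1 h1.symm
  have c0 : R 0 * Q 0 = 0 := hc 0
  have c1 : R 0 * Q 1 + R 1 * Q 0 = 0 := hc 1
  have c2 : R 1 * Q 1 = 0 := hc 2
  by_cases hR0 : R 0 = 0
  · have hR1 : R 1 ≠ 0 := by
      intro hR1
      apply hR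
      funext i
      fin_cases i
      · exact hR0
      · exact hR1
    rw [hR0, zero_mul, zero_add] at c1
    apply hQ
    funext i
    fin_cases i
    · exact (mul_eq_zero.1 c1).resolve_left hR1
    · exact (mul_eq_zero.1 c2).resolve_left hR1
  · have hQ0 := (mul_eq_zero.1 c0).resolve_left hR0
    rw [hQ0, mul_zero, add_zero] at c1
    apply hQ
    funext i
    fin_cases i
    · exact hQ0
    · exact (mul_eq_zero.1 c1).resolve_left hR0

theorem El_al_ne_zero {K : Type u} [Field K] {m n : ℕ} (W : Fin n → WeierstrassCurve K)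
    [∀ t, (W t).IsElliptic] (χ : Fin n → Bool) (j : Fin m → ℕ) (p : Fin m × Fin n)
    (N : MvPolynomial (VL m n) K) (hN : N ≠ 0) (hS : N.degreeOf (vS p) = 0) :
    El (vZ p) (al W χ j p) N ≠ 0 := by
  obtain ⟨Ω, _, _, _, s, hs⟩ := L2A2_generic K (VL m n)
  intro h0
  have hinj : ∀ F : MvPolynomial (VL m n) K, aeval s F = 0 → F = 0 := fun F hF =>
    (injective_iff_map_eq_zero (aeval s : MvPolynomial (VL m n) K →ₐ[K] Ω)).1 hs F hF
  have hl : aeval s (lcv (vZ p) (al W χ j p)) ≠ 0 := fun h =>
    J1c_lcv_ne_zero (vZ p) (al_ne_zero W χ j p) (hinj _ h)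
  have hE : aeval s (El (vZ p) (al W χ j p) N) = 0 := by
    rw [h0, map_zero]
  obtain ⟨ρ, hρ1, hρ2⟩ := exists_root_of_El (vZ p) (al W χ j p) N
    (by rw [degreeOf_al_Z]; norm_num) s hl hE
  have hSZ : (vS p : VL m n) ≠ vZ p := by
    intro h
    cases h
  have hXZ : (vX p.2 : VL m n) ≠ vZ p := by
    intro h
    cases h
  have hXS : (vX p.2 : VL m n) ≠ vS p := by
    intro h
    cases h
  -- the relation
  rw [aeval_al, Function.update_of_ne hXZ, Function.update_of_ne hSZ, Function.update_self,
    S3_comm'] at hρ1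
  -- the new point
  have hvS : Function.update (Function.update s (vZ p) ρ) (vS p) (s (vZ p)) (vS p) = s (vZ p) :=
    Function.update_self _ _ _
  have hvZ : Function.update (Function.update s (vZ p) ρ) (vS p) (s (vZ p)) (vZ p) = ρ := by
    rw [Function.update_of_ne hSZ.symm, Function.update_self]
  have hvX : Function.update (Function.update s (vZ p) ρ) (vS p) (s (vZ p)) (vX p.2) =
      s (vX p.2) := by
    rw [Function.update_of_ne hXS, Function.update_of_ne hXZ]
  have hvb : ∀ b, b ≠ vZ p → b ≠ vS p →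
      Function.update (Function.update s (vZ p) ρ) (vS p) (s (vZ p)) b = s b := by
    intro b hb1 hb2
    rw [Function.update_of_ne hb2, Function.update_of_ne hb1]
  generalize hv : Function.update (Function.update s (vZ p) ρ) (vS p) (s (vZ p)) = v
    at hvS hvZ hvX hvb
  have hmem : ∀ b, v b ∈ IntermediateField.adjoin K (Set.range v) := fun b =>
    IntermediateField.subset_adjoin K _ (Set.mem_range_self b)
  have hmemalg : ∀ b, IsAlgebraic (IntermediateField.adjoin K (Set.range v)) (v b) := fun b =>
    isAlgebraic_algebraMap (⟨v b, hmem b⟩ : IntermediateField.adjoin K (Set.range v))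
  -- the vector `R` is not zero
  have hR : mu (W p.2) (j p.1) ![s (vX p.2), 1] ≠ 0 := by
    intro hR0
    have h1 : mu (W p.2) (j p.1) ![s (vX p.2), 1] 0 = 0 := congrFun hR0 0
    rw [← aeval_mu_X] at h1
    have h2 := (transcendental_iff.1 (hs.transcendental (vX p.2))) _ h1
    have h3 := (mu_X_degrees (W p.2) (j p.1)).1
    rw [h2] at h3
    exact Polynomial.not_monic_zero h3
  have hQ : (![ρ, 1] : Fin 2 → Ω) ≠ 0 := by
    intro h
    exact one_ne_zero (congrFun h 1)
  have hσ := SV_ne_zero (W p.2) (mu (W p.2) (j p.1) ![s (vX p.2), 1]) ![ρ, 1] hR hQ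
  -- the entries of `SV` are in the field generated by `v`
  have hfield : ∃ a : Fin 3 → IntermediateField.adjoin K (Set.range v),
      (fun i => algebraMap (IntermediateField.adjoin K (Set.range v)) Ω (a i)) =
        SV (W p.2) (mu (W p.2) (j p.1) ![s (vX p.2), 1]) ![ρ, 1] := by
    have hx : s (vX p.2) ∈ IntermediateField.adjoin K (Set.range v) := hvX ▸ hmem (vX p.2)
    have hr : ρ ∈ IntermediateField.adjoin K (Set.range v) := hvZ ▸ hmem (vZ p)
    refine ⟨SV (W p.2) (mu (W p.2) (j p.1)
      ![(⟨s (vX p.2), hx⟩ : IntermediateField.adjoin K (Set.range v)), 1])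
      ![(⟨ρ, hr⟩ : IntermediateField.adjoin K (Set.range v)), 1], ?_⟩
    have e1 : (fun i => (IntermediateField.adjoin K (Set.range v)).val
        (mu (W p.2) (j p.1)
          ![(⟨s (vX p.2), hx⟩ : IntermediateField.adjoin K (Set.range v)), 1] i)) =
        mu (W p.2) (j p.1) ![s (vX p.2), 1] := by
      funext i
      rw [map_mu]
      have e : (fun k => (IntermediateField.adjoin K (Set.range v)).val
          ((![(⟨s (vX p.2), hx⟩ : IntermediateField.adjoin K (Set.range v)), 1] :
            Fin 2 → IntermediateField.adjoin K (Set.range v)) k)) = ![s (vX p.2), 1] := by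
        funext k
        fin_cases k
        · rfl
        · exact map_one _
      rw [e]
    have e2 : (fun i => (IntermediateField.adjoin K (Set.range v)).val
        ((![(⟨ρ, hr⟩ : IntermediateField.adjoin K (Set.range v)), 1] :
          Fin 2 → IntermediateField.adjoin K (Set.range v)) i)) = ![ρ, 1] := by
      funext k
      fin_cases k
      · rfl
      · exact map_one _
    funext i
    have h1 := map_SV (W p.2) (IntermediateField.adjoin K (Set.range v)).val
      (mu (W p.2) (j p.1) ![(⟨s (vX p.2), hx⟩ : IntermediateField.adjoin K (Set.range v)), 1])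
      ![(⟨ρ, hr⟩ : IntermediateField.adjoin K (Set.range v)), 1] i
    rw [e1, e2] at h1
    exact h1
  obtain ⟨a, ha⟩ := hfield
  have ha0 : a ≠ 0 := by
    intro h
    apply hσ
    rw [← ha, h]
    funext i
    exact map_zero _
  have halg : IsAlgebraic (IntermediateField.adjoin K (Set.range v)) (s (vS p)) := by
    apply L2A2_alg a ha0 (χ p.2)
    rw [ha]
    exact hρ1
  have hind : AlgebraicIndependent K v := by
    refine RV.indep_of_algebraic s v hs fun b => ?_
    by_cases hb1 : b = vZ p
    · rw [hb1, ← hvS]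
      exact hmemalg _
    · by_cases hb2 : b = vS p
      · rw [hb2]
        exact halg
      · rw [← hvb b hb1 hb2]
        exact hmemalg _
  have hvN : aeval v N = 0 := by
    rw [← hv, aeval_update_of_degreeOf_eq_zero (vS p) _ _ hS]
    exact hρ2
  exact hN ((injective_iff_map_eq_zero (aeval v : MvPolynomial (VL m n) K →ₐ[K] Ω)).1 hind N hvN)

end Pool.Agent.Lib.MP_17a322_nt.VN
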