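import Pool.Agent.Lib.MP_17a322_nt.Mb

/-!
Definitions for part E of VN (field theory): derivations on coefficients, the derivations `D_j` of
`Ω[S, Y]`, generic points of hypersurfaces with constant slopes.
-/

namespace Pool.Agent.Lib.MP_17a322_nt.VN

open MvPolynomial

/-- The derivation of the polynomial ring that applies the derivation `δ` to the coefficients. -/
noncomputable def dc {Ω : Type*} (σ : Type*) [Field Ω] (δ : Derivation ℤ Ω Ω) :
    Derivation ℤ (MvPolynomial σ Ω) (MvPolynomial σ Ω) :=
  Derivation.mk'
    ({ toFun := fun p => ∑ m ∈ p.support, monomial m (δ (coeff m p))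
       map_add' := by
        classical
        intro p q
        ext m
        have key : ∀ p : MvPolynomial σ Ω,
            coeff m (∑ n ∈ p.support, monomial n (δ (coeff n p))) = δ (coeff m p) := by
          intro p
          rw [coeff_sum]
          simp only [coeff_monomial]
          rw [Finset.sum_ite_eq']
          split_ifs with h
          · rfl
          · rw [notMem_support_iff.mp h, map_zero]
        rw [coeff_add, key, key, key, coeff_add, map_add]
       map_smul' := by
        classical
        intro a p
        ext m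
        have key : ∀ p : MvPolynomial σ Ω,
            coeff m (∑ n ∈ p.support, monomial n (δ (coeff n p))) = δ (coeff m p) := by
          intro p
          rw [coeff_sum]
          simp only [coeff_monomial]
          rw [Finset.sum_ite_eq']
          split_ifs with h
          · rfl
          · rw [notMem_support_iff.mp h, map_zero]
        rw [key, RingHom.id_apply, coeff_smul, coeff_smul, key, map_zsmul] } :
      MvPolynomial σ Ω →ₗ[ℤ] MvPolynomial σ Ω)
    (by
      classical
      intro p q
      ext m
      have key : ∀ p : MvPolynomial σ Ω, ∀ m,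
          coeff m (∑ n ∈ p.support, monomial n (δ (coeff n p))) = δ (coeff m p) := by
        intro p m
        rw [coeff_sum]
        simp only [coeff_monomial]
        rw [Finset.sum_ite_eq']
        split_ifs with h
        · rfl
        · rw [notMem_support_iff.mp h, map_zero]
      simp only [LinearMap.coe_mk, AddHom.coe_mk, smul_eq_mul]
      rw [key, coeff_add, coeff_mul, coeff_mul, mul_comm q, coeff_mul, map_sum,
        ← Finset.sum_add_distrib]
      refine Finset.sum_congr rfl fun a _ => ?_
      rw [key, key, Derivation.leibniz, smul_eq_mul, smul_eq_mul]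
      ring)

theorem coeff_dc {Ω σ : Type*} [Field Ω] (δ : Derivation ℤ Ω Ω) (p : MvPolynomial σ Ω)
    (m : σ →₀ ℕ) : coeff m (dc σ δ p) = δ (coeff m p) := by
  classical
  change coeff m (∑ n ∈ p.support, monomial n (δ (coeff n p))) = δ (coeff m p)
  rw [coeff_sum]
  simp only [coeff_monomial]
  rw [Finset.sum_ite_eq']
  split_ifs with h
  · rfl
  · rw [notMem_support_iff.mp h, map_zero]

theorem dc_C {Ω σ : Type*} [Field Ω] (δ : Derivation ℤ Ω Ω) (a : Ω) :
    dc σ δ (C a) = C (δ a) := by
  classical
  ext m
  rw [coeff_dc, coeff_C, coeff_C]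
  split_ifs
  · rfl
  · exact map_zero δ

theorem dc_X {Ω σ : Type*} [Field Ω] (δ : Derivation ℤ Ω Ω) (i : σ) :
    dc σ δ (X i) = 0 := by
  classical
  ext m
  rw [coeff_dc, coeff_X, coeff_zero]
  split_ifs
  · exact Derivation.map_one_eq_zero δ
  · exact map_zero δ

/-- The derivation `D_j = Y_j ∂/∂S_j + (q_j'(S_j) / 2) ∂/∂Y_j` of `Ω[S, Y]`, where `S_j = X (inl j)` and
`Y_j = X (inr j)`. -/
noncomputable def DD {Ω B : Type*} [Field Ω] (q : B → Polynomial Ω) (j : B) :
    Derivation Ω (MvPolynomial (B ⊕ B) Ω) (MvPolynomial (B ⊕ B) Ω) :=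
  (X (Sum.inr j) : MvPolynomial (B ⊕ B) Ω) • pderiv (Sum.inl j) +
    (C (2⁻¹ : Ω) * Polynomial.aeval (X (Sum.inl j) : MvPolynomial (B ⊕ B) Ω)
      (Polynomial.derivative (q j))) • pderiv (Sum.inr j)

theorem DD_apply {Ω B : Type*} [Field Ω] (q : B → Polynomial Ω) (j : B)
    (H : MvPolynomial (B ⊕ B) Ω) :
    DD q j H = X (Sum.inr j) * pderiv (Sum.inl j) H +
      C (2⁻¹ : Ω) * Polynomial.aeval (X (Sum.inl j) : MvPolynomial (B ⊕ B) Ω)
        (Polynomial.derivative (q j)) * pderiv (Sum.inr j) H := rfl

/-- Generic point of the hypersurface `G = 0` with constant slopes: the coordinates `x t`, `t ≠ r`, are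
algebraically independent over `Ω`, the field `L` is algebraic over `Ω(x t : t ≠ r)`, `G(x) = 0`, `y t` is
a square root of `q_t(x t)` and `c l` is the slope (`= D_l x_r / y_r` for the derivation `D_l` with
`D_l x_l = y_l`). -/
structure GP {Ω L B : Type*} [Field Ω] [Field L] [Algebra Ω L] (q : B → Polynomial Ω) (r : B)
    (G : MvPolynomial B Ω) (c : B → Ω) (x y : B → L) : Prop where
  ind : AlgebraicIndependent Ω (fun t : {t : B // t ≠ r} => x t)
  alg : Algebra.IsAlgebraic
    (IntermediateField.adjoin Ω (Set.range fun t : {t : B // t ≠ r} => x t)) L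
  zero : aeval x G = 0
  sq : ∀ t, y t ^ 2 = Polynomial.aeval (x t) (q t)
  ne : ∀ t, y t ≠ 0
  der : aeval x (pderiv r G) ≠ 0
  slope : ∀ l, l ≠ r → y l * aeval x (pderiv l G) +
    algebraMap Ω L (c l) * (y r * aeval x (pderiv r G)) = 0

end Pool.Agent.Lib.MP_17a322_nt.VN
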