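import Pool.Agent.Lib.MP_17a322_nt.VN.L1b
import Pool.Agent.Lib.MP_17a322_nt.VN.DefsC

/-!
Definitions for part L-I (local estimates).
-/

namespace Pool.Agent.Lib.MP_17a322_nt.VN

open MvPolynomial Height
open Pool.Agent.Lib.MP_17a322_nt.RO
open Pool.Agent.Lib.MP_17a322_nt.VJ

/-- The local constant, including the prime two. -/
noncomputable def kc {K : Type*} [Field K] (W : WeierstrassCurve K) {L : Type*} [Field L]
    [Algebra K L] (v : AbsoluteValue L ℝ) : ℝ :=
  lc W v * max 1 (v (2 : L)⁻¹)

/-- The component of `Z` which is `1` in the chart `c`. -/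
def pv {A : Type*} (c : Bool) (Z : Fin 2 → A) : A := if c then Z 0 else Z 1

/-- The other component. -/
def ov {A : Type*} (c : Bool) (Z : Fin 2 → A) : A := if c then Z 1 else Z 0

/-- Power series in `T` and `z`. -/
abbrev P2 (L : Type*) [Field L] := PowerSeries (PowerSeries L)

/-- The size of a series in `T` (radius `r`) and `z` (radius `κ`). -/
noncomputable def nu2 {L : Type*} [Field L] (v : AbsoluteValue L ℝ) (r κ : ℝ) (n n' : ℕ)
    (f : P2 L) : ℝ :=
  PA v (fun g : PowerSeries L => PN v r n g) κ n' f

/-- The constant coefficient of a series in two variables. -/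
noncomputable def cc2 {L : Type*} [Field L] (f : P2 L) : L :=
  PowerSeries.constantCoeff (PowerSeries.constantCoeff f)

/-- The x-coordinate vector of the point with chart coordinate `S(T)`, translated by the point with
parameter `z` (`ζ` is the series of `exists_zeta`), column `c`. -/
noncomputable def tZ {K : Type*} [Field K] (W : WeierstrassCurve K) {L : Type*} [Field L]
    [Algebra K L] (χ : Bool) (ζ S Y : PowerSeries L) (c : Bool) : Fin 2 → P2 L :=
  tz W c (fun i => PowerSeries.C (vc χ S i)) ![1, PowerSeries.map PowerSeries.C ζ]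
    (PowerSeries.C Y) (2 * PowerSeries.X)

/-- The square root of `ph (tZ ..)`. -/
noncomputable def tY {K : Type*} [Field K] (W : WeierstrassCurve K) {L : Type*} [Field L]
    [Algebra K L] (χ : Bool) (ζ S Y : PowerSeries L) (c : Bool) : P2 L :=
  ty W c (fun i => PowerSeries.C (vc χ S i)) ![1, PowerSeries.map PowerSeries.C ζ]
    (PowerSeries.C Y) (2 * PowerSeries.X)

end Pool.Agent.Lib.MP_17a322_nt.VN
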