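import Pool.Agent.Lib.MP_17a322_nt.VN.L0
import Pool.Agent.Lib.MP_17a322_nt.VN.DefsC
import Pool.Agent.Lib.MP_17a322_nt.VN.C10
import Pool.Agent.Lib.MP_17a322_nt.VJ.A5

/-!
# JOB L1q: the auxiliary polynomial as a polynomial

`NF A B F = ∑ a ∈ A, ∑ ν ∈ B, F a ν * ∏ t, X (x_t) ^ a t * ∏ p, X (ξ_p) ^ ν p.1 p.2`.

PROOFS.
`NF_coeff`: `coeff e (NF A B F) = ∑ a ∈ A, ∑ ν ∈ B, if nx a ν = e then F a ν else 0`, and `nx` is injective in `(a, ν)`. So the coefficient at `nx a ν` is `F a ν` if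
`a ∈ A`, `ν ∈ B`.
`NF_support`: an exponent in the support is `nx a ν` for some `a ∈ A`, `ν ∈ B`.
`NF_ne`: `NF_coeff` and `hsupp`.
`NF_degrees`: `degreeOf_le_iff` (or `degreeOf_eq_sup`) and `NF_support`: `nx a ν (vS p) = 0`, `nx a ν (vX t) = a t ≤ N * 4 ^ J`, `nx a ν (vZ p) = ν p.1 p.2 ≤ N * 4 ^ (J - j p.1)` and
`4 ^ j * (N * 4 ^ (J - j)) = N * 4 ^ J`.
`NF_height`: at every place `v`: `NV v NF ≤ cst v (card (A ×ˢ B)) * ⨆ p, v (F p)` (`SN_NV`, `SN.sum_le`, `NV_monomial`: VJ/A1, A2). `card A = (N 4 ^ J + 1) ^ n`, `card B = ∏ i, (N 4 ^ (J - j i) + 1) ^ n`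
(`card_box`, `card_BB` VN/C10). Logs: `gs_le`, `gs_log_cst`, `gs_log_iSup` (VJ/A4), `FS_log_NV` (VJ/A5), `totalWeight_eq_finrank` (used in VJ/A7, C12), `log (x + 1) ≤ x`,
`N * 4 ^ (J - j i) ≤ N * 4 ^ J`: `log card ≤ n * (N * 4 ^ J) + m * (n * (N * 4 ^ J))`.
`NF_aeval`: `aeval (pS (fun t => C (x0 t)) S)` of the monomial `nx a ν` with coefficient `c` is `C (C (algebraMap K L c * ∏ t, x0 t ^ a t)) * ∏ p, X p ^ ν p.1 p.2`, a monomial with exponent
`fun p => ν p.1 p.2`. So `coeff e'` is the sum over `ν` with `ν = fun i t => e' (i, t)`: one term if `fun i t => e' (i, t)` is in `BB ..`; otherwise all `F a (fun i t => e' (i, t))` vanish by `hsupp`.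
-/

universe u

namespace Pool.Agent.Lib.MP_17a322_nt.VN

open MvPolynomial Height
open Pool.Agent.Lib.MP_17a322_nt.RO
open Pool.Agent.Lib.MP_17a322_nt.VJ

/-- The exponents `a` of `x`, `0` of `S`, `ν` of `ξ`. -/
noncomputable def nx {m n : ℕ} (a : Fin n → ℕ) (ν : Fin m → Fin n → ℕ) : VL m n →₀ ℕ :=
  Finsupp.equivFunOnFinite.symm (Sum.elim a (Sum.elim (fun _ => 0) fun p => ν p.1 p.2))

/-- The auxiliary polynomial. -/
noncomputable def NF {K : Type*} [Field K] {m n : ℕ} (A : Finset (Fin n → ℕ))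
    (B : Finset (Fin m → Fin n → ℕ)) (F : (Fin n → ℕ) → (Fin m → Fin n → ℕ) → K) :
    MvPolynomial (VL m n) K :=
  ∑ a ∈ A, ∑ ν ∈ B, monomial (nx a ν) (F a ν)

private theorem L1q_nx_x {m n : ℕ} (a : Fin n → ℕ) (ν : Fin m → Fin n → ℕ) (t : Fin n) :
    nx a ν (vX t) = a t := rfl

private theorem L1q_nx_s {m n : ℕ} (a : Fin n → ℕ) (ν : Fin m → Fin n → ℕ) (p : Fin m × Fin n) :
    nx a ν (vS p) = 0 := rfl

private theorem L1q_nx_z {m n : ℕ} (a : Fin n → ℕ) (ν : Fin m → Fin n → ℕ) (p : Fin m × Fin n) :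
    nx a ν (vZ p) = ν p.1 p.2 := rfl

private theorem L1q_inj {m n : ℕ} {a a' : Fin n → ℕ} {ν ν' : Fin m → Fin n → ℕ}
    (h : nx a ν = nx a' ν') : a = a' ∧ ν = ν' := by
  constructor
  · funext t
    rw [← L1q_nx_x a ν t, ← L1q_nx_x a' ν' t, h]
  · funext i t
    have h1 := L1q_nx_z a ν (i, t)
    have h2 := L1q_nx_z a' ν' (i, t)
    rw [← h] at h2
    exact h1.symm.trans h2

private theorem L1q_cf {K : Type*} [Field K] {m n : ℕ} (A : Finset (Fin n → ℕ))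
    (B : Finset (Fin m → Fin n → ℕ)) (F : (Fin n → ℕ) → (Fin m → Fin n → ℕ) → K)
    (e : VL m n →₀ ℕ) : coeff e (NF A B F) =
      ∑ a ∈ A, ∑ ν ∈ B, coeff e (monomial (nx a ν) (F a ν)) := by
  unfold NF
  rw [coeff_sum]
  exact Finset.sum_congr rfl fun a _ => coeff_sum _ _ _

theorem NF_coeff {K : Type*} [Field K] {m n : ℕ} (A : Finset (Fin n → ℕ))
    (B : Finset (Fin m → Fin n → ℕ)) (F : (Fin n → ℕ) → (Fin m → Fin n → ℕ) → K)
    {a : Fin n → ℕ} {ν : Fin m → Fin n → ℕ} (ha : a ∈ A) (hν : ν ∈ B) :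
    coeff (nx a ν) (NF A B F) = F a ν := by
  classical
  rw [L1q_cf, Finset.sum_eq_single a, Finset.sum_eq_single ν, coeff_monomial, if_pos rfl]
  · intro ν' _ hne
    rw [coeff_monomial, if_neg]
    exact fun h => hne (L1q_inj h).2
  · exact fun h => absurd hν h
  · intro a' _ hne
    refine Finset.sum_eq_zero fun ν' _ => ?_
    rw [coeff_monomial, if_neg]
    exact fun h => hne (L1q_inj h).1
  · exact fun h => absurd ha h

theorem NF_support {K : Type*} [Field K] {m n : ℕ} (A : Finset (Fin n → ℕ))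
    (B : Finset (Fin m → Fin n → ℕ)) (F : (Fin n → ℕ) → (Fin m → Fin n → ℕ) → K)
    {e : VL m n →₀ ℕ} (he : e ∈ (NF A B F).support) : ∃ a ∈ A, ∃ ν ∈ B, e = nx a ν := by
  classical
  rw [mem_support_iff, L1q_cf] at he
  obtain ⟨a, ha, h1⟩ := Finset.exists_ne_zero_of_sum_ne_zero he
  obtain ⟨ν, hν, h2⟩ := Finset.exists_ne_zero_of_sum_ne_zero h1
  refine ⟨a, ha, ν, hν, ?_⟩
  by_contra h
  rw [coeff_monomial, if_neg (fun h' => h h'.symm)] at h2
  exact h2 rfl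

theorem NF_ne {K : Type*} [Field K] {m n : ℕ} (A : Finset (Fin n → ℕ))
    (B : Finset (Fin m → Fin n → ℕ)) (F : (Fin n → ℕ) → (Fin m → Fin n → ℕ) → K)
    (hne : ∃ a ν, F a ν ≠ 0) (hsupp : ∀ a ν, F a ν ≠ 0 → a ∈ A ∧ ν ∈ B) : NF A B F ≠ 0 := by
  obtain ⟨a, ν, h⟩ := hne
  obtain ⟨ha, hν⟩ := hsupp a ν h
  intro h0
  have h1 := NF_coeff A B F ha hν
  rw [h0, coeff_zero] at h1
  exact h h1.symm

theorem NF_degrees {K : Type*} [Field K] {m n : ℕ} (N J : ℕ) (j : Fin m → ℕ) (hJ : ∀ i, j i ≤ J)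
    (F : (Fin n → ℕ) → (Fin m → Fin n → ℕ) → K) :
    (∀ p, (NF (box (fun _ : Fin n => N * 4 ^ J + 1))
      (BB (fun i : Fin m => N * 4 ^ (J - j i) + 1)) F).degreeOf (vS p) = 0) ∧
    (∀ t, ((NF (box (fun _ : Fin n => N * 4 ^ J + 1))
      (BB (fun i : Fin m => N * 4 ^ (J - j i) + 1)) F).degreeOf (vX t) : ℝ) ≤ N * 4 ^ J) ∧
    ∀ p : Fin m × Fin n, (4 : ℝ) ^ j p.1 * (NF (box (fun _ : Fin n => N * 4 ^ J + 1))
      (BB (fun i : Fin m => N * 4 ^ (J - j i) + 1)) F).degreeOf (vZ p) ≤ N * 4 ^ J := by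
  classical
  refine ⟨fun p => ?_, fun t => ?_, fun p => ?_⟩
  · rw [← Nat.le_zero, degreeOf_le_iff]
    intro e he
    obtain ⟨a, -, ν, -, rfl⟩ := NF_support _ _ _ he
    exact le_of_eq (L1q_nx_s a ν p)
  · have h1 : (NF (box (fun _ : Fin n => N * 4 ^ J + 1))
        (BB (fun i : Fin m => N * 4 ^ (J - j i) + 1)) F).degreeOf (vX t) ≤ N * 4 ^ J := by
      rw [degreeOf_le_iff]
      intro e he
      obtain ⟨a, ha, ν, -, rfl⟩ := NF_support _ _ _ he
      rw [L1q_nx_x]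
      exact Nat.lt_succ_iff.1 ((mem_box _ _).1 ha t)
    exact_mod_cast h1
  · have h1 : (NF (box (fun _ : Fin n => N * 4 ^ J + 1))
        (BB (fun i : Fin m => N * 4 ^ (J - j i) + 1)) F).degreeOf (vZ p) ≤
          N * 4 ^ (J - j p.1) := by
      rw [degreeOf_le_iff]
      intro e he
      obtain ⟨a, -, ν, hν, rfl⟩ := NF_support _ _ _ he
      rw [L1q_nx_z]
      exact Nat.lt_succ_iff.1 ((mem_BB _ _).1 hν p.1 p.2)
    have h2 : 4 ^ j p.1 * (NF (box (fun _ : Fin n => N * 4 ^ J + 1))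
        (BB (fun i : Fin m => N * 4 ^ (J - j i) + 1)) F).degreeOf (vZ p) ≤ N * 4 ^ J := by
      calc _ ≤ 4 ^ j p.1 * (N * 4 ^ (J - j p.1)) := Nat.mul_le_mul_left _ h1
        _ = N * (4 ^ j p.1 * 4 ^ (J - j p.1)) := by ring
        _ = N * 4 ^ J := by rw [← pow_add, Nat.add_sub_cancel' (hJ _)]
    exact_mod_cast h2

private theorem L1q_log_card {m n : ℕ} (N J : ℕ) (j : Fin m → ℕ) :
    1 ≤ ((box (fun _ : Fin n => N * 4 ^ J + 1)) ×ˢ
      (BB (fun i : Fin m => N * 4 ^ (J - j i) + 1) : Finset (Fin m → Fin n → ℕ))).card ∧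
    Real.log ((((box (fun _ : Fin n => N * 4 ^ J + 1)) ×ˢ
      (BB (fun i : Fin m => N * 4 ^ (J - j i) + 1) : Finset (Fin m → Fin n → ℕ))).card : ℕ) : ℝ) ≤
        n * (m + 1) * (N * 4 ^ J) := by
  have hc : ((box (fun _ : Fin n => N * 4 ^ J + 1)) ×ˢ
      (BB (fun i : Fin m => N * 4 ^ (J - j i) + 1) : Finset (Fin m → Fin n → ℕ))).card =
      (N * 4 ^ J + 1) ^ n * ∏ i, (N * 4 ^ (J - j i) + 1) ^ n := by
    rw [Finset.card_product, card_box, card_BB, Finset.prod_const, Finset.card_univ,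
      Fintype.card_fin]
  have hle : (N * 4 ^ J + 1) ^ n * ∏ i, (N * 4 ^ (J - j i) + 1) ^ n ≤
      (N * 4 ^ J + 1) ^ (n * (m + 1)) := by
    have h1 : ∏ i : Fin m, (N * 4 ^ (J - j i) + 1) ^ n ≤
        ∏ _i : Fin m, (N * 4 ^ J + 1) ^ n := by
      refine Finset.prod_le_prod' fun i _ => Nat.pow_le_pow_left ?_ _
      exact Nat.add_le_add_right (Nat.mul_le_mul_left _
        (Nat.pow_le_pow_right (by norm_num) (Nat.sub_le _ _))) _
    rw [Finset.prod_const, Finset.card_univ, Fintype.card_fin] at h1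
    calc _ ≤ (N * 4 ^ J + 1) ^ n * ((N * 4 ^ J + 1) ^ n) ^ m := Nat.mul_le_mul_left _ h1
      _ = _ := by ring
  have hpos : 0 < (N * 4 ^ J + 1) ^ n * ∏ i, (N * 4 ^ (J - j i) + 1) ^ n :=
    Nat.mul_pos (pow_pos (Nat.succ_pos _) _)
      (Finset.prod_pos fun i _ => pow_pos (Nat.succ_pos _) _)
  rw [hc]
  refine ⟨hpos, ?_⟩
  have h2 : Real.log (((N * 4 ^ J + 1) ^ n * ∏ i, (N * 4 ^ (J - j i) + 1) ^ n : ℕ) : ℝ) ≤
      Real.log (((N * 4 ^ J + 1) ^ (n * (m + 1)) : ℕ) : ℝ) :=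
    Real.log_le_log (by exact_mod_cast hpos) (by exact_mod_cast hle)
  refine h2.trans ?_
  rw [Nat.cast_pow, Real.log_pow]
  have h3 : Real.log ((N * 4 ^ J + 1 : ℕ) : ℝ) ≤ N * 4 ^ J := by
    have h4 := Real.log_le_sub_one_of_pos (x := ((N * 4 ^ J + 1 : ℕ) : ℝ))
      (by exact_mod_cast Nat.succ_pos _)
    push_cast at h4 ⊢
    linarith
  have h5 : (0 : ℝ) ≤ ((n * (m + 1) : ℕ) : ℝ) := Nat.cast_nonneg _
  have h6 := mul_le_mul_of_nonneg_left h3 h5
  push_cast at h6 ⊢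
  exact h6

theorem NF_height {K : Type u} [Field K] [NumberField K] {m n : ℕ} (N J : ℕ) (j : Fin m → ℕ)
    (F : (Fin n → ℕ) → (Fin m → Fin n → ℕ) → K) (hne : ∃ a ν, F a ν ≠ 0)
    (hsupp : ∀ a ν, F a ν ≠ 0 → a ∈ box (fun _ : Fin n => N * 4 ^ J + 1) ∧
      ν ∈ BB (fun i : Fin m => N * 4 ^ (J - j i) + 1)) :
    nh (NF (box (fun _ : Fin n => N * 4 ^ J + 1))
      (BB (fun i : Fin m => N * 4 ^ (J - j i) + 1)) F) ≤
      logHeight (fun p : (box (fun _ : Fin n => N * 4 ^ J + 1)) ×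
          (BB (fun i : Fin m => N * 4 ^ (J - j i) + 1) : Finset (Fin m → Fin n → ℕ)) =>
            F p.1 p.2) + Module.finrank ℚ K * (n * (m + 1) * (N * 4 ^ J)) := by
  classical
  have hF := NF_ne _ _ F hne hsupp
  obtain ⟨hc1, hc2⟩ := L1q_log_card (m := m) (n := n) N J j
  have hx : (fun p : (box (fun _ : Fin n => N * 4 ^ J + 1)) ×
      (BB (fun i : Fin m => N * 4 ^ (J - j i) + 1) : Finset (Fin m → Fin n → ℕ)) =>
        F p.1 p.2) ≠ 0 := by
    obtain ⟨a, ν, h⟩ := hne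
    obtain ⟨ha, hν⟩ := hsupp a ν h
    intro h0
    exact h (congrFun h0 (⟨a, ha⟩, ⟨ν, hν⟩))
  have hpos : ∀ v : AbsoluteValue K ℝ, 0 < ⨆ p : (box (fun _ : Fin n => N * 4 ^ J + 1)) ×
      (BB (fun i : Fin m => N * 4 ^ (J - j i) + 1) : Finset (Fin m → Fin n → ℕ)),
        v (F p.1 p.2) := by
    intro v
    obtain ⟨i, hi⟩ := Function.ne_iff.mp hx
    exact (v.pos hi).trans_le (Finite.le_ciSup_of_le i le_rfl)
  have hcpos : ∀ v : AbsoluteValue K ℝ, 0 < cst v ((box (fun _ : Fin n => N * 4 ^ J + 1)) ×ˢ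
      (BB (fun i : Fin m => N * 4 ^ (J - j i) + 1) : Finset (Fin m → Fin n → ℕ))).card :=
    fun v => zero_lt_one.trans_le (one_le_cst v hc1)
  have hN : ∀ v : AbsoluteValue K ℝ, NV v (NF (box (fun _ : Fin n => N * 4 ^ J + 1))
      (BB (fun i : Fin m => N * 4 ^ (J - j i) + 1)) F) ≤
      cst v ((box (fun _ : Fin n => N * 4 ^ J + 1)) ×ˢ
        (BB (fun i : Fin m => N * 4 ^ (J - j i) + 1) : Finset (Fin m → Fin n → ℕ))).card *
      ⨆ p : (box (fun _ : Fin n => N * 4 ^ J + 1)) ×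
        (BB (fun i : Fin m => N * 4 ^ (J - j i) + 1) : Finset (Fin m → Fin n → ℕ)),
          v (F p.1 p.2) := by
    intro v
    unfold NF
    rw [← Finset.sum_product']
    refine (SN_NV v).sum_le _ _ (hpos v).le fun p hp => ?_
    obtain ⟨h1, h2⟩ := Finset.mem_product.1 hp
    show NV v (monomial (nx p.1 p.2) (F p.1 p.2)) ≤ _
    rw [NV_monomial]
    exact Finite.le_ciSup_of_le ((⟨p.1, h1⟩, ⟨p.2, h2⟩) :
      (box (fun _ : Fin n => N * 4 ^ J + 1)) ×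
        (BB (fun i : Fin m => N * 4 ^ (J - j i) + 1) : Finset (Fin m → Fin n → ℕ))) le_rfl
  have h1 := gs_log_cst (L := K) hc1
  rw [NumberField.totalWeight_eq_finrank] at h1
  have h2 : nh (NF (box (fun _ : Fin n => N * 4 ^ J + 1))
      (BB (fun i : Fin m => N * 4 ^ (J - j i) + 1)) F) ≤
      gs (fun v : AbsoluteValue K ℝ =>
        Real.log (⨆ p : (box (fun _ : Fin n => N * 4 ^ J + 1)) ×
          (BB (fun i : Fin m => N * 4 ^ (J - j i) + 1) : Finset (Fin m → Fin n → ℕ)),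
            v (F p.1 p.2)) +
        Real.log (cst v ((box (fun _ : Fin n => N * 4 ^ J + 1)) ×ˢ
          (BB (fun i : Fin m => N * 4 ^ (J - j i) + 1) :
            Finset (Fin m → Fin n → ℕ))).card)) := by
    unfold nh
    refine gs_le (FS_log_NV hF) (FS_add (FS_log_iSup hx) (FS_log_cst _)) fun v _ => ?_
    rw [← Real.log_mul (hpos v).ne' (hcpos v).ne']
    exact Real.log_le_log (NV_pos v hF) ((hN v).trans (le_of_eq (mul_comm _ _)))
  rw [gs_add (FS_log_iSup hx) (FS_log_cst _), gs_log_iSup hx] at h2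
  have h3 : (Module.finrank ℚ K : ℝ) * Real.log ((((box (fun _ : Fin n => N * 4 ^ J + 1)) ×ˢ
      (BB (fun i : Fin m => N * 4 ^ (J - j i) + 1) : Finset (Fin m → Fin n → ℕ))).card : ℕ) : ℝ) ≤
      Module.finrank ℚ K * (n * (m + 1) * (N * 4 ^ J)) :=
    mul_le_mul_of_nonneg_left hc2 (Nat.cast_nonneg _)
  linarith

private theorem L1q_term {K L : Type*} [Field K] [Field L] [Algebra K L] {m n : ℕ}
    (x0 : Fin n → L) (S : Fin m × Fin n → PowerSeries L) (a : Fin n → ℕ)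
    (ν : Fin m → Fin n → ℕ) (c : K) :
    aeval (pS (fun t => PowerSeries.C (x0 t)) S) (monomial (nx a ν) c) =
      monomial (Finsupp.equivFunOnFinite.symm fun p : Fin m × Fin n => ν p.1 p.2)
        (PowerSeries.C ((∏ t, x0 t ^ a t) * algebraMap K L c)) := by
  classical
  rw [aeval_monomial, Finsupp.prod_fintype _ _ (fun i => pow_zero _), Fintype.prod_sum_type,
    Fintype.prod_sum_type]
  have h1 : ∏ t : Fin n, (pS (fun t => PowerSeries.C (x0 t)) S (Sum.inl t)) ^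
      (nx a ν (Sum.inl t)) = C (PowerSeries.C (∏ t, x0 t ^ a t)) := by
    rw [map_prod, map_prod]
    refine Finset.prod_congr rfl fun t _ => ?_
    rw [map_pow, map_pow]
    rfl
  have h2 : ∏ p : Fin m × Fin n, (pS (fun t => PowerSeries.C (x0 t)) S (Sum.inr (Sum.inl p))) ^
      (nx a ν (Sum.inr (Sum.inl p))) = 1 :=
    Finset.prod_eq_one fun p _ => pow_zero _
  have h3 : ∏ p : Fin m × Fin n, (pS (fun t => PowerSeries.C (x0 t)) S (Sum.inr (Sum.inr p))) ^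
      (nx a ν (Sum.inr (Sum.inr p))) =
      monomial (Finsupp.equivFunOnFinite.symm fun p : Fin m × Fin n => ν p.1 p.2)
        (1 : PowerSeries L) := by
    rw [monomial_eq, C_1, one_mul, Finsupp.prod_fintype _ _ (fun i => pow_zero _)]
    rfl
  rw [h1, h2, h3, one_mul, IsScalarTower.algebraMap_apply K (PowerSeries L)
    (MvPolynomial (Fin m × Fin n) (PowerSeries L)), MvPolynomial.algebraMap_eq,
    PowerSeries.algebraMap_apply, ← mul_assoc, ← map_mul, ← map_mul, C_mul_monomial, mul_one,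
    mul_comm (algebraMap K L c)]

theorem NF_aeval {K L : Type*} [Field K] [Field L] [Algebra K L] {m n : ℕ}
    (A : Finset (Fin n → ℕ)) (B : Finset (Fin m → Fin n → ℕ))
    (F : (Fin n → ℕ) → (Fin m → Fin n → ℕ) → K)
    (hsupp : ∀ a ν, F a ν ≠ 0 → a ∈ A ∧ ν ∈ B) (x0 : Fin n → L)
    (S : Fin m × Fin n → PowerSeries L) (e' : Fin m × Fin n →₀ ℕ) :
    coeff e' (aeval (pS (fun t => PowerSeries.C (x0 t)) S) (NF A B F)) =
      PowerSeries.C (∑ a ∈ A, (∏ t, x0 t ^ a t) * algebraMap K L (F a fun i t => e' (i, t))) := by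
  classical
  have h0 : aeval (pS (fun t => PowerSeries.C (x0 t)) S) (NF A B F) =
      ∑ a ∈ A, ∑ ν ∈ B,
        monomial (Finsupp.equivFunOnFinite.symm fun p : Fin m × Fin n => ν p.1 p.2)
          (PowerSeries.C ((∏ t, x0 t ^ a t) * algebraMap K L (F a ν))) := by
    unfold NF
    rw [map_sum]
    refine Finset.sum_congr rfl fun a _ => ?_
    rw [map_sum]
    exact Finset.sum_congr rfl fun ν _ => L1q_term x0 S a ν _
  rw [h0, coeff_sum, map_sum]
  refine Finset.sum_congr rfl fun a _ => ?_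
  rw [coeff_sum, Finset.sum_eq_single (fun i t => e' (i, t))]
  · rw [coeff_monomial, if_pos]
    ext p
    rfl
  · intro ν _ hne
    rw [coeff_monomial, if_neg]
    intro h
    apply hne
    funext i t
    rw [← h]
    rfl
  · intro h
    have h1 : F a (fun i t => e' (i, t)) = 0 := by
      by_contra h2
      exact h (hsupp _ _ h2).2
    rw [h1, map_zero, mul_zero, map_zero, map_zero, coeff_zero]

end Pool.Agent.Lib.MP_17a322_nt.VN
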