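import Pool.Agent.Lib.MP_17a322_nt.Mb

/-!
# JOB C15: finiteness, one more variable

PROOF. Put `φ = aeval (Fin.cons P fun t => rename Fin.succ (z t))`. It suffices that `φ` is integral (`RingHom.IsIntegral`): `RingHom.IsIntegral.to_finite` needs
`RingHom.FiniteType`: `B = MvPolynomial (Fin (n + 1)) k` is of finite type over `k`, so over the source (`RingHom.FiniteType.of_comp_finiteType`, see the proof of
`exists_finite_inj_algHom_of_fg` in `Mathlib/RingTheory/NoetherNormalization.lean`). The elements of `B` integral over `φ` form a subring `I` (`integralClosure`, with the algebra structure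
`φ.toRingHom.toAlgebra`, or `RingHom.IsIntegralElem.add/mul`), which contains the constants. So it suffices that all variables are in `I` (`MvPolynomial.induction_on`).
(a) `X (succ j)`: `hz.to_isIntegral` (`RingHom.Finite.to_isIntegral`) gives a monic `p` with `eval₂ (aeval z) (X j) p = 0`; take `p.map (rename Fin.succ)`:
`eval₂ φ (X (succ j)) (p.map (rename Fin.succ)) = rename Fin.succ (eval₂ (aeval z) (X j) p) = 0`, since `φ (rename Fin.succ q) = rename Fin.succ (aeval z q)`
(`Polynomial.eval₂_map`, `Polynomial.hom_eval₂`).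
(b) `X 0`: put `Q = finSuccEquiv k n P`, `d = Q.natDegree`. `P = ∑ i ∈ range (d + 1), rename Fin.succ (Q.coeff i) * X 0 ^ i` (from `(finSuccEquiv k n).symm`, or
`MvPolynomial.finSuccEquiv` lemmas), the leading coefficient is a unit, i.e. a nonzero constant `u`; `d ≥ 1`, since otherwise `P` is a unit. The coefficients `rename Fin.succ (Q.coeff i)`
are in `I` by (a), and `P = φ (X 0) ∈ I`. So `X 0` is a root of the polynomial `u⁻¹ (Q - P)`, monic with coefficients in `I`: `X 0` is integral over `I`, hence (transitivity,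
`isIntegral_trans`) in `I`.
-/

namespace Pool.Agent.Lib.MP_17a322_nt.VN

open MvPolynomial

private theorem C15_int {k : Type*} [Field k] {n : ℕ}
    (ψ : MvPolynomial (Fin n) k →ₐ[k] MvPolynomial (Fin n) k)
    (h : ∀ i, ψ.toRingHom.IsIntegralElem (X i)) : ψ.toRingHom.IsIntegral := by
  intro p
  induction p using MvPolynomial.induction_on with
  | C a =>
    have h1 : ψ.toRingHom (C a) = C a := by
      exact ψ.commutes a
    rw [← h1]
    exact RingHom.isIntegralElem_map _
  | add p q hp hq => exact hp.add _ hq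
  | mul_X p i hp => exact hp.mul _ (h i)

private theorem C15_succ {k : Type*} [Field k] {n : ℕ} (P : MvPolynomial (Fin (n + 1)) k) :
    (finSuccEquiv k n P).eval₂ (rename Fin.succ :
      MvPolynomial (Fin n) k →ₐ[k] MvPolynomial (Fin (n + 1)) k).toRingHom (X 0) = P := by
  induction P using MvPolynomial.induction_on with
  | C a =>
    have h1 : finSuccEquiv k n (C a) = Polynomial.C (C a) := by
      have := (finSuccEquiv k n).commutes a
      exact this
    rw [h1, Polynomial.eval₂_C]
    simp
  | add p q hp hq => rw [map_add, Polynomial.eval₂_add, hp, hq]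
  | mul_X p i hp =>
    rw [map_mul, Polynomial.eval₂_mul, hp]
    congr 1
    refine Fin.cases ?_ (fun j => ?_) i
    · rw [finSuccEquiv_X_zero, Polynomial.eval₂_X]
    · rw [finSuccEquiv_X_succ, Polynomial.eval₂_C]
      simp


theorem finite_cons {k : Type*} [Field k] {n : ℕ} (P : MvPolynomial (Fin (n + 1)) k)
    (hP : IsUnit (finSuccEquiv k n P).leadingCoeff) (hP' : ¬ IsUnit P)
    (z : Fin n → MvPolynomial (Fin n) k)
    (hz : (aeval z : MvPolynomial (Fin n) k →ₐ[k] MvPolynomial (Fin n) k).toRingHom.Finite) :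
    (aeval (Fin.cons P fun t => rename Fin.succ (z t) :
      Fin (n + 1) → MvPolynomial (Fin (n + 1)) k) :
      MvPolynomial (Fin (n + 1)) k →ₐ[k] MvPolynomial (Fin (n + 1)) k).toRingHom.Finite := by
  classical
  set ρ : MvPolynomial (Fin n) k →ₐ[k] MvPolynomial (Fin (n + 1)) k := rename Fin.succ with hρ
  have hρinj : Function.Injective ρ := rename_injective _ (Fin.succ_injective n)
  set ψ₁ : MvPolynomial (Fin (n + 1)) k →ₐ[k] MvPolynomial (Fin (n + 1)) k :=
    aeval (Fin.cons (X 0) fun t => ρ (z t)) with hψ₁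
  set ψ₂ : MvPolynomial (Fin (n + 1)) k →ₐ[k] MvPolynomial (Fin (n + 1)) k :=
    aeval (Fin.cons P fun t => X t.succ) with hψ₂
  have hψ₁0 : ψ₁ (X 0) = X 0 := by simp [hψ₁]
  have hψ₁s : ∀ q, ψ₁ (ρ q) = ρ (aeval z q) := by
    intro q
    have : ψ₁.comp ρ = ρ.comp (aeval z) := by
      apply MvPolynomial.algHom_ext
      intro i
      simp [hψ₁, hρ]
    exact DFunLike.congr_fun this q
  have hψ₂0 : ψ₂ (X 0) = P := by simp [hψ₂]
  have hψ₂s : ∀ q, ψ₂ (ρ q) = ρ q := by
    intro q
    have : ψ₂.comp ρ = ρ := by
      apply MvPolynomial.algHom_ext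
      intro i
      simp [hψ₂, hρ]
    exact DFunLike.congr_fun this q
  have hcomp : (aeval (Fin.cons P fun t => ρ (z t) :
      Fin (n + 1) → MvPolynomial (Fin (n + 1)) k) :
      MvPolynomial (Fin (n + 1)) k →ₐ[k] MvPolynomial (Fin (n + 1)) k) = ψ₂.comp ψ₁ := by
    apply MvPolynomial.algHom_ext
    intro i
    refine Fin.cases ?_ (fun j => ?_) i
    · rw [AlgHom.comp_apply, hψ₁0, hψ₂0]
      simp
    · have h1 : ψ₁ (X j.succ) = ρ (z j) := by simp [hψ₁]
      rw [AlgHom.comp_apply, h1, hψ₂s]
      simp
  have hint₁ : ψ₁.toRingHom.IsIntegral := by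
    apply C15_int
    intro i
    refine Fin.cases ?_ (fun j => ?_) i
    · have h1 : ψ₁.toRingHom (X 0) = X 0 := hψ₁0
      rw [← h1]
      exact RingHom.isIntegralElem_map _
    · obtain ⟨p, hpm, hp⟩ := hz.to_isIntegral (X j)
      refine ⟨p.map ρ.toRingHom, hpm.map _, ?_⟩
      rw [Polynomial.eval₂_map]
      have h2 : ψ₁.toRingHom.comp ρ.toRingHom = ρ.toRingHom.comp
          (aeval z : MvPolynomial (Fin n) k →ₐ[k] MvPolynomial (Fin n) k).toRingHom := by
        ext q
        · exact congrArg _ (hψ₁s _)
        · exact congrArg _ (hψ₁s _)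
      have h3 : (X j.succ : MvPolynomial (Fin (n + 1)) k) = ρ.toRingHom (X j) := by
        simp [hρ]
      rw [h2, h3, ← Polynomial.hom_eval₂, hp, map_zero]
  have hint₂ : ψ₂.toRingHom.IsIntegral := by
    apply C15_int
    intro i
    refine Fin.cases ?_ (fun j => ?_) i
    · set Q := finSuccEquiv k n P with hQ
      have hdeg : 0 < Q.natDegree := by
        rcases Nat.eq_zero_or_pos Q.natDegree with h0 | h0
        · exfalso
          apply hP'
          have h1 : Q = Polynomial.C Q.leadingCoeff := by
            rw [Polynomial.leadingCoeff, h0]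
            exact Polynomial.eq_C_of_natDegree_eq_zero h0
          have h2 : IsUnit Q := by
            rw [h1]
            exact Polynomial.isUnit_C.mpr hP
          have h3 := h2.map (finSuccEquiv k n).symm
          rw [hQ, AlgEquiv.symm_apply_apply] at h3
          exact h3
        · exact h0
      have hlc : (Q.map ρ.toRingHom).leadingCoeff = ρ.toRingHom Q.leadingCoeff :=
        Polynomial.leadingCoeff_map_of_injective hρinj _
      have hnd : (Q.map ρ.toRingHom).natDegree = Q.natDegree :=
        Polynomial.natDegree_map_eq_of_injective hρinj _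
      have hlt : (Polynomial.C (X 0 : MvPolynomial (Fin (n + 1)) k)).degree
          < (Q.map ρ.toRingHom).degree := by
        refine lt_of_le_of_lt Polynomial.degree_C_le ?_
        exact Polynomial.natDegree_pos_iff_degree_pos.mp (by rw [hnd]; exact hdeg)
      have hl2 : (Q.map ρ.toRingHom - Polynomial.C (X 0)).leadingCoeff
          = ρ.toRingHom Q.leadingCoeff := by
        rw [Polynomial.leadingCoeff_sub_of_degree_lt hlt, hlc]
      have hu : IsUnit (Q.map ρ.toRingHom - Polynomial.C (X 0)).leadingCoeff := by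
        rw [hl2]
        exact hP.map _
      obtain ⟨u, hu⟩ := hu.exists_left_inv
      refine ⟨Polynomial.C u * (Q.map ρ.toRingHom - Polynomial.C (X 0)),
        Polynomial.monic_C_mul_of_mul_leadingCoeff_eq_one hu, ?_⟩
      rw [Polynomial.eval₂_mul, Polynomial.eval₂_sub, Polynomial.eval₂_map, Polynomial.eval₂_C,
        Polynomial.eval₂_C]
      have h2 : ψ₂.toRingHom.comp ρ.toRingHom = ρ.toRingHom := by
        ext q
        · exact congrArg _ (hψ₂s _)
        · exact congrArg _ (hψ₂s _)
      have h3 : ψ₂.toRingHom (X 0) = P := hψ₂0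
      rw [h2, h3, hQ, C15_succ P, sub_self, mul_zero]
    · have h1 : ψ₂.toRingHom (X j.succ) = X j.succ := by
        change ψ₂ (X j.succ) = _
        simp [hψ₂]
      rw [← h1]
      exact RingHom.isIntegralElem_map _
  have hint : (ψ₂.comp ψ₁).toRingHom.IsIntegral := hint₁.trans _ _ hint₂
  rw [hcomp]
  refine hint.to_finite ?_
  have hft : (algebraMap k (MvPolynomial (Fin (n + 1)) k)).FiniteType :=
    RingHom.finiteType_algebraMap.mpr inferInstance
  have hal : algebraMap k (MvPolynomial (Fin (n + 1)) k)
      = (ψ₂.comp ψ₁).toRingHom.comp (algebraMap k (MvPolynomial (Fin (n + 1)) k)) := by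
    ext a : 1
    exact ((ψ₂.comp ψ₁).commutes a).symm
  rw [hal] at hft
  exact hft.of_comp_finiteType

end Pool.Agent.Lib.MP_17a322_nt.VN
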