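import Pool.Agent.Lib.MP_17a322_nt.VN.F1
import Pool.Agent.Lib.MP_17a322_nt.VJ.K3
import Pool.Agent.Lib.MP_17a322_nt.VJ.MW4

/-!
VN, part F: the pigeonhole for points on a product of elliptic curves and the choice of the points
`P₀, P₁, ..., P_m` of the main argument.
-/

universe u

namespace Pool.Agent.Lib.MP_17a322_nt.VN

open Filter Topology Height
open Pool.Agent.Lib.MP_17a322_nt.VJ

/-- The pigeonhole (11.1) for `n` coordinates. -/
theorem PIGn {K : Type u} [Field K] [NumberField K] [DecidableEq K] {n : ℕ}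
    (W : Fin n → WeierstrassCurve K) [∀ t, (W t).IsElliptic]
    (Γ : ∀ t, AddSubgroup (W t).toAffine.Point) (hΓ : ∀ t, (Γ t).FG)
    (P : ℕ → ∀ t, (W t).toAffine.Point) (hP : ∀ n t, P n t ∈ Γ t)
    (hH : Tendsto (fun n => HN (P n)) atTop atTop) {η : ℝ} (hη : 0 < η) (R : ℕ) (H₀ : ℝ) :
    ∃ φ j : ℕ → ℕ, StrictMono φ ∧ StrictMono j ∧ j 0 = 0 ∧ (∀ i, H₀ ≤ HN (P (φ i))) ∧
      (∀ i i', i < i' → R * 4 ^ j i ≤ 4 ^ j i') ∧
      ∀ i i', i ≤ i' →
        (∀ t, logHeight (P (φ i') t - 2 ^ (j i' - j i) • P (φ i) t).xRep ≤ η * HN (P (φ i'))) ∧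
        |HN (P (φ i')) - 4 ^ (j i' - j i) * HN (P (φ i))| ≤ η * HN (P (φ i')) := by
  classical
  -- exact quadratic functions
  have hex : ∀ t, ∃ (q : (W t).toAffine.Point → ℝ) (C : ℝ),
      (∀ Q, |q Q - logHeight Q.xRep| ≤ C) ∧ (∀ Q, 0 ≤ q Q) ∧
      ∀ Q Q', q (Q + Q') + q (Q - Q') = 2 * q Q + 2 * q Q' := by
    intro t
    obtain ⟨C, hC⟩ := RO.parallelogram (W t)
    exact RO.exists_quadratic (fun Q : (W t).toAffine.Point => logHeight Q.xRep)
      ⟨0, fun Q => logHeight_nonneg _⟩ C hC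
  choose q C hqC hq0 hpar using hex
  have hC0 : ∀ t, 0 ≤ C t := fun t => (abs_nonneg _).trans (hqC t 0)
  -- the product group
  obtain ⟨qq, hqq⟩ : ∃ qq : (∀ t, Γ t) → ℝ, ∀ x, qq x = ∑ t, q t (x t) := ⟨_, fun _ => rfl⟩
  obtain ⟨Q, hQ⟩ : ∃ Q : ℕ → ∀ t, Γ t, ∀ n t, Q n t = ⟨P n t, hP n t⟩ := ⟨_, fun _ _ => rfl⟩
  have hQ' : ∀ n t, ((Q n t : Γ t) : (W t).toAffine.Point) = P n t := fun n t => by rw [hQ]
  have hfg : ∀ t, AddGroup.FG (Γ t) := fun t => (AddGroup.fg_iff_addSubgroup_fg _).mpr (hΓ t)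
  have : ∀ t, Module.Finite ℤ (Γ t) := fun t => Module.Finite.iff_addGroup_fg.mpr (hfg t)
  have : AddGroup.FG (∀ t, Γ t) := Module.Finite.iff_addGroup_fg.mp inferInstance
  have hCsum : 0 ≤ ∑ t, C t := Finset.sum_nonneg fun t _ => hC0 t
  have hdiff : ∀ n, |qq (Q n) - HN (P n)| ≤ ∑ t, C t := by
    intro n
    rw [hqq, HN, ← Finset.sum_sub_distrib]
    refine (Finset.abs_sum_le_sum_abs _ _).trans (Finset.sum_le_sum fun t _ => ?_)
    rw [hQ']
    exact hqC t _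
  have hlimq : Tendsto (fun n => qq (Q n)) atTop atTop := by
    have h1 : Tendsto (fun n => -(∑ t, C t) + HN (P n)) atTop atTop :=
      tendsto_atTop_add_const_left _ _ hH
    refine tendsto_atTop_mono (fun n => ?_) h1
    have := abs_le.mp (hdiff n)
    linarith [this.1]
  obtain ⟨D, hD⟩ : ∃ D : ℝ, D = ∑ t, C t := ⟨_, rfl⟩
  rw [← hD] at hdiff hCsum
  obtain ⟨δ, hδ0, hδ1, hδη⟩ : ∃ δ : ℝ, 0 < δ ∧ δ ≤ 1 ∧ 4 * δ ≤ η :=
    ⟨min 1 (η / 4), by positivity, min_le_left _ _, by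
      have := min_le_right 1 (η / 4)
      linarith⟩
  -- threshold: all heights at least `M`
  obtain ⟨M, hM⟩ : ∃ M : ℝ, M = max (H₀ + D) (max 1 (8 * D / δ)) := ⟨_, rfl⟩
  obtain ⟨φ, j, h1, h2, h3, h4, h5, h6⟩ := K3_group qq
    (fun x => by rw [hqq]; exact Finset.sum_nonneg fun t _ => hq0 t _)
    (fun x y => by
      rw [hqq, hqq, hqq, hqq, ← Finset.sum_add_distrib, Finset.mul_sum, Finset.mul_sum,
        ← Finset.sum_add_distrib]
      exact Finset.sum_congr rfl fun t _ => by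
        simpa using hpar t (x t) (y t))
    Q hlimq hδ0 R M
  have hMH : H₀ + D ≤ M := by rw [hM]; exact le_max_left _ _
  have hM1 : 1 ≤ M := by rw [hM]; exact (le_max_left _ _).trans (le_max_right _ _)
  have hMD : 8 * D ≤ δ * M := by
    have : 8 * D / δ ≤ M := by rw [hM]; exact (le_max_right _ _).trans (le_max_right _ _)
    rw [div_le_iff₀ hδ0] at this
    linarith
  refine ⟨φ, j, h1, h2, h3, ?_, h5, ?_⟩
  · intro i
    have h7 := h4 i
    have h8 := abs_le.mp (hdiff (φ i))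
    linarith [h8.2]
  · intro i i' h
    obtain ⟨h7, h8⟩ := h6 i i' h
    have h9 := h4 i
    have h10 := h4 i'
    have h11 := abs_le.mp (hdiff (φ i))
    have h12 := abs_le.mp (hdiff (φ i'))
    -- `qq ≤ 2 HN`
    have h13 : D ≤ qq (Q (φ i')) / 8 := by nlinarith
    have h14 : qq (Q (φ i')) ≤ 8 / 7 * HN (P (φ i')) := by linarith [h12.2]
    have hHpos : 0 ≤ HN (P (φ i')) := by linarith [h12.2]
    constructor
    · intro t
      have h15 : q t (P (φ i') t - 2 ^ (j i' - j i) • P (φ i) t) ≤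
          qq (Q (φ i') - (2 ^ (j i' - j i) : ℕ) • Q (φ i)) := by
        rw [hqq]
        have h16 := Finset.single_le_sum (f := fun t =>
          q t (((Q (φ i') - (2 ^ (j i' - j i) : ℕ) • Q (φ i)) t : Γ t) : (W t).toAffine.Point))
          (fun t _ => hq0 t _) (Finset.mem_univ t)
        refine le_trans (le_of_eq ?_) h16
        simp [hQ']
      have h17 := abs_le.mp (hqC t (P (φ i') t - 2 ^ (j i' - j i) • P (φ i) t))
      have h18 : C t ≤ D := by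
        rw [hD]
        exact Finset.single_le_sum (fun t _ => hC0 t) (Finset.mem_univ t)
      have h19 : D ≤ δ * qq (Q (φ i')) := by nlinarith
      have h20 : 2 * δ * qq (Q (φ i')) ≤ η * HN (P (φ i')) := by
        have : 2 * δ * qq (Q (φ i')) ≤ 2 * δ * (8 / 7 * HN (P (φ i'))) :=
          mul_le_mul_of_nonneg_left h14 (by positivity)
        nlinarith
      linarith [h17.1]
    · -- `4 ^ e D ≤ ...`
      have hE : (0 : ℝ) < 4 ^ (j i' - j i) := by positivity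
      have h21 := abs_le.mp h8
      have h22 : (4 : ℝ) ^ (j i' - j i) * qq (Q (φ i)) ≤ 2 * qq (Q (φ i')) := by
        nlinarith [h21.1]
      have h23 : 8 * D ≤ δ * qq (Q (φ i)) := by nlinarith
      have h24 : (4 : ℝ) ^ (j i' - j i) * (8 * D) ≤ δ * (2 * qq (Q (φ i'))) := by
        have := mul_le_mul_of_nonneg_left h23 hE.le
        have := mul_le_mul_of_nonneg_left h22 hδ0.le
        nlinarith
      have h25 : |(4 : ℝ) ^ (j i' - j i) * qq (Q (φ i)) - 4 ^ (j i' - j i) * HN (P (φ i))| ≤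
          4 ^ (j i' - j i) * D := by
        rw [← mul_sub, abs_mul, abs_of_pos hE]
        exact mul_le_mul_of_nonneg_left (hdiff (φ i)) hE.le
      have h26 := abs_le.mp h25
      have h27 : 2 * δ * qq (Q (φ i')) ≤ η * HN (P (φ i')) := by
        have : 2 * δ * qq (Q (φ i')) ≤ 2 * δ * (8 / 7 * HN (P (φ i'))) :=
          mul_le_mul_of_nonneg_left h14 (by positivity)
        nlinarith
      have h28 : 8 * D ≤ δ * qq (Q (φ i')) := by nlinarith
      rw [abs_le]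
      constructor <;> linarith [h21.1, h21.2, h12.1, h12.2, h26.1, h26.2]


theorem HN_nonneg {K : Type*} [Field K] [AdmissibleAbsValues K] {n : ℕ}
    {W : Fin n → WeierstrassCurve K} (P : ∀ t, (W t).toAffine.Point) : 0 ≤ HN P :=
  Finset.sum_nonneg fun _ _ => logHeight_nonneg _

/-- The choice of the points: `a` is the index of `P₀`, `b i` that of `P_i`. -/
theorem FRAME {K : Type u} [Field K] [NumberField K] [DecidableEq K] {n : ℕ}
    (W : Fin n → WeierstrassCurve K) [∀ t, (W t).IsElliptic]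
    (P : ℕ → ∀ t, (W t).toAffine.Point)
    (hH : Tendsto (fun i => HN (P i)) (hyperfilter ℕ : Filter ℕ) atTop)
    (h : ℕ → ℝ) (hh : oH (fun i => HN (P i)) h) (S : ℕ → Prop)
    (hS : ∀ᶠ i in (hyperfilter ℕ : Filter ℕ), S i) (m R₀ : ℕ) (C₀ η : ℝ) (hη : 0 < η) :
    ∃ (a : ℕ) (b : Fin m → ℕ) (j : Fin m → ℕ), S a ∧ (∀ i, S (b i)) ∧ C₀ ≤ HN (P a) ∧
      0 < HN (P a) ∧
      (∀ i, R₀ ≤ 4 ^ j i) ∧ (∀ i i', i < i' → R₀ * 4 ^ j i ≤ 4 ^ j i') ∧
      (∀ i, h (b i) ≤ 4 ^ j i) ∧ (∀ i, 4 ^ j i * HN (P a) ≤ 2 * HN (P (b i))) ∧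
      (∀ i t, logHeight (P (b i) t - 2 ^ j i • P a t).xRep ≤ η * (4 ^ j i * HN (P a))) ∧
      (∀ i, |HN (P (b i)) - 4 ^ j i * HN (P a)| ≤ η * (4 ^ j i * HN (P a))) := by
  have hex : ∀ N : ℕ, ∃ i, S i ∧ (N : ℝ) ≤ HN (P i) ∧ h i ≤ 1 / ((N : ℝ) + 1) * HN (P i) := by
    intro N
    have h1 := hS.and ((hH.eventually_ge_atTop (N : ℝ)).and (hh (1 / ((N : ℝ) + 1)) (by positivity)))
    exact h1.exists
  choose c hcS hcN hch using hex
  have hlim : Tendsto (fun N => HN (P (c N))) atTop atTop :=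
    tendsto_atTop_mono hcN tendsto_natCast_atTop_atTop
  obtain ⟨η', hη'0, hη'1, hη'2⟩ : ∃ η' : ℝ, 0 < η' ∧ η' ≤ 1 / 2 ∧ 2 * η' ≤ η :=
    ⟨min (1 / 2) (η / 2), by positivity, min_le_left _ _, by
      have := min_le_right (1 / 2 : ℝ) (η / 2)
      linarith⟩
  have hfg : ∀ t, (⊤ : AddSubgroup (W t).toAffine.Point).FG := fun t => (mordell_weil (W t)).1
  obtain ⟨φ, j, hφ, hj, hj0, hH₀, hR, hpig⟩ := PIGn W (fun _ => ⊤) hfg (fun N => P (c N))
    (fun _ _ => AddSubgroup.mem_top _) hlim hη'0 R₀ (max 1 C₀)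
  obtain ⟨N₀, hN₀⟩ : ∃ N₀ : ℕ, 2 * HN (P (c (φ 0))) ≤ (N₀ : ℝ) := exists_nat_ge _
  have hpos : ∀ k, 1 ≤ HN (P (c (φ k))) := fun k => (le_max_left _ _).trans (hH₀ k)
  have hbd : ∀ k, HN (P (c (φ k))) ≤ 2 * (4 ^ j k * HN (P (c (φ 0)))) ∧
      4 ^ j k * HN (P (c (φ 0))) ≤ 2 * HN (P (c (φ k))) := by
    intro k
    have h1 := (hpig 0 k (Nat.zero_le _)).2
    rw [hj0, Nat.sub_zero] at h1
    have h2 := abs_le.mp h1
    have h3 := hpos k
    have h4 : η' * HN (P (c (φ k))) ≤ 1 / 2 * HN (P (c (φ k))) :=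
      mul_le_mul_of_nonneg_right hη'1 (by linarith)
    constructor
    · linarith [h2.2]
    · linarith [h2.1]
  have hsm : ∀ k, η' * HN (P (c (φ k))) ≤ η * (4 ^ j k * HN (P (c (φ 0)))) := by
    intro k
    have h1 := (hbd k).1
    have h2 := hpos 0
    have h3 : (0 : ℝ) < 4 ^ j k * HN (P (c (φ 0))) := by positivity
    calc η' * HN (P (c (φ k))) ≤ η' * (2 * (4 ^ j k * HN (P (c (φ 0))))) :=
          mul_le_mul_of_nonneg_left h1 hη'0.le
      _ = 2 * η' * (4 ^ j k * HN (P (c (φ 0)))) := by ring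
      _ ≤ _ := mul_le_mul_of_nonneg_right hη'2 h3.le
  refine ⟨c (φ 0), fun i => c (φ (N₀ + 1 + i)), fun i => j (N₀ + 1 + i), hcS _, fun i => hcS _,
    (le_max_right _ _).trans (hH₀ 0), by linarith [hpos 0], ?_, ?_, ?_, ?_, ?_, ?_⟩
  · intro i
    have h1 := hR 0 (N₀ + 1 + i) (by omega)
    rw [hj0, pow_zero, mul_one] at h1
    exact h1
  · intro i i' hii
    have h1 : (i : ℕ) < i' := hii
    exact hR _ _ (by omega)
  · intro i
    obtain ⟨k, hk⟩ : ∃ k, k = N₀ + 1 + (i : ℕ) := ⟨_, rfl⟩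
    simp only [← hk]
    have h1 := hch (φ k)
    have h2 : (N₀ : ℝ) ≤ (φ k : ℝ) := by
      have h3 : k ≤ φ k := hφ.id_le k
      have h4 : N₀ ≤ φ k := by omega
      exact_mod_cast h4
    have h5 := (hbd k).1
    have h6 : (0 : ℝ) < (φ k : ℝ) + 1 := by positivity
    rw [div_mul_eq_mul_div, one_mul, le_div_iff₀ h6] at h1
    have h7 : (0 : ℝ) < 4 ^ j k := by positivity
    have h8 : HN (P (c (φ k))) ≤ 4 ^ j k * ((φ k : ℝ) + 1) := by
      have h9 : 2 * HN (P (c (φ 0))) ≤ (φ k : ℝ) + 1 := by linarith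
      have h10 := mul_le_mul_of_nonneg_left h9 h7.le
      linarith
    have h11 := h1.trans h8
    exact le_of_mul_le_mul_right h11 h6
  · intro i
    exact (hbd _).2
  · intro i t
    have h1 := (hpig 0 (N₀ + 1 + i) (Nat.zero_le _)).1 t
    rw [hj0, Nat.sub_zero] at h1
    exact h1.trans (hsm _)
  · intro i
    have h1 := (hpig 0 (N₀ + 1 + i) (Nat.zero_le _)).2
    rw [hj0, Nat.sub_zero] at h1
    exact h1.trans (hsm _)

end Pool.Agent.Lib.MP_17a322_nt.VN
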