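import Pool.Agent.Lib.MP_17a322_nt.VN.F5
import Pool.Agent.Lib.MP_17a322_nt.VJ.C4
import Pool.Agent.Lib.MP_17a322_nt.VJ.C2

/-!
VN, part F: consequences of algebraic independence; comparison of heights; irreducibility of the members
of a sequence of polynomials.
-/

universe u

namespace Pool.Agent.Lib.MP_17a322_nt.VN

open MvPolynomial Height Filter
open Pool.Agent.Lib.MP_17a322_nt.RO
open Pool.Agent.Lib.MP_17a322_nt.VJ

section

variable {k F σ ι : Type*} [Field k] [Field F] [Algebra k F]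

theorem indep_aeval_ne {x : σ → F} (f : ι → σ) (hf : Function.Injective f)
    (hi : AlgebraicIndependent k fun t : ι => x (f t)) {p : MvPolynomial σ k} (hp : p ≠ 0)
    (hd : ∀ t, t ∉ Set.range f → p.degreeOf t = 0) : aeval x p ≠ 0 := by
  intro h0
  have hvars : (p.vars : Set σ) ⊆ Set.range f := by
    intro t ht
    by_contra hc
    obtain ⟨m, hm, hmt⟩ := (mem_vars_iff_mem_support t).mp (Finset.mem_coe.mp ht)
    have g2 := monomial_le_degreeOf t hm
    rw [hd t hc] at g2
    exact Finsupp.mem_support_iff.mp hmt (Nat.le_zero.mp g2)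
  obtain ⟨p', hp'⟩ := exists_rename_eq_of_vars_subset_range p f hf hvars
  have h7 : aeval (fun t : ι => x (f t)) p' = 0 := by
    rw [← hp', aeval_rename] at h0
    exact h0
  have h8 := (algebraicIndependent_iff.mp hi) p' h7
  rw [h8, map_zero] at hp'
  exact hp hp'.symm

theorem indep_notMem {K : Type*} [Field K] [Algebra K F] (k : IntermediateField K F) {x : ι → F}
    (hi : AlgebraicIndependent k x) (t : ι) : x t ∉ k := by
  intro h
  have h1 := hi.transcendental t
  exact h1 (isAlgebraic_algebraMap (⟨x t, h⟩ : k))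

theorem degreeOf_ne_zero_of_pderiv {r : σ} {g : MvPolynomial σ k} (h : pderiv r g ≠ 0) :
    g.degreeOf r ≠ 0 := by
  intro h0
  apply h
  apply pderiv_eq_zero_of_notMem_vars
  intro hr
  obtain ⟨m, hm, hmt⟩ := (mem_vars_iff_mem_support r).mp hr
  have g2 := monomial_le_degreeOf r hm
  rw [h0] at g2
  exact Finsupp.mem_support_iff.mp hmt (Nat.le_zero.mp g2)

/-- A polynomial which vanishes at a generic point of the irreducible hypersurface `g` is divisible by
`g`. -/
theorem dvd_of_aeval [Finite σ] {x : σ → F} (r : σ)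
    (hi : AlgebraicIndependent k fun t : {t : σ // t ≠ r} => x t) {g q : MvPolynomial σ k}
    (hg : Irreducible g) (hr : g.degreeOf r ≠ 0) (h0 : aeval x g = 0) (hq : aeval x q = 0) :
    g ∣ q := by
  classical
  by_contra hnd
  have h1 := El_ne_zero_of_irreducible r g q hg hr hnd
  have h2 := aeval_dvd_El r g q (Or.inl hr) x h0
  rw [hq, zero_dvd_iff] at h2
  refine indep_aeval_ne (fun t : {t : σ // t ≠ r} => (t : σ)) Subtype.val_injective hi h1 ?_ h2
  intro t ht
  have h3 : t = r := by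
    by_contra hne
    exact ht ⟨⟨t, hne⟩, rfl⟩
  rw [h3]
  exact degreeOf_El_self r g q

end

section

variable {K : Type*} [Field K] {σ : Type*}

theorem map_eq_of_ev_eq {P Q : MvPolynomial σ (ℕ → K)}
    (h : ∀ᶠ i in (hyperfilter ℕ : Filter ℕ), ev i P = ev i Q) : map (gR K) P = map (gR K) Q := by
  ext m
  rw [coeff_map, coeff_map, gR_apply, gR_apply, gm_eq_iff]
  filter_upwards [h] with i hi
  rw [← coeff_ev, ← coeff_ev, hi]

theorem isUnit_iff_coeff {R : Type*} [Field R] {p : MvPolynomial σ R} (hp : p ≠ 0) :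
    IsUnit p ↔ ∀ m, m ≠ 0 → coeff m p = 0 := by
  classical
  constructor
  · intro h m hm
    obtain ⟨r, -, hr⟩ := isUnit_iff_eq_C_of_isReduced.mp h
    rw [hr, coeff_C, if_neg (Ne.symm hm)]
  · intro h
    have h1 : p = C (coeff 0 p) := by
      ext m
      rw [coeff_C]
      split_ifs with hm
      · rw [hm]
      · exact h m (Ne.symm hm)
    rw [h1]
    have h2 : coeff 0 p ≠ 0 := by
      intro h3
      rw [h3, map_zero] at h1
      exact hp h1
    exact (isUnit_iff_ne_zero.mpr h2).map C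

/-- A sequence of nonconstant polynomials of bounded degree gives a nonconstant polynomial. -/
theorem not_isUnit_gl [Fintype σ] (D : ℕ) (a : ℕ → MvPolynomial σ K)
    (h : ∀ᶠ i in (hyperfilter ℕ : Filter ℕ), a i ≠ 0 ∧ ¬ IsUnit (a i) ∧
      ∀ t, (a i).degreeOf t ≤ D) :
    map (gR K) (gl (bx σ D) a) ≠ 0 ∧ ¬ IsUnit (map (gR K) (gl (bx σ D) a)) := by
  classical
  have h1 : ∀ᶠ i in (hyperfilter ℕ : Filter ℕ),
      ∃ m ∈ ((bx σ D : Finset (σ →₀ ℕ)) : Set (σ →₀ ℕ)), m ≠ 0 ∧ coeff m (a i) ≠ 0 := by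
    filter_upwards [h] with i hi
    obtain ⟨g1, g2, g3⟩ := hi
    rw [isUnit_iff_coeff g1] at g2
    push Not at g2
    obtain ⟨m, hm1, hm2⟩ := g2
    exact ⟨m, support_subset_bx g3 (mem_support_iff.mpr hm2), hm1, hm2⟩
  obtain ⟨m, hm, h2⟩ := (Ultrafilter.eventually_exists_mem_iff (bx σ D).finite_toSet).mp h1
  have h3 : coeff m (map (gR K) (gl (bx σ D) a)) ≠ 0 := by
    rw [coeff_map, coeff_gl, if_pos (Finset.mem_coe.mp hm), gR_apply, gm_ne_zero_iff]
    filter_upwards [h2] with i hi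
    exact hi.2
  have h4 : map (gR K) (gl (bx σ D) a) ≠ 0 := by
    intro h
    rw [h, coeff_zero] at h3
    exact h3 rfl
  refine ⟨h4, ?_⟩
  rw [isUnit_iff_coeff h4]
  intro h5
  obtain ⟨i, hi⟩ := h2.exists
  exact h3 (h5 m hi.1)

end

/-- If `g` is irreducible over the field of germs, almost all members of the lift are irreducible. -/
theorem irreducible_pr {K : Type u} [Field K] [NumberField K] {H : ℕ → ℝ}
    {hH : Tendsto H (hyperfilter ℕ : Filter ℕ) atTop} {σ : Type*} [Fintype σ]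
    (g : MvPolynomial σ (k0 K H hH))
    (hg : Irreducible (map (algebraMap (k0 K H hH) (GK K)) g)) :
    ∀ᶠ i in (hyperfilter ℕ : Filter ℕ), Irreducible (pr g i) := by
  classical
  by_contra hcon
  rw [not_eventually_iff] at hcon
  have hg0 : g ≠ 0 := by
    rintro rfl
    exact hg.ne_zero (map_zero _)
  obtain ⟨D, hD⟩ : ∃ D : ℕ, ∀ t, g.degreeOf t ≤ D :=
    ⟨∑ t, g.degreeOf t, fun t => Finset.single_le_sum (f := fun t => g.degreeOf t)
      (fun _ _ => Nat.zero_le _) (Finset.mem_univ t)⟩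
  -- not a unit
  have hnu : ∀ᶠ i in (hyperfilter ℕ : Filter ℕ), ¬ IsUnit (pr g i) := by
    have h1 := hg.not_isUnit
    rw [isUnit_iff_coeff hg.ne_zero] at h1
    push Not at h1
    obtain ⟨m, hm1, hm2⟩ := h1
    have h2 : gm (fun i => coeff m (pr g i)) ≠ 0 := by
      have h3 : (fun i => coeff m (pr g i)) =
          rp (coeff m (map (algebraMap (k0 K H hH) (GK K)) g)) := by
        funext i
        unfold pr
        rw [coeff_ev, coeff_lf]
      rw [h3, gm_rp]
      exact hm2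
    rw [gm_ne_zero_iff] at h2
    filter_upwards [h2, pr_ne_zero hg0] with i hi hi0
    rw [isUnit_iff_coeff hi0]
    intro h4
    exact hi (h4 m hm1)
  have hfac : ∀ᶠ i in (hyperfilter ℕ : Filter ℕ),
      ∃ ab : MvPolynomial σ K × MvPolynomial σ K, pr g i = ab.1 * ab.2 ∧ ¬ IsUnit ab.1 ∧
        ¬ IsUnit ab.2 := by
    filter_upwards [hcon, hnu] with i h1 h2
    rw [irreducible_iff] at h1
    push Not at h1
    obtain ⟨a, b, h3, h4, h5⟩ := h1 h2
    exact ⟨⟨a, b⟩, h3, h4, h5⟩
  obtain ⟨ab, hab⟩ := exists_seq hfac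
  have hab' : ∀ᶠ i in (hyperfilter ℕ : Filter ℕ),
      ((ab i).1 ≠ 0 ∧ ¬ IsUnit (ab i).1 ∧ ∀ t, (ab i).1.degreeOf t ≤ D) ∧
      ((ab i).2 ≠ 0 ∧ ¬ IsUnit (ab i).2 ∧ ∀ t, (ab i).2.degreeOf t ≤ D) := by
    filter_upwards [hab, pr_ne_zero hg0] with i hi hi0
    obtain ⟨h1, h2, h3⟩ := hi
    have h4 : (ab i).1 ≠ 0 := by
      intro h
      rw [h, zero_mul] at h1
      exact hi0 h1
    have h5 : (ab i).2 ≠ 0 := by
      intro h
      rw [h, mul_zero] at h1
      exact hi0 h1
    have h6 : ∀ t, (ab i).1.degreeOf t + (ab i).2.degreeOf t ≤ D := by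
      intro t
      rw [← degreeOf_mul_eq h4 h5, ← h1]
      exact (degreeOf_pr g i t).trans (hD t)
    exact ⟨⟨h4, h2, fun t => (Nat.le_add_right _ _).trans (h6 t)⟩,
      ⟨h5, h3, fun t => (Nat.le_add_left _ _).trans (h6 t)⟩⟩
  obtain ⟨-, hA⟩ := not_isUnit_gl D (fun i => (ab i).1) (hab'.mono fun i hi => hi.1)
  obtain ⟨-, hB⟩ := not_isUnit_gl D (fun i => (ab i).2) (hab'.mono fun i hi => hi.2)
  have hprod : map (algebraMap (k0 K H hH) (GK K)) g =
      map (gR K) (gl (bx σ D) fun i => (ab i).1) * map (gR K) (gl (bx σ D) fun i => (ab i).2) := by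
    rw [← map_mul, ← map_lf (map (algebraMap (k0 K H hH) (GK K)) g)]
    apply map_eq_of_ev_eq
    filter_upwards [hab, hab'] with i h1 h2
    rw [map_mul, ev_gl _ _ _ (support_subset_bx h2.1.2.2),
      ev_gl _ _ _ (support_subset_bx h2.2.2.2), ← h1.1]
    rfl
  rcases hg.isUnit_or_isUnit hprod with h | h
  · exact hA h
  · exact hB h

end Pool.Agent.Lib.MP_17a322_nt.VN
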