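import Pool.Agent.Lib.MP_17a322_nt.VN.F6a
import Pool.Agent.Lib.MP_17a322_nt.VN.F6b
import Pool.Agent.Lib.MP_17a322_nt.VN.F4

/-!
VN, part F: charts, comparison of the heights of all and of some coordinates, nonvanishing of `y`.
-/

universe u

namespace Pool.Agent.Lib.MP_17a322_nt.VN

open MvPolynomial Height Filter
open Pool.Agent.Lib.MP_17a322_nt.RO
open Pool.Agent.Lib.MP_17a322_nt.VJ

theorem F6_CH_height {K : Type*} [Field K] [AdmissibleAbsValues K] {W : WeierstrassCurve K}
    {χ : Bool} {P : W.toAffine.Point} {s : K} (h : CH χ P s) :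
    logHeight P.xRep = logHeight₁ s := by
  obtain ⟨c, hc, h1⟩ := h
  rw [h1, logHeight_smul_eq_logHeight _ hc]
  cases χ
  · show logHeight (vc false s) = _
    rw [logHeight₁_eq_logHeight]
    rfl
  · show logHeight (vc true s) = _
    rw [logHeight₁_eq_logHeight, logHeight_swap]
    rfl

theorem HN_le_of_embedding {K : Type*} [Field K] [AdmissibleAbsValues K] {n k : ℕ}
    {W : Fin n → WeierstrassCurve K} (P : ∀ t, (W t).toAffine.Point) (J : Fin k ↪ Fin n) :
    HN (W := fun t => W (J t)) (fun t => P (J t)) ≤ HN P := by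
  unfold HN
  rw [← Finset.sum_map Finset.univ J fun t => logHeight (P t).xRep]
  exact Finset.sum_le_sum_of_subset_of_nonneg (Finset.subset_univ _)
    fun _ _ _ => logHeight_nonneg _

section

variable {K : Type u} [Field K] [NumberField K] {n : ℕ}
  (W : Fin n → WeierstrassCurve K) (χ : Fin n → Bool)
  (P : ℕ → ∀ t, (W t).toAffine.Point) (s y : ℕ → Fin n → K)
  (hH : Tendsto (fun i => HN (P i)) (hyperfilter ℕ : Filter ℕ) atTop)
  (hs : ∀ i t, CH (χ t) (P i t) (s i t))
  (hy : ∀ i t, y i t ^ 2 = ph (W t) (vc (χ t) (s i t)))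

include hs

/-- The coordinates in `J` carry a positive proportion of the height. -/
theorem HJ_ge {k : ℕ} (J : Fin k ↪ Fin n) (t₀ : Fin k)
    (h : gm (fun i => s i (J t₀)) ∉ k0 K _ hH) :
    ∃ c : ℝ, 0 < c ∧ ∀ᶠ i in (hyperfilter ℕ : Filter ℕ),
      c * HN (P i) ≤ HN (W := fun t => W (J t)) (fun t => P i (J t)) := by
  rw [mem_k0] at h
  unfold oH at h
  push Not at h
  obtain ⟨c, hc, h1⟩ := h
  refine ⟨c, hc, ?_⟩
  filter_upwards [h1] with i hi
  refine hi.le.trans ?_
  rw [← F6_CH_height (hs i (J t₀))]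
  exact Finset.single_le_sum (f := fun t => logHeight (P i (J t)).xRep)
    (fun _ _ => logHeight_nonneg _) (Finset.mem_univ t₀)

include hy

omit hs in
/-- `y` does not vanish where `s` is transcendental over `k0`. -/
theorem y_ne_zero (t : Fin n) (h : Transcendental (k0 K _ hH) (gm fun i => s i t)) :
    ∀ᶠ i in (hyperfilter ℕ : Filter ℕ), y i t ≠ 0 := by
  by_contra hcon
  rw [not_eventually_iff] at hcon
  push Not at hcon
  obtain ⟨Q, hQ0, hQ⟩ : ∃ Q : Polynomial K, Q ≠ 0 ∧
      ∀ x : K, Q.eval x = ph (W t) (vc (χ t) x) := by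
    cases hχ : χ t
    · refine ⟨Polynomial.C 4 * Polynomial.X ^ 3 + Polynomial.C (W t).b₂ * Polynomial.X ^ 2 +
        Polynomial.C (2 * (W t).b₄) * Polynomial.X + Polynomial.C (W t).b₆, ?_, ?_⟩
      · intro h0
        have h1 := congrArg (fun p => Polynomial.coeff p 3) h0
        simp only [Polynomial.coeff_add, Polynomial.coeff_C_mul, Polynomial.coeff_X_pow,
          Polynomial.coeff_X, Polynomial.coeff_C, Polynomial.coeff_zero] at h1
        norm_num at h1
      · intro x
        simp only [Polynomial.eval_add, Polynomial.eval_mul, Polynomial.eval_C,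
          Polynomial.eval_pow, Polynomial.eval_X, ph, vc, Algebra.algebraMap_self, RingHom.id_apply]
        simp
    · refine ⟨Polynomial.C (W t).b₆ * Polynomial.X ^ 4 +
        Polynomial.C (2 * (W t).b₄) * Polynomial.X ^ 3 +
        Polynomial.C (W t).b₂ * Polynomial.X ^ 2 + Polynomial.C 4 * Polynomial.X, ?_, ?_⟩
      · intro h0
        have h1 := congrArg (fun p => Polynomial.coeff p 1) h0
        simp only [Polynomial.coeff_add, Polynomial.coeff_C_mul, Polynomial.coeff_X_pow,
          Polynomial.coeff_X, Polynomial.coeff_zero] at h1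
        norm_num at h1
      · intro x
        simp [ph, vc]
        ring
  apply h
  have h1 : IsAlgebraic K (gm fun i => s i t) := by
    refine ⟨Q, hQ0, ?_⟩
    have h2 : Polynomial.aeval (gm fun i => s i t) Q = gm fun i => Q.eval (s i t) := by
      rw [Polynomial.aeval_def, Polynomial.eval₂_eq_sum_range]
      have h3 : (fun i => Q.eval (s i t)) =
          fun i => ∑ j ∈ Finset.range (Q.natDegree + 1), Q.coeff j * s i t ^ j := by
        funext i
        rw [Polynomial.eval_eq_sum_range]
      rw [h3, gm_sum]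
      rfl
    rw [h2, gm_eq_zero_iff]
    filter_upwards [hcon] with i hi
    rw [hQ, ← hy i t, hi]
    ring
  exact h1.extendScalars (algebraMap K (k0 K _ hH)).injective

end

end Pool.Agent.Lib.MP_17a322_nt.VN
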