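import Pool.Agent.Lib.MP_17a322_nt.VN.E1
import Pool.Agent.Lib.MP_17a322_nt.VN.E3a
import Pool.Agent.Lib.MP_17a322_nt.VN.E3b

/-!
Absolute irreducibility of the polynomial relation over a relatively algebraically closed field.
-/

namespace Pool.Agent.Lib.MP_17a322_nt.VN

open MvPolynomial

/-- Absolute irreducibility. Proof. Let `k' = algebraicClosure k (AlgebraicClosure F)` (an
`IsAlgClosure k k'`), `Ωb = AlgebraicClosure Ω`. There is a `k`-embedding `k' →ₐ[k] Ωb`
(`IsAlgClosed.lift`); with it `Ωb` is a `k'`-algebra (tower over `k`). `map g` over `k'` is irreducible by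
`ABSIRR_aux`, over `Ωb` by `KL_irreducible` (E1, `closed_of_isAlgClosed` for `k'`), and so over `Ω` by
`irreducible_of_map`. -/
theorem ABSIRR {k F σ : Type*} [Finite σ] [Field k] [CharZero k] [Field F] [Algebra k F]
    (hk : ∀ z : F, IsAlgebraic k z → z ∈ (algebraMap k F).range) (r : σ) (s : σ → F)
    (hs : AlgebraicIndependent k fun t : {t : σ // t ≠ r} => s t) (g : MvPolynomial σ k)
    (hg : Irreducible g) (h0 : aeval s g = 0) (Ω : Type*) [Field Ω] [Algebra k Ω] :
    Irreducible (map (algebraMap k Ω) g) := by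
  have h1 := ABSIRR_aux hk r s hs g hg h0
  let K' := algebraicClosure k (AlgebraicClosure F)
  let Ωb := AlgebraicClosure Ω
  haveI : IsAlgClosed K' := (algebraicClosure.isAlgClosure k (AlgebraicClosure F)).isAlgClosed
  haveI : Algebra.IsAlgebraic k K' := algebraicClosure.isAlgebraic k (AlgebraicClosure F)
  let e : K' →ₐ[k] Ωb := IsAlgClosed.lift
  letI : Algebra K' Ωb := e.toRingHom.toAlgebra
  haveI : IsScalarTower k K' Ωb := IsScalarTower.of_algebraMap_eq fun x => (e.commutes x).symm
  have h2 := KL_irreducible (Ω := Ωb) (closed_of_isAlgClosed (A := K') (Ω := Ωb)) _ h1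
  rw [MvPolynomial.map_map, ← IsScalarTower.algebraMap_eq k K' Ωb,
    IsScalarTower.algebraMap_eq k Ω Ωb, ← MvPolynomial.map_map] at h2
  exact irreducible_of_map _ h2

end Pool.Agent.Lib.MP_17a322_nt.VN
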