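import Pool.Agent.Lib.MP_17a322_nt.VN.L1u
import Pool.Agent.Lib.MP_17a322_nt.VN.L1w
import Pool.Agent.Lib.MP_17a322_nt.VN.C12

/-!
# JOB L1x: theorem S1

PROOF of `S1`. Constants, in this order: `c₀` from `exists_aux W e D` (C12); `m` from `choose_m c₀ ε` (L1w); `N`, `CA` from `exists_aux .. m`, so `2 N + 8 ≤ m ε / 4`; `C₁` from `elim_one W χ m` (LInt); `C` from `ineq_one W χ e D m N` (L1u);
`C₂ = C₁ + 1`, `CF = CA * (m + 1)`, `B = CF + finrank ℚ K * ((k + 2) * (m + 1)) + 1`, `s₀ = ε / (8 * ((C₂ * N + 1) * (2 * C + 2)))`, `R₁`, `D'`, `B'` from `order_T m (k + 2) none s₀ B` (LInt); `η`, `C₃` from `numeric_end (k + 2) m N ε C C₂ s₀ CF`. The answer: `m`, `D'`, `R₀ = max R₁ 2`,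
`C₀ = max C₃ B'`, `η`.
Given the data: `J = Finset.univ.sup j` (`Finset.le_sup`); `F₀` from `exists_aux` with height `≤ CA * (4 ^ J + ∑ i, 4 ^ (J - j i) * (ρ i).ht) ≤ CF * 4 ^ J` (`ht ≤ 4 ^ j i`). `N₀ = NF (box ..) (BB ..) F₀`: `NF_ne`, `NF_degrees`, `NF_height` (L1q): `nh N₀ ≤ B * (N * 4 ^ J) - ..`; `elim_one` with
`b = N * 4 ^ J`, `H = (B - 1) * (N * 4 ^ J)` (`1 ≤ N`): `NN`, `nh (NN last) ≤ C₁ * (H + b) = C₁ * (B * b) ≤ B * μ` with `μ = C₂ * (N * 4 ^ J) > 0`. `order_T` with `σ p = s p.1 p.2` (gap condition: `R₁ ≤ R₀`). First alternative: this is the conclusion (`B' ≤ C₀`). Second alternative: `a`, `c`;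
`ineq_one` gives `INEQ`; (the hypothesis on `c`: for `r = none` the condition `p.2 ∉ r` is always true); `numeric_end` with `s = 0`, `E i = ∑ t, logHeight (P i t - 2 ^ j i • P₀ t).xRep` (`≥ 0`, each `≤ η * ..`, sum over `k + 2` terms), gives `False`. `geom_J` (L1w).
-/

universe u

namespace Pool.Agent.Lib.MP_17a322_nt.VN

open MvPolynomial Height
open Pool.Agent.Lib.MP_17a322_nt.RO
open Pool.Agent.Lib.MP_17a322_nt.VJ

/-- Stage 1. -/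
theorem S1 {K : Type u} [Field K] [NumberField K] [DecidableEq K] {k : ℕ}
    (W : Fin (k + 2) → WeierstrassCurve K) [∀ t, (W t).IsElliptic] (χ : Fin (k + 2) → Bool)
    (e D : ℕ) (ε : ℝ) (hε : 0 < ε) :
    ∃ (m D' R₀ : ℕ) (C₀ η : ℝ), 0 < m ∧ 0 ≤ C₀ ∧ 0 < η ∧
      ∀ (P₀ : ∀ t, (W t).toAffine.Point) (P : Fin m → ∀ t, (W t).toAffine.Point) (j : Fin m → ℕ)
        (s y : Fin m → Fin (k + 2) → K) (ρ : Fin m → REP K (k + 2) e),
      (∀ i, R₀ ≤ 4 ^ j i) → (∀ i i', i < i' → R₀ * 4 ^ j i ≤ 4 ^ j i') →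
      (∀ i t, P i t ≠ 0) → (∀ i t, CH (χ t) (P i t) (s i t)) →
      (∀ i t, y i t ^ 2 = ph (W t) (vc (χ t) (s i t))) → (∀ i t, y i t ≠ 0) →
      (∀ i, (ρ i).Deg D) → (∀ i, (ρ i).ht ≤ 4 ^ j i) →
      (∀ i, eval (s i) ((ρ i).z 0) ≠ 0 ∨ eval (s i) ((ρ i).z 1) ≠ 0) →
      (∀ i, ε * HN (P i) ≤ gn (s i) (eval (s i) ((ρ i).z 0)) (eval (s i) ((ρ i).z 1))) →
      (∀ t, P₀ t ≠ 0) → C₀ ≤ HN P₀ →
      (∀ i t, logHeight (P i t - 2 ^ j i • P₀ t).xRep ≤ η * (4 ^ j i * HN P₀)) →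
      (∀ i, |HN (P i) - 4 ^ j i * HN P₀| ≤ η * (4 ^ j i * HN P₀)) →
      ∃ (i : Fin m) (G : MvPolynomial (Fin (k + 2)) K), G ≠ 0 ∧ (∀ t, G.degreeOf t ≤ D') ∧
        nh G ≤ C₀ * 4 ^ j i ∧ eval (s i) G = 0 := by
  classical
  obtain ⟨c₀, hc₀⟩ := exists_aux W e D
  obtain ⟨m, hm1, hm⟩ := choose_m c₀ ε hε
  obtain ⟨N, CA, hN1, hN2, hCA, haux⟩ := hc₀ m hm1
  have hNε := hm N hN2
  obtain ⟨C₁, hC₁, hel⟩ := elim_one W χ m
  obtain ⟨C, hC, hin⟩ := ineq_one W χ e D m N hN1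
  obtain ⟨C₂, hC₂d⟩ : ∃ C₂ : ℝ, C₂ = C₁ + 1 := ⟨_, rfl⟩
  have hC₂ : 0 < C₂ := by
    rw [hC₂d]
    linarith
  obtain ⟨CF, hCFd⟩ : ∃ CF : ℝ, CF = CA * (m + 1) := ⟨_, rfl⟩
  have hCF : 0 ≤ CF := by
    rw [hCFd]
    positivity
  obtain ⟨B, hBd⟩ : ∃ B : ℝ, B = CF + Module.finrank ℚ K * (((k + 2 : ℕ) : ℝ) * (m + 1)) + 1 :=
    ⟨_, rfl⟩
  have hB : 0 ≤ B := by
    rw [hBd]
    positivity
  have hN0 : (0 : ℝ) < N := by exact_mod_cast hN1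
  have hden : 0 < 8 * ((C₂ * N + 1) * (2 * C + 2)) := by positivity
  obtain ⟨s₀, hs₀d⟩ : ∃ s₀ : ℝ, s₀ = ε / (8 * ((C₂ * N + 1) * (2 * C + 2))) := ⟨_, rfl⟩
  have hs₀ : 0 < s₀ := by
    rw [hs₀d]
    exact div_pos hε hden
  have hs : s₀ * (C₂ * N) * (2 * C + 2) ≤ ε / 8 := by
    have h1 : s₀ * (8 * ((C₂ * N + 1) * (2 * C + 2))) = ε := by
      rw [hs₀d]
      exact div_mul_cancel₀ ε hden.ne'
    have h2 : s₀ * (C₂ * N) * (2 * C + 2) ≤ s₀ * (C₂ * N + 1) * (2 * C + 2) := by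
      have h3 : s₀ * (C₂ * N) ≤ s₀ * (C₂ * N + 1) :=
        mul_le_mul_of_nonneg_left (by linarith) hs₀.le
      exact mul_le_mul_of_nonneg_right h3 (by linarith)
    have h4 : s₀ * (C₂ * N + 1) * (2 * C + 2) = ε / 8 := by
      rw [← h1]
      ring
    rw [← h4]
    exact h2
  obtain ⟨R₁, D', B', hB', hord⟩ := order_T (K := K) m (k + 2) none s₀ B hs₀ hB
  obtain ⟨η, C₃, hη, hC₃, hnum⟩ := numeric_end (k + 2) m N ε C C₂ s₀ CF hε hm1 hNε hC hC₂.le hs₀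
    hs hCF
  refine ⟨m, D', max R₁ 2, max C₃ B', η, hm1, le_max_of_le_left hC₃, hη, ?_⟩
  intro P₀ P j s y ρ hR hgap hP hch hy hy0 hdeg hht hz hgn hP₀ hHN hE hHP
  obtain ⟨J, hJd⟩ : ∃ J, J = Finset.univ.sup j := ⟨_, rfl⟩
  have hJ : ∀ i, j i ≤ J := fun i => by
    rw [hJd]
    exact Finset.le_sup (Finset.mem_univ i)
  have h4J : (0 : ℝ) < 4 ^ J := by positivity
  have hpow : ∀ i, (4 : ℝ) ^ (J - j i) * 4 ^ j i = 4 ^ J := fun i => by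
    rw [← pow_add, Nat.sub_add_cancel (hJ i)]
  obtain ⟨F₀, hF0ne, hF0s, hCC, hF0h⟩ := haux J j ρ χ hJ hdeg
  have hF0h' : logHeight (fun p : (box (fun _ : Fin (k + 2) => N * 4 ^ J + 1)) ×
      (BB (fun i : Fin m => N * 4 ^ (J - j i) + 1) : Finset (Fin m → Fin (k + 2) → ℕ)) =>
        F₀ p.1 p.2) ≤ CF * 4 ^ J := by
    refine hF0h.trans ?_
    have h1 : ∑ i, (4 : ℝ) ^ (J - j i) * (ρ i).ht ≤ ∑ _i : Fin m, (4 : ℝ) ^ J := by
      refine Finset.sum_le_sum fun i _ => ?_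
      rw [← hpow i]
      exact mul_le_mul_of_nonneg_left (hht i) (by positivity)
    rw [Finset.sum_const, Finset.card_univ, Fintype.card_fin, nsmul_eq_mul] at h1
    have h2 := mul_le_mul_of_nonneg_left (add_le_add_right h1 ((4 : ℝ) ^ J)) hCA
    refine h2.trans (le_of_eq ?_)
    rw [hCFd]
    ring
  obtain ⟨N₀, hN₀d⟩ : ∃ N₀, N₀ = NF (box (fun _ : Fin (k + 2) => N * 4 ^ J + 1))
      (BB (fun i : Fin m => N * 4 ^ (J - j i) + 1)) F₀ := ⟨_, rfl⟩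
  have hN₀ne : N₀ ≠ 0 := by
    rw [hN₀d]
    exact NF_ne _ _ F₀ hF0ne hF0s
  have hdg := NF_degrees (n := k + 2) N J j hJ F₀
  have hN₀h := NF_height N J j F₀ hF0ne hF0s
  rw [← hN₀d] at hdg hN₀h
  obtain ⟨b, hbd⟩ : ∃ b : ℝ, b = N * 4 ^ J := ⟨_, rfl⟩
  have hb : 0 < b := by
    rw [hbd]
    positivity
  have h4b : (4 : ℝ) ^ J ≤ b := by
    rw [hbd]
    exact le_mul_of_one_le_left h4J.le (by exact_mod_cast hN1)
  rw [← hbd] at hdg hN₀h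
  have hN₀H : nh N₀ ≤ (B - 1) * b := by
    refine hN₀h.trans ?_
    have h1 : CF * 4 ^ J ≤ CF * b := mul_le_mul_of_nonneg_left h4b hCF
    rw [hBd]
    have h2 := hF0h'.trans h1
    refine (add_le_add_left h2 _).trans (le_of_eq ?_)
    ring
  obtain ⟨NN, hNN0, hNNne, hNZ, hNS, hNh, hNSi, hNZi, hNd⟩ :=
    hel j b ((B - 1) * b) N₀ hb.le hN₀ne hdg.1 hdg.2.1 hdg.2.2 hN₀H
  have hμ : 0 < C₂ * b := mul_pos hC₂ hb
  have hNS' : ∀ p : Fin m × Fin (k + 2),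
      (4 : ℝ) ^ j p.1 * (NN (Fin.last m)).degreeOf (vS p) ≤ C₂ * b := by
    intro p
    refine (hNS p).trans (mul_le_mul_of_nonneg_right ?_ hb.le)
    rw [hC₂d]
    linarith
  have hNh' : nh (NN (Fin.last m)) ≤ B * (C₂ * b) := by
    refine hNh.trans ?_
    have h1 : C₁ * ((B - 1) * b + b) = B * (C₁ * b) := by ring
    rw [h1]
    refine mul_le_mul_of_nonneg_left (mul_le_mul_of_nonneg_right ?_ hb.le) hB
    rw [hC₂d]
    linarith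
  have hgap1 : ∀ i i', i < i' → R₁ * 4 ^ j i ≤ 4 ^ j i' := fun i i' h =>
    (Nat.mul_le_mul_right _ (le_max_left R₁ 2)).trans (hgap i i' h)
  rcases hord j (fun p => s p.1 p.2) (NN (Fin.last m)) (C₂ * b) hgap1 hNNne hμ hNZ
    (fun i t ht => absurd ht (Option.not_mem_none t)) hNS' hNh' with
    ⟨i, G, hG0, -, hGd, hGh, hGe⟩ | ⟨a, c, ha, hc, hcx⟩
  · refine ⟨i, G, hG0, hGd, ?_, hGe⟩
    exact hGh.trans (mul_le_mul_of_nonneg_right (le_max_right _ _) (by positivity))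
  · exfalso
    have hINEQ := hin P₀ P j s y ρ J F₀ NN a c hJ hP hch hy hy0 hdeg hht hz hF0ne hF0s hCC
      (by rw [hNN0, hN₀d]) hNZ hNSi hNZi hNd hc
      (fun L _ _ x ζ S hS => hcx L x ζ S (fun p _ => hS p))
    refine hnum _ (HN P₀) J j (fun _ => 0) _ _ (fun _ => 0) _ a hJ
      (geom_J j J (max R₁ 2) hJ (le_max_right _ _) hgap) ((le_max_left _ _).trans hHN) hF0h'
      (fun i => Finset.sum_nonneg fun t _ => logHeight_nonneg _) (fun i => ?_) hHP hgn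
      (fun i => Or.inl rfl) (fun i => ?_) ?_ hINEQ
    · refine (Finset.sum_le_sum fun t _ => hE i t).trans (le_of_eq ?_)
      rw [Finset.sum_const, Finset.card_univ, Fintype.card_fin, nsmul_eq_mul]
    · rw [← hbd, Nat.cast_zero, mul_zero]
      exact hμ.le
    · rw [← hbd]
      exact ha

end Pool.Agent.Lib.MP_17a322_nt.VN
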