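import Pool.Agent.Lib.MP_17a322_nt.VN.L1v
import Pool.Agent.Lib.MP_17a322_nt.VN.L1w
import Pool.Agent.Lib.MP_17a322_nt.VN.C12

/-!
# JOB L1y: theorem S2

PROOF of `S2`. Constants, in this order: `c₀` from `exists_aux W e D` (C12); `m` from `choose_m c₀ ε` (L1w); `N`, `CA` from `exists_aux .. m`, so `2 N + 8 ≤ m ε / 4`; `C₁` from `elim_two W χ m r D` (LInt); `C` from `ineq_two W χ r l hrl e D m N` (L1v);
`C₂ = C₁ + 1`, `CF = CA * (m + 1)`, `B = CF + finrank ℚ K * ((k + 2) * (m + 1)) + 1`, `s₀ = ε / (8 * ((C₂ * N + 1) * (2 * C + 2)))`, `R₁`, `D'`, `B'` from `order_T m (k + 2) (some r) s₀ B` (LInt); `η`, `C₃` from `numeric_end (k + 2) m N ε C C₂ s₀ CF`. The answer: `m`, `D'`, `R₀ = max R₁ 2`,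
`C₀ = max C₃ B'`, `η`.
Given the data: `J = Finset.univ.sup j` (`Finset.le_sup`); `F₀` from `exists_aux` with height `≤ CA * (4 ^ J + ∑ i, 4 ^ (J - j i) * (ρ i).ht) ≤ CF * 4 ^ J` (`ht ≤ 4 ^ j i`). `N₀ = NF (box ..) (BB ..) F₀`: `NF_ne`, `NF_degrees`, `NF_height` (L1q); `elim_two` with
`b = N * 4 ^ J`, `H = (B - 1) * (N * 4 ^ J)` (`1 ≤ N`), and `(g i).degreeOf r ≠ 0` (otherwise `pderiv r (g i) = 0`: `pderiv_eq_zero_of_notMem_vars`/`degreeOf_eq_zero_iff`): `NN`, `NN'`, `R`, `nh (NN last) ≤ C₁ * (H + b) = C₁ * (B * b) ≤ B * μ` with `μ = C₂ * (N * 4 ^ J) > 0`. `order_T` with `σ p = s p.1 p.2` (gap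
condition: `R₁ ≤ R₀`). First alternative: this is the conclusion (`B' ≤ C₀`; `t ∈ some r` for `t = r`). Second alternative: `a`, `c`; `ineq_two` gives `s' ≤ R` and `INEQ`; (the hypothesis on `c`: `p.2 ∉ some r` means `p.2 ≠ r`); `numeric_end` with `s = s'` (`4 ^ j i * s' i ≤ 4 ^ j i * R i ≤ C₁ b ≤ C₂ b`),
`E i = ∑ t, logHeight (P i t - 2 ^ j i • P₀ t).xRep` (`≥ 0`, each `≤ η * ..`, sum over `k + 2` terms), gives `False`. `geom_J` (L1w).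
-/

universe u

namespace Pool.Agent.Lib.MP_17a322_nt.VN

open MvPolynomial Height
open Pool.Agent.Lib.MP_17a322_nt.RO
open Pool.Agent.Lib.MP_17a322_nt.VJ

/-- Stage 2. `r` is the dependent coordinate, `l` the direction of large slope. -/
theorem S2 {K : Type u} [Field K] [NumberField K] [DecidableEq K] {k : ℕ}
    (W : Fin (k + 2) → WeierstrassCurve K) [∀ t, (W t).IsElliptic] (χ : Fin (k + 2) → Bool)
    (r l : Fin (k + 2)) (hrl : l ≠ r) (e D : ℕ) (ε : ℝ) (hε : 0 < ε) :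
    ∃ (m D' R₀ : ℕ) (C₀ η : ℝ), 0 < m ∧ 0 ≤ C₀ ∧ 0 < η ∧
      ∀ (P₀ : ∀ t, (W t).toAffine.Point) (P : Fin m → ∀ t, (W t).toAffine.Point) (j : Fin m → ℕ)
        (s y : Fin m → Fin (k + 2) → K) (ρ : Fin m → REP K (k + 2) e)
        (g : Fin m → MvPolynomial (Fin (k + 2)) K),
      (∀ i, R₀ ≤ 4 ^ j i) → (∀ i i', i < i' → R₀ * 4 ^ j i ≤ 4 ^ j i') →
      (∀ i t, P i t ≠ 0) → (∀ i t, CH (χ t) (P i t) (s i t)) →
      (∀ i t, y i t ^ 2 = ph (W t) (vc (χ t) (s i t))) → (∀ i t, y i t ≠ 0) →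
      (∀ i, (ρ i).Deg D) → (∀ i, (ρ i).ht ≤ 4 ^ j i) →
      (∀ i, eval (s i) ((ρ i).z 0) ≠ 0 ∨ eval (s i) ((ρ i).z 1) ≠ 0) →
      (∀ i, ε * HN (P i) ≤ gn (s i) (eval (s i) ((ρ i).z 0)) (eval (s i) ((ρ i).z 1))) →
      (∀ i, Irreducible (g i)) →
      (∀ i t, (g i).degreeOf t ≤ D) → (∀ i, nh (g i) ≤ 4 ^ j i) → (∀ i, eval (s i) (g i) = 0) →
      (∀ i, eval (s i) (pderiv r (g i)) ≠ 0) →
      (∀ i, ε * HN (P i) ≤ logHeight ![eval (s i) (pderiv l (g i)) * y i l,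
        eval (s i) (pderiv r (g i)) * y i r]) →
      (∀ t, P₀ t ≠ 0) → C₀ ≤ HN P₀ →
      (∀ i t, logHeight (P i t - 2 ^ j i • P₀ t).xRep ≤ η * (4 ^ j i * HN P₀)) →
      (∀ i, |HN (P i) - 4 ^ j i * HN P₀| ≤ η * (4 ^ j i * HN P₀)) →
      ∃ (i : Fin m) (G : MvPolynomial (Fin (k + 2)) K), G ≠ 0 ∧ G.degreeOf r = 0 ∧
        (∀ t, G.degreeOf t ≤ D') ∧ nh G ≤ C₀ * 4 ^ j i ∧ eval (s i) G = 0 := by
  classical
  obtain ⟨c₀, hc₀⟩ := exists_aux W e D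
  obtain ⟨m, hm1, hm⟩ := choose_m c₀ ε hε
  obtain ⟨N, CA, hN1, hN2, hCA, haux⟩ := hc₀ m hm1
  have hNε := hm N hN2
  obtain ⟨C₁, hC₁, helim⟩ := elim_two W χ m r D
  obtain ⟨C, hC, hineq⟩ := ineq_two W χ r l hrl e D m N hN1
  obtain ⟨C₂, hC₂⟩ : ∃ C₂ : ℝ, C₂ = C₁ + 1 := ⟨_, rfl⟩
  obtain ⟨CF, hCF⟩ : ∃ CF : ℝ, CF = CA * (m + 1) := ⟨_, rfl⟩
  obtain ⟨B, hB⟩ : ∃ B : ℝ, B = CF + Module.finrank ℚ K * ((k + 2) * (m + 1)) + 1 := ⟨_, rfl⟩
  have hC₂0 : 0 ≤ C₂ := by rw [hC₂]; linarith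
  have hCF0 : 0 ≤ CF := by rw [hCF]; positivity
  have hB0 : 0 ≤ B := by rw [hB]; positivity
  have hden : 0 < 8 * ((C₂ * N + 1) * (2 * C + 2)) := by positivity
  obtain ⟨s₀, hs₀⟩ : ∃ s₀ : ℝ, s₀ = ε / (8 * ((C₂ * N + 1) * (2 * C + 2))) := ⟨_, rfl⟩
  have hs₀0 : 0 < s₀ := by rw [hs₀]; exact div_pos hε hden
  have hs₀1 : s₀ * (C₂ * N) * (2 * C + 2) ≤ ε / 8 := by
    have h1 : s₀ * (8 * ((C₂ * N + 1) * (2 * C + 2))) = ε := by
      rw [hs₀]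
      exact div_mul_cancel₀ ε hden.ne'
    have h2 : 0 ≤ s₀ * (2 * C + 2) := mul_nonneg hs₀0.le (by linarith)
    have h3 : s₀ * (8 * ((C₂ * N + 1) * (2 * C + 2))) =
      8 * (s₀ * (C₂ * N) * (2 * C + 2)) + 8 * (s₀ * (2 * C + 2)) := by ring
    linarith
  obtain ⟨R₁, D', B', hB', hord⟩ := order_T (K := K) m (k + 2) (some r) s₀ B hs₀0 hB0
  obtain ⟨η, C₃, hη, hC₃, hnum⟩ := numeric_end (k + 2) m N ε C C₂ s₀ CF hε hm1 hNε hC hC₂0 hs₀0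
    hs₀1 hCF0
  refine ⟨m, D', max R₁ 2, max C₃ B', η, hm1, le_max_of_le_left hC₃, hη, ?_⟩
  intro P₀ P j s y ρ g hj hgap hP hCH hy hy0 hDeg hht hz hgn hirr hgdeg hgnh hgs hgr hsl hP₀ hC₀
    hlog hHN
  obtain ⟨J, hJd⟩ : ∃ J, J = Finset.univ.sup j := ⟨_, rfl⟩
  have hJ : ∀ i, j i ≤ J := by
    intro i
    rw [hJd]
    exact Finset.le_sup (Finset.mem_univ i)
  have h4J : (1 : ℝ) ≤ 4 ^ J := one_le_pow₀ (by norm_num)
  have hNr : (1 : ℝ) ≤ N := by exact_mod_cast hN1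
  have hgeom := geom_J j J (max R₁ 2) hJ (le_max_right _ _) hgap
  obtain ⟨F₀, hF1, hF2, hF3, hF4⟩ := haux J j ρ χ hJ hDeg
  have hF5 : logHeight (fun p : (box (fun _ : Fin (k + 2) => N * 4 ^ J + 1)) ×
          (BB (fun i : Fin m => N * 4 ^ (J - j i) + 1) : Finset (Fin m → Fin (k + 2) → ℕ)) =>
            F₀ p.1 p.2) ≤ CF * 4 ^ J := by
    refine hF4.trans ?_
    have h1 : ∑ i, (4 : ℝ) ^ (J - j i) * (ρ i).ht ≤ m * 4 ^ J := by
      have h2 : ∀ i ∈ (Finset.univ : Finset (Fin m)), (4 : ℝ) ^ (J - j i) * (ρ i).ht ≤ 4 ^ J := by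
        intro i _
        have h3 : (4 : ℝ) ^ (J - j i) * (ρ i).ht ≤ 4 ^ (J - j i) * 4 ^ j i :=
          mul_le_mul_of_nonneg_left (hht i) (by positivity)
        rw [← pow_add, Nat.sub_add_cancel (hJ i)] at h3
        exact h3
      have h4 := Finset.sum_le_card_nsmul _ _ _ h2
      rw [Finset.card_univ, Fintype.card_fin, nsmul_eq_mul] at h4
      exact h4
    rw [hCF]
    have h5 : CA * (4 ^ J + ∑ i, (4 : ℝ) ^ (J - j i) * (ρ i).ht) ≤ CA * (4 ^ J + m * 4 ^ J) :=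
      mul_le_mul_of_nonneg_left (by linarith) hCA
    refine h5.trans (le_of_eq ?_)
    ring
  obtain ⟨hd1, hd2, hd3⟩ := NF_degrees N J j hJ F₀
  have hne := NF_ne _ _ F₀ hF1 hF2
  have hnh := NF_height N J j F₀ hF1 hF2
  obtain ⟨b, hb⟩ : ∃ b : ℝ, b = N * 4 ^ J := ⟨_, rfl⟩
  have hb1 : (1 : ℝ) ≤ b := by
    rw [hb]
    calc (1 : ℝ) = 1 * 1 := by ring
      _ ≤ N * 4 ^ J := mul_le_mul hNr h4J zero_le_one (by linarith)
  have hb4 : (4 : ℝ) ^ J ≤ b := by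
    rw [hb]
    exact le_mul_of_one_le_left (by positivity) hNr
  have hnh2 : nh (NF (box (fun _ : Fin (k + 2) => N * 4 ^ J + 1))
      (BB (fun i : Fin m => N * 4 ^ (J - j i) + 1)) F₀) ≤ (B - 1) * b := by
    refine hnh.trans ?_
    have h1 : CF * 4 ^ J ≤ CF * b := mul_le_mul_of_nonneg_left hb4 hCF0
    rw [hB, ← hb]
    push_cast
    have h2 : (CF + (Module.finrank ℚ K : ℝ) * ((k + 2) * (m + 1)) + 1 - 1) * b =
      CF * b + (Module.finrank ℚ K : ℝ) * ((k + 2) * (m + 1) * b) := by ring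
    rw [h2]
    exact add_le_add (hF5.trans h1) le_rfl
  have hdeg : ∀ i, (g i).degreeOf r ≠ 0 := by
    intro i h0
    apply hgr i
    have h1 : r ∉ (g i).vars := by
      rw [mem_vars_iff_degreeOf_ne_zero]
      exact not_not.mpr h0
    rw [pderiv_eq_zero_of_notMem_vars h1, map_zero]
  rw [← hb] at hd2 hd3
  obtain ⟨NN, NN', R, e0, e1, e2, e3, e4, e5, e6, e7, e8, e9, e10, e11⟩ := helim j g b
    ((B - 1) * b) _ hirr hdeg hgdeg hgnh hne hd1 hd2 hd3 hnh2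
  obtain ⟨μ, hμ⟩ : ∃ μ : ℝ, μ = C₂ * b := ⟨_, rfl⟩
  have hμ0 : 0 < μ := by
    rw [hμ, hC₂]
    exact mul_pos (by linarith) (by linarith)
  have hC₁μ : C₁ * b ≤ μ := by
    rw [hμ, hC₂]
    have : 0 ≤ b := by linarith
    linarith
  have hnhμ : nh (NN (Fin.last m)) ≤ B * μ := by
    refine e5.trans ?_
    have h1 : C₁ * ((B - 1) * b + b) = B * (C₁ * b) := by ring
    rw [h1]
    exact mul_le_mul_of_nonneg_left hC₁μ hB0
  have hgap1 : ∀ i i' : Fin m, i < i' → R₁ * 4 ^ j i ≤ 4 ^ j i' := by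
    intro i i' hii
    exact (Nat.mul_le_mul_right _ (le_max_left _ _)).trans (hgap i i' hii)
  rcases hord j (fun p => s p.1 p.2) (NN (Fin.last m)) μ hgap1 e1 hμ0 e2
    (fun i t ht => by
      have h1 : r = t := by
        rw [Option.mem_def] at ht
        exact Option.some.inj ht
      rw [← h1]
      exact e3 i) (fun p => (e4 p).trans hC₁μ) hnhμ with hA | hA
  · obtain ⟨i, G, hG0, hG1, hG2, hG3, hG4⟩ := hA
    refine ⟨i, G, hG0, hG1 r rfl, hG2, hG3.trans ?_, hG4⟩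
    exact mul_le_mul_of_nonneg_right (le_max_right _ _) (by positivity)
  · exfalso
    obtain ⟨a, c, ha, hc0, hc⟩ := hA
    obtain ⟨s', hs'R, hINEQ⟩ := hineq P₀ P j s y ρ g J F₀ NN NN' R a c hJ hP hCH hy hy0 hDeg hht hz
      hgdeg hgnh hgs hgr hF1 hF2 hF3 e0 e2 e7 e8 e9 e10 e11 hc0
      (fun L _ _ x ζ S hS => hc L x ζ S fun p hp => hS p fun h => hp (by
        rw [Option.mem_def, h]))
    refine hnum _ (HN P₀) J j s' _ _ _ _ a hJ hgeom ((le_max_left _ _).trans hC₀) hF5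
      (fun i => Finset.sum_nonneg fun t _ => logHeight_nonneg _) (fun i => ?_) hHN hgn
      (fun i => Or.inr (hsl i)) (fun i => ?_) ?_ hINEQ
    · have h4 := Finset.sum_le_card_nsmul (Finset.univ : Finset (Fin (k + 2)))
        (fun t => logHeight (P i t - 2 ^ j i • P₀ t).xRep) _ (fun t _ => hlog i t)
      rw [Finset.card_univ, Fintype.card_fin, nsmul_eq_mul] at h4
      exact h4
    · have h1 : (4 : ℝ) ^ j i * s' i ≤ 4 ^ j i * R i :=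
        mul_le_mul_of_nonneg_left (by exact_mod_cast hs'R i) (by positivity)
      have h2 := (h1.trans (e6 i)).trans hC₁μ
      rw [hμ, hb] at h2
      exact h2
    · rw [hμ, hb] at ha
      exact ha

end Pool.Agent.Lib.MP_17a322_nt.VN
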