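import Pool.Agent.Lib.MP_17a322_nt.VN.C17
import Pool.Agent.Lib.MP_17a322_nt.VN.E3
import Pool.Agent.Lib.MP_17a322_nt.VN.L1x
import Pool.Agent.Lib.MP_17a322_nt.VN.L1y

/-!
The inputs of part F: the theorems `S1`, `S2`, `REPEX`, `ABSIRR`.
-/
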