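import Pool.Agent.Lib.MP_17a322_nt.VN.F6c
import Pool.Agent.Lib.MP_17a322_nt.VN.IntF

/-!
VN, part F: the centre data of the members of the sequence.
-/

universe u

namespace Pool.Agent.Lib.MP_17a322_nt.VN

open MvPolynomial Height Filter
open Pool.Agent.Lib.MP_17a322_nt.RO
open Pool.Agent.Lib.MP_17a322_nt.VJ

/-- The datum of `REPEX` over `k0` gives centre data over `K` of small height which carry the gain. -/
theorem CENTRE {K : Type u} [Field K] [NumberField K] {H : ℕ → ℝ}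
    {hH : Tendsto H (hyperfilter ℕ : Filter ℕ) atTop} {n k : ℕ} (s : ℕ → Fin n → K)
    (J : Fin (k + 2) ↪ Fin n) (f g : MvPolynomial (Fin (k + 2)) (k0 K H hH))
    (hfg : IsRelPrime f g) (a b : ℕ → K)
    (ha : gm a = aeval (fun t => gm fun i => s i (J t)) f)
    (hb : gm b = aeval (fun t => gm fun i => s i (J t)) g) (ε : ℝ) (hε : 0 < ε)
    (hgain : ∀ᶠ i in (hyperfilter ℕ : Filter ℕ), ε * H i ≤ gn (s i) (a i) (b i))
    (hnz : ∀ z z' : MvPolynomial (Fin (k + 2)) (k0 K H hH), IsRelPrime z z' →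
      aeval (fun t => gm fun i => s i (J t)) z ≠ 0 ∨
        aeval (fun t => gm fun i => s i (J t)) z' ≠ 0) :
    ∃ (e D : ℕ) (h : ℕ → ℝ), oH H h ∧ ∀ᶠ i in (hyperfilter ℕ : Filter ℕ),
      ∃ ρ : REP K (k + 2) e, ρ.Deg D ∧ ρ.ht ≤ h i ∧
        (eval (fun t => s i (J t)) (ρ.z 0) ≠ 0 ∨ eval (fun t => s i (J t)) (ρ.z 1) ≠ 0) ∧
        ε / 2 * H i ≤ gn (fun t => s i (J t)) (eval (fun t => s i (J t)) (ρ.z 0))
          (eval (fun t => s i (J t)) (ρ.z 1)) := by
  classical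
  obtain ⟨e, ρ, hz0, hz1, hrel⟩ := REPEX f g hfg
  obtain ⟨A, B, hAB⟩ := Ideal.mem_span_pair.mp hz0
  obtain ⟨A', B', hAB'⟩ := Ideal.mem_span_pair.mp hz1
  obtain ⟨D, h, hh, hρ⟩ := REP_transfer ρ
  refine ⟨e, D, h, hh, ?_⟩
  -- the values of `z 0`, `z 1`
  have key : ∀ z A B : MvPolynomial (Fin (k + 2)) (k0 K H hH), A * f + B * g = z →
      ∀ᶠ i in (hyperfilter ℕ : Filter ℕ), eval (fun t => s i (J t)) (pr z i) =
        eval (fun t => s i (J t)) (pr A i) * a i + eval (fun t => s i (J t)) (pr B i) * b i := by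
    intro z A B hz
    rw [← gm_eq_iff, gm_add, gm_mul, gm_mul, gm_eval_pr z fun i t => s i (J t),
      gm_eval_pr A fun i t => s i (J t), gm_eval_pr B fun i t => s i (J t), ha, hb, ← hz,
      map_add, map_mul, map_mul]
  have hz : ∀ᶠ i in (hyperfilter ℕ : Filter ℕ),
      eval (fun t => s i (J t)) (pr (ρ.z 0) i) ≠ 0 ∨
        eval (fun t => s i (J t)) (pr (ρ.z 1) i) ≠ 0 := by
    rcases hnz _ _ hrel with h1 | h1
    · rw [← gm_eval_pr (ρ.z 0) fun i t => s i (J t), gm_ne_zero_iff] at h1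
      exact h1.mono fun i hi => Or.inl hi
    · rw [← gm_eval_pr (ρ.z 1) fun i t => s i (J t), gm_ne_zero_iff] at h1
      exact h1.mono fun i hi => Or.inr hi
  have hsm : oH H fun i => nh1 (pr A i) + nh1 (pr B i) + nh1 (pr A' i) + nh1 (pr B' i) +
      totalWeight K * Real.log ((2 : ℕ) : ℝ) :=
    ((((oH_nh1_pr A).add (oH_nh1_pr B)).add (oH_nh1_pr A')).add (oH_nh1_pr B')).add
      (oH_const hH _)
  filter_upwards [hρ, key _ _ _ hAB, key _ _ _ hAB', hz, hsm (ε / 2) (by positivity), hgain] with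
    i h1 h2 h3 h4 h5 h6
  obtain ⟨ρ', g1, g2, g3⟩ := h1
  refine ⟨ρ', g2, g3, ?_, ?_⟩
  · rw [g1, g1]
    exact h4
  · rw [g1, g1]
    have g4 := gn_poly (fun t => s i (J t)) (pr A i) (pr B i) (pr A' i) (pr B' i) (a i) (b i) _ _
      h2 h3 h4
    have g5 := gn_mono_coord (s i) (fun t => J t) (a i) (b i)
    have g6 : ε * H i = ε / 2 * H i + ε / 2 * H i := by ring
    have g7 := (h6.trans g5).trans (g4.trans (add_le_add_right h5 _))
    rw [g6] at g7
    exact le_of_add_le_add_right g7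

end Pool.Agent.Lib.MP_17a322_nt.VN
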