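import Pool.Agent.Lib.MP_17a322_nt.VN.F3b
import Pool.Agent.Lib.MP_17a322_nt.VN.F6d

/-!
VN, part F: the slopes are in `k0`.
-/

universe u

namespace Pool.Agent.Lib.MP_17a322_nt.VN

open MvPolynomial Height Filter
open Pool.Agent.Lib.MP_17a322_nt.RO
open Pool.Agent.Lib.MP_17a322_nt.VJ

theorem oH.max {H h h' : ℕ → ℝ} (h1 : oH H h) (h2 : oH H h') : oH H fun i => max (h i) (h' i) := by
  intro δ hδ
  filter_upwards [h1 δ hδ, h2 δ hδ] with i h3 h4
  exact max_le h3 h4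

theorem REP.Deg.mono {k : Type*} [CommRing k] {n e : ℕ} {ρ : REP k n e} {D D' : ℕ}
    (h : ρ.Deg D) (hD : D ≤ D') : ρ.Deg D' :=
  ⟨fun j => (h.1 j).trans hD, fun l => (h.2.1 l).trans hD, fun j l m => (h.2.2 j l m).trans hD⟩

section

variable {K : Type u} [Field K] [NumberField K] [DecidableEq K] {n : ℕ}
  (W : Fin n → WeierstrassCurve K) [∀ t, (W t).IsElliptic] (χ : Fin n → Bool)
  (P : ℕ → ∀ t, (W t).toAffine.Point) (s y : ℕ → Fin n → K)
  (hH : Tendsto (fun i => HN (P i)) (hyperfilter ℕ : Filter ℕ) atTop)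
  (hP : ∀ i t, P i t ≠ 0) (hs : ∀ i t, CH (χ t) (P i t) (s i t))
  (hy : ∀ i t, y i t ^ 2 = ph (W t) (vc (χ t) (s i t)))

include hP hs hy

/-- The slopes are in `k0`. -/
theorem SLOPE {k : ℕ} (J : Fin (k + 2) ↪ Fin n) (r l : Fin (k + 2)) (hrl : l ≠ r)
    (hJ : AlgebraicIndependent (k0 K _ hH) fun t : {t : Fin (k + 2) // t ≠ r} =>
      gm fun i => s i (J t))
    (g f : MvPolynomial (Fin (k + 2)) (k0 K _ hH)) (hgi : Irreducible g)
    (hg : aeval (fun t => gm fun i => s i (J t)) g = 0)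
    (hgr : aeval (fun t => gm fun i => s i (J t)) (pderiv r g) ≠ 0) (b : ℕ → K)
    (hb : gm b = aeval (fun t => gm fun i => s i (J t)) f) (hb0 : gm b ≠ 0) (ε : ℝ) (hε : 0 < ε)
    (hgain : ∀ᶠ i in (hyperfilter ℕ : Filter ℕ), ε * HN (P i) ≤ gn (s i) 0 (b i)) :
    aeval (fun t => gm fun i => s i (J t)) (pderiv l g) * gm (fun i => y i (J l)) /
      (aeval (fun t => gm fun i => s i (J t)) (pderiv r g) * gm (fun i => y i (J r))) ∈
        k0 K _ hH := by
  classical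
  by_cases hyr : gm (fun i => y i (J r)) = 0
  · rw [hyr, mul_zero, div_zero]
    exact zero_mem _
  -- the slope as a germ
  obtain ⟨u, hu⟩ : ∃ u : ℕ → K, ∀ i, u i = eval (fun t => s i (J t)) (pr (pderiv l g) i) *
    y i (J l) := ⟨_, fun _ => rfl⟩
  obtain ⟨v, hv⟩ : ∃ v : ℕ → K, ∀ i, v i = eval (fun t => s i (J t)) (pr (pderiv r g) i) *
    y i (J r) := ⟨_, fun _ => rfl⟩
  have hslope : aeval (fun t => gm fun i => s i (J t)) (pderiv l g) * gm (fun i => y i (J l)) /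
      (aeval (fun t => gm fun i => s i (J t)) (pderiv r g) * gm (fun i => y i (J r))) =
      gm fun i => u i / v i := by
    rw [gm_div, show u = _ from funext hu, show v = _ from funext hv, gm_mul, gm_mul,
      gm_eval_pr (pderiv l g) fun i t => s i (J t), gm_eval_pr (pderiv r g) fun i t => s i (J t)]
  rw [hslope, mem_k0]
  by_contra hcon
  unfold oH at hcon
  push Not at hcon
  obtain ⟨ε', hε', hcon⟩ := hcon
  have hrd : g.degreeOf r ≠ 0 := by
    refine degreeOf_ne_zero_of_pderiv ?_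
    intro h
    rw [h, map_zero] at hgr
    exact hgr rfl
  have hfg : IsRelPrime g f := by
    refine (Irreducible.isRelPrime_iff_not_dvd hgi).mpr fun hd => ?_
    obtain ⟨q, hq⟩ := hd
    apply hb0
    rw [hb, hq, map_mul, hg, zero_mul]
  have hnz : ∀ z z' : MvPolynomial (Fin (k + 2)) (k0 K _ hH), IsRelPrime z z' →
      aeval (fun t => gm fun i => s i (J t)) z ≠ 0 ∨
        aeval (fun t => gm fun i => s i (J t)) z' ≠ 0 := by
    intro z z' hzz
    by_contra hc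
    push Not at hc
    exact hgi.not_isUnit
      (hzz (dvd_of_aeval (x := fun t => gm fun i => s i (J t)) r hJ hgi hrd hg hc.1)
        (dvd_of_aeval (x := fun t => gm fun i => s i (J t)) r hJ hgi hrd hg hc.2))
  obtain ⟨e, D, h, hh, hC⟩ := CENTRE s J g f hfg (fun _ => 0) b (by rw [hg]; rfl) hb ε hε hgain hnz
  obtain ⟨Dg, hDg⟩ : ∃ Dg : ℕ, ∀ t, g.degreeOf t ≤ Dg :=
    ⟨∑ t, g.degreeOf t, fun t => Finset.single_le_sum (f := fun t => g.degreeOf t)
      (fun _ _ => Nat.zero_le _) (Finset.mem_univ t)⟩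
  obtain ⟨ε₁, hε₁, hε₁1, hε₁2⟩ : ∃ ε₁ : ℝ, 0 < ε₁ ∧ ε₁ ≤ ε / 2 ∧ ε₁ ≤ ε' :=
    ⟨min (ε / 2) ε', by positivity, min_le_left _ _, min_le_right _ _⟩
  obtain ⟨m, D', R₀, C₀, η, hm, hC₀, hη, hS2⟩ :=
    S2 (fun t => W (J t)) (fun t => χ (J t)) r l hrl e (max D Dg) ε₁ hε₁
  obtain ⟨δ, hδ, hSI⟩ := SI (fun i t => s i (J t)) (fun t : {t : Fin (k + 2) // t ≠ r} =>
    (t : Fin (k + 2))) Subtype.val_injective hJ D'
  obtain ⟨c, hc, hHJ⟩ := HJ_ge W χ P s hH hs J l (indep_notMem _ hJ ⟨l, hrl⟩)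
  have hHJt : Tendsto (fun i => HN (W := fun t => W (J t)) (fun t => P i (J t)))
      (hyperfilter ℕ : Filter ℕ) atTop :=
    tendsto_atTop_mono' _ hHJ (hH.const_mul_atTop hc)
  have hh' := hh.max (oH_nh1_pr g)
  have hhJ : oH (fun i => HN (W := fun t => W (J t)) (fun t => P i (J t)))
      fun i => max (h i) (nh1 (pr g i)) := by
    intro δ' hδ'
    filter_upwards [hh' (δ' * c) (by positivity), hHJ] with i h1 h2
    calc max (h i) (nh1 (pr g i)) ≤ δ' * c * HN (P i) := h1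
      _ = δ' * (c * HN (P i)) := by ring
      _ ≤ _ := mul_le_mul_of_nonneg_left h2 hδ'.le
  have hy0 : ∀ᶠ i in (hyperfilter ℕ : Filter ℕ), ∀ t, y i (J t) ≠ 0 := by
    rw [eventually_all]
    intro t
    by_cases ht : t = r
    · rw [ht]
      exact gm_ne_zero_iff.mp hyr
    · exact y_ne_zero W χ P s y hH hy (J t) (hJ.transcendental ⟨t, ht⟩)
  have hirr : ∀ᶠ i in (hyperfilter ℕ : Filter ℕ), Irreducible (pr g i) := by
    refine irreducible_pr g ?_
    exact ABSIRR (F := GK K) (fun z hz => ⟨⟨z, k0_closed _ hH z hz⟩, rfl⟩) r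
      (fun t => gm fun i => s i (J t)) hJ g hgi hg (GK K)
  have hg0 : ∀ᶠ i in (hyperfilter ℕ : Filter ℕ), eval (fun t => s i (J t)) (pr g i) = 0 := by
    rw [← gm_eq_zero_iff, gm_eval_pr g fun i t => s i (J t)]
    exact hg
  have hgr0 : ∀ᶠ i in (hyperfilter ℕ : Filter ℕ),
      eval (fun t => s i (J t)) (pderiv r (pr g i)) ≠ 0 := by
    rw [← gm_eval_pr (pderiv r g) fun i t => s i (J t), gm_ne_zero_iff] at hgr
    filter_upwards [hgr, pr_pderiv g r] with i h1 h2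
    rwa [← h2]
  have hsl : ∀ᶠ i in (hyperfilter ℕ : Filter ℕ), ε' * HN (P i) ≤
      logHeight ![eval (fun t => s i (J t)) (pderiv l (pr g i)) * y i (J l),
        eval (fun t => s i (J t)) (pderiv r (pr g i)) * y i (J r)] := by
    filter_upwards [hcon, pr_pderiv g r, pr_pderiv g l, hgr0, hy0] with i h1 h2 h3 h4 h5
    rw [hu, hv, h2, h3, logHeight₁_div_eq_logHeight] at h1
    exact h1.le
  obtain ⟨a₀, b₀, j, -, hSb, hCa, hpos, hR1, hR2, hhj, h4j, hpt, hcone⟩ :=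
    FRAME (fun t => W (J t)) (fun i t => P i (J t)) hHJt _ hhJ
      (fun i => (∃ ρ : REP K (k + 2) e, ρ.Deg D ∧ ρ.ht ≤ h i ∧
        (eval (fun t => s i (J t)) (ρ.z 0) ≠ 0 ∨ eval (fun t => s i (J t)) (ρ.z 1) ≠ 0) ∧
        ε / 2 * HN (P i) ≤ gn (fun t => s i (J t)) (eval (fun t => s i (J t)) (ρ.z 0))
          (eval (fun t => s i (J t)) (ρ.z 1))) ∧ (∀ t, y i (J t) ≠ 0) ∧
        (∀ G : MvPolynomial (Fin (k + 2)) K, G ≠ 0 →
          (∀ t, t ∉ Set.range (fun t : {t : Fin (k + 2) // t ≠ r} => (t : Fin (k + 2))) →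
            G.degreeOf t = 0) →
          (∀ t, G.degreeOf t ≤ D') → nh G ≤ δ * HN (P i) → eval (fun t => s i (J t)) G ≠ 0) ∧
        Irreducible (pr g i) ∧ eval (fun t => s i (J t)) (pr g i) = 0 ∧
        eval (fun t => s i (J t)) (pderiv r (pr g i)) ≠ 0 ∧
        ε' * HN (P i) ≤ logHeight ![eval (fun t => s i (J t)) (pderiv l (pr g i)) * y i (J l),
          eval (fun t => s i (J t)) (pderiv r (pr g i)) * y i (J r)])
      (hC.and (hy0.and (hSI.and (hirr.and (hg0.and (hgr0.and hsl)))))) m R₀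
      (max C₀ (2 * C₀ / δ)) η hη
  choose ρ hρD hρh hρz hρg using fun i => (hSb i).1
  have hJle : ∀ i, HN (W := fun t => W (J t)) (fun t => P i (J t)) ≤ HN (P i) :=
    fun i => HN_le_of_embedding (P i) J
  have hε₁le : ∀ i, ε₁ * HN (W := fun t => W (J t)) (fun t => P i (J t)) ≤ ε / 2 * HN (P i) ∧
      ε₁ * HN (W := fun t => W (J t)) (fun t => P i (J t)) ≤ ε' * HN (P i) := fun i =>
    ⟨mul_le_mul hε₁1 (hJle i) (HN_nonneg _) (by positivity),
      mul_le_mul hε₁2 (hJle i) (HN_nonneg _) hε'.le⟩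
  obtain ⟨i, G, hG0, hGr, hGd, hGn, hGe⟩ := hS2 (fun t => P a₀ (J t))
    (fun i t => P (b₀ i) (J t)) j
    (fun i t => s (b₀ i) (J t)) (fun i t => y (b₀ i) (J t)) ρ (fun i => pr g (b₀ i)) hR1 hR2
    (fun i t => hP _ _) (fun i t => hs _ _) (fun i t => hy _ _) (fun i t => (hSb i).2.1 t)
    (fun i => (hρD i).mono (le_max_left _ _))
    (fun i => ((hρh i).trans (le_max_left _ _)).trans (hhj i)) hρz
    (fun i => (hε₁le (b₀ i)).1.trans (hρg i))
    (fun i => (hSb i).2.2.2.1)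
    (fun i t => ((degreeOf_pr g _ t).trans (hDg t)).trans (le_max_right _ _))
    (fun i => ((nh_le_nh1 _).trans (le_max_right _ _)).trans (hhj i))
    (fun i => (hSb i).2.2.2.2.1) (fun i => (hSb i).2.2.2.2.2.1)
    (fun i => (hε₁le (b₀ i)).2.trans (hSb i).2.2.2.2.2.2)
    (fun t => hP _ _) ((le_max_left _ _).trans hCa) hpt hcone
  refine (hSb i).2.2.1 G hG0 (fun t ht => ?_) hGd ?_ hGe
  · have h3 : t = r := by
      by_contra hne
      exact ht ⟨⟨t, hne⟩, rfl⟩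
    rw [h3]
    exact hGr
  refine hGn.trans ?_
  have h1 : 2 * C₀ / δ ≤ HN (W := fun t => W (J t)) (fun t => P a₀ (J t)) :=
    (le_max_right _ _).trans hCa
  rw [div_le_iff₀ hδ] at h1
  have h2 : (4 : ℝ) ^ j i * HN (W := fun t => W (J t)) (fun t => P a₀ (J t)) ≤
      2 * HN (P (b₀ i)) := (h4j i).trans (mul_le_mul_of_nonneg_left (hJle (b₀ i)) (by norm_num))
  have h3 : (0 : ℝ) < 4 ^ j i := by positivity
  have h4 := mul_le_mul_of_nonneg_left h1 h3.le
  have h5 := mul_le_mul_of_nonneg_left h2 hδ.le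
  nlinarith

end

end Pool.Agent.Lib.MP_17a322_nt.VN
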