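import Pool.Agent.Lib.MP_17a322_nt.VJ.C4
import Pool.Agent.Lib.MP_17a322_nt.VJ.D4

/-!
Transcendence basis of the coordinates, elimination.
-/

namespace Pool.Agent.Lib.MP_17a322_nt.VN

open MvPolynomial
open Pool.Agent.Lib.MP_17a322_nt.RO
open Pool.Agent.Lib.MP_17a322_nt.VJ

section

variable {k F : Type*} [Field k] [Field F] [Algebra k F] {n : ℕ} (s : Fin n → F)

variable (k) in
/-- Some of the coordinates form a transcendence basis of all coordinates. -/
theorem exists_J : ∃ J : Finset (Fin n), (AlgebraicIndependent k fun t : J => s t) ∧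
    ∀ t, IsAlgebraic (Algebra.adjoin k (s '' J)) (s t) := by
  classical
  have h0 : (Finset.univ.filter fun J : Finset (Fin n) =>
      AlgebraicIndependent k fun t : J => s t).Nonempty := by
    refine ⟨∅, ?_⟩
    rw [Finset.mem_filter]
    refine ⟨Finset.mem_univ _, ?_⟩
    rw [algebraicIndependent_empty_type_iff]
    exact (algebraMap k F).injective
  obtain ⟨J, hJ, hmax⟩ := Finset.exists_max_image _ (fun J : Finset (Fin n) => J.card) h0
  rw [Finset.mem_filter] at hJ
  refine ⟨J, hJ.2, fun t => ?_⟩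
  by_contra hc
  have ht : t ∉ (J : Set (Fin n)) := by
    intro ht
    exact hc (isAlgebraic_algebraMap
      (⟨_, Algebra.subset_adjoin ⟨t, ht, rfl⟩⟩ : Algebra.adjoin k (s '' J)))
  have h1 : AlgebraicIndepOn k s (insert t (J : Set (Fin n))) :=
    (AlgebraicIndepOn.insert_iff ht).2 ⟨hJ.2, hc⟩
  rw [← Finset.coe_insert] at h1
  have h2 := hmax (insert t J) (Finset.mem_filter.2 ⟨Finset.mem_univ _, h1⟩)
  rw [Finset.card_insert_of_notMem (by simpa using ht)] at h2
  omega

variable {s} {J : Finset (Fin n)}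

theorem Z7_zero (hJ : AlgebraicIndependent k fun t : J => s t) {p : MvPolynomial (Fin n) k}
    (hv : p.vars ⊆ J) (hp : aeval s p = 0) : p = 0 := by
  obtain ⟨q, rfl⟩ := exists_rename_eq_of_vars_subset_range p (fun t : J => (t : Fin n))
    Subtype.val_injective (by
      intro t ht
      exact ⟨⟨t, hv ht⟩, rfl⟩)
  rw [aeval_rename] at hp
  rw [(algebraicIndependent_iff.1 hJ) q hp, map_zero]

theorem Z7_deg (hJ : AlgebraicIndependent k fun t : J => s t) {r : Fin n}
    {g : MvPolynomial (Fin n) k} (hg : Irreducible g) (hv : g.vars ⊆ insert r J)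
    (hs : aeval s g = 0) : g.degreeOf r ≠ 0 := by
  intro h0
  apply hg.ne_zero
  refine Z7_zero hJ (fun t ht => ?_) hs
  rcases Finset.mem_insert.1 (hv ht) with h | h
  · rw [mem_vars_iff_degreeOf_ne_zero, h] at ht
    exact absurd h0 ht
  · exact h

/-- A polynomial in the coordinates `J` and `r` which vanishes at `s` is divisible by `g`. -/
theorem Z7_dvd (hJ : AlgebraicIndependent k fun t : J => s t) {r : Fin n}
    {g : MvPolynomial (Fin n) k} (hg : Irreducible g) (hv : g.vars ⊆ insert r J)
    (hs : aeval s g = 0) {G : MvPolynomial (Fin n) k} (hG : G.vars ⊆ insert r J)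
    (hGs : aeval s G = 0) : g ∣ G := by
  by_contra hc
  have h0 := Z7_deg hJ hg hv hs
  apply El_ne_zero_of_irreducible r g G hg h0 hc
  refine Z7_zero hJ ?_ ?_
  · refine (vars_El_subset r g G).trans ?_
    intro t ht
    rw [Finset.mem_erase, Finset.mem_union] at ht
    have h1 : t ∈ insert r J := by
      rcases ht.2 with h | h
      · exact hv h
      · exact hG h
    exact (Finset.mem_insert.1 h1).resolve_left ht.1
  · have h2 := aeval_dvd_El r g G (Or.inl h0) s hs
    rw [hGs] at h2
    exact zero_dvd_iff.1 h2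

theorem Z7_pderiv [CharZero k] (hJ : AlgebraicIndependent k fun t : J => s t) {r : Fin n}
    {g : MvPolynomial (Fin n) k} (hg : Irreducible g) (hv : g.vars ⊆ insert r J)
    (hs : aeval s g = 0) : aeval s (pderiv r g) ≠ 0 := by
  intro h0
  exact not_dvd_pderiv r (Z7_deg hJ hg hv hs)
    (Z7_dvd hJ hg hv hs ((vars_pderiv_subset r g).trans hv) h0)

theorem Z7_alg (hJ' : ∀ t, IsAlgebraic (Algebra.adjoin k (s '' J)) (s t))
    (f : MvPolynomial (Fin n) k) : IsAlgebraic (Algebra.adjoin k (s '' J)) (aeval s f) := by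
  induction f using MvPolynomial.induction_on with
  | C c =>
    rw [aeval_C]
    exact isAlgebraic_algebraMap (algebraMap k (Algebra.adjoin k (s '' J)) c)
  | add p q hp hq =>
    rw [map_add]
    exact hp.add hq
  | mul_X p t hp =>
    rw [map_mul, aeval_X]
    exact hp.mul (hJ' t)

/-- Nonzero values of polynomials divide nonzero values of polynomials in the coordinates `J`. -/
theorem Z7_e0 (hJ' : ∀ t, IsAlgebraic (Algebra.adjoin k (s '' J)) (s t))
    (f : MvPolynomial (Fin n) k) (hf : aeval s f ≠ 0) :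
    ∃ e T : MvPolynomial (Fin n) k, e.vars ⊆ J ∧ aeval s e ≠ 0 ∧
      aeval s e = aeval s T * aeval s f := by
  obtain ⟨t, ht, r, hr, h⟩ := (Z7_alg hJ' f).exists_nonzero_eq_adjoin_mul
    (mem_nonZeroDivisors_of_ne_zero hf)
  have h1 : ∀ x ∈ Algebra.adjoin k (s '' J), ∃ e : MvPolynomial (Fin n) k,
      e.vars ⊆ J ∧ aeval s e = x := by
    intro x hx
    have h2 : Algebra.adjoin k (s '' J) = (supported k (J : Set (Fin n))).map (aeval s) := by
      rw [supported, AlgHom.map_adjoin, Set.image_image]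
      simp only [aeval_X]
    rw [h2] at hx
    obtain ⟨e, he, rfl⟩ := hx
    exact ⟨e, Finset.coe_subset.1 (mem_supported.1 he), rfl⟩
  have h3 : t ∈ (aeval s : MvPolynomial (Fin n) k →ₐ[k] F).range := by
    clear h
    induction ht using Algebra.adjoin_induction with
    | mem x hx =>
      rw [Set.mem_singleton_iff] at hx
      exact ⟨f, hx.symm⟩
    | algebraMap x =>
      obtain ⟨e, -, he⟩ := h1 x x.2
      exact ⟨e, he⟩
    | add x y _ _ hx hy => exact add_mem hx hy
    | mul x y _ _ hx hy => exact mul_mem hx hy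
  obtain ⟨T, hT⟩ := h3
  obtain ⟨e, he, her⟩ := h1 r r.2
  refine ⟨e, T, he, ?_, ?_⟩
  · rw [her]
    intro h0
    exact hr (Subtype.ext h0)
  · rw [her]
    have h4 : (aeval s : MvPolynomial (Fin n) k →ₐ[k] F) T = t := hT
    rw [h4, mul_comm]
    exact h.symm

theorem Z7_irreducible_of_rename {σ τ : Type*} {φ : σ → τ} (hφ : Function.Injective φ)
    {q : MvPolynomial σ k} (hq : Irreducible (rename φ q)) : Irreducible q := by
  have hu : ∀ p : MvPolynomial σ k, IsUnit (rename φ p) → IsUnit p := by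
    intro p hp
    have h1 := hp.map (killCompl hφ)
    rwa [killCompl_rename_app] at h1
  refine ⟨fun h => hq.not_isUnit (h.map (rename φ)), fun a b hab => ?_⟩
  rcases hq.isUnit_or_isUnit (by rw [hab, map_mul] : rename φ q = rename φ a * rename φ b)
    with h | h
  · exact Or.inl (hu a h)
  · exact Or.inr (hu b h)

theorem Z7_isRelPrime_of_rename {σ τ : Type*} {φ : σ → τ} (hφ : Function.Injective φ)
    {p q : MvPolynomial σ k} (hq : IsRelPrime (rename φ p) (rename φ q)) : IsRelPrime p q := by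
  intro d hp hd
  have h1 := (hq (map_dvd (rename φ) hp) (map_dvd (rename φ) hd)).map (killCompl hφ)
  rwa [killCompl_rename_app] at h1

theorem Z7_exists_rename {m : ℕ} {I : Finset (Fin n)} (hI : I.card = m)
    (p : MvPolynomial (Fin n) k) (hp : p.vars ⊆ I) :
    ∃ p' : MvPolynomial (Fin m) k, rename (I.orderEmbOfFin hI) p' = p := by
  refine exists_rename_eq_of_vars_subset_range p _ (I.orderEmbOfFin hI).injective ?_
  rw [Finset.range_orderEmbOfFin]
  exact Finset.coe_subset.2 hp

/-- Passage from `Fin (m + 2)` to the variables `J` and `r`. -/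
theorem slope_transfer [CharZero k] (y : Fin n → F)
    (hJ : AlgebraicIndependent k fun t : J => s t) (e : MvPolynomial (Fin n) k)
    (he : e.vars ⊆ J) (S : F → Prop)
    (hS : ∀ (m : ℕ) (φ : Fin (m + 2) ↪ Fin n) (r l : Fin (m + 2)), l ≠ r →
      (AlgebraicIndependent k fun t : {t : Fin (m + 2) // t ≠ r} => s (φ t)) →
      ∀ g f : MvPolynomial (Fin (m + 2)) k, Irreducible g → aeval (fun t => s (φ t)) g = 0 →
        aeval (fun t => s (φ t)) (pderiv r g) ≠ 0 → aeval (fun t => s (φ t)) f = aeval s e →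
        S (aeval (fun t => s (φ t)) (pderiv l g) * y (φ l) /
          (aeval (fun t => s (φ t)) (pderiv r g) * y (φ r)))) :
    ∀ r ∉ J, ∀ q : MvPolynomial (Fin n) k, Irreducible q → q.vars ⊆ insert r J →
      aeval s q = 0 → ∀ l ∈ J,
        S (aeval s (pderiv l q) * y l / (aeval s (pderiv r q) * y r)) := by
  classical
  intro r hr q hq hv hqs l hl
  have hlr : l ≠ r := fun h => hr (h ▸ hl)
  obtain ⟨m, hm⟩ : ∃ m, (insert r J).card = m + 2 := by
    have h1 := Finset.card_pos.2 ⟨l, hl⟩
    rw [Finset.card_insert_of_notMem hr]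
    exact ⟨J.card - 1, by omega⟩
  have hφr := Finset.range_orderEmbOfFin (insert r J) hm
  set φ := (insert r J).orderEmbOfFin hm with hφ
  obtain ⟨r', hr'⟩ : ∃ r', φ r' = r := by
    have h1 : r ∈ Set.range φ := by
      rw [hφr]
      exact Finset.mem_coe.2 (Finset.mem_insert_self r J)
    exact h1
  obtain ⟨l', hl'⟩ : ∃ l', φ l' = l := by
    have h1 : l ∈ Set.range φ := by
      rw [hφr]
      exact Finset.mem_coe.2 (Finset.mem_insert_of_mem hl)
    exact h1
  obtain ⟨q', hq'⟩ := Z7_exists_rename hm q hv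
  obtain ⟨e', he'⟩ := Z7_exists_rename hm e (he.trans (Finset.subset_insert r J))
  have hval : ∀ p' : MvPolynomial (Fin (m + 2)) k,
      aeval (fun t => s (φ.toEmbedding t)) p' = aeval s (rename φ p') := by
    intro p'
    rw [aeval_rename]
    rfl
  have hpd : ∀ t, rename φ (pderiv t q') = pderiv (φ t) q := by
    intro t
    rw [← hq', pderiv_rename φ.injective]
  have hJ2 : AlgebraicIndependent k fun t : {t : Fin (m + 2) // t ≠ r'} =>
      s (φ.toEmbedding t) := by
    have h1 : ∀ t : {t : Fin (m + 2) // t ≠ r'}, φ t ∈ J := by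
      intro t
      have h2 : φ t ∈ Set.range φ := ⟨t, rfl⟩
      rw [hφr, Finset.mem_coe, Finset.mem_insert] at h2
      refine h2.resolve_left fun h3 => t.2 (φ.injective ?_)
      rw [h3, hr']
    exact hJ.comp (fun t : {t : Fin (m + 2) // t ≠ r'} => (⟨φ t, h1 t⟩ : J)) (by
      intro t t' htt
      simp only [Subtype.mk.injEq] at htt
      exact Subtype.ext (φ.injective htt))
  have hmain := hS m φ.toEmbedding r' l' (by
      rintro rfl
      exact hlr (hl'.symm.trans hr')) hJ2 q' e'
    (Z7_irreducible_of_rename φ.injective (by rwa [hq']))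
    (by rw [hval, hq']; exact hqs)
    (by
      rw [hval, hpd, hr']
      exact Z7_pderiv hJ hq hv hqs) (by rw [hval, he'])
  rw [hval, hval, hpd, hpd, hr', hl'] at hmain
  have h1 : φ.toEmbedding l' = l := hl'
  have h2 : φ.toEmbedding r' = r := hr'
  rw [h1, h2] at hmain
  exact hmain

end

section

variable {k F : Type*} [Field k] [Field F] [Algebra k F] {n : ℕ} {s : Fin n → F}
  {J : Finset (Fin n)}

theorem Z7_ne (hJ : AlgebraicIndependent k fun t : J => s t) {f g : MvPolynomial (Fin n) k}
    (hf : f.vars ⊆ J) (hg : g.vars ⊆ J) (hfg : IsRelPrime f g) :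
    aeval s f ≠ 0 ∨ aeval s g ≠ 0 := by
  by_contra hc
  rw [not_or, not_not, not_not] at hc
  have h1 := Z7_zero hJ hf hc.1
  have h2 := Z7_zero hJ hg hc.2
  rw [h1, h2] at hfg
  exact not_isUnit_zero (hfg (dvd_refl 0) (dvd_refl 0))

theorem Z7_coprime (hJ : J.card = 1) {f g : MvPolynomial (Fin n) k}
    (hf : f.vars ⊆ J) (hg : g.vars ⊆ J) (hfg : IsRelPrime f g) : IsCoprime f g := by
  obtain ⟨f', hf'⟩ := Z7_exists_rename hJ f hf
  obtain ⟨g', hg'⟩ := Z7_exists_rename hJ g hg
  have h1 : IsRelPrime f' g' :=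
    Z7_isRelPrime_of_rename (J.orderEmbOfFin hJ).injective (by rwa [hf', hg'])
  let φ : Polynomial k →+* MvPolynomial (Fin 1) k :=
    (Polynomial.aeval (X 0 : MvPolynomial (Fin 1) k)).toRingHom
  have hφ : Function.Surjective φ := by
    intro p
    induction p using MvPolynomial.induction_on with
    | C a => exact ⟨Polynomial.C a, Polynomial.aeval_C _ _⟩
    | add p q hp hq =>
      obtain ⟨p', hp'⟩ := hp
      obtain ⟨q', hq'⟩ := hq
      exact ⟨p' + q', by rw [map_add, hp', hq']⟩
    | mul_X p t hp =>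
      obtain ⟨p', hp'⟩ := hp
      refine ⟨p' * Polynomial.X, ?_⟩
      rw [map_mul, hp', Subsingleton.elim t 0]
      congr 1
      exact Polynomial.aeval_X _
  have : IsPrincipalIdealRing (MvPolynomial (Fin 1) k) := IsPrincipalIdealRing.of_surjective φ hφ
  have h2 : IsCoprime f' g' := h1.isCoprime
  rw [← hf', ← hg']
  exact h2.map (rename _).toRingHom

theorem Z7_alg_empty (hJ : J.card = 0) {a : F}
    (h : IsAlgebraic (Algebra.adjoin k (s '' J)) a) : IsAlgebraic k a := by
  have h1 : Algebra.IsAlgebraic k (Algebra.adjoin k (s '' (J : Set (Fin n)))) := by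
    rw [← Subalgebra.isAlgebraic_iff, Algebra.isAlgebraic_adjoin_iff]
    intro x hx
    rw [Finset.card_eq_zero] at hJ
    subst hJ
    simp at hx
  exact h.restrictScalars k

end

end Pool.Agent.Lib.MP_17a322_nt.VN
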