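import Pool.Agent.Lib.MP_17a322_nt.VN.Z7a
import Pool.Agent.Lib.MP_17a322_nt.VN.Z7b
import Pool.Agent.Lib.MP_17a322_nt.VN.Z6
import Pool.Agent.Lib.MP_17a322_nt.VN.F7

/-!
The slopes of the dependent coordinates are in `k0`.
-/

universe u

namespace Pool.Agent.Lib.MP_17a322_nt.VN

open MvPolynomial Height Filter
open Pool.Agent.Lib.MP_17a322_nt.RO
open Pool.Agent.Lib.MP_17a322_nt.VJ

section

variable {K : Type u} [Field K] [NumberField K] {n : ℕ} (H : ℕ → ℝ)
  (hH : Tendsto H (hyperfilter ℕ : Filter ℕ) atTop) (s : ℕ → Fin n → K)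

/-- The gain of a pair of polynomials is carried by a polynomial in the variables `J`. -/
theorem Z7_gain (J : Finset (Fin n))
    (hJ' : ∀ t, IsAlgebraic (Algebra.adjoin (k0 K H hH) ((fun t => gm fun i => s i t) '' J))
      (gm fun i => s i t))
    (a b : ℕ → K) (f : MvPolynomial (Fin n) (k0 K H hH))
    (ha : gm a = aeval (fun t => gm fun i => s i t) f) (ha0 : gm a ≠ 0)
    (ε : ℝ) (hε : 0 < ε)
    (hgain : ∀ᶠ i in (hyperfilter ℕ : Filter ℕ), ε * H i ≤ gn (s i) (a i) (b i)) :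
    ∃ e : MvPolynomial (Fin n) (k0 K H hH), e.vars ⊆ J ∧
      ∃ b' : ℕ → K, gm b' = aeval (fun t => gm fun i => s i t) e ∧ gm b' ≠ 0 ∧
        ∀ᶠ i in (hyperfilter ℕ : Filter ℕ), ε / 2 * H i ≤ gn (s i) 0 (b' i) := by
  obtain ⟨e, T, he, he0, hc⟩ := Z7_e0 (J := J) hJ' f (by rwa [← ha])
  obtain ⟨b', hb', -⟩ := cb_rep H hH s e
  refine ⟨e, he, b', hb', by rwa [hb'], ?_⟩
  have h1 := gn_comb' H hH s a b (fun _ => 0) b' 0 0 T 0
    (by rw [map_zero, zero_mul, zero_mul, add_zero, gm_zero])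
    (by rw [hb', hc, ha, map_zero, zero_mul, add_zero]) (Or.inr (by rwa [hb'])) (ε / 2)
    (by linarith)
  filter_upwards [h1, hgain] with i h2 h3
  linarith

end

section

variable {K : Type u} [Field K] [NumberField K] [DecidableEq K] {n : ℕ}
  (W : Fin n → WeierstrassCurve K) [∀ t, (W t).IsElliptic] (χ : Fin n → Bool)
  (P : ℕ → ∀ t, (W t).toAffine.Point) (s y : ℕ → Fin n → K)
  (hH : Tendsto (fun i => HN (P i)) (hyperfilter ℕ : Filter ℕ) atTop)
  (hP : ∀ i t, P i t ≠ 0) (hs : ∀ i t, CH (χ t) (P i t) (s i t))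
  (hy : ∀ i t, y i t ^ 2 = ph (W t) (vc (χ t) (s i t)))

include hP hs in
/-- Comparison of gains. -/
theorem gn_comb (a b a' b' : ℕ → K) (A B A' B' : MvPolynomial (Fin n) (k0 K _ hH))
    (ha : gm a' = aeval (fun t => gm fun i => s i t) A * gm a +
      aeval (fun t => gm fun i => s i t) B * gm b)
    (hb : gm b' = aeval (fun t => gm fun i => s i t) A' * gm a +
      aeval (fun t => gm fun i => s i t) B' * gm b)
    (h0 : gm a' ≠ 0 ∨ gm b' ≠ 0) (δ : ℝ) (hδ : 0 < δ) :
    ∀ᶠ i in (hyperfilter ℕ : Filter ℕ),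
      gn (s i) (a i) (b i) ≤ gn (s i) (a' i) (b' i) + δ * HN (P i) :=
  gn_comb' (fun i => HN (P i)) hH s a b a' b' A B A' B' ha hb h0 δ hδ

include hP hs hy in
/-- The slopes are in `k0`. -/
theorem slopes (J : Finset (Fin n))
    (hJ : AlgebraicIndependent (k0 K _ hH) fun t : J => gm fun i => s i t)
    (hJ' : ∀ t, IsAlgebraic (Algebra.adjoin (k0 K _ hH) ((fun t => gm fun i => s i t) '' J))
      (gm fun i => s i t))
    (f g : MvPolynomial (Fin n) K) (hf : aeval (fun t => gm fun i => s i t) f ≠ 0) (ε : ℝ)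
    (hε : 0 < ε)
    (hgain : ∀ᶠ i in (hyperfilter ℕ : Filter ℕ),
      ε * HN (P i) ≤ gn (s i) (eval (s i) f) (eval (s i) g)) :
    ∀ r ∉ J, ∀ q : MvPolynomial (Fin n) (k0 K _ hH), Irreducible q → q.vars ⊆ insert r J →
      aeval (fun t => gm fun i => s i t) q = 0 → ∀ l ∈ J,
        aeval (fun t => gm fun i => s i t) (pderiv l q) * gm (fun i => y i l) /
          (aeval (fun t => gm fun i => s i t) (pderiv r q) * gm (fun i => y i r)) ∈
            k0 K _ hH := by
  have hmap : aeval (fun t => gm fun i => s i t)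
      (map (algebraMap K (k0 K (fun i => HN (P i)) hH)) f) =
      aeval (fun t => gm fun i => s i t) f := aeval_map_algebraMap _ _ _
  have hgm : gm (fun i => eval (s i) f) = aeval (fun t => gm fun i => s i t) f :=
    (aeval_gm s f).symm
  obtain ⟨e, he, b', hb', hb0, hg⟩ :=
    Z7_gain (fun i => HN (P i)) hH s J hJ' (fun i => eval (s i) f) (fun i => eval (s i) g)
      (map (algebraMap K (k0 K (fun i => HN (P i)) hH)) f) (hgm.trans hmap.symm)
      (by rw [hgm]; exact hf) ε hε hgain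
  refine slope_transfer (k := k0 K (fun i => HN (P i)) hH) (s := fun t => gm fun i => s i t)
    (fun t => gm fun i => y i t) hJ e he (fun z => z ∈ k0 K (fun i => HN (P i)) hH) ?_
  intro m φ r l hlr hJ2 q' f' hq' h0 hd hf
  exact SLOPE W χ P s y hH hP hs hy φ r l hlr hJ2 q' f' hq' h0 hd b' (hb'.trans hf.symm) hb0
    (ε / 2) (by linarith) hg

end

end Pool.Agent.Lib.MP_17a322_nt.VN
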