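import Pool.Agent.Lib.MP_17a322_nt.PB.B1a
import Pool.Agent.Lib.MP_17a322_nt.VN.Z1

/-!
# Z8: the polynomial `ph` in a chart is squarefree of degree at least three
-/

namespace Pool.Agent.Lib.MP_17a322_nt.VN

open WeierstrassCurve Polynomial
open Pool.Agent.Lib.MP_17a322_nt.VJ Pool.Agent.Lib.MP_17a322_nt.PB

/-- `ph` in the chart `c`. -/
noncomputable def Qp {K : Type*} [Field K] (W : WeierstrassCurve K) (c : Bool) : Polynomial K :=
  ph W (vc c (X : Polynomial K))

theorem aeval_Qp {K A : Type*} [Field K] [CommRing A] [Algebra K A] (W : WeierstrassCurve K)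
    (c : Bool) (s : A) : aeval s (Qp W c) = ph W (vc c s) := by
  unfold Qp ph vc
  cases c
  · simp only [Bool.false_eq_true, if_false, Matrix.cons_val_zero, Matrix.cons_val_one, map_mul,
      map_add, map_pow, map_ofNat, map_one, aeval_X, AlgHom.commutes]
  · simp only [if_true, Matrix.cons_val_zero, Matrix.cons_val_one, map_mul,
      map_add, map_pow, map_ofNat, map_one, aeval_X, AlgHom.commutes]

theorem Qp_false {K : Type*} [Field K] (W : WeierstrassCurve K) : Qp W false = psi W := by
  unfold Qp ph vc psi
  simp only [Bool.false_eq_true, if_false, Matrix.cons_val_zero, Matrix.cons_val_one, one_mul,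
    mul_one, one_pow, C_mul, C_ofNat]
  rfl

theorem Qp_true {K : Type*} [Field K] (W : WeierstrassCurve K) :
    Qp W true = X * (C 4 + C W.b₂ * X + C (2 * W.b₄) * X ^ 2 + C W.b₆ * X ^ 3) := by
  unfold Qp ph vc
  simp only [if_true, Matrix.cons_val_zero, Matrix.cons_val_one, one_mul,
    mul_one, one_pow, C_mul, C_ofNat]
  rfl

theorem psi_separable {K : Type*} [Field K] [CharZero K] (W : WeierstrassCurve K)
    [W.IsElliptic] : (psi W).Separable :=
  PerfectField.separable_iff_squarefree.2 (psi_squarefree W)

theorem Qp_squarefree {K : Type*} [Field K] [CharZero K] (W : WeierstrassCurve K) [W.IsElliptic]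
    (c : Bool) : Squarefree (Qp W c) := by
  cases c
  · rw [Qp_false]
    exact psi_squarefree W
  · apply Polynomial.Separable.squarefree
    unfold Polynomial.Separable
    refine (Polynomial.isCoprime_iff_aeval_ne_zero_of_isAlgClosed K (AlgebraicClosure K) _ _).2
      fun β => ?_
    by_contra hc
    push Not at hc
    obtain ⟨h1, h2⟩ := hc
    rw [Qp_true] at h1 h2
    simp only [derivative_mul, derivative_add, derivative_C, derivative_X, derivative_X_pow,
      map_add, map_mul, map_pow, aeval_X, aeval_C, zero_mul, zero_add, one_mul, mul_one,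
      Nat.cast_ofNat, map_ofNat, pow_one, Nat.add_one_sub_one, C_mul, C_ofNat, derivative_ofNat,
      map_zero, mul_zero] at h1 h2
    have h4 : (4 : AlgebraicClosure K) ≠ 0 := by norm_num
    by_cases hβ : β = 0
    · rw [hβ] at h2
      apply h4
      linear_combination h2
    · have hs := (Polynomial.isCoprime_iff_aeval_ne_zero_of_isAlgClosed K (AlgebraicClosure K)
        _ _).1 (psi_separable W) β⁻¹
      have h3 : 4 + algebraMap K (AlgebraicClosure K) W.b₂ * β +
          2 * algebraMap K (AlgebraicClosure K) W.b₄ * β ^ 2 +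
          algebraMap K (AlgebraicClosure K) W.b₆ * β ^ 3 = 0 :=
        (mul_eq_zero.1 h1).resolve_left hβ
      rcases hs with hs | hs
      · apply hs
        simp only [psi, map_add, map_mul, map_pow, aeval_X, aeval_C, map_ofNat]
        have h5 : 4 * β⁻¹ ^ 3 + algebraMap K (AlgebraicClosure K) W.b₂ * β⁻¹ ^ 2 +
            2 * algebraMap K (AlgebraicClosure K) W.b₄ * β⁻¹ +
            algebraMap K (AlgebraicClosure K) W.b₆ = β⁻¹ ^ 3 *
            (4 + algebraMap K (AlgebraicClosure K) W.b₂ * β +
              2 * algebraMap K (AlgebraicClosure K) W.b₄ * β ^ 2 +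
              algebraMap K (AlgebraicClosure K) W.b₆ * β ^ 3) := by
          field_simp
        rw [h5, h3, mul_zero]
      · apply hs
        simp only [psi, derivative_mul, derivative_add, derivative_C, derivative_X,
          derivative_X_pow, map_add, map_mul, map_pow, aeval_X, aeval_C, zero_mul, zero_add,
          one_mul, mul_one, add_zero, map_ofNat, Nat.cast_ofNat, C_mul, C_ofNat,
          derivative_ofNat, map_zero, mul_zero, Nat.add_one_sub_one, pow_one]
        have h5 : 12 + 2 * algebraMap K (AlgebraicClosure K) W.b₂ * β +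
            2 * algebraMap K (AlgebraicClosure K) W.b₄ * β ^ 2 = 0 := by
          linear_combination (-1 : AlgebraicClosure K) * h2 + 4 * h3
        have h6 : 4 * (3 * β⁻¹ ^ 2) + algebraMap K (AlgebraicClosure K) W.b₂ * (2 * β⁻¹) +
            2 * algebraMap K (AlgebraicClosure K) W.b₄ = β⁻¹ ^ 2 *
            (12 + 2 * algebraMap K (AlgebraicClosure K) W.b₂ * β +
            2 * algebraMap K (AlgebraicClosure K) W.b₄ * β ^ 2) := by
          field_simp
          ring
        rw [h5, mul_zero] at h6
        linear_combination h6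

theorem three_le_natDegree_Qp {K : Type*} [Field K] [CharZero K] (W : WeierstrassCurve K)
    [W.IsElliptic] (c : Bool) : 3 ≤ (Qp W c).natDegree := by
  cases c
  · rw [Qp_false]
    refine le_natDegree_of_ne_zero ?_
    unfold psi
    simp [coeff_X, coeff_C]
  · have h3 : (Qp W true).coeff 3 = 2 * W.b₄ := by
      rw [Qp_true, coeff_X_mul]
      simp only [coeff_add, coeff_C_mul, coeff_X_pow, coeff_X, coeff_C]
      norm_num
    have h4 : (Qp W true).coeff 4 = W.b₆ := by
      rw [Qp_true, coeff_X_mul]
      simp only [coeff_add, coeff_C_mul, coeff_X_pow, coeff_X, coeff_C]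
      norm_num
    by_cases h6 : W.b₆ = 0
    · refine le_natDegree_of_ne_zero ?_
      rw [h3]
      intro h
      have hb4 : W.b₄ = 0 := by
        rcases mul_eq_zero.1 h with h | h
        · exact absurd h two_ne_zero
        · exact h
      have h5 : psi W = X * X * (C 4 * X + C W.b₂) := by
        unfold psi
        rw [h6, hb4, mul_zero, C_0]
        ring
      have h7 : IsUnit (X : Polynomial K) := psi_squarefree W X ⟨_, h5⟩
      exact not_isUnit_X h7
    · refine le_trans (by norm_num) (le_natDegree_of_ne_zero (n := 4) ?_)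
      rw [h4]
      exact h6

end Pool.Agent.Lib.MP_17a322_nt.VN
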