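import Pool.Agent.Lib.MP_17a322_nt.VN.EndStub
import Pool.Agent.Lib.MP_17a322_nt.VN.Z4
import Pool.Agent.Lib.MP_17a322_nt.VN.Z7d
import Pool.Agent.Lib.MP_17a322_nt.VN.Z8

/-!
# Z9: a generic sequence with positive gain does not exist
-/

universe u

namespace Pool.Agent.Lib.MP_17a322_nt.VN

open MvPolynomial Height Filter
open Pool.Agent.Lib.MP_17a322_nt.RO
open Pool.Agent.Lib.MP_17a322_nt.VJ

theorem polynomial_aeval_gm {K : Type*} [Field K] (a : ℕ → K) (Q : Polynomial K) :
    Polynomial.aeval (gm a) Q = gm fun i => Polynomial.aeval (a i) Q := by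
  induction Q using Polynomial.induction_on' with
  | add p q hp hq =>
    rw [map_add, hp, hq]
    simp only [map_add]
    rfl
  | monomial m c =>
    rw [Polynomial.aeval_monomial]
    simp only [Polynomial.aeval_monomial]
    rfl

theorem gm_surjective {K : Type*} (a : GK K) : ∃ α : ℕ → K, gm α = a := by
  induction a using Filter.Germ.inductionOn with
  | h α => exact ⟨α, rfl⟩

theorem no_sequence {K : Type u} [Field K] [NumberField K] [DecidableEq K] {n : ℕ}
    (W : Fin n → WeierstrassCurve K) [∀ t, (W t).IsElliptic] (χ : Fin n → Bool)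
    (P : ℕ → ∀ t, (W t).toAffine.Point) (s y : ℕ → Fin n → K)
    (hH : Tendsto (fun i => HN (P i)) (hyperfilter ℕ : Filter ℕ) atTop)
    (hP : ∀ i t, P i t ≠ 0) (hs : ∀ i t, CH (χ t) (P i t) (s i t))
    (hy : ∀ i t, y i t ^ 2 = ph (W t) (vc (χ t) (s i t)))
    (hgen : ∀ G : MvPolynomial (Fin n) K, G ≠ 0 →
      ∀ᶠ i in (hyperfilter ℕ : Filter ℕ), eval (s i) G ≠ 0)
    (f g : MvPolynomial (Fin n) K) (hfg : IsRelPrime f g) (hf : f ≠ 0) (ε : ℝ) (hε : 0 < ε)
    (hgain : ∀ᶠ i in (hyperfilter ℕ : Filter ℕ),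
      ε * HN (P i) ≤ gn (s i) (eval (s i) f) (eval (s i) g)) : False := by
  have hsi := algebraicIndependent_gm s hgen
  have hf0 : aeval (fun t => gm fun i => s i t) f ≠ 0 := by
    intro h
    exact hf ((algebraicIndependent_iff.1 hsi) f h)
  obtain ⟨J, hJ, hJ'⟩ := exists_J (k := k0 K _ hH) (fun t => gm fun i => s i t)
  have hsl := slopes W χ P s y hH hP hs hy J hJ hJ' f g hf0 ε hε hgain
  obtain ⟨f', g', A, B, A', B', hfv, hgv, hfg', hf', hg'⟩ := END (k0 K _ hH)
    (fun a ha => k0_closed _ hH a ha) (fun t => Qp (W t) (χ t))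
    (fun t => Qp_squarefree (W t) (χ t)) (fun t => three_le_natDegree_Qp (W t) (χ t))
    (fun t => gm fun i => s i t) (fun t => gm fun i => y i t) (fun t => by
      rw [polynomial_aeval_gm]
      simp only [aeval_Qp, ← hy]
      rfl) hsi J hJ hJ' hsl f g hfg
  obtain ⟨a, ha⟩ := gm_surjective (aeval (fun t => gm fun i => s i t) f')
  obtain ⟨b, hb⟩ := gm_surjective (aeval (fun t => gm fun i => s i t) g')
  obtain ⟨h0, hng⟩ := no_gain W χ P s y hH hP hs hy J hJ hJ' f' g' hfv hgv hfg' a b ha hb (ε / 4)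
    (by positivity)
  have hcomb := gn_comb W χ P s hH hP hs (fun i => eval (s i) f) (fun i => eval (s i) g) a b
    A B A' B' (by rw [ha, hf', aeval_gm, aeval_gm]) (by rw [hb, hg', aeval_gm, aeval_gm]) h0
    (ε / 4) (by positivity)
  obtain ⟨i, ⟨⟨h1, h2⟩, h3⟩, h4⟩ := (((hgain.and hng).and hcomb).and
    (hH.eventually_gt_atTop 0)).exists
  have h5 : 0 < ε * HN (P i) := mul_pos hε h4
  linarith

end Pool.Agent.Lib.MP_17a322_nt.VN
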