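import Pool.Agent.Lib.MP_17a322_nt.Mb

/-!
# Z5: a sequence of bad points which leaves every hypersurface
-/

namespace Pool.Agent.Lib.MP_17a322_nt.VN

open MvPolynomial Filter

theorem countable_numberField (K : Type*) [Field K] [NumberField K] : Countable K := by
  have e := (Module.finBasis ℚ K).equivFun
  exact e.toEquiv.countable_iff.2 inferInstance

theorem countable_mvPolynomial (K : Type*) [Field K] [NumberField K] (n : ℕ) :
    Countable (MvPolynomial (Fin n) K) := by
  have := countable_numberField K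
  rw [← Cardinal.mk_le_aleph0_iff]
  refine (MvPolynomial.cardinalMk_le_max_lift (σ := Fin n) (R := K)).trans ?_
  refine max_le (max_le ?_ ?_) le_rfl
  · rw [Cardinal.lift_le_aleph0]
    exact Cardinal.mk_le_aleph0
  · rw [Cardinal.lift_le_aleph0]
    exact Cardinal.mk_le_aleph0

/-- If for every nonzero `G` and every `ν` there is a bad point of level `ν` at which `G` does not
vanish then there is a sequence of bad points leaving every hypersurface. -/
theorem exists_generic_seq {K : Type*} [Field K] [NumberField K] {n : ℕ} {T : Type*}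
    (x : T → Fin n → K) (bad : ℕ → Set T) (G₀ : MvPolynomial (Fin n) K) (hG₀ : G₀ ≠ 0)
    (h : ∀ G : MvPolynomial (Fin n) K, G ≠ 0 → ∀ ν : ℕ, ∃ p ∈ bad ν, eval (x p) G ≠ 0) :
    ∃ P : ℕ → T, (∀ ν, P ν ∈ bad ν) ∧ (∀ ν, eval (x (P ν)) G₀ ≠ 0) ∧
      ∀ G : MvPolynomial (Fin n) K, G ≠ 0 → ∀ᶠ ν in atTop, eval (x (P ν)) G ≠ 0 := by
  classical
  have hc : Countable {G : MvPolynomial (Fin n) K // G ≠ 0} := by
    have := countable_mvPolynomial K n
    infer_instance
  have hne : Nonempty {G : MvPolynomial (Fin n) K // G ≠ 0} := ⟨⟨G₀, hG₀⟩⟩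
  obtain ⟨E, hE⟩ := exists_surjective_nat {G : MvPolynomial (Fin n) K // G ≠ 0}
  have hprod : ∀ ν : ℕ, G₀ * ∏ i ∈ Finset.range (ν + 1), (E i : MvPolynomial (Fin n) K) ≠ 0 :=
    fun ν => mul_ne_zero hG₀ (Finset.prod_ne_zero_iff.2 fun i _ => (E i).2)
  choose P hP hPG using fun ν => h _ (hprod ν) ν
  refine ⟨P, hP, fun ν => ?_, fun G hG => ?_⟩
  · have h1 := hPG ν
    rw [map_mul] at h1
    exact left_ne_zero_of_mul h1
  · obtain ⟨i, hi⟩ := hE ⟨G, hG⟩
    refine eventually_atTop.2 ⟨i, fun ν hν => ?_⟩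
    have h1 := hPG ν
    rw [map_mul, map_prod] at h1
    have h2 := Finset.prod_ne_zero_iff.1 (right_ne_zero_of_mul h1) i
      (Finset.mem_range.2 (by omega))
    rw [hi] at h2
    exact h2

end Pool.Agent.Lib.MP_17a322_nt.VN
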