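import Pool.Agent.Lib.MP_17a322_nt.VN.Z3
import Pool.Agent.Lib.MP_17a322_nt.VN.Z5
import Pool.Agent.Lib.MP_17a322_nt.VN.Z9

/-!
# Z10: the final theorem
-/

universe u

namespace Pool.Agent.Lib.MP_17a322_nt.VN

open MvPolynomial Height Filter
open Pool.Agent.Lib.MP_17a322_nt.RO
open Pool.Agent.Lib.MP_17a322_nt.VJ

/-- The coordinate in the chart. -/
theorem CH_some {K : Type*} [Field K] {W : WeierstrassCurve K} (c : Bool) {x y : K}
    (h : W.toAffine.Nonsingular x y) (hx : x ≠ 0) :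
    CH c (WeierstrassCurve.Affine.Point.some x y h) (sc c x) := by
  unfold CH
  rw [WeierstrassCurve.Affine.Point.xRep_some]
  cases c
  · refine ⟨1, one_ne_zero, ?_⟩
    simp [sc, vc]
  · refine ⟨x, hx, ?_⟩
    funext i
    fin_cases i <;> simp [sc, vc, hx]

/-- The square root of `ph` in the chart. -/
theorem ph_sc {K : Type*} [Field K] {W : WeierstrassCurve K} (c : Bool) {x y : K}
    (h : W.toAffine.Nonsingular x y) (hx : x ≠ 0) :
    ((if c then (sc c x) ^ 2 else 1) * (2 * y + W.a₁ * x + W.a₃)) ^ 2 = ph W (vc c (sc c x)) := by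
  have h1 := (WeierstrassCurve.Affine.equation_iff x y).1 h.1
  cases c
  · simp only [sc, vc, ph, Bool.false_eq_true, if_false, Matrix.cons_val_zero,
      Matrix.cons_val_one, Algebra.algebraMap_self, RingHom.id_apply, WeierstrassCurve.b₂,
      WeierstrassCurve.b₄, WeierstrassCurve.b₆]
    linear_combination 4 * h1
  · simp only [sc, vc, ph, if_true, Matrix.cons_val_zero,
      Matrix.cons_val_one, Algebra.algebraMap_self, RingHom.id_apply, WeierstrassCurve.b₂,
      WeierstrassCurve.b₄, WeierstrassCurve.b₆]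
    have h2 : (2 * y + W.a₁ * x + W.a₃) ^ 2 = 4 * x ^ 3 + (W.a₁ ^ 2 + 4 * W.a₂) * x ^ 2 +
        2 * (2 * W.a₄ + W.a₁ * W.a₃) * x + (W.a₃ ^ 2 + 4 * W.a₆) := by
      linear_combination 4 * h1
    rw [mul_pow, h2]
    field_simp

theorem final {K : Type u} [Field K] [NumberField K] {n : ℕ}
    (W : Fin n → WeierstrassCurve K) [∀ i, (W i).IsElliptic]
    (m : ℕ) (g : Fin m → MvPolynomial (Fin n) K) (d : Fin n → ℕ)
    (hd : ∀ k i, (g k).degreeOf i ≤ d i)
    (hY : ∀ (F : Type u) [Field F] [Algebra K F] (X Z : Fin n → F),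
      (∀ i, X i ≠ 0 ∨ Z i ≠ 0) →
      (∀ k, ∑ e ∈ (g k).support, algebraMap K F ((g k).coeff e) *
        ∏ i, (X i ^ e i * Z i ^ (d i - e i)) = 0) →
        Algebra.trdeg K (IntermediateField.adjoin K (Set.range fun i => X i / Z i)) + 1 < n)
    (ε : ℝ) (hε : 0 < ε) :
    ∃ G : MvPolynomial (Fin n) K, G ≠ 0 ∧ ∃ C : ℝ, ∀ x y : Fin n → K,
      (∀ i, (W i).toAffine.Nonsingular (x i) (y i)) → eval x G ≠ 0 →
        ∑ i, (d i : ℝ) * logHeight₁ (x i) - logHeight (fun k => eval x (g k)) ≤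
          ε * ∑ i, logHeight₁ (x i) + C := by
  classical
  rcases Nat.eq_zero_or_pos n with hn | hn
  · subst hn
    refine ⟨1, one_ne_zero, ∑ i : Fin 0, (d i : ℝ) * logHeight₁ ((fun _ => (0 : K)) i) -
      logHeight (fun k => eval (fun _ => (0 : K)) (g k)) -
      ε * ∑ i : Fin 0, logHeight₁ ((fun _ => (0 : K)) i), fun x y _ _ => ?_⟩
    have hx : x = fun _ => 0 := Subsingleton.elim _ _
    rw [hx]
    linarith
  · -- coprime pairs in all charts
    have hpair : ∀ χ : Fin n → Bool, ∃ a b : Fin m → K,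
        (∑ k, a k • chp χ d (g k)) ≠ 0 ∧
        IsRelPrime (∑ k, a k • chp χ d (g k)) (∑ k, b k • chp χ d (g k)) := by
      intro χ
      have h1 := chart_no_common_factor g d hY χ
      obtain ⟨k₀, hk₀⟩ := h1 (X ⟨0, hn⟩) (MvPolynomial.X_prime.irreducible)
      have h2 : chp χ d (g k₀) ≠ 0 := by
        intro h
        rw [h] at hk₀
        exact hk₀ (dvd_zero _)
      obtain ⟨b, hb⟩ := exists_isRelPrime (k := K) (fun k => chp χ d (g k)) h1 k₀ h2
      have h3 : ∑ k, (Pi.single k₀ 1 : Fin m → K) k • chp χ d (g k) = chp χ d (g k₀) := by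
        rw [Finset.sum_eq_single k₀ (fun k _ hne => by rw [Pi.single_eq_of_ne hne, zero_smul])
          (fun hne => absurd (Finset.mem_univ k₀) hne), Pi.single_eq_same, one_smul]
      exact ⟨Pi.single k₀ 1, b, by rw [h3]; exact h2, by rw [h3]; exact hb⟩
    choose a b hf0 hrel using hpair
    obtain ⟨C₁, hC₁⟩ := dfc_le_gn g d hd a b
    obtain ⟨f, hf⟩ : ∃ f : (Fin n → Bool) → MvPolynomial (Fin n) K,
        f = fun χ => ∑ k, a χ k • chp χ d (g k) := ⟨_, rfl⟩
    obtain ⟨h, hh⟩ : ∃ h : (Fin n → Bool) → MvPolynomial (Fin n) K,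
        h = fun χ => ∑ k, b χ k • chp χ d (g k) := ⟨_, rfl⟩
    have hfv : ∀ χ, ∑ k, a χ k • chp χ d (g k) = f χ := fun χ => by rw [hf]
    have hhv : ∀ χ, ∑ k, b χ k • chp χ d (g k) = h χ := fun χ => by rw [hh]
    simp only [hfv, hhv] at hf0 hrel hC₁
    by_contra hcon
    push Not at hcon
    -- the sequence
    obtain ⟨P, hPbad, hPG₀, hPgen⟩ := exists_generic_seq
      (T := {p : (Fin n → K) × (Fin n → K) // ∀ i, (W i).toAffine.Nonsingular (p.1 i) (p.2 i)})
      (fun p => p.1.1)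
      (fun ν => {p | ε * ∑ i, logHeight₁ (p.1.1 i) + ν <
        ∑ i, (d i : ℝ) * logHeight₁ (p.1.1 i) - logHeight (fun k => eval p.1.1 (g k))})
      ((∏ t, X t) * ∏ χ, chp χ (fun t => (f χ).degreeOf t) (f χ))
      (mul_ne_zero (Finset.prod_ne_zero_iff.2 fun t _ => MvPolynomial.X_ne_zero t)
        (Finset.prod_ne_zero_iff.2 fun χ _ => chp_ne_zero χ _ (f χ) (fun _ => le_rfl) (hf0 χ)))
      (fun G hG ν => by
        obtain ⟨x, y, hxy, hx, hlt⟩ := hcon G hG ν
        exact ⟨⟨(x, y), hxy⟩, hlt, hx⟩)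
    obtain ⟨x, hxP⟩ : ∃ x : ℕ → Fin n → K, x = fun ν => (P ν).1.1 := ⟨_, rfl⟩
    obtain ⟨y, hyP⟩ : ∃ y : ℕ → Fin n → K, y = fun ν => (P ν).1.2 := ⟨_, rfl⟩
    have hxy : ∀ ν i, (W i).toAffine.Nonsingular (x ν i) (y ν i) := fun ν => by
      rw [hxP, hyP]
      exact (P ν).2
    have hbad : ∀ ν : ℕ, ε * ∑ i, logHeight₁ (x ν i) + ν <
        ∑ i, (d i : ℝ) * logHeight₁ (x ν i) - logHeight (fun k => eval (x ν) (g k)) := fun ν => by
      rw [hxP]
      exact hPbad ν
    have hG₀ : ∀ ν, eval (x ν) ((∏ t, X t) * ∏ χ, chp χ (fun t => (f χ).degreeOf t) (f χ)) ≠ 0 :=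
      fun ν => by
        rw [hxP]
        exact hPG₀ ν
    have hgen : ∀ G : MvPolynomial (Fin n) K, G ≠ 0 → ∀ᶠ ν in atTop, eval (x ν) G ≠ 0 :=
      fun G hG => by
        rw [hxP]
        exact hPgen G hG
    have hx0 : ∀ ν t, x ν t ≠ 0 := by
      intro ν t
      have h1 := hG₀ ν
      rw [map_mul, map_prod] at h1
      have h2 := Finset.prod_ne_zero_iff.1 (left_ne_zero_of_mul h1) t (Finset.mem_univ t)
      rwa [eval_X] at h2
    have hf1 : ∀ ν χ, eval (fun t => sc (χ t) (x ν t)) (f χ) ≠ 0 := by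
      intro ν χ
      have h1 := hG₀ ν
      rw [map_mul, map_prod (eval (x ν)) (fun χ => chp χ (fun t => (f χ).degreeOf t) (f χ))] at h1
      have h2 := Finset.prod_ne_zero_iff.1 (right_ne_zero_of_mul h1) χ (Finset.mem_univ χ)
      exact eval_sc_ne_zero χ _ (f χ) (fun _ => le_rfl) (x ν) (hx0 ν) h2
    -- heights tend to infinity
    obtain ⟨H, hHdef⟩ : ∃ H : ℕ → ℝ, H = fun ν => ∑ i, logHeight₁ (x ν i) := ⟨_, rfl⟩
    have hHv : ∀ ν, ∑ i, logHeight₁ (x ν i) = H ν := fun ν => by rw [hHdef]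
    have hH0 : ∀ ν, 0 ≤ H ν := fun ν => by
      rw [← hHv]
      exact Finset.sum_nonneg fun i _ => zero_le_logHeight₁ _
    obtain ⟨D, hD⟩ : ∃ D : ℝ, D = ∑ i, (d i : ℝ) + 1 := ⟨_, rfl⟩
    have hD0 : 0 < D := by
      rw [hD]
      have : 0 ≤ ∑ i, (d i : ℝ) := Finset.sum_nonneg fun i _ => Nat.cast_nonneg _
      linarith
    have hHge : ∀ ν : ℕ, (ν : ℝ) / D ≤ H ν := by
      intro ν
      rw [div_le_iff₀ hD0]
      have h1 := hbad ν
      have h2 : 0 ≤ logHeight (fun k => eval (x ν) (g k)) := logHeight_nonneg _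
      have h3 : ∑ i, (d i : ℝ) * logHeight₁ (x ν i) ≤ (∑ i, (d i : ℝ)) * H ν := by
        rw [Finset.sum_mul]
        refine Finset.sum_le_sum fun i _ => mul_le_mul_of_nonneg_left ?_ (Nat.cast_nonneg _)
        rw [← hHv]
        exact Finset.single_le_sum (f := fun i => logHeight₁ (x ν i))
          (fun i _ => zero_le_logHeight₁ _) (Finset.mem_univ i)
      rw [hHv] at h1
      have h4 := mul_nonneg hε.le (hH0 ν)
      have h5 := hH0 ν
      rw [hD]
      nlinarith
    have hHtop : Tendsto H atTop atTop :=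
      tendsto_atTop_mono hHge (tendsto_natCast_atTop_atTop.atTop_div_const hD0)
    -- one chart
    obtain ⟨N, hN⟩ : ∃ N : ℝ, N = Fintype.card (Fin n → Bool) := ⟨_, rfl⟩
    have hN0 : 0 < N := by
      rw [hN]
      exact_mod_cast Fintype.card_pos
    have hchart : ∀ᶠ ν in (hyperfilter ℕ : Filter ℕ), ∃ χ : Fin n → Bool, ε / N * H ν ≤
        gn (fun t => sc (χ t) (x ν t)) (eval (fun t => sc (χ t) (x ν t)) (f χ))
          (eval (fun t => sc (χ t) (x ν t)) (h χ)) := by
      have hlarge : ∀ᶠ ν : ℕ in (hyperfilter ℕ : Filter ℕ), C₁ ≤ ν :=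
        (tendsto_natCast_atTop_atTop.eventually_ge_atTop C₁).filter_mono (Nat.hyperfilter_le_atTop)
      filter_upwards [hlarge] with ν hν
      by_contra hc
      push Not at hc
      have h1 := hC₁ (x ν) (hx0 ν) (hf1 ν)
      have h2 := hbad ν
      rw [hHv] at h2
      have h3 : ∑ χ : Fin n → Bool, gn (fun t => sc (χ t) (x ν t))
          (eval (fun t => sc (χ t) (x ν t)) (f χ)) (eval (fun t => sc (χ t) (x ν t)) (h χ)) ≤
          ∑ _χ : Fin n → Bool, ε / N * H ν := Finset.sum_le_sum fun χ _ => (hc χ).le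
      rw [Finset.sum_const, Finset.card_univ, nsmul_eq_mul, ← hN] at h3
      have h4 : N * (ε / N * H ν) = ε * H ν := by
        field_simp
      linarith
    obtain ⟨χ, hχ⟩ := eventually_exists_fintype _ _ hchart
    -- apply the theorem on sequences
    have hHN : ∀ ν, HN (fun t => WeierstrassCurve.Affine.Point.some (x ν t) (y ν t) (hxy ν t)) =
        H ν := by
      intro ν
      rw [← hHv]
      unfold HN
      refine Finset.sum_congr rfl fun t _ => ?_
      rw [WeierstrassCurve.Affine.Point.xRep_some]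
      exact (logHeight₁_eq_logHeight _).symm
    refine no_sequence W χ
      (fun ν t => WeierstrassCurve.Affine.Point.some (x ν t) (y ν t) (hxy ν t))
      (fun ν t => sc (χ t) (x ν t))
      (fun ν t => (if χ t then (sc (χ t) (x ν t)) ^ 2 else 1) *
        (2 * y ν t + (W t).a₁ * x ν t + (W t).a₃)) ?_ (fun ν t => ?_)
      (fun ν t => CH_some _ _ (hx0 ν t)) (fun ν t => ph_sc _ (hxy ν t) (hx0 ν t))
      (fun G hG => ?_) (f χ) (h χ) (hrel χ) (hf0 χ) (ε / N) (div_pos hε hN0) ?_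
    · simp only [hHN]
      exact hHtop.mono_left Nat.hyperfilter_le_atTop
    · exact WeierstrassCurve.Affine.Point.some_ne_zero _
    · have h1 := (hgen (chp χ (fun t => G.degreeOf t) G)
        (chp_ne_zero χ _ G (fun _ => le_rfl) hG)).filter_mono Nat.hyperfilter_le_atTop
      filter_upwards [h1] with ν hν
      exact eval_sc_ne_zero χ _ G (fun _ => le_rfl) (x ν) (hx0 ν) hν
    · filter_upwards [hχ] with ν hν
      rw [hHN]
      exact hν

end Pool.Agent.Lib.MP_17a322_nt.VN
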