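import Pool.Agent.Lib.MP_17a322_nt.VN.Defs
import Pool.Agent.Lib.MP_17a322_nt.VJ.J0

/-!
Definitions for part L (the two numerical theorems S1 and S2).

`VL m n`: the variables `x_t` (`inl t`), `S_p` (`inr (inl p)`), `ξ_p` (`inr (inr p)`), `p = (i, t)`.
-/

namespace Pool.Agent.Lib.MP_17a322_nt.VN

open MvPolynomial Height
open Pool.Agent.Lib.MP_17a322_nt.RO
open Pool.Agent.Lib.MP_17a322_nt.VJ

/-- The variables `x_t`, `S_p`, `ξ_p`. -/
abbrev VL (m n : ℕ) := Fin n ⊕ ((Fin m × Fin n) ⊕ (Fin m × Fin n))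

/-- The variable `x_t`. -/
abbrev vX {m n : ℕ} (t : Fin n) : VL m n := Sum.inl t

/-- The variable `S_p`. -/
abbrev vS {m n : ℕ} (p : Fin m × Fin n) : VL m n := Sum.inr (Sum.inl p)

/-- The variable `ξ_p`. -/
abbrev vZ {m n : ℕ} (p : Fin m × Fin n) : VL m n := Sum.inr (Sum.inr p)

/-- The relation `α_p` between `x_t`, `S_p` and `ξ_p`: `ξ` is the x-coordinate of `P - 2 ^ j Q` (or of
`P + 2 ^ j Q`), where `x` is that of `Q` and `S` is the chart coordinate of `P`. -/
noncomputable def al {K : Type*} [Field K] {m n : ℕ} (W : Fin n → WeierstrassCurve K)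
    (χ : Fin n → Bool) (j : Fin m → ℕ) (p : Fin m × Fin n) : MvPolynomial (VL m n) K :=
  S3 (W p.2) (mu (W p.2) (j p.1) ![X (vX p.2), 1]) (vc (χ p.2) (X (vS p))) ![X (vZ p), 1]

/-- The polynomial `g i` in the variables `S_{it}`. -/
noncomputable def gS {K : Type*} [CommRing K] {m n : ℕ} (g : Fin m → MvPolynomial (Fin n) K)
    (i : Fin m) : MvPolynomial (VL m n) K :=
  rename (fun t => vS (i, t)) (g i)

/-- The point with `x`, `S` given and the variables `ξ_p` free. -/
noncomputable def pS {A : Type*} [CommRing A] {m n : ℕ} (x : Fin n → A) (S : Fin m × Fin n → A) :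
    VL m n → MvPolynomial (Fin m × Fin n) A :=
  Sum.elim (fun t => C (x t)) (Sum.elim (fun p => C (S p)) X)

/-- The substitution of the series `ξ (i, d)` and of the constant terms of the series `ξ (i, t)`,
`t ≠ d`, for the variables of the block `i`. -/
noncomputable def sb {A : Type*} [CommRing A] {m n : ℕ} (ξ : Fin m × Fin n → PowerSeries A)
    (i : Fin m) (d : Fin n) :
    MvPolynomial (Fin m × Fin n) A →+* PowerSeries (MvPolynomial (Fin m × Fin n) A) :=
  eval₂Hom ((PowerSeries.C (R := MvPolynomial (Fin m × Fin n) A)).comp C) fun p =>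
    if p.1 = i then
      (if p.2 = d then PowerSeries.map C (ξ p)
        else PowerSeries.C (C (PowerSeries.constantCoeff (ξ p))))
    else PowerSeries.C (X p)

/-- The size of a power series over a ring with a seminorm `ν`, up to degree `n`, on the disc of
radius `r`. -/
noncomputable def PA {L : Type*} [Field L] (v : AbsoluteValue L ℝ) {A : Type*} [CommRing A]
    (ν : A → ℝ) (r : ℝ) (n : ℕ) (f : PowerSeries A) : ℝ :=
  open Classical in
  if IsNonarchimedean v then ⨆ k : Fin (n + 1), ν (PowerSeries.coeff (k : ℕ) f) * r ^ (k : ℕ)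
  else ∑ k : Fin (n + 1), ν (PowerSeries.coeff (k : ℕ) f) * r ^ (k : ℕ)

end Pool.Agent.Lib.MP_17a322_nt.VN
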