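import Pool.Agent.Lib.MP_17a322_nt.VN.C03
import Pool.Agent.Lib.MP_17a322_nt.VN.C05
import Pool.Agent.Lib.MP_17a322_nt.VN.C07

/-!
# JOB C09: the linear equations give the vanishing conditions

PROOF. Fix `c`, `ε`, `l`, `β` with `β 0 + β 1 < 4 ^ (J - j i)`; put `b = N * 4 ^ (J - j i)`, `P μ = GG (ρ i) (UU W χ (j i) b c ε μ) l`, `Q a μ = (∏ t, X (inl t) ^ a t) * P μ`.
Choose `D : ℕ` with `degreeOf (inl t) (Q a μ) ≤ D` for all `t`, all `a`, `μ` in the (finite) boxes (e.g. a sum over all of them, or `3 * (N * 4 ^ J)` by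
`GG_degree_inl`, `UU_degree`).
The sum is (exchange the sums, `map_sum`, `map_mul`)
`∑ p ∈ s, g p * algebraMap L A (∑ μ ∈ box, ∑ a ∈ box, (∏ t, x0 t ^ a t) * algebraMap K L (F a (update (ν' p) i μ)) * coeff β (spx x0 (P μ)))`.
By `spx_mul`, `coeff_C_mul` and `spx_coeff`: `(∏ t, x0 t ^ a t) * coeff β (spx x0 (P μ)) = ∑ q ∈ box (D + 1), (∏ t, x0 t ^ q t) * algebraMap K L (MC (ρ i) W χ (j i) b c ε l q β a μ)`
(`MC` unfolds to `coeff (sf q β) (Q a μ)`; `β` as a function). So the argument of `algebraMap L A` is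
`∑ q, (∏ t, x0 t ^ q t) * algebraMap K L (∑ a, ∑ μ, F a (update (ν' p) i μ) * MC ..) = 0` by `hF i c ε l q β (ν' p)`.
-/

namespace Pool.Agent.Lib.MP_17a322_nt.VN

open MvPolynomial Height
open Pool.Agent.Lib.MP_17a322_nt.RO Pool.Agent.Lib.MP_17a322_nt.VJ

theorem ORD_of_CC {K L : Type*} [Field K] [Field L] [Algebra K L] {A : Type*} [CommRing A]
    [Algebra L A] {k e m : ℕ} (ρ : Fin m → REP K (k + 2) e)
    (W : Fin (k + 2) → WeierstrassCurve K) (χ : Fin (k + 2) → Bool) (N J : ℕ) (j : Fin m → ℕ)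
    (F : (Fin (k + 2) → ℕ) → (Fin m → Fin (k + 2) → ℕ) → K) (hF : CC ρ W χ N J j F)
    (x0 : Fin (k + 2) → L) (i : Fin m) {ι : Type*} (s : Finset ι) (g : ι → A)
    (ν' : ι → Fin m → Fin (k + 2) → ℕ) :
    ORD (ρ i) W χ (j i) (N * 4 ^ (J - j i)) (4 ^ (J - j i))
      (fun μ => ∑ p ∈ s, g p * algebraMap L A (∑ a ∈ box (fun _ : Fin (k + 2) => N * 4 ^ J + 1),
        (∏ t, x0 t ^ a t) * algebraMap K L (F a (Function.update (ν' p) i μ)))) x0 := by
  classical
  intro c ε l β hβ
  set b : ℕ := N * 4 ^ (J - j i) with hb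
  set P : (Fin (k + 2) → ℕ) → MvPolynomial (Fin (k + 2) ⊕ Fin (k + 2)) K :=
    fun μ => GG (ρ i) (UU W χ (j i) b c ε μ) l with hP
  set Q : (Fin (k + 2) → ℕ) → (Fin (k + 2) → ℕ) →
      MvPolynomial (Fin (k + 2) ⊕ Fin (k + 2)) K :=
    fun a μ => (∏ t, X (Sum.inl t) ^ a t) * P μ with hQ
  set D : ℕ := ∑ a ∈ box (fun _ : Fin (k + 2) => N * 4 ^ J + 1),
    ∑ μ ∈ box (fun _ : Fin (k + 2) => b + 1), ∑ t, degreeOf (Sum.inl t) (Q a μ) with hDdef
  have hD : ∀ a ∈ box (fun _ : Fin (k + 2) => N * 4 ^ J + 1),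
      ∀ μ ∈ box (fun _ : Fin (k + 2) => b + 1), ∀ t, degreeOf (Sum.inl t) (Q a μ) ≤ D := by
    intro a ha μ hμ t
    calc degreeOf (Sum.inl t) (Q a μ) ≤ ∑ t, degreeOf (Sum.inl t) (Q a μ) :=
          Finset.single_le_sum (f := fun t => degreeOf (Sum.inl t) (Q a μ))
            (fun _ _ => Nat.zero_le _) (Finset.mem_univ t)
      _ ≤ ∑ μ ∈ box (fun _ : Fin (k + 2) => b + 1), ∑ t, degreeOf (Sum.inl t) (Q a μ) :=
          Finset.single_le_sum (f := fun μ => ∑ t, degreeOf (Sum.inl t) (Q a μ))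
            (fun _ _ => Nat.zero_le _) hμ
      _ ≤ D := Finset.single_le_sum (f := fun a => ∑ μ ∈ box (fun _ : Fin (k + 2) => b + 1),
            ∑ t, degreeOf (Sum.inl t) (Q a μ)) (fun _ _ => Nat.zero_le _) ha
  have key : ∀ ν : Fin m → Fin (k + 2) → ℕ, ∑ μ ∈ box (fun _ : Fin (k + 2) => b + 1),
      (∑ a ∈ box (fun _ : Fin (k + 2) => N * 4 ^ J + 1),
        (∏ t, x0 t ^ a t) * algebraMap K L (F a (Function.update ν i μ))) *
        coeff β (spx x0 (P μ)) = 0 := by
    intro ν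
    have h1 : ∀ μ ∈ box (fun _ : Fin (k + 2) => b + 1),
        (∑ a ∈ box (fun _ : Fin (k + 2) => N * 4 ^ J + 1),
          (∏ t, x0 t ^ a t) * algebraMap K L (F a (Function.update ν i μ))) *
          coeff β (spx x0 (P μ)) =
        ∑ q ∈ box (fun _ : Fin (k + 2) => D + 1), (∏ t, x0 t ^ q t) *
          algebraMap K L (∑ a ∈ box (fun _ : Fin (k + 2) => N * 4 ^ J + 1),
            F a (Function.update ν i μ) * MC (ρ i) W χ (j i) b c ε l q β a μ) := by
      intro μ hμ
      have h2 : ∀ a ∈ box (fun _ : Fin (k + 2) => N * 4 ^ J + 1),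
          (∏ t, x0 t ^ a t) * algebraMap K L (F a (Function.update ν i μ)) *
            coeff β (spx x0 (P μ)) =
          ∑ q ∈ box (fun _ : Fin (k + 2) => D + 1), (∏ t, x0 t ^ q t) *
            algebraMap K L (F a (Function.update ν i μ) *
              MC (ρ i) W χ (j i) b c ε l q β a μ) := by
        intro a ha
        have h3 : coeff β (spx x0 (Q a μ)) = (∏ t, x0 t ^ a t) * coeff β (spx x0 (P μ)) := by
          rw [hQ]
          change coeff β (spx x0 ((∏ t, X (Sum.inl t) ^ a t) * P μ)) = _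
          rw [spx_mul, coeff_C_mul]
        have h4 := spx_coeff x0 (Q a μ) (hD a ha μ hμ) β
        rw [h3] at h4
        calc (∏ t, x0 t ^ a t) * algebraMap K L (F a (Function.update ν i μ)) *
              coeff β (spx x0 (P μ)) = algebraMap K L (F a (Function.update ν i μ)) *
              ((∏ t, x0 t ^ a t) * coeff β (spx x0 (P μ))) := by ring
          _ = _ := by
            rw [h4, Finset.mul_sum]
            refine Finset.sum_congr rfl fun q _ => ?_
            have h5 : MC (ρ i) W χ (j i) b c ε l q β a μ = coeff (sf q β) (Q a μ) := rfl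
            rw [map_mul, h5]
            ring
      rw [Finset.sum_mul, Finset.sum_congr rfl h2, Finset.sum_comm]
      refine Finset.sum_congr rfl fun q _ => ?_
      rw [map_sum, Finset.mul_sum]
    rw [Finset.sum_congr rfl h1, Finset.sum_comm]
    refine Finset.sum_eq_zero fun q _ => ?_
    rw [← Finset.mul_sum, ← map_sum, Finset.sum_comm, hF i c ε l q β ν hβ, map_zero, mul_zero]
  calc ∑ μ ∈ box (fun _ : Fin (k + 2) => b + 1),
        (∑ p ∈ s, g p * algebraMap L A (∑ a ∈ box (fun _ : Fin (k + 2) => N * 4 ^ J + 1),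
          (∏ t, x0 t ^ a t) * algebraMap K L (F a (Function.update (ν' p) i μ)))) *
          algebraMap L A (coeff β (spx x0 (P μ))) =
      ∑ p ∈ s, g p * algebraMap L A (∑ μ ∈ box (fun _ : Fin (k + 2) => b + 1),
        (∑ a ∈ box (fun _ : Fin (k + 2) => N * 4 ^ J + 1),
          (∏ t, x0 t ^ a t) * algebraMap K L (F a (Function.update (ν' p) i μ))) *
          coeff β (spx x0 (P μ))) := by
        have h6 : ∀ μ ∈ box (fun _ : Fin (k + 2) => b + 1),
            (∑ p ∈ s, g p * algebraMap L A (∑ a ∈ box (fun _ : Fin (k + 2) => N * 4 ^ J + 1),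
              (∏ t, x0 t ^ a t) * algebraMap K L (F a (Function.update (ν' p) i μ)))) *
              algebraMap L A (coeff β (spx x0 (P μ))) =
            ∑ p ∈ s, g p * algebraMap L A ((∑ a ∈ box (fun _ : Fin (k + 2) => N * 4 ^ J + 1),
              (∏ t, x0 t ^ a t) * algebraMap K L (F a (Function.update (ν' p) i μ))) *
              coeff β (spx x0 (P μ))) := by
          intro μ _
          rw [Finset.sum_mul]
          refine Finset.sum_congr rfl fun p _ => ?_
          rw [map_mul, mul_assoc]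
        rw [Finset.sum_congr rfl h6, Finset.sum_comm]
        refine Finset.sum_congr rfl fun p _ => ?_
        rw [map_sum, Finset.mul_sum]
    _ = 0 := Finset.sum_eq_zero fun p _ => by rw [key, map_zero, mul_zero]

end Pool.Agent.Lib.MP_17a322_nt.VN
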