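import Pool.Agent.Lib.MP_17a322_nt.VN.L0b
import Pool.Agent.Lib.MP_17a322_nt.VJ.E7
import Pool.Agent.Lib.MP_17a322_nt.VJ.E6

/-!
# JOB L1o: heights of the points over `L`, sums of local constants

PROOFS.
`root_height`: `logHeight₁ x = 0` for a root of unity `x`: `v x = 1` for all absolute values (`v x ^ N = 1`), so every term of `gs_log_max` (VJ/A4) is `log 1 = 0`; `logHeight z.xRep = logHeight₁ (z.xRep 0)`
(`logHeight_xRep`, VJ/E6; there may already be such a lemma in VJ/G7 or G8).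
`heights_L`: constant `C₀` of `height_unif` (VJ/E6); `d = finrank K L`, `finrank ℚ L = d * finrank ℚ K`. `hf.logHeight` (VJ/E7): `logHeight (f P).xRep = d * logHeight P.xRep`.
(1) `logHeight (f P₀ + z).xRep ≤ 2 d logHeight P₀.xRep + 0 + C₀ * finrank ℚ L`. (2) `f P - 2 ^ j • (f P₀ + z) = f (P - 2 ^ j • P₀) - 2 ^ j • z` (`map_sub`, `map_nsmul`, `smul_add`; the point `A - B = A + -B`,
`xRep_neg`): `≤ 2 d logHeight (P - 2 ^ j • P₀).xRep + 2 logHeight (2 ^ j • z).xRep + C₀ finrank ℚ L` and `logHeight (2 ^ j • z).xRep ≤ 4 ^ j (C₀ finrank ℚ L)`. So `C = 3 C₀ * finrank ℚ K` (`4 ^ j ≥ 1`).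
`FS_log_kc`, `gs_log_kc_le`: `log kc = log lc + log (max 1 (v 2⁻¹))`; `FS_log_lc`, `gs_log_lc_le` (VJ/E1), `FS_log_max`, `gs_log_max` (VJ/A4), `logHeight₁_algebraMap` (VJ/A7) for `2⁻¹`.
`one_le_kc`, `lc_le_kc`, `cst_two_le_kc`: `one_le_lc`, `cst_two_le_lc`.
-/

universe u

namespace Pool.Agent.Lib.MP_17a322_nt.VN

open MvPolynomial Height
open Pool.Agent.Lib.MP_17a322_nt.RO
open Pool.Agent.Lib.MP_17a322_nt.VJ

theorem one_le_kc {K : Type*} [Field K] (W : WeierstrassCurve K) {L : Type*} [Field L]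
    [Algebra K L] (v : AbsoluteValue L ℝ) : 1 ≤ kc W v := by
  exact one_le_mul_of_one_le_of_one_le (one_le_lc W v) (le_max_left _ _)

theorem lc_le_kc {K : Type*} [Field K] (W : WeierstrassCurve K) {L : Type*} [Field L]
    [Algebra K L] (v : AbsoluteValue L ℝ) : lc W v ≤ kc W v := by
  exact le_mul_of_one_le_right (zero_le_one.trans (one_le_lc W v)) (le_max_left _ _)

theorem cst_two_le_kc {K : Type*} [Field K] (W : WeierstrassCurve K) {L : Type*} [Field L]
    [Algebra K L] (v : AbsoluteValue L ℝ) : cst v 2 ≤ kc W v := by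
  exact (cst_two_le_lc W v).trans (lc_le_kc W v)

private theorem L1o_log {K : Type*} [Field K] (W : WeierstrassCurve K) {L : Type*} [Field L]
    [Algebra K L] (v : AbsoluteValue L ℝ) :
    Real.log (kc W v) = Real.log (lc W v) + Real.log (max 1 (v (2 : L)⁻¹)) := by
  unfold kc
  exact Real.log_mul (zero_lt_one.trans_le (one_le_lc W v)).ne'
    (zero_lt_one.trans_le (le_max_left _ _)).ne'

theorem FS_log_kc {K L : Type u} [Field K] [NumberField K] [Field L] [NumberField L]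
    [Algebra K L] (W : WeierstrassCurve K) :
    FS (fun v : AbsoluteValue L ℝ => Real.log (kc W v)) := by
  have h1 : (fun v : AbsoluteValue L ℝ => Real.log (kc W v)) =
      fun v => Real.log (lc W v) + Real.log (max 1 (v (2 : L)⁻¹)) := by
    funext v
    exact L1o_log W v
  rw [h1]
  exact FS_add (FS_log_lc W) (FS_log_max _)

theorem gs_log_kc_le {K : Type u} [Field K] [NumberField K] (W : WeierstrassCurve K) :
    ∃ C : ℝ, 0 ≤ C ∧ ∀ (L : Type u) [Field L] [NumberField L] [Algebra K L],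
      gs (fun v : AbsoluteValue L ℝ => Real.log (kc W v)) ≤ C * Module.finrank K L := by
  obtain ⟨C, hC, h⟩ := gs_log_lc_le (K := K) W
  have h2 : 0 ≤ logHeight₁ ((2 : K)⁻¹) := zero_le_logHeight₁ _
  refine ⟨C * Module.finrank ℚ K + logHeight₁ ((2 : K)⁻¹),
    add_nonneg (mul_nonneg hC (Nat.cast_nonneg _)) h2, fun L _ _ _ => ?_⟩
  have h1 : (fun v : AbsoluteValue L ℝ => Real.log (kc W v)) =
      fun v => Real.log (lc W v) + Real.log (max 1 (v (2 : L)⁻¹)) := by
    funext v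
    exact L1o_log W v
  rw [h1, gs_add (FS_log_lc W) (FS_log_max _), gs_log_max]
  have h3 : logHeight₁ ((2 : L)⁻¹) = Module.finrank K L * logHeight₁ ((2 : K)⁻¹) := by
    rw [← logHeight₁_algebraMap, map_inv₀, map_ofNat]
  have h4 := h L
  have h5 : (Module.finrank ℚ L : ℝ) = Module.finrank ℚ K * Module.finrank K L := by
    rw [← Nat.cast_mul, Module.finrank_mul_finrank ℚ K L]
  rw [h5] at h4
  rw [h3]
  linarith [h4, mul_assoc C (Module.finrank ℚ K : ℝ) (Module.finrank K L),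
    add_mul (C * Module.finrank ℚ K) (logHeight₁ ((2 : K)⁻¹)) (Module.finrank K L : ℝ),
    mul_comm (logHeight₁ ((2 : K)⁻¹)) (Module.finrank K L : ℝ)]

theorem root_height {L : Type*} [Field L] [AdmissibleAbsValues L] {V : WeierstrassCurve L}
    {z : V.toAffine.Point} (hz : z ≠ 0) (h : ∃ N, 0 < N ∧ z.xRep 0 ^ N = 1) :
    logHeight z.xRep = 0 := by
  obtain ⟨N, hN, hz1⟩ := h
  rw [logHeight_xRep hz, ← gs_log_max]
  have h1 : (fun v : AbsoluteValue L ℝ => Real.log (max 1 (v (z.xRep 0)))) = fun _ => 0 := by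
    funext v
    have h2 : v (z.xRep 0) ^ N = 1 := by rw [← map_pow, hz1, map_one]
    have h3 : v (z.xRep 0) = 1 := (pow_eq_one_iff_of_nonneg (v.nonneg _) hN.ne').1 h2
    rw [h3, max_self, Real.log_one]
  rw [h1]
  simp [gs]

theorem heights_L {K : Type u} [Field K] [NumberField K] [DecidableEq K]
    (W : WeierstrassCurve K) [W.IsElliptic] :
    ∃ C : ℝ, 0 ≤ C ∧ ∀ (L : Type u) [Field L] [NumberField L] [DecidableEq L] [Algebra K L]
      (V : WeierstrassCurve L) (f : W.toAffine.Point →+ V.toAffine.Point)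
      (z : V.toAffine.Point), W.map (algebraMap K L) = V → PB W V f → z ≠ 0 →
      (∃ N, 0 < N ∧ z.xRep 0 ^ N = 1) → ∀ P₀ : W.toAffine.Point,
        logHeight (f P₀ + z).xRep ≤ Module.finrank K L * (2 * logHeight P₀.xRep + C) ∧
        ∀ (P : W.toAffine.Point) (j : ℕ), logHeight (f P - 2 ^ j • (f P₀ + z)).xRep ≤
          Module.finrank K L * (2 * logHeight (P - 2 ^ j • P₀).xRep + C * 4 ^ j) := by
  obtain ⟨C₀, hC₀, hu⟩ := height_unif W
  refine ⟨3 * C₀ * Module.finrank ℚ K, by positivity, ?_⟩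
  intro L _ _ _ _ V f z hV hf hz hroot P₀
  obtain ⟨-, h2, h3, -⟩ := hu L V hV
  have hz0 := root_height hz hroot
  have h5 : (Module.finrank ℚ L : ℝ) = Module.finrank ℚ K * Module.finrank K L := by
    rw [← Nat.cast_mul, Module.finrank_mul_finrank ℚ K L]
  have hE : 0 ≤ C₀ * (Module.finrank ℚ L : ℝ) := mul_nonneg hC₀ (Nat.cast_nonneg _)
  have hE' : (Module.finrank K L : ℝ) * (3 * C₀ * Module.finrank ℚ K) =
      3 * (C₀ * (Module.finrank ℚ L : ℝ)) := by
    rw [h5]
    ring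
  refine ⟨?_, fun P j => ?_⟩
  · have h6 := h2 (f P₀) z
    rw [hf.logHeight, hz0] at h6
    rw [mul_add, hE']
    linarith
  · have h7 : f P - 2 ^ j • (f P₀ + z) = f (P - 2 ^ j • P₀) + -(2 ^ j • z) := by
      rw [map_sub, map_nsmul, smul_add]
      abel
    have h8 := h2 (f (P - 2 ^ j • P₀)) (-(2 ^ j • z))
    rw [← h7, xRep_neg, hf.logHeight] at h8
    have h9 := (abs_le.1 (h3 z j)).2
    rw [hz0, mul_zero, sub_zero] at h9
    have h10 : (1 : ℝ) ≤ 4 ^ j := one_le_pow₀ (by norm_num)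
    have h11 : C₀ * (Module.finrank ℚ L : ℝ) ≤ 4 ^ j * (C₀ * (Module.finrank ℚ L : ℝ)) :=
      le_mul_of_one_le_left hE h10
    have h12 : (Module.finrank K L : ℝ) * (2 * logHeight (P - 2 ^ j • P₀).xRep +
        3 * C₀ * Module.finrank ℚ K * 4 ^ j) =
        2 * ((Module.finrank K L : ℝ) * logHeight (P - 2 ^ j • P₀).xRep) +
          3 * (4 ^ j * (C₀ * (Module.finrank ℚ L : ℝ))) := by
      rw [h5]
      ring
    rw [h12]
    linarith

end Pool.Agent.Lib.MP_17a322_nt.VN
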