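import Pool.Agent.Lib.MP_17a322_nt.Mb

/-!
# Z2: two relatively prime combinations
-/

namespace Pool.Agent.Lib.MP_17a322_nt.VN

/-- Prime avoidance: a finite family without common prime factor in a factorial algebra over an
infinite field, `r β₀ ≠ 0`: a linear combination is relatively prime to `r β₀`. -/
theorem exists_isRelPrime {k R κ : Type*} [Field k] [Infinite k] [CommRing R] [IsDomain R]
    [UniqueFactorizationMonoid R] [Algebra k R] [Fintype κ] (r : κ → R)
    (h : ∀ π : R, Irreducible π → ∃ β, ¬ π ∣ r β) (β₀ : κ) (h0 : r β₀ ≠ 0) :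
    ∃ b : κ → k, IsRelPrime (r β₀) (∑ β, b β • r β) := by
  classical
  -- the subspace of the combinations divisible by `π`
  let V : R → Subspace k (κ → k) := fun π =>
    { carrier := {b | π ∣ ∑ β, b β • r β}
      add_mem' := by
        intro a b ha hb
        have h1 : ∑ β, (a + b) β • r β = (∑ β, a β • r β) + ∑ β, b β • r β := by
          rw [← Finset.sum_add_distrib]
          refine Finset.sum_congr rfl fun β _ => ?_
          rw [Pi.add_apply, add_smul]
        change π ∣ ∑ β, (a + b) β • r β
        rw [h1]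
        exact dvd_add ha hb
      zero_mem' := by
        change π ∣ ∑ β, (0 : κ → k) β • r β
        simp
      smul_mem' := by
        intro c a ha
        have h1 : ∑ β, (c • a) β • r β = algebraMap k R c * ∑ β, a β • r β := by
          rw [Finset.mul_sum]
          refine Finset.sum_congr rfl fun β _ => ?_
          rw [Pi.smul_apply, smul_eq_mul, mul_smul, Algebra.smul_def c]
        change π ∣ ∑ β, (c • a) β • r β
        rw [h1]
        exact Dvd.dvd.mul_left ha _ }
  let s : Finset (Subspace k (κ → k)) :=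
    ((UniqueFactorizationMonoid.factors (r β₀)).toFinset).image V
  have hs : (⊤ : Subspace k (κ → k)) ∉ s := by
    intro ht
    obtain ⟨π, hπ, hV⟩ := Finset.mem_image.1 ht
    rw [Multiset.mem_toFinset] at hπ
    obtain ⟨β, hβ⟩ := h π (UniqueFactorizationMonoid.irreducible_of_factor π hπ)
    apply hβ
    have h1 : (Pi.single β 1 : κ → k) ∈ V π := by
      rw [hV]
      exact Submodule.mem_top
    have h2 : π ∣ ∑ β', (Pi.single β 1 : κ → k) β' • r β' := h1
    rwa [Finset.sum_eq_single β (fun β' _ hne => by rw [Pi.single_eq_of_ne hne, zero_smul])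
      (fun hne => absurd (Finset.mem_univ β) hne), Pi.single_eq_same, one_smul] at h2
  have h1 := Subspace.biUnion_ne_univ_of_top_notMem hs
  obtain ⟨b, hb⟩ := (Set.ne_univ_iff_exists_notMem _).1 h1
  refine ⟨b, ?_⟩
  refine WfDvdMonoid.isRelPrime_of_no_irreducible_factors (fun hc => h0 hc.1) ?_
  intro z hz hz1 hz2
  obtain ⟨π, hπ, hzπ⟩ := UniqueFactorizationMonoid.exists_mem_factors_of_dvd h0 hz hz1
  apply hb
  rw [Set.mem_iUnion₂]
  refine ⟨V π, Finset.mem_image.2 ⟨π, Multiset.mem_toFinset.2 hπ, rfl⟩, ?_⟩
  change π ∣ ∑ β, b β • r β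
  exact hzπ.symm.dvd.trans hz2

end Pool.Agent.Lib.MP_17a322_nt.VN
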