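import Pool.Agent.Lib.MP_17a322_nt.VN.Z1
import Pool.Agent.Lib.MP_17a322_nt.VN.Z2

/-!
# Z3: the polynomials in a chart have no common irreducible factor
-/

universe u

namespace Pool.Agent.Lib.MP_17a322_nt.VN

open MvPolynomial Height
open Pool.Agent.Lib.MP_17a322_nt.RO Pool.Agent.Lib.MP_17a322_nt.VJ

/-- A generic zero of an irreducible polynomial. -/
theorem exists_generic_zero {K : Type u} [Field K] {n : ℕ} (π : MvPolynomial (Fin n) K)
    (hπ : Irreducible π) :
    ∃ (F : Type u) (_ : Field F) (_ : Algebra K F) (ζ : Fin n → F) (i : Fin n),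
      aeval ζ π = 0 ∧ AlgebraicIndependent K (fun t : {t : Fin n // t ≠ i} => ζ t) := by
  classical
  have hdeg : ∃ i, π.degreeOf i ≠ 0 := by
    by_contra hc
    push Not at hc
    have h1 : π = C (coeff 0 π) := by
      rw [← totalDegree_eq_zero_iff_eq_C, totalDegree_eq_zero_iff]
      intro m hm i
      exact Nat.le_zero.1 ((monomial_le_degreeOf i hm).trans (hc i).le)
    apply hπ.not_isUnit
    have h0 : coeff 0 π ≠ 0 := by
      intro h0
      rw [h0, C_0] at h1
      exact hπ.ne_zero h1
    rw [h1]
    exact (isUnit_iff_ne_zero.2 h0).map C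
  obtain ⟨i, hi⟩ := hdeg
  have hprime : (Ideal.span {π}).IsPrime :=
    (Ideal.span_singleton_prime hπ.ne_zero).2 (UniqueFactorizationMonoid.irreducible_iff_prime.1 hπ)
  let A := MvPolynomial (Fin n) K ⧸ Ideal.span {π}
  have hinj : Function.Injective (algebraMap A (FractionRing A)) := IsFractionRing.injective _ _
  refine ⟨FractionRing A, inferInstance, inferInstance,
    fun t => algebraMap A (FractionRing A) (Ideal.Quotient.mk _ (X t)), i, ?_, ?_⟩
  · have h1 : ∀ p : MvPolynomial (Fin n) K,
        aeval (fun t => algebraMap A (FractionRing A) (Ideal.Quotient.mk _ (X t))) p =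
          algebraMap A (FractionRing A) (Ideal.Quotient.mk _ p) := by
      intro p
      have h2 : (aeval (fun t => algebraMap A (FractionRing A) (Ideal.Quotient.mk _ (X t))) :
          MvPolynomial (Fin n) K →ₐ[K] FractionRing A) =
          (IsScalarTower.toAlgHom K A (FractionRing A)).comp
            (Ideal.Quotient.mkₐ K (Ideal.span {π})) := by
        refine MvPolynomial.algHom_ext fun t => ?_
        rw [aeval_X]
        rfl
      rw [h2]
      rfl
    rw [h1, Ideal.Quotient.eq_zero_iff_mem.2 (Ideal.mem_span_singleton_self π), map_zero]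
  · rw [algebraicIndependent_iff]
    intro q hq
    have h1 : aeval (fun t : {t : Fin n // t ≠ i} =>
        algebraMap A (FractionRing A) (Ideal.Quotient.mk _ (X (t : Fin n)))) q =
          algebraMap A (FractionRing A) (Ideal.Quotient.mk _ (rename Subtype.val q)) := by
      have h2 : (aeval (fun t : {t : Fin n // t ≠ i} =>
          algebraMap A (FractionRing A) (Ideal.Quotient.mk _ (X (t : Fin n)))) :
          MvPolynomial {t : Fin n // t ≠ i} K →ₐ[K] FractionRing A) =
          ((IsScalarTower.toAlgHom K A (FractionRing A)).comp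
            (Ideal.Quotient.mkₐ K (Ideal.span {π}))).comp (rename Subtype.val) := by
        refine MvPolynomial.algHom_ext fun t => ?_
        rw [aeval_X]
        simp only [AlgHom.comp_apply, rename_X]
        rfl
      rw [h2]
      rfl
    rw [h1, map_eq_zero_iff _ hinj, Ideal.Quotient.eq_zero_iff_mem,
      Ideal.mem_span_singleton] at hq
    obtain ⟨r, hr⟩ := hq
    by_contra hq0
    have h3 : rename (Subtype.val : {t : Fin n // t ≠ i} → Fin n) q ≠ 0 := by
      intro h4
      exact hq0 (rename_injective _ Subtype.val_injective (by rw [h4, map_zero]))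
    have h4 : r ≠ 0 := by
      rintro rfl
      rw [mul_zero] at hr
      exact h3 hr
    have h5 : (rename (Subtype.val : {t : Fin n // t ≠ i} → Fin n) q).degreeOf i = 0 := by
      refine Nat.le_zero.1 (degreeOf_le_iff.2 fun m hm => ?_)
      by_contra hmi
      have h6 : i ∈ (rename (Subtype.val : {t : Fin n // t ≠ i} → Fin n) q).vars :=
        (mem_vars_iff_mem_support i).2 ⟨m, hm, Finsupp.mem_support_iff.2 (by omega)⟩
      obtain ⟨t, _, ht⟩ := Finset.mem_image.1 (vars_rename _ q h6)
      exact t.2 ht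
    rw [hr, degreeOf_mul_eq hπ.ne_zero h4] at h5
    omega

/-- The hypothesis on the centre excludes common irreducible factors in every chart. -/
theorem chart_no_common_factor {K : Type u} [Field K] {n m : ℕ}
    (g : Fin m → MvPolynomial (Fin n) K) (d : Fin n → ℕ)
    (hY : ∀ (F : Type u) [Field F] [Algebra K F] (X Z : Fin n → F),
      (∀ i, X i ≠ 0 ∨ Z i ≠ 0) →
      (∀ k, ∑ e ∈ (g k).support, algebraMap K F ((g k).coeff e) *
        ∏ i, (X i ^ e i * Z i ^ (d i - e i)) = 0) →
        Algebra.trdeg K (IntermediateField.adjoin K (Set.range fun i => X i / Z i)) + 1 < n)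
    (χ : Fin n → Bool) (π : MvPolynomial (Fin n) K) (hπ : Irreducible π) :
    ∃ k, ¬ π ∣ chp χ d (g k) := by
  classical
  by_contra hc
  push Not at hc
  obtain ⟨F, _, _, ζ, i, hζ, hind⟩ := exists_generic_zero π hπ
  have h1 := hY F (fun i => vc (χ i) (ζ i) 0) (fun i => vc (χ i) (ζ i) 1)
    (fun i => vc_ne_zero _ _) (fun k => by
      obtain ⟨r, hr⟩ := hc k
      rw [← aeval_chp, hr, map_mul, hζ, zero_mul])
  set E := IntermediateField.adjoin K
    (Set.range fun i => vc (χ i) (ζ i) 0 / vc (χ i) (ζ i) 1) with hE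
  have h2 : ∀ t, ζ t ∈ E := by
    intro t
    have h3 : vc (χ t) (ζ t) 0 / vc (χ t) (ζ t) 1 ∈ E :=
      IntermediateField.subset_adjoin K _ ⟨t, rfl⟩
    unfold vc at h3
    cases hχ : χ t
    · rw [hχ] at h3
      simpa using h3
    · rw [hχ] at h3
      simp only [if_true, Matrix.cons_val_zero, Matrix.cons_val_one, one_div] at h3
      have h4 := E.inv_mem h3
      rwa [inv_inv] at h4
  have h3 : AlgebraicIndependent K (fun t : {t : Fin n // t ≠ i} => (⟨ζ t, h2 t⟩ : E)) := by
    exact AlgebraicIndependent.of_comp E.val hind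
  have h4 := h3.lift_cardinalMk_le_trdeg
  have h5 : Cardinal.mk {t : Fin n // t ≠ i} = ((n - 1 : ℕ) : Cardinal) := by
    rw [Cardinal.mk_fintype, Fintype.card_subtype_compl, Fintype.card_fin,
      Fintype.card_subtype_eq]
  rw [h5, Cardinal.lift_natCast, Cardinal.lift_uzero] at h4
  have h6 : ((n - 1 : ℕ) : Cardinal.{u}) + 1 < n := (add_le_add_left h4 1).trans_lt h1
  have hn : 0 < n := i.pos
  have h7 : ((n - 1 : ℕ) : Cardinal.{u}) + 1 = n := by
    have h8 : (n - 1) + 1 = n := by omega
    exact_mod_cast h8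
  rw [h7] at h6
  exact lt_irrefl _ h6

end Pool.Agent.Lib.MP_17a322_nt.VN
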