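import Pool.Agent.Lib.MP_17a322_nt.VN.L0b
import Pool.Agent.Lib.MP_17a322_nt.VJ.E5

/-!
# JOB L1i: columns at points, lower bound for `mu`

PROOFS.
`le_mu`: induction on `j`. `SV_self` (VJ/E3): `SV W R R = ![dup W R 0, dup W R 1, 0]`, so `le_SV` (VJ/E5) with
`B = vn v (dup W R)` gives `(vn v R * vn v R) ^ 2 ≤ lc ^ 8 * vn v (dup W R)`. `mu_succ`: `mu (j + 1) R = dup (mu j R)`:
`vn R ^ (4 ^ (j + 1)) = (vn R ^ (4 ^ j)) ^ 4 ≤ (lc ^ (3 * 4 ^ j - 3)..)`: prove the sharper `vn v R ^ (4 ^ j) ≤ lc ^ (8 * (4 ^ j - 1)) * vn v (mu W j R)`: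
`≤ (lc ^ (8 * (4 ^ j - 1))) ^ 4 * lc ^ 8 * vn (mu (j + 1) R)` has exponent `32 * (4 ^ j - 1) + 8 = 8 * (4 ^ (j + 1) - 1) - 16 ≤ 8 * (4 ^ (j + 1) - 1)`.
`col_points`: `Q ≠ 0` because `2 ^ (j + 1) • Q ≠ 0`; `Q.xRep = ![Q.xRep 0, 1]` (`xRep_eq`). Let `A = 2 ^ j • Q`. `mu_xRep` (VJ/E4):
`mu W j Q.xRep = g₁ • A.xRep`, `g₁ ≠ 0`. `hch`: `P.xRep = c • vc χ σ`, `c ≠ 0`, so `vc χ σ = c⁻¹ • P.xRep`. `SV_xRep` (VJ/E4) for `A`, `P`:
`SV W A.xRep P.xRep i = g₂ * sq2 (A + P).xRep (A - P).xRep i`; `(A - P).xRep = (P - A).xRep` (`xRep_neg`) `= ![q, 1]`. By `SV_smul`: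
`SV W M (vc χ σ) i = g * sq2 p ![q, 1] i`, `M = mu W j ![Q.xRep 0, 1]`, `p = (A + P).xRep`, `g = (g₁ / c) ^ 2 * g₂ ≠ 0`; `sq2 p p' = ![p 0 * p' 0, p 0 * p' 1 +
p 1 * p' 0, p 1 * p' 1]` (RO/Defs). `SV_disc` (VJ/E3): `ph W M * ph W (vc χ σ) = S₁ ^ 2 - 4 S₀ S₂ = (g * (p 1 * q - p 0)) ^ 2`. `ph W M = g₁ ^ 4 * ph W A.xRep`
(`ph_smul`) is a square `y₀ ^ 2` (`ph_xRep_isSquare`) and `≠ 0` (`ph_xRep_ne_zero`, `2 • A = 2 ^ (j + 1) • Q ≠ 0`). So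
`(y₀ * β) ^ 2 = (g * (p 1 * q - p 0)) ^ 2` and for `yM = y₀` or `yM = -y₀`: `yM * β = g * (p 1 * q - p 0)` (nonzero). Then
`S₁ + yM β = 2 g p₁ q`, `2 S₂ = 2 g p₁`, `2 S₀ = 2 g p₀ q`, `S₁ - yM β = 2 g p₀`: `lam true = 2 g p₁`, `lam false = 2 g p₀`.
`M ≠ 0`: `g₁ ≠ 0`, `xRep_ne_zero`. Lower bound: `le_SV` for `R = M`, `Q = vc χ σ`, `B = cst v 2 * (|g| vn p * max 1 |q|)` (`v (sq2 p ![q, 1] i) ≤ cst v 2 * (vn p *
vn ![q, 1])`, `sq2_size` in VJ/E2 or directly), `|g| * vn p = |2⁻¹| * max (v (lam true)) (v (lam false))`, and `lc ^ 8 * cst v 2 * |2⁻¹| ≤ kc ^ 10`.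
-/

namespace Pool.Agent.Lib.MP_17a322_nt.VN

open MvPolynomial Height
open Pool.Agent.Lib.MP_17a322_nt.RO
open Pool.Agent.Lib.MP_17a322_nt.VJ

private theorem L1i_dup {K : Type*} [Field K] (W : WeierstrassCurve K) [W.IsElliptic] {L : Type*}
    [Field L] [Algebra K L] (v : AbsoluteValue L ℝ) (R : Fin 2 → L) :
    vn v R ^ 4 ≤ lc W v ^ 8 * vn v (dup W R) := by
  have hB : ∀ i, v (SV W R R i) ≤ vn v (dup W R) := by
    intro i
    rw [SV_self]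
    fin_cases i
    · exact le_vn v (dup W R) 0
    · exact le_vn v (dup W R) 1
    · change v 0 ≤ _
      rw [map_zero]
      exact vn_nonneg v _
  have h := le_SV W v R R hB
  calc vn v R ^ 4 = (vn v R * vn v R) ^ 2 := by ring
    _ ≤ _ := h

private theorem L1i_mu {K : Type*} [Field K] (W : WeierstrassCurve K) [W.IsElliptic] {L : Type*}
    [Field L] [Algebra K L] (v : AbsoluteValue L ℝ) (j : ℕ) (R : Fin 2 → L) :
    vn v R ^ (4 ^ j) ≤ lc W v ^ (8 * (4 ^ j - 1)) * vn v (mu W j R) := by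
  have hl : 1 ≤ lc W v := one_le_lc W v
  have hl0 : 0 ≤ lc W v := le_trans zero_le_one hl
  induction j with
  | zero =>
    rw [mu_zero, pow_zero, pow_one, Nat.sub_self, Nat.mul_zero, pow_zero, one_mul]
  | succ j ih =>
    have h4 : 1 ≤ 4 ^ j := Nat.one_le_pow _ _ (by norm_num)
    have h5 : 8 * (4 ^ j - 1) * 4 + 8 ≤ 8 * (4 ^ (j + 1) - 1) := by
      rw [pow_succ]
      omega
    have hn : 0 ≤ vn v R ^ (4 ^ j) := pow_nonneg (vn_nonneg v R) _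
    calc vn v R ^ (4 ^ (j + 1)) = (vn v R ^ (4 ^ j)) ^ 4 := by rw [← pow_mul, ← pow_succ]
      _ ≤ (lc W v ^ (8 * (4 ^ j - 1)) * vn v (mu W j R)) ^ 4 := pow_le_pow_left₀ hn ih 4
      _ = lc W v ^ (8 * (4 ^ j - 1) * 4) * vn v (mu W j R) ^ 4 := by
        rw [mul_pow, ← pow_mul (lc W v)]
      _ ≤ lc W v ^ (8 * (4 ^ j - 1) * 4) * (lc W v ^ 8 * vn v (dup W (mu W j R))) :=
        mul_le_mul_of_nonneg_left (L1i_dup W v _) (pow_nonneg hl0 _)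
      _ = lc W v ^ (8 * (4 ^ j - 1) * 4 + 8) * vn v (mu W (j + 1) R) := by
        rw [mu_succ, pow_add (lc W v) (8 * (4 ^ j - 1) * 4) 8, mul_assoc (lc W v ^ _)]
      _ ≤ lc W v ^ (8 * (4 ^ (j + 1) - 1)) * vn v (mu W (j + 1) R) :=
        mul_le_mul_of_nonneg_right (lc_pow_mono W v h5) (vn_nonneg v _)

/-- The final inequality. -/
private theorem L1i_low {K : Type*} [Field K] (W : WeierstrassCurve K) [W.IsElliptic] {L : Type*}
    [Field L] [CharZero L] [Algebra K L] (v : AbsoluteValue L ℝ) (M Z p : Fin 2 → L) (g q : L)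
    (hS : ∀ i, SV W M Z i = g * sq2 p ![q, 1] i) :
    (vn v M * vn v Z) ^ 2 ≤ kc W v ^ 10 *
      (max (v (2 * g * p 1)) (v (2 * g * p 0)) * max 1 (v q)) := by
  have hl : 1 ≤ lc W v := one_le_lc W v
  have hc2 : cst v 2 ≤ lc W v := cst_two_le_lc W v
  have hvn : vn v ![q, 1] = max 1 (v q) := by
    have e1 : vn v ![q, 1] = max (v q) (v 1) := rfl
    rw [e1, map_one, max_comm]
  have h20 : (2 : L) ≠ 0 := two_ne_zero
  obtain ⟨t, ht⟩ : ∃ t : ℝ, t = v ((2 : L)⁻¹) := ⟨_, rfl⟩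
  have ht0 : 0 ≤ t := by rw [ht]; exact v.nonneg _
  obtain ⟨m, hm⟩ : ∃ m : ℝ, m = max (v (2 * g * p 1)) (v (2 * g * p 0)) := ⟨_, rfl⟩
  have hm0 : 0 ≤ m := by rw [hm]; exact le_max_of_le_left (v.nonneg _)
  have hg : v g * vn v p = t * m := by
    unfold vn
    rw [hm, ht, mul_max_of_nonneg _ _ (v.nonneg g), mul_max_of_nonneg _ _ (v.nonneg _),
      ← map_mul, ← map_mul, ← map_mul, ← map_mul, max_comm]
    congr 2
    · field_simp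
    · field_simp
  have hB : ∀ i, v (SV W M Z i) ≤ cst v 2 * (t * m * max 1 (v q)) := by
    intro i
    rw [hS i, map_mul]
    have h5 : v (sq2 p ![q, 1] i) ≤ cst v 2 * (vn v p * vn v ![q, 1]) :=
      sq2_size (SN_self v) p ![q, 1] (le_vn v p) (le_vn v ![q, 1]) i
    calc v g * v (sq2 p ![q, 1] i) ≤ v g * (cst v 2 * (vn v p * vn v ![q, 1])) :=
          mul_le_mul_of_nonneg_left h5 (v.nonneg _)
      _ = cst v 2 * ((v g * vn v p) * vn v ![q, 1]) := by ring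
      _ = cst v 2 * (t * m * max 1 (v q)) := by rw [hg, hvn]
  have h6 := le_SV W v M Z hB
  refine h6.trans ?_
  rw [← hm]
  have hx : 0 ≤ m * max 1 (v q) := mul_nonneg hm0 (le_trans zero_le_one (le_max_left _ _))
  have hk1 : lc W v ≤ kc W v := by
    unfold kc
    exact le_mul_of_one_le_right (le_trans zero_le_one hl) (le_max_left _ _)
  have hk2 : t ≤ kc W v := by
    unfold kc
    rw [ht]
    calc v ((2 : L)⁻¹) ≤ max 1 (v ((2 : L)⁻¹)) := le_max_right _ _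
      _ ≤ lc W v * max 1 (v ((2 : L)⁻¹)) :=
        le_mul_of_one_le_left (le_trans zero_le_one (le_max_left _ _)) hl
  have hl0 : 0 ≤ lc W v := le_trans zero_le_one hl
  have hk0 : 0 ≤ kc W v := hl0.trans hk1
  have hc0 : 0 ≤ cst v 2 := cst_nonneg v 2
  have h7 : lc W v ^ 8 * (cst v 2 * t) ≤ kc W v ^ 8 * (kc W v * kc W v) :=
    mul_le_mul (pow_le_pow_left₀ hl0 hk1 8) (mul_le_mul (hc2.trans hk1) hk2 ht0 hk0)
      (mul_nonneg hc0 ht0) (pow_nonneg hk0 8)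
  calc lc W v ^ 8 * (cst v 2 * (t * m * max 1 (v q))) =
        lc W v ^ 8 * (cst v 2 * t) * (m * max 1 (v q)) := by ring
    _ ≤ kc W v ^ 8 * (kc W v * kc W v) * (m * max 1 (v q)) := mul_le_mul_of_nonneg_right h7 hx
    _ = kc W v ^ 10 * (m * max 1 (v q)) := by ring

theorem le_mu {K : Type*} [Field K] (W : WeierstrassCurve K) [W.IsElliptic] {L : Type*}
    [Field L] [Algebra K L] (v : AbsoluteValue L ℝ) (j : ℕ) (R : Fin 2 → L) :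
    vn v R ^ (4 ^ j) ≤ lc W v ^ (8 * 4 ^ j) * vn v (mu W j R) := by
  refine (L1i_mu W v j R).trans (mul_le_mul_of_nonneg_right (lc_pow_mono W v ?_) (vn_nonneg v _))
  exact Nat.mul_le_mul_left 8 (Nat.sub_le _ _)

/-- The columns for a point `P` and the point `2 ^ j Q`. -/
theorem col_points {K : Type*} [Field K] (W : WeierstrassCurve K) [W.IsElliptic] {L : Type*}
    [Field L] [CharZero L] [DecidableEq L] [Algebra K L] (V : WeierstrassCurve L)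
    (hV : W.map (algebraMap K L) = V) (j : ℕ) (Q P : V.toAffine.Point) (χ : Bool) (σ β : L)
    (hch : CH χ P σ) (hβ : β ^ 2 = ph W (vc χ σ)) (hβ0 : β ≠ 0) (h1 : P - 2 ^ j • Q ≠ 0)
    (h2 : 2 ^ (j + 1) • Q ≠ 0) :
    ∃ (yM : L) (lam : Bool → L), yM ^ 2 = ph W (mu W j ![Q.xRep 0, 1]) ∧ yM * β ≠ 0 ∧
      mu W j ![Q.xRep 0, 1] ≠ 0 ∧
      (∀ c, col W (mu W j ![Q.xRep 0, 1]) (vc χ σ) (yM * β) c =
        lam c • ![(P - 2 ^ j • Q).xRep 0, 1]) ∧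
      ∀ v : AbsoluteValue L ℝ, (vn v (mu W j ![Q.xRep 0, 1]) * vn v (vc χ σ)) ^ 2 ≤
        kc W v ^ 10 * (max (v (lam true)) (v (lam false)) *
          max 1 (v ((P - 2 ^ j • Q).xRep 0))) := by
  classical
  have hQ : Q ≠ 0 := by
    rintro rfl
    exact h2 (nsmul_zero _)
  obtain ⟨A, hA⟩ : ∃ A : V.toAffine.Point, A = 2 ^ j • Q := ⟨_, rfl⟩
  have h2A : 2 • A ≠ 0 := by
    rw [hA, ← mul_nsmul, ← pow_succ]
    exact h2
  rw [← hA] at h1 ⊢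
  obtain ⟨g₁, hg₁, hM⟩ := mu_xRep W V hV j Q
  rw [← hA, xRep_eq hQ] at hM
  obtain ⟨M, hMdef⟩ : ∃ M : Fin 2 → L, M = mu W j ![Q.xRep 0, 1] := ⟨_, rfl⟩
  rw [← hMdef] at hM ⊢
  obtain ⟨c, hc, hPc⟩ := hch
  obtain ⟨Z, hZ⟩ : ∃ Z : Fin 2 → L, Z = vc χ σ := ⟨_, rfl⟩
  rw [← hZ] at hPc hβ ⊢
  have hZ2 : Z = c⁻¹ • P.xRep := by
    rw [hPc, smul_smul, inv_mul_cancel₀ hc, one_smul]
  obtain ⟨g₂, hg₂, hS⟩ := SV_xRep W V hV A P
  obtain ⟨p, hp⟩ : ∃ p : Fin 2 → L, p = (A + P).xRep := ⟨_, rfl⟩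
  obtain ⟨q, hq⟩ : ∃ q : L, q = (P - A).xRep 0 := ⟨_, rfl⟩
  have hAP : (A - P).xRep = ![q, 1] := by
    rw [← neg_sub P A, xRep_neg, xRep_eq h1, ← hq]
  rw [← hp, hAP] at hS
  obtain ⟨g, hgdef⟩ : ∃ g : L, g = (g₁ * c⁻¹) ^ 2 * g₂ := ⟨_, rfl⟩
  have hSM : ∀ i, SV W M Z i = g * sq2 p ![q, 1] i := by
    intro i
    rw [hM, hZ2, SV_smul, hS i, hgdef]
    ring
  have hS0 : SV W M Z 0 = g * (p 0 * q) := hSM 0
  have hS1 : SV W M Z 1 = g * (p 0 * 1 + p 1 * q) := hSM 1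
  have hS2 : SV W M Z 2 = g * (p 1 * 1) := hSM 2
  have hdisc := SV_disc W M Z
  obtain ⟨y, hy⟩ := ph_xRep_isSquare W V hV A
  have hphA := ph_xRep_ne_zero W V hV A h2A
  have hphM : ph W M = (g₁ ^ 2 * y) ^ 2 := by
    rw [hM, ph_smul, hy]
    ring
  have hphM0 : ph W M ≠ 0 := by
    rw [hM, ph_smul]
    exact mul_ne_zero (pow_ne_zero 4 hg₁) hphA
  have hsq : (g₁ ^ 2 * y * β) ^ 2 = (g * (p 1 * q - p 0)) ^ 2 := by
    rw [mul_pow, ← hphM, hβ, ← hdisc, hS0, hS1, hS2]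
    ring
  obtain ⟨yM, hyM1, hyM2⟩ : ∃ yM : L, yM ^ 2 = ph W M ∧ yM * β = g * (p 1 * q - p 0) := by
    rcases sq_eq_sq_iff_eq_or_eq_neg.1 hsq with h | h
    · exact ⟨g₁ ^ 2 * y, hphM.symm, h⟩
    · refine ⟨-(g₁ ^ 2 * y), ?_, ?_⟩
      · rw [neg_sq]
        exact hphM.symm
      · rw [neg_mul, h, neg_neg]
  have hyM0 : yM ≠ 0 := by
    rintro rfl
    exact hphM0 (by rw [← hyM1]; ring)
  refine ⟨yM, fun c => if c then 2 * g * p 1 else 2 * g * p 0, hyM1, mul_ne_zero hyM0 hβ0, ?_,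
    ?_, ?_⟩
  · rw [hM]
    exact smul_ne_zero hg₁ (xRep_ne_zero A)
  · intro c
    rw [← hq]
    cases c
    · unfold col
      rw [if_neg Bool.false_ne_true, hyM2, hS0, hS1]
      funext i
      fin_cases i
      · change 2 * (g * (p 0 * q)) = 2 * g * p 0 * q
        ring
      · change g * (p 0 * 1 + p 1 * q) - g * (p 1 * q - p 0) = 2 * g * p 0 * 1
        ring
    · unfold col
      rw [if_pos rfl, hyM2, hS1, hS2]
      funext i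
      fin_cases i
      · change g * (p 0 * 1 + p 1 * q) + g * (p 1 * q - p 0) = 2 * g * p 1 * q
        ring
      · change 2 * (g * (p 1 * 1)) = 2 * g * p 1 * 1
        ring
  · intro v
    rw [← hq]
    exact L1i_low W v M Z p g q hSM

end Pool.Agent.Lib.MP_17a322_nt.VN
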