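import Pool.Agent.Lib.MP_17a322_nt.VN.L1g
import Pool.Agent.Lib.MP_17a322_nt.VN.L1i
import Pool.Agent.Lib.MP_17a322_nt.VN.L1k

/-!
# JOB L1l: the local estimate for the coefficients in `z` of one block

Setting. `A = PowerSeries L` (variable `T`), `P2 L = PowerSeries A`. The series `u t`, `ξ t` of `coord_package` (L1h) are in the variable
`τ` of the block; `Ex j` is the substitution `τ ↦ T ^ (4 ^ j)` on the inner variable, `dr t d` puts `z = 0` if `t ≠ d`. Both are
homomorphisms of `L`- and `K`-algebras on `P2 L`, they commute, fix `C (C a)`, and do not increase sizes.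

PROOFS. `nu2_dr`, `nu2_Ex`: `PA_const`, `PA_map` with `PN_expand` (L1c).
`block_local`. Put `k = ∏ t, kc (W t) v ≥ 1`, `kk = k ^ 200`, `X = ∏ t, max 1 (v (q t)) ≥ 1`. `kc (W t) v ≤ k`, `lc ≤ kc`.
Case 1: `dl = 1` or `T ≤ s`. Put `lam' = 1 / (kk * X)`; then `lam' * (kc (W t) v ^ 200 * max 1 (v (q t))) ≤ 1` for all `t` (`kc ^ 200 ≤ kk`, the other factors are
`≥ 1`), and `r ^ (4 ^ j) ≤ lam' * rho` (`hr`, `dl ≤ 1`). Seminorm `ν f = PA v (fun g => PN v r N g) lam' s f` on `P2 L` (`SN_PA`, `SN_PN`). `ν (dr t dir (Ex j (ξ t))) ≤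
nu2 v (r ^ (4 ^ j)) lam' N s (ξ t) ≤ nu2 v (lam' * rho) lam' N s (ξ t) ≤ kc ^ 200 * max 1 (v (q t))` (`PA2_mono`). `block_none` (L1k) for the family `C (Φ μ)`
(`PA_C`): the sum has size `≤ Bd * cst v 2 ^ (n b) * (∏ t, kc (W t) v ^ 200 * max 1 (v (q t))) ^ b ≤ Bd * k ^ (n b + 200 b) * X ^ b`. `PA_coeff_le`: the size of the
coefficient of `z ^ s` times `lam' ^ s` is at most this. The other factors of the claim are `≥ 1` (`one_le_RB` C07, `one_le_cst`), and
`dl ^ (T - s) = 1` (`dl = 1`, or `T - s = 0`).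
Case 2: `s < T` and the gain conditions hold. `lam' = dl / (kk * X)`; again `lam' * (..) ≤ 1`, `r ^ (4 ^ j) ≤ lam' * rho`. For all `t` take `c t, B t, d t` from the second part
of `hP t` (`v (σ t) ≤ 1`). Apply `block_gain` (L1k) with `R = P2 L`, the seminorm `ν` as above (with this `lam'`), `Φ' μ = C (Φ μ)` (`ORD` for `Φ'`: apply the injection `C` to the
equations of `hO`), `u' t = dr t dir (Ex j (u t))`, `ξ' t`, `B' t`, `d' t` likewise, `X t = max 1 (v (q t))`, `δ = dl`, `κ = cst v 2 * RB * kk ^ (k + 2).. `: precisely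
`κ = cst v 2 * (ρ.map (algebraMap K L)).RB v * kk ^ D`. The equations `hB, hd, hξ` are the images of those of `coord_package` under the homomorphism `dr t dir ∘ Ex j`
(`map_ph`, `map_SV` of VJ/E3; `M2 M` is mapped to itself, and `mu (W t) j ![algebraMap L (P2 L) (x0 t), 1] i = C (C (mu (W t) j ![x0 t, 1] i))`, `map_mu`). `hMl`: `le_mu` (L1i) and
`vn v ![x0 t, 1] = max 1 ..`, `lc ^ (8 * 4 ^ j) ≤ kk ^ (8 * 4 ^ j)`. `hu`: `lam' * rho * kc ^ 200 ≤ rho` etc., first part of `hP`. `h0`, `h1`: let `f = aeval (fun t => dr t dir (u t)) (ρ.z 0) : P2 L`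
(in the variable `τ`); `aeval u' (ρ.z 0) = Ex j f`. `cc2 f = aeval σ (ρ.z 0)`, of size `≤ dl`. At the radii `(rho / kk, 1 / kk)` all `dr t dir (u t)` have size `≤ kc (W t) v ^ 200`,
so `nu2 v (rho / kk) (1 / kk) N s f ≤ RB * ∏ t, (kc ^ 200) ^ D = RB * kk ^ D` (`SN.aeval_le'`, VJ/A3; `degreeOf_le_totalDegree`, `hD`; `z_le_RB`, C07). By `PA2_sub_const`, `PA2_scale` (L1d) with the
scaling factor `lam' * kk = dl / X ≤ dl`: `f - C (C (cc2 f))` has size `≤ dl * RB * kk ^ D` at `(lam' * rho, lam')`; so `f` has size `≤ cst v 2 * (dl * RB * kk ^ D) = κ * dl`.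
Result of `block_gain`: `≤ Bd * kk ^ ((200 n + 2 CE) (b 4 ^ j)) * (cst v (e+1) * RB * κ) ^ (CE b) * (∏ max 1 |x0|) ^ (2 * 4 ^ j) * X ^ b * dl ^ T`,
`(cst v (e+1) * RB * κ) ^ (CE b) ≤ (cst v (e+1) * RB) ^ (2 * (CE b)) * kk ^ ((D + 1) CE b)` (`cst v 2 ≤ kk`, `1 ≤ cst v (e+1)`), and
`200 * ((200 n + 2 CE) (b 4 ^ j) + (D + 1) CE b) ≤ CF k D * (b * 4 ^ j)`. Divide by `lam' ^ s`: `(kk * X / dl) ^ s * dl ^ T = (kk * X) ^ s * dl ^ (T - s)`.
-/

namespace Pool.Agent.Lib.MP_17a322_nt.VN

open MvPolynomial Height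
open Pool.Agent.Lib.MP_17a322_nt.RO
open Pool.Agent.Lib.MP_17a322_nt.VJ

/-- The substitution `τ ↦ T ^ (4 ^ j)` as a homomorphism. -/
noncomputable def Ex1 (L : Type*) [Field L] (j : ℕ) : PowerSeries L →+* PowerSeries L :=
  (PowerSeries.expand (4 ^ j) (pow_ne_zero j four_ne_zero) :
    PowerSeries L →ₐ[L] PowerSeries L).toRingHom

/-- The substitution `τ ↦ T ^ (4 ^ j)` in the inner variable. -/
noncomputable def Ex {L : Type*} [Field L] (j : ℕ) (f : P2 L) : P2 L :=
  PowerSeries.map (Ex1 L j) f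

/-- `z = 0` unless `t = d`. -/
noncomputable def dr {L : Type*} [Field L] {n : ℕ} (t d : Fin n) (f : P2 L) : P2 L :=
  if t = d then f else PowerSeries.C (PowerSeries.constantCoeff f)

/-- Exponent of the local constant. -/
def CF (k D : ℕ) : ℕ := 200 * (200 * (k + 2) + ((k + 2) * D + 4) * CE k D)

/-- The output of `coord_package` at one place. -/
def PKG {K : Type*} [Field K] (W : WeierstrassCurve K) {L : Type*} [Field L] [Algebra K L]
    (v : AbsoluteValue L ℝ) (χ : Bool) (M : Fin 2 → L) (σ q : L) (u ξ : P2 L) (rho : ℝ) : Prop :=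
  (v σ ≤ 1 → ∀ r κ : ℝ, 0 ≤ r → r * kc W v ^ 200 ≤ rho → 0 ≤ κ → κ * kc W v ^ 200 ≤ 1 →
    ∀ n n', nu2 v r κ n n' u ≤ kc W v ^ 200) ∧
  ∀ lam' : ℝ, 0 ≤ lam' → lam' * (kc W v ^ 200 * max 1 (v q)) ≤ 1 →
    (∀ n n', nu2 v (lam' * rho) lam' n n' ξ ≤ kc W v ^ 200 * max 1 (v q)) ∧
    (v σ ≤ 1 → ∃ (c : Bool) (B d : P2 L), B ^ 2 = ph W (M2 M) * ph W (vc χ u) ∧
      col W (M2 M) (vc χ u) B c 1 * d = 1 ∧ col W (M2 M) (vc χ u) B c 0 * d = ξ ∧
      ∀ n n', nu2 v (lam' * rho) lam' n n' B ≤ kc W v ^ 200 * vn v M ^ 2 ∧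
        nu2 v (lam' * rho) lam' n n' d ≤ kc W v ^ 200 * max 1 (v q) / vn v M ^ 2)

section

variable {L : Type*} [Field L] (v : AbsoluteValue L ℝ)

theorem nu2_dr {r κ : ℝ} (hr : 0 ≤ r) (hκ : 0 ≤ κ) (N s : ℕ) {n : ℕ} (t d : Fin n) (f : P2 L) :
    PA v (fun g : PowerSeries L => PN v r N g) κ s (dr t d f) ≤
      PA v (fun g : PowerSeries L => PN v r N g) κ s f := by
  unfold dr
  split_ifs
  · exact le_rfl
  · exact PA_const (SN_PN v hr N) hκ s f

theorem nu2_Ex {r κ : ℝ} (hr : 0 ≤ r) (hκ : 0 ≤ κ) (N s j : ℕ) (f : P2 L) :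
    PA v (fun g : PowerSeries L => PN v r N g) κ s (Ex j f) ≤ nu2 v (r ^ (4 ^ j)) κ N s f := by
  unfold Ex nu2
  exact PA_map hκ (Ex1 L j) (fun a => PN_expand v hr (pow_ne_zero j four_ne_zero) N a) s f

end

section

variable {K L : Type*} [Field K] [Field L] [Algebra K L]

private theorem L1l_Ex1_C (j : ℕ) (a : L) : Ex1 L j (PowerSeries.C a) = PowerSeries.C a := by
  have h := (PowerSeries.expand (4 ^ j) (pow_ne_zero j four_ne_zero) :
    PowerSeries L →ₐ[L] PowerSeries L).commutes a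
  exact h

private theorem L1l_alg (a : K) :
    algebraMap K (P2 L) a = PowerSeries.C (PowerSeries.C (algebraMap K L a)) := by
  rw [PowerSeries.algebraMap_apply, PowerSeries.algebraMap_apply]

private theorem L1l_Ex_CC (j : ℕ) (a : L) :
    Ex j (PowerSeries.C (PowerSeries.C a)) = PowerSeries.C (PowerSeries.C a) := by
  unfold Ex
  rw [PowerSeries.map_C, L1l_Ex1_C]

private theorem L1l_dr_CC {n : ℕ} (t d : Fin n) (a : L) :
    dr t d (PowerSeries.C (PowerSeries.C a)) = PowerSeries.C (PowerSeries.C a) := by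
  unfold dr
  split_ifs
  · rfl
  · rw [PowerSeries.constantCoeff_C]

/-- `dr t d` as a ring homomorphism. -/
private noncomputable def L1l_D (L : Type*) [Field L] {n : ℕ} (t d : Fin n) : P2 L →+* P2 L :=
  if t = d then RingHom.id _ else (PowerSeries.C (R := PowerSeries L)).comp
    (PowerSeries.constantCoeff (R := PowerSeries L))

private theorem L1l_D_apply {n : ℕ} (t d : Fin n) (f : P2 L) : L1l_D L t d f = dr t d f := by
  unfold L1l_D dr
  split_ifs
  · rfl
  · rfl

/-- `f ↦ dr t d (Ex j f)` as a homomorphism of `K`-algebras. -/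
private noncomputable def L1l_H (K L : Type*) [Field K] [Field L] [Algebra K L] (j : ℕ) {n : ℕ}
    (t d : Fin n) : P2 L →ₐ[K] P2 L :=
  { (L1l_D L t d).comp (PowerSeries.map (Ex1 L j)) with
    commutes' := by
      intro a
      show L1l_D L t d (PowerSeries.map (Ex1 L j) (algebraMap K (P2 L) a)) = _
      rw [L1l_D_apply, L1l_alg]
      show dr t d (Ex j _) = _
      rw [L1l_Ex_CC, L1l_dr_CC] }

private theorem L1l_H_apply (j : ℕ) {n : ℕ} (t d : Fin n) (f : P2 L) :
    L1l_H K L j t d f = dr t d (Ex j f) := by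
  show L1l_D L t d (PowerSeries.map (Ex1 L j) f) = _
  rw [L1l_D_apply]
  rfl

/-- `dr t d` as a homomorphism of `K`-algebras. -/
private noncomputable def L1l_DA (K L : Type*) [Field K] [Field L] [Algebra K L] {n : ℕ}
    (t d : Fin n) : P2 L →ₐ[K] P2 L :=
  { L1l_D L t d with
    commutes' := by
      intro a
      show L1l_D L t d (algebraMap K (P2 L) a) = _
      rw [L1l_D_apply, L1l_alg, L1l_dr_CC] }

/-- `Ex j` as a homomorphism of `K`-algebras. -/
private noncomputable def L1l_E (K L : Type*) [Field K] [Field L] [Algebra K L] (j : ℕ) :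
    P2 L →ₐ[K] P2 L :=
  { PowerSeries.map (Ex1 L j) with
    commutes' := by
      intro a
      show Ex j (algebraMap K (P2 L) a) = _
      rw [L1l_alg, L1l_Ex_CC] }

private theorem L1l_comm (j : ℕ) {n : ℕ} (t d : Fin n) (f : P2 L) :
    dr t d (Ex j f) = Ex j (dr t d f) := by
  unfold dr
  split_ifs
  · rfl
  · unfold Ex
    rw [PowerSeries.map_C]
    congr 1

/-- `cc2` as a homomorphism of `K`-algebras. -/
private noncomputable def L1l_cc (K L : Type*) [Field K] [Field L] [Algebra K L] :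
    P2 L →ₐ[K] L :=
  { (PowerSeries.constantCoeff (R := L)).comp (PowerSeries.constantCoeff (R := PowerSeries L)) with
    commutes' := by
      intro a
      show PowerSeries.constantCoeff (PowerSeries.constantCoeff (algebraMap K (P2 L) a)) = _
      rw [L1l_alg, PowerSeries.constantCoeff_C, PowerSeries.constantCoeff_C] }

private theorem L1l_cc_dr {n : ℕ} (t d : Fin n) (f : P2 L) : cc2 (dr t d f) = cc2 f := by
  unfold dr
  split_ifs
  · rfl
  · unfold cc2
    rw [PowerSeries.constantCoeff_C]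

private theorem L1l_map_col (W : WeierstrassCurve K) {A A' : Type*} [CommRing A] [CommRing A']
    [Algebra K A] [Algebra K A'] (f : A →ₐ[K] A') (R Q : Fin 2 → A) (B : A) (c : Bool)
    (i : Fin 2) :
    f (col W R Q B c i) = col W (fun j => f (R j)) (fun j => f (Q j)) (f B) c i := by
  unfold col
  cases c
  · fin_cases i
    · show f (2 * SV W R Q 0) = 2 * SV W _ _ 0
      rw [map_mul, map_SV, map_ofNat]
    · show f (SV W R Q 1 - B) = SV W _ _ 1 - f B
      rw [map_sub, map_SV]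
  · fin_cases i
    · show f (SV W R Q 1 + B) = SV W _ _ 1 + f B
      rw [map_add, map_SV]
    · show f (2 * SV W R Q 2) = 2 * SV W _ _ 2
      rw [map_mul, map_SV, map_ofNat]

private theorem L1l_mu (W : WeierstrassCurve K) (j : ℕ) (x : L) :
    mu W j ![algebraMap L (P2 L) x, 1] = M2 (mu W j ![x, 1]) := by
  funext i
  have h := map_mu W (IsScalarTower.toAlgHom K L (P2 L)) j ![x, 1] i
  have h2 : (fun k => (IsScalarTower.toAlgHom K L (P2 L)) (![x, 1] k)) =
      ![algebraMap L (P2 L) x, 1] := by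
    funext k
    fin_cases k
    · rfl
    · exact map_one _
  rw [h2] at h
  rw [← h]
  show algebraMap L (P2 L) _ = _
  rw [L1l_alg]
  rfl

private theorem L1l_vc (f : P2 L →ₐ[K] P2 L) (χ : Bool) (u : P2 L) :
    (fun k => f (vc χ u k)) = vc χ (f u) := by
  funext k
  cases χ
  · fin_cases k
    · rfl
    · exact map_one f
  · fin_cases k
    · exact map_one f
    · rfl

end

/-- The local estimate for the coefficient of `z ^ s`. -/
theorem block_local {K L : Type*} [Field K] [Field L] [Algebra K L] (v : AbsoluteValue L ℝ)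
    {k e : ℕ} (ρ : REP K (k + 2) e) {D : ℕ} (hD : ρ.Deg D)
    (W : Fin (k + 2) → WeierstrassCurve K) [∀ t, (W t).IsElliptic] (χ : Fin (k + 2) → Bool)
    {j b T : ℕ} (hb : 1 ≤ b) (x0 σ q : Fin (k + 2) → L) (u ξ : Fin (k + 2) → P2 L) {rho : ℝ}
    (hrho : 0 ≤ rho) (hM0 : ∀ t, mu (W t) j ![x0 t, 1] ≠ 0) (hcu : ∀ t, cc2 (u t) = σ t)
    (hP : ∀ t, PKG (W t) v (χ t) (mu (W t) j ![x0 t, 1]) (σ t) (q t) (u t) (ξ t) rho)
    (Φ : (Fin (k + 2) → ℕ) → PowerSeries L) (hO : ORD ρ W χ j b T Φ x0) {r : ℝ} (hr0 : 0 ≤ r)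
    (N : ℕ) {Bd : ℝ} (hBd : ∀ μ ∈ box (fun _ : Fin (k + 2) => b + 1), PN v r N (Φ μ) ≤ Bd)
    {dl : ℝ} (hdl0 : 0 < dl) (hdl1 : dl ≤ 1)
    (hdl : dl = 1 ∨ ((∀ t, v (σ t) ≤ 1) ∧ v (aeval σ (ρ.z 0)) ≤ dl ∧ v (aeval σ (ρ.z 1)) ≤ dl))
    (hr : r ^ (4 ^ j) * ((∏ t, kc (W t) v) ^ 200 * ∏ t, max 1 (v (q t))) ≤ dl * rho)
    (dir : Fin (k + 2)) (s : ℕ) :
    PN v r N (PowerSeries.coeff s (∑ μ ∈ box (fun _ : Fin (k + 2) => b + 1),
      PowerSeries.C (Φ μ) * ∏ t, dr t dir (Ex j (ξ t)) ^ μ t)) ≤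
      Bd * (∏ t, kc (W t) v) ^ (CF k D * (b * 4 ^ j)) *
        (cst v (e + 1) * (ρ.map (algebraMap K L)).RB v) ^ (2 * (CE k D * b)) *
        (∏ t, max 1 (v (x0 t))) ^ (2 * 4 ^ j) * (∏ t, max 1 (v (q t))) ^ b *
        ((∏ t, kc (W t) v) ^ 200 * ∏ t, max 1 (v (q t))) ^ s * dl ^ (T - s) := by
  classical
  -- the constants
  obtain ⟨kp, hkp⟩ : ∃ kp : ℝ, kp = ∏ t, kc (W t) v := ⟨_, rfl⟩
  obtain ⟨X, hX⟩ : ∃ X : ℝ, X = ∏ t, max 1 (v (q t)) := ⟨_, rfl⟩
  obtain ⟨Y, hY⟩ : ∃ Y : ℝ, Y = ∏ t, max 1 (v (x0 t)) := ⟨_, rfl⟩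
  obtain ⟨RB, hRB⟩ : ∃ RB : ℝ, RB = (ρ.map (algebraMap K L)).RB v := ⟨_, rfl⟩
  obtain ⟨Z, hZ⟩ : ∃ Z : ℝ, Z = cst v (e + 1) := ⟨_, rfl⟩
  obtain ⟨kk, hkk⟩ : ∃ kk : ℝ, kk = kp ^ 200 := ⟨_, rfl⟩
  have hkc : ∀ t, 1 ≤ kc (W t) v := fun t => by
    unfold kc
    exact one_le_mul_of_one_le_of_one_le (one_le_lc _ v) (le_max_left _ _)
  have hlk : ∀ t, lc (W t) v ≤ kc (W t) v := fun t => by
    unfold kc
    exact le_mul_of_one_le_right (zero_le_one.trans (one_le_lc _ v)) (le_max_left _ _)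
  have hX1 : 1 ≤ X := by rw [hX]; exact E1_one_le_prod _ _ fun _ => le_max_left _ _
  have hY1 : 1 ≤ Y := by rw [hY]; exact E1_one_le_prod _ _ fun _ => le_max_left _ _
  have hkp1 : 1 ≤ kp := by rw [hkp]; exact E1_one_le_prod _ _ hkc
  have hkk1 : 1 ≤ kk := by rw [hkk]; exact one_le_pow₀ hkp1
  have hRB1 : 1 ≤ RB := by rw [hRB]; exact one_le_RB _ v
  have hZ1 : 1 ≤ Z := by rw [hZ]; exact one_le_cst v (Nat.le_add_left _ _)
  have hkct : ∀ t, kc (W t) v ≤ kp := fun t => by
    rw [hkp]; exact E1_le_prod Finset.univ (fun t => kc (W t) v) hkc (Finset.mem_univ t)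
  have hkct2 : ∀ t, kc (W t) v ^ 200 ≤ kk := fun t => by
    rw [hkk]; exact pow_le_pow_left₀ (zero_le_one.trans (hkc t)) (hkct t) 200
  have hkkp : kp ≤ kk := by rw [hkk]; exact le_self_pow₀ hkp1 (by norm_num)
  have hXt : ∀ t, max 1 (v (q t)) ≤ X := fun t => by
    rw [hX]
    exact E1_le_prod Finset.univ (fun t => max 1 (v (q t))) (fun _ => le_max_left _ _)
      (Finset.mem_univ t)
  have hXt1 : ∀ t, 1 ≤ max 1 (v (q t)) := fun t => le_max_left _ _
  have hc2 : cst v 2 ≤ kp := (cst_two_le_lc (W 0) v).trans ((hlk 0).trans (hkct 0))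
  have hc20 : 0 ≤ cst v 2 := cst_nonneg v 2
  have hc21 : 1 ≤ cst v 2 := one_le_cst v (by norm_num)
  have hkkX : 0 < kk * X := mul_pos (by linarith) (by linarith)
  rw [← hkp, ← hX, ← hkk] at hr
  rw [← hkp, ← hX, ← hY, ← hRB, ← hZ, ← hkk]
  have hBd0 : 0 ≤ Bd := by
    refine ((SN_PN v hr0 N).nonneg _).trans (hBd (fun _ => 0) ?_)
    unfold box
    rw [Fintype.mem_piFinset]
    intro a
    exact Finset.mem_range.mpr (Nat.succ_pos b)
  obtain ⟨SM, hSM⟩ : ∃ SM : P2 L, SM = ∑ μ ∈ box (fun _ : Fin (k + 2) => b + 1),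
      PowerSeries.C (Φ μ) * ∏ t, dr t dir (Ex j (ξ t)) ^ μ t := ⟨_, rfl⟩
  rw [← hSM]
  have h4j : 1 ≤ 4 ^ j := Nat.one_le_pow _ _ (by norm_num)
  have hb4 : b ≤ b * 4 ^ j := Nat.le_mul_of_pos_right b (by positivity)
  have hb41 : 1 ≤ b * 4 ^ j := hb.trans hb4
  -- comparison of radii
  have hrad : ∀ lam' : ℝ, 0 < lam' → r ^ (4 ^ j) ≤ lam' * rho → ∀ (t : Fin (k + 2)) (f : P2 L),
      PA v (fun g : PowerSeries L => PN v r N g) lam' s (dr t dir (Ex j f)) ≤
        nu2 v (lam' * rho) lam' N s f := by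
    intro lam' hl0 hl t f
    refine (nu2_dr v hr0 hl0.le N s t dir _).trans ((nu2_Ex v hr0 hl0.le N s j f).trans ?_)
    exact PA2_mono v (pow_nonneg hr0 _) hl hl0.le le_rfl N s f
  by_cases hcase : dl = 1 ∨ T ≤ s
  · -- case 1
    have hdlT : dl ^ (T - s) = 1 := by
      rcases hcase with h | h
      · rw [h, one_pow]
      · rw [Nat.sub_eq_zero_of_le h, pow_zero]
    obtain ⟨lam, hlam⟩ : ∃ lam : ℝ, lam = 1 / (kk * X) := ⟨_, rfl⟩
    have hlam0 : 0 < lam := by rw [hlam]; positivity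
    have hlamk : lam * (kk * X) = 1 := by rw [hlam]; field_simp
    have hlamt : ∀ t, lam * (kc (W t) v ^ 200 * max 1 (v (q t))) ≤ 1 := by
      intro t
      refine le_of_le_of_eq ?_ hlamk
      apply mul_le_mul_of_nonneg_left _ hlam0.le
      exact mul_le_mul (hkct2 t) (hXt t) (zero_le_one.trans (hXt1 t)) (by linarith)
    have hrl : r ^ (4 ^ j) ≤ lam * rho := by
      have h1 : r ^ (4 ^ j) * (kk * X) ≤ rho := by
        refine hr.trans ?_
        exact mul_le_of_le_one_left hrho hdl1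
      have h2 := mul_le_mul_of_nonneg_left h1 hlam0.le
      calc r ^ (4 ^ j) = lam * (r ^ (4 ^ j) * (kk * X)) := by
            rw [mul_left_comm, hlamk, mul_one]
        _ ≤ _ := h2
    have hSN := SN_PA (SN_PN v hr0 N) hlam0.le s
    have hxi : ∀ t, PA v (fun g : PowerSeries L => PN v r N g) lam s (dr t dir (Ex j (ξ t))) ≤
        kc (W t) v ^ 200 * max 1 (v (q t)) := fun t =>
      (hrad lam hlam0 hrl t _).trans (((hP t).2 lam hlam0.le (hlamt t)).1 N s)
    have h1 := block_none hSN b (fun μ => (PowerSeries.C (Φ μ) : P2 L))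
      (fun t => dr t dir (Ex j (ξ t))) (Bd := Bd) (fun μ hμ => by
        rw [PA_C (SN_PN v hr0 N)]
        exact hBd μ hμ)
    rw [← hSM] at h1
    have h2 : ∏ t, max 1 (PA v (fun g : PowerSeries L => PN v r N g) lam s
        (dr t dir (Ex j (ξ t)))) ^ b ≤ kk ^ b * X ^ b := by
      have h3 : ∏ t, max 1 (PA v (fun g : PowerSeries L => PN v r N g) lam s
          (dr t dir (Ex j (ξ t)))) ^ b ≤ ∏ t, (kc (W t) v ^ 200 * max 1 (v (q t))) ^ b := by
        refine Finset.prod_le_prod (fun t _ => by positivity) fun t _ => ?_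
        refine pow_le_pow_left₀ (by positivity) (max_le ?_ (hxi t)) b
        exact one_le_mul_of_one_le_of_one_le (one_le_pow₀ (hkc t)) (hXt1 t)
      refine h3.trans (le_of_eq ?_)
      rw [Finset.prod_pow, Finset.prod_mul_distrib, Finset.prod_pow, mul_pow, ← hkp, ← hX, hkk]
    have h4 := PA_coeff_le (SN_PN v hr0 N) hlam0.le (le_refl s) SM
    have h5 : PN v r N (PowerSeries.coeff s SM) * lam ^ s ≤
        Bd * kp ^ (CF k D * (b * 4 ^ j)) * X ^ b := by
      refine h4.trans (h1.trans ?_)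
      have h6 : cst v 2 ^ ((k + 2) * b) ≤ kp ^ ((k + 2) * b) := pow_le_pow_left₀ hc20 hc2 _
      have h7 : Bd * cst v 2 ^ ((k + 2) * b) * ∏ t, max 1 (PA v
          (fun g : PowerSeries L => PN v r N g) lam s (dr t dir (Ex j (ξ t)))) ^ b ≤
          Bd * kp ^ ((k + 2) * b) * (kk ^ b * X ^ b) := by
        refine mul_le_mul (mul_le_mul_of_nonneg_left h6 hBd0) h2
          (Finset.prod_nonneg fun t _ => by positivity) (by positivity)
      refine h7.trans ?_
      have h8 : kp ^ ((k + 2) * b) * kk ^ b ≤ kp ^ (CF k D * (b * 4 ^ j)) := by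
        rw [hkk, ← pow_mul, ← pow_add]
        refine pow_le_pow_right₀ hkp1 ?_
        have h9 : 200 * (200 * (k + 2)) ≤ CF k D := by
          unfold CF
          exact Nat.mul_le_mul_left _ (Nat.le_add_right _ _)
        calc (k + 2) * b + 200 * b = (k + 2 + 200) * b := by ring
          _ ≤ (200 * (200 * (k + 2))) * b := Nat.mul_le_mul_right _ (by omega)
          _ ≤ CF k D * (b * 4 ^ j) := Nat.mul_le_mul h9 hb4
      calc Bd * kp ^ ((k + 2) * b) * (kk ^ b * X ^ b) =
          Bd * (kp ^ ((k + 2) * b) * kk ^ b) * X ^ b := by ring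
        _ ≤ Bd * kp ^ (CF k D * (b * 4 ^ j)) * X ^ b := by
          apply mul_le_mul_of_nonneg_right _ (by positivity)
          exact mul_le_mul_of_nonneg_left h8 hBd0
    have h6 : PN v r N (PowerSeries.coeff s SM) ≤
        Bd * kp ^ (CF k D * (b * 4 ^ j)) * X ^ b * (kk * X) ^ s := by
      have h7 : lam ^ s * (kk * X) ^ s = 1 := by rw [← mul_pow, hlamk, one_pow]
      calc PN v r N (PowerSeries.coeff s SM) =
          PN v r N (PowerSeries.coeff s SM) * lam ^ s * (kk * X) ^ s := by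
            rw [mul_assoc, h7, mul_one]
        _ ≤ _ := mul_le_mul_of_nonneg_right h5 (by positivity)
    rw [hdlT, mul_one]
    refine h6.trans ?_
    have h8 : 1 ≤ (Z * RB) ^ (2 * (CE k D * b)) :=
      one_le_pow₀ (one_le_mul_of_one_le_of_one_le hZ1 hRB1)
    have h9 : 1 ≤ Y ^ (2 * 4 ^ j) := one_le_pow₀ hY1
    have h10 : 0 ≤ Bd * kp ^ (CF k D * (b * 4 ^ j)) := by positivity
    apply mul_le_mul_of_nonneg_right _ (by positivity)
    apply mul_le_mul_of_nonneg_right _ (by positivity)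
    calc Bd * kp ^ (CF k D * (b * 4 ^ j)) = Bd * kp ^ (CF k D * (b * 4 ^ j)) * 1 * 1 := by ring
      _ ≤ _ := mul_le_mul (mul_le_mul_of_nonneg_left h8 h10) h9 zero_le_one (by positivity)
  · -- case 2
    push Not at hcase
    obtain ⟨hdlne, hsT⟩ := hcase
    obtain ⟨hσ1, hz0, hz1⟩ := hdl.resolve_left hdlne
    obtain ⟨lam, hlam⟩ : ∃ lam : ℝ, lam = dl / (kk * X) := ⟨_, rfl⟩
    have hlam0 : 0 < lam := by rw [hlam]; positivity
    have hlamk : lam * (kk * X) = dl := by rw [hlam]; field_simp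
    have hlamt : ∀ t, lam * (kc (W t) v ^ 200 * max 1 (v (q t))) ≤ 1 := by
      intro t
      refine le_trans ?_ hdl1
      refine le_of_le_of_eq ?_ hlamk
      apply mul_le_mul_of_nonneg_left _ hlam0.le
      exact mul_le_mul (hkct2 t) (hXt t) (zero_le_one.trans (hXt1 t)) (by linarith)
    have hlamt' : ∀ t, lam * kc (W t) v ^ 200 ≤ 1 := by
      intro t
      refine le_trans ?_ (hlamt t)
      apply mul_le_mul_of_nonneg_left _ hlam0.le
      exact le_mul_of_one_le_right (by have := hkc t; positivity) (hXt1 t)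
    have hrl : r ^ (4 ^ j) ≤ lam * rho := by
      rw [hlam, div_mul_eq_mul_div, le_div_iff₀ hkkX]
      exact hr
    have hSN := SN_PA (SN_PN v hr0 N) hlam0.le s
    obtain ⟨ν, hν⟩ : ∃ ν : P2 L → ℝ, ν = fun f : P2 L =>
      PA v (fun g : PowerSeries L => PN v r N g) lam s f := ⟨_, rfl⟩
    have hSN' : SN v ν := by rw [hν]; exact hSN
    have hνle : ∀ (t : Fin (k + 2)) (f : P2 L), ν (dr t dir (Ex j f)) ≤
        nu2 v (lam * rho) lam N s f := fun t f => by rw [hν]; exact hrad lam hlam0 hrl t f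
    have hex : ∀ t, ∃ (c : Bool) (B d : P2 L),
        B ^ 2 = ph (W t) (M2 (mu (W t) j ![x0 t, 1])) * ph (W t) (vc (χ t) (u t)) ∧
        col (W t) (M2 (mu (W t) j ![x0 t, 1])) (vc (χ t) (u t)) B c 1 * d = 1 ∧
        col (W t) (M2 (mu (W t) j ![x0 t, 1])) (vc (χ t) (u t)) B c 0 * d = ξ t ∧
        ∀ n n', nu2 v (lam * rho) lam n n' B ≤
            kc (W t) v ^ 200 * vn v (mu (W t) j ![x0 t, 1]) ^ 2 ∧
          nu2 v (lam * rho) lam n n' d ≤
            kc (W t) v ^ 200 * max 1 (v (q t)) / vn v (mu (W t) j ![x0 t, 1]) ^ 2 :=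
      fun t => ((hP t).2 lam hlam0.le (hlamt t)).2 (hσ1 t)
    choose c B d hB hd hξ hsz using hex
    have hvn0 : ∀ t, 0 < vn v (mu (W t) j ![x0 t, 1]) := by
      intro t
      rcases lt_or_eq_of_le (show 0 ≤ vn v (mu (W t) j ![x0 t, 1]) from
        le_max_of_le_left (v.nonneg _)) with h | h
      · exact h
      · exfalso
        apply hM0 t
        have h1 : v (mu (W t) j ![x0 t, 1] 0) ≤ 0 := by
          rw [h]; exact le_max_left _ _
        have h2 : v (mu (W t) j ![x0 t, 1] 1) ≤ 0 := by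
          rw [h]; exact le_max_right _ _
        funext i
        fin_cases i
        · exact v.eq_zero.mp (le_antisymm h1 (v.nonneg _))
        · exact v.eq_zero.mp (le_antisymm h2 (v.nonneg _))
    -- the substitution
    have hHM : ∀ t, (fun i => L1l_H K L j t dir (M2 (mu (W t) j ![x0 t, 1]) i)) =
        mu (W t) j ![algebraMap L (P2 L) (x0 t), 1] := by
      intro t
      rw [L1l_mu]
      funext i
      rw [L1l_H_apply]
      unfold M2
      rw [L1l_Ex_CC, L1l_dr_CC]
    have hB' : ∀ t, dr t dir (Ex j (B t)) ^ 2 =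
        ph (W t) (mu (W t) j ![algebraMap L (P2 L) (x0 t), 1]) *
          ph (W t) (vc (χ t) (dr t dir (Ex j (u t)))) := by
      intro t
      have h := congrArg (L1l_H K L j t dir) (hB t)
      rw [map_pow, map_mul, map_ph, map_ph, hHM, L1l_vc, L1l_H_apply, L1l_H_apply] at h
      exact h
    have hcol : ∀ t i, L1l_H K L j t dir (col (W t) (M2 (mu (W t) j ![x0 t, 1]))
        (vc (χ t) (u t)) (B t) (c t) i) =
        col (W t) (mu (W t) j ![algebraMap L (P2 L) (x0 t), 1])
          (vc (χ t) (dr t dir (Ex j (u t)))) (dr t dir (Ex j (B t))) (c t) i := by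
      intro t i
      rw [L1l_map_col, hHM, L1l_vc, L1l_H_apply, L1l_H_apply]
    have hd' : ∀ t, col (W t) (mu (W t) j ![algebraMap L (P2 L) (x0 t), 1])
        (vc (χ t) (dr t dir (Ex j (u t)))) (dr t dir (Ex j (B t))) (c t) 1 *
          dr t dir (Ex j (d t)) = 1 := by
      intro t
      have h := congrArg (L1l_H K L j t dir) (hd t)
      rw [map_mul, hcol, map_one, L1l_H_apply] at h
      exact h
    have hξ' : ∀ t, col (W t) (mu (W t) j ![algebraMap L (P2 L) (x0 t), 1])
        (vc (χ t) (dr t dir (Ex j (u t)))) (dr t dir (Ex j (B t))) (c t) 0 *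
          dr t dir (Ex j (d t)) = dr t dir (Ex j (ξ t)) := by
      intro t
      have h := congrArg (L1l_H K L j t dir) (hξ t)
      rw [map_mul, hcol, L1l_H_apply, L1l_H_apply] at h
      exact h
    have hrk : ∀ t, lam * rho * kc (W t) v ^ 200 ≤ rho := by
      intro t
      calc lam * rho * kc (W t) v ^ 200 = lam * kc (W t) v ^ 200 * rho := by ring
        _ ≤ 1 * rho := mul_le_mul_of_nonneg_right (hlamt' t) hrho
        _ = rho := one_mul _
    have hu' : ∀ t, ν (dr t dir (Ex j (u t))) ≤ kk := by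
      intro t
      refine (hνle t _).trans (le_trans ?_ (hkct2 t))
      exact (hP t).1 (hσ1 t) (lam * rho) lam (by positivity) (hrk t) hlam0.le (hlamt' t) N s
    -- the values of the centre
    have hz : ∀ z : MvPolynomial (Fin (k + 2)) K, z.totalDegree ≤ D →
        NV v (MvPolynomial.map (algebraMap K L) z) ≤ RB → v (aeval σ z) ≤ dl →
        ν (aeval (fun t => dr t dir (Ex j (u t))) z) ≤ (cst v 2 * RB * kk ^ D) * dl := by
      intro z hzD hzR hzv
      obtain ⟨f, hf⟩ : ∃ f : P2 L, f = aeval (fun t => dr t dir (u t)) z := ⟨_, rfl⟩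
      have h1 : aeval (fun t => dr t dir (Ex j (u t))) z = Ex j f := by
        have h2 := MvPolynomial.comp_aeval_apply (fun t => dr t dir (u t)) (L1l_E K L j) z
        rw [hf]
        refine Eq.trans ?_ h2.symm
        congr 2
        funext t
        exact L1l_comm j t dir (u t)
      have h2 : cc2 f = aeval σ z := by
        have h3 := MvPolynomial.comp_aeval_apply (fun t => dr t dir (u t)) (L1l_cc K L) z
        rw [hf]
        refine Eq.trans h3 ?_
        congr 2
        funext t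
        show cc2 (dr t dir (u t)) = σ t
        rw [L1l_cc_dr, hcu]
      have hrk0 : 0 ≤ rho / kk := div_nonneg hrho (by linarith)
      have hκ0 : 0 ≤ 1 / kk := div_nonneg zero_le_one (by linarith)
      have h3 : nu2 v (rho / kk) (1 / kk) N s f ≤ RB * kk ^ D := by
        have hSN2 := SN_PA (SN_PN v hrk0 N) hκ0 s
        have h4 := hSN2.aeval_le' z (fun _ => D)
          (fun t => (degreeOf_le_totalDegree z t).trans hzD) (fun t => dr t dir (u t))
        rw [hf]
        refine h4.trans ?_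
        have h5 : ∏ t, max 1 (PA v (fun g : PowerSeries L => PN v (rho / kk) N g) (1 / kk) s
            (dr t dir (u t))) ^ D ≤ kk ^ D := by
          have h6 : ∏ t, max 1 (PA v (fun g : PowerSeries L => PN v (rho / kk) N g) (1 / kk) s
              (dr t dir (u t))) ^ D ≤ ∏ t, (kc (W t) v ^ 200) ^ D := by
            refine Finset.prod_le_prod (fun t _ => by positivity) fun t _ => ?_
            refine pow_le_pow_left₀ (by positivity) (max_le (one_le_pow₀ (hkc t)) ?_) D
            refine (nu2_dr v hrk0 hκ0 N s t dir _).trans ?_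
            refine (hP t).1 (hσ1 t) _ _ hrk0 ?_ hκ0 ?_ N s
            · rw [div_mul_eq_mul_div, div_le_iff₀ (by linarith)]
              exact mul_le_mul_of_nonneg_left (hkct2 t) hrho
            · rw [div_mul_eq_mul_div, one_mul, div_le_iff₀ (by linarith), one_mul]
              exact hkct2 t
          refine h6.trans (le_of_eq ?_)
          rw [Finset.prod_pow, Finset.prod_pow, ← hkp, hkk]
        exact mul_le_mul hzR h5 (Finset.prod_nonneg fun t _ => by positivity) (by linarith)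
      obtain ⟨l, hl⟩ : ∃ l : ℝ, l = dl / X := ⟨_, rfl⟩
      have hl0 : 0 ≤ l := by rw [hl]; positivity
      have hldl : l ≤ dl := by rw [hl]; exact div_le_self hdl0.le hX1
      have hl1 : l ≤ 1 := hldl.trans hdl1
      have e1 : l * (rho / kk) = lam * rho := by
        rw [hl, hlam]
        field_simp
      have e2 : l * (1 / kk) = lam := by
        rw [hl, hlam]
        field_simp
      have h5 : nu2 v (lam * rho) lam N s (f - PowerSeries.C (PowerSeries.C (cc2 f))) ≤
          dl * (RB * kk ^ D) := by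
        have h6 := PA2_scale v hrk0 hκ0 hl0 hl1 N s
          (f - PowerSeries.C (PowerSeries.C (cc2 f))) (by
            unfold cc2
            rw [map_sub, map_sub, PowerSeries.constantCoeff_C, PowerSeries.constantCoeff_C,
              sub_self])
        rw [e1, e2] at h6
        refine h6.trans ?_
        have h7 := (PA2_sub_const v hrk0 hκ0 N s f).trans h3
        have h8 : 0 ≤ RB * kk ^ D := by positivity
        exact (mul_le_mul_of_nonneg_left h7 hl0).trans (mul_le_mul_of_nonneg_right hldl h8)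
      have hlr0 : 0 ≤ lam * rho := by positivity
      have hSN3 := SN_PA (SN_PN v hlr0 N) hlam0.le s
      have h6 : nu2 v (lam * rho) lam N s (PowerSeries.C (PowerSeries.C (cc2 f))) ≤
          dl * (RB * kk ^ D) := by
        unfold nu2
        rw [PA_C (SN_PN v hlr0 N), PN_C, h2]
        refine hzv.trans ?_
        exact le_mul_of_one_le_right hdl0.le
          (one_le_mul_of_one_le_of_one_le hRB1 (one_le_pow₀ hkk1))
      have h7 := hSN3.add_le_cst h5 h6
      rw [sub_add_cancel] at h7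
      rw [h1]
      have h8 : ν (Ex j f) ≤ nu2 v (lam * rho) lam N s f := by
        rw [hν]
        refine (nu2_Ex v hr0 hlam0.le N s j f).trans ?_
        exact PA2_mono v (pow_nonneg hr0 _) hrl hlam0.le le_rfl N s f
      refine h8.trans (h7.trans (le_of_eq ?_))
      ring
    have hκ1 : 1 ≤ cst v 2 * RB * kk ^ D :=
      one_le_mul_of_one_le_of_one_le (one_le_mul_of_one_le_of_one_le hc21 hRB1)
        (one_le_pow₀ hkk1)
    have hO' : ORD ρ W χ j b T (fun μ => (PowerSeries.C (Φ μ) : P2 L)) x0 := by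
      intro c' ε' l' β hβ
      have h := congrArg (PowerSeries.C (R := PowerSeries L)) (hO c' ε' l' β hβ)
      rw [map_sum, map_zero] at h
      rw [← h]
      refine Finset.sum_congr rfl fun μ _ => ?_
      rw [map_mul]
      show PowerSeries.C (Φ μ) * _ = _
      rw [PowerSeries.algebraMap_apply (A := PowerSeries L)]
    have hBd' : ∀ μ ∈ box (fun _ : Fin (k + 2) => b + 1), ν (PowerSeries.C (Φ μ)) ≤ Bd := by
      intro μ hμ
      rw [hν]
      show PA v _ lam s _ ≤ Bd
      rw [PA_C (SN_PN v hr0 N)]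
      exact hBd μ hμ
    have hmain := block_gain hSN' ρ hD W χ hb (fun μ => (PowerSeries.C (Φ μ) : P2 L)) x0 hO'
      hBd' hκ1 hdl0 hdl1 hkk1 (fun t => (hlk t).trans ((hkct t).trans hkkp))
      (fun t => by
        have h1 := le_mu (W t) v j ![x0 t, 1]
        have h2 : vn v ![x0 t, 1] = max 1 (v (x0 t)) := by
          unfold vn
          show max (v (x0 t)) (v 1) = _
          rw [map_one, max_comm]
        rw [h2] at h1
        refine h1.trans ?_
        apply mul_le_mul_of_nonneg_right _ (hvn0 t).le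
        exact pow_le_pow_left₀ (zero_le_one.trans (one_le_lc _ v))
          ((hlk t).trans ((hkct t).trans hkkp)) _)
      hvn0 (fun t => dr t dir (Ex j (u t))) (fun t => dr t dir (Ex j (ξ t))) c
      (fun t => dr t dir (Ex j (B t))) (fun t => dr t dir (Ex j (d t)))
      (fun t => max 1 (v (q t))) hXt1 hB' hd' hξ' hu'
      (fun t => (hνle t _).trans (((hsz t N s).1).trans
        (mul_le_mul_of_nonneg_right (hkct2 t) (by positivity))))
      (fun t => (hνle t _).trans (((hsz t N s).2).trans (by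
        apply div_le_div_of_nonneg_right _ (by positivity)
        exact mul_le_mul_of_nonneg_right (hkct2 t) (by positivity))))
      (hz _ (hD.1 0) (by rw [hRB]; exact z_le_RB (ρ.map (algebraMap K L)) v 0) hz0)
      (hz _ (hD.1 1) (by rw [hRB]; exact z_le_RB (ρ.map (algebraMap K L)) v 1) hz1)
    rw [← hSM, ← hX, ← hY, ← hRB, ← hZ] at hmain
    have h4 := PA_coeff_le (SN_PN v hr0 N) hlam0.le (le_refl s) SM
    have h5 : PN v r N (PowerSeries.coeff s SM) * lam ^ s ≤
        Bd * kp ^ (CF k D * (b * 4 ^ j)) * (Z * RB) ^ (2 * (CE k D * b)) *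
          Y ^ (2 * 4 ^ j) * X ^ b * dl ^ T := by
      refine h4.trans ?_
      have h6 : PA v (fun g : PowerSeries L => PN v r N g) lam s SM = ν SM := by rw [hν]
      rw [h6]
      refine hmain.trans ?_
      have hZR : 1 ≤ Z * RB := one_le_mul_of_one_le_of_one_le hZ1 hRB1
      have h7 : (Z * RB * (cst v 2 * RB * kk ^ D)) ^ (CE k D * b) ≤
          (Z * RB) ^ (2 * (CE k D * b)) * kk ^ ((D + 1) * (CE k D * b)) := by
        have h8 : Z * RB * (cst v 2 * RB * kk ^ D) ≤ (Z * RB) ^ 2 * kk ^ (D + 1) := by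
          have h9 : cst v 2 * RB * kk ^ D ≤ Z * RB * kk ^ (D + 1) := by
            have h10 : cst v 2 ≤ Z * kk := by
              calc cst v 2 ≤ kk := hc2.trans hkkp
                _ = 1 * kk := (one_mul _).symm
                _ ≤ Z * kk := mul_le_mul_of_nonneg_right hZ1 (by linarith)
            calc cst v 2 * RB * kk ^ D = cst v 2 * (RB * kk ^ D) := by ring
              _ ≤ Z * kk * (RB * kk ^ D) := mul_le_mul_of_nonneg_right h10 (by positivity)
              _ = Z * RB * kk ^ (D + 1) := by ring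
          calc Z * RB * (cst v 2 * RB * kk ^ D) ≤ Z * RB * (Z * RB * kk ^ (D + 1)) :=
                mul_le_mul_of_nonneg_left h9 (by positivity)
            _ = _ := by ring
        have h9 : 0 ≤ Z * RB * (cst v 2 * RB * kk ^ D) := by positivity
        refine (pow_le_pow_left₀ h9 h8 _).trans (le_of_eq ?_)
        rw [mul_pow, ← pow_mul, ← pow_mul]
      have h8 : kk ^ ((200 * (k + 2) + 2 * CE k D) * (b * 4 ^ j)) *
          kk ^ ((D + 1) * (CE k D * b)) ≤ kp ^ (CF k D * (b * 4 ^ j)) := by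
        rw [hkk, ← pow_mul, ← pow_mul, ← pow_add]
        refine pow_le_pow_right₀ hkp1 ?_
        have h9 : (D + 1) * (CE k D * b) ≤ (D + 1) * CE k D * (b * 4 ^ j) := by
          rw [mul_assoc]
          exact Nat.mul_le_mul_left _ (Nat.mul_le_mul_left _ hb4)
        have h10 : (200 * (k + 2) + 2 * CE k D) + (D + 1) * CE k D ≤
            200 * (k + 2) + ((k + 2) * D + 4) * CE k D := by
          have h11 : 2 * CE k D + (D + 1) * CE k D = (D + 3) * CE k D := by ring
          have h12 : (D + 3) * CE k D ≤ ((k + 2) * D + 4) * CE k D := by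
            apply Nat.mul_le_mul_right
            have : D ≤ (k + 2) * D := Nat.le_mul_of_pos_left D (by omega)
            omega
          omega
        calc 200 * ((200 * (k + 2) + 2 * CE k D) * (b * 4 ^ j)) +
              200 * ((D + 1) * (CE k D * b)) ≤
            200 * ((200 * (k + 2) + 2 * CE k D) * (b * 4 ^ j)) +
              200 * ((D + 1) * CE k D * (b * 4 ^ j)) :=
                Nat.add_le_add_left (Nat.mul_le_mul_left _ h9) _
          _ = 200 * (((200 * (k + 2) + 2 * CE k D) + (D + 1) * CE k D)) * (b * 4 ^ j) := by ring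
          _ ≤ 200 * (200 * (k + 2) + ((k + 2) * D + 4) * CE k D) * (b * 4 ^ j) :=
                Nat.mul_le_mul_right _ (Nat.mul_le_mul_left _ h10)
          _ = CF k D * (b * 4 ^ j) := rfl
      have h9 : 0 ≤ Bd * kk ^ ((200 * (k + 2) + 2 * CE k D) * (b * 4 ^ j)) := by positivity
      calc Bd * kk ^ ((200 * (k + 2) + 2 * CE k D) * (b * 4 ^ j)) *
            (Z * RB * (cst v 2 * RB * kk ^ D)) ^ (CE k D * b) * Y ^ (2 * 4 ^ j) * X ^ b *
            dl ^ T ≤
          Bd * kk ^ ((200 * (k + 2) + 2 * CE k D) * (b * 4 ^ j)) *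
            ((Z * RB) ^ (2 * (CE k D * b)) * kk ^ ((D + 1) * (CE k D * b))) *
              Y ^ (2 * 4 ^ j) * X ^ b * dl ^ T := by
            gcongr
        _ = Bd * (kk ^ ((200 * (k + 2) + 2 * CE k D) * (b * 4 ^ j)) *
            kk ^ ((D + 1) * (CE k D * b))) * (Z * RB) ^ (2 * (CE k D * b)) *
              Y ^ (2 * 4 ^ j) * X ^ b * dl ^ T := by ring
        _ ≤ _ := by gcongr
    have h6 : lam ^ s * (kk * X) ^ s = dl ^ s := by rw [← mul_pow, hlamk]
    have hdls : 0 < dl ^ s := by positivity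
    have h7 : PN v r N (PowerSeries.coeff s SM) * dl ^ s ≤
        Bd * kp ^ (CF k D * (b * 4 ^ j)) * (Z * RB) ^ (2 * (CE k D * b)) *
          Y ^ (2 * 4 ^ j) * X ^ b * (kk * X) ^ s * dl ^ (T - s) * dl ^ s := by
      calc PN v r N (PowerSeries.coeff s SM) * dl ^ s =
          PN v r N (PowerSeries.coeff s SM) * lam ^ s * (kk * X) ^ s := by
            rw [← h6]
            ring
        _ ≤ Bd * kp ^ (CF k D * (b * 4 ^ j)) * (Z * RB) ^ (2 * (CE k D * b)) *
          Y ^ (2 * 4 ^ j) * X ^ b * dl ^ T * (kk * X) ^ s :=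
            mul_le_mul_of_nonneg_right h5 (by positivity)
        _ = _ := by
            rw [show dl ^ T = dl ^ (T - s) * dl ^ s by
              rw [← pow_add, Nat.sub_add_cancel hsT.le]]
            ring
    exact le_of_mul_le_mul_right h7 hdls

end Pool.Agent.Lib.MP_17a322_nt.VN
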