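import Pool.Agent.Lib.MP_17a322_nt.VN.L1l
import Pool.Agent.Lib.MP_17a322_nt.VN.L1o

/-!
# JOB L1r: radii

Notation: `σ`, `β : Fin n → L` with `β t ^ 2 = ph (W t) (vc (χ t) (σ t))`, `β t ≠ 0`.

PROOFS.
`vn_vc`: `vn v (vc c x) = max 1 (v x)` in both cases (`max_comm`).
`beta_le`: `v (β t) ^ 2 = v (ph ..) ≤ lc ^ 16 * vn ^ 4` (`ph_size` (VJ/E2) for the seminorm `v`, `SN_self`) `≤ (kc ^ 8 * vn ^ 2) ^ 2`; `abs_le_of_sq_le` or `pow_le_pow_left₀` contraposition.
`ro_*`: each factor `f t = v (β t) ^ 2 / (kc ^ 40 * vn ^ 4)` is positive and `≤ 1` (`beta_le`, `1 ≤ kc`), so the product is `≤` each factor (`Finset.prod_le_one`, `Finset.mul_prod_erase`).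
`NV_pderiv`: every coefficient of `pderiv d g` at `e` is `coeff (e + single d 1) g * (e d + 1)` (`coeff_pderiv` or `pderiv_monomial`), and `e + single d 1` in the support of `g` gives
`e d + 1 ≤ D`; `v ((e d + 1 : ℕ) : L) ≤ cst v D` (`SN.nsmul_le` VJ/A1; nonarchimedean: `≤ 1`) `≤ cst v (2 ^ D)` (`cst_mono`). Archimedean case: the sum over the support of
`pderiv d g` is at most `cst v (2 ^ D) *` the sum over the support of `g` by the injection `e ↦ e + single d 1` (compare the proof of `NV_le_of_injOn`, VJ/A2). `map` commutes with `pderiv` (`pderiv_map`);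
`map g = 0` or `D = 0` are allowed (then `pderiv d g = 0`).
`bg_deriv`: `SN.aeval_le'` (VJ/A3) with `max 1 (ν (x t)) ≤ cst v 2 * max 1 (v (σ t))`, and `NV_pderiv`.
`bg_le`: `1 ≤ cst v (2 ^ D)`.
`bg_pos`: `NV_pos`, `map` injective.
`r1_*`: `bg_deriv` for the seminorm `v` on `L` and `x = σ` (`v (σ t) ≤ cst v 2 * max 1 (v (σ t))`).
`g2_le_one`: `v (∂ * β) ≤ bg * (kc ^ 8 * max 1 (v (σ d)) ^ 2)` (`bg_deriv`, `beta_le`), one factor of the product `≤` the product.
`g2_inv`: `f = aeval S (pderiv d g) * (± Y d)`; size at `rho`: `≤ bg * (cst v 2 * v (β d)) ≤ B2 := bg * cst v 2 * ∏ t, (kc ^ 8 * max 1 (v (σ t)) ^ 2)` (`bg_deriv` for `SN_PN`). `constantCoeff f = ± ∂ * β d`, whose absolute value is the maximum.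
`PN_inv` (L1d) with `lam = g2` gives `PN v (g2 * rho) n fi ≤ cst v 2 / v (..)`; `PN_expand` (L1c) and `PN_mono_radius` for the substitution `Ex1 L j`.
-/

namespace Pool.Agent.Lib.MP_17a322_nt.VN

open MvPolynomial Height
open Pool.Agent.Lib.MP_17a322_nt.RO
open Pool.Agent.Lib.MP_17a322_nt.VJ

section

variable {K L : Type*} [Field K] [Field L] [Algebra K L] {n : ℕ}

private theorem L1r_kc_pos (W : WeierstrassCurve K) (v : AbsoluteValue L ℝ) : 0 < kc W v :=
  one_pos.trans_le (one_le_kc W v)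

private theorem L1r_max_pos (v : AbsoluteValue L ℝ) (x : L) : 0 < max 1 (v x) :=
  one_pos.trans_le (le_max_left _ _)

private theorem L1r_nat (v : AbsoluteValue L ℝ) (k : ℕ) : v (k : L) ≤ cst v k := by
  have h := (SN_self v).nsmul_le k (1 : L)
  have h1 : v ((k : L) * 1) ≤ cst v k * v 1 := h
  rw [mul_one, v.map_one, mul_one] at h1
  exact h1

theorem vn_vc (v : AbsoluteValue L ℝ) (c : Bool) (x : L) : vn v (vc c x) = max 1 (v x) := by
  cases c with
  | true =>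
    have h0 : (vc true x : Fin 2 → L) 0 = 1 := rfl
    have h1 : (vc true x : Fin 2 → L) 1 = x := rfl
    unfold vn
    rw [h0, h1, v.map_one]
  | false =>
    have h0 : (vc false x : Fin 2 → L) 0 = x := rfl
    have h1 : (vc false x : Fin 2 → L) 1 = 1 := rfl
    unfold vn
    rw [h0, h1, v.map_one, max_comm]

theorem beta_le (W : WeierstrassCurve K) (v : AbsoluteValue L ℝ) (c : Bool) {x y : L}
    (h : y ^ 2 = ph W (vc c x)) : v y ≤ kc W v ^ 8 * max 1 (v x) ^ 2 := by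
  have hk := L1r_kc_pos W v
  have hm := L1r_max_pos v x
  have hl0 : 0 ≤ lc W v := zero_le_one.trans (one_le_lc W v)
  have hr : ∀ i, v ((vc c x : Fin 2 → L) i) ≤ max 1 (v x) := by
    intro i
    rw [← vn_vc v c x]
    unfold vn
    fin_cases i
    · exact le_max_left _ _
    · exact le_max_right _ _
  have h1 : v (ph W (vc c x)) ≤ lc W v ^ 16 * max 1 (v x) ^ 4 := ph_size W (SN_self v) (vc c x) hr
  have h2 : v y ^ 2 ≤ (kc W v ^ 8 * max 1 (v x) ^ 2) ^ 2 := by
    rw [← map_pow, h]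
    refine h1.trans ?_
    have e : (kc W v ^ 8 * max 1 (v x) ^ 2) ^ 2 = kc W v ^ 16 * max 1 (v x) ^ 4 := by ring
    rw [e]
    exact mul_le_mul_of_nonneg_right (pow_le_pow_left₀ hl0 (lc_le_kc W v) 16) (pow_nonneg hm.le 4)
  exact (pow_le_pow_iff_left₀ (v.nonneg y) (mul_nonneg (pow_nonneg hk.le 8) (pow_nonneg hm.le 2))
    two_ne_zero).1 h2

/-- The factor of the radius from the square roots. -/
noncomputable def ro (W : Fin n → WeierstrassCurve K) (v : AbsoluteValue L ℝ) (σ β : Fin n → L) :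
    ℝ :=
  ∏ t, (v (β t) ^ 2 / (kc (W t) v ^ 40 * max 1 (v (σ t)) ^ 4))

theorem ro_pos (W : Fin n → WeierstrassCurve K) (v : AbsoluteValue L ℝ) (σ β : Fin n → L)
    (h0 : ∀ t, β t ≠ 0) : 0 < ro W v σ β := by
  unfold ro
  exact Finset.prod_pos fun t _ => div_pos (pow_pos (v.pos (h0 t)) 2)
    (mul_pos (pow_pos (L1r_kc_pos (W t) v) 40) (pow_pos (L1r_max_pos v (σ t)) 4))

theorem ro_le (W : Fin n → WeierstrassCurve K) (χ : Fin n → Bool) (v : AbsoluteValue L ℝ)
    (σ β : Fin n → L) (hβ : ∀ t, β t ^ 2 = ph (W t) (vc (χ t) (σ t))) :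
    ro W v σ β ≤ 1 ∧ ∀ t, ro W v σ β * (kc (W t) v ^ 40 * vn v (vc (χ t) (σ t)) ^ 4) ≤
      v (β t) ^ 2 := by
  classical
  have hpos : ∀ t, 0 < kc (W t) v ^ 40 * max 1 (v (σ t)) ^ 4 := fun t =>
    mul_pos (pow_pos (L1r_kc_pos (W t) v) 40) (pow_pos (L1r_max_pos v (σ t)) 4)
  have hf0 : ∀ t, 0 ≤ v (β t) ^ 2 / (kc (W t) v ^ 40 * max 1 (v (σ t)) ^ 4) := fun t =>
    div_nonneg (pow_nonneg (v.nonneg _) 2) (hpos t).le
  have hf1 : ∀ t, v (β t) ^ 2 / (kc (W t) v ^ 40 * max 1 (v (σ t)) ^ 4) ≤ 1 := by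
    intro t
    rw [div_le_one (hpos t)]
    have h1 := beta_le (W t) v (χ t) (hβ t)
    have hk := one_le_kc (W t) v
    calc v (β t) ^ 2 ≤ (kc (W t) v ^ 8 * max 1 (v (σ t)) ^ 2) ^ 2 :=
          pow_le_pow_left₀ (v.nonneg _) h1 2
      _ = kc (W t) v ^ 16 * max 1 (v (σ t)) ^ 4 := by ring
      _ ≤ kc (W t) v ^ 40 * max 1 (v (σ t)) ^ 4 :=
          mul_le_mul_of_nonneg_right (pow_le_pow_right₀ hk (by norm_num))
            (pow_nonneg (L1r_max_pos v (σ t)).le 4)
  have hle : ∀ t, ro W v σ β ≤ v (β t) ^ 2 / (kc (W t) v ^ 40 * max 1 (v (σ t)) ^ 4) := by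
    intro t
    unfold ro
    rw [← Finset.mul_prod_erase Finset.univ _ (Finset.mem_univ t)]
    exact mul_le_of_le_one_right (hf0 t) (Finset.prod_le_one (fun i _ => hf0 i) (fun i _ => hf1 i))
  refine ⟨?_, fun t => ?_⟩
  · unfold ro
    exact Finset.prod_le_one (fun i _ => hf0 i) (fun i _ => hf1 i)
  · rw [vn_vc]
    calc ro W v σ β * (kc (W t) v ^ 40 * max 1 (v (σ t)) ^ 4) ≤
          v (β t) ^ 2 / (kc (W t) v ^ 40 * max 1 (v (σ t)) ^ 4) *
            (kc (W t) v ^ 40 * max 1 (v (σ t)) ^ 4) :=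
          mul_le_mul_of_nonneg_right (hle t) (hpos t).le
      _ = v (β t) ^ 2 := div_mul_cancel₀ _ (hpos t).ne'

theorem NV_pderiv (v : AbsoluteValue L ℝ) (g : MvPolynomial (Fin n) K) (D : ℕ)
    (hD : ∀ t, g.degreeOf t ≤ D) (d : Fin n) :
    NV v (MvPolynomial.map (algebraMap K L) (pderiv d g)) ≤
      cst v (2 ^ D) * NV v (MvPolynomial.map (algebraMap K L) g) := by
  classical
  rw [← pderiv_map]
  have hG : ∀ m ∈ (MvPolynomial.map (algebraMap K L) g).support, m d ≤ D := fun m hm =>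
    (monomial_le_degreeOf d (support_map_subset _ _ hm)).trans (hD d)
  revert hG
  generalize MvPolynomial.map (algebraMap K L) g = G
  intro hG
  have hc : 0 ≤ cst v (2 ^ D) := cst_nonneg v _
  have hN : 0 ≤ NV v G := A2_nonneg v G
  have key : ∀ e : Fin n →₀ ℕ, v (coeff e (pderiv d G)) ≤
      cst v (2 ^ D) * v (coeff (e + Finsupp.single d 1) G) := by
    intro e
    rw [coeff_pderiv, map_mul]
    by_cases he : e + Finsupp.single d 1 ∈ G.support
    · have h1 := hG _ he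
      have h2 : (e + Finsupp.single d 1 : Fin n →₀ ℕ) d = e d + 1 := by
        rw [Finsupp.add_apply, Finsupp.single_eq_same]
      rw [h2] at h1
      have h3 : v ((e d : L) + 1) ≤ cst v (2 ^ D) := by
        have h4 := L1r_nat v (e d + 1)
        rw [Nat.cast_add, Nat.cast_one] at h4
        exact h4.trans (cst_mono v (h1.trans Nat.lt_two_pow_self.le))
      rw [mul_comm (cst v (2 ^ D))]
      exact mul_le_mul_of_nonneg_left h3 (v.nonneg _)
    · rw [notMem_support_iff.1 he, map_zero, zero_mul, mul_zero]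
  by_cases hv : IsNonarchimedean v
  · rw [A2_na hv (pderiv d G)]
    exact ciSup_le fun e => (key e).trans (mul_le_mul_of_nonneg_left (A2_coeff_le v G _) hc)
  · rw [A2_ar hv (pderiv d G), A2_ar hv G]
    refine (Finset.sum_le_sum fun e _ => key e).trans ?_
    rw [← Finset.mul_sum]
    refine mul_le_mul_of_nonneg_left ?_ hc
    have h1 : ∑ e ∈ (pderiv d G).support, v (coeff (e + Finsupp.single d 1) G) =
        ∑ m ∈ (pderiv d G).support.image (fun e => e + Finsupp.single d 1), v (coeff m G) := by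
      rw [Finset.sum_image]
      intro a _ b _ hab
      exact add_right_cancel hab
    rw [h1]
    refine Finset.sum_le_sum_of_subset_of_nonneg ?_ (fun m _ _ => v.nonneg _)
    intro m hm
    obtain ⟨e, he, rfl⟩ := Finset.mem_image.1 hm
    rw [mem_support_iff] at he ⊢
    intro h0
    apply he
    rw [coeff_pderiv, h0, zero_mul]

/-- Bound of the derivatives of `g`. -/
noncomputable def bg (v : AbsoluteValue L ℝ) (g : MvPolynomial (Fin n) K) (D : ℕ)
    (σ : Fin n → L) : ℝ :=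
  cst v (2 ^ D) * NV v (MvPolynomial.map (algebraMap K L) g) *
    ∏ t, (cst v 2 * max 1 (v (σ t))) ^ D

theorem bg_pos (v : AbsoluteValue L ℝ) {g : MvPolynomial (Fin n) K} (hg : g ≠ 0) (D : ℕ)
    (σ : Fin n → L) : 0 < bg v g D σ := by
  have h1 : 0 < cst v (2 ^ D) := one_pos.trans_le (one_le_cst v Nat.one_le_two_pow)
  have h2 : 0 < cst v 2 := one_pos.trans_le (one_le_cst v one_le_two)
  have h3 : MvPolynomial.map (algebraMap K L) g ≠ 0 := by
    intro h0
    apply hg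
    exact MvPolynomial.map_injective (algebraMap K L) (algebraMap K L).injective
      (by rw [h0, map_zero])
  unfold bg
  exact mul_pos (mul_pos h1 (NV_pos v h3)) (Finset.prod_pos fun t _ =>
    pow_pos (mul_pos h2 (L1r_max_pos v (σ t))) D)

private theorem L1r_prod_nonneg (v : AbsoluteValue L ℝ) (D : ℕ) (σ : Fin n → L) :
    0 ≤ ∏ t, (cst v 2 * max 1 (v (σ t))) ^ D :=
  Finset.prod_nonneg fun t _ => pow_nonneg (mul_nonneg (cst_nonneg v 2) (L1r_max_pos v (σ t)).le) D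

theorem bg_le (v : AbsoluteValue L ℝ) (g : MvPolynomial (Fin n) K) (D : ℕ) (σ : Fin n → L) :
    NV v (MvPolynomial.map (algebraMap K L) g) * ∏ t, (cst v 2 * max 1 (v (σ t))) ^ D ≤
      bg v g D σ := by
  unfold bg
  refine mul_le_mul_of_nonneg_right ?_ (L1r_prod_nonneg v D σ)
  exact le_mul_of_one_le_left (A2_nonneg v _) (one_le_cst v Nat.one_le_two_pow)

theorem bg_deriv {v : AbsoluteValue L ℝ} {A : Type*} [CommRing A] [Algebra L A] [Algebra K A]
    [IsScalarTower K L A] {ν : A → ℝ} (h : SN v ν) (g : MvPolynomial (Fin n) K) (D : ℕ)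
    (hD : ∀ t, g.degreeOf t ≤ D) (σ : Fin n → L) (x : Fin n → A)
    (hx : ∀ t, ν (x t) ≤ cst v 2 * max 1 (v (σ t))) (d : Fin n) :
    ν (aeval x (pderiv d g)) ≤ bg v g D σ := by
  have hdeg : ∀ t, (pderiv d g).degreeOf t ≤ D := by
    intro t
    rw [degreeOf_le_iff]
    intro m hm
    have h1 : m + Finsupp.single d 1 ∈ g.support := by
      rw [mem_support_iff] at hm ⊢
      intro h0
      apply hm
      rw [coeff_pderiv, h0, zero_mul]
    have h2 := (monomial_le_degreeOf t h1).trans (hD t)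
    rw [Finsupp.add_apply] at h2
    omega
  have h1 := h.aeval_le' (pderiv d g) (fun _ => D) hdeg x
  refine h1.trans ?_
  unfold bg
  refine mul_le_mul (NV_pderiv v g D hD d) ?_ (Finset.prod_nonneg fun t _ =>
    pow_nonneg (zero_le_one.trans (le_max_left _ _)) _)
    (mul_nonneg (cst_nonneg v _) (A2_nonneg v _))
  refine Finset.prod_le_prod (fun t _ => pow_nonneg (zero_le_one.trans (le_max_left _ _)) _)
    fun t _ => ?_
  refine pow_le_pow_left₀ (zero_le_one.trans (le_max_left _ _)) (max_le ?_ (hx t)) D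
  exact one_le_mul_of_one_le_of_one_le (one_le_cst v one_le_two) (le_max_left _ _)

private theorem L1r_self_le (v : AbsoluteValue L ℝ) (x : L) : v x ≤ cst v 2 * max 1 (v x) :=
  (le_max_right 1 (v x)).trans
    (le_mul_of_one_le_left (L1r_max_pos v x).le (one_le_cst v one_le_two))

private theorem L1r_deriv_le (v : AbsoluteValue L ℝ) (g : MvPolynomial (Fin n) K) (D : ℕ)
    (hD : ∀ t, g.degreeOf t ≤ D) (σ : Fin n → L) (d : Fin n) :
    v (aeval σ (pderiv d g)) ≤ bg v g D σ :=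
  bg_deriv (SN_self v) g D hD σ σ (fun t => L1r_self_le v (σ t)) d

/-- The radius of the implicit function. -/
noncomputable def r1 (v : AbsoluteValue L ℝ) (g : MvPolynomial (Fin n) K) (D : ℕ)
    (σ : Fin n → L) (r : Fin n) : ℝ :=
  (v (aeval σ (pderiv r g)) / bg v g D σ) ^ 2

theorem r1_spec (v : AbsoluteValue L ℝ) {g : MvPolynomial (Fin n) K} (hg : g ≠ 0) (D : ℕ)
    (hD : ∀ t, g.degreeOf t ≤ D) (σ : Fin n → L) (r : Fin n) (h0 : aeval σ (pderiv r g) ≠ 0) :
    0 < r1 v g D σ r ∧ r1 v g D σ r ≤ 1 ∧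
      r1 v g D σ r * (NV v (MvPolynomial.map (algebraMap K L) g) *
        ∏ t, (cst v 2 * max 1 (v (σ t))) ^ D) ^ 2 ≤ v (aeval σ (pderiv r g)) ^ 2 := by
  have hb := bg_pos v hg D σ
  have ha := v.pos h0
  have hN : 0 ≤ NV v (MvPolynomial.map (algebraMap K L) g) *
      ∏ t, (cst v 2 * max 1 (v (σ t))) ^ D := mul_nonneg (A2_nonneg v _) (L1r_prod_nonneg v D σ)
  have hq : 0 ≤ v (aeval σ (pderiv r g)) / bg v g D σ := (div_pos ha hb).le
  unfold r1
  refine ⟨pow_pos (div_pos ha hb) 2, pow_le_one₀ hq ?_, ?_⟩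
  · rw [div_le_one hb]
    exact L1r_deriv_le v g D hD σ r
  · rw [← mul_pow]
    refine pow_le_pow_left₀ (mul_nonneg hq hN) ?_ 2
    calc v (aeval σ (pderiv r g)) / bg v g D σ * (NV v (MvPolynomial.map (algebraMap K L) g) *
          ∏ t, (cst v 2 * max 1 (v (σ t))) ^ D) ≤
          v (aeval σ (pderiv r g)) / bg v g D σ * bg v g D σ :=
          mul_le_mul_of_nonneg_left (bg_le v g D σ) hq
      _ = v (aeval σ (pderiv r g)) := div_mul_cancel₀ _ hb.ne'

private theorem L1r_one_le_fac (W : Fin n → WeierstrassCurve K) (v : AbsoluteValue L ℝ)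
    (σ : Fin n → L) (t : Fin n) : 1 ≤ kc (W t) v ^ 8 * max 1 (v (σ t)) ^ 2 :=
  one_le_mul_of_one_le_of_one_le (one_le_pow₀ (one_le_kc (W t) v)) (one_le_pow₀ (le_max_left _ _))

private theorem L1r_beta_prod (W : Fin n → WeierstrassCurve K) (χ : Fin n → Bool)
    (v : AbsoluteValue L ℝ) (σ β : Fin n → L)
    (hβ : ∀ t, β t ^ 2 = ph (W t) (vc (χ t) (σ t))) (t : Fin n) :
    v (β t) ≤ ∏ t, (kc (W t) v ^ 8 * max 1 (v (σ t)) ^ 2) := by
  classical
  exact (beta_le (W t) v (χ t) (hβ t)).trans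
    (E1_le_prod Finset.univ (fun t => kc (W t) v ^ 8 * max 1 (v (σ t)) ^ 2)
      (L1r_one_le_fac W v σ) (Finset.mem_univ t))

private theorem L1r_den_pos (W : Fin n → WeierstrassCurve K) (v : AbsoluteValue L ℝ)
    {g : MvPolynomial (Fin n) K} (hg : g ≠ 0) (D : ℕ) (σ : Fin n → L) :
    0 < cst v 2 * (bg v g D σ * cst v 2 * ∏ t, (kc (W t) v ^ 8 * max 1 (v (σ t)) ^ 2)) := by
  have h2 : 0 < cst v 2 := one_pos.trans_le (one_le_cst v one_le_two)
  exact mul_pos h2 (mul_pos (mul_pos (bg_pos v hg D σ) h2)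
    (Finset.prod_pos fun t _ => one_pos.trans_le (L1r_one_le_fac W v σ t)))

/-- The factor of the radius from the inverse of the derivatives. -/
noncomputable def g2 (W : Fin n → WeierstrassCurve K) (v : AbsoluteValue L ℝ)
    (g : MvPolynomial (Fin n) K) (D : ℕ) (σ β : Fin n → L) (r l : Fin n) : ℝ :=
  max (v (aeval σ (pderiv l g) * β l)) (v (aeval σ (pderiv r g) * β r)) /
    (cst v 2 * (bg v g D σ * cst v 2 * ∏ t, (kc (W t) v ^ 8 * max 1 (v (σ t)) ^ 2)))

theorem g2_spec (W : Fin n → WeierstrassCurve K) (χ : Fin n → Bool) (v : AbsoluteValue L ℝ)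
    {g : MvPolynomial (Fin n) K} (hg : g ≠ 0) (D : ℕ) (hD : ∀ t, g.degreeOf t ≤ D)
    (σ β : Fin n → L) (hβ : ∀ t, β t ^ 2 = ph (W t) (vc (χ t) (σ t))) (h0 : ∀ t, β t ≠ 0)
    (r l : Fin n) (hr : aeval σ (pderiv r g) ≠ 0) :
    0 < g2 W v g D σ β r l ∧ g2 W v g D σ β r l ≤ 1 := by
  have hden := L1r_den_pos W v hg D σ
  have h2 : 1 ≤ cst v 2 := one_le_cst v one_le_two
  have hb := bg_pos v hg D σ
  have hP : 0 < ∏ t, (kc (W t) v ^ 8 * max 1 (v (σ t)) ^ 2) :=
    Finset.prod_pos fun t _ => one_pos.trans_le (L1r_one_le_fac W v σ t)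
  have hle : ∀ t, v (aeval σ (pderiv t g) * β t) ≤
      cst v 2 * (bg v g D σ * cst v 2 * ∏ t, (kc (W t) v ^ 8 * max 1 (v (σ t)) ^ 2)) := by
    intro t
    rw [map_mul]
    calc v (aeval σ (pderiv t g)) * v (β t) ≤
          bg v g D σ * ∏ t, (kc (W t) v ^ 8 * max 1 (v (σ t)) ^ 2) :=
          mul_le_mul (L1r_deriv_le v g D hD σ t) (L1r_beta_prod W χ v σ β hβ t) (v.nonneg _) hb.le
      _ ≤ bg v g D σ * cst v 2 * ∏ t, (kc (W t) v ^ 8 * max 1 (v (σ t)) ^ 2) :=
          mul_le_mul_of_nonneg_right (le_mul_of_one_le_right hb.le h2) hP.le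
      _ ≤ _ := le_mul_of_one_le_left
          (mul_nonneg (mul_nonneg hb.le (zero_le_one.trans h2)) hP.le) h2
  unfold g2
  refine ⟨div_pos (lt_max_of_lt_right (v.pos (mul_ne_zero hr (h0 r)))) hden, ?_⟩
  rw [div_le_one hden]
  exact max_le (hle l) (hle r)

/-- The direction of the larger derivative. -/
noncomputable def dd (v : AbsoluteValue L ℝ) (g : MvPolynomial (Fin n) K) (σ β : Fin n → L)
    (r l : Fin n) : Fin n :=
  open Classical in
  if v (aeval σ (pderiv l g) * β l) ≤ v (aeval σ (pderiv r g) * β r) then r else l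

theorem dd_spec (v : AbsoluteValue L ℝ) (g : MvPolynomial (Fin n) K) (σ β : Fin n → L)
    (r l : Fin n) : (dd v g σ β r l = r ∨ dd v g σ β r l = l) ∧
      v (aeval σ (pderiv (dd v g σ β r l) g) * β (dd v g σ β r l)) =
        max (v (aeval σ (pderiv l g) * β l)) (v (aeval σ (pderiv r g) * β r)) := by
  unfold dd
  split_ifs with h
  · exact ⟨Or.inl rfl, (max_eq_right h).symm⟩
  · exact ⟨Or.inr rfl, (max_eq_left (not_le.1 h).le).symm⟩

private theorem L1r_const (F : MvPolynomial (Fin n) K) (S : Fin n → PowerSeries L)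
    (σ : Fin n → L) (hS0 : ∀ t, PowerSeries.constantCoeff (S t) = σ t) :
    PowerSeries.constantCoeff (aeval S F) = aeval σ F := by
  rw [map_aeval]
  have h1 : (PowerSeries.constantCoeff (R := L)).comp (algebraMap K (PowerSeries L)) =
      algebraMap K L := by
    ext a
    rw [RingHom.comp_apply, PowerSeries.algebraMap_apply, PowerSeries.constantCoeff_C]
  rw [h1]
  have h2 : (fun t => PowerSeries.constantCoeff (S t)) = σ := funext hS0
  rw [h2]
  rfl

theorem g2_inv (W : Fin n → WeierstrassCurve K) (χ : Fin n → Bool) (v : AbsoluteValue L ℝ)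
    {g : MvPolynomial (Fin n) K} (hg : g ≠ 0) (D : ℕ) (hD : ∀ t, g.degreeOf t ≤ D)
    (σ β : Fin n → L) (hβ : ∀ t, β t ^ 2 = ph (W t) (vc (χ t) (σ t))) (h0 : ∀ t, β t ≠ 0)
    (r l : Fin n) (hr : aeval σ (pderiv r g) ≠ 0) (S Y : Fin n → PowerSeries L)
    (hS0 : ∀ t, PowerSeries.constantCoeff (S t) = σ t)
    (hY0 : ∀ t, PowerSeries.constantCoeff (Y t) = β t) {rho : ℝ} (hrho : 0 ≤ rho)
    (hS : ∀ t n', PN v rho n' (S t) ≤ cst v 2 * max 1 (v (σ t)))
    (hY : ∀ t n', PN v rho n' (Y t) ≤ cst v 2 * v (β t)) (j : ℕ) (gi : PowerSeries L)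
    (hgi : Ex1 L j (aeval S (pderiv (dd v g σ β r l) g) *
      (if χ (dd v g σ β r l) then Y (dd v g σ β r l) else -Y (dd v g σ β r l))) * gi = 1)
    (x : ℝ) (hx : 0 ≤ x) (hx1 : x ^ (4 ^ j) ≤ g2 W v g D σ β r l * rho) (n' : ℕ) :
    PN v x n' gi ≤ cst v 2 /
      max (v (aeval σ (pderiv l g) * β l)) (v (aeval σ (pderiv r g) * β r)) := by
  obtain ⟨_, hdd⟩ := dd_spec v g σ β r l
  obtain ⟨hg0, hg1⟩ := g2_spec W χ v hg D hD σ β hβ h0 r l hr
  have hden := L1r_den_pos W v hg D σ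
  revert hgi hdd
  generalize dd v g σ β r l = d
  intro hgi hdd
  have hM : 0 < max (v (aeval σ (pderiv l g) * β l)) (v (aeval σ (pderiv r g) * β r)) :=
    lt_max_of_lt_right (v.pos (mul_ne_zero hr (h0 r)))
  have hb := bg_pos v hg D σ
  have h2 : 0 ≤ cst v 2 := cst_nonneg v 2
  obtain ⟨Z, hZ, hZ0, hZs⟩ : ∃ Z : PowerSeries L, (if χ d then Y d else -Y d) = Z ∧
      v (PowerSeries.constantCoeff Z) = v (β d) ∧ ∀ m, PN v rho m Z ≤ cst v 2 * v (β d) := by
    refine ⟨_, rfl, ?_, ?_⟩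
    · split_ifs
      · rw [hY0]
      · rw [map_neg, v.map_neg, hY0]
    · intro m
      split_ifs
      · exact hY d m
      · have h3 : PN v rho m (-Y d) = PN v rho m (Y d) := (SN_PN v hrho m).neg (Y d)
        rw [h3]
        exact hY d m
  rw [hZ] at hgi
  have hf0 : v (PowerSeries.constantCoeff (aeval S (pderiv d g) * Z)) =
      max (v (aeval σ (pderiv l g) * β l)) (v (aeval σ (pderiv r g) * β r)) := by
    rw [map_mul, L1r_const (pderiv d g) S σ hS0, map_mul, hZ0, ← map_mul, hdd]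
  have hB : ∀ m, PN v rho m (aeval S (pderiv d g) * Z) ≤
      bg v g D σ * cst v 2 * ∏ t, (kc (W t) v ^ 8 * max 1 (v (σ t)) ^ 2) := by
    intro m
    have h3 : PN v rho m (aeval S (pderiv d g) * Z) ≤
        PN v rho m (aeval S (pderiv d g)) * PN v rho m Z := (SN_PN v hrho m).mul _ _
    have h4 : PN v rho m (aeval S (pderiv d g)) ≤ bg v g D σ :=
      bg_deriv (SN_PN v hrho m) g D hD σ S (fun t => hS t m) d
    have h5 : 0 ≤ PN v rho m Z := (SN_PN v hrho m).nonneg Z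
    calc PN v rho m (aeval S (pderiv d g) * Z) ≤
          PN v rho m (aeval S (pderiv d g)) * PN v rho m Z := h3
      _ ≤ bg v g D σ * (cst v 2 * v (β d)) := mul_le_mul h4 (hZs m) h5 hb.le
      _ = bg v g D σ * cst v 2 * v (β d) := (mul_assoc _ _ _).symm
      _ ≤ _ := mul_le_mul_of_nonneg_left (L1r_beta_prod W χ v σ β hβ d) (mul_nonneg hb.le h2)
  revert hf0 hB hgi
  generalize aeval S (pderiv d g) * Z = f
  intro hgi hf0 hB
  have hfne : PowerSeries.constantCoeff f ≠ 0 := by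
    intro h3
    rw [h3, map_zero] at hf0
    exact hM.ne hf0
  have hinv : f * f⁻¹ = 1 := PowerSeries.mul_inv_cancel f hfne
  have hgi2 : gi = Ex1 L j f⁻¹ := by
    have h3 : Ex1 L j f * Ex1 L j f⁻¹ = 1 := by rw [← map_mul, hinv, map_one]
    calc gi = gi * (Ex1 L j f * Ex1 L j f⁻¹) := by rw [h3, mul_one]
      _ = (Ex1 L j f * gi) * Ex1 L j f⁻¹ := by ring
      _ = Ex1 L j f⁻¹ := by rw [hgi, one_mul]
  have hlam : g2 W v g D σ β r l *
      (cst v 2 * (bg v g D σ * cst v 2 * ∏ t, (kc (W t) v ^ 8 * max 1 (v (σ t)) ^ 2))) ≤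
      v (PowerSeries.constantCoeff f) := by
    rw [hf0]
    unfold g2
    rw [div_mul_cancel₀ _ hden.ne']
  have h3 : PN v (g2 W v g D σ β r l * rho) n' f⁻¹ ≤
      cst v 2 / v (PowerSeries.constantCoeff f) :=
    PN_inv v hrho hg0.le hg1 f f⁻¹ hinv hB hlam n'
  rw [hf0] at h3
  rw [hgi2]
  have h4 : PN v x n' (Ex1 L j f⁻¹) ≤ PN v (x ^ (4 ^ j)) n' f⁻¹ :=
    PN_expand v hx (pow_ne_zero j four_ne_zero) n' f⁻¹
  exact h4.trans ((PN_mono_radius v (pow_nonneg hx _) hx1 n' f⁻¹).trans h3)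

end

end Pool.Agent.Lib.MP_17a322_nt.VN
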