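import Pool.Agent.Lib.MP_17a322_nt.VN.L1n
import Pool.Agent.Lib.MP_17a322_nt.VN.L1r
import Pool.Agent.Lib.MP_17a322_nt.VN.BC
import Pool.Agent.Lib.MP_17a322_nt.VN.C07
import Pool.Agent.Lib.MP_17a322_nt.VJ.A7
import Pool.Agent.Lib.MP_17a322_nt.VJ.E6

/-!
# JOB L1t: transport of relations, all coordinates together, the inequality over `K`

PROOFS.
`pS_const`: `N` is a sum of monomials without the variables `vZ p` (`degreeOf = 0`: `degreeOf_eq_zero_iff`/`monomial_le_degreeOf`); each is mapped to a constant. (Or: `aeval` of both sides agree on `MvPolynomial.vars`: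
`eval₂Hom_congr'`/`MvPolynomial.aeval_def` with `C ∘ ..`.)
`rel_two`: apply the ring homomorphism `PowerSeries.map (Ex1 L j')` to the relation; `map_SV`/`map_ph`/`map_mu` (VJ/E3; there may be `map_S3`, otherwise unfold `S3`, `QF` and use `map_SV`); `M2 M = fun i => C (C (M i))`,
`mu W j ![C (C x), 1] = fun i => C (C (mu W j ![x, 1] i))` (`map_mu` for the `K`-algebra homomorphism `C ∘ C`). `Ex1 L j' (C a) = C a`.
`rel_one`: apply moreover `constantCoeff`.
`CH_map`: `PB`: `(f P).xRep i = algebraMap K L (P.xRep i)`; the image of the vector `vc χ s` is `vc χ (algebraMap K L s)`.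
`CH_height`: `logHeight (c • x) = logHeight x` (Mathlib `Height.logHeight_smul_eq_logHeight`; compare `logHeight_xRep`, VJ/E6), `logHeight ![1, s] = logHeight ![s, 1] = logHeight₁ s` (RO/RV libraries).
`gn_bound`: `gn_le_ht`, `gn_le_ht'` (BC): `gn ≤ logHeight₁ (eval s (z i))` for the one which is not zero; `v (eval s z) ≤ NV v z * ∏ (max 1 (v (s t))) ^ D` (`SN.aeval_le`, VJ/A3, `SN_self`), so `max 1 (v (eval s z)) ≤ RB v * ∏ ..`
(`z_le_RB`, `one_le_RB`, VN/C07), `gs_log_max`.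
`pack_all`: `pack` (L1n) for every `(i, t)` with `r₁ := r₁ i` and choice (`choose`); `ro_le` (L1r): `r₁ * ro * (kc ^ 40 * vn ^ 4) ≤ r₁ * v β ^ 2`.
`conv_ineq`: real arithmetic: insert the upper bounds into the inequality `h`, everything is a multiple of `d`; divide by `d > 0`. Use `C = dK * (k + 2) * N + N * Ch + m * (..) ..`: the constant `C` of `INEQ` may be larger than necessary:
`C = (k + 2) * N * dK + N * Ch + m * (cF * N * Ck + 2 * cE * N * (dK * le + 1) + 2 * Ch + N * Ch) + (200 * Ck + Ch + dK) + Cr` (all quantities `≥ 0`, `4 ^ j i ≤ 4 ^ J`, `4 ^ (J - j i) * 4 ^ j i = 4 ^ J`).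
-/

universe u

namespace Pool.Agent.Lib.MP_17a322_nt.VN

open MvPolynomial Height
open Pool.Agent.Lib.MP_17a322_nt.RO
open Pool.Agent.Lib.MP_17a322_nt.VJ

private theorem L1t_Ex1_C (L : Type*) [Field L] (j : ℕ) (a : L) :
    Ex1 L j (PowerSeries.C a) = PowerSeries.C a :=
  (PowerSeries.expand (4 ^ j) (pow_ne_zero j four_ne_zero) :
    PowerSeries L →ₐ[L] PowerSeries L).commutes a

private theorem L1t_alg {K : Type*} [Field K] (L : Type*) [Field L] [Algebra K L] (a : K) :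
    algebraMap K (P2 L) a = PowerSeries.C (PowerSeries.C (algebraMap K L a)) := by
  rw [PowerSeries.algebraMap_apply, PowerSeries.algebraMap_apply]

private noncomputable def L1t_E {K : Type*} [Field K] (L : Type*) [Field L] [Algebra K L]
    (j : ℕ) : P2 L →ₐ[K] P2 L :=
  { PowerSeries.map (Ex1 L j) with
    commutes' := fun a => by
      show PowerSeries.map (Ex1 L j) (algebraMap K (P2 L) a) = algebraMap K (P2 L) a
      rw [L1t_alg, PowerSeries.map_C, L1t_Ex1_C] }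

private theorem L1t_E_CC {K : Type*} [Field K] (L : Type*) [Field L] [Algebra K L]
    (j : ℕ) (x : L) : L1t_E (K := K) L j (PowerSeries.C (PowerSeries.C x)) =
      PowerSeries.C (PowerSeries.C x) := by
  show PowerSeries.map (Ex1 L j) (PowerSeries.C (PowerSeries.C x)) = _
  rw [PowerSeries.map_C, L1t_Ex1_C]

private noncomputable def L1t_CC {K : Type*} [Field K] (L : Type*) [Field L] [Algebra K L] :
    L →ₐ[K] P2 L :=
  { (PowerSeries.C (R := PowerSeries L)).comp (PowerSeries.C (R := L)) with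
    commutes' := fun a => (L1t_alg L a).symm }

private theorem L1t_M2 {K : Type*} [Field K] (W : WeierstrassCurve K) {L : Type*} [Field L]
    [Algebra K L] (j : ℕ) (x0 : L) : M2 (mu W j ![x0, 1]) =
      mu W j ![PowerSeries.C (PowerSeries.C x0), (1 : P2 L)] := by
  have h1 : (M2 (mu W j ![x0, 1]) : Fin 2 → P2 L) =
      mu W j (fun i => L1t_CC (K := K) L ((![x0, 1] : Fin 2 → L) i)) := by
    funext i
    rw [← map_mu]
    rfl
  rw [h1]
  congr 1
  funext i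
  fin_cases i
  · rfl
  · exact map_one _

private noncomputable def L1t_c {K : Type*} [Field K] (L : Type*) [Field L] [Algebra K L] :
    P2 L →ₐ[K] PowerSeries L :=
  { (PowerSeries.constantCoeff (R := PowerSeries L)) with
    commutes' := fun a => by
      show PowerSeries.constantCoeff (algebraMap K (P2 L) a) = algebraMap K (PowerSeries L) a
      rw [L1t_alg, PowerSeries.constantCoeff_C, PowerSeries.algebraMap_apply] }

private theorem L1t_cEx (L : Type*) [Field L] (j : ℕ) (u : P2 L) :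
    PowerSeries.constantCoeff (Ex j u) = Ex1 L j (PowerSeries.constantCoeff u) := by
  unfold Ex
  rw [← PowerSeries.coeff_zero_eq_constantCoeff_apply, PowerSeries.coeff_map,
    PowerSeries.coeff_zero_eq_constantCoeff_apply]

private theorem L1t_ht {K : Type*} [Field K] [NumberField K] {k e : ℕ} (ρ : REP K (k + 2) e) {D : ℕ}
    (hD : ρ.Deg D) (s : Fin (k + 2) → K) (i : Fin (k + 2)) :
    logHeight₁ (eval s (ρ.z i)) ≤ ρ.ht + D * ∑ t, logHeight₁ (s t) := by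
  have hFS : FS (fun v : AbsoluteValue K ℝ => ∑ t, Real.log (max 1 (v (s t)))) :=
    FS_sum _ fun t _ => FS_log_max (s t)
  have h1 : ρ.ht + D * ∑ t, logHeight₁ (s t) =
      gs (fun v : AbsoluteValue K ℝ => Real.log (ρ.RB v) +
        D * ∑ t, Real.log (max 1 (v (s t)))) := by
    rw [gs_add (FS_log_RB ρ) (FS_const_mul _ hFS), gs_const_mul,
      gs_sum _ fun t _ => FS_log_max (s t)]
    simp only [gs_log_max]
    rfl
  rw [h1, ← gs_log_max]
  refine gs_le (FS_log_max _) (FS_add (FS_log_RB ρ) (FS_const_mul _ hFS)) fun v _ => ?_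
  have hd : ∀ t, (ρ.z i).degreeOf t ≤ D := fun t =>
    (degreeOf_le_totalDegree _ _).trans (hD.1 i)
  have h2 : v (eval s (ρ.z i)) ≤ NV v (ρ.z i) * ∏ t, max 1 (v (s t)) ^ D :=
    (SN_self v).aeval_le (ρ.z i) (fun _ => D) hd s
  have hP : 1 ≤ ∏ t, max 1 (v (s t)) ^ D := E1_one_le_prod _ _ fun _ =>
    one_le_pow₀ (le_max_left _ _)
  have hR := one_le_RB ρ v
  have h3 : max 1 (v (eval s (ρ.z i))) ≤ ρ.RB v * ∏ t, max 1 (v (s t)) ^ D := by
    refine max_le (one_le_mul_of_one_le_of_one_le hR hP) (h2.trans ?_)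
    exact mul_le_mul_of_nonneg_right (z_le_RB ρ v i) (zero_le_one.trans hP)
  have h4 := Real.log_le_log (lt_max_of_lt_left one_pos) h3
  refine h4.trans (le_of_eq ?_)
  rw [Real.log_mul (zero_lt_one.trans_le hR).ne' (zero_lt_one.trans_le hP).ne',
    Real.log_prod fun t _ => (pow_pos (lt_max_of_lt_left one_pos) _).ne', Finset.mul_sum]
  congr 1
  refine Finset.sum_congr rfl fun t _ => ?_
  rw [Real.log_pow]

theorem pS_const {K A : Type*} [CommRing K] [CommRing A] [Algebra K A] {m n : ℕ} (x : Fin n → A)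
    (S : Fin m × Fin n → A) (N : MvPolynomial (VL m n) K) (h : ∀ p, N.degreeOf (vZ p) = 0) :
    aeval (pS x S) N = C (aeval (Sum.elim x (Sum.elim S fun _ => 0) : VL m n → A) N) := by
  rw [aeval_def, eval₂_eq', aeval_def, eval₂_eq', map_sum]
  refine Finset.sum_congr rfl fun e he => ?_
  rw [map_mul, map_prod, MvPolynomial.algebraMap_apply]
  congr 1
  refine Finset.prod_congr rfl fun i _ => ?_
  rw [map_pow]
  rcases i with t | p | p
  · rfl
  · rfl
  · have h1 : e (Sum.inr (Sum.inr p)) = 0 :=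
      Nat.le_zero.mp ((monomial_le_degreeOf (vZ p) he).trans (h p).le)
    rw [h1, pow_zero, pow_zero]

theorem rel_two {K : Type*} [Field K] (W : WeierstrassCurve K) {L : Type*} [Field L]
    [Algebra K L] (χ : Bool) (j j' : ℕ) (x0 : L) (u ξ : P2 L)
    (h : S3 W (M2 (mu W j ![x0, 1])) (vc χ u) ![ξ, 1] = 0) :
    S3 W (mu W j ![PowerSeries.C (PowerSeries.C x0), 1]) (vc χ (Ex j' u)) ![Ex j' ξ, 1] = 0 := by
  have h1 := congrArg (L1t_E (K := K) L j') h
  rw [L1t_M2, map_S3, map_zero] at h1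
  have e1 : (fun i => L1t_E (K := K) L j'
      (mu W j ![PowerSeries.C (PowerSeries.C x0), 1] i)) =
      mu W j ![PowerSeries.C (PowerSeries.C x0), (1 : P2 L)] := by
    funext i
    rw [map_mu]
    congr 1
    funext i
    fin_cases i
    · exact L1t_E_CC L j' x0
    · exact map_one _
  have e2 : (fun i => L1t_E (K := K) L j' (vc χ u i)) = vc χ (Ex j' u) := by
    funext i
    cases χ <;> fin_cases i
    · rfl
    · exact map_one _
    · exact map_one _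
    · rfl
  have e3 : (fun i => L1t_E (K := K) L j' ((![ξ, 1] : Fin 2 → P2 L) i)) = ![Ex j' ξ, 1] := by
    funext i
    fin_cases i
    · rfl
    · exact map_one _
  rw [e1, e2, e3] at h1
  exact h1

theorem rel_one {K : Type*} [Field K] (W : WeierstrassCurve K) {L : Type*} [Field L]
    [Algebra K L] (χ : Bool) (j j' : ℕ) (x0 : L) (u ξ : P2 L)
    (h : S3 W (M2 (mu W j ![x0, 1])) (vc χ u) ![ξ, 1] = 0) :
    S3 W (mu W j ![PowerSeries.C x0, 1]) (vc χ (Ex1 L j' (PowerSeries.constantCoeff u)))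
      ![PowerSeries.constantCoeff (Ex j' ξ), 1] = 0 := by
  have h1 := congrArg (L1t_c (K := K) L) (rel_two W χ j j' x0 u ξ h)
  rw [map_S3, map_zero] at h1
  have e1 : (fun i => L1t_c (K := K) L
      (mu W j ![PowerSeries.C (PowerSeries.C x0), 1] i)) =
      mu W j ![PowerSeries.C x0, (1 : PowerSeries L)] := by
    funext i
    rw [map_mu]
    congr 1
    funext i
    fin_cases i
    · exact PowerSeries.constantCoeff_C _
    · exact map_one _
  have e0 : L1t_c (K := K) L (Ex j' u) = Ex1 L j' (PowerSeries.constantCoeff u) := L1t_cEx L j' u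
  have e2 : (fun i => L1t_c (K := K) L (vc χ (Ex j' u) i)) =
      vc χ (Ex1 L j' (PowerSeries.constantCoeff u)) := by
    funext i
    cases χ <;> fin_cases i
    · exact e0
    · exact map_one _
    · exact map_one _
    · exact e0
  have e3 : (fun i => L1t_c (K := K) L ((![Ex j' ξ, 1] : Fin 2 → P2 L) i)) =
      ![PowerSeries.constantCoeff (Ex j' ξ), 1] := by
    funext i
    fin_cases i
    · rfl
    · exact map_one _
  rw [e1, e2, e3] at h1
  exact h1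

theorem CH_map {K : Type*} [Field K] [DecidableEq K] {L : Type*} [Field L] [DecidableEq L]
    [Algebra K L] {W : WeierstrassCurve K} {V : WeierstrassCurve L}
    {f : W.toAffine.Point →+ V.toAffine.Point} (hf : PB W V f) {c : Bool} {P : W.toAffine.Point}
    {s : K} (h : CH c P s) : CH c (f P) (algebraMap K L s) := by
  obtain ⟨a, ha, hP⟩ := h
  refine ⟨algebraMap K L a, (map_ne_zero _).2 ha, ?_⟩
  funext i
  rw [hf P i, hP, Pi.smul_apply, Pi.smul_apply, smul_eq_mul, smul_eq_mul, map_mul]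
  congr 1
  cases c <;> fin_cases i
  · rfl
  · exact map_one _
  · exact map_one _
  · rfl

theorem CH_height {K : Type*} [Field K] [AdmissibleAbsValues K] {W : WeierstrassCurve K} {c : Bool}
    {P : W.toAffine.Point} {s : K} (h : CH c P s) : logHeight P.xRep = logHeight₁ s := by
  obtain ⟨a, ha, hP⟩ := h
  rw [hP, Height.logHeight_smul_eq_logHeight _ ha]
  cases c
  · rw [logHeight₁_eq_logHeight]
    rfl
  · rw [logHeight₁_eq_logHeight, logHeight_swap]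
    rfl

theorem gn_bound {K : Type*} [Field K] [NumberField K] {k e : ℕ} (ρ : REP K (k + 2) e) {D : ℕ}
    (hD : ρ.Deg D) (s : Fin (k + 2) → K)
    (h : eval s (ρ.z 0) ≠ 0 ∨ eval s (ρ.z 1) ≠ 0) :
    gn s (eval s (ρ.z 0)) (eval s (ρ.z 1)) ≤ ρ.ht + D * ∑ t, logHeight₁ (s t) := by
  rcases h with h | h
  · exact (gn_le_ht s _ h).trans (L1t_ht ρ hD s 0)
  · exact (gn_le_ht' s _ h).trans (L1t_ht ρ hD s 1)

/-- The package for all coordinates of all points. -/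
theorem pack_all {K : Type*} [Field K] {n : ℕ} (W : Fin n → WeierstrassCurve K)
    [∀ t, (W t).IsElliptic] {L : Type*} [Field L] [CharZero L] [DecidableEq L] [Algebra K L]
    (V : Fin n → WeierstrassCurve L) (hV : ∀ t, (W t).map (algebraMap K L) = V t)
    (χ : Fin n → Bool) {m : ℕ} (j : Fin m → ℕ) (Q : ∀ t, (V t).toAffine.Point)
    (P : Fin m → ∀ t, (V t).toAffine.Point) (σ β : Fin m × Fin n → L)
    (hch : ∀ i t, CH (χ t) (P i t) (σ (i, t)))
    (hβ : ∀ i t, β (i, t) ^ 2 = ph (W t) (vc (χ t) (σ (i, t)))) (hβ0 : ∀ p, β p ≠ 0)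
    (h1 : ∀ i t, P i t - 2 ^ j i • Q t ≠ 0) (h2 : ∀ i t, 2 ^ (j i + 1) • Q t ≠ 0)
    (U : Fin m × Fin n → PowerSeries L) (hU : ∀ p, PowerSeries.constantCoeff (U p) = 0)
    (r₁ : Fin m → AbsoluteValue L ℝ → ℝ) (hr₁ : ∀ i v, 0 ≤ r₁ i v)
    (hUr : ∀ i t v n', PN v (r₁ i v) n' (U (i, t)) ≤ 1) :
    ∃ (u ξ : Fin m × Fin n → P2 L) (Y : Fin m × Fin n → PowerSeries L),
      (∀ i t, mu (W t) (j i) ![(Q t).xRep 0, 1] ≠ 0) ∧
      (∀ p, PowerSeries.constantCoeff (u p) = PowerSeries.C (σ p) + U p) ∧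
      (∀ p, PowerSeries.coeff 1 (u p) = (if χ p.2 then Y p else -Y p)) ∧
      (∀ p, PowerSeries.constantCoeff (Y p) = β p) ∧
      (∀ p, S3 (W p.2) (M2 (mu (W p.2) (j p.1) ![(Q p.2).xRep 0, 1])) (vc (χ p.2) (u p))
        ![ξ p, 1] = 0) ∧
      (∀ p, cc2 (u p) = σ p) ∧
      ∀ i v, (∀ t, PKG (W t) v (χ t) (mu (W t) (j i) ![(Q t).xRep 0, 1]) (σ (i, t))
          ((P i t - 2 ^ j i • Q t).xRep 0) (u (i, t)) (ξ (i, t))
          (r₁ i v * ro W v (fun t => σ (i, t)) (fun t => β (i, t)))) ∧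
        (∀ t n', PN v (r₁ i v * ro W v (fun t => σ (i, t)) (fun t => β (i, t))) n'
          (PowerSeries.constantCoeff (u (i, t))) ≤ cst v 2 * max 1 (v (σ (i, t)))) ∧
        ∀ t n', PN v (r₁ i v * ro W v (fun t => σ (i, t)) (fun t => β (i, t))) n' (Y (i, t)) ≤
          cst v 2 * v (β (i, t)) := by
  have key := fun p : Fin m × Fin n => pack (W p.2) (V p.2) (hV p.2) (j p.1) (Q p.2)
    (P p.1 p.2) (χ p.2) (σ p) (β p) (hch p.1 p.2) (hβ p.1 p.2) (hβ0 p) (h1 p.1 p.2) (h2 p.1 p.2)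
    (U p) (hU p) (r₁ p.1) (hr₁ p.1) (hUr p.1 p.2)
  choose u ξ Y hM h0 h1' hY2 hY0 hS hq hu hpk using key
  refine ⟨u, ξ, Y, fun i t => hM (i, t), h0, h1', hY0, hS, hu, fun i v => ?_⟩
  have hro := ro_pos W v (fun t => σ (i, t)) (fun t => β (i, t)) (fun t => hβ0 (i, t))
  have hrl := (ro_le W χ v (fun t => σ (i, t)) (fun t => β (i, t)) (fun t => hβ i t)).2
  have h3 := fun t => hpk (i, t) v (r₁ i v * ro W v (fun t => σ (i, t)) (fun t => β (i, t)))
    (mul_nonneg (hr₁ i v) hro.le)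
    (by
      rw [mul_assoc]
      exact mul_le_mul_of_nonneg_left (hrl t) (hr₁ i v))
  exact ⟨fun t => (h3 t).1, fun t => (h3 t).2.1, fun t => (h3 t).2.2⟩

/-- The inequality over `K`: `h` the height of the auxiliary polynomial, `H` the height of the base
point, `E i` the heights of the differences, `g i` the gains, `sl i` the heights of the slopes, `hP i` the heights
of the points, `s i` the orders, `a` the order in `T`. -/
def INEQ {m : ℕ} (C h H : ℝ) (N J : ℕ) (j s : Fin m → ℕ) (E g sl hP : Fin m → ℝ) (a : ℕ) : Prop :=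
  0 ≤ h + C * 4 ^ J + 2 * N * 4 ^ J * H +
    ∑ i, (4 * 4 ^ j i * H + 2 * N * 4 ^ (J - j i) * E i + s i * (C * 4 ^ j i + 2 * E i) -
      ((4 ^ (J - j i) - s i : ℕ) : ℝ) * g i - s i * sl i) +
    a * ∑ i, (4 ^ j i : ℝ)⁻¹ * (C * (4 ^ j i + hP i) + 2 * E i)

private theorem L1t_term (N cF cE : ℕ) (dK le Ck Ch : ℝ) (hdK : 0 ≤ dK) (hle : 0 ≤ le)
    (hCk : 0 ≤ Ck) (hCh : 0 ≤ Ch) (C : ℝ) (hC1 : 200 * Ck + Ch + dK ≤ C)
    (d H hx kk : ℝ) (J j : ℕ) (s : ℕ) (E g sl ht hq gL gG : ℝ) (hd : 0 < d)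
    (hjJ : j ≤ J) (hht : ht ≤ 4 ^ j) (hhx : hx ≤ d * (2 * H + Ch))
    (hkk : kk ≤ d * Ck) (hhq : hq ≤ d * (2 * E + Ch * 4 ^ j)) (hgL : gL = d * g)
    (hgG : gG ≤ d * dK - d * sl) :
    cF * (N * 4 ^ J) * kk + 2 * (cE * (N * 4 ^ (J - j))) * ((d * dK) * le + d * ht) +
          2 * 4 ^ j * hx + N * 4 ^ (J - j) * hq + s * (200 * kk + hq) -
          ((4 ^ (J - j) - s : ℕ) : ℝ) * gL + s * gG ≤
      d * (4 * 4 ^ j * H + 2 * N * 4 ^ (J - j) * E + s * (C * 4 ^ j + 2 * E) -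
      ((4 ^ (J - j) - s : ℕ) : ℝ) * g - s * sl +
      (cF * N * Ck + 2 * cE * N * (dK * le + 1) + 2 * Ch + N * Ch) * 4 ^ J) := by
  have hw : (4 : ℝ) ^ J = 4 ^ (J - j) * 4 ^ j := by
    rw [← pow_add, Nat.sub_add_cancel hjJ]
  rw [hw, hgL]
  have hy : (1 : ℝ) ≤ 4 ^ j := one_le_pow₀ (by norm_num)
  have hz : (1 : ℝ) ≤ 4 ^ (J - j) := one_le_pow₀ (by norm_num)
  generalize (4 : ℝ) ^ j = y at hy hht hhq ⊢
  generalize (4 : ℝ) ^ (J - j) = z at hz ⊢
  generalize ((4 ^ (J - j) - s : ℕ) : ℝ) = w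
  have hy0 : 0 ≤ y := zero_le_one.trans hy
  have hz0 : 0 ≤ z := zero_le_one.trans hz
  have hs : (0 : ℝ) ≤ s := Nat.cast_nonneg s
  have hN : (0 : ℝ) ≤ N := Nat.cast_nonneg N
  have hF : (0 : ℝ) ≤ cF := Nat.cast_nonneg cF
  have hcE : (0 : ℝ) ≤ cE := Nat.cast_nonneg cE
  have hd0 := hd.le
  have t1 : cF * (N * (z * y)) * kk ≤ cF * (N * (z * y)) * (d * Ck) :=
    mul_le_mul_of_nonneg_left hkk (by positivity)
  have hle' : dK * le ≤ dK * le * y := le_mul_of_one_le_right (mul_nonneg hdK hle) hy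
  have t2a : d * dK * le + d * ht ≤ d * ((dK * le + 1) * y) := by
    have e1 : d * dK * le + d * ht = d * (dK * le + ht) := by ring
    rw [e1]
    refine mul_le_mul_of_nonneg_left ?_ hd0
    linarith
  have t2 : 2 * (cE * (N * z)) * (d * dK * le + d * ht) ≤
      2 * (cE * (N * z)) * (d * ((dK * le + 1) * y)) :=
    mul_le_mul_of_nonneg_left t2a (by positivity)
  have t3 : 2 * y * hx ≤ 2 * y * (d * (2 * H + Ch)) :=
    mul_le_mul_of_nonneg_left hhx (by positivity)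
  have t3' : d * (2 * Ch * y) ≤ d * (2 * Ch * (z * y)) := by
    refine mul_le_mul_of_nonneg_left (mul_le_mul_of_nonneg_left ?_ (by positivity)) hd0
    exact le_mul_of_one_le_left hy0 hz
  have t4 : N * z * hq ≤ N * z * (d * (2 * E + Ch * y)) :=
    mul_le_mul_of_nonneg_left hhq (by positivity)
  have t5 : s * (200 * kk + hq) ≤ s * (200 * (d * Ck) + d * (2 * E + Ch * y)) :=
    mul_le_mul_of_nonneg_left (by linarith) hs
  have t7 : s * gG ≤ s * (d * dK - d * sl) := mul_le_mul_of_nonneg_left hgG hs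
  have t8 : s * (d * ((200 * Ck + dK) * 1)) ≤ s * (d * ((200 * Ck + dK) * y)) := by
    refine mul_le_mul_of_nonneg_left (mul_le_mul_of_nonneg_left
      (mul_le_mul_of_nonneg_left hy (by positivity)) hd0) hs
  have t9 : s * (d * ((200 * Ck + Ch + dK) * y)) ≤ s * (d * (C * y)) := by
    refine mul_le_mul_of_nonneg_left (mul_le_mul_of_nonneg_left
      (mul_le_mul_of_nonneg_right hC1 hy0) hd0) hs
  linarith

private theorem L1t_conv (m k N cF cE : ℕ) (dK le Ck Ch Cr : ℝ) (hdK : 0 ≤ dK) (hle : 0 ≤ le)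
    (hCk : 0 ≤ Ck) (hCh : 0 ≤ Ch) (hCr : 0 ≤ Cr)
    (hc0 : 0 ≤ (cF * N * Ck + 2 * cE * N * (dK * le + 1) + 2 * Ch + N * Ch : ℝ)) (C : ℝ)
    (hC0 : 0 ≤ C) (hC1 : 200 * Ck + Ch + dK ≤ C) (hC2 : Cr ≤ C)
    (hC3 : (k + 2) * N * dK + N * Ch +
      m * (cF * N * Ck + 2 * cE * N * (dK * le + 1) + 2 * Ch + N * Ch) ≤ C)
    (d lF H hx kk : ℝ) (J : ℕ) (j s : Fin m → ℕ)
      (E g sl hP ht hq gL gG rr : Fin m → ℝ) (a : ℕ) (hd : 0 < d) (hH : 0 ≤ H)
      (hE : ∀ i, 0 ≤ E i) (hhP : ∀ i, 0 ≤ hP i) (hjJ : ∀ i, j i ≤ J)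
      (hht : ∀ i, ht i ≤ 4 ^ j i) (hhx : hx ≤ d * (2 * H + Ch))
      (hkk : kk ≤ d * Ck) (hhq : ∀ i, hq i ≤ d * (2 * E i + Ch * 4 ^ j i))
      (hgL : ∀ i, gL i = d * g i) (hgG : ∀ i, gG i ≤ d * dK - d * sl i)
      (hrr : ∀ i, rr i ≤ d * (Cr * (4 ^ j i + hP i) + 2 * E i))
      (h : 0 ≤ d * lF + (d * dK) * ((k + 2) * (N * 4 ^ J)) + N * 4 ^ J * hx +
        ∑ i, (cF * (N * 4 ^ J) * kk +
          2 * (cE * (N * 4 ^ (J - j i))) * ((d * dK) * le + d * ht i) +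
          2 * 4 ^ j i * hx + N * 4 ^ (J - j i) * hq i + s i * (200 * kk + hq i) -
          ((4 ^ (J - j i) - s i : ℕ) : ℝ) * gL i + s i * gG i) +
        a * ∑ i, (4 ^ j i : ℝ)⁻¹ * rr i) :
      INEQ C lF H N J j s E g sl hP a := by
  unfold INEQ
  have hd0 := hd.le
  have hJ : (0 : ℝ) ≤ 4 ^ J := by positivity
  have h1 := Finset.sum_le_sum (s := Finset.univ) fun i (_ : i ∈ Finset.univ) =>
    L1t_term N cF cE dK le Ck Ch hdK hle hCk hCh C hC1 d H hx kk J (j i) (s i) (E i) (g i) (sl i)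
      (ht i) (hq i) (gL i) (gG i) hd (hjJ i) (hht i) hhx hkk (hhq i) (hgL i) (hgG i)
  rw [← Finset.mul_sum] at h1
  have h1c : ∑ i, (4 * 4 ^ j i * H + 2 * N * 4 ^ (J - j i) * E i +
      s i * (C * 4 ^ j i + 2 * E i) -
      ((4 ^ (J - j i) - s i : ℕ) : ℝ) * g i - s i * sl i +
      (cF * N * Ck + 2 * cE * N * (dK * le + 1) + 2 * Ch + N * Ch) * 4 ^ J) =
      (∑ i, (4 * 4 ^ j i * H + 2 * N * 4 ^ (J - j i) * E i +
      s i * (C * 4 ^ j i + 2 * E i) -
      ((4 ^ (J - j i) - s i : ℕ) : ℝ) * g i - s i * sl i)) +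
      m * ((cF * N * Ck + 2 * cE * N * (dK * le + 1) + 2 * Ch + N * Ch) * 4 ^ J) := by
    rw [Finset.sum_add_distrib, Finset.sum_const, Finset.card_univ, Fintype.card_fin,
      nsmul_eq_mul]
  rw [h1c] at h1
  have h2 : ∑ i, (4 ^ j i : ℝ)⁻¹ * rr i ≤
      d * ∑ i, (4 ^ j i : ℝ)⁻¹ * (C * (4 ^ j i + hP i) + 2 * E i) := by
    rw [Finset.mul_sum]
    refine Finset.sum_le_sum fun i _ => ?_
    have h3 : (0 : ℝ) ≤ (4 ^ j i : ℝ)⁻¹ := by positivity
    have h4 : (0 : ℝ) ≤ 4 ^ j i + hP i := add_nonneg (by positivity) (hhP i)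
    have h5 : rr i ≤ d * (C * (4 ^ j i + hP i) + 2 * E i) := by
      refine (hrr i).trans (mul_le_mul_of_nonneg_left ?_ hd0)
      have h6 := mul_le_mul_of_nonneg_right hC2 h4
      linarith
    refine (mul_le_mul_of_nonneg_left h5 h3).trans (le_of_eq ?_)
    ring
  have h3 : (a : ℝ) * ∑ i, (4 ^ j i : ℝ)⁻¹ * rr i ≤
      a * (d * ∑ i, (4 ^ j i : ℝ)⁻¹ * (C * (4 ^ j i + hP i) + 2 * E i)) :=
    mul_le_mul_of_nonneg_left h2 (Nat.cast_nonneg a)
  have h4 : N * 4 ^ J * hx ≤ N * 4 ^ J * (d * (2 * H + Ch)) :=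
    mul_le_mul_of_nonneg_left hhx (by positivity)
  have h5 : d * (((k + 2) * N * dK + N * Ch +
      m * (cF * N * Ck + 2 * cE * N * (dK * le + 1) + 2 * Ch + N * Ch)) * 4 ^ J) ≤
      d * (C * 4 ^ J) :=
    mul_le_mul_of_nonneg_left (mul_le_mul_of_nonneg_right hC3 hJ) hd0
  refine (mul_nonneg_iff_of_pos_left hd).1 ?_
  generalize (∑ i, (cF * (N * 4 ^ J) * kk +
          2 * (cE * (N * 4 ^ (J - j i))) * ((d * dK) * le + d * ht i) +
          2 * 4 ^ j i * hx + N * 4 ^ (J - j i) * hq i + s i * (200 * kk + hq i) -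
          ((4 ^ (J - j i) - s i : ℕ) : ℝ) * gL i + s i * gG i) : ℝ) = S1 at h h1
  generalize (∑ i, (4 ^ j i : ℝ)⁻¹ * rr i : ℝ) = S2 at h h3
  generalize (∑ i, (4 ^ j i : ℝ)⁻¹ * (C * (4 ^ j i + hP i) + 2 * E i) : ℝ) = S3 at h3 ⊢
  generalize (∑ i, (4 * 4 ^ j i * H + 2 * N * 4 ^ (J - j i) * E i +
      s i * (C * 4 ^ j i + 2 * E i) -
      ((4 ^ (J - j i) - s i : ℕ) : ℝ) * g i - s i * sl i) : ℝ) = S4 at h1 ⊢
  generalize (4 : ℝ) ^ J = w at *
  linarith

theorem conv_ineq (m k N cF cE : ℕ) (dK le Ck Ch Cr : ℝ) (hdK : 0 ≤ dK) (hle : 0 ≤ le)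
    (hCk : 0 ≤ Ck) (hCh : 0 ≤ Ch) (hCr : 0 ≤ Cr) :
    ∃ C : ℝ, 0 ≤ C ∧ ∀ (d lF H hx kk : ℝ) (J : ℕ) (j s : Fin m → ℕ)
      (E g sl hP ht hq gL gG rr : Fin m → ℝ) (a : ℕ), 0 < d → 0 ≤ lF → 0 ≤ H → (∀ i, 0 ≤ E i) →
      (∀ i, 0 ≤ hP i) → (∀ i, j i ≤ J) → (∀ i, ht i ≤ 4 ^ j i) → hx ≤ d * (2 * H + Ch) →
      kk ≤ d * Ck → (∀ i, hq i ≤ d * (2 * E i + Ch * 4 ^ j i)) → (∀ i, gL i = d * g i) →
      (∀ i, gG i ≤ d * dK - d * sl i) → (∀ i, rr i ≤ d * (Cr * (4 ^ j i + hP i) + 2 * E i)) →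
      0 ≤ d * lF + (d * dK) * ((k + 2) * (N * 4 ^ J)) + N * 4 ^ J * hx +
        ∑ i, (cF * (N * 4 ^ J) * kk +
          2 * (cE * (N * 4 ^ (J - j i))) * ((d * dK) * le + d * ht i) +
          2 * 4 ^ j i * hx + N * 4 ^ (J - j i) * hq i + s i * (200 * kk + hq i) -
          ((4 ^ (J - j i) - s i : ℕ) : ℝ) * gL i + s i * gG i) +
        a * ∑ i, (4 ^ j i : ℝ)⁻¹ * rr i →
      INEQ C lF H N J j s E g sl hP a := by
  have hc0 : 0 ≤ (cF * N * Ck + 2 * cE * N * (dK * le + 1) + 2 * Ch + N * Ch : ℝ) := by positivity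
  refine ⟨(k + 2) * N * dK + N * Ch +
    m * (cF * N * Ck + 2 * cE * N * (dK * le + 1) + 2 * Ch + N * Ch) + (200 * Ck + Ch + dK) + Cr,
    by positivity, ?_⟩
  intro d lF H hx kk J j s E g sl hP ht hq gL gG rr a hd hlF hH hE hhP hjJ hht hhx hkk hhq hgL hgG
    hrr h
  have hC1 : (200 * Ck + Ch + dK) ≤ (k + 2) * N * dK + N * Ch +
    m * (cF * N * Ck + 2 * cE * N * (dK * le + 1) + 2 * Ch + N * Ch) + (200 * Ck + Ch + dK) + Cr := by
    have h1 : (0 : ℝ) ≤ (k + 2) * N * dK + N * Ch +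
      m * (cF * N * Ck + 2 * cE * N * (dK * le + 1) + 2 * Ch + N * Ch) := by positivity
    linarith
  have hC2 : Cr ≤ (k + 2) * N * dK + N * Ch +
    m * (cF * N * Ck + 2 * cE * N * (dK * le + 1) + 2 * Ch + N * Ch) + (200 * Ck + Ch + dK) + Cr := by
    have h1 : (0 : ℝ) ≤ (k + 2) * N * dK + N * Ch +
      m * (cF * N * Ck + 2 * cE * N * (dK * le + 1) + 2 * Ch + N * Ch) +
      (200 * Ck + Ch + dK) := by positivity
    linarith
  have hC3 : (k + 2) * N * dK + N * Ch +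
    m * (cF * N * Ck + 2 * cE * N * (dK * le + 1) + 2 * Ch + N * Ch) ≤
    (k + 2) * N * dK + N * Ch +
    m * (cF * N * Ck + 2 * cE * N * (dK * le + 1) + 2 * Ch + N * Ch) + (200 * Ck + Ch + dK) + Cr := by
    have h1 : (0 : ℝ) ≤ (200 * Ck + Ch + dK) := by positivity
    linarith
  have hC0 : 0 ≤ (k + 2) * N * dK + N * Ch +
    m * (cF * N * Ck + 2 * cE * N * (dK * le + 1) + 2 * Ch + N * Ch) + (200 * Ck + Ch + dK) + Cr := by
    positivity
  generalize ((k + 2) * N * dK + N * Ch +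
    m * (cF * N * Ck + 2 * cE * N * (dK * le + 1) + 2 * Ch + N * Ch) + (200 * Ck + Ch + dK) + Cr :
    ℝ) = C at hC0 hC1 hC2 hC3 ⊢
  exact L1t_conv m k N cF cE dK le Ck Ch Cr hdK hle hCk hCh hCr hc0 C hC0 hC1 hC2 hC3 d lF H hx kk
    J j s E g sl hP ht hq gL gG rr a hd hH hE hhP hjJ hht hhx hkk hhq hgL hgG hrr h

end Pool.Agent.Lib.MP_17a322_nt.VN
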