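import Pool.Agent.Lib.MP_17a322_nt.VN.L1r
import Pool.Agent.Lib.MP_17a322_nt.VN.BC
import Pool.Agent.Lib.MP_17a322_nt.VJ.A7

/-!
# JOB L1s: heights of the radii

PROOFS.
`gs_log_ro`: the logarithm of the product `ro` is `∑ t, (2 log (v (β t)) - 40 log kc - 4 log (max 1 (v (σ t))))`; `gs_log_abv` kills the first term (VJ/A4); `gs_log_max`, `gs_sum`, `gs_sub`,
`gs_const_mul`, `FS_log_kc` (L1o), `FS_log_max`, `FS_log_abv`, `FS_sum` ...
`gs_log_bg`: `gs_log_cst` with `totalWeight_eq_finrank` (as in VJ/A7, VN/C12), `Real.log (2 ^ D) = D * log 2 ≤ D`, `nh_map` (VJ/A7), `gs_log_max`; `log 2 ≤ 1`; `FS_log_NV` (VJ/A5).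
`gs_log_r1`: `gs_log_bg`, `gs_log_abv` for `aeval σ (pderiv r g) ≠ 0`.
`gs_log_g2`: numerator: `gs (log (max (v a) (v b))) = logHeight ![a, b] ≥ 0` (`gs_log_iSup` VJ/A4 for `Fin 2`; compare `logHeight_xRep`, VJ/E6; nonnegativity of `logHeight` in Mathlib). Denominator: `gs_log_bg`,
`gs_log_cst` (`log 2 ≤ 1`), `gs log kc`, `gs_log_max`.
`gs_log_max_two`: the same; `a = 0` is allowed.
-/

universe u

namespace Pool.Agent.Lib.MP_17a322_nt.VN

open MvPolynomial Height
open Pool.Agent.Lib.MP_17a322_nt.RO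
open Pool.Agent.Lib.MP_17a322_nt.VJ

section

private theorem L1s_iSup_two {L : Type*} [Field L] (v : AbsoluteValue L ℝ) (a b : L) :
    (⨆ i, v ((![a, b] : Fin 2 → L) i)) = max (v a) (v b) := by
  have hb : BddAbove (Set.range fun i => v ((![a, b] : Fin 2 → L) i)) :=
    Set.Finite.bddAbove (Set.finite_range _)
  apply le_antisymm
  · refine ciSup_le fun i => ?_
    fin_cases i
    · exact le_max_left _ _
    · exact le_max_right _ _
  · refine max_le ?_ ?_
    · exact le_ciSup hb 0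
    · exact le_ciSup hb 1

private theorem L1s_max {L : Type*} [Field L] [AdmissibleAbsValues L] {a b : L} (h : b ≠ 0) :
    FS (fun v : AbsoluteValue L ℝ => Real.log (max (v a) (v b))) ∧
      gs (fun v : AbsoluteValue L ℝ => Real.log (max (v a) (v b))) = logHeight ![a, b] := by
  have hx : (![a, b] : Fin 2 → L) ≠ 0 := fun h0 => h (congrFun h0 1)
  have e : (fun v : AbsoluteValue L ℝ => Real.log (max (v a) (v b))) =
      fun v => Real.log (⨆ i, v ((![a, b] : Fin 2 → L) i)) := by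
    funext v
    rw [L1s_iSup_two]
  rw [e]
  exact ⟨FS_log_iSup hx, gs_log_iSup hx⟩

private theorem L1s_cst {L : Type*} [Field L] [NumberField L] :
    gs (fun v : AbsoluteValue L ℝ => Real.log (cst v 2)) ≤ Module.finrank ℚ L := by
  have h1 := gs_log_cst (L := L) (n := 2) one_le_two
  rw [NumberField.totalWeight_eq_finrank] at h1
  have h2 : Real.log ((2 : ℕ) : ℝ) ≤ 1 := by
    have := Real.log_two_lt_d9
    push_cast
    linarith
  have h3 : (0 : ℝ) ≤ Module.finrank ℚ L := Nat.cast_nonneg _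
  exact h1.trans (mul_le_of_le_one_right h3 h2)

private theorem L1s_cst_pow {L : Type*} [Field L] [NumberField L] (D : ℕ) :
    gs (fun v : AbsoluteValue L ℝ => Real.log (cst v (2 ^ D))) ≤ D * Module.finrank ℚ L := by
  have e : (fun v : AbsoluteValue L ℝ => Real.log (cst v (2 ^ D))) =
      fun v => (D : ℝ) * Real.log (cst v 2) := by
    funext v
    rw [cst_pow, Real.log_pow]
  rw [e, gs_const_mul]
  exact mul_le_mul_of_nonneg_left L1s_cst (Nat.cast_nonneg _)

private theorem L1s_kc_pos {K : Type*} [Field K] (W : WeierstrassCurve K) {L : Type*} [Field L]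
    [Algebra K L] (v : AbsoluteValue L ℝ) : 0 < kc W v :=
  zero_lt_one.trans_le (one_le_kc W v)

private theorem L1s_m_pos {L : Type*} [Field L] (v : AbsoluteValue L ℝ) (x : L) :
    0 < max 1 (v x) :=
  lt_max_of_lt_left one_pos

private theorem L1s_c_pos {L : Type*} [Field L] (v : AbsoluteValue L ℝ) : 0 < cst v 2 :=
  zero_lt_one.trans_le (one_le_cst v one_le_two)

variable {K L : Type u} [Field K] [NumberField K] [Field L] [NumberField L] [Algebra K L] {n : ℕ}

theorem gs_log_ro (W : Fin n → WeierstrassCurve K) (σ β : Fin n → L) (h0 : ∀ t, β t ≠ 0) :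
    FS (fun v : AbsoluteValue L ℝ => Real.log (ro W v σ β)) ∧
      - gs (fun v : AbsoluteValue L ℝ => Real.log (ro W v σ β)) =
        40 * ∑ t, gs (fun v : AbsoluteValue L ℝ => Real.log (kc (W t) v)) +
          4 * ∑ t, logHeight₁ (σ t) := by
  have e : (fun v : AbsoluteValue L ℝ => Real.log (ro W v σ β)) = fun v => ∑ t,
      (2 * Real.log (v (β t)) - (40 * Real.log (kc (W t) v) +
        4 * Real.log (max 1 (v (σ t))))) := by
    funext v
    unfold ro
    have h1 : ∀ t, v (β t) ^ 2 ≠ 0 := fun t => pow_ne_zero 2 (v.pos (h0 t)).ne'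
    have h2 : ∀ t, kc (W t) v ^ 40 ≠ 0 := fun t => pow_ne_zero 40 (L1s_kc_pos (W t) v).ne'
    have h3 : ∀ t, max 1 (v (σ t)) ^ 4 ≠ 0 := fun t => pow_ne_zero 4 (L1s_m_pos v (σ t)).ne'
    rw [Real.log_prod (fun t _ => div_ne_zero (h1 t) (mul_ne_zero (h2 t) (h3 t)))]
    refine Finset.sum_congr rfl fun t _ => ?_
    rw [Real.log_div (h1 t) (mul_ne_zero (h2 t) (h3 t)), Real.log_mul (h2 t) (h3 t),
      Real.log_pow, Real.log_pow, Real.log_pow]
    push_cast
    ring
  have f1 : ∀ t, FS (fun v : AbsoluteValue L ℝ => 2 * Real.log (v (β t))) := fun t =>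
    FS_const_mul _ (FS_log_abv (h0 t))
  have f2 : ∀ t, FS (fun v : AbsoluteValue L ℝ => 40 * Real.log (kc (W t) v)) := fun t =>
    FS_const_mul _ (FS_log_kc (W t))
  have f3 : ∀ t, FS (fun v : AbsoluteValue L ℝ => 4 * Real.log (max 1 (v (σ t)))) := fun t =>
    FS_const_mul _ (FS_log_max (σ t))
  have f4 : ∀ t, FS (fun v : AbsoluteValue L ℝ => 2 * Real.log (v (β t)) -
      (40 * Real.log (kc (W t) v) + 4 * Real.log (max 1 (v (σ t))))) := fun t =>
    FS_sub (f1 t) (FS_add (f2 t) (f3 t))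
  rw [e]
  refine ⟨FS_sum _ fun t _ => f4 t, ?_⟩
  rw [gs_sum _ fun t _ => f4 t]
  have g1 : ∀ t, gs (fun v : AbsoluteValue L ℝ => 2 * Real.log (v (β t)) -
      (40 * Real.log (kc (W t) v) + 4 * Real.log (max 1 (v (σ t))))) =
      - (40 * gs (fun v : AbsoluteValue L ℝ => Real.log (kc (W t) v)) +
        4 * logHeight₁ (σ t)) := by
    intro t
    rw [gs_sub (f1 t) (FS_add (f2 t) (f3 t)), gs_add (f2 t) (f3 t), gs_const_mul, gs_const_mul,
      gs_const_mul, gs_log_abv (h0 t), gs_log_max]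
    ring
  rw [Finset.sum_congr rfl fun t _ => g1 t, Finset.sum_neg_distrib, Finset.sum_add_distrib,
    ← Finset.mul_sum, ← Finset.mul_sum, neg_neg]

theorem gs_log_bg {g : MvPolynomial (Fin n) K} (hg : g ≠ 0) (D : ℕ) (σ : Fin n → L) :
    FS (fun v : AbsoluteValue L ℝ => Real.log (bg v g D σ)) ∧
      gs (fun v : AbsoluteValue L ℝ => Real.log (bg v g D σ)) ≤
        Module.finrank ℚ L * (D * (n + 1)) + Module.finrank K L * nh g +
          D * ∑ t, logHeight₁ (σ t) := by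
  have hG : MvPolynomial.map (algebraMap K L) g ≠ 0 := by
    intro h
    apply hg
    exact (MvPolynomial.map_injective _ (algebraMap K L).injective) (by rw [h, map_zero])
  have e : (fun v : AbsoluteValue L ℝ => Real.log (bg v g D σ)) = fun v =>
      Real.log (cst v (2 ^ D)) + Real.log (NV v (MvPolynomial.map (algebraMap K L) g)) +
        ∑ t, ((D : ℝ) * Real.log (cst v 2) + D * Real.log (max 1 (v (σ t)))) := by
    funext v
    unfold bg
    have h1 : cst v (2 ^ D) ≠ 0 :=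
      (zero_lt_one.trans_le (one_le_cst v Nat.one_le_two_pow)).ne'
    have h2 : NV v (MvPolynomial.map (algebraMap K L) g) ≠ 0 := (NV_pos v hG).ne'
    have h3 : ∀ t, (cst v 2 * max 1 (v (σ t))) ^ D ≠ 0 := fun t =>
      pow_ne_zero D (mul_pos (L1s_c_pos v) (L1s_m_pos v (σ t))).ne'
    rw [Real.log_mul (mul_ne_zero h1 h2) (Finset.prod_ne_zero_iff.mpr fun t _ => h3 t),
      Real.log_mul h1 h2, Real.log_prod (fun t _ => h3 t)]
    congr 1
    refine Finset.sum_congr rfl fun t _ => ?_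
    rw [Real.log_pow, Real.log_mul (L1s_c_pos v).ne' (L1s_m_pos v (σ t)).ne', mul_add]
  have f1 : FS (fun v : AbsoluteValue L ℝ => Real.log (cst v (2 ^ D))) := FS_log_cst _
  have f2 : FS (fun v : AbsoluteValue L ℝ =>
      Real.log (NV v (MvPolynomial.map (algebraMap K L) g))) := FS_log_NV hG
  have f3 : ∀ t : Fin n, FS (fun v : AbsoluteValue L ℝ => (D : ℝ) * Real.log (cst v 2)) := fun _ =>
    FS_const_mul _ (FS_log_cst 2)
  have f4 : ∀ t, FS (fun v : AbsoluteValue L ℝ => (D : ℝ) * Real.log (max 1 (v (σ t)))) := fun t =>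
    FS_const_mul _ (FS_log_max (σ t))
  have f5 : ∀ t, FS (fun v : AbsoluteValue L ℝ => (D : ℝ) * Real.log (cst v 2) +
      D * Real.log (max 1 (v (σ t)))) := fun t => FS_add (f3 t) (f4 t)
  have f6 : FS (fun v : AbsoluteValue L ℝ => ∑ t, ((D : ℝ) * Real.log (cst v 2) +
      D * Real.log (max 1 (v (σ t))))) := FS_sum _ fun t _ => f5 t
  rw [e]
  refine ⟨FS_add (FS_add f1 f2) f6, ?_⟩
  rw [gs_add (FS_add f1 f2) f6, gs_add f1 f2, gs_sum _ fun t _ => f5 t]
  have g1 := L1s_cst_pow (L := L) D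
  have g2 : gs (fun v : AbsoluteValue L ℝ =>
      Real.log (NV v (MvPolynomial.map (algebraMap K L) g))) =
      Module.finrank K L * nh g := nh_map g
  have g3 : ∑ t, gs (fun v : AbsoluteValue L ℝ => (D : ℝ) * Real.log (cst v 2) +
      D * Real.log (max 1 (v (σ t)))) ≤
      ∑ t, ((D : ℝ) * Module.finrank ℚ L + D * logHeight₁ (σ t)) := by
    refine Finset.sum_le_sum fun t _ => ?_
    rw [gs_add (f3 t) (f4 t), gs_const_mul, gs_const_mul, gs_log_max]
    have := mul_le_mul_of_nonneg_left (L1s_cst (L := L)) (Nat.cast_nonneg (α := ℝ) D)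
    linarith
  rw [Finset.sum_add_distrib, Finset.sum_const, Finset.card_univ, Fintype.card_fin,
    ← Finset.mul_sum, nsmul_eq_mul] at g3
  rw [g2]
  refine (add_le_add (add_le_add_left g1 _) g3).trans (le_of_eq ?_)
  ring

theorem gs_log_r1 {g : MvPolynomial (Fin n) K} (hg : g ≠ 0) (D : ℕ) (σ : Fin n → L) (r : Fin n)
    (h0 : aeval σ (pderiv r g) ≠ 0) :
    FS (fun v : AbsoluteValue L ℝ => Real.log (r1 v g D σ r)) ∧
      - gs (fun v : AbsoluteValue L ℝ => Real.log (r1 v g D σ r)) ≤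
        2 * (Module.finrank ℚ L * (D * (n + 1)) + Module.finrank K L * nh g +
          D * ∑ t, logHeight₁ (σ t)) := by
  have hG : MvPolynomial.map (algebraMap K L) g ≠ 0 := by
    intro h
    apply hg
    exact (MvPolynomial.map_injective _ (algebraMap K L).injective) (by rw [h, map_zero])
  obtain ⟨f1, g1⟩ := gs_log_bg (L := L) hg D σ
  have f2 : FS (fun v : AbsoluteValue L ℝ => Real.log (v (aeval σ (pderiv r g)))) := FS_log_abv h0
  have e : (fun v : AbsoluteValue L ℝ => Real.log (r1 v g D σ r)) = fun v =>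
      2 * (Real.log (v (aeval σ (pderiv r g))) - Real.log (bg v g D σ)) := by
    funext v
    unfold r1
    rw [Real.log_pow, Real.log_div (v.pos h0).ne' (bg_pos v hg D σ).ne']
    push_cast
    ring
  rw [e]
  refine ⟨FS_const_mul _ (FS_sub f2 f1), ?_⟩
  rw [gs_const_mul, gs_sub f2 f1, gs_log_abv h0]
  linarith

theorem gs_log_g2 (W : Fin n → WeierstrassCurve K) {g : MvPolynomial (Fin n) K} (hg : g ≠ 0)
    (D : ℕ) (σ β : Fin n → L) (h0 : ∀ t, β t ≠ 0) (r l : Fin n)
    (hr : aeval σ (pderiv r g) ≠ 0) :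
    FS (fun v : AbsoluteValue L ℝ => Real.log (g2 W v g D σ β r l)) ∧
      - gs (fun v : AbsoluteValue L ℝ => Real.log (g2 W v g D σ β r l)) ≤
        Module.finrank ℚ L * (D * (n + 1) + 2) + Module.finrank K L * nh g +
          (D + 2) * ∑ t, logHeight₁ (σ t) +
          8 * ∑ t, gs (fun v : AbsoluteValue L ℝ => Real.log (kc (W t) v)) := by
  obtain ⟨f1, g1⟩ := gs_log_bg (L := L) hg D σ
  have hb : aeval σ (pderiv r g) * β r ≠ 0 := mul_ne_zero hr (h0 r)
  obtain ⟨f2, g2'⟩ := L1s_max (a := aeval σ (pderiv l g) * β l) hb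
  have e : (fun v : AbsoluteValue L ℝ => Real.log (g2 W v g D σ β r l)) = fun v =>
      Real.log (max (v (aeval σ (pderiv l g) * β l)) (v (aeval σ (pderiv r g) * β r))) -
        (Real.log (cst v 2) + (Real.log (bg v g D σ) + Real.log (cst v 2) +
          ∑ t, (8 * Real.log (kc (W t) v) + 2 * Real.log (max 1 (v (σ t)))))) := by
    funext v
    unfold g2
    have h1 : cst v 2 ≠ 0 := (L1s_c_pos v).ne'
    have h2 : bg v g D σ ≠ 0 := (bg_pos v hg D σ).ne'
    have h3 : ∀ t, kc (W t) v ^ 8 ≠ 0 := fun t => pow_ne_zero 8 (L1s_kc_pos (W t) v).ne'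
    have h4 : ∀ t, max 1 (v (σ t)) ^ 2 ≠ 0 := fun t => pow_ne_zero 2 (L1s_m_pos v (σ t)).ne'
    have h5 : ∏ t, (kc (W t) v ^ 8 * max 1 (v (σ t)) ^ 2) ≠ 0 :=
      Finset.prod_ne_zero_iff.mpr fun t _ => mul_ne_zero (h3 t) (h4 t)
    have h6 : max (v (aeval σ (pderiv l g) * β l)) (v (aeval σ (pderiv r g) * β r)) ≠ 0 :=
      (lt_max_of_lt_right (v.pos hb)).ne'
    rw [Real.log_div h6 (mul_ne_zero h1 (mul_ne_zero (mul_ne_zero h2 h1) h5)),
      Real.log_mul h1 (mul_ne_zero (mul_ne_zero h2 h1) h5),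
      Real.log_mul (mul_ne_zero h2 h1) h5, Real.log_mul h2 h1,
      Real.log_prod (fun t _ => mul_ne_zero (h3 t) (h4 t))]
    congr 3
    refine Finset.sum_congr rfl fun t _ => ?_
    rw [Real.log_mul (h3 t) (h4 t), Real.log_pow, Real.log_pow]
    push_cast
    ring
  have f3 : FS (fun v : AbsoluteValue L ℝ => Real.log (cst v 2)) := FS_log_cst 2
  have f4 : ∀ t, FS (fun v : AbsoluteValue L ℝ => 8 * Real.log (kc (W t) v)) := fun t =>
    FS_const_mul _ (FS_log_kc (W t))
  have f5 : ∀ t, FS (fun v : AbsoluteValue L ℝ => 2 * Real.log (max 1 (v (σ t)))) := fun t =>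
    FS_const_mul _ (FS_log_max (σ t))
  have f6 : FS (fun v : AbsoluteValue L ℝ => ∑ t, (8 * Real.log (kc (W t) v) +
      2 * Real.log (max 1 (v (σ t))))) := FS_sum _ fun t _ => FS_add (f4 t) (f5 t)
  have f7 : FS (fun v : AbsoluteValue L ℝ => Real.log (cst v 2) + (Real.log (bg v g D σ) +
      Real.log (cst v 2) + ∑ t, (8 * Real.log (kc (W t) v) +
      2 * Real.log (max 1 (v (σ t)))))) := FS_add f3 (FS_add (FS_add f1 f3) f6)
  rw [e]
  refine ⟨FS_sub f2 f7, ?_⟩
  rw [gs_sub f2 f7, gs_add f3 (FS_add (FS_add f1 f3) f6), gs_add (FS_add f1 f3) f6, gs_add f1 f3,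
    gs_sum _ fun t _ => FS_add (f4 t) (f5 t), g2']
  have g3 : ∀ t, gs (fun v : AbsoluteValue L ℝ => 8 * Real.log (kc (W t) v) +
      2 * Real.log (max 1 (v (σ t)))) =
      8 * gs (fun v : AbsoluteValue L ℝ => Real.log (kc (W t) v)) + 2 * logHeight₁ (σ t) := by
    intro t
    rw [gs_add (f4 t) (f5 t), gs_const_mul, gs_const_mul, gs_log_max]
  rw [Finset.sum_congr rfl fun t _ => g3 t, Finset.sum_add_distrib, ← Finset.mul_sum,
    ← Finset.mul_sum]
  have g4 := L1s_cst (L := L)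
  have g5 : 0 ≤ logHeight ![aeval σ (pderiv l g) * β l, aeval σ (pderiv r g) * β r] :=
    logHeight_nonneg _
  nlinarith [g1, g4, g5]

theorem gs_log_max_two {a b : L} (h : b ≠ 0) :
    FS (fun v : AbsoluteValue L ℝ => Real.log (cst v 2 / max (v a) (v b))) ∧
      gs (fun v : AbsoluteValue L ℝ => Real.log (cst v 2 / max (v a) (v b))) ≤
        Module.finrank ℚ L - logHeight ![a, b] := by
  obtain ⟨f2, g2'⟩ := L1s_max (a := a) h
  have f3 : FS (fun v : AbsoluteValue L ℝ => Real.log (cst v 2)) := FS_log_cst 2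
  have e : (fun v : AbsoluteValue L ℝ => Real.log (cst v 2 / max (v a) (v b))) = fun v =>
      Real.log (cst v 2) - Real.log (max (v a) (v b)) := by
    funext v
    rw [Real.log_div (L1s_c_pos v).ne' (lt_max_of_lt_right (v.pos h)).ne']
  rw [e]
  refine ⟨FS_sub f3 f2, ?_⟩
  rw [gs_sub f3 f2, g2']
  exact sub_le_sub_right L1s_cst _

end

end Pool.Agent.Lib.MP_17a322_nt.VN
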