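import Pool.Agent.Lib.MP_17a322_nt.VN.L1p
import Pool.Agent.Lib.MP_17a322_nt.VN.L1q
import Pool.Agent.Lib.MP_17a322_nt.VN.L1s
import Pool.Agent.Lib.MP_17a322_nt.VN.L1t

/-!
Common lemmas for the inequalities of stage 1 and stage 2 (L1u, L1v).
-/

universe u

namespace Pool.Agent.Lib.MP_17a322_nt.VN

open MvPolynomial Height
open Pool.Agent.Lib.MP_17a322_nt.RO
open Pool.Agent.Lib.MP_17a322_nt.VJ

/-- The constants from the curves, for all extensions at once. -/
theorem const_pack {K : Type u} [Field K] [NumberField K] [DecidableEq K] {n : ℕ}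
    (W : Fin n → WeierstrassCurve K) [∀ t, (W t).IsElliptic] :
    ∃ Ck Ch : ℝ, 0 ≤ Ck ∧ 0 ≤ Ch ∧
      ∀ (L : Type u) [Field L] [NumberField L] [DecidableEq L] [Algebra K L]
        (V : Fin n → WeierstrassCurve L) (f : ∀ t, (W t).toAffine.Point →+ (V t).toAffine.Point)
        (z : ∀ t, (V t).toAffine.Point), (∀ t, (W t).map (algebraMap K L) = V t) →
        (∀ t, PB (W t) (V t) (f t)) → (∀ t, z t ≠ 0 ∧ ∃ N, 0 < N ∧ (z t).xRep 0 ^ N = 1) →
        (∑ t, gs (fun v : AbsoluteValue L ℝ => Real.log (kc (W t) v)) ≤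
          Module.finrank K L * Ck) ∧
        ∀ P₀ : ∀ t, (W t).toAffine.Point, (∀ t, f t (P₀ t) + z t ≠ 0) →
          (∑ t, logHeight₁ ((f t (P₀ t) + z t).xRep 0) ≤
            Module.finrank K L * (2 * HN P₀ + Ch)) ∧
          ∀ (P : ∀ t, (W t).toAffine.Point) (j : ℕ),
            (∀ t, f t (P t) - 2 ^ j • (f t (P₀ t) + z t) ≠ 0) →
            ∑ t, logHeight₁ ((f t (P t) - 2 ^ j • (f t (P₀ t) + z t)).xRep 0) ≤
              Module.finrank K L * (2 * ∑ t, logHeight (P t - 2 ^ j • P₀ t).xRep + Ch * 4 ^ j) := by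
  choose C hC hCk using fun t => gs_log_kc_le (W t)
  choose C' hC' hCh using fun t => heights_L (W t)
  refine ⟨∑ t, C t, ∑ t, C' t, Finset.sum_nonneg fun t _ => hC t,
    Finset.sum_nonneg fun t _ => hC' t, ?_⟩
  intro L _ _ _ _ V f z hV hf hz
  refine ⟨?_, ?_⟩
  · rw [Finset.mul_sum]
    refine Finset.sum_le_sum fun t _ => ?_
    rw [mul_comm]
    exact hCk t L
  · intro P₀ h0
    refine ⟨?_, ?_⟩
    · have h1 : ∀ t, logHeight₁ ((f t (P₀ t) + z t).xRep 0) ≤
          Module.finrank K L * (2 * logHeight (P₀ t).xRep + C' t) := by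
        intro t
        rw [← logHeight_xRep (h0 t)]
        exact (hCh t L (V t) (f t) (z t) (hV t) (hf t) (hz t).1 (hz t).2 (P₀ t)).1
      refine (Finset.sum_le_sum fun t _ => h1 t).trans (le_of_eq ?_)
      rw [← Finset.mul_sum, Finset.sum_add_distrib, ← Finset.mul_sum]
      rfl
    · intro P j hP
      have h1 : ∀ t, logHeight₁ ((f t (P t) - 2 ^ j • (f t (P₀ t) + z t)).xRep 0) ≤
          Module.finrank K L * (2 * logHeight (P t - 2 ^ j • P₀ t).xRep + C' t * 4 ^ j) := by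
        intro t
        rw [← logHeight_xRep (hP t)]
        exact (hCh t L (V t) (f t) (z t) (hV t) (hf t) (hz t).1 (hz t).2 (P₀ t)).2 (P t) j
      refine (Finset.sum_le_sum fun t _ => h1 t).trans (le_of_eq ?_)
      rw [← Finset.mul_sum, Finset.sum_add_distrib, ← Finset.mul_sum, ← Finset.sum_mul]

/-- The radius of one block: `A` is the product of the factors of the radius. -/
theorem rr_spec {K : Type u} [Field K] [NumberField K] {n : ℕ}
    (W : Fin n → WeierstrassCurve K) {L : Type u} [Field L] [NumberField L] [Algebra K L]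
    (σ q : Fin n → L) {a b : L} (hab : a ≠ 0 ∨ b ≠ 0) (A : AbsoluteValue L ℝ → ℝ)
    (hA : ∀ v, 0 < A v ∧ A v ≤ 1) (hAF : FS fun v => Real.log (A v)) :
    (∀ v : AbsoluteValue L ℝ, 0 < dlv v σ a b * A v /
        ((∏ t, kc (W t) v) ^ 200 * ∏ t, max 1 (v (q t))) ∧
      dlv v σ a b * A v / ((∏ t, kc (W t) v) ^ 200 * ∏ t, max 1 (v (q t))) ≤ A v ∧
      dlv v σ a b * A v / ((∏ t, kc (W t) v) ^ 200 * ∏ t, max 1 (v (q t))) *
        ((∏ t, kc (W t) v) ^ 200 * ∏ t, max 1 (v (q t))) = dlv v σ a b * A v) ∧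
    (FS fun v : AbsoluteValue L ℝ => Real.log (dlv v σ a b * A v /
        ((∏ t, kc (W t) v) ^ 200 * ∏ t, max 1 (v (q t))))) ∧
    - gs (fun v : AbsoluteValue L ℝ => Real.log (dlv v σ a b * A v /
        ((∏ t, kc (W t) v) ^ 200 * ∏ t, max 1 (v (q t))))) =
      gn σ a b + - gs (fun v => Real.log (A v)) +
        200 * ∑ t, gs (fun v : AbsoluteValue L ℝ => Real.log (kc (W t) v)) +
        ∑ t, logHeight₁ (q t) := by
  have hkc : ∀ v : AbsoluteValue L ℝ, 1 ≤ ∏ t, kc (W t) v := fun v =>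
    E1_one_le_prod _ _ fun t => one_le_kc (W t) v
  have hq : ∀ v : AbsoluteValue L ℝ, 1 ≤ ∏ t, max 1 (v (q t)) := fun v =>
    E1_one_le_prod _ _ fun t => le_max_left _ _
  have hD : ∀ v : AbsoluteValue L ℝ,
      1 ≤ (∏ t, kc (W t) v) ^ 200 * ∏ t, max 1 (v (q t)) := fun v =>
    one_le_mul_of_one_le_of_one_le (one_le_pow₀ (hkc v)) (hq v)
  have hlog : (fun v : AbsoluteValue L ℝ => Real.log (dlv v σ a b * A v /
        ((∏ t, kc (W t) v) ^ 200 * ∏ t, max 1 (v (q t))))) =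
      fun v : AbsoluteValue L ℝ => (Real.log (dlv v σ a b) + Real.log (A v)) -
        (200 * ∑ t, Real.log (kc (W t) v) + ∑ t, Real.log (max 1 (v (q t)))) := by
    funext v
    have h1 := (dlv_pos v σ hab).1
    have h2 := (hA v).1
    have h3 : 0 < ∏ t, kc (W t) v := lt_of_lt_of_le one_pos (hkc v)
    have h4 : 0 < ∏ t, max 1 (v (q t)) := lt_of_lt_of_le one_pos (hq v)
    rw [Real.log_div (mul_pos h1 h2).ne' (mul_pos (pow_pos h3 200) h4).ne',
      Real.log_mul h1.ne' h2.ne', Real.log_mul (pow_pos h3 200).ne' h4.ne', Real.log_pow,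
      Real.log_prod (fun t _ => (lt_of_lt_of_le one_pos (one_le_kc (W t) v)).ne'),
      Real.log_prod (fun t _ => (lt_of_lt_of_le one_pos (le_max_left 1 (v (q t)))).ne')]
    push_cast
    rfl
  have F1 : FS fun v : AbsoluteValue L ℝ => ∑ t, Real.log (kc (W t) v) :=
    FS_sum _ fun t _ => FS_log_kc (W t)
  have F2 : FS fun v : AbsoluteValue L ℝ => ∑ t, Real.log (max 1 (v (q t))) :=
    FS_sum _ fun t _ => FS_log_max (q t)
  have F3 := (gs_log_dlv σ a b).1
  refine ⟨fun v => ⟨?_, ?_, ?_⟩, ?_, ?_⟩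
  · exact div_pos (mul_pos (dlv_pos v σ hab).1 (hA v).1) (lt_of_lt_of_le one_pos (hD v))
  · refine (div_le_self (mul_pos (dlv_pos v σ hab).1 (hA v).1).le (hD v)).trans ?_
    exact mul_le_of_le_one_left (hA v).1.le (dlv_pos v σ hab).2
  · exact div_mul_cancel₀ _ (lt_of_lt_of_le one_pos (hD v)).ne'
  · rw [hlog]
    exact FS_sub (FS_add F3 hAF) (FS_add (FS_const_mul 200 F1) F2)
  · rw [hlog, gs_sub (FS_add F3 hAF) (FS_add (FS_const_mul 200 F1) F2), gs_add F3 hAF,
      gs_add (FS_const_mul 200 F1) F2, gs_const_mul, (gs_log_dlv σ a b).2,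
      gs_sum _ (fun t _ => FS_log_kc (W t)), gs_sum _ (fun t _ => FS_log_max (q t))]
    simp only [gs_log_max]
    ring

/-- Nonnegativity of the gain. -/
theorem gn_nonneg' {K : Type*} [Field K] [NumberField K] {ι : Type*} (s : ι → K) (a b : K) :
    0 ≤ gn s a b := by
  refine gs_nonneg fun v _ => ?_
  split_ifs
  · exact BC_core_nonneg a b v
  · exact le_rfl

theorem Ex1_C {L : Type*} [Field L] (j : ℕ) (a : L) : Ex1 L j (PowerSeries.C a) = PowerSeries.C a :=
  PowerSeries.expand_C _ _ a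

theorem Ex1_X {L : Type*} [Field L] (j : ℕ) :
    Ex1 L j (PowerSeries.X : PowerSeries L) = PowerSeries.X ^ (4 ^ j) :=
  PowerSeries.expand_X _ _

end Pool.Agent.Lib.MP_17a322_nt.VN
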