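import Pool.Agent.Lib.MP_17a322_nt.VN.L2A0
import Pool.Agent.Lib.MP_17a322_nt.VJ.A5
import Pool.Agent.Lib.MP_17a322_nt.VJ.B4

/-!
Part L-II of VN: bounds for a cofactor.

`degreeOf y M = R * degreeOf y f + degreeOf y N'` (`degreeOf_prod_eq` VJ/B4, or `degreeOf_mul_eq`,
`degreeOf_pow_eq` of Mathlib), `f ^ R ≠ 0`, `N' ≠ 0`. So `degreeOf y N' ≤ degreeOf y M`, and
`R ≤ R * degreeOf y f ≤ degreeOf y M` if `degreeOf y f ≠ 0`.
`nh N' ≤ nh M + 3 * finrank ℚ K * ∑ y, degreeOf y M` by `sum_nh_le` (VJ/B4, the two factors `f ^ R` and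
`N'`: index type `Fin 2`, `![f ^ R, N']`; `nh (f ^ R) ≥ 0` by `nh_nonneg`, VJ/A5), and `degreeOf y M ≤ b` for
all `y` (`4 ^ j ≥ 1`).
-/

universe u

namespace Pool.Agent.Lib.MP_17a322_nt.VN

open MvPolynomial Height
open Pool.Agent.Lib.MP_17a322_nt.RO
open Pool.Agent.Lib.MP_17a322_nt.VJ

theorem QB_factor {K : Type u} [Field K] [NumberField K] {m n : ℕ} (j : Fin m → ℕ) (b H : ℝ)
    (M N' f : MvPolynomial (VL m n) K) (R : ℕ) (hM : M = f ^ R * N') (hM0 : M ≠ 0)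
    (h : QB j b H M) :
    N' ≠ 0 ∧
      QB j b (H + 3 * Module.finrank ℚ K * (Fintype.card (VL m n) * b)) N' ∧
      (∀ y, N'.degreeOf y ≤ M.degreeOf y) ∧ ∀ y, f.degreeOf y ≠ 0 → R ≤ M.degreeOf y := by
  have hfR : f ^ R ≠ 0 := fun h0 => hM0 (by rw [hM, h0, zero_mul])
  have hN : N' ≠ 0 := fun h0 => hM0 (by rw [hM, h0, mul_zero])
  have hdeg : ∀ y, M.degreeOf y = (f ^ R).degreeOf y + N'.degreeOf y := fun y => by
    rw [hM, degreeOf_mul_eq hfR hN]
  have hle : ∀ y, N'.degreeOf y ≤ M.degreeOf y := fun y => by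
    rw [hdeg y]
    exact Nat.le_add_left _ _
  have hleR : ∀ y, (N'.degreeOf y : ℝ) ≤ M.degreeOf y := fun y => by exact_mod_cast hle y
  obtain ⟨hX, hS, hZ, hH⟩ := h
  have h4 : ∀ p : Fin m × Fin n, (1 : ℝ) ≤ (4 : ℝ) ^ j p.1 := fun p =>
    one_le_pow₀ (by norm_num)
  have hb : ∀ y, (M.degreeOf y : ℝ) ≤ b := by
    intro y
    rcases y with t | p | p
    · exact hX t
    · exact (le_mul_of_one_le_left (Nat.cast_nonneg _) (h4 p)).trans (hS p)
    · exact (le_mul_of_one_le_left (Nat.cast_nonneg _) (h4 p)).trans (hZ p)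
  refine ⟨hN, ⟨fun t => (hleR _).trans (hX t), fun p => ?_, fun p => ?_, ?_⟩, hle, ?_⟩
  · exact (mul_le_mul_of_nonneg_left (hleR _) (by positivity)).trans (hS p)
  · exact (mul_le_mul_of_nonneg_left (hleR _) (by positivity)).trans (hZ p)
  · have h5 := sum_nh_le K (Finset.univ : Finset (Fin 2)) ![f ^ R, N'] (by
      intro i _
      fin_cases i
      · exact hfR
      · exact hN)
    rw [Fin.sum_univ_two, Fin.prod_univ_two] at h5
    have e0 : (![f ^ R, N'] : Fin 2 → MvPolynomial (VL m n) K) 0 = f ^ R := rfl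
    have e1 : (![f ^ R, N'] : Fin 2 → MvPolynomial (VL m n) K) 1 = N' := rfl
    rw [e0, e1, ← hM] at h5
    have h6 : 0 ≤ nh (f ^ R) := nh_nonneg hfR
    have h7 : ∑ t, (degreeOf t M : ℝ) ≤ Fintype.card (VL m n) * b := by
      refine (Finset.sum_le_sum fun t _ => hb t).trans (le_of_eq ?_)
      rw [Finset.sum_const, Finset.card_univ, nsmul_eq_mul]
    have h8 : (3 * Module.finrank ℚ K : ℝ) * ∑ t, (degreeOf t M : ℝ) ≤
        3 * Module.finrank ℚ K * (Fintype.card (VL m n) * b) :=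
      mul_le_mul_of_nonneg_left h7 (by positivity)
    linarith
  · intro y hy
    have hf : f ≠ 0 := by
      rintro rfl
      exact hy (by simp)
    rw [hdeg y, degreeOf_pow_eq y f R hf]
    have h9 : R * 1 ≤ R * degreeOf y f := Nat.mul_le_mul_left R (Nat.one_le_iff_ne_zero.mpr hy)
    omega

end Pool.Agent.Lib.MP_17a322_nt.VN
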