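import Pool.Agent.Lib.MP_17a322_nt.VN.L0
import Pool.Agent.Lib.MP_17a322_nt.VJ.A2
import Pool.Agent.Lib.MP_17a322_nt.VJ.J1c

/-!
Part L-II of VN: the polynomials `gS g i`, multiplicity of a factor.

`gS g i = rename (fun t => vS (i, t)) (g i)`, the map is injective: `J1c_irreducible` (VJ/J1c),
`degreeOf_rename_of_injective`, `vars_rename`, `NV_rename` (VJ/A2).
`exists_pow_dvd`: `WfDvdMonoid.max_power_factor` (`MvPolynomial` over a field is a UFD, `f` irreducible).
-/

universe u

namespace Pool.Agent.Lib.MP_17a322_nt.VN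

open MvPolynomial Height
open Pool.Agent.Lib.MP_17a322_nt.RO
open Pool.Agent.Lib.MP_17a322_nt.VJ

private theorem L2A5a_inj {m n : ℕ} (i : Fin m) :
    Function.Injective (fun t : Fin n => (vS (i, t) : VL m n)) := by
  intro t t' h
  exact congrArg Prod.snd (Sum.inl_injective (Sum.inr_injective h))

theorem gS_irreducible {K : Type*} [Field K] {m n : ℕ} (g : Fin m → MvPolynomial (Fin n) K)
    (i : Fin m) (hg : Irreducible (g i)) :
    Irreducible (gS g i : MvPolynomial (VL m n) K) := by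
  unfold gS
  exact J1c_irreducible _ (L2A5a_inj i) hg

theorem degreeOf_gS {K : Type*} [Field K] {m n : ℕ} (g : Fin m → MvPolynomial (Fin n) K)
    (i : Fin m) (t : Fin n) :
    (gS g i : MvPolynomial (VL m n) K).degreeOf (vS (i, t)) = (g i).degreeOf t := by
  unfold gS
  exact degreeOf_rename_of_injective (L2A5a_inj i) t

theorem degreeOf_gS_eq_zero {K : Type*} [Field K] {m n : ℕ}
    (g : Fin m → MvPolynomial (Fin n) K) (i : Fin m) (y : VL m n) (hy : ∀ t, y ≠ vS (i, t)) :
    (gS g i : MvPolynomial (VL m n) K).degreeOf y = 0 := by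
  classical
  unfold gS
  rw [degreeOf_def, Multiset.count_eq_zero, degrees_rename_of_injective (L2A5a_inj i)]
  intro h
  obtain ⟨t, -, ht⟩ := Multiset.mem_map.1 h
  exact hy t ht.symm

theorem nh_gS {K : Type*} [Field K] [AdmissibleAbsValues K] {m n : ℕ}
    (g : Fin m → MvPolynomial (Fin n) K) (i : Fin m) :
    nh (gS g i : MvPolynomial (VL m n) K) = nh (g i) := by
  unfold nh gS
  simp only [NV_rename _ _ _ (L2A5a_inj i)]

theorem exists_pow_dvd {K σ : Type*} [Field K] (f F : MvPolynomial σ K) (hf : Irreducible f)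
    (hF : F ≠ 0) : ∃ (R : ℕ) (G : MvPolynomial σ K), F = f ^ R * G ∧ ¬ f ∣ G := by
  obtain ⟨R, G, h1, h2⟩ := WfDvdMonoid.max_power_factor hF hf
  exact ⟨R, G, h2, h1⟩

end Pool.Agent.Lib.MP_17a322_nt.VN
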