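import Pool.Agent.Lib.MP_17a322_nt.VN.L2A0
import Pool.Agent.Lib.MP_17a322_nt.VN.L2A5a
import Pool.Agent.Lib.MP_17a322_nt.VJ.A5

/-!
Part L-II of VN: bounds for the elimination of `S_(i, r)` with `g i`.

`degreeOf_El_le`, `degreeOf_El_self` (VJ/C2), `degreeOf_gS`, `degreeOf_gS_eq_zero`, `nh_gS` (L2A5a). Let
`d = degreeOf (vS (i, r)) N'`, so `4 ^ j i * d ≤ b`. For `y ≠ vS (i, r)`:
`deg_y (El ..) ≤ d * deg_y (gS g i) + deg (gS g i) * deg_y N'`, so for `y = vS (i, t)` at most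
`D * d + D * deg_y N'`, for the other `y` at most `D * deg_y N'`; `D ≥ 1` is not needed (`b ≥ 0`, from the
degree in `vX r`). `nh (El ..) ≤ d * nh (g i) + deg (gS g i) * nh N' ≤ d * 4 ^ j i + D * H` (`nh_El_le`, VJ/C5;
`nh N' ≥ 0`: if `N' = 0` then `nh N' = 0` or use `hH`).
-/

universe u

namespace Pool.Agent.Lib.MP_17a322_nt.VN

open MvPolynomial Height
open Pool.Agent.Lib.MP_17a322_nt.RO
open Pool.Agent.Lib.MP_17a322_nt.VJ

theorem QB_El_gS {K : Type u} [Field K] [NumberField K] {m n : ℕ} (j : Fin m → ℕ)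
    (g : Fin m → MvPolynomial (Fin n) K) (i : Fin m) (r : Fin n) (D : ℕ) (b H : ℝ) (hH : 0 ≤ H)
    (hD : ∀ t, (g i).degreeOf t ≤ D) (hg : nh (g i) ≤ 4 ^ j i)
    (N' : MvPolynomial (VL m n) K) (h : QB j b H N')
    (hE : El (vS (i, r)) (gS g i) N' ≠ 0) :
    QB j (2 * D * b) (b + D * H) (El (vS (i, r)) (gS g i) N') := by
  obtain ⟨hX, hS, hZ, hn⟩ := h
  have hb : 0 ≤ b := (Nat.cast_nonneg _).trans (hX r)
  have hD0 : (0 : ℝ) ≤ D := Nat.cast_nonneg _
  have hgr : (gS g i : MvPolynomial (VL m n) K).degreeOf (vS (i, r)) ≤ D := by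
    rw [degreeOf_gS]
    exact hD r
  have hle := degreeOf_El_le' (vS (i, r) : VL m n) (gS g i) N'
  -- the variables which do not occur in `g`
  have hzero : ∀ y : VL m n, (gS g i : MvPolynomial (VL m n) K).degreeOf y = 0 →
      ∀ q : ℝ, 0 ≤ q → q * (N'.degreeOf y : ℝ) ≤ b →
        q * ((El (vS (i, r)) (gS g i) N').degreeOf y : ℝ) ≤ 2 * D * b := by
    intro y hy q hq h1
    have h2 : (El (vS (i, r)) (gS g i) N').degreeOf y ≤ D * N'.degreeOf y := by
      refine (hle y).trans ?_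
      rw [hy, mul_zero, zero_add]
      exact Nat.mul_le_mul_right _ hgr
    have h3 : ((El (vS (i, r)) (gS g i) N').degreeOf y : ℝ) ≤ D * N'.degreeOf y := by
      exact_mod_cast h2
    calc q * ((El (vS (i, r)) (gS g i) N').degreeOf y : ℝ) ≤ q * (D * N'.degreeOf y) :=
          mul_le_mul_of_nonneg_left h3 hq
      _ = D * (q * N'.degreeOf y) := by ring
      _ ≤ D * b := mul_le_mul_of_nonneg_left h1 hD0
      _ ≤ 2 * D * b := by nlinarith [mul_nonneg hD0 hb]
  refine ⟨fun t => ?_, fun p => ?_, fun p => ?_, ?_⟩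
  · have h1 := hzero (vX t) (degreeOf_gS_eq_zero g i (vX t) (fun t' h => nomatch h)) 1 zero_le_one
      (by rw [one_mul]; exact hX t)
    rw [one_mul] at h1
    exact h1
  · have hq : (0 : ℝ) ≤ 4 ^ j p.1 := by positivity
    by_cases hp : p.1 = i
    · have hpe : p = (i, p.2) := by rw [← hp]
      have h2 : (El (vS (i, r)) (gS g i) N').degreeOf (vS p) ≤
          N'.degreeOf (vS (i, r)) * D + D * N'.degreeOf (vS p) := by
        refine (hle (vS p)).trans (Nat.add_le_add (Nat.mul_le_mul_left _ ?_)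
          (Nat.mul_le_mul_right _ hgr))
        rw [hpe, degreeOf_gS]
        exact hD p.2
      have h3 : ((El (vS (i, r)) (gS g i) N').degreeOf (vS p) : ℝ) ≤
          N'.degreeOf (vS (i, r)) * D + D * N'.degreeOf (vS p) := by
        exact_mod_cast h2
      have h4 := hS (i, r)
      have h5 := hS p
      have h6 : (4 : ℝ) ^ j p.1 * N'.degreeOf (vS (i, r)) ≤ b := by
        rw [hp]
        exact h4
      calc (4 : ℝ) ^ j p.1 * ((El (vS (i, r)) (gS g i) N').degreeOf (vS p) : ℝ) ≤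
          4 ^ j p.1 * (N'.degreeOf (vS (i, r)) * D + D * N'.degreeOf (vS p)) :=
            mul_le_mul_of_nonneg_left h3 hq
        _ = D * (4 ^ j p.1 * N'.degreeOf (vS (i, r))) + D * (4 ^ j p.1 * N'.degreeOf (vS p)) := by
            ring
        _ ≤ D * b + D * b :=
            add_le_add (mul_le_mul_of_nonneg_left h6 hD0) (mul_le_mul_of_nonneg_left h5 hD0)
        _ = 2 * D * b := by ring
    · refine hzero (vS p) (degreeOf_gS_eq_zero g i (vS p) (fun t' h => hp ?_)) _ hq (hS p)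
      exact congrArg Prod.fst (Sum.inl_injective (Sum.inr_injective h))
  · exact hzero (vZ p) (degreeOf_gS_eq_zero g i (vZ p) (fun t' h => nomatch h)) _ (by positivity)
      (hZ p)
  · refine (nh_El_le _ _ _ hE).trans ?_
    rw [nh_gS]
    have h1 : (N'.degreeOf (vS (i, r)) : ℝ) * nh (g i) ≤ b := by
      calc (N'.degreeOf (vS (i, r)) : ℝ) * nh (g i) ≤ N'.degreeOf (vS (i, r)) * 4 ^ j i :=
            mul_le_mul_of_nonneg_left hg (Nat.cast_nonneg _)
        _ = 4 ^ j i * N'.degreeOf (vS (i, r)) := mul_comm _ _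
        _ ≤ b := hS (i, r)
    have h2 : (((gS g i : MvPolynomial (VL m n) K).degreeOf (vS (i, r)) : ℕ) : ℝ) * nh N' ≤
        D * H := by
      have h3 : (((gS g i : MvPolynomial (VL m n) K).degreeOf (vS (i, r)) : ℕ) : ℝ) ≤ D := by
        exact_mod_cast hgr
      calc (((gS g i : MvPolynomial (VL m n) K).degreeOf (vS (i, r)) : ℕ) : ℝ) * nh N' ≤
          (((gS g i : MvPolynomial (VL m n) K).degreeOf (vS (i, r)) : ℕ) : ℝ) * H :=
            mul_le_mul_of_nonneg_left hn (Nat.cast_nonneg _)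
        _ ≤ D * H := mul_le_mul_of_nonneg_right h3 hH
    exact add_le_add h1 h2

end Pool.Agent.Lib.MP_17a322_nt.VN
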