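import Pool.Agent.Lib.MP_17a322_nt.VN.L2B3a
import Pool.Agent.Lib.MP_17a322_nt.VJ.D7

/-!
Part L-II of VN: the index of a polynomial in the `S_p`, `p.2 ∉ r` (`zero_lemma`, VJ/D7).

`R, D, B₁` from `zero_lemma.{u} (m * n) s B`, `R₀ = max R 2`, `D' = D`,
`B' = B₁ * finrank ℚ K`. Let `ι = {p : Fin m × Fin n // p.2 ∉ r}`, `w p = 4 ^ j p.1.1`. If
`IG w (s * μ) (fun p => σ p.1) F` (`IG` is in VJ/Defs), `zero_lemma` gives `t₀ = ⟨(i, _), _⟩` and `G`
(`nh F ≤ B * μ ≤ B * μ * finrank`; `F.vars.card ≤ card ι ≤ m * n`; the weights: `j` is injective since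
`R₀ ≥ 2`, compare `G14_weights`, VJ/G14), all variables of `G` have `w t = w t₀`, so `t.1.1 = i`
(`4 ^ j i = 4 ^ j i'` and `i < i'` give `R₀ * 4 ^ j i ≤ 4 ^ j i`, impossible): `block_r` (L2B3a). If not `IG`,
there is `m₀` (definition of `IG`).
-/

universe u

namespace Pool.Agent.Lib.MP_17a322_nt.VN

open MvPolynomial Height
open Pool.Agent.Lib.MP_17a322_nt.RO
open Pool.Agent.Lib.MP_17a322_nt.VJ

theorem T_index {K : Type u} [Field K] [NumberField K] (m n : ℕ) (r : Option (Fin n)) (s B : ℝ)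
    (hs : 0 < s) (hB : 0 ≤ B) :
    ∃ (R₀ D' : ℕ) (B' : ℝ), 0 ≤ B' ∧ ∀ (j : Fin m → ℕ) (σ : Fin m × Fin n → K)
      (F : MvPolynomial {p : Fin m × Fin n // p.2 ∉ r} K) (μ : ℝ),
      (∀ i i', i < i' → R₀ * 4 ^ j i ≤ 4 ^ j i') → F ≠ 0 → 0 < μ →
      (∀ p, (4 : ℝ) ^ j p.1.1 * F.degreeOf p ≤ μ) → nh F ≤ B * μ →
      (∃ (i : Fin m) (G : MvPolynomial (Fin n) K), G ≠ 0 ∧ (∀ t ∈ r, G.degreeOf t = 0) ∧
        (∀ t, G.degreeOf t ≤ D') ∧ nh G ≤ B' * 4 ^ j i ∧ eval (fun t => σ (i, t)) G = 0) ∨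
      ∃ m₀ : {p : Fin m × Fin n // p.2 ∉ r} →₀ ℕ,
        ((Finsupp.weight (fun p : {p : Fin m × Fin n // p.2 ∉ r} => 4 ^ j p.1.1) m₀ : ℕ) : ℝ) <
          s * μ ∧ coeff m₀ (tr (fun p => σ p.1) F) ≠ 0 := by
  classical
  obtain ⟨R, D, B₁, hB₁, H⟩ := zero_lemma.{u} (m * n) s B hs hB
  have hfin : (1 : ℝ) ≤ Module.finrank ℚ K := by
    exact_mod_cast Nat.succ_le_of_lt (Module.finrank_pos (R := ℚ) (M := K))
  refine ⟨max R 2, D, B₁ * Module.finrank ℚ K, mul_nonneg hB₁ (by linarith), ?_⟩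
  intro j σ F μ hj hF hμ hdeg hnh
  have hcast : ∀ i : Fin m, ((4 ^ j i : ℕ) : ℝ) = (4 : ℝ) ^ j i := fun i => by push_cast; rfl
  by_cases hI : IG (fun p : {p : Fin m × Fin n // p.2 ∉ r} => 4 ^ j p.1.1) (s * μ)
      (fun p => σ p.1) F
  · have hlt : ∀ i i' : Fin m, i < i' → R * 4 ^ j i ≤ 4 ^ j i' := fun i i' h =>
      (Nat.mul_le_mul_right _ (le_max_left R 2)).trans (hj i i' h)
    have hlt2 : ∀ i i' : Fin m, i < i' → 4 ^ j i < 4 ^ j i' := fun i i' h => by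
      have h1 := (Nat.mul_le_mul_right (4 ^ j i) (le_max_right R 2)).trans (hj i i' h)
      have h2 : 0 < 4 ^ j i := Nat.pow_pos (by norm_num)
      omega
    have hcard : F.vars.card ≤ m * n := by
      refine (Finset.card_le_univ _).trans ((Fintype.card_subtype_le _).trans (le_of_eq ?_))
      rw [Fintype.card_prod, Fintype.card_fin, Fintype.card_fin]
    obtain ⟨t₀, G, hG, hGv, hGd, hGn, hGe⟩ := H K {p : Fin m × Fin n // p.2 ∉ r}
      (fun p => 4 ^ j p.1.1) (fun p => σ p.1) F μ (fun t => Nat.one_le_pow _ _ (by norm_num))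
      (fun t t' => by
        rcases lt_trichotomy t.1.1 t'.1.1 with h | h | h
        · exact Or.inr (Or.inl (hlt _ _ h))
        · left
          rw [h]
        · exact Or.inr (Or.inr (hlt _ _ h))) hF hcard hμ
      (fun t => by
        rw [hcast]
        exact hdeg t)
      (hnh.trans (le_mul_of_one_le_right (mul_nonneg hB hμ.le) hfin)) hI
    obtain ⟨G', hG', hG'r, hG'd, hG'n, hG'e⟩ := block_r r t₀.1.1 G hG (fun p hp => by
      have h1 : 4 ^ j p.1.1 = 4 ^ j t₀.1.1 := hGv p hp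
      rcases lt_trichotomy p.1.1 t₀.1.1 with h | h | h
      · exact absurd h1 (hlt2 _ _ h).ne
      · exact h
      · exact absurd h1 (hlt2 _ _ h).ne') D hGd σ
    left
    refine ⟨t₀.1.1, G', hG', hG'r, hG'd, ?_, ?_⟩
    · rw [hG'n]
      refine hGn.trans (le_of_eq ?_)
      rw [hcast]
      ring
    · rw [hG'e]
      exact hGe
  · right
    unfold IG at hI
    push Not at hI
    exact hI

end Pool.Agent.Lib.MP_17a322_nt.VN
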