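import Pool.Agent.Lib.MP_17a322_nt.VN.L2B2
import Pool.Agent.Lib.MP_17a322_nt.VN.L2B3b

/-!
Part L-II of VN: (II.2), the order in `T`.

`R₀, D', B'` from `T_index` (L2B3b). Let `ι = {p : Fin m × Fin n // p.2 ∉ r}` and
`f : Fin n ⊕ ι → VL m n`, `f = Sum.elim vX (fun p => vS p.1)`, injective. The variables of `N` are in the
range of `f` (`degreeOf y N = 0` means `y ∉ N.vars`: `D7_mem_vars`, VJ/D7; for `t ∈ r`, i.e. `p.2 ∈ r`), so
`N = rename f N₁` (`exists_rename_eq_of_vars_subset_range`). `exists_cb_ne` (L2B1): `β` with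
`F = cbp β N₁ ≠ 0`; `degreeOf p F ≤ degreeOf (inr p) N₁ = degreeOf (vS p.1) N` (`degreeOf_cb_le`,
`degreeOf_rename_of_injective`), `nh F ≤ nh N₁ = nh N ≤ B * μ` (`nh_cb_le`, `NV_rename` VJ/A2). `T_index`:
the first case is the first case here. In the second case let `w p = 4 ^ j p.1.1`,
`a = Finsupp.weight w m₀`, `c₁ = PowerSeries.coeff a (gen w (fun p => σ p.1) N₁) ≠ 0` (`gen_ne_zero`, L2B2),
`c = rename (Sum.map id Subtype.val) c₁ ≠ 0` (`rename_injective`). For `L, x, ζ, S`: by `map_gen`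
`aeval (Sum.elim x ζ) c = aeval (Sum.elim x (fun p : ι => ζ p.1)) c₁` is the coefficient of `T ^ a` of
`aeval (Sum.elim (C ∘ x) (fun p : ι => C (σ p.1) + C (ζ p.1) * T ^ w p)) N₁`, which is
`aeval (Sum.elim (C ∘ x) (Sum.elim S 0)) (rename f N₁)` (`aeval_rename`, the hypothesis on `S`).
-/

universe u

namespace Pool.Agent.Lib.MP_17a322_nt.VN

open MvPolynomial Height
open Pool.Agent.Lib.MP_17a322_nt.RO
open Pool.Agent.Lib.MP_17a322_nt.VJ

/-- (II.2) The order in `T` (VJ `zero_lemma`). `r = none` in stage 1, `r = some r` in stage 2. -/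
theorem order_T {K : Type u} [Field K] [NumberField K] (m n : ℕ) (r : Option (Fin n)) (s B : ℝ)
    (hs : 0 < s) (hB : 0 ≤ B) :
    ∃ (R₀ D' : ℕ) (B' : ℝ), 0 ≤ B' ∧ ∀ (j : Fin m → ℕ) (σ : Fin m × Fin n → K)
      (N : MvPolynomial (VL m n) K) (μ : ℝ),
      (∀ i i', i < i' → R₀ * 4 ^ j i ≤ 4 ^ j i') → N ≠ 0 → 0 < μ →
      (∀ p, N.degreeOf (vZ p) = 0) → (∀ i, ∀ t ∈ r, N.degreeOf (vS (i, t)) = 0) →
      (∀ p : Fin m × Fin n, (4 : ℝ) ^ j p.1 * N.degreeOf (vS p) ≤ μ) → nh N ≤ B * μ →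
      (∃ (i : Fin m) (G : MvPolynomial (Fin n) K), G ≠ 0 ∧ (∀ t ∈ r, G.degreeOf t = 0) ∧
        (∀ t, G.degreeOf t ≤ D') ∧ nh G ≤ B' * 4 ^ j i ∧ eval (fun t => σ (i, t)) G = 0) ∨
      ∃ (a : ℕ) (c : MvPolynomial (Fin n ⊕ (Fin m × Fin n)) K), (a : ℝ) < s * μ ∧ c ≠ 0 ∧
        ∀ (L : Type u) [Field L] [Algebra K L] (x : Fin n → L) (ζ : Fin m × Fin n → L)
          (S : Fin m × Fin n → PowerSeries L),
          (∀ p, p.2 ∉ r → S p = PowerSeries.C (algebraMap K L (σ p)) +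
            PowerSeries.C (ζ p) * PowerSeries.X ^ (4 ^ j p.1)) →
          PowerSeries.coeff a (aeval (Sum.elim (fun t => PowerSeries.C (x t))
            (Sum.elim S fun _ => 0) : VL m n → PowerSeries L) N) = aeval (Sum.elim x ζ) c := by
  classical
  obtain ⟨R₀, D', B', hB', hT⟩ := T_index (K := K) m n r s B hs hB
  refine ⟨R₀, D', B', hB', ?_⟩
  intro j σ N μ hj hN hμ hZ hr hdeg hnh
  let f : Fin n ⊕ {p : Fin m × Fin n // p.2 ∉ r} → VL m n := Sum.elim vX (fun p => vS p.1)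
  have hf : Function.Injective f := by
    rintro (a | a) (b | b) hab
    · exact congrArg _ (Sum.inl_injective hab)
    · exact absurd hab Sum.inl_ne_inr
    · exact absurd hab Sum.inr_ne_inl
    · exact congrArg _ (Subtype.ext (Sum.inl_injective (Sum.inr_injective hab)))
  have hrange : (N.vars : Set (VL m n)) ⊆ Set.range f := by
    intro y hy
    rcases y with t | p | p
    · exact ⟨Sum.inl t, rfl⟩
    · by_cases hp : p.2 ∈ r
      · exact absurd (hr p.1 p.2 hp) ((D7_mem_vars N _).1 hy)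
      · exact ⟨Sum.inr ⟨p, hp⟩, rfl⟩
    · exact absurd (hZ p) ((D7_mem_vars N _).1 hy)
  obtain ⟨N₁, hN₁⟩ := exists_rename_eq_of_vars_subset_range N f hf hrange
  subst hN₁
  have hN₁0 : N₁ ≠ 0 := by
    rintro rfl
    exact hN (map_zero _)
  obtain ⟨β, hβ⟩ := exists_cb_ne N₁ hN₁0
  have hdF : ∀ p, (4 : ℝ) ^ j p.1.1 * (cbp β N₁).degreeOf p ≤ μ := by
    intro p
    refine le_trans ?_ (hdeg p.1)
    refine mul_le_mul_of_nonneg_left ?_ (by positivity)
    have h1 := degreeOf_cb_le β N₁ p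
    have h2 : (rename f N₁).degreeOf (f (Sum.inr p)) = N₁.degreeOf (Sum.inr p) :=
      degreeOf_rename_of_injective hf _
    rw [← h2] at h1
    exact Nat.cast_le.2 h1
  have hnF : nh (cbp β N₁) ≤ B * μ := by
    refine (nh_cb_le β N₁ hβ).trans (le_trans (le_of_eq ?_) hnh)
    unfold nh
    congr 1
    funext v
    rw [NV_rename v N₁ f hf]
  rcases hT j σ (cbp β N₁) μ hj hβ hμ hdF hnF with h | ⟨m₀, hm₀, hc₀⟩
  · exact Or.inl h
  · right
    let w : {p : Fin m × Fin n // p.2 ∉ r} → ℕ := fun p => 4 ^ j p.1.1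
    have hc := gen_ne_zero w (fun p => σ p.1) N₁ β m₀ hc₀
    refine ⟨Finsupp.weight w m₀, rename (Sum.map id Subtype.val)
      (PowerSeries.coeff (Finsupp.weight w m₀) (gen w (fun p => σ p.1) N₁)), hm₀, ?_, ?_⟩
    · intro h0
      apply hc
      refine rename_injective (Sum.map id Subtype.val)
        (Sum.map_injective.2 ⟨Function.injective_id, Subtype.val_injective⟩) ?_
      rw [h0, map_zero]
    · intro L _ _ x ζ S hS
      have e1 : (Sum.elim x ζ) ∘ (Sum.map id Subtype.val) =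
          Sum.elim x (fun p : {p : Fin m × Fin n // p.2 ∉ r} => ζ p.1) := by
        funext y
        rcases y with y | y <;> rfl
      have e2 : (Sum.elim (fun t => PowerSeries.C (x t))
            (Sum.elim S fun _ => 0) : VL m n → PowerSeries L) ∘ f =
          Sum.elim (fun t => PowerSeries.C (x t)) (fun p =>
            PowerSeries.C (algebraMap K L (σ p.1)) +
              PowerSeries.C (ζ p.1) * PowerSeries.X ^ w p) := by
        funext y
        rcases y with t | p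
        · rfl
        · exact hS p.1 p.2
      rw [aeval_rename, aeval_rename, e1, e2, map_gen]

end Pool.Agent.Lib.MP_17a322_nt.VN
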