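import Pool.Agent.Lib.MP_17a322_nt.VN.L2A1
import Pool.Agent.Lib.MP_17a322_nt.VN.L2D0

/-!
Part L-II of VN: (II.4), the chain in stage 1.

Let `B = MvPolynomial (Fin m × Fin n) A`, `pt = pS x S : VL m n → B`, and for `i : Fin m` let
`τ i : B →+* B` be the coefficient `0` of `sb ξ i d` (`PowerSeries.constantCoeff` composed with `sb ξ i d`;
independent of `d`): `C a ↦ C a`, `X p ↦ C (constantCoeff (ξ p))` for `p.1 = i`, `X p ↦ X p` otherwise. It is
an `A`-algebra homomorphism. `F` is defined by recursion: `F 0 = aeval pt (N 0)`,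
`F i.succ = τ i (F i.castSucc)` (on `ℕ`, or by `Fin.induction`). Claim: `F k ∣ aeval pt (N k)`, by
induction. Let `F i.castSucc ∣ aeval pt (N i.castSucc)`. Then `F i.succ` divides
`τ i (aeval pt (N i.castSucc)) = aeval pt₁ (N i.castSucc)` with `pt₁ = τ i ∘ pt`, i.e. `pt₁` is `pt` with
`C (constantCoeff (ξ (i, t)))` for `vZ (i, t)`. `aeval pt₁ (al W χ j (i, t)) = 0` by `aeval_al` (L2A1) and
`hrel` (mapped by the algebra homomorphism `C : A → B`, `map_S3`, `map_mu`, VJ/E3). By `hN`,
`aeval pt₁ (N i.castSucc) ∣ aeval pt₁ (N i.succ)`, and `aeval pt₁ (N i.succ) = aeval pt (N i.succ)` since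
`N i.succ` does not involve the `vZ (i, t)` (`hZ`; `aeval_congr_of_degreeOf`, L2D0).
-/

universe u

namespace Pool.Agent.Lib.MP_17a322_nt.VN

open MvPolynomial Height
open Pool.Agent.Lib.MP_17a322_nt.RO
open Pool.Agent.Lib.MP_17a322_nt.VJ

/-- (II.4) The chain in stage 1. `x`, `S`, `ξ` satisfy the relations. -/
theorem chain_one {K : Type u} [Field K] [NumberField K] {m n : ℕ}
    (W : Fin n → WeierstrassCurve K) (χ : Fin n → Bool) (j : Fin m → ℕ)
    (N : Fin (m + 1) → MvPolynomial (VL m n) K)
    (hS : ∀ (i i' : Fin m) (t : Fin n), i ≤ i' → (N i.castSucc).degreeOf (vS (i', t)) = 0)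
    (hZ : ∀ (i i' : Fin m) (t : Fin n), i' ≤ i → (N i.succ).degreeOf (vZ (i', t)) = 0)
    (hN : ∀ (i : Fin m) (A : Type u) [CommRing A] [Algebra K A] (x : VL m n → A),
      (∀ t, aeval x (al W χ j (i, t)) = 0) → aeval x (N i.castSucc) ∣ aeval x (N i.succ))
    {A : Type u} [CommRing A] [IsDomain A] [Algebra K A] (x : Fin n → A)
    (S : Fin m × Fin n → A) (ξ : Fin m × Fin n → PowerSeries A)
    (hrel : ∀ p : Fin m × Fin n, S3 (W p.2) (mu (W p.2) (j p.1) ![x p.2, 1])
      (vc (χ p.2) (S p)) ![PowerSeries.constantCoeff (ξ p), 1] = 0)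
    (d : Fin n) :
    ∃ F : Fin (m + 1) → MvPolynomial (Fin m × Fin n) A, F 0 = aeval (pS x S) (N 0) ∧
      F (Fin.last m) ∣ aeval (pS x S) (N (Fin.last m)) ∧
      ∀ i : Fin m, F i.succ = PowerSeries.coeff 0 (sb ξ i d (F i.castSucc)) := by
  classical
  obtain ⟨F, hF⟩ : ∃ F : Fin (m + 1) → MvPolynomial (Fin m × Fin n) A,
      F = Fin.induction (motive := fun _ => MvPolynomial (Fin m × Fin n) A)
        (aeval (pS x S) (N 0)) (fun i Fi => PowerSeries.coeff 0 (sb ξ i d Fi)) := ⟨_, rfl⟩
  have hF0 : F 0 = aeval (pS x S) (N 0) := by rw [hF]; rfl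
  have hFs : ∀ i : Fin m, F i.succ = PowerSeries.coeff 0 (sb ξ i d (F i.castSucc)) := by
    intro i
    rw [hF]
    rfl
  have key : ∀ k : Fin (m + 1), F k ∣ aeval (pS x S) (N k) := by
    intro k
    induction k using Fin.induction with
    | zero => rw [hF0]
    | succ i ih =>
      obtain ⟨τ, hτ⟩ : ∃ τ : MvPolynomial (Fin m × Fin n) A →+* MvPolynomial (Fin m × Fin n) A,
          τ = (PowerSeries.constantCoeff (R := MvPolynomial (Fin m × Fin n) A)).comp
            (sb ξ i d) := ⟨_, rfl⟩
      have hτv : ∀ b, τ b = PowerSeries.coeff 0 (sb ξ i d b) := by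
        intro b
        rw [hτ, RingHom.comp_apply, PowerSeries.coeff_zero_eq_constantCoeff_apply]
      have hτC : ∀ a : A, τ (C a) = C a := by
        intro a
        rw [hτ, RingHom.comp_apply, sb, eval₂Hom_C, RingHom.comp_apply,
          PowerSeries.constantCoeff_C]
      have hτX : ∀ p : Fin m × Fin n, τ (X p) =
          if p.1 = i then C (PowerSeries.constantCoeff (ξ p)) else X p := by
        intro p
        rw [hτ, RingHom.comp_apply, sb, eval₂Hom_X']
        split_ifs with h1 h2
        · rw [← PowerSeries.coeff_zero_eq_constantCoeff_apply, PowerSeries.coeff_map,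
            PowerSeries.coeff_zero_eq_constantCoeff_apply]
        · rw [PowerSeries.constantCoeff_C]
        · rw [PowerSeries.constantCoeff_C]
      have hτK : τ.comp (algebraMap K (MvPolynomial (Fin m × Fin n) A)) =
          algebraMap K (MvPolynomial (Fin m × Fin n) A) := by
        refine RingHom.ext fun a => ?_
        rw [RingHom.comp_apply, IsScalarTower.algebraMap_apply K A (MvPolynomial (Fin m × Fin n) A)]
        exact hτC _
      obtain ⟨y, hy⟩ : ∃ y : VL m n → MvPolynomial (Fin m × Fin n) A,
          y = fun v => τ (pS x S v) := ⟨_, rfl⟩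
      have hmap : ∀ G : MvPolynomial (VL m n) K, τ (aeval (pS x S) G) = aeval y G := by
        intro G
        rw [MvPolynomial.map_aeval, hτK, hy]
        rfl
      have hyX : ∀ t, y (vX t) = C (x t) := fun t => by rw [hy]; exact hτC _
      have hyS : ∀ p, y (vS p) = C (S p) := fun p => by rw [hy]; exact hτC _
      have hyZ : ∀ p : Fin m × Fin n, y (vZ p) =
          if p.1 = i then C (PowerSeries.constantCoeff (ξ p)) else X p := fun p => by
        rw [hy]; exact hτX _
      have hal : ∀ t, aeval y (al W χ j (i, t)) = 0 := by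
        intro t
        rw [aeval_al, hyX, hyS, hyZ, if_pos rfl]
        have h1 := map_S3 (W t) (IsScalarTower.toAlgHom K A (MvPolynomial (Fin m × Fin n) A))
          (mu (W t) (j i) ![x t, 1]) (vc (χ t) (S (i, t)))
          ![PowerSeries.constantCoeff (ξ (i, t)), 1]
        have h2 := hrel (i, t)
        dsimp only at h2
        rw [h2, map_zero] at h1
        have e1 : (fun l => (IsScalarTower.toAlgHom K A (MvPolynomial (Fin m × Fin n) A))
            (mu (W t) (j i) ![x t, 1] l)) = mu (W t) (j i) ![C (x t), 1] := by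
          funext l
          rw [map_mu]
          congr 1
          funext l'
          fin_cases l'
          · rfl
          · exact map_one _
        have e2 : (fun l => (IsScalarTower.toAlgHom K A (MvPolynomial (Fin m × Fin n) A))
            (vc (χ t) (S (i, t)) l)) = vc (χ t) (C (S (i, t))) := by
          funext l
          unfold vc
          split_ifs
          · fin_cases l
            · exact map_one _
            · rfl
          · fin_cases l
            · rfl
            · exact map_one _
        have e3 : (fun l => (IsScalarTower.toAlgHom K A (MvPolynomial (Fin m × Fin n) A))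
            (![PowerSeries.constantCoeff (ξ (i, t)), 1] l)) =
              ![C (PowerSeries.constantCoeff (ξ (i, t))), 1] := by
          funext l
          fin_cases l
          · rfl
          · exact map_one _
        rw [e1, e2, e3] at h1
        exact h1.symm
      have h3 : F i.succ ∣ aeval y (N i.castSucc) := by
        rw [hFs, ← hτv, ← hmap]
        exact map_dvd τ ih
      refine h3.trans ((hN i _ y hal).trans (dvd_of_eq ?_))
      refine aeval_congr_of_degreeOf _ _ _ fun v hv => ?_
      rcases v with t | p | p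
      · exact hyX t
      · exact hyS p
      · have h4 : p.1 ≠ i := by
          intro h5
          apply hv
          have h6 := hZ i i p.2 le_rfl
          have h7 : (i, p.2) = p := by rw [← h5]
          rw [h7] at h6
          exact h6
        have h8 := hyZ p
        rw [if_neg h4] at h8
        exact h8
  exact ⟨F, hF0, key _, hFs⟩

end Pool.Agent.Lib.MP_17a322_nt.VN
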