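import Pool.Agent.Lib.MP_17a322_nt.VN.L0
import Pool.Agent.Lib.MP_17a322_nt.VJ.J1a

/-!
Part L-II of VN: the relations `al`: values, degrees, heights.

`al W χ j p` is `rename f R` for the polynomial `R = S3 W₀ (mu W₀ e ![X 0, 1]) (vc c (X 1)) ![X 2, 1]` in
`MvPolynomial (Fin 3) K` (`W₀ = W p.2`, `e = j p.1`, `c = χ p.2`) and the injective map
`f = ![vX p.2, vS p, vZ p]` (`map_S3`, `map_mu` of VJ/E3 for the algebra homomorphism `rename f`, as in the
proof of `aeval_relI`, VJ/J1a). By `S3_comm'` the polynomial `relI (fun _ => W₀) e (fun _ => c) 1 0` of VJ is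
`rename ![(0, 0), (2, 0), (1, 0)] R`. So all facts follow from those of VJ/J1a (`relI_degreeOf_i`,
`relI_degreeOf_two`, `relI_degreeOf_zero_le`, `relI_vars`, `relI_ne_zero`, `nh_relI_le`) with
`degreeOf_rename_of_injective`, `NV_rename` (VJ/A2), `vars_rename`.
-/

universe u

namespace Pool.Agent.Lib.MP_17a322_nt.VN

open MvPolynomial Height
open Pool.Agent.Lib.MP_17a322_nt.RO
open Pool.Agent.Lib.MP_17a322_nt.VJ

/-- The universal relation in three variables. -/
private noncomputable def L2A1_R {K : Type*} [Field K] (W : WeierstrassCurve K) (c : Bool) (e : ℕ) :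
    MvPolynomial (Fin 3) K :=
  S3 W (mu W e ![X 0, 1]) (vc c (X 1)) ![X 2, 1]

private theorem L2A1_aeval {K : Type*} [Field K] (W : WeierstrassCurve K) (c : Bool) (e : ℕ)
    {A : Type*} [CommRing A] [Algebra K A] (s : Fin 3 → A) :
    aeval s (L2A1_R W c e) = S3 W (mu W e ![s 0, 1]) (vc c (s 1)) ![s 2, 1] := by
  unfold L2A1_R
  rw [map_S3]
  congr 1
  · funext i
    rw [map_mu]
    congr 1
    funext k
    fin_cases k
    · simp
    · simp
  · funext k
    cases c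
    · fin_cases k
      · simp [vc]
      · simp [vc]
    · fin_cases k
      · simp [vc]
      · simp [vc]
  · funext k
    fin_cases k
    · simp
    · simp

private theorem L2A1_f {K : Type*} [Field K] {m n : ℕ} (W : Fin n → WeierstrassCurve K)
    (χ : Fin n → Bool) (j : Fin m → ℕ) (p : Fin m × Fin n) :
    al W χ j p = rename (![vX p.2, vS p, vZ p] : Fin 3 → VL m n)
      (L2A1_R (W p.2) (χ p.2) (j p.1)) := by
  have h := L2A1_aeval (W p.2) (χ p.2) (j p.1)
    (fun k => (X ((![vX p.2, vS p, vZ p] : Fin 3 → VL m n) k) : MvPolynomial (VL m n) K))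
  rw [rename_eq_aeval]
  exact h.symm

private theorem L2A1_g {K : Type*} [Field K] (W : WeierstrassCurve K) (c : Bool) (e : ℕ) :
    relI (fun _ => W) e (fun _ => c) 1 0 =
      rename (![(0, 0), (2, 0), (1, 0)] : Fin 3 → Fin 4 × Fin 2) (L2A1_R W c e) := by
  have h := L2A1_aeval W c e
    (fun k => (X ((![(0, 0), (2, 0), (1, 0)] : Fin 3 → Fin 4 × Fin 2) k) :
      MvPolynomial (Fin 4 × Fin 2) K))
  unfold relI
  rw [S3_comm', rename_eq_aeval]
  exact h.symm

private theorem L2A1_finj {m n : ℕ} (p : Fin m × Fin n) :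
    Function.Injective (![vX p.2, vS p, vZ p] : Fin 3 → VL m n) := by
  intro a b h
  fin_cases a <;> fin_cases b <;> simp_all

private theorem L2A1_ginj :
    Function.Injective (![(0, 0), (2, 0), (1, 0)] : Fin 3 → Fin 4 × Fin 2) := by
  decide

private theorem L2A1_deg {K : Type*} [Field K] {m n : ℕ} (W : Fin n → WeierstrassCurve K)
    (χ : Fin n → Bool) (j : Fin m → ℕ) (p : Fin m × Fin n) (k : Fin 3) :
    (al W χ j p).degreeOf ((![vX p.2, vS p, vZ p] : Fin 3 → VL m n) k) =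
      (relI (fun _ : Fin 2 => W p.2) (j p.1) (fun _ => χ p.2) 1 0).degreeOf
        ((![(0, 0), (2, 0), (1, 0)] : Fin 3 → Fin 4 × Fin 2) k) := by
  rw [L2A1_f, L2A1_g, degreeOf_rename_of_injective (L2A1_finj p),
    degreeOf_rename_of_injective L2A1_ginj]

/-- Value of `al` (compare `aeval_relI`, VJ/J1a). -/
theorem aeval_al {K : Type*} [Field K] {m n : ℕ} (W : Fin n → WeierstrassCurve K)
    (χ : Fin n → Bool) (j : Fin m → ℕ) (p : Fin m × Fin n) {A : Type*} [CommRing A] [Algebra K A]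
    (s : VL m n → A) : aeval s (al W χ j p) =
      S3 (W p.2) (mu (W p.2) (j p.1) ![s (vX p.2), 1]) (vc (χ p.2) (s (vS p)))
        ![s (vZ p), 1] := by
  rw [L2A1_f, aeval_rename, L2A1_aeval]
  rfl

theorem al_ne_zero {K : Type*} [Field K] {m n : ℕ} (W : Fin n → WeierstrassCurve K)
    (χ : Fin n → Bool) (j : Fin m → ℕ) (p : Fin m × Fin n) : al W χ j p ≠ 0 := by
  intro h
  have h1 := L2A1_deg W χ j p 2
  rw [h, degreeOf_zero] at h1
  have h2 := (relI_degreeOf_i (fun _ : Fin 2 => W p.2) (j p.1) (fun _ => χ p.2) 1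
    (Or.inl rfl) 0).1
  have h3 : (0 : ℕ) = 2 := h1.trans h2
  exact absurd h3 (by norm_num)

theorem degreeOf_al_Z {K : Type*} [Field K] {m n : ℕ} (W : Fin n → WeierstrassCurve K)
    (χ : Fin n → Bool) (j : Fin m → ℕ) (p : Fin m × Fin n) :
    (al W χ j p).degreeOf (vZ p) = 2 :=
  (L2A1_deg W χ j p 2).trans (relI_degreeOf_i (fun _ : Fin 2 => W p.2) (j p.1) (fun _ => χ p.2) 1
    (Or.inl rfl) 0).1

theorem degreeOf_al_S {K : Type*} [Field K] {m n : ℕ} (W : Fin n → WeierstrassCurve K)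
    (χ : Fin n → Bool) (j : Fin m → ℕ) (p : Fin m × Fin n) :
    (al W χ j p).degreeOf (vS p) = 2 :=
  (L2A1_deg W χ j p 1).trans (relI_degreeOf_two (fun _ : Fin 2 => W p.2) (j p.1) (fun _ => χ p.2) 1
    (Or.inl rfl) 0).1

theorem degreeOf_al_X_le {K : Type*} [Field K] {m n : ℕ} (W : Fin n → WeierstrassCurve K)
    (χ : Fin n → Bool) (j : Fin m → ℕ) (p : Fin m × Fin n) :
    (al W χ j p).degreeOf (vX p.2) ≤ 2 * 4 ^ j p.1 :=
  (L2A1_deg W χ j p 0).trans_le (relI_degreeOf_zero_le (fun _ : Fin 2 => W p.2) (j p.1)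
    (fun _ => χ p.2) 1 (Or.inl rfl) 0)

theorem degreeOf_al_eq_zero {K : Type*} [Field K] {m n : ℕ} (W : Fin n → WeierstrassCurve K)
    (χ : Fin n → Bool) (j : Fin m → ℕ) (p : Fin m × Fin n) (y : VL m n) (hX : y ≠ vX p.2)
    (hS : y ≠ vS p) (hZ : y ≠ vZ p) : (al W χ j p).degreeOf y = 0 := by
  classical
  rw [L2A1_f]
  by_contra h
  have h1 : y ∈ (rename (![vX p.2, vS p, vZ p] : Fin 3 → VL m n)
      (L2A1_R (W p.2) (χ p.2) (j p.1))).vars := by
    rw [MvPolynomial.vars_def, Multiset.mem_toFinset]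
    by_contra h2
    apply h
    rw [degreeOf_def]
    exact Multiset.count_eq_zero.2 h2
  obtain ⟨k, _, hk⟩ := Finset.mem_image.1 (vars_rename _ _ h1)
  fin_cases k
  · exact hX hk.symm
  · exact hS hk.symm
  · exact hZ hk.symm

theorem nh_al_le {K : Type u} [Field K] [NumberField K] {n : ℕ} (W : Fin n → WeierstrassCurve K)
    (χ : Fin n → Bool) (m : ℕ) :
    ∃ C : ℝ, 0 ≤ C ∧ ∀ (j : Fin m → ℕ) (p : Fin m × Fin n),
      nh (al W χ j p) ≤ C * 4 ^ j p.1 := by
  have h1 : ∀ t : Fin n, ∃ C : ℝ, 0 ≤ C ∧ ∀ (e : ℕ) (c : Fin 2 → Bool) (i : Fin 4) (t' : Fin 2),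
      (i = 1 ∨ i = 3) → nh (relI (fun _ => W t) e c i t') ≤ C * 4 ^ e :=
    fun t => nh_relI_le (fun _ => W t)
  choose C hC0 hC using h1
  refine ⟨∑ t, C t, Finset.sum_nonneg fun t _ => hC0 t, fun j p => ?_⟩
  have h2 : nh (al W χ j p) = nh (relI (fun _ : Fin 2 => W p.2) (j p.1) (fun _ => χ p.2) 1 0) := by
    unfold nh
    congr 1
    funext v
    rw [L2A1_f, L2A1_g, NV_rename v _ _ (L2A1_finj p), NV_rename v _ _ L2A1_ginj]
  rw [h2]
  refine (hC p.2 (j p.1) _ 1 0 (Or.inl rfl)).trans ?_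
  exact mul_le_mul_of_nonneg_right
    (Finset.single_le_sum (fun t _ => hC0 t) (Finset.mem_univ p.2)) (by positivity)

end Pool.Agent.Lib.MP_17a322_nt.VN
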