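import Pool.Agent.Lib.MP_17a322_nt.VN.L2D0
import Pool.Agent.Lib.MP_17a322_nt.VN.L2A1

/-!
Part L-II of VN: values at the deformed point `dp` (II.4).

`aeval_dp_eq_Psi`: the composition of `Psi` with `aeval (pS x u₀)` is `aeval` of the composed point (as a
ring homomorphism; both are `K`-algebra homomorphisms), equal to `dp` at all variables except the
`vS (i, t)`; `aeval_congr_of_degreeOf` (L2D0).
`coeff_zero_dp`: the composition of `PowerSeries.constantCoeff` with `aeval dp` is `aeval` of the constant
coefficients, equal to `C (pS x u₀ y)` at all variables `y` except the `vZ (i, t)` (`coeff_rs` for `k = 0`).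
`aeval_dp_al`: `aeval_al` (L2A1); `rs (cc A m n) (e t)` is a homomorphism of `K`-algebras
(`algebraMap K (PowerSeries A) a = PowerSeries.C (algebraMap K A a)`, `coeff_rs`), it maps the vectors in
`hrel` to those at `dp` (`map_mu` is applied inside `map_S3`, VJ/E3; compare the proof of `aeval_relI`, VJ/J1a).
-/

universe u

namespace Pool.Agent.Lib.MP_17a322_nt.VN

open MvPolynomial Height
open Pool.Agent.Lib.MP_17a322_nt.RO
open Pool.Agent.Lib.MP_17a322_nt.VJ

private theorem L2D3_rs_C {A D : Type*} [CommRing A] [CommRing D] (φ : A →+* D) (e : D) (a : A) :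
    rs φ e (PowerSeries.C a) = PowerSeries.C (φ a) := by
  ext k
  rw [coeff_rs, PowerSeries.coeff_C, PowerSeries.coeff_C]
  split_ifs with h
  · rw [h, pow_zero, one_mul]
  · rw [map_zero, mul_zero]

section

variable {K : Type*} [Field K] {A : Type*} [CommRing A] [Algebra K A] {m n : ℕ}

private theorem L2D3_alg (a : K) :
    algebraMap K (PowerSeries (MvPolynomial (Fin 2) (MvPolynomial (Fin m × Fin n) A))) a =
      PowerSeries.C (cc A m n (algebraMap K A a)) := by
  rw [PowerSeries.algebraMap_apply, MvPolynomial.algebraMap_apply, MvPolynomial.algebraMap_apply]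
  rfl

private theorem L2D3_Psi_C (e : Fin n → MvPolynomial (Fin 2) (MvPolynomial (Fin m × Fin n) A))
    (ξ : Fin m × Fin n → PowerSeries A) (i : Fin m) (a : A) :
    Psi e ξ i (C a) = PowerSeries.C (cc A m n a) := by
  unfold Psi
  rw [eval₂Hom_C]
  rfl

private theorem L2D3_Psi_X (e : Fin n → MvPolynomial (Fin 2) (MvPolynomial (Fin m × Fin n) A))
    (ξ : Fin m × Fin n → PowerSeries A) (i : Fin m) (p : Fin m × Fin n) :
    Psi e ξ i (X p) = if p.1 = i then rs (cc A m n) (e p.2) (ξ p) else PowerSeries.C (C (X p)) := by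
  unfold Psi
  rw [eval₂Hom_X']

/-- `Psi` as a homomorphism of algebras -/
private noncomputable def L2D3_PsiA (K : Type*) [Field K] [Algebra K A]
    (e : Fin n → MvPolynomial (Fin 2) (MvPolynomial (Fin m × Fin n) A))
    (ξ : Fin m × Fin n → PowerSeries A) (i : Fin m) :
    MvPolynomial (Fin m × Fin n) A →ₐ[K]
      PowerSeries (MvPolynomial (Fin 2) (MvPolynomial (Fin m × Fin n) A)) :=
  { Psi e ξ i with
    commutes' := fun a => by
      change Psi e ξ i (algebraMap K (MvPolynomial (Fin m × Fin n) A) a) = _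
      rw [L2D3_alg, MvPolynomial.algebraMap_apply, L2D3_Psi_C] }

/-- `rs` as a homomorphism of algebras -/
private noncomputable def L2D3_rsA (K : Type*) [Field K] [Algebra K A]
    (e : MvPolynomial (Fin 2) (MvPolynomial (Fin m × Fin n) A)) :
    PowerSeries A →ₐ[K] PowerSeries (MvPolynomial (Fin 2) (MvPolynomial (Fin m × Fin n) A)) :=
  { rs (cc A m n) e with
    commutes' := fun a => by
      change rs (cc A m n) e (algebraMap K (PowerSeries A) a) = _
      rw [L2D3_alg, PowerSeries.algebraMap_apply, L2D3_rs_C] }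

/-- the constant coefficient as a homomorphism of algebras -/
private noncomputable def L2D3_ccA (K : Type*) [Field K] [Algebra K A] :
    PowerSeries (MvPolynomial (Fin 2) (MvPolynomial (Fin m × Fin n) A)) →ₐ[K]
      MvPolynomial (Fin 2) (MvPolynomial (Fin m × Fin n) A) :=
  { PowerSeries.constantCoeff with
    commutes' := fun a => by
      change PowerSeries.constantCoeff (algebraMap K _ a) = _
      rw [L2D3_alg, PowerSeries.constantCoeff_C, MvPolynomial.algebraMap_apply,
        MvPolynomial.algebraMap_apply]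
      rfl }

/-- the inclusion of the constants as a homomorphism of algebras -/
private noncomputable def L2D3_CA (K : Type*) [Field K] [Algebra K A] :
    MvPolynomial (Fin m × Fin n) A →ₐ[K]
      MvPolynomial (Fin 2) (MvPolynomial (Fin m × Fin n) A) :=
  { (C : MvPolynomial (Fin m × Fin n) A →+*
      MvPolynomial (Fin 2) (MvPolynomial (Fin m × Fin n) A)) with
    commutes' := fun a => by
      change C (algebraMap K (MvPolynomial (Fin m × Fin n) A) a) = _
      rw [MvPolynomial.algebraMap_apply (σ := Fin 2)] }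

end

theorem aeval_dp_eq_Psi {K : Type*} [Field K] {A : Type*} [CommRing A] [Algebra K A] {m n : ℕ}
    (e : Fin n → MvPolynomial (Fin 2) (MvPolynomial (Fin m × Fin n) A)) (x : Fin n → A)
    (u ξ : Fin m × Fin n → PowerSeries A) (i : Fin m) (N : MvPolynomial (VL m n) K)
    (hS : ∀ t, N.degreeOf (vS (i, t)) = 0) :
    aeval (dp e x u ξ i) N =
      Psi e ξ i (aeval (pS x fun p => PowerSeries.constantCoeff (u p)) N) := by
  have h1 : Psi e ξ i (aeval (pS x fun p => PowerSeries.constantCoeff (u p)) N) =
      aeval (fun y => Psi e ξ i (pS x (fun p => PowerSeries.constantCoeff (u p)) y)) N :=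
    comp_aeval_apply (φ := L2D3_PsiA K e ξ i) _ N
  rw [h1]
  refine aeval_congr_of_degreeOf N _ _ fun y hy => ?_
  rcases y with t | p | p
  · show PowerSeries.C (cc A m n (x t)) = Psi e ξ i (C (x t))
    rw [L2D3_Psi_C]
  · show (if p.1 = i then rs (cc A m n) (e p.2) (u p) else
        PowerSeries.C (cc A m n (PowerSeries.constantCoeff (u p)))) =
      Psi e ξ i (C (PowerSeries.constantCoeff (u p)))
    rw [L2D3_Psi_C]
    split_ifs with h
    · exfalso
      apply hy
      rw [← hS p.2, ← h]
    · rfl
  · show (if p.1 = i then rs (cc A m n) (e p.2) (ξ p) else PowerSeries.C (C (X p))) =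
      Psi e ξ i (X p)
    rw [L2D3_Psi_X]

theorem coeff_zero_dp {K : Type*} [Field K] {A : Type*} [CommRing A] [Algebra K A] {m n : ℕ}
    (e : Fin n → MvPolynomial (Fin 2) (MvPolynomial (Fin m × Fin n) A)) (x : Fin n → A)
    (u ξ : Fin m × Fin n → PowerSeries A) (i : Fin m) (N : MvPolynomial (VL m n) K)
    (hZ : ∀ t, N.degreeOf (vZ (i, t)) = 0) :
    PowerSeries.coeff 0 (aeval (dp e x u ξ i) N) =
      C (aeval (pS x fun p => PowerSeries.constantCoeff (u p)) N) := by
  have h1 : PowerSeries.constantCoeff (aeval (dp e x u ξ i) N) =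
      aeval (fun y => PowerSeries.constantCoeff (dp e x u ξ i y)) N :=
    comp_aeval_apply (φ := L2D3_ccA K) _ N
  have h2 : C (aeval (pS x fun p => PowerSeries.constantCoeff (u p)) N) =
      aeval (fun y => (C (pS x (fun p => PowerSeries.constantCoeff (u p)) y) :
        MvPolynomial (Fin 2) (MvPolynomial (Fin m × Fin n) A))) N :=
    comp_aeval_apply (φ := L2D3_CA K) _ N
  have h0 : ∀ (f : PowerSeries A) (e' : MvPolynomial (Fin 2) (MvPolynomial (Fin m × Fin n) A)),
      PowerSeries.constantCoeff (rs (cc A m n) e' f) = cc A m n (PowerSeries.constantCoeff f) := by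
    intro f e'
    rw [← PowerSeries.coeff_zero_eq_constantCoeff_apply, coeff_rs, pow_zero, one_mul,
      PowerSeries.coeff_zero_eq_constantCoeff_apply]
  rw [PowerSeries.coeff_zero_eq_constantCoeff_apply, h1, h2]
  refine aeval_congr_of_degreeOf N _ _ fun y hy => ?_
  rcases y with t | p | p
  · show PowerSeries.constantCoeff (PowerSeries.C (cc A m n (x t))) = C (C (x t))
    rw [PowerSeries.constantCoeff_C]
    rfl
  · show PowerSeries.constantCoeff (if p.1 = i then rs (cc A m n) (e p.2) (u p) else
        PowerSeries.C (cc A m n (PowerSeries.constantCoeff (u p)))) =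
      C (C (PowerSeries.constantCoeff (u p)))
    split_ifs with h
    · rw [h0]
      rfl
    · rw [PowerSeries.constantCoeff_C]
      rfl
  · show PowerSeries.constantCoeff (if p.1 = i then rs (cc A m n) (e p.2) (ξ p) else
      PowerSeries.C (C (X p))) = C (X p)
    split_ifs with h
    · exfalso
      apply hy
      rw [← hZ p.2, ← h]
    · rw [PowerSeries.constantCoeff_C]

theorem aeval_dp_al {K : Type*} [Field K] {A : Type*} [CommRing A] [Algebra K A] {m n : ℕ}
    (W : Fin n → WeierstrassCurve K) (χ : Fin n → Bool) (j : Fin m → ℕ)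
    (e : Fin n → MvPolynomial (Fin 2) (MvPolynomial (Fin m × Fin n) A)) (x : Fin n → A)
    (u ξ : Fin m × Fin n → PowerSeries A) (i : Fin m)
    (hrel : ∀ t : Fin n, S3 (W t) (mu (W t) (j i) ![PowerSeries.C (x t), 1])
      (vc (χ t) (u (i, t))) ![ξ (i, t), 1] = 0) (t : Fin n) :
    aeval (dp e x u ξ i) (al W χ j (i, t)) = 0 := by
  rw [aeval_al]
  have h1 := congrArg (L2D3_rsA K (e t)) (hrel t)
  rw [map_S3, map_zero] at h1
  rw [← h1]
  have hC : ∀ a : A, L2D3_rsA K (e t) (PowerSeries.C a) = PowerSeries.C (cc A m n a) := fun a =>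
    L2D3_rs_C _ _ a
  have hu : dp e x u ξ i (vS (i, t)) = L2D3_rsA K (e t) (u (i, t)) := by
    show (if i = i then rs (cc A m n) (e t) (u (i, t)) else _) = _
    rw [if_pos rfl]
    rfl
  have hξ : dp e x u ξ i (vZ (i, t)) = L2D3_rsA K (e t) (ξ (i, t)) := by
    show (if i = i then rs (cc A m n) (e t) (ξ (i, t)) else _) = _
    rw [if_pos rfl]
    rfl
  have hx : dp e x u ξ i (vX t) = L2D3_rsA K (e t) (PowerSeries.C (x t)) := by
    rw [hC]
    rfl
  rw [hu, hξ, hx]
  congr 1
  · funext k
    rw [map_mu]
    congr 1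
    funext l
    fin_cases l
    · rfl
    · exact (map_one (L2D3_rsA K (e t))).symm
  · funext k
    cases χ t
    · fin_cases k
      · rfl
      · exact (map_one (L2D3_rsA K (e t))).symm
    · fin_cases k
      · exact (map_one (L2D3_rsA K (e t))).symm
      · rfl
  · funext k
    fin_cases k
    · rfl
    · exact (map_one (L2D3_rsA K (e t))).symm

end Pool.Agent.Lib.MP_17a322_nt.VN
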