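import Pool.Agent.Lib.MP_17a322_nt.VN.L2D0

/-!
Part L-II of VN: homogeneity of `Psi` (II.4).

`ee_homogeneous`: `isHomogeneous_X`, `isHomogeneous_C`, sums and products (`0` is homogeneous of every
degree).
`Psi_homogeneous`: `MvPolynomial.induction_on b`: constants `PowerSeries.C (..)`: the coefficient `0` is a
constant, the others are `0`; sums; products with a variable: `PowerSeries.coeff_mul` and the coefficients of
`Psi (X p)`, which are `e p.2 ^ k * cc (..)` (`coeff_rs`) or those of a constant.
-/

universe u

namespace Pool.Agent.Lib.MP_17a322_nt.VN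

open MvPolynomial Height
open Pool.Agent.Lib.MP_17a322_nt.RO
open Pool.Agent.Lib.MP_17a322_nt.VJ

private theorem L2D5a_const {B : Type*} [CommRing B] (b : B) (k : ℕ) :
    (PowerSeries.coeff k (PowerSeries.C (C b : MvPolynomial (Fin 2) B))).IsHomogeneous k := by
  rw [PowerSeries.coeff_C]
  split_ifs with h
  · rw [h]
    exact isHomogeneous_C _ _
  · exact isHomogeneous_zero _ _ _

theorem ee_homogeneous {B : Type*} [CommRing B] {n : ℕ} (gr' gl : B) (r l t : Fin n) :
    (ee gr' gl r l t).IsHomogeneous 1 := by
  unfold ee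
  split_ifs
  · have h1 : (C gl * X 1 : MvPolynomial (Fin 2) B).IsHomogeneous (0 + 1) :=
      (isHomogeneous_C _ _).mul (isHomogeneous_X _ _)
    rw [zero_add] at h1
    have h2 : (C gr' * (X 0 - C gl * X 1) : MvPolynomial (Fin 2) B).IsHomogeneous (0 + 1) :=
      (isHomogeneous_C _ _).mul ((isHomogeneous_X _ _).sub h1)
    rw [zero_add] at h2
    exact h2
  · exact isHomogeneous_X _ _
  · exact isHomogeneous_zero _ _ _

theorem Psi_homogeneous {A : Type*} [CommRing A] {m n : ℕ} (e : Fin n →
    MvPolynomial (Fin 2) (MvPolynomial (Fin m × Fin n) A)) (he : ∀ t, (e t).IsHomogeneous 1)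
    (ξ : Fin m × Fin n → PowerSeries A) (i : Fin m) (b : MvPolynomial (Fin m × Fin n) A) (k : ℕ) :
    (PowerSeries.coeff k (Psi e ξ i b)).IsHomogeneous k := by
  induction b using MvPolynomial.induction_on generalizing k with
  | C a =>
    have h1 : Psi e ξ i (C a) = PowerSeries.C (cc A m n a) := by
      unfold Psi
      rw [eval₂Hom_C]
      rfl
    rw [h1]
    exact L2D5a_const _ k
  | add p q hp hq =>
    rw [map_add, map_add]
    exact (hp k).add (hq k)
  | mul_X p q hp =>
    have hX : ∀ j, (PowerSeries.coeff j (Psi e ξ i (X q))).IsHomogeneous j := by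
      intro j
      have h1 : Psi e ξ i (X q) = if q.1 = i then rs (cc A m n) (e q.2) (ξ q)
          else PowerSeries.C (C (X q)) := by
        unfold Psi
        rw [eval₂Hom_X']
      rw [h1]
      split_ifs
      · rw [coeff_rs]
        have h2 : (e q.2 ^ j * cc A m n (PowerSeries.coeff j (ξ q))).IsHomogeneous (1 * j + 0) :=
          ((he q.2).pow j).mul (isHomogeneous_C _ _)
        rw [one_mul, add_zero] at h2
        exact h2
      · exact L2D5a_const _ j
    rw [map_mul, PowerSeries.coeff_mul]
    refine IsHomogeneous.sum _ _ _ fun x hx => ?_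
    rw [← Finset.HasAntidiagonal.mem_antidiagonal.1 hx]
    exact (hp x.1).mul (hX x.2)

end Pool.Agent.Lib.MP_17a322_nt.VN
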