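import Pool.Agent.Lib.MP_17a322_nt.VN.L2D0

/-!
Part L-II of VN: specialisations of `Psi` (II.4).

Two ring homomorphisms in `b`, equal on constants and variables (`MvPolynomial.ringHom_ext`):
`eval ![C gr, 0] (ee (C gr') (C gl) r l t)` is `1` for `t = r` (`gr' * gr = 1`) and `0` otherwise, so
`rs` becomes `PowerSeries.map C` (`coeff_rs`, `1 ^ k = 1`) or `PowerSeries.C (C (constantCoeff ..))`
(`0 ^ k`), as in the definition of `sb` (L0); `eval ![C gl, 1]` of it is `1` for `t = l` and `0` otherwise.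
-/

universe u

namespace Pool.Agent.Lib.MP_17a322_nt.VN

open MvPolynomial Height
open Pool.Agent.Lib.MP_17a322_nt.RO
open Pool.Agent.Lib.MP_17a322_nt.VJ

private theorem L2D5b_one {A : Type*} [CommRing A] {m n : ℕ}
    (f : MvPolynomial (Fin 2) (MvPolynomial (Fin m × Fin n) A) →+* MvPolynomial (Fin m × Fin n) A)
    (hf : ∀ a, f (cc A m n a) = C a) {e : MvPolynomial (Fin 2) (MvPolynomial (Fin m × Fin n) A)}
    (he : f e = 1) (ξ : PowerSeries A) :
    PowerSeries.map f (rs (cc A m n) e ξ) = PowerSeries.map C ξ := by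
  ext1 k
  rw [PowerSeries.coeff_map, PowerSeries.coeff_map, coeff_rs, map_mul, map_pow, he, one_pow,
    one_mul, hf]

private theorem L2D5b_zero {A : Type*} [CommRing A] {m n : ℕ}
    (f : MvPolynomial (Fin 2) (MvPolynomial (Fin m × Fin n) A) →+* MvPolynomial (Fin m × Fin n) A)
    (hf : ∀ a, f (cc A m n a) = C a) {e : MvPolynomial (Fin 2) (MvPolynomial (Fin m × Fin n) A)}
    (he : f e = 0) (ξ : PowerSeries A) :
    PowerSeries.map f (rs (cc A m n) e ξ) =
      PowerSeries.C (C (PowerSeries.constantCoeff ξ)) := by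
  ext1 k
  rw [PowerSeries.coeff_map, coeff_rs, map_mul, map_pow, he, hf, PowerSeries.coeff_C]
  by_cases hk : k = 0
  · rw [if_pos hk, hk, pow_zero, one_mul, PowerSeries.coeff_zero_eq_constantCoeff]
  · rw [if_neg hk, zero_pow hk, zero_mul]

private theorem L2D5b_main {A : Type*} [CommRing A] {m n : ℕ} (ξ : Fin m × Fin n → PowerSeries A)
    (i : Fin m) (d : Fin n) (e : Fin n → MvPolynomial (Fin 2) (MvPolynomial (Fin m × Fin n) A))
    (f : MvPolynomial (Fin 2) (MvPolynomial (Fin m × Fin n) A) →+* MvPolynomial (Fin m × Fin n) A)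
    (hfC : ∀ b, f (C b) = b) (hd : f (e d) = 1) (hd' : ∀ t, t ≠ d → f (e t) = 0)
    (b : MvPolynomial (Fin m × Fin n) A) :
    PowerSeries.map f (Psi e ξ i b) = sb ξ i d b := by
  have hf : ∀ a, f (cc A m n a) = C a := fun a => hfC (C a)
  have h1 : (PowerSeries.map f).comp (Psi e ξ i) = sb ξ i d := by
    apply MvPolynomial.ringHom_ext
    · intro a
      rw [RingHom.comp_apply]
      unfold Psi sb
      rw [coe_eval₂Hom, coe_eval₂Hom, eval₂_C, eval₂_C, RingHom.comp_apply, RingHom.comp_apply,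
        PowerSeries.map_C, hf]
    · intro p
      rw [RingHom.comp_apply]
      unfold Psi sb
      rw [coe_eval₂Hom, coe_eval₂Hom, eval₂_X, eval₂_X]
      by_cases hp : p.1 = i
      · rw [if_pos hp, if_pos hp]
        by_cases hpd : p.2 = d
        · rw [if_pos hpd, hpd]
          exact L2D5b_one f hf hd (ξ p)
        · rw [if_neg hpd]
          exact L2D5b_zero f hf (hd' _ hpd) (ξ p)
      · rw [if_neg hp, if_neg hp, PowerSeries.map_C, hfC]
  exact congrArg (fun g : MvPolynomial (Fin m × Fin n) A →+*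
    PowerSeries (MvPolynomial (Fin m × Fin n) A) => g b) h1

theorem map_Psi_r {A : Type*} [CommRing A] {m n : ℕ} (ξ : Fin m × Fin n → PowerSeries A)
    (i : Fin m) (r l : Fin n) (gr gr' gl : A) (hr : gr' * gr = 1)
    (b : MvPolynomial (Fin m × Fin n) A) :
    PowerSeries.map (eval ![C gr, 0]) (Psi (ee (C gr') (C gl) r l) ξ i b) = sb ξ i r b := by
  apply L2D5b_main
  · intro b
    rw [eval_C]
  · unfold ee
    rw [if_pos rfl, map_mul, map_sub, map_mul, eval_C, eval_C, eval_X, eval_X]
    change C gr' * (C gr - C gl * 0) = 1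
    rw [mul_zero, sub_zero, ← C_mul, hr, C_1]
  · intro t ht
    unfold ee
    rw [if_neg ht]
    split_ifs
    · rw [eval_X]
      rfl
    · rw [map_zero]

theorem map_Psi_l {A : Type*} [CommRing A] {m n : ℕ} (ξ : Fin m × Fin n → PowerSeries A)
    (i : Fin m) (r l : Fin n) (hrl : l ≠ r) (gr' gl : A) (b : MvPolynomial (Fin m × Fin n) A) :
    PowerSeries.map (eval ![C gl, 1]) (Psi (ee (C gr') (C gl) r l) ξ i b) = sb ξ i l b := by
  apply L2D5b_main
  · intro b
    rw [eval_C]
  · unfold ee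
    rw [if_neg hrl, if_pos rfl, eval_X]
    rfl
  · intro t ht
    unfold ee
    split_ifs with h
    · rw [map_mul, map_sub, map_mul, eval_C, eval_C, eval_X, eval_X]
      change C gr' * (C gl - C gl * 1) = 0
      rw [mul_one, sub_self, mul_zero]
    · rw [map_zero]

end Pool.Agent.Lib.MP_17a322_nt.VN
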