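import Pool.Agent.Lib.MP_17a322_nt.VN.L2R
import Pool.Agent.Lib.MP_17a322_nt.VN.L2D6

/-!
Part L-II of VN: (II.4), the chain in stage 2.

Let `pt = pS x u₀`, `u₀ p = constantCoeff (u p)`. Claim: `aeval pt (N k) ≠ 0` for all `k : Fin (m + 1)`, by
downward induction (`Fin.reverseInduction`): `hNl` for `k = last`. If `aeval pt (N i.succ) ≠ 0`, then
`aeval pt (N' i) ∣ aeval pt (N i.succ)` by `hN'` for the ring `B = MvPolynomial (Fin m × Fin n) A`
(`aeval pt (gS g i) = C (aeval (u₀ (i, ·)) (g i)) = 0` by `hg`), so `aeval pt (N' i) ≠ 0`, and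
`aeval pt (N i.castSucc) ≠ 0` by `block_chain` (L2D6; `N₁ = N i.castSucc`, `hS i i`, `hZ' i i`,
`gd i`). So also all `aeval pt (N' i) ≠ 0`. Then `exists_chain` (L2R) with
`P k F`: `∀ h : k < m + 1, F ∣ aeval pt (N ⟨k, h⟩)`, `Q i F F'`: `∃ ρ ≤ R i, ∀ d, d = r ∨ d = l →
C (gd i d ^ ρ) * F' = coeff ρ (sb ξ i d F)`; step: `block_chain` gives `c ∣ aeval pt (N' i) ∣
aeval pt (N i.succ)`. `choose` the `ρ i`.
-/

universe u

namespace Pool.Agent.Lib.MP_17a322_nt.VN

open MvPolynomial Height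
open Pool.Agent.Lib.MP_17a322_nt.RO
open Pool.Agent.Lib.MP_17a322_nt.VJ

/-- (II.4) The chain in stage 2. `u p` is the chart coordinate deformed in its own direction,
`gd i t` the derivative of `g i` in the direction `t`. -/
theorem chain_two {K : Type u} [Field K] [NumberField K] {m n : ℕ}
    (W : Fin n → WeierstrassCurve K) (χ : Fin n → Bool) (j : Fin m → ℕ) (r l : Fin n)
    (hrl : l ≠ r) (g : Fin m → MvPolynomial (Fin n) K)
    (N : Fin (m + 1) → MvPolynomial (VL m n) K) (N' : Fin m → MvPolynomial (VL m n) K)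
    (R : Fin m → ℕ)
    (hS : ∀ (i i' : Fin m) (t : Fin n), i ≤ i' → (N i.castSucc).degreeOf (vS (i', t)) = 0)
    (hZ' : ∀ (i i' : Fin m) (t : Fin n), i' ≤ i → (N' i).degreeOf (vZ (i', t)) = 0)
    (hZ : ∀ (i i' : Fin m) (t : Fin n), i' ≤ i → (N i.succ).degreeOf (vZ (i', t)) = 0)
    (hN : ∀ (i : Fin m) (A : Type u) [CommRing A] [Algebra K A] (x : VL m n → A),
      (∀ t, aeval x (al W χ j (i, t)) = 0) →
        aeval x (N i.castSucc) ∣ aeval x (gS g i) ^ R i * aeval x (N' i))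
    (hN' : ∀ (i : Fin m) (A : Type u) [CommRing A] [Algebra K A] (x : VL m n → A),
      aeval x (gS g i) = 0 → aeval x (N' i) ∣ aeval x (N i.succ))
    {A : Type u} [CommRing A] [IsDomain A] [Algebra K A] (x : Fin n → A)
    (u ξ : Fin m × Fin n → PowerSeries A)
    (hrel : ∀ p : Fin m × Fin n, S3 (W p.2)
      (mu (W p.2) (j p.1) ![PowerSeries.C (x p.2), 1]) (vc (χ p.2) (u p)) ![ξ p, 1] = 0)
    (hg : ∀ i, aeval (fun t => PowerSeries.constantCoeff (u (i, t))) (g i) = 0)
    (gd : Fin m → Fin n → A)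
    (hgd : ∀ i t, gd i t = aeval (fun t => PowerSeries.constantCoeff (u (i, t))) (pderiv t (g i)) *
      PowerSeries.coeff 1 (u (i, t)))
    (hr : ∀ i, IsUnit (gd i r))
    (hNl : aeval (pS x fun p => PowerSeries.constantCoeff (u p)) (N (Fin.last m)) ≠ 0) :
    ∃ (F : Fin (m + 1) → MvPolynomial (Fin m × Fin n) A) (ρ : Fin m → ℕ),
      F 0 = aeval (pS x fun p => PowerSeries.constantCoeff (u p)) (N 0) ∧
      F (Fin.last m) ∣ aeval (pS x fun p => PowerSeries.constantCoeff (u p)) (N (Fin.last m)) ∧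
      (∀ i, ρ i ≤ R i) ∧
      ∀ (i : Fin m) (d : Fin n), (d = r ∨ d = l) →
        C (gd i d ^ ρ i) * F i.succ = PowerSeries.coeff (ρ i) (sb ξ i d (F i.castSucc)) := by
  classical
  have hgS : ∀ i, aeval (pS x fun p => PowerSeries.constantCoeff (u p) :
      VL m n → MvPolynomial (Fin m × Fin n) A) (gS g i) = 0 := by
    intro i
    have h1 : aeval (pS x fun p => PowerSeries.constantCoeff (u p) :
        VL m n → MvPolynomial (Fin m × Fin n) A) (gS g i) =
        C (aeval (fun t => PowerSeries.constantCoeff (u (i, t))) (g i)) := by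
      rw [gS, aeval_rename]
      have h2 : (C (aeval (fun t => PowerSeries.constantCoeff (u (i, t))) (g i)) :
          MvPolynomial (Fin m × Fin n) A) =
          (Algebra.ofId A (MvPolynomial (Fin m × Fin n) A)).restrictScalars K
            (aeval (fun t => PowerSeries.constantCoeff (u (i, t))) (g i)) := rfl
      rw [h2, ← AlgHom.comp_apply, comp_aeval]
      rfl
    rw [h1, hg, map_zero]
  have step := fun (i : Fin m) (h : aeval (pS x fun p => PowerSeries.constantCoeff (u p) :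
      VL m n → MvPolynomial (Fin m × Fin n) A) (N' i) ≠ 0) =>
    block_chain W χ j r l hrl g i (N i.castSucc) (N' i) (R i) (hS i i · le_rfl) (hZ' i i · le_rfl)
      (hN i) x u ξ (fun t => hrel (i, t)) (hg i) (gd i) (hgd i) (hr i) h
  have hdvd := fun i : Fin m => hN' i (MvPolynomial (Fin m × Fin n) A)
    (pS x fun p => PowerSeries.constantCoeff (u p)) (hgS i)
  have nz : ∀ k : Fin (m + 1), aeval (pS x fun p => PowerSeries.constantCoeff (u p) :
      VL m n → MvPolynomial (Fin m × Fin n) A) (N k) ≠ 0 := by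
    intro k
    induction k using Fin.reverseInduction with
    | last => exact hNl
    | cast i ih => exact (step i (ne_zero_of_dvd_ne_zero ih (hdvd i))).1
  obtain ⟨F, hF0, hF, hQ⟩ := exists_chain m
    (fun k F => ∀ h : k < m + 1, F ∣ aeval (pS x fun p => PowerSeries.constantCoeff (u p) :
      VL m n → MvPolynomial (Fin m × Fin n) A) (N ⟨k, h⟩))
    (fun i F F' => ∃ ρ : ℕ, ρ ≤ R i ∧ ∀ d, (d = r ∨ d = l) →
      C (gd i d ^ ρ) * F' = PowerSeries.coeff ρ (sb ξ i d F))
    (aeval (pS x fun p => PowerSeries.constantCoeff (u p)) (N 0)) (fun _ => dvd_rfl) (by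
      intro i F hF
      have hF' : F ∣ aeval (pS x fun p => PowerSeries.constantCoeff (u p) :
          VL m n → MvPolynomial (Fin m × Fin n) A) (N i.castSucc) := hF _
      obtain ⟨ρ, c, hρ, hc, hd⟩ :=
        (step i (ne_zero_of_dvd_ne_zero (nz i.succ) (hdvd i))).2 F hF'
      exact ⟨c, fun _ => hc.trans (hdvd i), ρ, hρ, hd⟩)
  choose ρ hρ hd using hQ
  exact ⟨F, ρ, hF0, hF (Fin.last m) (Nat.lt_succ_self m), hρ, hd⟩

end Pool.Agent.Lib.MP_17a322_nt.VN
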