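import Pool.Agent.Lib.MP_17a322_nt.VN.L2A4
import Pool.Agent.Lib.MP_17a322_nt.VN.L2A6
import Pool.Agent.Lib.MP_17a322_nt.VN.L2B4
import Pool.Agent.Lib.MP_17a322_nt.VN.L2C2
import Pool.Agent.Lib.MP_17a322_nt.VN.L2D2
import Pool.Agent.Lib.MP_17a322_nt.VN.L2D7

/-!
The algebraic part of part L.
-/
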