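import Pool.Agent.Lib.MP_17a322_nt.VN.E8

/-!
Step (d) of LEMMA PSI.
-/

namespace Pool.Agent.Lib.MP_17a322_nt.VN

open MvPolynomial

/-- `δ` of a value at a point killed by `δ`. Proof. `chain` with `Δ = δ`, `L = Ω`. -/
theorem eval_dc {Ω σ : Type*} [Fintype σ] [Field Ω] (δ : Derivation ℤ Ω Ω) (p : σ → Ω)
    (hp : ∀ j, δ (p j) = 0) (H : MvPolynomial σ Ω) : eval p (dc σ δ H) = δ (eval p H) := by
  have h := chain (L := Ω) δ δ (fun a => rfl) p H
  have h1 : ∑ j, aeval p (pderiv j H) * δ (p j) = 0 :=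
    Finset.sum_eq_zero fun j _ => by rw [hp j, mul_zero]
  rw [h1, add_zero] at h
  have h2 : ∀ K : MvPolynomial σ Ω, aeval p K = eval p K := fun K => rfl
  rw [h2, h2] at h
  exact h.symm

/-- Step (d). Proof. Induction on `k`, for all `H ∈ I`: with `H' = dc δ H + C ψ * D_r H ∈ I`,
`0 = eval (D_r^k H') = eval (D_r^k (dc δ H)) + ψ * eval (D_r^(k+1) H)` and
`D_r^k (dc δ H) = dc δ (D_r^k H)` (`dc_DD` iterated), whose value is `δ (eval (D_r^k H)) = δ 0 = 0` by `eval_dc`. -/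
theorem eval_iterate {Ω B : Type*} [Fintype B] [Field Ω] [CharZero Ω] (q : B → Polynomial Ω)
    (δ : Derivation ℤ Ω Ω) (r : B) (hδq : ∀ m, δ ((q r).coeff m) = 0) (ψ : Ω) (hψ : ψ ≠ 0)
    (I : Ideal (MvPolynomial (B ⊕ B) Ω))
    (hδI : ∀ H ∈ I, dc (B ⊕ B) δ H + C ψ * DD q r H ∈ I) (z : B ⊕ B → Ω)
    (hz : ∀ j, δ (z j) = 0) (hI : ∀ H ∈ I, eval z H = 0) (k : ℕ) :
    ∀ H ∈ I, eval z ((DD q r)^[k] H) = 0 := by
  have hC : ∀ (k : ℕ) (H : MvPolynomial (B ⊕ B) Ω),
      (DD q r)^[k] (C ψ * H) = C ψ * (DD q r)^[k] H := by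
    intro k
    induction k with
    | zero => intro H; rfl
    | succ k ih =>
      intro H
      rw [Function.iterate_succ_apply, Function.iterate_succ_apply, Derivation.leibniz,
        derivation_C, smul_zero, add_zero, smul_eq_mul, ih]
  have hdc : ∀ (k : ℕ) (H : MvPolynomial (B ⊕ B) Ω),
      (DD q r)^[k] (dc (B ⊕ B) δ H) = dc (B ⊕ B) δ ((DD q r)^[k] H) := by
    intro k
    induction k with
    | zero => intro H; rfl
    | succ k ih =>
      intro H
      rw [Function.iterate_succ_apply, Function.iterate_succ_apply, ← dc_DD q r δ hδq, ih]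
  induction k with
  | zero => exact fun H hH => hI H hH
  | succ k ih =>
    intro H hH
    have h1 := ih _ (hδI H hH)
    have h2 := ih H hH
    rw [iterate_map_add, hC, hdc, map_add, map_mul, eval_C, eval_dc δ z hz, h2, map_zero, zero_add] at h1
    rw [Function.iterate_succ_apply]
    exact (mul_eq_zero.mp h1).resolve_left hψ

end Pool.Agent.Lib.MP_17a322_nt.VN
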