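import Pool.Agent.Lib.MP_17a322_nt.VN.E14a

/-!
The bracket identity.
-/

namespace Pool.Agent.Lib.MP_17a322_nt.VN

open MvPolynomial

/-- The identity `∂_i ψ = δ c_i`. Proof. `⁅∂_i, D⁆` kills `Ω` and the `x l`, `l ≠ r`
(`∂_i (D x_l) = 0`, `D (∂_i x_l) = 0` because `D (y l) = 0`), so it is `0` by `derivation_eq` (E4, with the
field `Ω` and the family `x t`, `t ≠ r`). So `∂_i (ψ y_r) = D (c_i y_r)`:
`∂_i ψ * y_r + ψ * c_i * q' / 2 = δ(c_i) * y_r + c_i * ψ * q' / 2`; divide by `y_r ≠ 0`. -/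
theorem GP.bracket {Ω L B : Type*} [Fintype B] [DecidableEq B] [Field Ω] [CharZero Ω] [Field L]
    [Algebra Ω L] {q : B → Polynomial Ω} {r : B} {G : MvPolynomial B Ω} {c : B → Ω} {x y : B → L}
    (h : GP q r G c x y) (i : B) (hi : i ≠ r) (δ : Derivation ℤ Ω Ω) (E D : Derivation ℤ L L) (ψ : L)
    (hE : ∀ a, E (algebraMap Ω L a) = 0) (hEx : ∀ l, l ≠ r → E (x l) = if l = i then y i else 0)
    (hEr : E (x r) = algebraMap Ω L (c i) * y r)
    (hEyr : E (y r) =
      algebraMap Ω L (c i) * (Polynomial.aeval (x r) (Polynomial.derivative (q r)) / 2))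
    (hD : ∀ a, D (algebraMap Ω L a) = algebraMap Ω L (δ a))
    (hDx : ∀ l, l ≠ r → D (x l) = 0) (hDy : ∀ l, l ≠ r → D (y l) = 0) (hDr : D (x r) = ψ * y r)
    (hDyr : D (y r) = ψ * (Polynomial.aeval (x r) (Polynomial.derivative (q r)) / 2)) :
    E ψ = algebraMap Ω L (δ (c i)) := by
  have key : ⁅E, D⁆ = (0 : Derivation ℤ L L) := by
    refine derivation_eq (k := Ω) (fun t : {t : B // t ≠ r} => x t) h.alg _ _ ?_ ?_
    · intro a
      rw [Derivation.commutator_apply, hE, hD, hE, map_zero, sub_zero, Derivation.zero_apply]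
    · intro t
      rw [Derivation.commutator_apply, hDx t.1 t.2, hEx t.1 t.2, map_zero, zero_sub, Derivation.zero_apply,
        neg_eq_zero]
      split_ifs with hti
      · exact hDy i hi
      · exact map_zero D
  have h1 : E (D (x r)) = D (E (x r)) := by
    have h2 : (⁅E, D⁆ : Derivation ℤ L L) (x r) = 0 := by rw [key]; rfl
    rw [Derivation.commutator_apply] at h2
    exact sub_eq_zero.mp h2
  rw [hDr, hEr, Derivation.leibniz, Derivation.leibniz, hD, hDyr, hEyr] at h1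
  simp only [smul_eq_mul] at h1
  have h3 : y r * (E ψ - algebraMap Ω L (δ (c i))) = 0 := by
    linear_combination h1
  rcases mul_eq_zero.mp h3 with h4 | h4
  · exact absurd h4 (h.ne r)
  · exact sub_eq_zero.mp h4

end Pool.Agent.Lib.MP_17a322_nt.VN
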