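import Pool.Agent.Lib.MP_17a322_nt.Mb
import Pool.Agent.Lib.MP_17a322_nt.VJ.C2
import Pool.Agent.Lib.MP_17a322_nt.VJ.C3
import Pool.Agent.Lib.MP_17a322_nt.VJ.C4

/-!
Generic points of hypersurfaces (KL5).
-/

namespace Pool.Agent.Lib.MP_17a322_nt.VN

open MvPolynomial
open Pool.Agent.Lib.MP_17a322_nt.RO Pool.Agent.Lib.MP_17a322_nt.VJ

private theorem E2_degreeOf_pderiv_lt {R σ : Type*} [CommRing R] (x : σ)
    (G : MvPolynomial σ R) (hx : 1 ≤ G.degreeOf x) :
    (pderiv x G).degreeOf x < G.degreeOf x := by
  classical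
  rw [degreeOf_eq_sup, Finset.sup_lt_iff (by rw [Nat.bot_eq_zero]; omega)]
  intro m hm
  rw [mem_support_iff, coeff_pderiv] at hm
  have h1 : coeff (m + Finsupp.single x 1) G ≠ 0 := left_ne_zero_of_mul hm
  have h2 : (m + Finsupp.single x 1 : σ →₀ ℕ) x ≤ G.degreeOf x :=
    monomial_le_degreeOf x (mem_support_iff.2 h1)
  rw [Finsupp.add_apply, Finsupp.single_eq_same] at h2
  omega

private theorem E2_pderiv_ne_zero {k σ : Type*} [Field k] [CharZero k] (x : σ)
    (G : MvPolynomial σ k) (hx : 1 ≤ G.degreeOf x) : pderiv x G ≠ 0 := by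
  classical
  have h0 : ∃ m ∈ G.support, 1 ≤ m x := by
    by_contra hcon
    push Not at hcon
    have h1 : G.degreeOf x ≤ 0 := by
      rw [degreeOf_eq_sup]
      refine Finset.sup_le fun m hm => ?_
      have := hcon m hm
      omega
    omega
  obtain ⟨m, hm, hmx⟩ := h0
  have h1 : m - Finsupp.single x 1 + Finsupp.single x 1 = m := by
    refine tsub_add_cancel_of_le ?_
    rw [Finsupp.single_le_iff]
    exact hmx
  rw [MvPolynomial.ne_zero_iff]
  refine ⟨m - Finsupp.single x 1, ?_⟩
  rw [coeff_pderiv, h1]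
  refine mul_ne_zero (mem_support_iff.1 hm) ?_
  exact Nat.cast_add_one_ne_zero _

private theorem E2_degreeOf_le_of_dvd {k σ : Type*} [Field k] (x : σ) {G P : MvPolynomial σ k}
    (h : G ∣ P) (hP : P ≠ 0) : G.degreeOf x ≤ P.degreeOf x := by
  obtain ⟨Q, rfl⟩ := h
  rw [degreeOf_mul_eq (left_ne_zero_of_mul hP) (right_ne_zero_of_mul hP)]
  exact Nat.le_add_right _ _

/-- A polynomial that does not involve the variable `j` and vanishes at a point whose other coordinates
are algebraically independent is `0`. -/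
theorem eq_zero_of_indep {B k L : Type*} [Finite B] [Field k] [Field L] [Algebra k L] (j : B)
    (x : B → L) (hx : AlgebraicIndependent k (fun t : {t : B // t ≠ j} => x t))
    (q : MvPolynomial B k) (hq : q.degreeOf j = 0) (h0 : aeval x q = 0) : q = 0 := by
  classical
  have hv : (q.vars : Set B) ⊆ Set.range (Subtype.val : {t : B // t ≠ j} → B) := by
    intro t ht
    rw [Finset.mem_coe, mem_vars_iff_mem_support] at ht
    obtain ⟨d, hd, htd⟩ := ht
    refine ⟨⟨t, ?_⟩, rfl⟩
    rintro rfl
    have h1 := monomial_le_degreeOf t hd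
    rw [hq] at h1
    exact (Finsupp.mem_support_iff.1 htd) (Nat.le_zero.1 h1)
  obtain ⟨p, hp⟩ := exists_rename_eq_of_vars_subset_range q Subtype.val
    Subtype.val_injective hv
  rw [← hp, aeval_rename] at h0
  have h1 : p = 0 := (algebraicIndependent_iff.1 hx) p h0
  rw [← hp, h1, map_zero]

/-- (KL5). Proof. `G` involves `X j` (otherwise `G = 0` by `eq_zero_of_indep`). If `G ∤ q` then
`El j G q ≠ 0` (VJ/C4 `El_ne_zero_of_irreducible`), it does not involve `j` (`degreeOf_El_self`) and
vanishes at `x` (`aeval_dvd_El`): contradiction to `eq_zero_of_indep`. -/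
theorem generic_dvd {B k L : Type*} [Finite B] [Field k] [Field L] [Algebra k L] (j : B)
    (x : B → L) (hx : AlgebraicIndependent k (fun t : {t : B // t ≠ j} => x t))
    (G q : MvPolynomial B k) (hG : Irreducible G) (h0 : aeval x G = 0) (hq : aeval x q = 0) :
    G ∣ q := by
  classical
  by_contra hnd
  have hj : G.degreeOf j ≠ 0 := fun hj => hG.ne_zero (eq_zero_of_indep j x hx G hj h0)
  refine El_ne_zero_of_irreducible j G q hG hj hnd ?_
  refine eq_zero_of_indep j x hx _ (degreeOf_El_self j G q) ?_
  have h1 := aeval_dvd_El j G q (Or.inl hj) x h0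
  rw [hq, zero_dvd_iff] at h1
  exact h1

/-- The derivative with respect to `X j` does not vanish at a generic point (characteristic `0`).
Proof. `generic_dvd` and degrees: `pderiv j G ≠ 0` has smaller degree in `X j`. -/
theorem pderiv_ne_zero {B k L : Type*} [Finite B] [Field k] [CharZero k] [Field L] [Algebra k L]
    (j : B) (x : B → L) (hx : AlgebraicIndependent k (fun t : {t : B // t ≠ j} => x t))
    (G : MvPolynomial B k) (hG : Irreducible G) (h0 : aeval x G = 0) :
    aeval x (pderiv j G) ≠ 0 := by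
  intro h1
  have hj : G.degreeOf j ≠ 0 := fun hj => hG.ne_zero (eq_zero_of_indep j x hx G hj h0)
  have h2 := generic_dvd j x hx G (pderiv j G) hG h0 h1
  have h3 := E2_degreeOf_le_of_dvd j h2 (E2_pderiv_ne_zero j G (Nat.one_le_iff_ne_zero.2 hj))
  have h4 := E2_degreeOf_pderiv_lt j G (Nat.one_le_iff_ne_zero.2 hj)
  omega

/-- If `G` also involves a variable `i ≠ j`, and `k` is relatively algebraically closed in `L`, the
coordinate `x j` is transcendental over `k`.
Proof. Otherwise `x j = a ∈ k`, and `G` divides `X j - C a` by `generic_dvd`, so `G.degreeOf i = 0`. -/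
theorem transcendental_coord {B k L : Type*} [Finite B] [Field k] [Field L] [Algebra k L]
    (hk : ∀ z : L, IsAlgebraic k z → z ∈ (algebraMap k L).range) (i j : B) (hij : i ≠ j)
    (x : B → L) (hx : AlgebraicIndependent k (fun t : {t : B // t ≠ j} => x t))
    (G : MvPolynomial B k) (hG : Irreducible G) (hi : G.degreeOf i ≠ 0) (h0 : aeval x G = 0) :
    Transcendental k (x j) := by
  intro halg
  obtain ⟨a, ha⟩ := hk _ halg
  have h1 : aeval x (X j - C a : MvPolynomial B k) = 0 := by
    rw [map_sub, aeval_X, aeval_C, ha, sub_self]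
  have h2 := generic_dvd j x hx G _ hG h0 h1
  have h3 : (X j - C a : MvPolynomial B k) ≠ 0 := by
    intro h
    have h4 := congrArg (MvPolynomial.eval (fun _ => a + 1)) h
    rw [map_sub, eval_X, eval_C, map_zero, add_sub_cancel_left] at h4
    exact one_ne_zero h4
  have h4 := E2_degreeOf_le_of_dvd i h2 h3
  have h5 := degreeOf_sub_le i (X j : MvPolynomial B k) (C a)
  rw [degreeOf_X_of_ne hij, degreeOf_C] at h5
  exact hi (by simpa using h4.trans h5)

/-- Existence of a root over an algebraically closed field. Proof. VJ/C3 `exists_root`: the leading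
coefficient in `X j` does not vanish at `x` (`eq_zero_of_indep`). -/
theorem exists_generic_root {B k L : Type*} [Finite B] [DecidableEq B] [Field k] [Field L]
    [Algebra k L] [IsAlgClosed L] (j : B) (x : B → L)
    (hx : AlgebraicIndependent k (fun t : {t : B // t ≠ j} => x t)) (G : MvPolynomial B k)
    (hj : G.degreeOf j ≠ 0) : ∃ r : L, aeval (Function.update x j r) G = 0 := by
  refine exists_root j G hj x ?_
  intro h
  have h1 : lcv j G = 0 := eq_zero_of_indep j x hx (lcv j G) (degreeOf_coeff_vw_self j G _) h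
  rw [lcv, ← natDegree_vw j G] at h1
  have h2 : vw j G = 0 := Polynomial.leadingCoeff_eq_zero.1 h1
  refine vw_ne_zero j ?_ h2
  rintro rfl
  exact hj (degreeOf_zero j)

end Pool.Agent.Lib.MP_17a322_nt.VN
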