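import Pool.Agent.Lib.MP_17a322_nt.VN.E1a
import Pool.Agent.Lib.MP_17a322_nt.VN.E2
import Pool.Agent.Lib.MP_17a322_nt.VN.E15

/-!
LEMMA PSI: `ψ` is a constant; the case `ψ = 0`.
-/

namespace Pool.Agent.Lib.MP_17a322_nt.VN

open MvPolynomial

/-- `ψ` is a constant. Proof. By `GP.bracket` and `hc`, `∂_i ψ = 0` for all `i ≠ r`. Apply
`mem_range_of_derivations` (E5) with `X = (x t)_{t ≠ r}`, `D = ∂_i`, `closed_of_isAlgClosed` (E1). -/
theorem psi_const {Ω L B : Type*} [Fintype B] [DecidableEq B] [Field Ω] [CharZero Ω]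
    [IsAlgClosed Ω] [Field L] [Algebra Ω L] {q : B → Polynomial Ω} {r : B} {G : MvPolynomial B Ω}
    {c : B → Ω} {x y : B → L} (h : GP q r G c x y) (δ : Derivation ℤ Ω Ω)
    (hδ : ∀ t m, δ ((q t).coeff m) = 0) (hc : ∀ i, i ≠ r → δ (c i) = 0) :
    ∃ (D : Derivation ℤ L L) (ψ : Ω), (∀ a, D (algebraMap Ω L a) = algebraMap Ω L (δ a)) ∧
      (∀ l, l ≠ r → D (x l) = 0) ∧ (∀ l, l ≠ r → D (y l) = 0) ∧
      D (x r) = algebraMap Ω L ψ * y r ∧
      D (y r) = algebraMap Ω L ψ * (Polynomial.aeval (x r) (Polynomial.derivative (q r)) / 2) := by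
  obtain ⟨D, ψ, hD, hDx, hDy, hDr, hDyr⟩ := h.lift δ hδ
  have hex : ∀ i : {t : B // t ≠ r}, ∃ E : Derivation ℤ L L,
      (∀ a, E (algebraMap Ω L a) = 0) ∧ (∀ l, l ≠ r → E (x l) = if l = i.1 then y i.1 else 0) ∧
      E ψ = 0 := by
    intro i
    obtain ⟨E, hE, hEx, hEr, -, hEyr⟩ := h.dpart i.1 i.2
    refine ⟨E, hE, hEx, ?_⟩
    have hb := h.bracket i.1 i.2 δ E D ψ hE hEx hEr hEyr hD hDx hDy hDr hDyr
    rw [hb, hc i.1 i.2, map_zero]
  choose E hE hEx hEψ using hex
  have hmem : ψ ∈ (algebraMap Ω L).range := by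
    refine mem_range_of_derivations (fun z hz => closed_of_isAlgClosed z hz)
      (fun t : {t : B // t ≠ r} => x t) h.ind h.alg E hE ?_ ?_ ψ hEψ
    · intro i i' hii
      rw [hEx i i'.1 i'.2, if_neg]
      intro hh
      exact hii (Subtype.ext hh)
    · intro i
      rw [hEx i i.1 i.2, if_pos rfl]
      exact h.ne i.1
  obtain ⟨ψ₀, hψ₀⟩ := hmem
  refine ⟨D, ψ₀, hD, hDx, hDy, ?_, ?_⟩
  · rw [hψ₀, hDr]
  · rw [hψ₀, hDyr]

/-- If a derivation `D` of `L` extends `δ` and kills all coordinates of the generic zero of `G`, and a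
coefficient of `G` is `1`, then `δ` kills all coefficients of `G`. Proof. `chain`:
`0 = D (G(x)) = (dc δ G)(x)`, so `G ∣ dc δ G` (`generic_dvd`). The support of `dc δ G` is contained in the support
of `G` (`coeff_dc`), so `dc δ G = G * C a` (compare total degrees); the coefficient of `m₀` gives `a = 0`. -/
theorem dc_eq_zero {Ω L B : Type*} [Fintype B] [Field Ω] [Field L] [Algebra Ω L] (r : B)
    (x : B → L) (hx : AlgebraicIndependent Ω (fun t : {t : B // t ≠ r} => x t))
    (G : MvPolynomial B Ω) (hG : Irreducible G) (h0 : aeval x G = 0) (m₀ : B →₀ ℕ)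
    (hm : coeff m₀ G = 1) (δ : Derivation ℤ Ω Ω) (D : Derivation ℤ L L)
    (hD : ∀ a, D (algebraMap Ω L a) = algebraMap Ω L (δ a)) (hDx : ∀ l, D (x l) = 0)
    (m : B →₀ ℕ) : δ (coeff m G) = 0 := by
  classical
  have h1 : aeval x (dc B δ G) = 0 := by
    have hch := chain δ D hD x G
    rw [h0, map_zero] at hch
    have hs : ∑ j, aeval x (pderiv j G) * D (x j) = 0 :=
      Finset.sum_eq_zero fun j _ => by rw [hDx j, mul_zero]
    rw [hs, add_zero] at hch
    exact hch.symm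
  obtain ⟨H, hH⟩ := generic_dvd r x hx G (dc B δ G) hG h0 h1
  have hG0 : G ≠ 0 := hG.ne_zero
  have hdc : dc B δ G = 0 := by
    by_contra hne
    have hH0 : H ≠ 0 := by
      rintro rfl
      rw [mul_zero] at hH
      exact hne hH
    have hsup : (dc B δ G).totalDegree ≤ G.totalDegree := by
      refine Finset.sup_mono ?_
      intro n hn
      rw [mem_support_iff] at hn ⊢
      intro hz
      rw [coeff_dc, hz, map_zero] at hn
      exact hn rfl
    have htd : (dc B δ G).totalDegree = G.totalDegree + H.totalDegree := by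
      rw [hH, totalDegree_mul_of_isDomain hG0 hH0]
    have hH1 : H.totalDegree = 0 := by omega
    rw [totalDegree_eq_zero_iff_eq_C] at hH1
    have hco : coeff m₀ (dc B δ G) = coeff 0 H := by
      rw [hH, hH1, mul_comm, coeff_C_mul, hm, mul_one, coeff_C, if_pos rfl]
    rw [coeff_dc, hm, Derivation.map_one_eq_zero] at hco
    rw [← hco, map_zero] at hH1
    exact hH0 hH1
  rw [← coeff_dc, hdc, coeff_zero]

end Pool.Agent.Lib.MP_17a322_nt.VN
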