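import Pool.Agent.Lib.MP_17a322_nt.Mb

/-!
Fields of definition, polynomials in one variable.
-/

namespace Pool.Agent.Lib.MP_17a322_nt.VN

open MvPolynomial

/-- The case of a polynomial in one of the variables. Proof. `G` is the image of a polynomial `G₁` in one
variable (`degreeOf i = 0` for `i ≠ r`), `G₁(p_r) = 0`, so `X r - C (p r) ∣ G`; `G` is irreducible, so
`G = C a * (X r - C (p r))`; its coefficients are `a`, `- a p_r` and `0`, one of them is `1`, so all are in
`K(p_r)`. -/
theorem FD_one {Ω B : Type*} [Finite B] [Field Ω] (r : B) (G : MvPolynomial B Ω)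
    (hG : Irreducible G) (hi : ∀ i, i ≠ r → G.degreeOf i = 0) (m₀ : B →₀ ℕ)
    (hm : coeff m₀ G = 1) (p : B → Ω) (hp : eval p G = 0) (E : Subfield Ω) (hE : p r ∈ E)
    (m : B →₀ ℕ) : coeff m G ∈ E := by
  classical
  obtain ⟨G₁, hG₁⟩ : ∃ G₁ : Polynomial Ω, Polynomial.aeval (X r : MvPolynomial B Ω) G₁ = G := by
    refine ⟨∑ m ∈ G.support, Polynomial.C (coeff m G) * Polynomial.X ^ (m r), ?_⟩
    rw [map_sum]
    conv_rhs => rw [G.as_sum]
    refine Finset.sum_congr rfl fun m hm' => ?_
    rw [map_mul, map_pow, Polynomial.aeval_X, Polynomial.aeval_C, algebraMap_eq]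
    have h1 : m = Finsupp.single r (m r) := by
      ext i
      by_cases h : i = r
      · rw [h, Finsupp.single_eq_same]
      · rw [Finsupp.single_eq_of_ne h]
        have h2 := monomial_le_degreeOf i hm'
        rw [hi i h] at h2
        exact Nat.le_zero.mp h2
    rw [C_mul_X_pow_eq_monomial, ← h1]
  have hr : Polynomial.eval (p r) G₁ = 0 := by
    rw [← hp, ← hG₁, Polynomial.aeval_def, Polynomial.hom_eval₂, eval_X]
    have h1 : (eval p).comp (algebraMap Ω (MvPolynomial B Ω)) = RingHom.id Ω := by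
      ext a
      simp
    rw [h1]
    rfl
  obtain ⟨H₁, hH₁⟩ := Polynomial.dvd_iff_isRoot.mpr hr
  have hG' : G = (X r - C (p r)) * Polynomial.aeval (X r : MvPolynomial B Ω) H₁ := by
    rw [← hG₁, hH₁, map_mul, map_sub, Polynomial.aeval_X, Polynomial.aeval_C, algebraMap_eq]
  have hnu : ¬ IsUnit (X r - C (p r) : MvPolynomial B Ω) := by
    intro h
    have h1 := h.map (eval p)
    rw [map_sub, eval_X, eval_C, sub_self] at h1
    exact not_isUnit_zero h1
  obtain ⟨a, -, ha⟩ := isUnit_iff_eq_C_of_isReduced.mp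
    ((hG.isUnit_or_isUnit hG').resolve_left hnu)
  rw [ha] at hG'
  have hc : ∀ m : B →₀ ℕ, coeff m G =
      ((if Finsupp.single r 1 = m then 1 else 0) - (if 0 = m then p r else 0)) * a := by
    intro m
    rw [hG', mul_comm, coeff_C_mul, coeff_sub, coeff_X, coeff_C, mul_comm]
  have hb : ∀ m : B →₀ ℕ,
      ((if Finsupp.single r 1 = m then 1 else 0) - (if 0 = m then p r else 0) : Ω) ∈ E := by
    intro m
    refine E.sub_mem ?_ ?_
    · split_ifs
      · exact E.one_mem
      · exact E.zero_mem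
    · split_ifs
      · exact hE
      · exact E.zero_mem
  have haE : a ∈ E := by
    have h1 := hc m₀
    rw [hm] at h1
    have h2 := eq_inv_of_mul_eq_one_right h1.symm
    rw [h2]
    exact E.inv_mem (hb m₀)
  rw [hc m]
  exact E.mul_mem (hb m) haE

end Pool.Agent.Lib.MP_17a322_nt.VN
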