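import Pool.Agent.Lib.MP_17a322_nt.Mb

/-!
Renaming of variables.
-/

namespace Pool.Agent.Lib.MP_17a322_nt.VN

open MvPolynomial

private theorem E20a_vars {k σ τ : Type*} [Field k] (f : σ → τ)
    (a : MvPolynomial σ k) (ha : rename f a ≠ 0) (b c : MvPolynomial τ k) (h : rename f a = b * c) :
    (↑b.vars : Set τ) ⊆ Set.range f := by
  intro i hi
  have hb : b ≠ 0 := by
    rintro rfl
    exact ha (by rw [h, zero_mul])
  have hc : c ≠ 0 := by
    rintro rfl
    exact ha (by rw [h, mul_zero])
  have h1 : b.degreeOf i ≠ 0 := mem_vars_iff_degreeOf_ne_zero.1 hi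
  have h2 : i ∈ (rename f a).vars := by
    rw [mem_vars_iff_degreeOf_ne_zero, h, degreeOf_mul_eq hb hc]
    omega
  obtain ⟨j, -, hj⟩ := mem_vars_rename f a h2
  exact ⟨j, hj⟩

private theorem E20a_dvd {k σ τ : Type*} [Field k] (f : σ → τ) (hf : Function.Injective f)
    (a b : MvPolynomial σ k) (h : rename f a ∣ rename f b) : a ∣ b := by
  have h1 := map_dvd (killCompl hf) h
  rw [killCompl_rename_app, killCompl_rename_app] at h1
  exact h1

/-- A divisor of a nonzero renamed polynomial is a renamed polynomial. Proof. The degree in every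
variable is additive, so a divisor of `rename f a` has degree `0` in the variables outside the range of
`f`; so its `vars` are contained in the range of `f`: `MvPolynomial.exists_rename_eq_of_vars_subset_range`. -/
theorem exists_rename_of_dvd {k σ τ : Type*} [Field k] (f : σ → τ) (hf : Function.Injective f)
    (a : MvPolynomial σ k) (ha : a ≠ 0) (b : MvPolynomial τ k) (h : b ∣ rename f a) :
    ∃ b' : MvPolynomial σ k, rename f b' = b ∧ b' ∣ a := by
  have ha' : rename f a ≠ 0 := by
    intro h0
    exact ha (rename_injective f hf (by rw [h0, map_zero]))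
  obtain ⟨c, hc⟩ := h
  obtain ⟨b', hb'⟩ := exists_rename_eq_of_vars_subset_range b f hf (E20a_vars f a ha' b c hc)
  refine ⟨b', hb', E20a_dvd f hf b' a ?_⟩
  rw [hb', hc]
  exact Dvd.intro c rfl

theorem rename_irreducible {k σ τ : Type*} [Field k] (f : σ → τ) (hf : Function.Injective f)
    (a : MvPolynomial σ k) (ha : Irreducible a) : Irreducible (rename f a) := by
  constructor
  · intro hu
    apply ha.not_isUnit
    have h1 := hu.map (killCompl hf)
    rw [killCompl_rename_app] at h1
    exact h1
  · intro x y hxy
    obtain ⟨x', hx', -⟩ := exists_rename_of_dvd f hf a ha.ne_zero x (Dvd.intro y hxy.symm)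
    obtain ⟨y', hy', -⟩ := exists_rename_of_dvd f hf a ha.ne_zero y (Dvd.intro_left x hxy.symm)
    have h1 : a = x' * y' := by
      apply rename_injective f hf
      rw [hxy, map_mul, hx', hy']
    rcases ha.isUnit_or_isUnit h1 with h2 | h2
    · left
      rw [← hx']
      exact h2.map (rename f)
    · right
      rw [← hy']
      exact h2.map (rename f)

theorem rename_isRelPrime {k σ τ : Type*} [Field k] (f : σ → τ) (hf : Function.Injective f)
    (a b : MvPolynomial σ k) (h : IsRelPrime a b) : IsRelPrime (rename f a) (rename f b) := by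
  intro d hda hdb
  by_cases ha : a = 0
  · have h1 : IsUnit b := h (by rw [ha]; exact dvd_zero b) dvd_rfl
    exact isUnit_of_dvd_unit hdb (h1.map (rename f))
  · obtain ⟨d', hd', hd'a⟩ := exists_rename_of_dvd f hf a ha d hda
    have h1 : d' ∣ b := E20a_dvd f hf d' b (by rw [hd']; exact hdb)
    rw [← hd']
    exact (h hd'a h1).map (rename f)

end Pool.Agent.Lib.MP_17a322_nt.VN
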