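import Pool.Agent.Lib.MP_17a322_nt.VN.E2

/-!
Relations: existence, slopes.
-/

namespace Pool.Agent.Lib.MP_17a322_nt.VN

open MvPolynomial

/-- Existence of the relation. Proof. The family `s t`, `t ∈ insert r J`, is not algebraically independent
(`s r` is algebraic over `k[s_J]`), so some nonzero polynomial vanishes at `s`; take an irreducible factor
that vanishes, and divide it by one of its coefficients. It involves the variable `r` by the independence
of the `s t`, `t ∈ J` (`eq_zero_of_indep`, E2). -/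
theorem exists_relation {k F : Type*} [Field k] [Field F] [Algebra k F] {n : ℕ} (s : Fin n → F)
    (J : Finset (Fin n)) (hJ : AlgebraicIndependent k fun t : J => s t) (r : Fin n) (hr : r ∉ J)
    (h : IsAlgebraic (Algebra.adjoin k (s '' J)) (s r)) :
    ∃ (g : MvPolynomial {t : Fin n // t ∈ insert r J} k) (m₀ : _ →₀ ℕ), Irreducible g ∧
      coeff m₀ g = 1 ∧ g.degreeOf ⟨r, Finset.mem_insert_self r J⟩ ≠ 0 ∧
      aeval (fun t : {t : Fin n // t ∈ insert r J} => s t) g = 0 := by
  classical
  obtain ⟨w, hw⟩ : ∃ w : {t : Fin n // t ∈ insert r J} → F, w = fun t : {t : Fin n // t ∈ insert r J} => s t := ⟨_, rfl⟩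
  have hnot : ¬ AlgebraicIndependent k w := by
    intro hwi
    have h1 : AlgebraicIndepOn k s (insert r (J : Set (Fin n))) := by
      have h2 := hwi.comp (fun t : ↥(insert r (J : Set (Fin n))) =>
        (⟨t.1, by
          have := t.2
          rw [Set.mem_insert_iff, Finset.mem_coe] at this
          exact Finset.mem_insert.2 this⟩ : {t : Fin n // t ∈ insert r J})) (by
          intro a b hab
          have h3 : a.1 = b.1 := congrArg (fun x : {t : Fin n // t ∈ insert r J} => x.1) hab
          exact Subtype.ext h3)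
      rw [hw] at h2
      exact h2
    have h2 := ((AlgebraicIndepOn.insert_iff (fun h3 => hr (Finset.mem_coe.1 h3))).1 h1).2
    exact h2 h
  obtain ⟨q, hq0, hq⟩ : ∃ q : MvPolynomial {t : Fin n // t ∈ insert r J} k, q ≠ 0 ∧ aeval w q = 0 := by
    rw [algebraicIndependent_iff] at hnot
    push Not at hnot
    obtain ⟨q, h1, h2⟩ := hnot
    exact ⟨q, h2, h1⟩
  have hprime : (RingHom.ker (aeval w : MvPolynomial {t : Fin n // t ∈ insert r J} k →ₐ[k] F)).IsPrime :=
    RingHom.ker_isPrime _
  have hne : RingHom.ker (aeval w : MvPolynomial {t : Fin n // t ∈ insert r J} k →ₐ[k] F) ≠ ⊥ := by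
    intro h1
    have h2 : q ∈ RingHom.ker (aeval w : MvPolynomial {t : Fin n // t ∈ insert r J} k →ₐ[k] F) := hq
    rw [h1, Ideal.mem_bot] at h2
    exact hq0 h2
  obtain ⟨g0, hg0, hg0p⟩ := hprime.exists_mem_prime_of_ne_bot hne
  have hg0' : aeval w g0 = 0 := hg0
  have hg0i : Irreducible g0 := hg0p.irreducible
  obtain ⟨m₀, hm₀⟩ := ne_zero_iff.1 hg0p.ne_zero
  have hu : IsUnit (C (coeff m₀ g0)⁻¹ : MvPolynomial {t : Fin n // t ∈ insert r J} k) :=
    (isUnit_iff_ne_zero.2 (inv_ne_zero hm₀)).map C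
  have hgi : Irreducible (C (coeff m₀ g0)⁻¹ * g0) := (irreducible_isUnit_mul hu).2 hg0i
  have hg1 : aeval w (C (coeff m₀ g0)⁻¹ * g0) = 0 := by
    rw [map_mul, hg0', mul_zero]
  refine ⟨C (coeff m₀ g0)⁻¹ * g0, m₀, hgi, ?_, ?_, ?_⟩
  · rw [coeff_C_mul, inv_mul_cancel₀ hm₀]
  · intro h1
    have hx : AlgebraicIndependent k (fun t : {t : {t : Fin n // t ∈ insert r J} //
        t ≠ ⟨r, Finset.mem_insert_self r J⟩} => w t) := by
      have h2 := hJ.comp (fun t : {t : {t : Fin n // t ∈ insert r J} //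
        t ≠ ⟨r, Finset.mem_insert_self r J⟩} => (⟨t.1.1, by
          rcases Finset.mem_insert.1 t.1.2 with h3 | h3
          · exact absurd (Subtype.ext h3) t.2
          · exact h3⟩ : J)) (by
          intro a b hab
          have h3 : a.1.1 = b.1.1 := congrArg (fun x : J => x.1) hab
          exact Subtype.ext (Subtype.ext h3))
      rw [hw]
      exact h2
    exact hgi.ne_zero (eq_zero_of_indep _ w hx _ h1 hg1)
  · rw [hw] at hg1
    exact hg1

/-- Constant slopes as divisibility. Proof. At `s`: `∂_l g(s) y_l = c_l ∂_r g(s) y_r` (`∂_r g(s) ≠ 0` by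
`pderiv_ne_zero`, `y_r ≠ 0`; `c_l ∈ k` the slope), squared:
`q_l(s_l) (∂_l g(s))^2 = c_l^2 q_r(s_r) (∂_r g(s))^2`. So the polynomial vanishes at `s`: `generic_dvd`. -/
theorem slope_dvd {k F B : Type*} [Finite B] [Field k] [CharZero k] [Field F] [Algebra k F]
    (q : B → Polynomial k) (r : B) (s y : B → F)
    (hs : AlgebraicIndependent k (fun t : {t : B // t ≠ r} => s t))
    (hy : ∀ t, y t ^ 2 = Polynomial.aeval (s t) (q t)) (hyr : y r ≠ 0) (g : MvPolynomial B k)
    (hg : Irreducible g) (h0 : aeval s g = 0) (c : B → k)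
    (hc : ∀ l, l ≠ r → aeval s (pderiv l g) * y l / (aeval s (pderiv r g) * y r) =
      algebraMap k F (c l)) (l : B) (hl : l ≠ r) :
    g ∣ Polynomial.aeval (X l : MvPolynomial B k) (q l) * pderiv l g ^ 2 -
      C (c l ^ 2) * (Polynomial.aeval (X r : MvPolynomial B k) (q r) * pderiv r g ^ 2) := by
  refine generic_dvd r s hs g _ hg h0 ?_
  have hb := pderiv_ne_zero r s hs g hg h0
  have h1 : ∀ t, aeval s (Polynomial.aeval (X t : MvPolynomial B k) (q t)) = y t ^ 2 := by
    intro t
    rw [← Polynomial.aeval_algHom_apply, aeval_X, hy t]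
  have h2 : aeval s (pderiv l g) * y l = algebraMap k F (c l) * (aeval s (pderiv r g) * y r) := by
    rw [← hc l hl, div_mul_cancel₀ _ (mul_ne_zero hb hyr)]
  simp only [map_sub, map_mul, map_pow, h1, aeval_C]
  have h3 : y l ^ 2 * aeval s (pderiv l g) ^ 2 = (aeval s (pderiv l g) * y l) ^ 2 := by ring
  rw [h3, h2]
  ring

end Pool.Agent.Lib.MP_17a322_nt.VN
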