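import Pool.Agent.Lib.MP_17a322_nt.VN.L1l

/-!
# JOB L1m: the chain of local estimates

`ub e i μ`: the exponents `e` with those of the block `i` replaced by `μ`.

PROOFS.
`sb_coeff`: `sb ξ i d` is a ring homomorphism; write `G = ∑ e' ∈ G.support, monomial e' (coeff e' G)`. `sb (monomial e' a) = C (C a) * ∏_{p.1 ≠ i} C (X p) ^ e' p *
∏ t, map C (ξd t) ^ e' (i, t)`, `ξd t` the series in the statement (`PowerSeries.map C (PowerSeries.C a) = PowerSeries.C (C a)`). Coefficient of `z ^ s`: `C a *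
∏_{p.1 ≠ i} X p ^ e' p * C (coeff s (∏ t, ξd t ^ e' (i, t)))`, a monomial with exponent `e'` outside the block `i` and `0` in it. So the coefficient at `e` is zero unless
`e (i, t) = 0` for all `t`, and then it is the sum over the `e'` which agree with `e` outside the block, i.e. `e' = ub e i μ`, `μ t = e' (i, t) ≤ b`. Bijection
`μ ↦ ub e i μ` (`Finset.sum_nbij'` or `sum_bij_ne_zero`); the `μ` in the box with `ub e i μ` not in the support give zero.
`step_deg`, `step_ORD`, `step_size`: one step `F ↦ F'` with `C (g ^ s) * F' = coeff s (sb ξ i d F)`, `g * gi = 1`: so `coeff e F' = gi ^ s * coeff e (coeff s (sb ..))`.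
`step_deg`: if `coeff e F' ≠ 0` then some `coeff (ub e i μ) F ≠ 0` and `ub e i μ (i', t) = e (i', t)` for `i' ≠ i`; `degreeOf_le_iff`.
`step_ORD` (`i' ≠ i`): `coeff (ub e i' μ) F' = gi ^ s * (if ∀ t, e (i, t) = 0 then ∑ μ' ∈ box, coeff (ub (ub e i' μ) i μ') F * λ_μ' else 0)`, and
`ub (ub e i' μ) i μ' = ub (ub e i μ') i' μ` (different blocks). So the family in `μ` is a linear combination with coefficients `gi ^ s * λ_μ'` (independent of `μ`) of the families
`μ ↦ coeff (ub (ub e i μ') i' μ) F`, which satisfy `ORD`; exchange the sums.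
`step_size`: if `e (i, t) ≠ 0` for some `t` the coefficient is `0` (`M ≥ 0`). Otherwise `coeff s (∑ μ, C (coeff (ub e i μ) F) * ∏ t, (ξd t) ^ μ t)` is estimated by
`block_local` (L1l) with `Φ μ = coeff (ub e i μ) F`; times `PN v r N (gi ^ s) ≤ G ^ s`.
`chain_estimate`: (`sb ξ i d` depends only on the `ξ (i, t)`: so `fun p => Ex (j p.1) (ξ p)` may be replaced by `fun p => Ex (j i) (ξ p)`: prove a lemma
`sb_congr`.) Induction on the number of processed blocks: for `l ≤ m` (use `Fin.induction` or `Nat` with `l < m + 1`): `F l` has degree `≤ b i` in the block `i` and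
satisfies `ORD` for the block `i`, for all `i` with `l ≤ i`, and `PN v r N (coeff e (F l)) ≤ M₀ * ∏_{i < l} Kf i`.
-/

namespace Pool.Agent.Lib.MP_17a322_nt.VN

open MvPolynomial Height
open Pool.Agent.Lib.MP_17a322_nt.RO
open Pool.Agent.Lib.MP_17a322_nt.VJ

/-- The exponents `e` with those of the block `i` replaced by `μ`. -/
noncomputable def ub {m n : ℕ} (e : Fin m × Fin n →₀ ℕ) (i : Fin m) (μ : Fin n → ℕ) :
    Fin m × Fin n →₀ ℕ :=
  Finsupp.equivFunOnFinite.symm fun p => if p.1 = i then μ p.2 else e p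

private theorem ub_apply {m n : ℕ} (e : Fin m × Fin n →₀ ℕ) (i : Fin m) (μ : Fin n → ℕ)
    (p : Fin m × Fin n) : ub e i μ p = if p.1 = i then μ p.2 else e p := rfl

private theorem ub_same {m n : ℕ} (e : Fin m × Fin n →₀ ℕ) (i : Fin m) (μ : Fin n → ℕ)
    (t : Fin n) : ub e i μ (i, t) = μ t := by
  rw [ub_apply, if_pos rfl]

private theorem ub_other {m n : ℕ} (e : Fin m × Fin n →₀ ℕ) {i i' : Fin m} (h : i' ≠ i)
    (μ : Fin n → ℕ) (t : Fin n) : ub e i μ (i', t) = e (i', t) := by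
  rw [ub_apply, if_neg h]

private theorem ub_comm {m n : ℕ} (e : Fin m × Fin n →₀ ℕ) {i i' : Fin m} (h : i' ≠ i)
    (μ μ' : Fin n → ℕ) : ub (ub e i' μ) i μ' = ub (ub e i μ') i' μ := by
  refine Finsupp.ext fun p => ?_
  rw [ub_apply, ub_apply, ub_apply, ub_apply]
  by_cases h1 : p.1 = i
  · have h2 : p.1 ≠ i' := fun h3 => h (h3.symm.trans h1)
    rw [if_pos h1, if_neg h2, if_pos h1]
  · rw [if_neg h1, if_neg h1]

/-- The series substituted in the block, before the lift to polynomials. -/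
private noncomputable def xd {A : Type*} [CommRing A] {m n : ℕ}
    (ξ : Fin m × Fin n → PowerSeries A) (i : Fin m) (d t : Fin n) : PowerSeries A :=
  if t = d then ξ (i, t) else PowerSeries.C (PowerSeries.constantCoeff (ξ (i, t)))

private theorem sb_monomial {A : Type*} [CommRing A] {m n : ℕ}
    (ξ : Fin m × Fin n → PowerSeries A) (i : Fin m) (d : Fin n)
    (e' : Fin m × Fin n →₀ ℕ) (a : A) (s : ℕ) :
    PowerSeries.coeff s (sb ξ i d (monomial e' a)) =
      monomial (ub e' i (fun _ => 0))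
        (a * PowerSeries.coeff s (∏ t, xd ξ i d t ^ e' (i, t))) := by
  classical
  have h1 : sb ξ i d (monomial e' a) = PowerSeries.C (C a) *
      ∏ p : Fin m × Fin n, (if p.1 = i then
        (if p.2 = d then PowerSeries.map C (ξ p)
          else PowerSeries.C (C (PowerSeries.constantCoeff (ξ p))))
        else PowerSeries.C (X p) : PowerSeries (MvPolynomial (Fin m × Fin n) A)) ^ e' p := by
    unfold sb
    rw [coe_eval₂Hom, eval₂_monomial, Finsupp.prod_fintype _ _ (fun p => pow_zero _)]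
    rfl
  have h2 : ∏ p : Fin m × Fin n, (if p.1 = i then
        (if p.2 = d then PowerSeries.map C (ξ p)
          else PowerSeries.C (C (PowerSeries.constantCoeff (ξ p))))
        else PowerSeries.C (X p) : PowerSeries (MvPolynomial (Fin m × Fin n) A)) ^ e' p =
      PowerSeries.map C (∏ t, xd ξ i d t ^ e' (i, t)) *
        PowerSeries.C (monomial (ub e' i (fun _ => 0)) 1) := by
    have h3 : (monomial (ub e' i (fun _ => 0)) 1 : MvPolynomial (Fin m × Fin n) A) =
        ∏ i' : Fin m, ∏ t : Fin n, (if i' = i then 1 else X (i', t) ^ e' (i', t)) := by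
      rw [monomial_eq, C_1, one_mul, Finsupp.prod_fintype _ _ (fun p => pow_zero _),
        Fintype.prod_prod_type]
      refine Finset.prod_congr rfl fun i' _ => Finset.prod_congr rfl fun t _ => ?_
      by_cases h4 : i' = i
      · rw [if_pos h4, h4, ub_same, pow_zero]
      · rw [if_neg h4, ub_other _ h4]
    have h5 : (∏ t, xd ξ i d t ^ e' (i, t)) =
        ∏ i' : Fin m, ∏ t : Fin n, (if i' = i then xd ξ i d t ^ e' (i, t) else 1) := by
      rw [Finset.prod_eq_single i]
      · exact Finset.prod_congr rfl fun t _ => by rw [if_pos rfl]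
      · intro i' _ hi'
        exact Finset.prod_eq_one fun t _ => if_neg hi'
      · intro h
        exact absurd (Finset.mem_univ i) h
    rw [h3, h5, Fintype.prod_prod_type, map_prod, map_prod, ← Finset.prod_mul_distrib]
    refine Finset.prod_congr rfl fun i' _ => ?_
    rw [map_prod, map_prod, ← Finset.prod_mul_distrib]
    refine Finset.prod_congr rfl fun t _ => ?_
    by_cases h4 : i' = i
    · subst h4
      rw [if_pos rfl, if_pos rfl, if_pos rfl, map_one, mul_one, map_pow]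
      congr 1
      unfold xd
      by_cases h6 : t = d
      · rw [if_pos h6, if_pos h6]
      · rw [if_neg h6, if_neg h6, PowerSeries.map_C]
    · rw [if_neg h4, if_neg h4, if_neg h4, map_one, one_mul, map_pow]
  rw [h1, h2, PowerSeries.coeff_C_mul, PowerSeries.coeff_mul_C, PowerSeries.coeff_map,
    ← mul_assoc, ← C_mul, C_mul_monomial, mul_one]

theorem sb_coeff {A : Type*} [CommRing A] {m n : ℕ} (ξ : Fin m × Fin n → PowerSeries A)
    (i : Fin m) (d : Fin n) (G : MvPolynomial (Fin m × Fin n) A) {b : ℕ}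
    (hb : ∀ t, G.degreeOf (i, t) ≤ b) (e : Fin m × Fin n →₀ ℕ) (s : ℕ) :
    coeff e (PowerSeries.coeff s (sb ξ i d G)) =
      open Classical in
      if ∀ t, e (i, t) = 0 then
        ∑ μ ∈ box (fun _ : Fin n => b + 1), coeff (ub e i μ) G *
          PowerSeries.coeff s (∏ t, (if t = d then ξ (i, t)
            else PowerSeries.C (PowerSeries.constantCoeff (ξ (i, t)))) ^ μ t)
      else 0 := by
  classical
  set L : MvPolynomial (Fin m × Fin n) A → A :=
    fun G => coeff e (PowerSeries.coeff s (sb ξ i d G)) with hL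
  set R : MvPolynomial (Fin m × Fin n) A → A := fun G => if ∀ t, e (i, t) = 0 then
        ∑ μ ∈ box (fun _ : Fin n => b + 1), coeff (ub e i μ) G *
          PowerSeries.coeff s (∏ t, xd ξ i d t ^ μ t)
      else 0 with hR
  have hLs : ∀ (S : Finset (Fin m × Fin n →₀ ℕ)) (f : (Fin m × Fin n →₀ ℕ) →
      MvPolynomial (Fin m × Fin n) A), L (∑ a ∈ S, f a) = ∑ a ∈ S, L (f a) := by
    intro S f
    show coeff e (PowerSeries.coeff s (sb ξ i d (∑ a ∈ S, f a))) = _
    rw [map_sum, map_sum, coeff_sum]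
  have hRs : ∀ (S : Finset (Fin m × Fin n →₀ ℕ)) (f : (Fin m × Fin n →₀ ℕ) →
      MvPolynomial (Fin m × Fin n) A), R (∑ a ∈ S, f a) = ∑ a ∈ S, R (f a) := by
    intro S f
    by_cases h0 : ∀ t, e (i, t) = 0
    · simp only [hR, if_pos h0]
      rw [Finset.sum_comm]
      refine Finset.sum_congr rfl fun μ _ => ?_
      rw [coeff_sum, Finset.sum_mul]
    · simp only [hR, if_neg h0, Finset.sum_const_zero]
  have key : ∀ e' ∈ G.support, L (monomial e' (coeff e' G)) = R (monomial e' (coeff e' G)) := by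
    intro e' he'
    have hbe : ∀ t, e' (i, t) ≤ b := fun t =>
      (degreeOf_le_iff.1 (hb t)) e' he'
    show coeff e (PowerSeries.coeff s (sb ξ i d (monomial e' (coeff e' G)))) = _
    rw [sb_monomial, coeff_monomial]
    by_cases h0 : ∀ t, e (i, t) = 0
    · simp only [hR, if_pos h0, coeff_monomial]
      by_cases h1 : ub e' i (fun _ => 0) = e
      · rw [if_pos h1]
        have h2 : ub e i (fun t => e' (i, t)) = e' := by
          refine Finsupp.ext fun p => ?_
          rw [ub_apply]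
          by_cases h3 : p.1 = i
          · rw [if_pos h3, ← h3]
          · rw [if_neg h3, ← h1, ub_apply, if_neg h3]
        rw [Finset.sum_eq_single (fun t => e' (i, t))]
        · rw [if_pos h2.symm]
        · intro μ _ hμ
          rw [if_neg, zero_mul]
          intro h4
          apply hμ
          funext t
          rw [h4, ub_same]
        · intro h4
          exact absurd ((mem_box _ _).2 fun t => Nat.lt_succ_of_le (hbe t)) h4
      · rw [if_neg h1]
        symm
        refine Finset.sum_eq_zero fun μ _ => ?_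
        rw [if_neg, zero_mul]
        intro h4
        apply h1
        refine Finsupp.ext fun p => ?_
        rw [ub_apply]
        by_cases h3 : p.1 = i
        · rw [if_pos h3]
          have h5 := h0 p.2
          rw [← h3] at h5
          exact h5.symm
        · rw [if_neg h3, h4, ub_apply, if_neg h3]
    · simp only [hR, if_neg h0]
      rw [if_neg]
      intro h1
      apply h0
      intro t
      rw [← h1, ub_same]
  have hfin : L G = R G := by
    conv_lhs => rw [← support_sum_monomial_coeff G]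
    conv_rhs => rw [← support_sum_monomial_coeff G]
    rw [hLs, hRs]
    exact Finset.sum_congr rfl key
  exact hfin

private theorem coeff_step {A : Type*} [CommRing A] {m n : ℕ} (ξ : Fin m × Fin n → PowerSeries A)
    (i : Fin m) (d : Fin n) (F F' : MvPolynomial (Fin m × Fin n) A) {g gi : A}
    (hg : g * gi = 1) (s : ℕ) (hF : C (g ^ s) * F' = PowerSeries.coeff s (sb ξ i d F))
    (e : Fin m × Fin n →₀ ℕ) :
    coeff e F' = gi ^ s * coeff e (PowerSeries.coeff s (sb ξ i d F)) := by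
  rw [← hF, coeff_C_mul, ← mul_assoc, ← mul_pow, mul_comm gi g, hg, one_pow, one_mul]

theorem step_deg {L : Type*} [Field L] {m n : ℕ} (ξ : Fin m × Fin n → P2 L) (i : Fin m)
    (d : Fin n) (F F' : MvPolynomial (Fin m × Fin n) (PowerSeries L)) {g gi : PowerSeries L}
    (hg : g * gi = 1) (s : ℕ) (hF : C (g ^ s) * F' = PowerSeries.coeff s (sb ξ i d F))
    (b : Fin m → ℕ) (hi : ∀ t, F.degreeOf (i, t) ≤ b i) (i' : Fin m)
    (h : ∀ t, F.degreeOf (i', t) ≤ b i') (t : Fin n) : F'.degreeOf (i', t) ≤ b i' := by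
  classical
  rw [degreeOf_le_iff]
  intro e he
  have h1 : coeff e F' ≠ 0 := mem_support_iff.1 he
  rw [coeff_step ξ i d F F' hg s hF e, sb_coeff ξ i d F hi e s] at h1
  have h2 := right_ne_zero_of_mul h1
  by_cases h0 : ∀ t, e (i, t) = 0
  · rw [if_pos h0] at h2
    obtain ⟨μ, _, hμ⟩ := Finset.exists_ne_zero_of_sum_ne_zero h2
    have h3 : ub e i μ ∈ F.support := mem_support_iff.2 (left_ne_zero_of_mul hμ)
    by_cases h4 : i' = i
    · rw [h4, h0 t]
      exact Nat.zero_le _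
    · have h5 := degreeOf_le_iff.1 (h t) _ h3
      rwa [ub_other _ h4] at h5
  · rw [if_neg h0] at h2
    exact absurd rfl h2

theorem step_ORD {K L : Type*} [Field K] [Field L] [Algebra K L] {k e m : ℕ}
    (ρ : Fin m → REP K (k + 2) e) (W : Fin (k + 2) → WeierstrassCurve K)
    (χ : Fin (k + 2) → Bool) (j T : Fin m → ℕ) (x0 : Fin (k + 2) → L)
    (ξ : Fin m × Fin (k + 2) → P2 L) (i : Fin m) (d : Fin (k + 2))
    (F F' : MvPolynomial (Fin m × Fin (k + 2)) (PowerSeries L)) {g gi : PowerSeries L}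
    (hg : g * gi = 1) (s : ℕ) (hF : C (g ^ s) * F' = PowerSeries.coeff s (sb ξ i d F))
    (b : Fin m → ℕ) (hi : ∀ t, F.degreeOf (i, t) ≤ b i) (i' : Fin m) (hii : i' ≠ i)
    (h : ∀ e', ORD (ρ i') W χ (j i') (b i') (T i') (fun μ => coeff (ub e' i' μ) F) x0)
    (e' : Fin m × Fin (k + 2) →₀ ℕ) :
    ORD (ρ i') W χ (j i') (b i') (T i') (fun μ => coeff (ub e' i' μ) F') x0 := by
  classical
  intro c ε l β hβ
  have hcf : ∀ ν : Fin (k + 2) → ℕ, coeff (ub e' i' ν) F' = gi ^ s *
      (if ∀ t, e' (i, t) = 0 then ∑ μ ∈ box (fun _ : Fin (k + 2) => b i + 1),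
        coeff (ub (ub e' i μ) i' ν) F *
          PowerSeries.coeff s (∏ t, (if t = d then ξ (i, t)
            else PowerSeries.C (PowerSeries.constantCoeff (ξ (i, t)))) ^ μ t) else 0) := by
    intro ν
    rw [coeff_step ξ i d F F' hg s hF, sb_coeff ξ i d F hi]
    have h1 : ∀ t, (ub e' i' ν) (i, t) = e' (i, t) := fun t => ub_other _ (Ne.symm hii) ν t
    simp only [h1]
    congr 1
    refine if_congr Iff.rfl (Finset.sum_congr rfl fun μ _ => ?_) rfl
    rw [ub_comm e' hii]
  simp only [hcf]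
  by_cases h0 : ∀ t, e' (i, t) = 0
  · simp only [if_pos h0]
    have h2 : ∀ ν : Fin (k + 2) → ℕ,
        gi ^ s * (∑ μ ∈ box (fun _ : Fin (k + 2) => b i + 1), coeff (ub (ub e' i μ) i' ν) F *
          PowerSeries.coeff s (∏ t, (if t = d then ξ (i, t)
            else PowerSeries.C (PowerSeries.constantCoeff (ξ (i, t)))) ^ μ t)) *
          algebraMap L (PowerSeries L)
            (coeff β (spx x0 (GG (ρ i') (UU W χ (j i') (b i') c ε ν) l))) =
        ∑ μ ∈ box (fun _ : Fin (k + 2) => b i + 1), (gi ^ s *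
          PowerSeries.coeff s (∏ t, (if t = d then ξ (i, t)
            else PowerSeries.C (PowerSeries.constantCoeff (ξ (i, t)))) ^ μ t)) *
          (coeff (ub (ub e' i μ) i' ν) F * algebraMap L (PowerSeries L)
            (coeff β (spx x0 (GG (ρ i') (UU W χ (j i') (b i') c ε ν) l)))) := by
      intro ν
      rw [Finset.mul_sum, Finset.sum_mul]
      exact Finset.sum_congr rfl fun μ _ => by ring
    rw [Finset.sum_congr rfl fun ν _ => h2 ν, Finset.sum_comm]
    refine Finset.sum_eq_zero fun μ _ => ?_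
    rw [← Finset.mul_sum, h (ub e' i μ) c ε l β hβ, mul_zero]
  · simp only [if_neg h0, mul_zero, zero_mul, Finset.sum_const_zero]

/-- The factor of the block `i` in the estimates. -/
noncomputable def KF {K L : Type*} [Field K] [Field L] [Algebra K L] (v : AbsoluteValue L ℝ)
    {k e : ℕ} (ρ : REP K (k + 2) e) (D : ℕ) (W : Fin (k + 2) → WeierstrassCurve K)
    (j b T : ℕ) (x0 q : Fin (k + 2) → L) (dl G : ℝ) (s : ℕ) : ℝ :=
  (∏ t, kc (W t) v) ^ (CF k D * (b * 4 ^ j)) *
    (cst v (e + 1) * (ρ.map (algebraMap K L)).RB v) ^ (2 * (CE k D * b)) *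
    (∏ t, max 1 (v (x0 t))) ^ (2 * 4 ^ j) * (∏ t, max 1 (v (q t))) ^ b *
    ((∏ t, kc (W t) v) ^ 200 * ∏ t, max 1 (v (q t))) ^ s * dl ^ (T - s) * G ^ s

private theorem KF_nonneg {K L : Type*} [Field K] [Field L] [Algebra K L]
    (v : AbsoluteValue L ℝ) {k e : ℕ} (ρ : REP K (k + 2) e) (D : ℕ)
    (W : Fin (k + 2) → WeierstrassCurve K) (j b T : ℕ) (x0 q : Fin (k + 2) → L) {dl G : ℝ}
    (hdl : 0 ≤ dl) (hG : 0 ≤ G) (s : ℕ) : 0 ≤ KF v ρ D W j b T x0 q dl G s := by
  have h1 : ∀ t, 0 ≤ kc (W t) v := fun t =>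
    mul_nonneg (zero_le_one.trans (one_le_lc _ _)) (zero_le_one.trans (le_max_left _ _))
  have h2 : 0 ≤ ∏ t, kc (W t) v := Finset.prod_nonneg fun t _ => h1 t
  have h3 : 0 ≤ ∏ t, max 1 (v (x0 t)) :=
    Finset.prod_nonneg fun t _ => zero_le_one.trans (le_max_left _ _)
  have h4 : 0 ≤ ∏ t, max 1 (v (q t)) :=
    Finset.prod_nonneg fun t _ => zero_le_one.trans (le_max_left _ _)
  have h5 : 0 ≤ cst v (e + 1) := zero_le_one.trans (one_le_cst v (Nat.succ_le_succ (Nat.zero_le e)))
  have h6 : 0 ≤ (ρ.map (algebraMap K L)).RB v := zero_le_one.trans (one_le_RB _ v)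
  unfold KF
  positivity

theorem step_size {K L : Type*} [Field K] [Field L] [Algebra K L] (v : AbsoluteValue L ℝ)
    {k e m : ℕ} (ρ : REP K (k + 2) e) {D : ℕ} (hD : ρ.Deg D)
    (W : Fin (k + 2) → WeierstrassCurve K) [∀ t, (W t).IsElliptic] (χ : Fin (k + 2) → Bool)
    {j b T : ℕ} (hb : 1 ≤ b) (x0 σ q : Fin (k + 2) → L) (u : Fin (k + 2) → P2 L)
    (ξ : Fin m × Fin (k + 2) → P2 L) {rho : ℝ}
    (hrho : 0 ≤ rho) (hM0 : ∀ t, mu (W t) j ![x0 t, 1] ≠ 0) (hcu : ∀ t, cc2 (u t) = σ t)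
    (i : Fin m)
    (hP : ∀ t, PKG (W t) v (χ t) (mu (W t) j ![x0 t, 1]) (σ t) (q t) (u t) (ξ (i, t)) rho)
    (F F' : MvPolynomial (Fin m × Fin (k + 2)) (PowerSeries L)) {g gi : PowerSeries L}
    (hg : g * gi = 1) (s : ℕ) (dir : Fin (k + 2))
    (hF : C (g ^ s) * F' = PowerSeries.coeff s (sb (fun p => Ex j (ξ p)) i dir F))
    (hi : ∀ t, F.degreeOf (i, t) ≤ b)
    (hO : ∀ e', ORD ρ W χ j b T (fun μ => coeff (ub e' i μ) F) x0) {r : ℝ} (hr0 : 0 ≤ r) (N : ℕ)
    {M G : ℝ} (hM : ∀ e', PN v r N (coeff e' F) ≤ M) (hG : PN v r N gi ≤ G)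
    {dl : ℝ} (hdl0 : 0 < dl) (hdl1 : dl ≤ 1)
    (hdl : dl = 1 ∨ ((∀ t, v (σ t) ≤ 1) ∧ v (aeval σ (ρ.z 0)) ≤ dl ∧ v (aeval σ (ρ.z 1)) ≤ dl))
    (hr : r ^ (4 ^ j) * ((∏ t, kc (W t) v) ^ 200 * ∏ t, max 1 (v (q t))) ≤ dl * rho)
    (e' : Fin m × Fin (k + 2) →₀ ℕ) :
    PN v r N (coeff e' F') ≤ M * KF v ρ D W j b T x0 q dl G s := by
  classical
  have hSN : SN v (fun f : PowerSeries L => PN v r N f) := SN_PN v hr0 N
  have hM0' : 0 ≤ M := (hSN.nonneg _).trans (hM 0)
  have hG0 : 0 ≤ G := (hSN.nonneg _).trans hG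
  rw [coeff_step (fun p => Ex j (ξ p)) i dir F F' hg s hF e', sb_coeff _ i dir F hi e' s]
  by_cases h0 : ∀ t, e' (i, t) = 0
  · rw [if_pos h0]
    have h1 : (∑ μ ∈ box (fun _ : Fin (k + 2) => b + 1), coeff (ub e' i μ) F *
          PowerSeries.coeff s (∏ t, (if t = dir then Ex j (ξ (i, t))
            else PowerSeries.C (PowerSeries.constantCoeff (Ex j (ξ (i, t))))) ^ μ t)) =
        PowerSeries.coeff s (∑ μ ∈ box (fun _ : Fin (k + 2) => b + 1),
          PowerSeries.C (coeff (ub e' i μ) F) * ∏ t, dr t dir (Ex j (ξ (i, t))) ^ μ t) := by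
      rw [map_sum]
      refine Finset.sum_congr rfl fun μ _ => ?_
      rw [PowerSeries.coeff_C_mul]
      rfl
    rw [h1]
    have h2 := block_local v ρ hD W χ hb x0 σ q u (fun t => ξ (i, t)) hrho hM0 hcu hP
      (fun μ => coeff (ub e' i μ) F) (hO e') hr0 N (Bd := M) (fun μ _ => hM _) hdl0 hdl1 hdl hr
      dir s
    have h3 : PN v r N (gi ^ s) ≤ G ^ s :=
      (hSN.pow_le gi s).trans (pow_le_pow_left₀ (hSN.nonneg gi) hG s)
    refine (hSN.mul _ _).trans ((mul_le_mul h3 h2 (hSN.nonneg _) (pow_nonneg hG0 s)).trans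
      (le_of_eq ?_))
    unfold KF
    ring
  · rw [if_neg h0, mul_zero]
    exact hSN.zero.le.trans (mul_nonneg hM0' (KF_nonneg v ρ D W j b T x0 q hdl0.le hG0 s))

private theorem sb_congr {A : Type*} [CommRing A] {m n : ℕ} (ξ ξ' : Fin m × Fin n → PowerSeries A)
    (i : Fin m) (h : ∀ t, ξ (i, t) = ξ' (i, t)) (d : Fin n) : sb ξ i d = sb ξ' i d := by
  unfold sb
  congr 1
  funext p
  obtain ⟨i', t⟩ := p
  by_cases h1 : i' = i
  · subst h1
    simp only [if_true, h t]
  · simp only [if_neg h1]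

/-- The chain of estimates. -/
theorem chain_estimate {K L : Type*} [Field K] [Field L] [Algebra K L] (v : AbsoluteValue L ℝ)
    {k e m : ℕ} (ρ : Fin m → REP K (k + 2) e) {D : ℕ} (hD : ∀ i, (ρ i).Deg D)
    (W : Fin (k + 2) → WeierstrassCurve K) [∀ t, (W t).IsElliptic] (χ : Fin (k + 2) → Bool)
    (j b T : Fin m → ℕ) (hb : ∀ i, 1 ≤ b i) (x0 : Fin (k + 2) → L)
    (σ q : Fin m × Fin (k + 2) → L) (u ξ : Fin m × Fin (k + 2) → P2 L) (rho : Fin m → ℝ)
    (hrho : ∀ i, 0 ≤ rho i) (hM0 : ∀ i t, mu (W t) (j i) ![x0 t, 1] ≠ 0)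
    (hcu : ∀ p, cc2 (u p) = σ p)
    (hP : ∀ i t, PKG (W t) v (χ t) (mu (W t) (j i) ![x0 t, 1]) (σ (i, t)) (q (i, t)) (u (i, t))
      (ξ (i, t)) (rho i))
    (F : Fin (m + 1) → MvPolynomial (Fin m × Fin (k + 2)) (PowerSeries L))
    (g gi : Fin m → PowerSeries L) (hg : ∀ i, g i * gi i = 1) (s : Fin m → ℕ)
    (dir : Fin m → Fin (k + 2))
    (hF : ∀ i : Fin m, C (g i ^ s i) * F i.succ =
      PowerSeries.coeff (s i) (sb (fun p => Ex (j p.1) (ξ p)) i (dir i) (F i.castSucc)))
    (hdeg : ∀ i t, (F 0).degreeOf (i, t) ≤ b i)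
    (hO : ∀ i e', ORD (ρ i) W χ (j i) (b i) (T i) (fun μ => coeff (ub e' i μ) (F 0)) x0)
    {r : ℝ} (hr0 : 0 ≤ r) (N : ℕ) {M : ℝ} (hM : ∀ e', PN v r N (coeff e' (F 0)) ≤ M)
    (G : Fin m → ℝ) (hG : ∀ i, PN v r N (gi i) ≤ G i)
    (dl : Fin m → ℝ) (hdl0 : ∀ i, 0 < dl i) (hdl1 : ∀ i, dl i ≤ 1)
    (hdl : ∀ i, dl i = 1 ∨ ((∀ t, v (σ (i, t)) ≤ 1) ∧
      v (aeval (fun t => σ (i, t)) ((ρ i).z 0)) ≤ dl i ∧
      v (aeval (fun t => σ (i, t)) ((ρ i).z 1)) ≤ dl i))
    (hr : ∀ i, r ^ (4 ^ j i) * ((∏ t, kc (W t) v) ^ 200 * ∏ t, max 1 (v (q (i, t)))) ≤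
      dl i * rho i)
    (e' : Fin m × Fin (k + 2) →₀ ℕ) :
    PN v r N (coeff e' (F (Fin.last m))) ≤
      M * ∏ i, KF v (ρ i) D W (j i) (b i) (T i) x0 (fun t => q (i, t)) (dl i) (G i) (s i) := by
  classical
  have hSN : SN v (fun f : PowerSeries L => PN v r N f) := SN_PN v hr0 N
  set Kf : Fin m → ℝ := fun i =>
    KF v (ρ i) D W (j i) (b i) (T i) x0 (fun t => q (i, t)) (dl i) (G i) (s i) with hKf
  have hF' : ∀ i : Fin m, C (g i ^ s i) * F i.succ =
      PowerSeries.coeff (s i) (sb (fun p => Ex (j i) (ξ p)) i (dir i) (F i.castSucc)) := by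
    intro i
    rw [hF i, sb_congr (fun p => Ex (j p.1) (ξ p)) (fun p => Ex (j i) (ξ p)) i
      (fun t => rfl) (dir i)]
  have main : ∀ (l : ℕ) (hl : l < m + 1),
      (∀ i : Fin m, l ≤ (i : ℕ) → ∀ t, (F ⟨l, hl⟩).degreeOf (i, t) ≤ b i) ∧
      (∀ i : Fin m, l ≤ (i : ℕ) → ∀ e', ORD (ρ i) W χ (j i) (b i) (T i)
        (fun μ => coeff (ub e' i μ) (F ⟨l, hl⟩)) x0) ∧
      ∀ e', PN v r N (coeff e' (F ⟨l, hl⟩)) ≤
        M * ∏ i : Fin m, (if (i : ℕ) < l then Kf i else 1) := by
    intro l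
    induction l with
    | zero =>
      intro hl
      refine ⟨fun i _ t => hdeg i t, fun i _ e' => hO i e', fun e' => ?_⟩
      have h1 : ∏ i : Fin m, (if (i : ℕ) < 0 then Kf i else 1) = 1 :=
        Finset.prod_eq_one fun i _ => if_neg (Nat.not_lt_zero _)
      rw [h1, mul_one]
      exact hM e'
    | succ l ih =>
      intro hl
      have hlm : l < m := Nat.lt_of_succ_lt_succ hl
      obtain ⟨ih1, ih2, ih3⟩ := ih (Nat.lt_of_succ_lt hl)
      set i0 : Fin m := ⟨l, hlm⟩ with hi0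
      have hstep : C (g i0 ^ s i0) * F ⟨l + 1, hl⟩ = PowerSeries.coeff (s i0)
          (sb (fun p => Ex (j i0) (ξ p)) i0 (dir i0) (F ⟨l, Nat.lt_of_succ_lt hl⟩)) := hF' i0
      refine ⟨fun i hi t => ?_, fun i hi e' => ?_, fun e' => ?_⟩
      · exact step_deg _ i0 (dir i0) _ _ (hg i0) (s i0) hstep b (fun t => ih1 i0 le_rfl t) i
          (fun t => ih1 i (Nat.le_of_succ_le hi) t) t
      · have hne : i ≠ i0 := by
          intro h1
          rw [h1] at hi
          exact Nat.not_succ_le_self l hi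
        exact step_ORD ρ W χ j T x0 _ i0 (dir i0) _ _ (hg i0) (s i0) hstep b
          (fun t => ih1 i0 le_rfl t) i hne (fun e'' => ih2 i (Nat.le_of_succ_le hi) e'') e'
      · have h1 := step_size v (ρ i0) (hD i0) W χ (hb i0) x0 (fun t => σ (i0, t))
          (fun t => q (i0, t)) (fun t => u (i0, t)) ξ (hrho i0) (hM0 i0) (fun t => hcu (i0, t))
          i0 (hP i0) (F ⟨l, Nat.lt_of_succ_lt hl⟩) (F ⟨l + 1, hl⟩) (hg i0) (s i0) (dir i0) hstep
          (fun t => ih1 i0 le_rfl t) (fun e'' => ih2 i0 le_rfl e'') hr0 N ih3 (hG i0)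
          (hdl0 i0) (hdl1 i0) (hdl i0) (hr i0) e'
        have h2 : ∏ i : Fin m, (if (i : ℕ) < l + 1 then Kf i else 1) =
            (∏ i : Fin m, (if (i : ℕ) < l then Kf i else 1)) * Kf i0 := by
          have h3 : ∀ i : Fin m, (if (i : ℕ) < l + 1 then Kf i else 1) =
              (if (i : ℕ) < l then Kf i else 1) * (if i = i0 then Kf i else 1) := by
            intro i
            by_cases h4 : (i : ℕ) < l
            · rw [if_pos (Nat.lt_succ_of_lt h4), if_pos h4, if_neg, mul_one]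
              intro h5
              rw [h5] at h4
              exact lt_irrefl _ h4
            · by_cases h5 : i = i0
              · rw [if_neg h4, if_pos h5, one_mul, if_pos]
                rw [h5]
                exact Nat.lt_succ_self l
              · rw [if_neg h4, if_neg h5, one_mul, if_neg]
                intro h6
                exact h5 (Fin.ext (le_antisymm (Nat.le_of_lt_succ h6) (not_lt.1 h4)))
          rw [Finset.prod_congr rfl fun i _ => h3 i, Finset.prod_mul_distrib]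
          congr 1
          rw [Finset.prod_ite_eq' Finset.univ i0 Kf, if_pos (Finset.mem_univ i0)]
        rw [h2, ← mul_assoc]
        exact h1
  have hend := (main m (Nat.lt_succ_self m)).2.2 e'
  have h3 : ∏ i : Fin m, (if (i : ℕ) < m then Kf i else 1) = ∏ i, Kf i :=
    Finset.prod_congr rfl fun i _ => if_pos i.2
  rw [h3] at hend
  exact hend

end Pool.Agent.Lib.MP_17a322_nt.VN
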