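import Pool.Agent.Lib.MP_17a322_nt.VN.L1h
import Pool.Agent.Lib.MP_17a322_nt.VN.L1j
import Pool.Agent.Lib.MP_17a322_nt.VN.L1l

/-!
# JOB L1n: the package for one coordinate of one point

PROOF of `pack`. `col_points` (L1i) gives `yM`, `lam` for `M = mu W j ![Q.xRep 0, 1]`, `q = (P - 2 ^ j • Q).xRep 0`. `sqrt_path` (L1j) for `U` gives `Y`. `coord_package`
(L1h) for `S = C σ + U`, `Y` gives `u`, `ξ`; its last part is `PKG` by definition. `cc2 u = σ`: `constantCoeff u = C σ + U`.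
`hlow` of `coord_package` is the last statement of `col_points`. For `v`, `rho` with `rho * (kc W v ^ 40 * vn v (vc χ σ) ^ 4) ≤ r₁ v * v β ^ 2`: `sqrt_path` gives the two size bounds.
-/

namespace Pool.Agent.Lib.MP_17a322_nt.VN

open MvPolynomial Height
open Pool.Agent.Lib.MP_17a322_nt.RO
open Pool.Agent.Lib.MP_17a322_nt.VJ

/-- The package for one coordinate of one point. -/
theorem pack {K : Type*} [Field K] (W : WeierstrassCurve K) [W.IsElliptic] {L : Type*}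
    [Field L] [CharZero L] [DecidableEq L] [Algebra K L] (V : WeierstrassCurve L)
    (hV : W.map (algebraMap K L) = V) (j : ℕ) (Q P : V.toAffine.Point) (χ : Bool) (σ β : L)
    (hch : CH χ P σ) (hβ : β ^ 2 = ph W (vc χ σ)) (hβ0 : β ≠ 0) (h1 : P - 2 ^ j • Q ≠ 0)
    (h2 : 2 ^ (j + 1) • Q ≠ 0) (U : PowerSeries L) (hU : PowerSeries.constantCoeff U = 0)
    (r₁ : AbsoluteValue L ℝ → ℝ) (hr₁ : ∀ v, 0 ≤ r₁ v) (hUr : ∀ v n, PN v (r₁ v) n U ≤ 1) :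
    ∃ (u ξ : P2 L) (Y : PowerSeries L), mu W j ![Q.xRep 0, 1] ≠ 0 ∧
      PowerSeries.constantCoeff u = PowerSeries.C σ + U ∧
      PowerSeries.coeff 1 u = (if χ then Y else -Y) ∧
      Y ^ 2 = ph W (vc χ (PowerSeries.C σ + U)) ∧ PowerSeries.constantCoeff Y = β ∧
      S3 W (M2 (mu W j ![Q.xRep 0, 1])) (vc χ u) ![ξ, 1] = 0 ∧
      cc2 ξ = (P - 2 ^ j • Q).xRep 0 ∧ cc2 u = σ ∧
      ∀ (v : AbsoluteValue L ℝ) (rho : ℝ), 0 ≤ rho →
        rho * (kc W v ^ 40 * vn v (vc χ σ) ^ 4) ≤ r₁ v * v β ^ 2 →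
        PKG W v χ (mu W j ![Q.xRep 0, 1]) σ ((P - 2 ^ j • Q).xRep 0) u ξ rho ∧
        (∀ n, PN v rho n (PowerSeries.constantCoeff u) ≤ cst v 2 * max 1 (v σ)) ∧
        ∀ n, PN v rho n Y ≤ cst v 2 * v β := by
  obtain ⟨yM, lam, hyM, hB, hM, hcol, hlow⟩ :=
    col_points W V hV j Q P χ σ β hch hβ hβ0 h1 h2
  obtain ⟨Y, hY0, hY2, hYs⟩ := sqrt_path W χ σ β hβ hβ0 U hU
  have hσ : PowerSeries.constantCoeff (PowerSeries.C σ + U) = σ := by
    rw [map_add, PowerSeries.constantCoeff_C, hU, add_zero]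
  obtain ⟨u, ξ, hu0, hu1, hS3, hξ, hP⟩ := coord_package W χ (PowerSeries.C σ + U) Y hσ hY0 hY2
    _ hM yM _ lam hyM hB hcol hlow
  refine ⟨u, ξ, Y, hM, hu0, hu1, hY2, hY0, hS3, hξ, ?_, ?_⟩
  · unfold cc2
    rw [hu0, hσ]
  · intro v rho hrho hle
    obtain ⟨hs1, hs2⟩ := hYs v (r₁ v) (hr₁ v) (hUr v) rho hrho hle
    refine ⟨hP v rho hrho hs1 hs2, ?_, hs2⟩
    rw [hu0]
    exact hs1

end Pool.Agent.Lib.MP_17a322_nt.VN
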