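import Pool.Agent.Lib.MP_17a322_nt.VN.L1u0
import Pool.Agent.Lib.MP_17a322_nt.VN.LInt

/-!
The inequality of stage 2.
-/

universe u

namespace Pool.Agent.Lib.MP_17a322_nt.VN

open MvPolynomial Height
open Pool.Agent.Lib.MP_17a322_nt.RO
open Pool.Agent.Lib.MP_17a322_nt.VJ

section

variable {K : Type*} [Field K] {L : Type*} [Field L] [Algebra K L]

theorem Ex1_aeval {σ : Type*} (j : ℕ) (x : σ → PowerSeries L) (p : MvPolynomial σ K) :
    Ex1 L j (aeval x p) = aeval (fun t => Ex1 L j (x t)) p :=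
  MvPolynomial.comp_aeval_apply x
    ((PowerSeries.expand (4 ^ j) (pow_ne_zero j four_ne_zero) :
      PowerSeries L →ₐ[L] PowerSeries L).restrictScalars K) p

omit [Algebra K L] in
theorem constantCoeff_Ex1 (j : ℕ) (f : PowerSeries L) :
    PowerSeries.constantCoeff (Ex1 L j f) = PowerSeries.constantCoeff f :=
  PowerSeries.constantCoeff_expand _ _ f

omit [Algebra K L] in
theorem coeff_Ex (j n : ℕ) (f : P2 L) :
    PowerSeries.coeff n (Ex j f) = Ex1 L j (PowerSeries.coeff n f) :=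
  PowerSeries.coeff_map _ _ _

omit [Algebra K L] in
theorem constantCoeff_Ex (j : ℕ) (f : P2 L) :
    PowerSeries.constantCoeff (Ex j f) = Ex1 L j (PowerSeries.constantCoeff f) := by
  rw [← PowerSeries.coeff_zero_eq_constantCoeff_apply, coeff_Ex,
    PowerSeries.coeff_zero_eq_constantCoeff_apply]

theorem constantCoeff_aeval {σ : Type*} (x : σ → PowerSeries L) (p : MvPolynomial σ K) :
    PowerSeries.constantCoeff (aeval x p) =
      aeval (fun t => PowerSeries.constantCoeff (x t)) p := by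
  have h := map_aeval x (PowerSeries.constantCoeff (R := L)) p
  rw [h]
  rfl

end

/-- The factors of the radius in stage 2. -/
theorem rad_two {K L : Type u} [Field K] [NumberField K] [Field L] [NumberField L] [Algebra K L]
    {n : ℕ} (W : Fin n → WeierstrassCurve K) (χ : Fin n → Bool) {g : MvPolynomial (Fin n) K}
    (hg : g ≠ 0) (D : ℕ) (hD : ∀ t, g.degreeOf t ≤ D) (σ β : Fin n → L)
    (hβ : ∀ t, β t ^ 2 = ph (W t) (vc (χ t) (σ t))) (h0 : ∀ t, β t ≠ 0) (r l : Fin n)
    (hr : aeval σ (pderiv r g) ≠ 0) :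
    (∀ v : AbsoluteValue L ℝ, (0 < r1 v g D σ r * ro W v σ β * g2 W v g D σ β r l ∧
      r1 v g D σ r * ro W v σ β * g2 W v g D σ β r l ≤ 1) ∧
      r1 v g D σ r * ro W v σ β * g2 W v g D σ β r l ≤ r1 v g D σ r * ro W v σ β ∧
      0 ≤ r1 v g D σ r * ro W v σ β) ∧
    (FS fun v : AbsoluteValue L ℝ =>
      Real.log (r1 v g D σ r * ro W v σ β * g2 W v g D σ β r l)) ∧
    - gs (fun v : AbsoluteValue L ℝ =>
      Real.log (r1 v g D σ r * ro W v σ β * g2 W v g D σ β r l)) ≤
      Module.finrank ℚ L * (3 * D * (n + 1) + 2) + 3 * (Module.finrank K L * nh g) +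
        (3 * D + 6) * ∑ t, logHeight₁ (σ t) +
        48 * ∑ t, gs (fun v : AbsoluteValue L ℝ => Real.log (kc (W t) v)) := by
  have s1 := fun v : AbsoluteValue L ℝ => r1_spec v hg D hD σ r hr
  have s2 := fun v : AbsoluteValue L ℝ => ro_pos W v σ β h0
  have s3 := fun v : AbsoluteValue L ℝ => ro_le W χ v σ β hβ
  have s4 := fun v : AbsoluteValue L ℝ => g2_spec W χ v hg D hD σ β hβ h0 r l hr
  obtain ⟨f1, e1⟩ := gs_log_r1 hg D σ r hr
  obtain ⟨f2, e2⟩ := gs_log_ro W σ β h0
  obtain ⟨f3, e3⟩ := gs_log_g2 W hg D σ β h0 r l hr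
  have hlog : (fun v : AbsoluteValue L ℝ =>
      Real.log (r1 v g D σ r * ro W v σ β * g2 W v g D σ β r l)) =
      fun v : AbsoluteValue L ℝ => Real.log (r1 v g D σ r) + Real.log (ro W v σ β) +
        Real.log (g2 W v g D σ β r l) := by
    funext v
    rw [Real.log_mul (mul_pos (s1 v).1 (s2 v)).ne' (s4 v).1.ne',
      Real.log_mul (s1 v).1.ne' (s2 v).ne']
  refine ⟨fun v => ⟨⟨mul_pos (mul_pos (s1 v).1 (s2 v)) (s4 v).1, ?_⟩, ?_, ?_⟩, ?_, ?_⟩
  · exact mul_le_one₀ (mul_le_one₀ (s1 v).2.1 (s2 v).le (s3 v).1) (s4 v).1.le (s4 v).2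
  · exact mul_le_of_le_one_right (mul_pos (s1 v).1 (s2 v)).le (s4 v).2
  · exact (mul_pos (s1 v).1 (s2 v)).le
  · rw [hlog]
    exact FS_add (FS_add f1 f2) f3
  · rw [hlog, gs_add (FS_add f1 f2) f3, gs_add f1 f2]
    have e4 : - gs (fun v : AbsoluteValue L ℝ => Real.log (ro W v σ β)) ≤ _ := e2.le
    refine le_trans (le_of_eq (by ring)) ((add_le_add (add_le_add e1 e4) e3).trans
      (le_of_eq (by ring)))

theorem ineq_two {K : Type u} [Field K] [NumberField K] [DecidableEq K] {k : ℕ}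
    (W : Fin (k + 2) → WeierstrassCurve K) [∀ t, (W t).IsElliptic] (χ : Fin (k + 2) → Bool)
    (r l : Fin (k + 2)) (hrl : l ≠ r) (e D m N : ℕ) (hN : 1 ≤ N) :
    ∃ C : ℝ, 0 ≤ C ∧
      ∀ (P₀ : ∀ t, (W t).toAffine.Point) (P : Fin m → ∀ t, (W t).toAffine.Point) (j : Fin m → ℕ)
        (s y : Fin m → Fin (k + 2) → K) (ρ : Fin m → REP K (k + 2) e)
        (g : Fin m → MvPolynomial (Fin (k + 2)) K) (J : ℕ)
        (F₀ : (Fin (k + 2) → ℕ) → (Fin m → Fin (k + 2) → ℕ) → K)
        (NN : Fin (m + 1) → MvPolynomial (VL m (k + 2)) K)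
        (NN' : Fin m → MvPolynomial (VL m (k + 2)) K) (R : Fin m → ℕ) (a : ℕ)
        (c : MvPolynomial (Fin (k + 2) ⊕ (Fin m × Fin (k + 2))) K),
      (∀ i, j i ≤ J) → (∀ i t, P i t ≠ 0) → (∀ i t, CH (χ t) (P i t) (s i t)) →
      (∀ i t, y i t ^ 2 = ph (W t) (vc (χ t) (s i t))) → (∀ i t, y i t ≠ 0) →
      (∀ i, (ρ i).Deg D) → (∀ i, (ρ i).ht ≤ 4 ^ j i) →
      (∀ i, eval (s i) ((ρ i).z 0) ≠ 0 ∨ eval (s i) ((ρ i).z 1) ≠ 0) →
      (∀ i t, (g i).degreeOf t ≤ D) → (∀ i, nh (g i) ≤ 4 ^ j i) → (∀ i, eval (s i) (g i) = 0) →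
      (∀ i, eval (s i) (pderiv r (g i)) ≠ 0) →
      (∃ a ν, F₀ a ν ≠ 0) →
      (∀ a ν, F₀ a ν ≠ 0 → a ∈ box (fun _ : Fin (k + 2) => N * 4 ^ J + 1) ∧
        ν ∈ BB (fun i : Fin m => N * 4 ^ (J - j i) + 1)) →
      CC ρ W χ N J j F₀ →
      NN 0 = NF (box (fun _ : Fin (k + 2) => N * 4 ^ J + 1))
        (BB (fun i : Fin m => N * 4 ^ (J - j i) + 1)) F₀ →
      (∀ p, (NN (Fin.last m)).degreeOf (vZ p) = 0) →
      (∀ (i i' : Fin m) (t : Fin (k + 2)), i ≤ i' → (NN i.castSucc).degreeOf (vS (i', t)) = 0) →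
      (∀ (i i' : Fin m) (t : Fin (k + 2)), i' ≤ i → (NN' i).degreeOf (vZ (i', t)) = 0) →
      (∀ (i i' : Fin m) (t : Fin (k + 2)), i' ≤ i → (NN i.succ).degreeOf (vZ (i', t)) = 0) →
      (∀ (i : Fin m) (A : Type u) [CommRing A] [Algebra K A] (x : VL m (k + 2) → A),
        (∀ t, aeval x (al W χ j (i, t)) = 0) →
          aeval x (NN i.castSucc) ∣ aeval x (gS g i) ^ R i * aeval x (NN' i)) →
      (∀ (i : Fin m) (A : Type u) [CommRing A] [Algebra K A] (x : VL m (k + 2) → A),
        aeval x (gS g i) = 0 → aeval x (NN' i) ∣ aeval x (NN i.succ)) →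
      c ≠ 0 →
      (∀ (L : Type u) [Field L] [Algebra K L] (x : Fin (k + 2) → L)
        (ζ : Fin m × Fin (k + 2) → L) (S : Fin m × Fin (k + 2) → PowerSeries L),
        (∀ p, p.2 ≠ r → S p = PowerSeries.C (algebraMap K L (s p.1 p.2)) +
          PowerSeries.C (ζ p) * PowerSeries.X ^ (4 ^ j p.1)) →
        PowerSeries.coeff a (aeval (Sum.elim (fun t => PowerSeries.C (x t))
          (Sum.elim S fun _ => 0) : VL m (k + 2) → PowerSeries L) (NN (Fin.last m))) =
            aeval (Sum.elim x ζ) c) →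
      ∃ s' : Fin m → ℕ, (∀ i, s' i ≤ R i) ∧
        INEQ C (logHeight (fun p : (box (fun _ : Fin (k + 2) => N * 4 ^ J + 1)) ×
          (BB (fun i : Fin m => N * 4 ^ (J - j i) + 1) : Finset (Fin m → Fin (k + 2) → ℕ)) =>
            F₀ p.1 p.2)) (HN P₀) N J j s'
        (fun i => ∑ t, logHeight (P i t - 2 ^ j i • P₀ t).xRep)
        (fun i => gn (s i) (eval (s i) ((ρ i).z 0)) (eval (s i) ((ρ i).z 1)))
        (fun i => logHeight ![eval (s i) (pderiv l (g i)) * y i l,
          eval (s i) (pderiv r (g i)) * y i r])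
        (fun i => HN (P i)) a := by
  obtain ⟨Ck, Ch, hCk, hCh, hpack⟩ := const_pack W
  obtain ⟨C, hC, hconv⟩ := conv_ineq m k N (CF k D) (CE k D) (Module.finrank ℚ K)
    (Real.log (e + 1)) Ck Ch (248 * Ck + Ch + Module.finrank ℚ K * (3 * D * (k + 3) + 2) +
      4 * D + 6) (Nat.cast_nonneg _)
    (Real.log_nonneg (by linarith [(Nat.cast_nonneg e : (0 : ℝ) ≤ e)])) hCk hCh
    (by positivity)
  refine ⟨C, hC, ?_⟩
  intro P₀ P j s y ρ g J F₀ NN NN' R a c hJ hP0 hch hy hy0 hD hht hz01 hgD hgn hg0 hgr hne hsupp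
    hCC hNN0 hlast hS hZ' hZ hN' hN'' hc hc'
  obtain ⟨L, iF, iN, iD, iA, V, f, z, ζ, hV, hf, hz, h0, h1, h2, hζ, hcL⟩ :=
    choose_L W P₀ P j c hc
  obtain ⟨hk, hh⟩ := hpack L V f z hV hf hz
  obtain ⟨hh0, hh1⟩ := hh P₀ h0
  have hinj : Function.Injective (algebraMap K L) := (algebraMap K L).injective
  -- the coordinates
  set σ : Fin m × Fin (k + 2) → L := fun p => algebraMap K L (s p.1 p.2) with hσ
  set β : Fin m × Fin (k + 2) → L := fun p => algebraMap K L (y p.1 p.2) with hβdef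
  set x0 : Fin (k + 2) → L := fun t => (f t (P₀ t) + z t).xRep 0 with hx0
  set q : Fin m × Fin (k + 2) → L := fun p =>
    (f p.2 (P p.1 p.2) - 2 ^ j p.1 • (f p.2 (P₀ p.2) + z p.2)).xRep 0 with hq
  have haev : ∀ i (p : MvPolynomial (Fin (k + 2)) K), aeval (fun t => σ (i, t)) p =
      algebraMap K L (eval (s i) p) := by
    intro i p
    have := aeval_algebraMap_apply L (s i) p
    rw [show (fun t => σ (i, t)) = algebraMap K L ∘ s i from rfl, this]
    rfl
  have hβ : ∀ i t, β (i, t) ^ 2 = ph (W t) (vc (χ t) (σ (i, t))) := by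
    intro i t
    have e1 : (fun l => (Algebra.ofId K L) (vc (χ t) (s i t) l)) = vc (χ t) (σ (i, t)) := by
      funext l
      unfold vc
      cases χ t <;> fin_cases l <;> simp [hσ, Algebra.ofId_apply]
    have e2 := map_ph (W t) (Algebra.ofId K L) (vc (χ t) (s i t))
    rw [e1] at e2
    rw [← e2, ← hy i t, map_pow]
    rfl
  have hβ0 : ∀ p, β p ≠ 0 := fun p =>
    (map_ne_zero_iff _ hinj).2 (hy0 p.1 p.2)
  -- the equations of the hypersurfaces
  have hgne : ∀ i, g i ≠ 0 := by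
    intro i h
    apply hgr i
    rw [h, map_zero, map_zero]
  have hgL0 : ∀ i, aeval (fun t => σ (i, t)) (g i) = 0 := by
    intro i
    rw [haev, hg0 i, map_zero]
  have hgLr : ∀ i, aeval (fun t => σ (i, t)) (pderiv r (g i)) ≠ 0 := by
    intro i
    rw [haev, map_ne_zero_iff _ hinj]
    exact hgr i
  have himp := fun i => implicit_path (g i) D (hgD i) r (fun t => σ (i, t)) (fun t => ζ (i, t))
    (fun t => hζ (i, t)) (hgL0 i) (hgLr i)
  choose Ur hUr0 hUre hUrs using himp
  set U : Fin m × Fin (k + 2) → PowerSeries L := fun p =>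
    if p.2 = r then Ur p.1 else PowerSeries.C (ζ p) * PowerSeries.X with hU
  obtain ⟨u, ξ, Y, hM0, hu0, hu1, hY0, hrel, hcu, hpk⟩ := pack_all W V hV χ j
    (fun t => f t (P₀ t) + z t) (fun i t => f t (P i t)) σ β
    (fun i t => CH_map (hf t) (hch i t)) hβ hβ0 h1 h2 U
    (fun p => by
      show PowerSeries.constantCoeff (if p.2 = r then Ur p.1 else _) = 0
      split_ifs
      · exact hUr0 p.1
      · rw [map_mul, PowerSeries.constantCoeff_X, mul_zero])
    (fun i v => r1 v (g i) D (fun t => σ (i, t)) r)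
    (fun i v => (r1_spec v (hgne i) D (hgD i) (fun t => σ (i, t)) r (hgLr i)).1.le)
    (fun i t v n' => by
      obtain ⟨e1, e2, e3⟩ := r1_spec v (hgne i) D (hgD i) (fun t => σ (i, t)) r (hgLr i)
      show PN v _ n' (if t = r then Ur i else _) ≤ 1
      split_ifs
      · exact hUrs i v _ e1.le e3 n'
      · exact (PN_mono_radius v e1.le e2 n' _).trans (explicit_size v (ζ (i, t)) (hζ (i, t)) n'))
  have hinjP : (0 : ℝ) < Module.finrank K L := by exact_mod_cast Module.finrank_pos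
  set S : Fin m × Fin (k + 2) → PowerSeries L := fun p =>
    Ex1 L (j p.1) (PowerSeries.constantCoeff (u p)) with hSdef
  have hcS : (fun p : Fin m × Fin (k + 2) => PowerSeries.constantCoeff (Ex (j p.1) (u p))) = S := by
    funext p
    exact constantCoeff_Ex (j p.1) (u p)
  have hSe : ∀ p, p.2 ≠ r → S p = PowerSeries.C (algebraMap K L (s p.1 p.2)) +
      PowerSeries.C (ζ p) * PowerSeries.X ^ (4 ^ j p.1) := by
    intro p hp
    rw [hSdef]
    show Ex1 L (j p.1) (PowerSeries.constantCoeff (u p)) = _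
    have e1 : U p = PowerSeries.C (ζ p) * PowerSeries.X := if_neg hp
    rw [hu0 p, e1, map_add, map_mul, Ex1_C, Ex1_C, Ex1_X]
  have hSg : ∀ i, aeval (fun t => S (i, t)) (g i) = 0 := by
    intro i
    have e1 := Ex1_aeval (K := K) (j i) (fun t => PowerSeries.constantCoeff (u (i, t))) (g i)
    have e2 : (fun t => PowerSeries.constantCoeff (u (i, t))) = fun t =>
        if t = r then PowerSeries.C (σ (i, r)) + Ur i
        else PowerSeries.C (σ (i, t)) + PowerSeries.C (ζ (i, t)) * PowerSeries.X := by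
      funext t
      rw [hu0]
      show PowerSeries.C (σ (i, t)) + (if t = r then Ur i else _) = _
      split_ifs with ht
      · rw [ht]
      · rfl
    rw [e2, hUre i, map_zero] at e1
    exact e1.symm
  -- the derivatives
  set gd : Fin m → Fin (k + 2) → PowerSeries L := fun i t =>
    aeval (fun t => PowerSeries.constantCoeff (Ex (j i) (u (i, t)))) (pderiv t (g i)) *
      PowerSeries.coeff 1 (Ex (j i) (u (i, t))) with hgddef
  have hgd1 : ∀ i t, gd i t = Ex1 L (j i)
      (aeval (fun t => PowerSeries.constantCoeff (u (i, t))) (pderiv t (g i)) *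
        (if χ t then Y (i, t) else -Y (i, t))) := by
    intro i t
    rw [map_mul, Ex1_aeval, ← hu1 (i, t), ← coeff_Ex]
    show aeval (fun t => PowerSeries.constantCoeff (Ex (j i) (u (i, t)))) (pderiv t (g i)) * _ = _
    have e1 : (fun t => PowerSeries.constantCoeff (Ex (j i) (u (i, t)))) =
        fun t => Ex1 L (j i) (PowerSeries.constantCoeff (u (i, t))) :=
      funext fun t => constantCoeff_Ex _ _
    rw [e1]
  have hcu' : ∀ i, (fun t => PowerSeries.constantCoeff (PowerSeries.constantCoeff (u (i, t)))) =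
      fun t => σ (i, t) := fun i => funext fun t => hcu (i, t)
  have hgdc : ∀ i t, aeval (fun t => σ (i, t)) (pderiv t (g i)) * β (i, t) ≠ 0 →
      PowerSeries.constantCoeff (gd i t) ≠ 0 := by
    intro i t h
    rw [hgd1, constantCoeff_Ex1, map_mul, constantCoeff_aeval, hcu' i]
    cases χ t
    · simp only [Bool.false_eq_true, if_false]
      rw [map_neg, hY0, mul_neg, neg_ne_zero]
      exact h
    · simp only [if_true]
      rw [hY0]
      exact h
  have hgdr : ∀ i, aeval (fun t => σ (i, t)) (pderiv r (g i)) * β (i, r) ≠ 0 := fun i =>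
    mul_ne_zero (hgLr i) (hβ0 _)
  -- the chain
  obtain ⟨F, s', hF0, hFl, hsR, hFs⟩ := chain_two W χ j r l hrl g NN NN' R hS hZ' hZ hN' hN''
    (fun t => (PowerSeries.C (x0 t) : PowerSeries L)) (fun p => Ex (j p.1) (u p))
    (fun p => Ex (j p.1) (ξ p))
    (fun p => rel_two (W p.2) (χ p.2) (j p.1) (j p.1) (x0 p.2) (u p) (ξ p) (hrel p))
    (fun i => by
      have e1 : (fun t => PowerSeries.constantCoeff (Ex (j i) (u (i, t)))) =
          fun t => S (i, t) := funext fun t => constantCoeff_Ex _ _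
      show aeval (fun t => PowerSeries.constantCoeff (Ex (j i) (u (i, t)))) (g i) = 0
      rw [e1]
      exact hSg i) gd (fun i t => rfl)
    (fun i => by
      rw [PowerSeries.isUnit_iff_constantCoeff, isUnit_iff_ne_zero]
      exact hgdc i r (hgdr i))
    (by
      rw [hcS, pS_const _ _ _ hlast]
      intro h
      apply hcL
      have e1 := C_eq_zero.mp h
      have e2 := hc' L x0 ζ S hSe
      rw [e1, map_zero] at e2
      exact e2.symm)
  rw [hcS] at hF0 hFl
  rw [pS_const _ _ _ hlast] at hFl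
  refine ⟨s', hsR, ?_⟩
  -- the radii
  have hz01L : ∀ i, aeval (fun t => σ (i, t)) ((ρ i).z 0) ≠ 0 ∨
      aeval (fun t => σ (i, t)) ((ρ i).z 1) ≠ 0 := by
    intro i
    rw [haev, haev, map_ne_zero_iff _ hinj, map_ne_zero_iff _ hinj]
    exact hz01 i
  have hrad := fun i => rad_two W χ (hgne i) D (hgD i) (fun t => σ (i, t)) (fun t => β (i, t))
    (fun t => hβ i t) (fun t => hβ0 (i, t)) r l (hgLr i)
  set RA : Fin m → AbsoluteValue L ℝ → ℝ := fun i v =>
    r1 v (g i) D (fun t => σ (i, t)) r * ro W v (fun t => σ (i, t)) (fun t => β (i, t)) *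
      g2 W v (g i) D (fun t => σ (i, t)) (fun t => β (i, t)) r l with hRA
  set RR : Fin m → AbsoluteValue L ℝ → ℝ := fun i v =>
    dlv v (fun t => σ (i, t)) (aeval (fun t => σ (i, t)) ((ρ i).z 0))
        (aeval (fun t => σ (i, t)) ((ρ i).z 1)) * RA i v /
        ((∏ t, kc (W t) v) ^ 200 * ∏ t, max 1 (v (q (i, t)))) with hRR
  have hrr := fun i => rr_spec W (fun t => σ (i, t)) (fun t => q (i, t)) (hz01L i)
    (RA i) (fun v => ((hrad i).1 v).1) (hrad i).2.1
  have hddc : ∀ (v : AbsoluteValue L ℝ) (i : Fin m), PowerSeries.constantCoeff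
      (gd i (dd v (g i) (fun t => σ (i, t)) (fun t => β (i, t)) r l)) ≠ 0 := by
    intro v i
    apply hgdc
    have e1 := (dd_spec v (g i) (fun t => σ (i, t)) (fun t => β (i, t)) r l).2
    intro h0
    rw [h0, map_zero] at e1
    have e2 := v.pos (hgdr i)
    have e3 := le_max_right (v (aeval (fun t => σ (i, t)) (pderiv l (g i)) * β (i, l)))
      (v (aeval (fun t => σ (i, t)) (pderiv r (g i)) * β (i, r)))
    rw [← e1] at e3
    linarith
  have key := core_ineq ρ hD W χ j N J hN hJ x0 σ q u ξ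
    (fun i v => r1 v (g i) D (fun t => σ (i, t)) r *
      ro W v (fun t => σ (i, t)) (fun t => β (i, t)))
    (fun i v => ((hrad i).1 v).2.2) hM0 hcu (fun v _ i t => (hpk i v).1 t) F₀ hne hsupp hCC F
    (fun e' => by
      rw [hF0, hNN0]
      exact NF_aeval _ _ F₀ hsupp x0 S e') gd (fun i t => (gd i t)⁻¹) s'
    (fun v i => dd v (g i) (fun t => σ (i, t)) (fun t => β (i, t)) r l)
    (fun v i => PowerSeries.mul_inv_cancel _ (hddc v i))
    (fun v i => hFs i _ (dd_spec v (g i) (fun t => σ (i, t)) (fun t => β (i, t)) r l).1)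
    (fun i v => cst v 2 / max (v (aeval (fun t => σ (i, t)) (pderiv l (g i)) * β (i, l)))
      (v (aeval (fun t => σ (i, t)) (pderiv r (g i)) * β (i, r))))
    RR
    (fun v hv i x hx hx1 N' => by
      refine g2_inv W χ v (hgne i) D (hgD i) (fun t => σ (i, t)) (fun t => β (i, t))
        (fun t => hβ i t) (fun t => hβ0 (i, t)) r l (hgLr i)
        (fun t => PowerSeries.constantCoeff (u (i, t))) (fun t => Y (i, t))
        (fun t => hcu (i, t)) (fun t => hY0 (i, t)) ((hrad i).1 v).2.2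
        (fun t n' => (hpk i v).2.1 t n') (fun t n' => (hpk i v).2.2 t n') (j i) _ ?_ x hx ?_ N'
      · rw [← hgd1 i]
        exact PowerSeries.mul_inv_cancel _ (hddc v i)
      · refine hx1.trans (((hrr i).1 v).2.1.trans (le_of_eq ?_))
        exact mul_comm _ _)
    (fun v _ i => div_pos (lt_of_lt_of_le one_pos (one_le_cst v (by norm_num)))
      (lt_of_lt_of_le (v.pos (hgdr i)) (le_max_right _ _)))
    (fun i => (gs_log_max_two (hgdr i)).1)
    (fun v _ i => ⟨((hrr i).1 v).1, ((hrr i).1 v).2.1.trans ((hrad i).1 v).1.2⟩)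
    (fun i => (hrr i).2.1) hz01L
    (fun v _ i => by
      refine (((hrr i).1 v).2.2).le.trans ?_
      exact mul_le_mul_of_nonneg_left ((hrad i).1 v).2.1 (dlv_pos v _ (hz01L i)).1.le) a
    (aeval (Sum.elim (fun t => PowerSeries.C (x0 t)) (Sum.elim S fun _ => 0) :
      VL m (k + 2) → PowerSeries L) (NN (Fin.last m))) hFl
    (by
      rw [hc' L x0 ζ S hSe]
      exact hcL)
  -- conversion to `K`
  have hL : (Module.finrank ℚ L : ℝ) = Module.finrank K L * Module.finrank ℚ K := finrank_eq_mul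
  have hlF : 0 ≤ logHeight (fun p : (box (fun _ : Fin (k + 2) => N * 4 ^ J + 1)) ×
          (BB (fun i : Fin m => N * 4 ^ (J - j i) + 1) : Finset (Fin m → Fin (k + 2) → ℕ)) =>
            F₀ p.1 p.2) := logHeight_nonneg _
  have hHN : ∀ P : ∀ t, (W t).toAffine.Point, 0 ≤ HN P := fun P =>
    Finset.sum_nonneg fun t _ => logHeight_xRep_nonneg (P t)
  have hsig : ∀ i, ∑ t, logHeight₁ (σ (i, t)) = Module.finrank K L * HN (P i) := by
    intro i
    unfold HN
    rw [Finset.mul_sum]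
    refine Finset.sum_congr rfl fun t _ => ?_
    rw [CH_height (hch i t)]
    exact logHeight₁_algebraMap (s i t)
  have hgL : ∀ i, gn (fun t => σ (i, t)) (aeval (fun t => σ (i, t)) ((ρ i).z 0))
      (aeval (fun t => σ (i, t)) ((ρ i).z 1)) =
      Module.finrank K L * gn (s i) (eval (s i) ((ρ i).z 0)) (eval (s i) ((ρ i).z 1)) := by
    intro i
    rw [haev, haev]
    exact gn_map (s i) _ _
  have hslope : ∀ i, logHeight ![aeval (fun t => σ (i, t)) (pderiv l (g i)) * β (i, l),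
      aeval (fun t => σ (i, t)) (pderiv r (g i)) * β (i, r)] =
      Module.finrank K L * logHeight ![eval (s i) (pderiv l (g i)) * y i l,
        eval (s i) (pderiv r (g i)) * y i r] := by
    intro i
    rw [← RV.logHeight_algebraMap]
    congr 1
    funext t
    fin_cases t
    · show aeval (fun t => σ (i, t)) (pderiv l (g i)) * β (i, l) =
        algebraMap K L (eval (s i) (pderiv l (g i)) * y i l)
      rw [haev, map_mul]
    · show aeval (fun t => σ (i, t)) (pderiv r (g i)) * β (i, r) =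
        algebraMap K L (eval (s i) (pderiv r (g i)) * y i r)
      rw [haev, map_mul]
  rw [hL] at key
  refine hconv (Module.finrank K L) _ (HN P₀) (∑ t, logHeight₁ (x0 t))
    (∑ t, gs (fun v : AbsoluteValue L ℝ => Real.log (kc (W t) v))) J j s'
    _ _ _ _ (fun i => (ρ i).ht) (fun i => ∑ t, logHeight₁ (q (i, t)))
    (fun i => gn (fun t => σ (i, t)) (aeval (fun t => σ (i, t)) ((ρ i).z 0))
          (aeval (fun t => σ (i, t)) ((ρ i).z 1)))
    (fun i => gs (fun v : AbsoluteValue L ℝ => Real.log (cst v 2 /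
      max (v (aeval (fun t => σ (i, t)) (pderiv l (g i)) * β (i, l)))
      (v (aeval (fun t => σ (i, t)) (pderiv r (g i)) * β (i, r))))))
    (fun i => - gs (fun v => Real.log (RR i v))) a hinjP hlF (hHN P₀)
    (fun i => Finset.sum_nonneg fun t _ => logHeight_xRep_nonneg _) (fun i => hHN (P i)) hJ hht
    hh0 hk (fun i => hh1 (P i) (j i) (h1 i)) hgL
    (fun i => by
      have e1 := (gs_log_max_two (a := aeval (fun t => σ (i, t)) (pderiv l (g i)) * β (i, l))
        (hgdr i)).2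
      rw [hslope i, hL] at e1
      exact e1) ?_ key
  intro i
  have e1 : - gs (fun v => Real.log (RR i v)) = _ := (hrr i).2.2
  have e2 := (hrad i).2.2
  rw [hsig i, hL] at e2
  have e3 := hh1 (P i) (j i) (h1 i)
  have e4 := gn_bound (ρ i) (hD i) (s i) (hz01 i)
  have e5 : ∑ t, logHeight₁ (s i t) = HN (P i) := by
    unfold HN
    exact Finset.sum_congr rfl fun t _ => (CH_height (hch i t)).symm
  rw [e5] at e4
  have e6 : (1 : ℝ) ≤ 4 ^ j i := one_le_pow₀ (by norm_num)
  have e7 := hht i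
  have e8 := hHN (P i)
  rw [hgL i] at e1
  have e9 : (Module.finrank K L : ℝ) *
      gn (s i) (eval (s i) ((ρ i).z 0)) (eval (s i) ((ρ i).z 1)) ≤
      Module.finrank K L * (4 ^ j i + D * HN (P i)) :=
    mul_le_mul_of_nonneg_left (by linarith) hinjP.le
  have e10 : 248 * ∑ t, gs (fun v : AbsoluteValue L ℝ => Real.log (kc (W t) v)) ≤
      Module.finrank K L * (248 * Ck * 4 ^ j i) := by
    have : Ck ≤ Ck * 4 ^ j i := le_mul_of_one_le_right hCk e6
    nlinarith [mul_le_mul_of_nonneg_left this hinjP.le]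
  have e11 : (Module.finrank K L : ℝ) * Module.finrank ℚ K *
      (3 * D * (((k + 2 : ℕ) : ℝ) + 1) + 2) ≤
      Module.finrank K L * (Module.finrank ℚ K * (3 * D * (k + 3) + 2) * 4 ^ j i) := by
    have e12 : (((k + 2 : ℕ) : ℝ) + 1) = k + 3 := by push_cast; ring
    rw [e12, mul_assoc]
    refine mul_le_mul_of_nonneg_left ?_ hinjP.le
    exact le_mul_of_one_le_right (by positivity) e6
  have e13 : 3 * ((Module.finrank K L : ℝ) * nh (g i)) ≤ 3 * (Module.finrank K L * 4 ^ j i) :=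
    mul_le_mul_of_nonneg_left (mul_le_mul_of_nonneg_left (hgn i) hinjP.le) (by norm_num)
  have e14 : 0 ≤ (Module.finrank K L : ℝ) * ((248 * Ck + Ch +
      Module.finrank ℚ K * (3 * D * (k + 3) + 2)) * HN (P i) + (4 * D + 2 : ℝ) * 4 ^ j i) := by
    positivity
  show - gs (fun v => Real.log (RR i v)) ≤ _
  rw [e1]
  have e15 : (Module.finrank K L : ℝ) * (4 ^ j i + D * HN (P i)) +
      (Module.finrank K L * (Module.finrank ℚ K * (3 * D * (k + 3) + 2) * 4 ^ j i) +
        3 * (Module.finrank K L * 4 ^ j i) + (3 * D + 6) * (Module.finrank K L * HN (P i))) +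
      Module.finrank K L * (248 * Ck * 4 ^ j i) +
      Module.finrank K L * (2 * ∑ t, logHeight (P i t - 2 ^ j i • P₀ t).xRep + Ch * 4 ^ j i) +
      Module.finrank K L * ((248 * Ck + Ch + Module.finrank ℚ K * (3 * D * (k + 3) + 2)) *
        HN (P i) + (4 * D + 2 : ℝ) * 4 ^ j i) =
      Module.finrank K L * ((248 * Ck + Ch + Module.finrank ℚ K * (3 * D * (k + 3) + 2) +
        4 * D + 6) * (4 ^ j i + HN (P i)) +
        2 * ∑ t, logHeight (P i t - 2 ^ j i • P₀ t).xRep) := by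
    ring
  linarith

end Pool.Agent.Lib.MP_17a322_nt.VN
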