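import Pool.Agent.Lib.MP_17a322_nt.VJ.C5
import Pool.Agent.Lib.MP_17a322_nt.VJ.C2
import Pool.Agent.Lib.MP_17a322_nt.VJ.C3

/-!
Successive elimination of several variables.
-/

universe u

namespace Pool.Agent.Lib.MP_17a322_nt.VN

open MvPolynomial Height
open Pool.Agent.Lib.MP_17a322_nt.VJ

/-- Successive elimination of the variables of the list `l`, the variable `y` with `α y`. -/
noncomputable def ELL {R σ : Type*} [CommRing R] [DecidableEq σ] (α : σ → MvPolynomial σ R) :
    List σ → MvPolynomial σ R → MvPolynomial σ R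
  | [], F => F
  | y :: l, F => ELL α l (El y (α y) F)

theorem ELL_nil {R σ : Type*} [CommRing R] [DecidableEq σ] (α : σ → MvPolynomial σ R)
    (F : MvPolynomial σ R) : ELL α [] F = F := rfl

theorem ELL_cons {R σ : Type*} [CommRing R] [DecidableEq σ] (α : σ → MvPolynomial σ R) (y : σ)
    (l : List σ) (F : MvPolynomial σ R) : ELL α (y :: l) F = ELL α l (El y (α y) F) := rfl

theorem ELL_append {R σ : Type*} [CommRing R] [DecidableEq σ] (α : σ → MvPolynomial σ R)
    (l l' : List σ) (F : MvPolynomial σ R) : ELL α (l ++ l') F = ELL α l' (ELL α l F) := by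
  induction l generalizing F with
  | nil => rfl
  | cons y l ih => rw [List.cons_append, ELL_cons, ELL_cons, ih]

/-- At a point where all relations hold, the value of `F` divides the value of the eliminant. -/
theorem aeval_dvd_ELL {R σ : Type*} [CommRing R] [DecidableEq σ] (α : σ → MvPolynomial σ R)
    (l : List σ) (F : MvPolynomial σ R) (hα : ∀ y ∈ l, (α y).degreeOf y ≠ 0)
    {S : Type*} [CommRing S] [Algebra R S] (s : σ → S) (hs : ∀ y ∈ l, aeval s (α y) = 0) :
    aeval s F ∣ aeval s (ELL α l F) := by
  induction l generalizing F with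
  | nil => exact dvd_rfl
  | cons y l ih =>
    rw [ELL_cons]
    exact (aeval_dvd_El y (α y) F (Or.inl (hα y (by simp))) s (hs y (by simp))).trans
      (ih _ (fun z hz => hα z (by simp [hz])) fun z hz => hs z (by simp [hz]))

/-- Degrees: `(α y)` has degree at most `2` in `y`, `0` in the other variables of `l`, and at most
`a y t` in `t`. -/
theorem degreeOf_ELL_le {R σ : Type*} [CommRing R] [DecidableEq σ] (α : σ → MvPolynomial σ R)
    (a : σ → σ → ℕ) (l : List σ) (hl : l.Nodup) (h2 : ∀ y ∈ l, (α y).degreeOf y ≤ 2)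
    (h0 : ∀ y ∈ l, ∀ z ∈ l, z ≠ y → (α y).degreeOf z = 0) (t : σ) (ht : t ∉ l)
    (ha : ∀ y ∈ l, (α y).degreeOf t ≤ a y t) (F : MvPolynomial σ R) (d : σ → ℕ)
    (hd : ∀ z, F.degreeOf z ≤ d z) :
    (ELL α l F).degreeOf t ≤ 2 ^ l.length * (d t + (l.map fun y => a y t * d y).sum) := by
  induction l generalizing F d with
  | nil => simpa [ELL_nil] using hd t
  | cons y l ih =>
    rw [ELL_cons]
    have hty : t ≠ y := fun h => ht (by simp [h])
    have htl : t ∉ l := fun h => ht (by simp [h])
    have hyl : y ∉ l := (List.nodup_cons.1 hl).1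
    have h1 : ∀ z, z ≠ y → (El y (α y) F).degreeOf z ≤
        d y * (α y).degreeOf z + 2 * d z := fun z hz => by
      refine (degreeOf_El_le y (α y) F z hz).trans ?_
      exact Nat.add_le_add (Nat.mul_le_mul_right _ (hd y))
        (Nat.mul_le_mul (h2 y (by simp)) (hd z))
    have key := ih (List.nodup_cons.1 hl).2 (fun z hz => h2 z (by simp [hz]))
      (fun z hz w hw hwz => h0 z (by simp [hz]) w (by simp [hw]) hwz) htl
      (fun z hz => ha z (by simp [hz])) (El y (α y) F)
      (fun z => if z = y then 0 else d y * (α y).degreeOf z + 2 * d z) (fun z => by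
        split_ifs with hz
        · rw [hz, degreeOf_El_self]
        · exact h1 z hz)
    refine key.trans ?_
    simp only [if_neg hty, List.length_cons, List.map_cons, List.sum_cons]
    have h3 : (l.map fun z => a z t * if z = y then 0 else d y * (α y).degreeOf z + 2 * d z) =
        l.map fun z => 2 * (a z t * d z) := by
      refine List.map_congr_left fun z hz => ?_
      have hzy : z ≠ y := fun h => hyl (h ▸ hz)
      rw [if_neg hzy, h0 y (by simp) z (by simp [hz]) hzy]
      ring
    rw [h3, List.sum_map_mul_left]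
    have h4 : (α y).degreeOf t * d y ≤ a y t * d y := Nat.mul_le_mul_right _ (ha y (by simp))
    calc 2 ^ l.length * (d y * (α y).degreeOf t + 2 * d t + 2 * (l.map fun z => a z t * d z).sum)
        ≤ 2 ^ l.length * (2 * (d t + (a y t * d y + (l.map fun z => a z t * d z).sum))) := by
          refine Nat.mul_le_mul_left _ ?_
          nlinarith [h4]
      _ = _ := by ring

/-- The eliminated variables do not occur. -/
theorem degreeOf_ELL_eq_zero {R σ : Type*} [CommRing R] [DecidableEq σ] (α : σ → MvPolynomial σ R)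
    (l : List σ) (h0 : ∀ y ∈ l, ∀ z ∈ l, z ≠ y → (α y).degreeOf z = 0) (F : MvPolynomial σ R)
    (t : σ) (ht : t ∈ l ∨ F.degreeOf t = 0 ∧ ∀ y ∈ l, (α y).degreeOf t = 0) :
    (ELL α l F).degreeOf t = 0 := by
  induction l generalizing F with
  | nil =>
    rcases ht with ht | ht
    · simp at ht
    · exact ht.1
  | cons y l ih =>
    rw [ELL_cons]
    refine ih (fun z hz w hw hwz => h0 z (by simp [hz]) w (by simp [hw]) hwz) _ ?_
    by_cases hty : t = y
    · by_cases htl : t ∈ l
      · exact Or.inl htl
      · refine Or.inr ⟨by rw [hty, degreeOf_El_self], fun z hz => ?_⟩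
        exact h0 z (by simp [hz]) t (by simp [hty]) fun h => htl (h ▸ hz)
    · rcases ht with ht | ht
      · exact Or.inl (by simpa [hty] using ht)
      · refine Or.inr ⟨?_, fun z hz => ht.2 z (by simp [hz])⟩
        have h1 := degreeOf_El_le y (α y) F t hty
        rw [ht.1, ht.2 y (by simp)] at h1
        simpa using h1

end Pool.Agent.Lib.MP_17a322_nt.VN
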