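import Pool.Agent.Lib.MP_17a322_nt.VN.L0
import Pool.Agent.Lib.MP_17a322_nt.VN.L2E1

/-!
Part L-II of VN, definitions for the elimination (II.1).

`alv`: the relation attached to a variable `ξ_p` (`0` for the other variables). `BE i N`: elimination of
all `ξ_(i, t)` from `N` with the relations. `QB j b H N`: bounds for the degrees and the height.
-/

universe u

namespace Pool.Agent.Lib.MP_17a322_nt.VN

open MvPolynomial Height
open Pool.Agent.Lib.MP_17a322_nt.RO
open Pool.Agent.Lib.MP_17a322_nt.VJ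

/-- The relation attached to the variable `ξ_p`; `0` for the other variables. -/
noncomputable def alv {K : Type*} [Field K] {m n : ℕ} (W : Fin n → WeierstrassCurve K)
    (χ : Fin n → Bool) (j : Fin m → ℕ) : VL m n → MvPolynomial (VL m n) K :=
  Sum.elim (fun _ => 0) (Sum.elim (fun _ => 0) (al W χ j))

/-- Elimination of the variables `ξ_(i, t)`, all `t`. -/
noncomputable def BE {K : Type*} [Field K] {m n : ℕ} (W : Fin n → WeierstrassCurve K)
    (χ : Fin n → Bool) (j : Fin m → ℕ) (i : Fin m) (N : MvPolynomial (VL m n) K) :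
    MvPolynomial (VL m n) K :=
  ELL (alv W χ j) ((List.finRange n).map fun t => (vZ (i, t) : VL m n)) N

/-- Bounds for the degrees and the height. -/
def QB {K : Type*} [Field K] [AdmissibleAbsValues K] {m n : ℕ} (j : Fin m → ℕ) (b H : ℝ)
    (N : MvPolynomial (VL m n) K) : Prop :=
  (∀ t, (N.degreeOf (vX t) : ℝ) ≤ b) ∧
    (∀ p : Fin m × Fin n, (4 : ℝ) ^ j p.1 * N.degreeOf (vS p) ≤ b) ∧
    (∀ p : Fin m × Fin n, (4 : ℝ) ^ j p.1 * N.degreeOf (vZ p) ≤ b) ∧ nh N ≤ H

theorem alv_vX {K : Type*} [Field K] {m n : ℕ} (W : Fin n → WeierstrassCurve K)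
    (χ : Fin n → Bool) (j : Fin m → ℕ) (t : Fin n) : alv W χ j (vX t) = 0 := rfl

theorem alv_vS {K : Type*} [Field K] {m n : ℕ} (W : Fin n → WeierstrassCurve K)
    (χ : Fin n → Bool) (j : Fin m → ℕ) (p : Fin m × Fin n) : alv W χ j (vS p) = 0 := rfl

theorem alv_vZ {K : Type*} [Field K] {m n : ℕ} (W : Fin n → WeierstrassCurve K)
    (χ : Fin n → Bool) (j : Fin m → ℕ) (p : Fin m × Fin n) : alv W χ j (vZ p) = al W χ j p := rfl

end Pool.Agent.Lib.MP_17a322_nt.VN
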