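import Pool.Agent.Lib.MP_17a322_nt.VN.L2A0
import Pool.Agent.Lib.MP_17a322_nt.VN.L2A1
import Pool.Agent.Lib.MP_17a322_nt.VJ.A5

/-!
Part L-II of VN: bounds for one elimination.

By `degreeOf_El_le`, `degreeOf_El_self` (VJ/C2), `degreeOf_al_*` (L2A1), for `d = degreeOf (vZ p) N`:
`deg_y (El ..) ≤ d * deg_y (al) + 2 * deg_y N` (`y ≠ vZ p`), `0` for `y = vZ p`. For `y = vX p.2` this is at
most `d * 2 * 4 ^ j p.1 + 2 b ≤ 4 b`; for `y = vS p`, `4 ^ j p.1 * (2 d + 2 deg) ≤ 4 b`; for the other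
`vX t`, `vS q`, `vZ q` at most `2 b`. `b ≥ 0` (there is a variable `vX p.2`). By `nh_El_le` (VJ/C5):
`nh (El ..) ≤ d * nh (al) + 2 * nh N ≤ C b + 2 H`.
-/

universe u

namespace Pool.Agent.Lib.MP_17a322_nt.VN

open MvPolynomial Height
open Pool.Agent.Lib.MP_17a322_nt.RO
open Pool.Agent.Lib.MP_17a322_nt.VJ

theorem QB_mono {K : Type*} [Field K] [AdmissibleAbsValues K] {m n : ℕ} (j : Fin m → ℕ)
    {b H b' H' : ℝ} (hb : b ≤ b') (hH : H ≤ H') {N : MvPolynomial (VL m n) K} (h : QB j b H N) :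
    QB j b' H' N :=
  ⟨fun t => (h.1 t).trans hb, fun p => (h.2.1 p).trans hb, fun p => (h.2.2.1 p).trans hb,
    h.2.2.2.trans hH⟩

theorem QB_El {K : Type u} [Field K] [NumberField K] {m n : ℕ} (W : Fin n → WeierstrassCurve K)
    (χ : Fin n → Bool) (C : ℝ) (hC : 0 ≤ C) (j : Fin m → ℕ)
    (hal : ∀ p : Fin m × Fin n, nh (al W χ j p) ≤ C * 4 ^ j p.1) (p : Fin m × Fin n) (b H : ℝ)
    (N : MvPolynomial (VL m n) K) (h : QB j b H N) (hE : El (vZ p) (al W χ j p) N ≠ 0) :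
    QB j (4 * b) (2 * H + C * b) (El (vZ p) (al W χ j p) N) := by
  have hdX := degreeOf_al_X_le W χ j p
  have hdS := degreeOf_al_S W χ j p
  have hdZ := degreeOf_al_Z W χ j p
  have h0 := degreeOf_al_eq_zero W χ j p
  obtain ⟨hX, hS, hZ, hH⟩ := h
  have hb : 0 ≤ b := le_trans (Nat.cast_nonneg _) (hX p.2)
  have h4 : (0 : ℝ) < 4 ^ j p.1 := by positivity
  have hd : (4 : ℝ) ^ j p.1 * N.degreeOf (vZ p) ≤ b := hZ p
  have hne1 : ∀ t : Fin n, (vX t : VL m n) ≠ vZ p := fun t h => by cases h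
  have hne2 : ∀ q : Fin m × Fin n, (vS q : VL m n) ≠ vZ p := fun q h => by cases h
  refine ⟨fun t => ?_, fun q => ?_, fun q => ?_, ?_⟩
  · have h1 := degreeOf_El_le (vZ p) (al W χ j p) N (vX t) (hne1 t)
    rw [hdZ] at h1
    have h2 : ((El (vZ p) (al W χ j p) N).degreeOf (vX t) : ℝ) ≤
        (N.degreeOf (vZ p) : ℝ) * ((al W χ j p).degreeOf (vX t) : ℝ) +
          2 * (N.degreeOf (vX t) : ℝ) := by
      exact_mod_cast h1
    have h3 := hX t
    by_cases ht : t = p.2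
    · rw [← ht] at hdX
      have h5 : ((al W χ j p).degreeOf (vX t) : ℝ) ≤ 2 * 4 ^ j p.1 := by exact_mod_cast hdX
      have h6 : (N.degreeOf (vZ p) : ℝ) * ((al W χ j p).degreeOf (vX t) : ℝ) ≤
          (N.degreeOf (vZ p) : ℝ) * (2 * 4 ^ j p.1) :=
        mul_le_mul_of_nonneg_left h5 (Nat.cast_nonneg _)
      nlinarith
    · have h5 := h0 (vX t) (fun h => ht (Sum.inl.inj h)) (fun h => by cases h) (hne1 t)
      rw [h5, Nat.cast_zero, mul_zero, zero_add] at h2
      linarith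
  · have h1 := degreeOf_El_le (vZ p) (al W χ j p) N (vS q) (hne2 q)
    rw [hdZ] at h1
    have h2 : ((El (vZ p) (al W χ j p) N).degreeOf (vS q) : ℝ) ≤
        (N.degreeOf (vZ p) : ℝ) * ((al W χ j p).degreeOf (vS q) : ℝ) +
          2 * (N.degreeOf (vS q) : ℝ) := by
      exact_mod_cast h1
    have h3 := hS q
    have h4q : (0 : ℝ) < 4 ^ j q.1 := by positivity
    have h7 := mul_le_mul_of_nonneg_left h2 h4q.le
    by_cases hq : q = p
    · subst hq
      rw [hdS] at h7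
      push_cast at h7
      nlinarith
    · have h5 := h0 (vS q) (fun h => by cases h) (fun h => hq (Sum.inl.inj (Sum.inr.inj h)))
        (hne2 q)
      rw [h5, Nat.cast_zero, mul_zero, zero_add] at h7
      nlinarith
  · by_cases hq : q = p
    · subst hq
      rw [degreeOf_El_self, Nat.cast_zero, mul_zero]
      linarith
    · have hne3 : (vZ q : VL m n) ≠ vZ p := fun h => hq (Sum.inr.inj (Sum.inr.inj h))
      have h1 := degreeOf_El_le (vZ p) (al W χ j p) N (vZ q) hne3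
      rw [hdZ, h0 (vZ q) (fun h => by cases h) (fun h => by cases h) hne3, mul_zero,
        zero_add] at h1
      have h2 : ((El (vZ p) (al W χ j p) N).degreeOf (vZ q) : ℝ) ≤
          2 * (N.degreeOf (vZ q) : ℝ) := by
        exact_mod_cast h1
      have h3 := hZ q
      have h4q : (0 : ℝ) < 4 ^ j q.1 := by positivity
      have h7 := mul_le_mul_of_nonneg_left h2 h4q.le
      nlinarith
  · have h1 := nh_El_le (vZ p) (al W χ j p) N hE
    rw [hdZ] at h1
    have h2 : (N.degreeOf (vZ p) : ℝ) * nh (al W χ j p) ≤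
        (N.degreeOf (vZ p) : ℝ) * (C * 4 ^ j p.1) :=
      mul_le_mul_of_nonneg_left (hal p) (Nat.cast_nonneg _)
    have h3 : C * ((4 : ℝ) ^ j p.1 * N.degreeOf (vZ p)) ≤ C * b :=
      mul_le_mul_of_nonneg_left hd hC
    push_cast at h1
    nlinarith

end Pool.Agent.Lib.MP_17a322_nt.VN
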