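import Pool.Agent.Lib.MP_17a322_nt.VN.DefsC
import Pool.Agent.Lib.MP_17a322_nt.VJ.A3

/-!
# JOB C04: ordered products of matrices

PROOFS.
`left_pow`: let `w` be a row vector and `N` a matrix over a commutative ring with `∑ l, w l * N l m = s * w m` for all `m`; then
`∑ l, w l * (N ^ a) l m = s ^ a * w m` (induction: `(N ^ (a+1)) l m = ∑ i, (N ^ a) l i * N i m`, exchange the sums; use `Matrix.vecMul`:
`w ᵥ* N = s • w`, `Matrix.vecMul_vecMul`).
`left_mpw`: the same for the product of the list `List.ofFn fun j => N j ^ a j` (`w ᵥ* N j = s j • w` for all `j`): by induction on `n`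
(`List.ofFn_succ`, `Fin.prod_univ_succ`): `w ᵥ* (N 0 ^ a 0 * P) = (w ᵥ* N 0 ^ a 0) ᵥ* P = s 0 ^ a 0 • (w ᵥ* P)`. (State an auxiliary lemma with the vector equations.)
`map_mpw`: `Matrix.map` by a ring homomorphism is a ring homomorphism of matrices (`RingHom.mapMatrix`), `map_list_prod`, `List.map_ofFn`.
`rep_mpw`: `left_mpw` for `w l = aeval S (ρ.w l)`, `N j l m = aeval (fun t => aeval S (ρ.z t)) (ρ.M j l m)`, `s j = S j`: apply `aeval S` to `ρ.rel j m`
(`aeval S (aeval ρ.z P) = aeval (fun t => aeval S (ρ.z t)) P`: `MvPolynomial.aeval_unique`/`comp_aeval`), and `map_mpw` for the ring homomorphism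
`aeval (fun t => aeval S (ρ.z t))`.
`mpw_NV`: for matrices `P`, `Q` with entries of size `≤ p`, `≤ q`: the entries of `P * Q` are sums of `e + 1` products, of size `≤ cst v (e+1) * (p * q)`
(`(SN_NV v).sum_le`, `Finset.card_univ`, `Fintype.card_fin`). So the entries of `N ^ a` have size `≤ (cst v (e+1) * B) ^ a` (`a = 0`: entries `0`, `1`;
for `a = 1`: `B ≤ cst * B`), and of the product of the list (induction on `n`) `≤ ∏ (cst v (e+1) * B) ^ a j`, with one more factor `cst` for every product: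
to avoid the loss prove the statement: if the entries of `P` have size `≤ p` then the entries of `P * N ^ a` have size `≤ p * (cst v (e+1) * B) ^ a` (induction on `a`), and
write the ordered product as `((1 * N 0 ^ a 0) * N 1 ^ a 1) * ...` (induction with a general left factor `P`: `P * (List.ofFn ..).prod`).
`mpw_degree`: the same with degrees: if the entries of `P` have degree `≤ p` then those of `P * N j` have degree `≤ p + D` (`degreeOf_sum_le`, `degreeOf_mul_le`).
-/

namespace Pool.Agent.Lib.MP_17a322_nt.VN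

open MvPolynomial Height
open Pool.Agent.Lib.MP_17a322_nt.RO Pool.Agent.Lib.MP_17a322_nt.VJ

open Matrix in
private theorem C04_vec_pow {A : Type*} [CommRing A] {e : ℕ}
    (N : Matrix (Fin (e + 1)) (Fin (e + 1)) A) (w : Fin (e + 1) → A) (s : A)
    (h : w ᵥ* N = s • w) (a : ℕ) : w ᵥ* (N ^ a) = s ^ a • w := by
  induction a with
  | zero => rw [pow_zero, pow_zero, Matrix.vecMul_one, one_smul]
  | succ a ih =>
    rw [pow_succ, ← Matrix.vecMul_vecMul, ih, Matrix.smul_vecMul, h, smul_smul, pow_succ]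

private theorem C04_mpw_succ {A : Type*} [CommRing A] {n e : ℕ}
    (N : Fin (n + 1) → Matrix (Fin (e + 1)) (Fin (e + 1)) A) (a : Fin (n + 1) → ℕ) :
    mpw N a = N 0 ^ a 0 * mpw (fun j => N j.succ) (fun j => a j.succ) := by
  unfold mpw
  rw [List.ofFn_succ, List.prod_cons]

open Matrix in
private theorem C04_vec_mpw {A : Type*} [CommRing A] {n e : ℕ}
    (N : Fin n → Matrix (Fin (e + 1)) (Fin (e + 1)) A) (w : Fin (e + 1) → A) (s : Fin n → A)
    (h : ∀ j, w ᵥ* N j = s j • w) (a : Fin n → ℕ) :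
    w ᵥ* mpw N a = (∏ j, s j ^ a j) • w := by
  induction n with
  | zero =>
    unfold mpw
    rw [List.ofFn_zero, List.prod_nil, Matrix.vecMul_one, Fin.prod_univ_zero, one_smul]
  | succ n ih =>
    rw [C04_mpw_succ, ← Matrix.vecMul_vecMul, C04_vec_pow _ _ _ (h 0), Matrix.smul_vecMul,
      ih (fun j => N j.succ) (fun j => s j.succ) (fun j => h j.succ), Fin.prod_univ_succ, smul_smul]

theorem left_mpw {A : Type*} [CommRing A] {n e : ℕ}
    (N : Fin n → Matrix (Fin (e + 1)) (Fin (e + 1)) A) (w : Fin (e + 1) → A) (s : Fin n → A)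
    (h : ∀ j m, ∑ l, w l * N j l m = s j * w m) (a : Fin n → ℕ) (m : Fin (e + 1)) :
    ∑ l, w l * mpw N a l m = (∏ j, s j ^ a j) * w m := by
  have h1 : ∀ j, Matrix.vecMul w (N j) = s j • w := by
    intro j
    funext m
    exact h j m
  exact congrFun (C04_vec_mpw N w s h1 a) m

theorem map_mpw {A A' : Type*} [CommRing A] [CommRing A'] (f : A →+* A') {n e : ℕ}
    (N : Fin n → Matrix (Fin (e + 1)) (Fin (e + 1)) A) (a : Fin n → ℕ) (l m : Fin (e + 1)) :
    f (mpw N a l m) = mpw (fun j => (N j).map f) a l m := by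
  have h1 : f.mapMatrix (mpw N a) = mpw (fun j => (N j).map f) a := by
    unfold mpw
    rw [map_list_prod, List.map_ofFn]
    have h2 : (fun j => f.mapMatrix (N j ^ a j)) = fun j => (N j).map f ^ a j := by
      funext j
      rw [map_pow]
      rfl
    exact congrArg (fun g => (List.ofFn g).prod) h2
  exact congrFun (congrFun h1 l) m

theorem rep_mpw {k : Type*} [CommRing k] {n e : ℕ} (ρ : REP k n e) {A : Type*} [CommRing A]
    [Algebra k A] (S : Fin n → A) (a : Fin n → ℕ) (m : Fin (e + 1)) :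
    ∑ l, aeval S (ρ.w l) * aeval (fun t => aeval S (ρ.z t)) (mpw ρ.M a l m) =
      (∏ j, S j ^ a j) * aeval S (ρ.w m) := by
  have h1 := left_mpw
    (fun j => (ρ.M j).map (aeval (fun t => aeval S (ρ.z t)) : MvPolynomial (Fin n) k →ₐ[k] A).toRingHom)
    (fun l => aeval S (ρ.w l)) S ?_ a m
  · rw [← h1]
    refine Finset.sum_congr rfl fun l _ => ?_
    rw [← map_mpw]
    rfl
  · intro j m
    have h2 := congrArg (aeval S : MvPolynomial (Fin n) k →ₐ[k] A) (ρ.rel j m)
    rw [map_sum, map_mul, aeval_X] at h2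
    rw [← h2]
    refine Finset.sum_congr rfl fun l _ => ?_
    rw [map_mul, MvPolynomial.comp_aeval_apply]
    rfl

private theorem C04_mul_NV {L : Type*} [Field L] (v : AbsoluteValue L ℝ) {σ : Type*} {e : ℕ}
    (P N : Matrix (Fin (e + 1)) (Fin (e + 1)) (MvPolynomial σ L)) {p B : ℝ} (hp : 0 ≤ p)
    (hB : 0 ≤ B) (hP : ∀ l m, NV v (P l m) ≤ p) (hN : ∀ l m, NV v (N l m) ≤ B)
    (l m : Fin (e + 1)) : NV v ((P * N) l m) ≤ cst v (e + 1) * (p * B) := by
  rw [Matrix.mul_apply]
  have h1 := (SN_NV v (σ := σ)).sum_le Finset.univ (fun i => P l i * N i m)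
    (mul_nonneg hp hB) (fun i _ => ((SN_NV v (σ := σ)).mul _ _).trans
      (mul_le_mul (hP l i) (hN i m) ((SN_NV v (σ := σ)).nonneg _) hp))
  rw [Finset.card_univ, Fintype.card_fin] at h1
  exact h1

private theorem C04_pow_NV {L : Type*} [Field L] (v : AbsoluteValue L ℝ) {σ : Type*} {e : ℕ}
    (P N : Matrix (Fin (e + 1)) (Fin (e + 1)) (MvPolynomial σ L)) {p B : ℝ} (hp : 0 ≤ p)
    (hB : 0 ≤ B) (hP : ∀ l m, NV v (P l m) ≤ p) (hN : ∀ l m, NV v (N l m) ≤ B) (a : ℕ)
    (l m : Fin (e + 1)) : NV v ((P * N ^ a) l m) ≤ p * (cst v (e + 1) * B) ^ a := by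
  have hc := cst_nonneg v (e + 1)
  induction a generalizing l m with
  | zero =>
    rw [pow_zero, pow_zero, mul_one, mul_one]
    exact hP l m
  | succ a ih =>
    rw [pow_succ, ← mul_assoc]
    refine (C04_mul_NV v _ N (mul_nonneg hp (pow_nonneg (mul_nonneg hc hB) a)) hB ih hN l m).trans
      (le_of_eq ?_)
    ring

private theorem C04_list_NV {L : Type*} [Field L] (v : AbsoluteValue L ℝ) {σ : Type*} {n e : ℕ}
    (N : Fin n → Matrix (Fin (e + 1)) (Fin (e + 1)) (MvPolynomial σ L)) {B : ℝ} (hB : 0 ≤ B)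
    (h : ∀ j l m, NV v (N j l m) ≤ B) (a : Fin n → ℕ)
    (P : Matrix (Fin (e + 1)) (Fin (e + 1)) (MvPolynomial σ L)) {p : ℝ} (hp : 0 ≤ p)
    (hP : ∀ l m, NV v (P l m) ≤ p) (l m : Fin (e + 1)) :
    NV v ((P * mpw N a) l m) ≤ p * (cst v (e + 1) * B) ^ (∑ j, a j) := by
  have hc := cst_nonneg v (e + 1)
  induction n generalizing P p l m with
  | zero =>
    unfold mpw
    rw [List.ofFn_zero, List.prod_nil, Fin.sum_univ_zero, pow_zero, mul_one, mul_one]
    exact hP l m
  | succ n ih =>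
    rw [C04_mpw_succ, ← mul_assoc, Fin.sum_univ_succ, pow_add, ← mul_assoc]
    exact ih (fun j => N j.succ) (fun j => h j.succ) (fun j => a j.succ) (P * N 0 ^ a 0)
      (mul_nonneg hp (pow_nonneg (mul_nonneg hc hB) _))
      (fun l m => C04_pow_NV v P (N 0) hp hB hP (h 0) (a 0) l m) l m

theorem mpw_NV {L : Type*} [Field L] (v : AbsoluteValue L ℝ) {σ : Type*} {n e : ℕ}
    (N : Fin n → Matrix (Fin (e + 1)) (Fin (e + 1)) (MvPolynomial σ L)) {B : ℝ} (hB : 1 ≤ B)
    (h : ∀ j l m, NV v (N j l m) ≤ B) (a : Fin n → ℕ) (l m : Fin (e + 1)) :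
    NV v (mpw N a l m) ≤ (cst v (e + 1) * B) ^ (∑ j, a j) := by
  have h1 := C04_list_NV v N (zero_le_one.trans hB) h a 1 zero_le_one (fun l m => ?_) l m
  · rw [one_mul, one_mul] at h1
    exact h1
  · by_cases hlm : l = m
    · rw [hlm, Matrix.one_apply_eq]
      exact (SN_NV v (σ := σ)).one_le
    · rw [Matrix.one_apply_ne hlm]
      have h2 : NV v (0 : MvPolynomial σ L) = 0 := (SN_NV v (σ := σ)).zero
      rw [h2]
      exact zero_le_one

private theorem C04_mul_deg {k : Type*} [CommRing k] {σ : Type*} {e : ℕ} (y : σ)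
    (P N : Matrix (Fin (e + 1)) (Fin (e + 1)) (MvPolynomial σ k)) {p D : ℕ}
    (hP : ∀ l m, degreeOf y (P l m) ≤ p) (hN : ∀ l m, degreeOf y (N l m) ≤ D)
    (l m : Fin (e + 1)) : degreeOf y ((P * N) l m) ≤ p + D := by
  rw [Matrix.mul_apply]
  refine (degreeOf_sum_le y _ _).trans (Finset.sup_le fun i _ => ?_)
  exact (degreeOf_mul_le y _ _).trans (add_le_add (hP l i) (hN i m))

private theorem C04_pow_deg {k : Type*} [CommRing k] {σ : Type*} {e : ℕ} (y : σ)
    (P N : Matrix (Fin (e + 1)) (Fin (e + 1)) (MvPolynomial σ k)) {p D : ℕ}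
    (hP : ∀ l m, degreeOf y (P l m) ≤ p) (hN : ∀ l m, degreeOf y (N l m) ≤ D) (a : ℕ)
    (l m : Fin (e + 1)) : degreeOf y ((P * N ^ a) l m) ≤ p + a * D := by
  induction a generalizing l m with
  | zero =>
    rw [pow_zero, mul_one, zero_mul, add_zero]
    exact hP l m
  | succ a ih =>
    rw [pow_succ, ← mul_assoc]
    refine (C04_mul_deg y _ N ih hN l m).trans (le_of_eq ?_)
    ring

private theorem C04_list_deg {k : Type*} [CommRing k] {σ : Type*} {n e : ℕ} (y : σ)
    (N : Fin n → Matrix (Fin (e + 1)) (Fin (e + 1)) (MvPolynomial σ k)) {D : ℕ}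
    (h : ∀ j l m, degreeOf y (N j l m) ≤ D) (a : Fin n → ℕ)
    (P : Matrix (Fin (e + 1)) (Fin (e + 1)) (MvPolynomial σ k)) {p : ℕ}
    (hP : ∀ l m, degreeOf y (P l m) ≤ p) (l m : Fin (e + 1)) :
    degreeOf y ((P * mpw N a) l m) ≤ p + (∑ j, a j) * D := by
  induction n generalizing P p l m with
  | zero =>
    unfold mpw
    rw [List.ofFn_zero, List.prod_nil, Fin.sum_univ_zero, mul_one, zero_mul, add_zero]
    exact hP l m
  | succ n ih =>
    rw [C04_mpw_succ, ← mul_assoc, Fin.sum_univ_succ, add_mul, ← add_assoc]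
    exact ih (fun j => N j.succ) (fun j => h j.succ) (fun j => a j.succ) (P * N 0 ^ a 0)
      (fun l m => C04_pow_deg y P (N 0) hP (h 0) (a 0) l m) l m

theorem mpw_degree {k : Type*} [CommRing k] {σ : Type*} {n e : ℕ} (y : σ)
    (N : Fin n → Matrix (Fin (e + 1)) (Fin (e + 1)) (MvPolynomial σ k)) {D : ℕ}
    (h : ∀ j l m, degreeOf y (N j l m) ≤ D) (a : Fin n → ℕ) (l m : Fin (e + 1)) :
    degreeOf y (mpw N a l m) ≤ (∑ j, a j) * D := by
  have h1 := C04_list_deg y N h a 1 (p := 0) (fun l m => ?_) l m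
  · rw [one_mul, zero_add] at h1
    exact h1
  · by_cases hlm : l = m
    · rw [hlm, Matrix.one_apply_eq, ← C_1, degreeOf_C]
    · rw [Matrix.one_apply_ne hlm, degreeOf_zero]

end Pool.Agent.Lib.MP_17a322_nt.VN
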