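import Pool.Agent.Lib.MP_17a322_nt.VN.DefsC
import Mathlib.RingTheory.Finiteness.Basic

/-!
# JOB C13: centre data from finiteness

PROOFS.
`finite_X`: `aeval X = AlgHom.id` (`MvPolynomial.aeval_X_left`), `RingHom.Finite.id`.
`finite_equiv`: `aeval (fun t => σ (z t)) = (σ : _ →ₐ[k] _).comp (aeval z)` (`MvPolynomial.algHom_ext`, values at the variables), `RingHom.Finite.comp`,
`RingHom.Finite.of_surjective`.
`exists_REP_of_finite`: `RingHom.Finite` is by definition `Module.Finite` for the algebra structure `(aeval z).toRingHom.toAlgebra` (use `let := (aeval z).toRingHom.toAlgebra`, or `algebraize`);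
`Module.Finite.exists_fin` gives `e` and `s : Fin e → B` (`B = MvPolynomial (Fin n) k`) with `span B (range s) = ⊤`. Put `w = Fin.cons 1 s : Fin (e + 1) → B`; its span is still
`⊤`; so for all `j`, `m` there are coefficients `c` with `∑ l, c l • w l = X j * w m` (`Submodule.mem_span_range_iff_exists_fun`), and `c • a = aeval z c * a` in this
algebra (`Algebra.smul_def`, `rfl`). `choose M`, the order of the indices: `M j l m` is the coefficient of `w l` in `X j * w m`.
-/

namespace Pool.Agent.Lib.MP_17a322_nt.VN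

open MvPolynomial

theorem finite_X {k : Type*} [Field k] (n : ℕ) :
    (aeval (fun t => X t) : MvPolynomial (Fin n) k →ₐ[k] MvPolynomial (Fin n) k).toRingHom.Finite := by
  have h : (aeval (fun t => X t) : MvPolynomial (Fin n) k →ₐ[k] MvPolynomial (Fin n) k) =
      AlgHom.id k (MvPolynomial (Fin n) k) := MvPolynomial.aeval_X_left
  rw [h]
  exact RingHom.Finite.id _

theorem finite_equiv {k : Type*} [Field k] {n : ℕ}
    (σ : MvPolynomial (Fin n) k ≃ₐ[k] MvPolynomial (Fin n) k) (z : Fin n → MvPolynomial (Fin n) k)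
    (h : (aeval z : MvPolynomial (Fin n) k →ₐ[k] MvPolynomial (Fin n) k).toRingHom.Finite) :
    (aeval (fun t => σ (z t)) :
      MvPolynomial (Fin n) k →ₐ[k] MvPolynomial (Fin n) k).toRingHom.Finite := by
  have h1 : (aeval (fun t => σ (z t)) : MvPolynomial (Fin n) k →ₐ[k] MvPolynomial (Fin n) k) =
      (σ : MvPolynomial (Fin n) k →ₐ[k] MvPolynomial (Fin n) k).comp (aeval z) := by
    apply MvPolynomial.algHom_ext
    intro i
    simp
  rw [h1]
  have h2 : (σ : MvPolynomial (Fin n) k →ₐ[k] MvPolynomial (Fin n) k).toRingHom.Finite :=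
    RingHom.Finite.of_surjective _ σ.surjective
  exact RingHom.Finite.comp h2 h

theorem exists_REP_of_finite {k : Type*} [Field k] {n : ℕ} (z : Fin n → MvPolynomial (Fin n) k)
    (h : (aeval z : MvPolynomial (Fin n) k →ₐ[k] MvPolynomial (Fin n) k).toRingHom.Finite) :
    ∃ (e : ℕ) (ρ : REP k n e), ρ.z = z := by
  let alg : Algebra (MvPolynomial (Fin n) k) (MvPolynomial (Fin n) k) :=
    (aeval z : MvPolynomial (Fin n) k →ₐ[k] MvPolynomial (Fin n) k).toRingHom.toAlgebra
  have h1 : @Module.Finite (MvPolynomial (Fin n) k) (MvPolynomial (Fin n) k) _ _ alg.toModule := h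
  obtain ⟨e, s, hs⟩ := @Module.Finite.exists_fin (MvPolynomial (Fin n) k) (MvPolynomial (Fin n) k) _ _
    alg.toModule h1
  obtain ⟨w, hw⟩ : ∃ w : Fin (e + 1) → MvPolynomial (Fin n) k, w = Fin.cons 1 s := ⟨_, rfl⟩
  have h2 : ∀ a : MvPolynomial (Fin n) k, ∃ c : Fin (e + 1) → MvPolynomial (Fin n) k,
      ∑ l, w l * aeval z (c l) = a := by
    intro a
    have h3 : a ∈ @Submodule.span (MvPolynomial (Fin n) k) (MvPolynomial (Fin n) k) _ _ alg.toModule
        (Set.range s) := by
      rw [hs]
      trivial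
    obtain ⟨c, hc⟩ := (@Submodule.mem_span_range_iff_exists_fun (Fin e) (MvPolynomial (Fin n) k)
      (MvPolynomial (Fin n) k) _ _ _ alg.toModule s a).1 h3
    refine ⟨Fin.cons 0 c, ?_⟩
    rw [Fin.sum_univ_succ, hw]
    simp only [Fin.cons_zero, Fin.cons_succ, map_zero, mul_zero, zero_add]
    rw [← hc]
    refine Finset.sum_congr rfl fun l _ => ?_
    rw [mul_comm]
    rfl
  choose c hc using h2
  refine ⟨e, ⟨z, w, fun j l m => c (X j * w m) l, ?_, ?_⟩, rfl⟩
  · rw [hw, Fin.cons_zero]
  · intro j m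
    exact hc _

end Pool.Agent.Lib.MP_17a322_nt.VN
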