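import Pool.Agent.Lib.MP_17a322_nt.RO.G4

/-!
# JOB C16: elimination

PROOFS. Put `A = MvPolynomial (Fin n) k`, `F = finSuccEquiv k n f`, `G = finSuccEquiv k n g` in `Polynomial A`. `IsRelPrime F G` (transport along the ring equivalence, as in the proof in
`RO/G4.lean`: `IsRelPrime.of_map`). `RO.G4_gauss F G`: `F`, `G` become coprime in `Polynomial (FractionRing A)`: `a * F + b * G = 1`.
`exists_elim`: clear denominators (`IsLocalization.integerNormalization` as in `RO/G4.lean`, or a common denominator `d ≠ 0` of all coefficients of `a` and `b`, `IsLocalization.exist_integer_multiples`):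
`C d * a = a'.map`, `C d * b = b'.map`, so `a' * F + b' * G = C d` (injectivity of `Polynomial.map`). `r = d`: `rename Fin.succ d = (finSuccEquiv k n).symm (C d)`
(`MvPolynomial.finSuccEquiv_rename_finSuccEquiv` / `finSuccEquiv_comp_C_eq_C`, or by `algHom_ext`), which is `a'' * f + b'' * g` (`Ideal.mem_span_pair`).
`isRelPrime_elim`: let `d ∣ f`, `d ∣ rename Fin.succ r`. Put `δ = finSuccEquiv k n d`: `δ ∣ C r`, `r ≠ 0`, so `natDegree δ = 0` (`Polynomial.natDegree_le_of_dvd`), `δ = C d0`
(`Polynomial.eq_C_of_natDegree_eq_zero`), `C d0 ∣ F`, so `d0` divides every coefficient (`Polynomial.C_dvd_iff_dvd_coeff`), in particular the leading one, a unit. So `d0`, `δ`, `d` are units.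
-/

namespace Pool.Agent.Lib.MP_17a322_nt.VN

open MvPolynomial
open Pool.Agent.Lib.MP_17a322_nt.RO

/-- The image of a polynomial free of the first variable. -/
theorem C16_rename {k : Type*} [Field k] {n : ℕ} (r : MvPolynomial (Fin n) k) :
    finSuccEquiv k n (rename Fin.succ r) = Polynomial.C r := by
  have h : ((finSuccEquiv k n : MvPolynomial (Fin (n + 1)) k →ₐ[k] _).comp
      (rename Fin.succ : MvPolynomial (Fin n) k →ₐ[k] MvPolynomial (Fin (n + 1)) k)).toRingHom =
      (Polynomial.C : MvPolynomial (Fin n) k →+* Polynomial (MvPolynomial (Fin n) k)) := by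
    apply MvPolynomial.ringHom_ext
    · intro c
      simp
    · intro i
      simp [finSuccEquiv_X_succ]
  exact RingHom.congr_fun h r

/-- Clearing the denominators of a polynomial. -/
theorem C16_clear {A : Type*} [CommRing A] [IsDomain A] (a : Polynomial (FractionRing A)) :
    ∃ (b : A) (N : Polynomial A), b ≠ 0 ∧ N.map (algebraMap A (FractionRing A)) =
      Polynomial.C (algebraMap A (FractionRing A) b) * a := by
  obtain ⟨b, hb, hbd⟩ := IsLocalization.integerNormalization_spec (nonZeroDivisors A) a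
  refine ⟨b, IsLocalization.integerNormalization (nonZeroDivisors A) a,
    mem_nonZeroDivisors_iff_ne_zero.1 hb, ?_⟩
  have h3 := hbd
  rw [Algebra.smul_def, Polynomial.algebraMap_apply] at h3
  exact h3

theorem exists_elim {k : Type*} [Field k] {n : ℕ} (f g : MvPolynomial (Fin (n + 1)) k)
    (hfg : IsRelPrime f g) :
    ∃ r : MvPolynomial (Fin n) k, r ≠ 0 ∧ rename Fin.succ r ∈ Ideal.span {f, g} := by
  classical
  have hrel : IsRelPrime (finSuccEquiv k n f) (finSuccEquiv k n g) := by
    refine IsRelPrime.of_map (finSuccEquiv k n).symm ?_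
    simpa using hfg
  obtain ⟨a, b, hab⟩ := G4_gauss _ _ hrel
  obtain ⟨d1, N1, hd1, hN1⟩ := C16_clear a
  obtain ⟨d2, N2, hd2, hN2⟩ := C16_clear b
  have hinj : Function.Injective (Polynomial.map
      (algebraMap (MvPolynomial (Fin n) k) (FractionRing (MvPolynomial (Fin n) k)))) :=
    Polynomial.map_injective _ (IsFractionRing.injective _ _)
  have key : Polynomial.C d2 * N1 * finSuccEquiv k n f + Polynomial.C d1 * N2 * finSuccEquiv k n g =
      Polynomial.C (d1 * d2) := by
    apply hinj
    simp only [Polynomial.map_add, Polynomial.map_mul, Polynomial.map_C, hN1, hN2, map_mul]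
    linear_combination (Polynomial.C (algebraMap (MvPolynomial (Fin n) k)
      (FractionRing (MvPolynomial (Fin n) k)) d1) * Polynomial.C (algebraMap (MvPolynomial (Fin n) k)
      (FractionRing (MvPolynomial (Fin n) k)) d2)) * hab
  refine ⟨d1 * d2, mul_ne_zero hd1 hd2, ?_⟩
  rw [Ideal.mem_span_pair]
  refine ⟨(finSuccEquiv k n).symm (Polynomial.C d2 * N1),
    (finSuccEquiv k n).symm (Polynomial.C d1 * N2), ?_⟩
  apply (finSuccEquiv k n).injective
  have e1 : finSuccEquiv k n ((finSuccEquiv k n).symm (Polynomial.C d2 * N1) * f) =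
      Polynomial.C d2 * N1 * finSuccEquiv k n f := by
    rw [map_mul (finSuccEquiv k n), AlgEquiv.apply_symm_apply]
  have e2 : finSuccEquiv k n ((finSuccEquiv k n).symm (Polynomial.C d1 * N2) * g) =
      Polynomial.C d1 * N2 * finSuccEquiv k n g := by
    rw [map_mul (finSuccEquiv k n), AlgEquiv.apply_symm_apply]
  rw [C16_rename, map_add, e1, e2]
  exact key

theorem isRelPrime_elim {k : Type*} [Field k] {n : ℕ} (f : MvPolynomial (Fin (n + 1)) k)
    (hf : IsUnit (finSuccEquiv k n f).leadingCoeff) (r : MvPolynomial (Fin n) k) (hr : r ≠ 0) :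
    IsRelPrime f (rename Fin.succ r) := by
  intro d hdf hdr
  have h1 : finSuccEquiv k n d ∣ finSuccEquiv k n f := map_dvd (finSuccEquiv k n) hdf
  have h2 : finSuccEquiv k n d ∣ Polynomial.C r := by
    rw [← C16_rename]
    exact map_dvd (finSuccEquiv k n) hdr
  have h3 : (finSuccEquiv k n d).natDegree = 0 := by
    have h4 := Polynomial.natDegree_le_of_dvd h2 (by simpa using hr)
    rw [Polynomial.natDegree_C] at h4
    omega
  obtain ⟨d0, hd0⟩ : ∃ d0, finSuccEquiv k n d = Polynomial.C d0 :=
    ⟨_, Polynomial.eq_C_of_natDegree_eq_zero h3⟩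
  rw [hd0] at h1
  have h5 : d0 ∣ (finSuccEquiv k n f).leadingCoeff := Polynomial.C_dvd_iff_dvd_coeff _ _ |>.1 h1 _
  have h6 : IsUnit (finSuccEquiv k n d) := by
    rw [hd0]
    exact Polynomial.isUnit_C.2 (isUnit_of_dvd_unit h5 hf)
  have h7 := h6.map (finSuccEquiv k n).symm
  rwa [AlgEquiv.symm_apply_apply] at h7

end Pool.Agent.Lib.MP_17a322_nt.VN
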