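import Pool.Agent.Lib.MP_17a322_nt.VN.C13
import Pool.Agent.Lib.MP_17a322_nt.VN.C14
import Pool.Agent.Lib.MP_17a322_nt.VN.C15
import Pool.Agent.Lib.MP_17a322_nt.VN.C16

/-!
# JOB C17: existence of centre data

PROOF. Case 1: `Ideal.span {f, g} = ⊤`: `z t = X t` (`finite_X`, `exists_REP_of_finite`); `IsRelPrime (X 0) (X 1)`: `X 0` is prime (`MvPolynomial.X_prime`, or irreducible) and does not
divide `X 1` (`MvPolynomial.X_dvd_X`), `Irreducible.isRelPrime_iff_not_dvd`.
Case 2: `≠ ⊤`. Then `f ≠ 0` (otherwise `g` is a unit by `hfg`), `f` is not a unit. `τ` from `exists_aut f`, `f' = τ f`, `g' = τ g`, `IsRelPrime f' g'`. `exists_elim f' g'` gives `r`, `r ≠ 0`; `r` is not a unit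
(otherwise `span {f', g'} = ⊤`, `τ.symm` of `1`, `span {f, g} = ⊤`). `τ'` from `exists_aut r` (in `n + 1` variables, `r : MvPolynomial (Fin (n + 1)) k`).
`finite_cons (τ' r) _ _ X (finite_X n)`, then `finite_equiv τ'.symm`: `z1 = fun t => τ'.symm (Fin.cons (τ' r) .. t)`, `z1 0 = r`. Then `finite_cons f' _ _ z1 _`, then `finite_equiv τ.symm`:
`z2 = fun t => τ.symm (Fin.cons f' (fun t => rename Fin.succ (z1 t)) t)`, `z2 0 = f`, `z2 1 = τ.symm (rename Fin.succ r)`, which is in `span {f, g}` (`Ideal.mem_span_pair`: `a * f' + b * g'`, apply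
`τ.symm`). `IsRelPrime (z2 0) (z2 1)`: `isRelPrime_elim` and transport along `τ` (if `d ∣ z2 0, z2 1` then `τ d ∣ f', rename Fin.succ r`).
-/

namespace Pool.Agent.Lib.MP_17a322_nt.VN

open MvPolynomial

theorem C17_prime {A B : Type*} [CommRing A] [CommRing B] (τ : A ≃+* B) {f g : A}
    (h : IsRelPrime (τ f) (τ g)) : IsRelPrime f g := by
  intro d h1 h2
  exact (MulEquiv.isUnit_map τ).mp (h (map_dvd τ h1) (map_dvd τ h2))

theorem C17_span {A B : Type*} [CommRing A] [CommRing B] (τ : A ≃+* B) {f g : A} {x : B}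
    (h : x ∈ Ideal.span {τ f, τ g}) : τ.symm x ∈ Ideal.span {f, g} := by
  obtain ⟨a, b, hab⟩ := Ideal.mem_span_pair.mp h
  rw [← hab, map_add, map_mul, map_mul, RingEquiv.symm_apply_apply, RingEquiv.symm_apply_apply]
  exact Ideal.mem_span_pair.mpr ⟨_, _, rfl⟩

/-- Existence of a centre datum inside the ideal of two coprime polynomials. -/
theorem REPEX {k : Type*} [Field k] [CharZero k] {n : ℕ} (f g : MvPolynomial (Fin (n + 2)) k)
    (hfg : IsRelPrime f g) :
    ∃ (e : ℕ) (ρ : REP k (n + 2) e), ρ.z 0 ∈ Ideal.span {f, g} ∧ ρ.z 1 ∈ Ideal.span {f, g} ∧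
      IsRelPrime (ρ.z 0) (ρ.z 1) := by
  classical
  by_cases htop : Ideal.span {f, g} = (⊤ : Ideal (MvPolynomial (Fin (n + 2)) k))
  · obtain ⟨e, ρ, hρ⟩ := exists_REP_of_finite (fun t => X t) (finite_X (k := k) (n + 2))
    refine ⟨e, ρ, ?_, ?_, ?_⟩
    · rw [htop]
      exact Submodule.mem_top
    · rw [htop]
      exact Submodule.mem_top
    · rw [hρ]
      have h0 : Irreducible (X 0 : MvPolynomial (Fin (n + 2)) k) := MvPolynomial.X_prime.irreducible
      rw [h0.isRelPrime_iff_not_dvd, X_dvd_X]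
      intro h
      exact absurd h (by simp)
  · have hf0 : f ≠ 0 := by
      intro h
      rw [h, isRelPrime_zero_left] at hfg
      apply htop
      rw [h, Ideal.eq_top_iff_one]
      obtain ⟨u, hu⟩ := hfg
      refine Ideal.mem_span_pair.mpr ⟨0, ↑u⁻¹, ?_⟩
      rw [← hu, Units.inv_mul, zero_mul, zero_add]
    have hfu : ¬ IsUnit f := by
      intro h
      exact htop (Ideal.eq_top_of_isUnit_mem _ (Ideal.subset_span (Set.mem_insert _ _)) h)
    obtain ⟨τ, hτ⟩ := exists_aut f hf0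
    have hfu' : ¬ IsUnit (τ f) := fun h => hfu ((MulEquiv.isUnit_map τ).mp h)
    have hfg' : IsRelPrime (τ f) (τ g) := by
      refine C17_prime τ.symm.toRingEquiv ?_
      show IsRelPrime (τ.symm (τ f)) (τ.symm (τ g))
      rw [AlgEquiv.symm_apply_apply, AlgEquiv.symm_apply_apply]
      exact hfg
    obtain ⟨r, hr0, hr⟩ := exists_elim (τ f) (τ g) hfg'
    have hmem : τ.symm (rename Fin.succ r) ∈ Ideal.span {f, g} :=
      C17_span τ.toRingEquiv hr
    have hru : ¬ IsUnit r := by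
      intro h
      apply htop
      refine Ideal.eq_top_of_isUnit_mem _ hmem ?_
      exact (MulEquiv.isUnit_map τ.symm).mpr (h.map (rename Fin.succ))
    obtain ⟨τ', hτ'⟩ := exists_aut r hr0
    have hru' : ¬ IsUnit (τ' r) := fun h => hru ((MulEquiv.isUnit_map τ').mp h)
    have h1 := finite_cons (τ' r) hτ' hru' (fun t => X t) (finite_X n)
    have h2 := finite_equiv τ'.symm _ h1
    have h3 := finite_cons (τ f) hτ hfu' _ h2
    have h4 := finite_equiv τ.symm _ h3
    obtain ⟨e, ρ, hρ⟩ := exists_REP_of_finite _ h4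
    have z0 : ρ.z 0 = f := by
      rw [hρ]
      show τ.symm (τ f) = f
      exact τ.symm_apply_apply f
    have z1 : ρ.z 1 = τ.symm (rename Fin.succ r) := by
      rw [hρ]
      show τ.symm (rename Fin.succ (τ'.symm (τ' r))) = τ.symm (rename Fin.succ r)
      rw [τ'.symm_apply_apply]
    refine ⟨e, ρ, ?_, ?_, ?_⟩
    · rw [z0]
      exact Ideal.subset_span (Set.mem_insert _ _)
    · rw [z1]
      exact hmem
    · rw [z0, z1]
      refine C17_prime τ.toRingEquiv ?_
      show IsRelPrime (τ f) (τ (τ.symm (rename Fin.succ r)))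
      rw [τ.apply_symm_apply]
      exact isRelPrime_elim (τ f) hτ r hr0

end Pool.Agent.Lib.MP_17a322_nt.VN
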