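import Pool.Agent.Lib.MP_17a322_nt.VN.E1a

/-!
Kronecker's lemma.
-/

namespace Pool.Agent.Lib.MP_17a322_nt.VN

open MvPolynomial

private theorem E1b_inj (M : ℕ) : ∀ (n : ℕ) (a b : Fin n → ℕ), (∀ i, a i < M) → (∀ i, b i < M) →
    ∑ i, a i * M ^ (i : ℕ) = ∑ i, b i * M ^ (i : ℕ) → a = b
  | 0, a, b, _, _, _ => Subsingleton.elim _ _
  | n + 1, a, b, ha, hb, h => by
    rw [Fin.sum_univ_succ, Fin.sum_univ_succ] at h
    have e1 : ∀ c : Fin (n + 1) → ℕ, ∑ i : Fin n, c i.succ * M ^ ((i.succ : Fin (n + 1)) : ℕ) =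
        M * ∑ i : Fin n, c i.succ * M ^ (i : ℕ) := by
      intro c
      rw [Finset.mul_sum]
      apply Finset.sum_congr rfl
      intro i _
      rw [Fin.val_succ, pow_succ]
      ring
    rw [e1 a, e1 b, Fin.val_zero, pow_zero, mul_one, mul_one] at h
    have hM : 0 < M := lt_of_le_of_lt (Nat.zero_le _) (ha 0)
    have h0 : a 0 = b 0 := by
      have h1 := congrArg (· % M) h
      simp only [Nat.add_mul_mod_self_left] at h1
      rwa [Nat.mod_eq_of_lt (ha 0), Nat.mod_eq_of_lt (hb 0)] at h1
    have h2 : ∑ i : Fin n, a i.succ * M ^ (i : ℕ) = ∑ i : Fin n, b i.succ * M ^ (i : ℕ) := by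
      rw [h0] at h
      exact Nat.eq_of_mul_eq_mul_left hM (Nat.add_left_cancel h)
    have h3 := E1b_inj M n (fun i => a i.succ) (fun i => b i.succ) (fun i => ha _)
      (fun i => hb _) h2
    funext i
    refine Fin.cases h0 (fun j => ?_) i
    exact congrFun h3 j

/-- Kronecker substitution: for a bound `M` of the exponents there is a ring homomorphism to
polynomials in one variable for which all coefficients of polynomials with degrees `< M` in every
variable can be read off.
Proof. `X t ↦ X ^ (M ^ (e t))` for a bijection `e` of `σ` with `Fin n`; the exponent of the image of the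
monomial `m` is `∑ m t * M ^ (e t)`, injective for `m t < M` (digits, `Nat.ofDigits` or induction).
State it for every commutative semiring at once. -/
theorem kronecker {σ : Type*} [Finite σ] (M : ℕ) :
    ∃ w : σ → ℕ, ∀ (R : Type*) [CommRing R] (F : MvPolynomial σ R), (∀ t, F.degreeOf t < M) →
      ∀ m : σ →₀ ℕ, (∀ t, m t < M) →
        (aeval (fun t => (Polynomial.X : Polynomial R) ^ w t) F).coeff (m.sum fun t a => a * w t) =
          coeff m F := by
  classical
  cases nonempty_fintype σ
  let e : σ ≃ Fin (Fintype.card σ) := Fintype.equivFin σ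
  refine ⟨fun t => M ^ (e t : ℕ), ?_⟩
  intro R _ F hF m hm
  have hidx : ∀ d : σ →₀ ℕ, (d.sum fun t a => a * M ^ (e t : ℕ)) =
      ∑ i : Fin (Fintype.card σ), d (e.symm i) * M ^ (i : ℕ) := by
    intro d
    rw [Finsupp.sum_fintype _ _ (fun t => by rw [zero_mul])]
    exact Fintype.sum_equiv e _ _ fun t => by rw [Equiv.symm_apply_apply]
  have hinj : ∀ d : σ →₀ ℕ, (∀ t, d t < M) →
      (d.sum fun t a => a * M ^ (e t : ℕ)) = (m.sum fun t a => a * M ^ (e t : ℕ)) → d = m := by
    intro d hd h
    rw [hidx, hidx] at h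
    have h1 := E1b_inj M _ (fun i => d (e.symm i)) (fun i => m (e.symm i)) (fun i => hd _)
      (fun i => hm _) h
    ext t
    have h2 := congrFun h1 (e t)
    simpa only [Equiv.symm_apply_apply] using h2
  have hexp : aeval (fun t => (Polynomial.X : Polynomial R) ^ (M ^ (e t : ℕ))) F =
      ∑ d ∈ F.support, Polynomial.C (coeff d F) *
        Polynomial.X ^ (d.sum fun t a => a * M ^ (e t : ℕ)) := by
    rw [aeval_def, eval₂_eq']
    apply Finset.sum_congr rfl
    intro d _
    rw [Polynomial.algebraMap_eq]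
    congr 1
    rw [Finsupp.sum_fintype _ _ (fun t => by rw [zero_mul]), ← Finset.prod_pow_eq_pow_sum]
    apply Finset.prod_congr rfl
    intro t _
    rw [← pow_mul, Nat.mul_comm]
  rw [hexp, Polynomial.finsetSum_coeff]
  have hterm : ∀ d ∈ F.support, (Polynomial.C (coeff d F) *
      Polynomial.X ^ (d.sum fun t a => a * M ^ (e t : ℕ))).coeff
        (m.sum fun t a => a * M ^ (e t : ℕ)) = if d = m then coeff d F else 0 := by
    intro d hd
    rw [Polynomial.coeff_C_mul_X_pow]
    by_cases h : d = m
    · rw [if_pos h, if_pos (by rw [h])]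
    · rw [if_neg h, if_neg]
      intro h1
      apply h
      apply hinj d _ h1.symm
      intro t
      exact lt_of_le_of_lt (monomial_le_degreeOf t hd) (hF t)
  rw [Finset.sum_congr rfl hterm, Finset.sum_ite_eq']
  by_cases h : m ∈ F.support
  · rw [if_pos h]
  · rw [if_neg h]
    exact (notMem_support_iff.1 h).symm

/-- (KL). Proof. Apply `kronecker` with a large `M` (larger than all degrees of `G`, `N`) and `KL_one`:
all coefficients of `G` are in `A`; so `G` is the image of the polynomial with these coefficients. -/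
theorem KL {σ : Type*} [Finite σ] {A Ω : Type*} [Field A] [Field Ω] [Algebra A Ω]
    (hA : ∀ z : Ω, IsAlgebraic A z → z ∈ (algebraMap A Ω).range)
    (N : MvPolynomial σ A) (hN : N ≠ 0) (G : MvPolynomial σ Ω)
    (hG : G ∣ map (algebraMap A Ω) N) (m : σ →₀ ℕ) (hm : coeff m G = 1) :
    ∃ G₀ : MvPolynomial σ A, map (algebraMap A Ω) G₀ = G := by
  classical
  set M : ℕ := G.totalDegree + (map (algebraMap A Ω) N).totalDegree + 1 with hM
  obtain ⟨w, hw⟩ := kronecker (σ := σ) M
  have hGdeg : ∀ t, G.degreeOf t < M := by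
    intro t
    have := degreeOf_le_totalDegree G t
    omega
  have hNdeg : ∀ t, (map (algebraMap A Ω) N).degreeOf t < M := by
    intro t
    have := degreeOf_le_totalDegree (map (algebraMap A Ω) N) t
    omega
  have hsupp : ∀ (F : MvPolynomial σ Ω), (∀ t, F.degreeOf t < M) → ∀ d ∈ F.support,
      ∀ t, d t < M := fun F hF d hd t => lt_of_le_of_lt (monomial_le_degreeOf t hd) (hF t)
  have hcomp : aeval (fun t => (Polynomial.X : Polynomial Ω) ^ w t)
      (map (algebraMap A Ω) N) =
      (aeval (fun t => (Polynomial.X : Polynomial A) ^ w t) N).map (algebraMap A Ω) := by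
    have h : ((aeval (fun t => (Polynomial.X : Polynomial Ω) ^ w t) :
        MvPolynomial σ Ω →ₐ[Ω] Polynomial Ω) : MvPolynomial σ Ω →+* Polynomial Ω).comp
          (map (algebraMap A Ω)) = (Polynomial.mapRingHom (algebraMap A Ω)).comp
        ((aeval (fun t => (Polynomial.X : Polynomial A) ^ w t) :
          MvPolynomial σ A →ₐ[A] Polynomial A) : MvPolynomial σ A →+* Polynomial A) := by
      apply MvPolynomial.ringHom_ext
      · intro a
        simp [Polynomial.algebraMap_eq]
      · intro t
        simp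
    exact RingHom.congr_fun h N
  have hN' : map (algebraMap A Ω) N ≠ 0 := by
    intro h
    apply hN
    apply map_injective _ (algebraMap A Ω).injective
    rw [h, map_zero]
  have hphiN : aeval (fun t => (Polynomial.X : Polynomial A) ^ w t) N ≠ 0 := by
    intro h
    obtain ⟨d, hd⟩ := MvPolynomial.ne_zero_iff.1 hN'
    have h1 := hw Ω _ hNdeg d (hsupp _ hNdeg d (mem_support_iff.2 hd))
    rw [hcomp, h, Polynomial.map_zero, Polynomial.coeff_zero] at h1
    exact hd h1.symm
  have hm' : ∀ t, m t < M := hsupp G hGdeg m (mem_support_iff.2 (by rw [hm]; exact one_ne_zero))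
  obtain ⟨G', hG'⟩ := KL_one hA (aeval (fun t => (Polynomial.X : Polynomial A) ^ w t) N) hphiN
    (aeval (fun t => (Polynomial.X : Polynomial Ω) ^ w t) G)
    (by
      rw [← hcomp]
      exact map_dvd (aeval (fun t => (Polynomial.X : Polynomial Ω) ^ w t)) hG)
    (m.sum fun t a => a * w t) (by rw [hw Ω G hGdeg m hm', hm])
  refine ⟨∑ d ∈ G.support, monomial d (G'.coeff (d.sum fun t a => a * w t)), ?_⟩
  rw [map_sum]
  conv_rhs => rw [G.as_sum]
  apply Finset.sum_congr rfl
  intro d hd
  rw [map_monomial, ← Polynomial.coeff_map, hG', hw Ω G hGdeg d (hsupp G hGdeg d hd)]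

end Pool.Agent.Lib.MP_17a322_nt.VN
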