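import Pool.Agent.Lib.MP_17a322_nt.VN.E1a
import Pool.Agent.Lib.MP_17a322_nt.VN.E1b

/-!
Irreducibility over extensions of relatively algebraically closed fields.
-/

namespace Pool.Agent.Lib.MP_17a322_nt.VN

open MvPolynomial

/-- (KL2), (KL3). Proof. `G = a b` over `Ω`: normalise a coefficient of `a` to `1` (multiply `b` by the
constant); (KL) for `a` and then for a normalised `b` gives a factorisation over `A`, so one of the
factors is constant. -/
theorem KL_irreducible {σ : Type*} [Finite σ] {A Ω : Type*} [Field A] [Field Ω] [Algebra A Ω]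
    (hA : ∀ z : Ω, IsAlgebraic A z → z ∈ (algebraMap A Ω).range)
    (G : MvPolynomial σ A) (hG : Irreducible G) : Irreducible (map (algebraMap A Ω) G) := by
  classical
  have hinj : Function.Injective (map (σ := σ) (algebraMap A Ω)) :=
    map_injective _ (algebraMap A Ω).injective
  have hG0 : G ≠ 0 := hG.ne_zero
  have hmG0 : map (algebraMap A Ω) G ≠ 0 := by
    intro h
    exact hG0 (hinj (by rw [h, map_zero]))
  -- normalise a factor
  have hnorm : ∀ a : MvPolynomial σ Ω, a ≠ 0 → a ∣ map (algebraMap A Ω) G →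
      ∃ (c : Ω) (a0 : MvPolynomial σ A), c ≠ 0 ∧ a = C c * map (algebraMap A Ω) a0 := by
    intro a ha hdvd
    obtain ⟨m, hm⟩ := MvPolynomial.ne_zero_iff.1 ha
    have h1 : coeff m (C (coeff m a)⁻¹ * a) = 1 := by
      rw [coeff_C_mul, inv_mul_cancel₀ hm]
    have h2 : C (coeff m a) * (C (coeff m a)⁻¹ * a) = a := by
      rw [← mul_assoc, ← C_mul, mul_inv_cancel₀ hm, C_1, one_mul]
    have h3 : (C (coeff m a)⁻¹ * a) ∣ map (algebraMap A Ω) G := by
      refine dvd_trans ?_ hdvd
      exact ⟨C (coeff m a), by rw [mul_comm, h2]⟩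
    obtain ⟨a0, ha0⟩ := KL hA G hG0 _ h3 m h1
    exact ⟨coeff m a, a0, hm, by rw [ha0, h2]⟩
  have hunit : ∀ (c : Ω) (a0 : MvPolynomial σ A), c ≠ 0 → IsUnit a0 →
      IsUnit (C c * map (algebraMap A Ω) a0) := by
    intro c a0 hc ha0
    exact ((isUnit_iff_ne_zero.2 hc).map C).mul (ha0.map (map (algebraMap A Ω)))
  refine ⟨?_, ?_⟩
  · intro hu
    obtain ⟨r, hr, hGr⟩ := MvPolynomial.isUnit_iff_eq_C_of_isReduced.1 hu
    have hr' : r = algebraMap A Ω (coeff 0 G) := by
      rw [← coeff_map, hGr, coeff_zero_C]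
    have hGC : G = C (coeff 0 G) := by
      apply hinj
      rw [hGr, map_C, hr']
    apply hG.not_isUnit
    rw [hGC]
    apply IsUnit.map
    rw [isUnit_iff_ne_zero]
    intro h0
    apply hG0
    rw [hGC, h0, C_0]
  · intro a b hab
    have ha : a ≠ 0 := by
      intro h
      rw [h, zero_mul] at hab
      exact hmG0 hab
    have hb : b ≠ 0 := by
      intro h
      rw [h, mul_zero] at hab
      exact hmG0 hab
    obtain ⟨c, a0, hc, rfl⟩ := hnorm a ha ⟨b, hab⟩
    obtain ⟨c', b0, hc', rfl⟩ := hnorm b hb ⟨C c * map (algebraMap A Ω) a0, by rw [hab, mul_comm]⟩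
    have h1 : map (algebraMap A Ω) G = C (c * c') * map (algebraMap A Ω) (a0 * b0) := by
      rw [hab, C_mul, map_mul]
      ring
    have hab0 : a0 * b0 ≠ 0 := by
      intro h
      rw [h, map_zero, mul_zero] at h1
      exact hmG0 h1
    obtain ⟨d, hd⟩ := MvPolynomial.ne_zero_iff.1 hab0
    have hd' : algebraMap A Ω (coeff d (a0 * b0)) ≠ 0 := by
      intro h
      exact hd ((algebraMap A Ω).injective (by rw [h, map_zero]))
    have h2 : algebraMap A Ω (coeff d G) = c * c' * algebraMap A Ω (coeff d (a0 * b0)) := by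
      have h3 := congrArg (coeff d) h1
      rwa [coeff_map, coeff_C_mul, coeff_map] at h3
    have h4 : c * c' = algebraMap A Ω (coeff d G / coeff d (a0 * b0)) := by
      rw [map_div₀, h2, mul_div_cancel_right₀ _ hd']
    have h5 : G = C (coeff d G / coeff d (a0 * b0)) * a0 * b0 := by
      apply hinj
      rw [h1, h4, map_mul, map_mul, map_mul, map_C, ← mul_assoc]
    have hz : (coeff d G / coeff d (a0 * b0)) ≠ 0 := by
      intro h
      rw [h, map_zero] at h4
      exact mul_ne_zero hc hc' h4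
    rcases hG.isUnit_or_isUnit h5 with h6 | h6
    · left
      apply hunit c a0 hc
      exact isUnit_of_mul_isUnit_right h6
    · right
      exact hunit c' b0 hc' h6

end Pool.Agent.Lib.MP_17a322_nt.VN
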