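import Pool.Agent.Lib.MP_17a322_nt.VN.E8b

/-!
Stable prime ideals contain no nonzero polynomial in the coordinates `S`.
-/

namespace Pool.Agent.Lib.MP_17a322_nt.VN

open MvPolynomial

theorem E10_notMem {Ω B : Type*} [Field Ω] [CharZero Ω] (q : B → Polynomial Ω)
    (hq : ∀ j, (q j).Separable) (P : Ideal (MvPolynomial (B ⊕ B) Ω)) (hP : P.IsPrime)
    (hD : ∀ j, ∀ a ∈ P, DD q j a ∈ P)
    (hY : ∀ j, X (Sum.inr j) ^ 2 -
      Polynomial.aeval (X (Sum.inl j) : MvPolynomial (B ⊕ B) Ω) (q j) ∈ P) (j : B) :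
    (X (Sum.inr j) : MvPolynomial (B ⊕ B) Ω) ∉ P := by
  intro h
  have h1 := hD j _ h
  have hne : (Sum.inl j : B ⊕ B) ≠ Sum.inr j := fun h => nomatch h
  rw [DD_apply, pderiv_X_of_ne hne.symm, mul_zero, zero_add, pderiv_X_self, mul_one] at h1
  have h2 : Polynomial.aeval (X (Sum.inl j) : MvPolynomial (B ⊕ B) Ω)
      (Polynomial.derivative (q j)) ∈ P := by
    have h3 := P.mul_mem_left (C (2 : Ω)) h1
    rw [← mul_assoc, ← C_mul, mul_inv_cancel₀ (two_ne_zero : (2 : Ω) ≠ 0), C_1, one_mul] at h3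
    exact h3
  have h4 : Polynomial.aeval (X (Sum.inl j) : MvPolynomial (B ⊕ B) Ω) (q j) ∈ P := by
    have h5 := P.sub_mem (P.mul_mem_left (X (Sum.inr j)) h) (hY j)
    rw [← sq, sub_sub_cancel] at h5
    exact h5
  obtain ⟨a, b, hab⟩ := hq j
  apply hP.ne_top
  rw [Ideal.eq_top_iff_one]
  have h6 := congrArg (Polynomial.aeval (X (Sum.inl j) : MvPolynomial (B ⊕ B) Ω)) hab
  rw [map_add, map_mul, map_mul, map_one] at h6
  rw [← h6]
  exact P.add_mem (P.mul_mem_left _ h4) (P.mul_mem_left _ h2)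

theorem E10_const {Ω B : Type*} [Field Ω] (P : Ideal (MvPolynomial (B ⊕ B) Ω)) (hP : P.IsPrime)
    (H : MvPolynomial B Ω) (hH : rename Sum.inl H ∈ P) (hc : ∀ m, m ≠ 0 → coeff m H = 0) :
    H = 0 := by
  have h1 : H = C (coeff 0 H) := by
    classical
    ext m
    rw [coeff_C]
    split_ifs with h
    · rw [← h]
    · exact hc m (Ne.symm h)
  by_contra hne
  have h2 : coeff 0 H ≠ 0 := by
    intro h0
    apply hne
    rw [h1, h0, C_0]
  apply hP.ne_top
  rw [Ideal.eq_top_iff_one]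
  rw [h1, rename_C] at hH
  have h3 := P.mul_mem_left (C (coeff 0 H)⁻¹) hH
  rw [← C_mul, inv_mul_cancel₀ h2, C_1] at h3
  exact h3

theorem E10_main {Ω B : Type*} [Fintype B] [Field Ω] [CharZero Ω] (q : B → Polynomial Ω)
    (P : Ideal (MvPolynomial (B ⊕ B) Ω)) (hP : P.IsPrime)
    (hD : ∀ j, ∀ a ∈ P, DD q j a ∈ P)
    (hX : ∀ j, (X (Sum.inr j) : MvPolynomial (B ⊕ B) Ω) ∉ P) (n : ℕ) :
    ∀ H : MvPolynomial B Ω, (∀ m, coeff m H ≠ 0 → ∑ i, m i ≤ n) →
      rename Sum.inl H ∈ P → H = 0 := by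
  classical
  induction n with
  | zero =>
    intro H hm hH
    refine E10_const P hP H hH fun m hm0 => ?_
    by_contra hne
    apply hm0
    ext i
    have h1 := hm m hne
    have h2 : m i ≤ ∑ i, m i := Finset.single_le_sum (fun _ _ => Nat.zero_le _)
      (Finset.mem_univ i)
    rw [Finsupp.zero_apply]
    omega
  | succ n ih =>
    intro H hm hH
    have hpd : ∀ j, pderiv j H = 0 := by
      intro j
      refine ih _ (fun m hne => ?_) ?_
      · rw [coeff_pderiv] at hne
        have h1 := hm _ (left_ne_zero_of_mul hne)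
        have h2 : ∑ i, (m + Finsupp.single j 1 : B →₀ ℕ) i = (∑ i, m i) + 1 := by
          simp only [Finsupp.add_apply, Finset.sum_add_distrib]
          congr 1
          rw [Finset.sum_eq_single j (fun b _ hb => Finsupp.single_eq_of_ne hb)
            (fun h => absurd (Finset.mem_univ j) h), Finsupp.single_eq_same]
        omega
      · have h1 := hD j _ hH
        rw [DD_rename] at h1
        exact (hP.mem_or_mem h1).resolve_left (hX j)
    refine E10_const P hP H hH fun m hm0 => ?_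
    obtain ⟨j, hj⟩ := Finsupp.ne_iff.1 hm0
    rw [Finsupp.zero_apply] at hj
    have h1 : m - Finsupp.single j 1 + Finsupp.single j 1 = m := by
      ext i
      rw [Finsupp.add_apply, Finsupp.tsub_apply]
      by_cases hij : i = j
      · subst hij
        rw [Finsupp.single_eq_same]
        omega
      · rw [Finsupp.single_eq_of_ne hij]
        omega
    have h2 := congrArg (coeff (m - Finsupp.single j 1)) (hpd j)
    rw [coeff_pderiv, h1, coeff_zero] at h2
    rcases mul_eq_zero.1 h2 with h3 | h3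
    · exact h3
    · exact absurd h3 (Nat.cast_add_one_ne_zero _)

/-- Proof. `Y_j = X (inr j) ∉ P` for all `j`: otherwise `D_j Y_j = q_j'(S_j) / 2 ∈ P` and
`q_j(S_j) = Y_j^2 - (Y_j^2 - q_j(S_j)) ∈ P`, and `q_j`, `q_j'` are coprime (`Separable`), so `1 ∈ P`.
Strong induction on `H.totalDegree`: `D_j (rename inl H) = Y_j * rename inl (pderiv j H) ∈ P` (`DD_rename`), so
`rename inl (pderiv j H) ∈ P`, hence `pderiv j H = 0` by induction (if `H.totalDegree = 0` then `H` is a
constant, which lies in `P` only if it is `0`). All `pderiv j H = 0` in characteristic `0` implies that `H`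
is constant, so `H = 0`. -/
theorem diff_simple {Ω B : Type*} [Fintype B] [Field Ω] [CharZero Ω] (q : B → Polynomial Ω)
    (hq : ∀ j, (q j).Separable) (P : Ideal (MvPolynomial (B ⊕ B) Ω)) (hP : P.IsPrime)
    (hD : ∀ j, ∀ a ∈ P, DD q j a ∈ P)
    (hY : ∀ j, X (Sum.inr j) ^ 2 - Polynomial.aeval (X (Sum.inl j) : MvPolynomial (B ⊕ B) Ω) (q j) ∈ P)
    (H : MvPolynomial B Ω) (hH : rename Sum.inl H ∈ P) : H = 0 := by
  have hX := E10_notMem q hq P hP hD hY
  refine E10_main q P hP hD hX H.totalDegree H (fun m hm => ?_) hH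
  have h1 := le_totalDegree (mem_support_iff.2 hm)
  rw [Finsupp.sum_fintype _ _ (fun _ => rfl)] at h1
  exact h1

end Pool.Agent.Lib.MP_17a322_nt.VN
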