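import Pool.Agent.Lib.MP_17a322_nt.Mb

/-!
Lifting of a zero of a polynomial to the double coverings (lying over).
-/

namespace Pool.Agent.Lib.MP_17a322_nt.VN

open MvPolynomial

/-- Proof. Let `A = MvPolynomial B Ω`, `R = MvPolynomial (B ⊕ B) Ω`, `A → R ⧸ I` induced by `rename inl`
(use `RingHom.toAlgebra`). It is integral: `R` is generated over `A` by the `X (inr j)`, whose images are
roots of the monic polynomials `T^2 - q_j(X j)`. The kernel of `eval p : A → Ω` is a prime (maximal) ideal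
`𝔭` which contains the kernel of `A → R ⧸ I` by `hp`. By lying over
(`Ideal.exists_ideal_over_prime_of_isIntegral`) there is a prime `𝔮` of `R ⧸ I` over `𝔭`; let `𝔮'` be its
preimage in `R`: it is prime, contains `I`, and `rename inl a ∈ 𝔮' ↔ eval p a = 0`. So `X (inl j) - C (p j) ∈ 𝔮'`.
Choose `z j` with `z j ^ 2 = (q j).eval (p j)`. Then `X (inr j) ^ 2 - C (z j) ^ 2 ∈ 𝔮'` (since
`q_j(X (inl j)) - C ((q j).eval (p j)) ∈ 𝔮'`), so `X (inr j) - C (z j) ∈ 𝔮'` or `X (inr j) + C (z j) ∈ 𝔮'`; put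
`y j = ± z j` accordingly. Every `H` is congruent modulo `𝔮'` to the constant `eval (Sum.elim p y) H`; for
`H ∈ I ⊆ 𝔮'` this constant is in `𝔮'`, so it is `0`. -/
theorem exists_lift {Ω B : Type*} [Finite B] [Field Ω] [IsAlgClosed Ω] (q : B → Polynomial Ω)
    (I : Ideal (MvPolynomial (B ⊕ B) Ω))
    (hY : ∀ j, X (Sum.inr j) ^ 2 - Polynomial.aeval (X (Sum.inl j) : MvPolynomial (B ⊕ B) Ω) (q j) ∈ I)
    (p : B → Ω) (hp : ∀ H : MvPolynomial B Ω, rename Sum.inl H ∈ I → eval p H = 0) :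
    ∃ y : B → Ω, (∀ j, y j ^ 2 = (q j).eval (p j)) ∧
      ∀ H ∈ I, eval (Sum.elim p y) H = 0 := by
  classical
  let f : MvPolynomial B Ω →+* (MvPolynomial (B ⊕ B) Ω ⧸ I) :=
    (Ideal.Quotient.mk I).comp (rename (Sum.inl : B → B ⊕ B)).toRingHom
  have hf : ∀ a, f a = Ideal.Quotient.mk I (rename Sum.inl a) := fun a => rfl
  have hint : ∀ x, f.IsIntegralElem x := by
    intro x
    obtain ⟨x, rfl⟩ := Ideal.Quotient.mk_surjective x
    induction x using MvPolynomial.induction_on with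
    | C a =>
      have h1 : Ideal.Quotient.mk I (C a) = f (C a) := by rw [hf, rename_C]
      rw [h1]; exact f.isIntegralElem_map
    | add x y hx hy => rw [map_add]; exact hx.add f hy
    | mul_X x i hx =>
      rw [map_mul]
      apply hx.mul
      rcases i with j | j
      · have h1 : Ideal.Quotient.mk I (X (Sum.inl j)) = f (X j) := by rw [hf, rename_X]
        rw [h1]; exact f.isIntegralElem_map
      · refine ⟨Polynomial.X ^ 2 - Polynomial.C (Polynomial.aeval (X j : MvPolynomial B Ω) (q j)),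
          Polynomial.monic_X_pow_sub_C _ (by norm_num), ?_⟩
        rw [Polynomial.eval₂_sub, Polynomial.eval₂_pow, Polynomial.eval₂_X, Polynomial.eval₂_C, hf,
          ← map_pow, ← map_sub, Ideal.Quotient.eq_zero_iff_mem]
        have h2 : rename (Sum.inl : B → B ⊕ B) (Polynomial.aeval (X j : MvPolynomial B Ω) (q j)) =
            Polynomial.aeval (X (Sum.inl j) : MvPolynomial (B ⊕ B) Ω) (q j) := by
          rw [← Polynomial.aeval_algHom_apply, rename_X]
        rw [h2]
        exact hY j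
  let _ : Algebra (MvPolynomial B Ω) (MvPolynomial (B ⊕ B) Ω ⧸ I) := f.toAlgebra
  have hii : Algebra.IsIntegral (MvPolynomial B Ω) (MvPolynomial (B ⊕ B) Ω ⧸ I) := ⟨hint⟩
  have hPp : (RingHom.ker (eval p : MvPolynomial B Ω →+* Ω)).IsPrime := RingHom.ker_isPrime _
  obtain ⟨Q, -, hQp, hQc⟩ := Ideal.exists_ideal_over_prime_of_isIntegral
    (S := MvPolynomial (B ⊕ B) Ω ⧸ I)
    (RingHom.ker (eval p : MvPolynomial B Ω →+* Ω)) ⊥ (by
      intro a ha
      have h1 : f a = 0 := ha
      rw [hf, Ideal.Quotient.eq_zero_iff_mem] at h1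
      exact hp a h1)
  have hA0 : ∀ a, f a ∈ Q ↔ eval p a = 0 := by
    intro a
    have h1 : a ∈ Q.comap f ↔ a ∈ RingHom.ker (eval p : MvPolynomial B Ω →+* Ω) := by
      rw [← hQc]; rfl
    rw [Ideal.mem_comap, RingHom.mem_ker] at h1
    exact h1
  let Q' : Ideal (MvPolynomial (B ⊕ B) Ω) := Q.comap (Ideal.Quotient.mk I)
  have hQ'p : Q'.IsPrime := Ideal.comap_isPrime _ Q
  have hI : ∀ H ∈ I, H ∈ Q' := by
    intro H hH
    change Ideal.Quotient.mk I H ∈ Q
    rw [Ideal.Quotient.eq_zero_iff_mem.mpr hH]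
    exact Q.zero_mem
  have hA : ∀ a : MvPolynomial B Ω, rename Sum.inl a ∈ Q' ↔ eval p a = 0 := hA0
  have hx : ∀ j, (X (Sum.inl j) - C (p j) : MvPolynomial (B ⊕ B) Ω) ∈ Q' := by
    intro j
    have h1 := (hA (X j - C (p j))).mpr (by simp)
    rwa [map_sub, rename_X, rename_C] at h1
  have hmem : ∀ {u w : MvPolynomial (B ⊕ B) Ω}, u = w → w ∈ Q' → u ∈ Q' := by
    intro u w h h'
    rw [h]
    exact h'
  have hy : ∀ j, ∃ y : Ω, y ^ 2 = (q j).eval (p j) ∧
      (X (Sum.inr j) - C y : MvPolynomial (B ⊕ B) Ω) ∈ Q' := by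
    intro j
    obtain ⟨z, hz⟩ := IsAlgClosed.exists_pow_nat_eq ((q j).eval (p j)) (n := 2) (by norm_num)
    have h1 : (X (Sum.inr j) ^ 2 - C z ^ 2 : MvPolynomial (B ⊕ B) Ω) ∈ Q' := by
      have h2 := hI _ (hY j)
      have h3 := (hA (Polynomial.aeval (X j : MvPolynomial B Ω) (q j) - C ((q j).eval (p j)))).mpr (by
        rw [map_sub, eval_C]
        have : eval p (Polynomial.aeval (X j : MvPolynomial B Ω) (q j)) = (q j).eval (p j) := by
          rw [← coe_aeval_eq_eval, RingHom.coe_coe, ← Polynomial.aeval_algHom_apply, aeval_X,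
            Polynomial.coe_aeval_eq_eval]
        rw [this, sub_self])
      rw [map_sub, rename_C, ← Polynomial.aeval_algHom_apply, rename_X] at h3
      have h4 := Q'.add_mem h2 h3
      rw [← hz, map_pow] at h4
      exact hmem (by ring) h4
    have h5 : ((X (Sum.inr j) - C z) * (X (Sum.inr j) + C z) : MvPolynomial (B ⊕ B) Ω) ∈ Q' := by
      exact hmem (by ring) h1
    rcases hQ'p.mem_or_mem h5 with h6 | h6
    · exact ⟨z, hz, h6⟩
    · refine ⟨-z, by rw [neg_sq, hz], ?_⟩
      rwa [map_neg, sub_neg_eq_add]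
  choose y hy1 hy2 using hy
  refine ⟨y, hy1, ?_⟩
  intro H hH
  have hφ : (Ideal.Quotient.mk Q') =
      ((Ideal.Quotient.mk Q').comp C).comp (eval (Sum.elim p y)) := by
    apply MvPolynomial.ringHom_ext
    · intro a; simp
    · intro i
      simp only [RingHom.coe_comp, Function.comp_apply, eval_X]
      rw [Ideal.Quotient.eq]
      rcases i with j | j
      · exact hx j
      · exact hy2 j
  have h1 : Ideal.Quotient.mk Q' H = Ideal.Quotient.mk Q' (C (eval (Sum.elim p y) H)) := by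
    conv_lhs => rw [hφ]
    rfl
  rw [Ideal.Quotient.eq_zero_iff_mem.mpr (hI H hH)] at h1
  have h2 := Ideal.Quotient.eq_zero_iff_mem.mp h1.symm
  by_contra hne
  apply hQ'p.ne_top
  apply Ideal.eq_top_of_isUnit_mem _ h2
  exact (isUnit_iff_ne_zero.mpr hne).map C

end Pool.Agent.Lib.MP_17a322_nt.VN
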