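import Pool.Agent.Lib.MP_17a322_nt.VN.E9
import Pool.Agent.Lib.MP_17a322_nt.VN.E10
import Pool.Agent.Lib.MP_17a322_nt.VN.E12a

/-!
The core of LEMMA PSI: an ideal with the two kinds of operators and a zero killed by `δ`.
-/

namespace Pool.Agent.Lib.MP_17a322_nt.VN

open MvPolynomial

/-- The core. Proof. `δ (y j) = 0`: `2 y_j δ(y_j) = δ(q_j(p_j)) = 0`; if `y_j = 0` then `δ (y j) = δ 0 = 0`. Let
`z = Sum.elim p y`, and let `I∞` be the ideal spanned by all `D_r^k H`, `H ∈ I`. It is contained in the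
maximal ideal `m = ker (eval z)` by `eval_iterate`. It is stable under `D_r` (Leibniz) and under `D_i` for
`i ≠ r`: `D_i D_r^k H = D_r^k (D_i H) = D_r^k (D_i H + C (c i) * D_r H) - C (c i) * D_r^(k+1) H` (`DD_comm`;
`D_r` is linear over `Ω`). Let `P ≤ m` be a minimal prime over `I∞` (`Ideal.exists_minimalPrimes_le`); it is
stable under all `D_j` by `minimalPrimes_stable` (the algebra `ℚ → MvPolynomial _ Ω` from characteristic `0`;
`DD q j` restricted to `ℤ`: `Derivation.restrictScalars`). It contains `I`. Apply `diff_simple`. -/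
theorem core {Ω B : Type*} [Fintype B] [Field Ω] [CharZero Ω] (q : B → Polynomial Ω)
    (hq : ∀ j, (q j).Separable) (δ : Derivation ℤ Ω Ω) (hδq : ∀ j m, δ ((q j).coeff m) = 0)
    (r : B) (c : B → Ω) (ψ : Ω) (hψ : ψ ≠ 0) (I : Ideal (MvPolynomial (B ⊕ B) Ω))
    (hY : ∀ j, X (Sum.inr j) ^ 2 - Polynomial.aeval (X (Sum.inl j) : MvPolynomial (B ⊕ B) Ω) (q j) ∈ I)
    (hV : ∀ i, i ≠ r → ∀ H ∈ I, DD q i H + C (c i) * DD q r H ∈ I)
    (hδI : ∀ H ∈ I, dc (B ⊕ B) δ H + C ψ * DD q r H ∈ I) (p y : B → Ω)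
    (hp : ∀ j, δ (p j) = 0) (hy : ∀ j, y j ^ 2 = (q j).eval (p j))
    (hI : ∀ H ∈ I, eval (Sum.elim p y) H = 0) (G : MvPolynomial B Ω)
    (hG : rename Sum.inl G ∈ I) : G = 0 := by
  classical
  -- the point is killed by `δ`
  have hz : ∀ j, δ (Sum.elim p y j) = 0 := by
    rintro (j | j)
    · exact hp j
    · show δ (y j) = 0
      have h1 : δ (y j ^ 2) = 0 := by
        rw [hy j, ← Polynomial.coe_aeval_eq_eval]
        rw [chain_poly δ (q j) (fun m => hδq j m) (p j), hp j, mul_zero]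
      have h2 : (2 : Ω) * (y j * δ (y j)) = 0 := by
        rw [pow_two, Derivation.leibniz, smul_eq_mul] at h1
        rw [two_mul]
        exact h1
      have h3 : y j * δ (y j) = 0 := (mul_eq_zero.1 h2).resolve_left two_ne_zero
      rcases mul_eq_zero.1 h3 with h4 | h4
      · rw [h4, map_zero]
      · exact h4
  have hz0 := eval_iterate q δ r (hδq r) ψ hψ I hδI (Sum.elim p y) hz hI
  -- the ideal `I∞`
  obtain ⟨J, hJ⟩ : ∃ J : Ideal (MvPolynomial (B ⊕ B) Ω),
      J = Ideal.span {a | ∃ k : ℕ, ∃ H ∈ I, a = (DD q r)^[k] H} := ⟨_, rfl⟩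
  have hIJ : ∀ H ∈ I, H ∈ J := fun H hH => by
    rw [hJ]
    exact Ideal.subset_span ⟨0, H, hH, rfl⟩
  have hgen : ∀ k : ℕ, ∀ H ∈ I, (DD q r)^[k] H ∈ J := fun k H hH => by
    rw [hJ]
    exact Ideal.subset_span ⟨k, H, hH, rfl⟩
  have hJm : J ≤ RingHom.ker (eval (Sum.elim p y)) := by
    rw [hJ, Ideal.span_le]
    rintro a ⟨k, H, hH, rfl⟩
    exact hz0 k H hH
  have hst : ∀ j : B, (∀ k : ℕ, ∀ H ∈ I, DD q j ((DD q r)^[k] H) ∈ J) → ∀ a ∈ J, DD q j a ∈ J := by
    intro j h a ha
    have ha' := ha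
    rw [hJ] at ha'
    induction ha' using Submodule.span_induction with
    | mem x hx =>
      obtain ⟨k, H, hH, rfl⟩ := hx
      exact h k H hH
    | zero =>
      rw [map_zero]
      exact J.zero_mem
    | add x x' hx hx' h1 h2 =>
      rw [map_add]
      refine J.add_mem (h1 ?_) (h2 ?_)
      · rw [hJ]
        exact hx
      · rw [hJ]
        exact hx'
    | smul b x hx h1 =>
      have hxJ : x ∈ J := by
        rw [hJ]
        exact hx
      rw [smul_eq_mul, Derivation.leibniz, smul_eq_mul, smul_eq_mul]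
      refine J.add_mem (J.mul_mem_left _ (h1 hxJ)) ?_
      exact J.mul_mem_right _ hxJ
  have hit : ∀ (k : ℕ) (a b : MvPolynomial (B ⊕ B) Ω) (e : Ω),
      (DD q r)^[k] (a - C e * b) = (DD q r)^[k] a - C e * (DD q r)^[k] b := by
    intro k
    induction k with
    | zero =>
      intro a b e
      rfl
    | succ k ih =>
      intro a b e
      have h1 : DD q r (a - C e * b) = DD q r a - C e * DD q r b := by
        rw [map_sub, ← smul_eq_C_mul, ← smul_eq_C_mul, Derivation.map_smul]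
      rw [Function.iterate_succ_apply, Function.iterate_succ_apply, Function.iterate_succ_apply, h1, ih]
  have hcomm : ∀ (j : B) (k : ℕ) (a : MvPolynomial (B ⊕ B) Ω),
      DD q j ((DD q r)^[k] a) = (DD q r)^[k] (DD q j a) := by
    intro j k
    induction k with
    | zero =>
      intro a
      rfl
    | succ k ih =>
      intro a
      rw [Function.iterate_succ_apply, Function.iterate_succ_apply, ih, DD_comm q j r a]
  have hDJ : ∀ j : B, ∀ a ∈ J, DD q j a ∈ J := by
    intro j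
    refine hst j fun k H hH => ?_
    by_cases hjr : j = r
    · rw [hjr, ← Function.iterate_succ_apply' (DD q r) k H]
      exact hgen (k + 1) H hH
    · have h1 : DD q j H = (DD q j H + C (c j) * DD q r H) - C (c j) * DD q r H := by ring
      rw [hcomm, h1, hit]
      refine J.sub_mem (hgen k _ (hV j hjr H hH)) ?_
      rw [← Function.iterate_succ_apply (DD q r) k H]
      exact J.mul_mem_left _ (hgen (k + 1) H hH)
  have hmp : (RingHom.ker (eval (Sum.elim p y) : MvPolynomial (B ⊕ B) Ω →+* Ω)).IsPrime :=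
    RingHom.ker_isPrime _
  obtain ⟨P, hP, -⟩ := Ideal.exists_minimalPrimes_le hJm
  have hPD : ∀ j : B, ∀ a ∈ P, DD q j a ∈ P := fun j =>
    minimalPrimes_stable ((DD q j).restrictScalars ℤ) J P hP (hDJ j)
  have hJP : ∀ a ∈ J, a ∈ P := fun a ha => hP.1.2 ha
  exact diff_simple q hq P hP.1.1 hPD (fun j => hJP _ (hIJ _ (hY j))) G (hJP _ (hIJ _ hG))

end Pool.Agent.Lib.MP_17a322_nt.VN
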