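import Pool.Agent.Lib.MP_17a322_nt.Mb

/-!
Kronecker's lemma, one variable.
-/

namespace Pool.Agent.Lib.MP_17a322_nt.VN

open MvPolynomial

/-- One variable: a factor with a coefficient `1` of a nonzero polynomial over a relatively
algebraically closed subfield `A` has coefficients in `A`.
Proof. Over an algebraic closure of `Ω` the roots of `G` are roots of `N`, so they are algebraic over `A`;
hence the coefficients of `G / lc` are algebraic over `A` and lie in `Ω`, so they are in `A`. One
coefficient of `G` is `1`, so `lc` is the inverse of an element of `A`. -/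
theorem KL_one {A Ω : Type*} [Field A] [Field Ω] [Algebra A Ω]
    (hA : ∀ z : Ω, IsAlgebraic A z → z ∈ (algebraMap A Ω).range)
    (N : Polynomial A) (hN : N ≠ 0) (G : Polynomial Ω)
    (hG : G ∣ N.map (algebraMap A Ω)) (m : ℕ) (hm : G.coeff m = 1) :
    ∃ G₀ : Polynomial A, G₀.map (algebraMap A Ω) = G := by
  have hG0 : G ≠ 0 := by
    rintro rfl
    simp at hm
  have hlc : G.leadingCoeff ≠ 0 := Polynomial.leadingCoeff_ne_zero.2 hG0
  have hmon : (G * Polynomial.C G.leadingCoeff⁻¹).Monic := Polynomial.monic_mul_leadingCoeff_inv hG0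
  have hNmon : (N * Polynomial.C N.leadingCoeff⁻¹).Monic := Polynomial.monic_mul_leadingCoeff_inv hN
  have hdvd : G * Polynomial.C G.leadingCoeff⁻¹ ∣
      (N * Polynomial.C N.leadingCoeff⁻¹).map (algebraMap A Ω) := by
    rw [Polynomial.map_mul]
    refine Dvd.dvd.mul_right ?_ _
    have hu : IsUnit (Polynomial.C G.leadingCoeff⁻¹) :=
      Polynomial.isUnit_C.2 (isUnit_iff_ne_zero.2 (inv_ne_zero hlc))
    exact (hu.mul_right_dvd).2 hG
  have hint := Polynomial.isIntegral_coeff_of_dvd _ _ hNmon hmon hdvd
  have hmem : ∀ i, (G * Polynomial.C G.leadingCoeff⁻¹).coeff i ∈ (algebraMap A Ω).range :=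
    fun i => hA _ (hint i).isAlgebraic
  have hlcm : G.leadingCoeff ∈ (algebraMap A Ω).fieldRange := by
    have h1 := hmem m
    rw [Polynomial.coeff_mul_C, hm, one_mul] at h1
    have h2 : G.leadingCoeff⁻¹ ∈ (algebraMap A Ω).fieldRange := h1
    have h3 := inv_mem h2
    rwa [inv_inv] at h3
  have hall : ∀ i, G.coeff i ∈ (algebraMap A Ω).fieldRange := by
    intro i
    have h1 : (G * Polynomial.C G.leadingCoeff⁻¹).coeff i ∈ (algebraMap A Ω).fieldRange := hmem i
    rw [Polynomial.coeff_mul_C] at h1
    have h2 := mul_mem h1 hlcm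
    rwa [mul_assoc, inv_mul_cancel₀ hlc, mul_one] at h2
  refine (Polynomial.mem_lifts G).1 ((Polynomial.lifts_iff_coeff_lifts G).2 fun i => ?_)
  exact hall i

/-- An algebraically closed field is relatively algebraically closed. -/
theorem closed_of_isAlgClosed {A Ω : Type*} [Field A] [Field Ω] [Algebra A Ω] [IsAlgClosed A] :
    ∀ z : Ω, IsAlgebraic A z → z ∈ (algebraMap A Ω).range := by
  intro z hz
  exact minpoly.mem_range_of_degree_eq_one A z
    (IsAlgClosed.degree_eq_one_of_irreducible A (minpoly.irreducible hz.isIntegral))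

end Pool.Agent.Lib.MP_17a322_nt.VN
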