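import Pool.Agent.Lib.MP_17a322_nt.VN.E0
import Pool.Agent.Lib.MP_17a322_nt.VN.E1a
import Pool.Agent.Lib.MP_17a322_nt.VN.E2

/-!
Existence of generic points with constant slopes.
-/

universe u

namespace Pool.Agent.Lib.MP_17a322_nt.VN

open MvPolynomial

/-- Proof. `L = AlgebraicClosure (FractionRing (MvPolynomial {t : B // t ≠ r} Ω))`, `x t` the variable for
`t ≠ r`: these are algebraically independent over `Ω` and `L` is algebraic over the field they generate
(which contains, hence equals, the image of the fraction field: every element of the fraction field is a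
quotient of polynomials in the `x t`). By `exists_generic_root` (E2) there is `x r` with `G(x) = 0`. All
`x t` are transcendental over `Ω`: for `t ≠ r` by independence, for `t = r` by `transcendental_coord` (with
`closed_of_isAlgClosed`, E1). So `q_t(x t) ≠ 0`; let `y r` be a square root of `q_r(x r)` and `z t` a square root
of `q_t(x t)` for `t ≠ r`. `aeval x (pderiv r G) ≠ 0` by `pderiv_ne_zero`. Evaluate `hc` at `x`:
`(z_l ∂_l G(x))^2 = (c_l y_r ∂_r G(x))^2`, so `z_l ∂_l G(x) = ± c_l y_r ∂_r G(x)`; put `y_l = ± z_l` such that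
`y_l ∂_l G(x) = - c_l y_r ∂_r G(x)`. -/
theorem exists_GP {Ω : Type u} {B : Type} [Finite B] [Field Ω] [CharZero Ω] [IsAlgClosed Ω]
    (q : B → Polynomial Ω) (hq : ∀ t, q t ≠ 0) (r : B) (G : MvPolynomial B Ω)
    (hG : Irreducible G) (hr : G.degreeOf r ≠ 0) (i : B) (hir : i ≠ r) (hi : G.degreeOf i ≠ 0)
    (c : B → Ω)
    (hc : ∀ l, l ≠ r → G ∣ Polynomial.aeval (X l : MvPolynomial B Ω) (q l) * pderiv l G ^ 2 -
      C (c l ^ 2) * (Polynomial.aeval (X r : MvPolynomial B Ω) (q r) * pderiv r G ^ 2)) :
    ∃ (L : Type u) (_ : Field L) (_ : Algebra Ω L) (x y : B → L), GP q r G c x y := by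
  classical
  -- the fields
  let R : Type u := MvPolynomial {t : B // t ≠ r} Ω
  let K : Type u := FractionRing R
  let L : Type u := AlgebraicClosure K
  let ι : R →ₐ[Ω] L := IsScalarTower.toAlgHom Ω R L
  have hιinj : Function.Injective ι := by
    have h1 : Function.Injective (algebraMap R L) := by
      rw [IsScalarTower.algebraMap_eq R K L]
      exact (algebraMap K L).injective.comp (IsFractionRing.injective R K)
    exact h1
  let x0 : {t : B // t ≠ r} → L := fun t => ι (X t)
  have hx0 : AlgebraicIndependent Ω x0 :=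
    (algebraicIndependent_X {t : B // t ≠ r} Ω).map' hιinj
  have hι : ∀ a : R, ι a = aeval x0 a := by
    intro a
    have h1 : ι = aeval x0 := by
      apply MvPolynomial.algHom_ext
      intro t
      rw [aeval_X]
    rw [← h1]
  let x1 : B → L := fun t => if h : t ≠ r then x0 ⟨t, h⟩ else 0
  have hx1 : (fun t : {t : B // t ≠ r} => x1 t) = x0 := by
    funext t
    exact dif_pos t.2
  obtain ⟨ρ, hρ⟩ := exists_generic_root r x1 (by rw [hx1]; exact hx0) G hr
  let x : B → L := Function.update x1 r ρ
  have hxS : (fun t : {t : B // t ≠ r} => x t) = x0 := by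
    funext t
    exact (Function.update_of_ne t.2 _ _).trans (dif_pos t.2)
  have hind : AlgebraicIndependent Ω (fun t : {t : B // t ≠ r} => x t) := by
    rw [hxS]
    exact hx0
  have hzero : aeval x G = 0 := hρ
  have hder : aeval x (pderiv r G) ≠ 0 := pderiv_ne_zero r x hind G hG hzero
  -- all coordinates are transcendental
  have htr : ∀ t, Transcendental Ω (x t) := by
    intro t
    by_cases ht : t = r
    · rw [ht]
      exact transcendental_coord closed_of_isAlgClosed i r hir x hind G hG hi hzero
    · exact hind.transcendental ⟨t, ht⟩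
  have hqne : ∀ t, Polynomial.aeval (x t) (q t) ≠ 0 := by
    intro t h
    exact hq t (transcendental_iff.1 (htr t) (q t) h)
  have hsq : ∀ t, ∃ z : L, z ^ 2 = Polynomial.aeval (x t) (q t) := fun t =>
    IsAlgClosed.exists_pow_nat_eq _ two_pos
  choose z hz using hsq
  have hzne : ∀ t, z t ≠ 0 := by
    intro t h
    apply hqne t
    rw [← hz t, h]
    ring
  -- algebraic
  have halg : Algebra.IsAlgebraic
      (IntermediateField.adjoin Ω (Set.range fun t : {t : B // t ≠ r} => x t)) L := by
    rw [hxS]
    have hmemR : ∀ a : R, algebraMap R L a ∈ IntermediateField.adjoin Ω (Set.range x0) := by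
      intro a
      have h1 : algebraMap R L a = aeval x0 a := hι a
      rw [h1]
      have h2 : aeval x0 a ∈ Algebra.adjoin Ω (Set.range x0) := by
        rw [Algebra.adjoin_range_eq_range_aeval]
        exact ⟨a, rfl⟩
      exact IntermediateField.algebra_adjoin_le_adjoin Ω _ h2
    have hmemK : ∀ k : K, algebraMap K L k ∈ IntermediateField.adjoin Ω (Set.range x0) := by
      intro k
      obtain ⟨a, b, hb, hk⟩ := IsFractionRing.div_surjective (A := R) k
      rw [← hk, map_div₀, ← IsScalarTower.algebraMap_apply R K L,
        ← IsScalarTower.algebraMap_apply R K L]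
      exact div_mem (hmemR a) (hmemR b)
    let φ : K →+* IntermediateField.adjoin Ω (Set.range x0) :=
      (algebraMap K L).codRestrict (IntermediateField.adjoin Ω (Set.range x0)) hmemK
    refine ⟨fun w => ?_⟩
    obtain ⟨p, hp, hpw⟩ := (AlgebraicClosure.isAlgebraic K).isAlgebraic w
    refine ⟨p.map φ, (Polynomial.map_ne_zero_iff φ.injective).2 hp, ?_⟩
    have h3 : (algebraMap (IntermediateField.adjoin Ω (Set.range x0)) L).comp φ =
        algebraMap K L := RingHom.ext fun _ => rfl
    rw [Polynomial.aeval_def, Polynomial.eval₂_map, h3, ← Polynomial.aeval_def]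
    exact hpw
  -- slopes
  have hcomp : ∀ l, aeval x (Polynomial.aeval (X l : MvPolynomial B Ω) (q l)) = z l ^ 2 := by
    intro l
    rw [hz l, ← Polynomial.aeval_algHom_apply, aeval_X]
  have hsl : ∀ l, l ≠ r → (z l * aeval x (pderiv l G)) ^ 2 =
      (algebraMap Ω L (c l) * (z r * aeval x (pderiv r G))) ^ 2 := by
    intro l hl
    obtain ⟨Q, hQ⟩ := hc l hl
    have h1 := congrArg (aeval x) hQ
    simp only [map_mul, map_sub, map_pow, hcomp, aeval_C, hzero, zero_mul] at h1
    linear_combination h1
  let y : B → L := fun l => if l = r then z r else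
    if z l * aeval x (pderiv l G) = -(algebraMap Ω L (c l) * (z r * aeval x (pderiv r G)))
      then z l else - z l
  have hyr : y r = z r := if_pos rfl
  have hy2 : ∀ l, y l = z l ∨ y l = - z l := by
    intro l
    by_cases hl : l = r
    · left
      rw [hl]
      exact hyr
    · by_cases h : z l * aeval x (pderiv l G) =
          -(algebraMap Ω L (c l) * (z r * aeval x (pderiv r G)))
      · left
        exact (if_neg hl).trans (if_pos h)
      · right
        exact (if_neg hl).trans (if_neg h)
  refine ⟨L, inferInstance, inferInstance, x, y, ?_⟩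
  refine ⟨hind, halg, hzero, fun t => ?_, fun t => ?_, hder, fun l hl => ?_⟩
  · rcases hy2 t with h | h
    · rw [h, hz]
    · rw [h, neg_sq, hz]
  · rcases hy2 t with h | h
    · rw [h]
      exact hzne t
    · rw [h]
      exact neg_ne_zero.2 (hzne t)
  · rw [hyr]
    by_cases h : z l * aeval x (pderiv l G) =
        -(algebraMap Ω L (c l) * (z r * aeval x (pderiv r G)))
    · have h2 : y l = z l := (if_neg hl).trans (if_pos h)
      rw [h2, h]
      ring
    · have h2 : y l = - z l := (if_neg hl).trans (if_neg h)
      have h3 : z l * aeval x (pderiv l G) =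
          algebraMap Ω L (c l) * (z r * aeval x (pderiv r G)) := by
        rcases sq_eq_sq_iff_eq_or_eq_neg.1 (hsl l hl) with h4 | h4
        · exact h4
        · exact absurd h4 h
      rw [h2, neg_mul, h3]
      ring

end Pool.Agent.Lib.MP_17a322_nt.VN
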