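import Pool.Agent.Lib.MP_17a322_nt.VN.E0

/-!
Commutation of the derivations `D_j` and `dc δ`.
-/

namespace Pool.Agent.Lib.MP_17a322_nt.VN

open MvPolynomial

private theorem E8b_inl {Ω B : Type*} [Field Ω] (q : B → Polynomial Ω) (i k : B) (h : i ≠ k) :
    DD q i (X (Sum.inl k)) = 0 := by
  classical
  rw [DD_apply, pderiv_X_of_ne (fun e => h (Sum.inl_injective e).symm),
    pderiv_X_of_ne (by simp), mul_zero, mul_zero, add_zero]

private theorem E8b_inr {Ω B : Type*} [Field Ω] (q : B → Polynomial Ω) (i k : B) (h : i ≠ k) :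
    DD q i (X (Sum.inr k)) = 0 := by
  classical
  rw [DD_apply, pderiv_X_of_ne (by simp), pderiv_X_of_ne (fun e => h (Sum.inr_injective e).symm),
    mul_zero, mul_zero, add_zero]

private theorem E8b_inl_self {Ω B : Type*} [Field Ω] (q : B → Polynomial Ω) (i : B) :
    DD q i (X (Sum.inl i)) = X (Sum.inr i) := by
  classical
  rw [DD_apply, pderiv_X_self, pderiv_X_of_ne (by simp), mul_one, mul_zero, add_zero]

private theorem E8b_inr_self {Ω B : Type*} [Field Ω] (q : B → Polynomial Ω) (i : B) :
    DD q i (X (Sum.inr i)) = C (2⁻¹ : Ω) * Polynomial.aeval (X (Sum.inl i) :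
      MvPolynomial (B ⊕ B) Ω) (Polynomial.derivative (q i)) := by
  classical
  rw [DD_apply, pderiv_X_self, pderiv_X_of_ne (by simp), mul_one, mul_zero, zero_add]

private theorem E8b_C {Ω B : Type*} [Field Ω] (q : B → Polynomial Ω) (i : B) (a : Ω) :
    DD q i (C a) = 0 := (DD q i).map_algebraMap a

private theorem E8b_poly {Ω B : Type*} [Field Ω] (δ : Derivation ℤ Ω Ω) (j : B)
    (p : Polynomial Ω) (h : ∀ m, δ (p.coeff m) = 0) :
    dc (B ⊕ B) δ (Polynomial.aeval (X (Sum.inl j) : MvPolynomial (B ⊕ B) Ω) p) = 0 := by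
  rw [Polynomial.aeval_eq_sum_range, map_sum]
  refine Finset.sum_eq_zero (fun m _ => ?_)
  rw [MvPolynomial.smul_eq_C_mul, Derivation.leibniz, dc_C, h m, C_0, smul_zero, add_zero,
    Derivation.leibniz_pow, dc_X, smul_zero, smul_zero, smul_zero]

/-- The derivations `D_j` commute. Proof. Two derivations over `Ω` with the same values on the variables
are equal; the commutator `⁅D_i, D_j⁆` is a derivation (or: induction on `H`); on the variables both sides
are `0` for `i ≠ j`. -/
theorem DD_comm {Ω B : Type*} [Field Ω] (q : B → Polynomial Ω) (i j : B)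
    (H : MvPolynomial (B ⊕ B) Ω) : DD q i (DD q j H) = DD q j (DD q i H) := by
  by_cases hij : i = j
  · rw [hij]
  have hvar : ∀ n, DD q i (DD q j (X n)) = 0 := by
    rintro (k | k)
    · by_cases hk : j = k
      · subst hk
        rw [E8b_inl_self, E8b_inr q i j hij]
      · rw [E8b_inl q j k hk, map_zero]
    · by_cases hk : j = k
      · subst hk
        rw [E8b_inr_self, Derivation.leibniz, E8b_C, smul_zero, add_zero, Derivation.map_aeval,
          E8b_inl q i j hij, smul_zero, smul_zero]
      · rw [E8b_inr q j k hk, map_zero]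
  have hvar' : ∀ n, DD q j (DD q i (X n)) = 0 := by
    have hji : j ≠ i := fun e => hij e.symm
    rintro (k | k)
    · by_cases hk : i = k
      · subst hk
        rw [E8b_inl_self, E8b_inr q j i hji]
      · rw [E8b_inl q i k hk, map_zero]
    · by_cases hk : i = k
      · subst hk
        rw [E8b_inr_self, Derivation.leibniz, E8b_C, smul_zero, add_zero, Derivation.map_aeval,
          E8b_inl q j i hji, smul_zero, smul_zero]
      · rw [E8b_inr q i k hk, map_zero]
  induction H using MvPolynomial.induction_on with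
  | C a => rw [E8b_C, E8b_C, map_zero, map_zero]
  | add p r hp hr => rw [map_add, map_add, map_add, map_add, hp, hr]
  | mul_X p n hp =>
    simp only [Derivation.leibniz, map_add, smul_eq_mul, hvar, hvar', hp]
    ring

/-- `dc δ` commutes with `D_j` if `δ` kills the coefficients of `q_j`. Proof. The commutator is a
derivation over `ℤ`; on constants and on the variables both sides are `0` (or: induction on `H`). -/
theorem dc_DD {Ω B : Type*} [Field Ω] (q : B → Polynomial Ω) (j : B) (δ : Derivation ℤ Ω Ω)
    (hδ : ∀ m, δ ((q j).coeff m) = 0) (H : MvPolynomial (B ⊕ B) Ω) :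
    dc (B ⊕ B) δ (DD q j H) = DD q j (dc (B ⊕ B) δ H) := by
  have h2 : δ (2⁻¹ : Ω) = 0 := by
    have h3 : δ (2 : Ω) = 0 := by
      have := δ.map_natCast 2
      simpa using this
    rw [Derivation.leibniz_inv, h3, smul_zero]
  have hcoef : ∀ m, δ ((Polynomial.derivative (q j)).coeff m) = 0 := by
    intro m
    rw [Polynomial.coeff_derivative, Derivation.leibniz, hδ, smul_zero, add_zero]
    have h3 : δ ((m : Ω) + 1) = 0 := by
      have := δ.map_natCast (m + 1)
      simpa using this
    rw [h3, smul_zero]
  have hvar : ∀ n, dc (B ⊕ B) δ (DD q j (X n)) = 0 := by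
    rintro (k | k)
    · by_cases hk : j = k
      · subst hk
        rw [E8b_inl_self, dc_X]
      · rw [E8b_inl q j k hk, map_zero]
    · by_cases hk : j = k
      · subst hk
        rw [E8b_inr_self, Derivation.leibniz, dc_C, h2, C_0, smul_zero, add_zero,
          E8b_poly δ j _ hcoef, smul_zero]
      · rw [E8b_inr q j k hk, map_zero]
  induction H using MvPolynomial.induction_on with
  | C a => rw [E8b_C, dc_C, E8b_C, map_zero]
  | add p r hp hr => rw [map_add, map_add, map_add, map_add, hp, hr]
  | mul_X p n hp =>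
    simp only [Derivation.leibniz, map_add, smul_eq_mul, hvar, dc_X, hp, map_zero, mul_zero]
    ring

/-- `D_j` on polynomials in `S` only. -/
theorem DD_rename {Ω B : Type*} [Field Ω] (q : B → Polynomial Ω) (j : B) (H : MvPolynomial B Ω) :
    DD q j (rename Sum.inl H) = X (Sum.inr j) * rename Sum.inl (pderiv j H) := by
  classical
  rw [DD_apply, pderiv_rename Sum.inl_injective]
  have h : pderiv (Sum.inr j) (rename (Sum.inl : B → B ⊕ B) H) = 0 := by
    refine pderiv_eq_zero_of_notMem_vars ?_
    intro hmem
    have h1 := vars_rename (Sum.inl : B → B ⊕ B) H hmem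
    simp at h1
  rw [h, mul_zero, add_zero]

end Pool.Agent.Lib.MP_17a322_nt.VN
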