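import Pool.Agent.Lib.MP_17a322_nt.VN.E8a
import Pool.Agent.Lib.MP_17a322_nt.VN.E8b

/-!
Chain rule for points with square roots.
-/

namespace Pool.Agent.Lib.MP_17a322_nt.VN

open MvPolynomial

/-- If `Δ` extends `δ` on `Ω`, `Δ x_l = v_l y_l` and `Δ y_l = v_l q_l'(x_l) / 2` for all `l` (`v : B → L`), then
`Δ (H(x, y)) = (dc δ H)(x, y) + ∑ v_l (D_l H)(x, y)`. Proof. `chain` for the index type `B ⊕ B`. -/
theorem chain_DD {Ω L B : Type*} [Fintype B] [Field Ω] [CharZero Ω] [Field L] [Algebra Ω L]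
    (q : B → Polynomial Ω) (δ : Derivation ℤ Ω Ω) (Δ : Derivation ℤ L L)
    (h : ∀ a, Δ (algebraMap Ω L a) = algebraMap Ω L (δ a)) (x y v : B → L)
    (hx : ∀ l, Δ (x l) = v l * y l)
    (hy : ∀ l, Δ (y l) = v l * (Polynomial.aeval (x l) (Polynomial.derivative (q l)) / 2))
    (H : MvPolynomial (B ⊕ B) Ω) :
    Δ (aeval (Sum.elim x y) H) = aeval (Sum.elim x y) (dc (B ⊕ B) δ H) +
      ∑ l, v l * aeval (Sum.elim x y) (DD q l H) := by
  rw [chain δ Δ h (Sum.elim x y) H, Fintype.sum_sum_type, ← Finset.sum_add_distrib]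
  congr 1
  refine Finset.sum_congr rfl fun l _ => ?_
  have h1 : aeval (Sum.elim x y) (Polynomial.aeval (X (Sum.inl l) : MvPolynomial (B ⊕ B) Ω)
      (Polynomial.derivative (q l))) =
      Polynomial.aeval (x l) (Polynomial.derivative (q l)) := by
    rw [← Polynomial.aeval_algHom_apply, aeval_X, Sum.elim_inl]
  rw [DD_apply, map_add, map_mul, map_mul, map_mul, h1, aeval_X, aeval_C, Sum.elim_inr,
    Sum.elim_inl, hx, hy, map_inv₀, map_ofNat]
  ring

end Pool.Agent.Lib.MP_17a322_nt.VN
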