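import Pool.Agent.Lib.MP_17a322_nt.VN.E5
import Pool.Agent.Lib.MP_17a322_nt.VN.E8

/-!
Derivations on the function field of a generic point.
-/

namespace Pool.Agent.Lib.MP_17a322_nt.VN

open MvPolynomial

private theorem E14a_y {Ω L B : Type*} [Field Ω] [CharZero Ω] [Field L]
    [Algebra Ω L] {q : B → Polynomial Ω} {r : B} {G : MvPolynomial B Ω} {c : B → Ω} {x y : B → L}
    (h : GP q r G c x y) (D : Derivation ℤ L L)
    (hq : ∀ t m, D (algebraMap Ω L ((q t).coeff m)) = 0) (l : B) (w : L)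
    (hx : D (x l) = w * y l) :
    D (y l) = w * (Polynomial.aeval (x l) (Polynomial.derivative (q l)) / 2) := by
  have h1 := congrArg D (h.sq l)
  rw [chain_poly D (q l) (hq l) (x l), pow_two, Derivation.leibniz, smul_eq_mul, hx] at h1
  have hc : CharZero L := charZero_of_injective_algebraMap (algebraMap Ω L).injective
  have h2 : (2 : L) ≠ 0 := two_ne_zero
  have h3 : y l * (D (y l) - w * (Polynomial.aeval (x l) (Polynomial.derivative (q l)) / 2)) = 0 := by
    field_simp
    linear_combination h1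
  exact sub_eq_zero.1 ((mul_eq_zero.1 h3).resolve_left (h.ne l))

/-- The derivation `∂_i`. Proof. `exists_derivation` (E4) for the family `x t`, `t ≠ r`, with `δ = 0` and the
values `y i` at `i` and `0` elsewhere. For `l ≠ r` differentiate `y_l^2 = q_l(x_l)` (`chain_poly`):
`2 y_l D y_l = q_l'(x_l) D x_l`, `y_l ≠ 0`. Differentiate `G(x) = 0` (`chain` with `δ = 0`, `dc _ 0 = 0`):
`∂_i G(x) y_i + ∂_r G(x) D x_r = 0`; compare with `slope`: `D x_r = c_i y_r`. Finally `y_r^2 = q_r(x_r)`. -/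
theorem GP.dpart {Ω L B : Type*} [Fintype B] [DecidableEq B] [Field Ω] [CharZero Ω] [Field L]
    [Algebra Ω L] {q : B → Polynomial Ω} {r : B} {G : MvPolynomial B Ω} {c : B → Ω} {x y : B → L}
    (h : GP q r G c x y) (i : B) (hi : i ≠ r) : ∃ D : Derivation ℤ L L,
      (∀ a, D (algebraMap Ω L a) = 0) ∧ (∀ l, l ≠ r → D (x l) = if l = i then y i else 0) ∧
      D (x r) = algebraMap Ω L (c i) * y r ∧
      (∀ l, l ≠ r → D (y l) =
        if l = i then Polynomial.aeval (x i) (Polynomial.derivative (q i)) / 2 else 0) ∧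
      D (y r) = algebraMap Ω L (c i) * (Polynomial.aeval (x r) (Polynomial.derivative (q r)) / 2) := by
  obtain ⟨D, hD, hDx⟩ := exists_derivation (fun t : {t : B // t ≠ r} => x t) h.ind h.alg
    (0 : Derivation ℤ Ω L) (fun t => if (t : B) = i then y i else 0)
  have hD0 : ∀ a, D (algebraMap Ω L a) = 0 := fun a => by rw [hD]; rfl
  have hx : ∀ l, l ≠ r → D (x l) = if l = i then y i else 0 := fun l hl => hDx ⟨l, hl⟩
  have hq : ∀ t m, D (algebraMap Ω L ((q t).coeff m)) = 0 := fun t m => hD0 _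
  have hxr : D (x r) = algebraMap Ω L (c i) * y r := by
    have h1 := chain (0 : Derivation ℤ Ω Ω) D
      (fun a => by rw [hD0, Derivation.zero_apply, map_zero]) x G
    have h2 : dc B (0 : Derivation ℤ Ω Ω) G = 0 := by
      ext m
      rw [coeff_dc, coeff_zero]
      rfl
    rw [h.zero, map_zero, h2, map_zero, zero_add,
      Finset.sum_eq_add (s := Finset.univ) i r hi
        (fun j _ hj => by rw [hx j hj.2, if_neg hj.1, mul_zero])
        (fun hc => absurd (Finset.mem_univ i) hc) (fun hc => absurd (Finset.mem_univ r) hc),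
      hx i hi, if_pos rfl] at h1
    have h3 := h.slope i hi
    have h4 : aeval x (pderiv r G) * (D (x r) - algebraMap Ω L (c i) * y r) = 0 := by
      linear_combination -h1 - h3
    exact sub_eq_zero.1 ((mul_eq_zero.1 h4).resolve_left h.der)
  refine ⟨D, hD0, hx, hxr, ?_, E14a_y h D hq r _ hxr⟩
  intro l hl
  by_cases hli : l = i
  · subst hli
    rw [if_pos rfl]
    have h1 := E14a_y h D hq l 1 (by rw [hx l hl, if_pos rfl, one_mul])
    rw [h1, one_mul]
  · rw [if_neg hli]
    have h1 := E14a_y h D hq l 0 (by rw [hx l hl, if_neg hli, zero_mul])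
    rw [h1, zero_mul]

/-- The lift of a derivation `δ` of `Ω` that kills the coefficients of the `q t`. Proof. As before, with
values `0` at all `x t`, `t ≠ r`; `ψ = D x_r / y_r`. -/
theorem GP.lift {Ω L B : Type*} [Fintype B] [Field Ω] [CharZero Ω] [Field L]
    [Algebra Ω L] {q : B → Polynomial Ω} {r : B} {G : MvPolynomial B Ω} {c : B → Ω} {x y : B → L}
    (h : GP q r G c x y) (δ : Derivation ℤ Ω Ω) (hδ : ∀ t m, δ ((q t).coeff m) = 0) :
    ∃ (D : Derivation ℤ L L) (ψ : L), (∀ a, D (algebraMap Ω L a) = algebraMap Ω L (δ a)) ∧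
      (∀ l, l ≠ r → D (x l) = 0) ∧ (∀ l, l ≠ r → D (y l) = 0) ∧ D (x r) = ψ * y r ∧
      D (y r) = ψ * (Polynomial.aeval (x r) (Polynomial.derivative (q r)) / 2) := by
  obtain ⟨D, hD, hDx⟩ := exists_derivation (fun t : {t : B // t ≠ r} => x t) h.ind h.alg
    ((Algebra.linearMap Ω L).compDer δ) (fun _ => 0)
  have hD1 : ∀ a, D (algebraMap Ω L a) = algebraMap Ω L (δ a) := fun a => by rw [hD]; rfl
  have hx : ∀ l, l ≠ r → D (x l) = 0 := fun l hl => hDx ⟨l, hl⟩
  have hq : ∀ t m, D (algebraMap Ω L ((q t).coeff m)) = 0 := fun t m => by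
    rw [hD1, hδ, map_zero]
  have hxr : D (x r) = D (x r) / y r * y r := (div_mul_cancel₀ _ (h.ne r)).symm
  refine ⟨D, D (x r) / y r, hD1, hx, ?_, hxr, E14a_y h D hq r _ hxr⟩
  intro l hl
  have h1 := E14a_y h D hq l 0 (by rw [hx l hl, zero_mul])
  rw [h1, zero_mul]

end Pool.Agent.Lib.MP_17a322_nt.VN
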