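import Pool.Agent.Lib.MP_17a322_nt.VN.E11
import Pool.Agent.Lib.MP_17a322_nt.VN.E12
import Pool.Agent.Lib.MP_17a322_nt.VN.E16a

/-!
LEMMA PSI.
-/

namespace Pool.Agent.Lib.MP_17a322_nt.VN

open MvPolynomial

private theorem E16_sum {L B : Type*} [Fintype B] [DecidableEq B] [Field L] (i r : B) (hi : i ≠ r)
    (e : L) (F : B → L) :
    ∑ l, (if l = i then 1 else if l = r then e else 0) * F l = F i + e * F r := by
  have h1 : ∀ l, (if l = i then 1 else if l = r then e else 0) * F l =
      (if l = i then F l else 0) + (if l = r then e * F l else 0) := by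
    intro l
    by_cases h : l = i
    · have h' : l ≠ r := fun h2 => hi (h.symm.trans h2)
      rw [if_pos h, if_pos h, if_neg h']
      ring
    · rw [if_neg h, if_neg h]
      split_ifs <;> ring
  simp only [h1, Finset.sum_add_distrib, Finset.sum_ite_eq', Finset.mem_univ, if_true]

private theorem E16_sum' {L B : Type*} [Fintype B] [DecidableEq B] [Field L] (r : B)
    (e : L) (F : B → L) :
    ∑ l, (if l = r then e else 0) * F l = e * F r := by
  simp only [ite_mul, zero_mul, Finset.sum_ite_eq', Finset.mem_univ, if_true]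

/-- LEMMA PSI. Proof. Take `D`, `ψ` from `psi_const` (`hc` from `tau`). If `ψ = 0` use `dc_eq_zero`. Suppose
`ψ ≠ 0`. Let `I` be the kernel of `aeval (Sum.elim x y) : MvPolynomial (B ⊕ B) Ω → L`. It contains
`X (inr j) ^ 2 - q_j(X (inl j))` (`h.sq`). `rename inl H ∈ I` means `H(x) = 0`, so `G ∣ H` (`generic_dvd`) and
`eval p H = 0`: by `exists_lift` (E11) there is `y'` with `y'_j^2 = q_j(p_j)` and `I ⊆ ker (eval (p, y'))`. The
conditions `hV`, `hδI` of `core` (E12) follow from `chain_DD` (E8) for `∂_i` (`GP.dpart`, `δ = 0`,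
`v l = 1` for `l = i`, `v r = c i`, `0` otherwise) and for `D` (`v r = ψ`, `0` otherwise). `core` gives `G = 0`, a
contradiction. -/
theorem psi_zero {Ω L B : Type*} [Fintype B] [Field Ω] [CharZero Ω]
    [IsAlgClosed Ω] [Field L] [Algebra Ω L] {q : B → Polynomial Ω} {r : B} {G : MvPolynomial B Ω}
    {c : B → Ω} {x y : B → L} (h : GP q r G c x y) (hG : Irreducible G)
    (hq : ∀ t, (q t).Separable) (hqd : ∀ t, 3 ≤ (q t).natDegree) (m₀ : B →₀ ℕ)
    (hm : coeff m₀ G = 1) (δ : Derivation ℤ Ω Ω) (hδ : ∀ t m, δ ((q t).coeff m) = 0) (p : B → Ω)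
    (hp : eval p G = 0) (hδp : ∀ t, δ (p t) = 0) (m : B →₀ ℕ) : δ (coeff m G) = 0 := by
  classical
  have hc : ∀ i, i ≠ r → δ (c i) = 0 := fun i hi =>
    tau h hq hqd δ hδ i hi
  obtain ⟨D, ψ, hD, hDx, hDy, hDr, hDyr⟩ := psi_const h δ hδ hc
  by_cases hψ : ψ = 0
  · have hDx' : ∀ l, D (x l) = 0 := by
      intro l
      by_cases hl : l = r
      · rw [hl, hDr, hψ, map_zero, zero_mul]
      · exact hDx l hl
    exact dc_eq_zero r x h.ind G hG h.zero m₀ hm δ D hD hDx' m
  · exfalso
    obtain ⟨I, hI⟩ : ∃ I : Ideal (MvPolynomial (B ⊕ B) Ω),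
        ∀ H, H ∈ I ↔ aeval (Sum.elim x y) H = 0 :=
      ⟨RingHom.ker (aeval (Sum.elim x y) : MvPolynomial (B ⊕ B) Ω →ₐ[Ω] L),
        fun H => RingHom.mem_ker⟩
    have hY : ∀ j, X (Sum.inr j) ^ 2 -
        Polynomial.aeval (X (Sum.inl j) : MvPolynomial (B ⊕ B) Ω) (q j) ∈ I := by
      intro j
      rw [hI, map_sub, map_pow, aeval_X, Sum.elim_inr, ← Polynomial.aeval_algHom_apply, aeval_X,
        Sum.elim_inl, h.sq j, sub_self]
    have hgen : ∀ H : MvPolynomial B Ω, rename Sum.inl H ∈ I → eval p H = 0 := by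
      intro H hH
      rw [hI, aeval_rename, Sum.elim_comp_inl] at hH
      obtain ⟨b, rfl⟩ := generic_dvd r x h.ind G H hG h.zero hH
      rw [map_mul, hp, zero_mul]
    obtain ⟨y', hy', hI'⟩ := exists_lift q I hY p hgen
    have hV : ∀ i, i ≠ r → ∀ H ∈ I, DD q i H + C (c i) * DD q r H ∈ I := by
      intro i hi H hH
      obtain ⟨E, hE, hEx, hEr, hEy, hEyr⟩ := h.dpart i hi
      have key := chain_DD q 0 E (by intro a; rw [hE]; simp) x y
        (fun l => if l = i then 1 else if l = r then algebraMap Ω L (c i) else 0) (by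
          intro l
          by_cases hl : l = r
          · have hl' : l ≠ i := fun h2 => hi (h2.symm.trans hl)
            rw [if_neg hl', if_pos hl, hl]
            exact hEr
          · rw [hEx l hl]
            by_cases hl' : l = i
            · rw [if_pos hl', if_pos hl', hl', one_mul]
            · rw [if_neg hl', if_neg hl', if_neg hl, zero_mul]) (by
          intro l
          by_cases hl : l = r
          · have hl' : l ≠ i := fun h2 => hi (h2.symm.trans hl)
            rw [if_neg hl', if_pos hl, hl]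
            exact hEyr
          · rw [hEy l hl]
            by_cases hl' : l = i
            · rw [if_pos hl', if_pos hl', hl', one_mul]
            · rw [if_neg hl', if_neg hl', if_neg hl, zero_mul]) H
      rw [(hI H).1 hH, map_zero, E16_sum i r hi] at key
      have h0 : dc (B ⊕ B) (0 : Derivation ℤ Ω Ω) H = 0 := by
        ext m
        rw [coeff_dc, coeff_zero]
        rfl
      rw [h0, map_zero, zero_add] at key
      rw [hI, map_add, map_mul, aeval_C]
      exact key.symm
    have hδI : ∀ H ∈ I, dc (B ⊕ B) δ H + C ψ * DD q r H ∈ I := by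
      intro H hH
      have key := chain_DD q δ D hD x y (fun l => if l = r then algebraMap Ω L ψ else 0) (by
          intro l
          by_cases hl : l = r
          · rw [if_pos hl, hl]
            exact hDr
          · rw [hDx l hl, if_neg hl, zero_mul]) (by
          intro l
          by_cases hl : l = r
          · rw [if_pos hl, hl]
            exact hDyr
          · rw [hDy l hl, if_neg hl, zero_mul]) H
      rw [(hI H).1 hH, map_zero, E16_sum' r] at key
      rw [hI, map_add, map_mul, aeval_C]
      exact key.symm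
    refine hG.ne_zero (core q hq δ hδ r c ψ hψ I hY hV hδI p y' hδp hy' hI' G ?_)
    rw [hI, aeval_rename, Sum.elim_comp_inl]
    exact h.zero

end Pool.Agent.Lib.MP_17a322_nt.VN
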