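import Pool.Agent.Lib.MP_17a322_nt.Mb

/-!
A prime over the elimination ideal.
-/

universe u

namespace Pool.Agent.Lib.MP_17a322_nt.VN

open MvPolynomial

/-- Proof. The submonoid `{rename a | ¬ h ∣ a}` (a submonoid since `h` is prime) does not meet `I`, so there is a
prime `P ≥ I` that does not meet it (`Ideal.exists_le_prime_disjoint`). Let `Ω` be the algebraic closure of
the fraction field of `MvPolynomial (Fin n) k ⧸ P` and `p t` the image of `X t`; `aeval p a = 0 ↔ a ∈ P`. Choose
`i ∈ J` with `h.degreeOf i ≠ 0` (`h` is not constant). If `a` is a polynomial in the variables `t ∈ J`, `t ≠ i`, that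
vanishes at `p`, then (as a polynomial in `MvPolynomial J k`) `h ∣ a`, and `a.degreeOf i = 0` gives `a = 0`. -/
theorem elim_point {k : Type u} [Field k] {n : ℕ} (J : Finset (Fin n))
    (I : Ideal (MvPolynomial (Fin n) k)) (h : MvPolynomial J k) (hh : Irreducible h)
    (hI : ∀ a : MvPolynomial J k, rename Subtype.val a ∈ I → h ∣ a) :
    ∃ (Ω : Type u) (_ : Field Ω) (_ : IsAlgClosed Ω) (_ : Algebra k Ω) (p : Fin n → Ω) (i : Fin n),
      i ∈ J ∧ (∀ a ∈ I, aeval p a = 0) ∧
      AlgebraicIndependent k (fun t : {t : Fin n // t ∈ J ∧ t ≠ i} => p t) := by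
  classical
  have hprime : Prime h := hh.prime
  have hP1 : (Ideal.span {h} : Ideal (MvPolynomial J k)).IsPrime :=
    (Ideal.span_singleton_prime hprime.ne_zero).2 hprime
  let S : Submonoid (MvPolynomial (Fin n) k) :=
    (Ideal.span {h} : Ideal (MvPolynomial J k)).primeCompl.map
      (rename (Subtype.val : J → Fin n) : MvPolynomial J k →ₐ[k] MvPolynomial (Fin n) k)
  have hdisj : Disjoint (I : Set (MvPolynomial (Fin n) k)) S := by
    rw [Set.disjoint_left]
    rintro x hx ⟨a, ha, rfl⟩
    exact ha (Ideal.mem_span_singleton.2 (hI a hx))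
  obtain ⟨P, hP, hIP, hPS⟩ := Ideal.exists_le_prime_disjoint I S hdisj
  have hdom : IsDomain (MvPolynomial (Fin n) k ⧸ P) := Ideal.Quotient.isDomain P
  let K := FractionRing (MvPolynomial (Fin n) k ⧸ P)
  let Ω := AlgebraicClosure K
  let φ : MvPolynomial (Fin n) k →ₐ[k] Ω :=
    (IsScalarTower.toAlgHom k K Ω).comp
      ((IsScalarTower.toAlgHom k (MvPolynomial (Fin n) k ⧸ P) K).comp (Ideal.Quotient.mkₐ k P))
  have hφ : ∀ a, φ a = 0 ↔ a ∈ P := by
    intro a
    change algebraMap K Ω (algebraMap (MvPolynomial (Fin n) k ⧸ P) K (Ideal.Quotient.mk P a)) = 0 ↔ _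
    rw [map_eq_zero, FaithfulSMul.algebraMap_eq_zero_iff, Ideal.Quotient.eq_zero_iff_mem]
  have hφa : ∀ a, aeval (fun t => φ (X t)) a = φ a := by
    intro a
    have h1 : aeval (fun t => φ (X t)) = φ := by
      apply MvPolynomial.algHom_ext
      intro t
      rw [aeval_X]
    rw [h1]
  have hi : ∃ i : J, h.degreeOf i ≠ 0 := by
    by_contra hcon
    push Not at hcon
    have h1 : h = C (coeff 0 h) := by
      ext m
      rw [coeff_C]
      split_ifs with hm
      · rw [hm]
      · by_contra hne
        apply hm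
        ext i
        have h2 := monomial_le_degreeOf i (mem_support_iff.2 hne)
        rw [hcon i] at h2
        rw [Finsupp.zero_apply]
        omega
    by_cases h0 : coeff 0 h = 0
    · rw [h0, C_0] at h1
      exact hprime.ne_zero h1
    · apply hh.not_isUnit
      rw [h1]
      exact (isUnit_iff_ne_zero.2 h0).map C
  obtain ⟨i, hi⟩ := hi
  refine ⟨Ω, inferInstance, inferInstance, inferInstance, fun t => φ (X t), i, i.2, ?_, ?_⟩
  · intro a ha
    rw [hφa]
    exact (hφ a).2 (hIP ha)
  · rw [algebraicIndependent_iff]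
    intro q hq
    let ρ : {t : Fin n // t ∈ J ∧ t ≠ i} → J := fun t => ⟨t.1, t.2.1⟩
    have hρ : Function.Injective ρ := by
      intro a b hab
      apply Subtype.ext
      exact congrArg (fun x : J => (x : Fin n)) hab
    have h1 : aeval (fun t => φ (X t)) (rename (Subtype.val : J → Fin n) (rename ρ q)) = 0 := by
      rw [aeval_rename, aeval_rename]
      exact hq
    rw [hφa, hφ] at h1
    have h2 : rename ρ q ∈ (Ideal.span {h} : Ideal (MvPolynomial J k)) := by
      by_contra hcon
      exact Set.disjoint_left.1 hPS h1 ⟨rename ρ q, hcon, rfl⟩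
    obtain ⟨b, hb⟩ := Ideal.mem_span_singleton.1 h2
    have h3 : rename ρ q = 0 := by
      by_contra hne
      have hb0 : b ≠ 0 := by
        rintro rfl
        rw [mul_zero] at hb
        exact hne hb
      have h4 : (rename ρ q).degreeOf i = h.degreeOf i + b.degreeOf i := by
        rw [hb, degreeOf_mul_eq hprime.ne_zero hb0]
      have h5 : (rename ρ q).degreeOf i = 0 := by
        rw [← Nat.le_zero, degreeOf_le_iff]
        intro m hm
        have h6 : i ∉ (rename ρ q).vars := by
          intro h7
          obtain ⟨t, _, ht⟩ := mem_vars_rename ρ q h7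
          exact t.2.2 (congrArg (fun x : J => (x : Fin n)) ht)
        exact (mem_support_notMem_vars_zero hm h6).le
      omega
    exact rename_injective ρ hρ (by rw [h3, map_zero])

end Pool.Agent.Lib.MP_17a322_nt.VN
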