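import Pool.Agent.Lib.MP_17a322_nt.Mb

/-!
Prime avoidance.
-/

namespace Pool.Agent.Lib.MP_17a322_nt.VN

open MvPolynomial

/-- Proof. If `I = ⊥` any irreducible element works. Otherwise take `a ∈ I`, `a ≠ 0`. If some normalised
irreducible factor `h` of `a` divides all elements of `I` we are done. Otherwise `I` is not contained in any
of the finitely many prime ideals `Ideal.span {h}`, `h ∈ normalizedFactors a`, hence not in their union
(`Ideal.subset_union_prime`): there is `b ∈ I` not divisible by any irreducible factor of `a`, so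
`IsRelPrime a b`. -/
theorem avoidance {R : Type*} [CommRing R] [IsDomain R] [UniqueFactorizationMonoid R]
    (I : Ideal R) (h₀ : R) (hh : Irreducible h₀) :
    (∃ a ∈ I, ∃ b ∈ I, IsRelPrime a b) ∨ ∃ h, Irreducible h ∧ ∀ a ∈ I, h ∣ a := by
  classical
  by_cases hI : I = ⊥
  · refine Or.inr ⟨h₀, hh, fun a ha => ?_⟩
    rw [hI, Ideal.mem_bot] at ha
    rw [ha]
    exact dvd_zero h₀
  obtain ⟨a, haI, ha⟩ := Submodule.exists_mem_ne_zero_of_ne_bot hI
  by_cases hex : ∃ h, Irreducible h ∧ ∀ a ∈ I, h ∣ a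
  · exact Or.inr hex
  left
  let f : Multiset R := UniqueFactorizationMonoid.factors a
  have hfirr : ∀ h ∈ f, Irreducible h := fun h hh => UniqueFactorizationMonoid.irreducible_of_factor h hh
  have hnot : ¬ ((I : Set R) ⊆ ⋃ i ∈ (↑f.toFinset : Set R), (Ideal.span {i} : Ideal R)) := by
    intro hsub
    rw [Ideal.subset_union_prime (s := f.toFinset) (f := fun i : R => Ideal.span {i}) h₀ h₀
      (fun i hi _ _ => ?_)] at hsub
    · obtain ⟨i, hi, hle⟩ := hsub
      exact hex ⟨i, hfirr i (Multiset.mem_toFinset.mp hi), fun b hb =>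
        Ideal.mem_span_singleton.mp (hle hb)⟩
    · have hir := hfirr i (Multiset.mem_toFinset.mp hi)
      exact (Ideal.span_singleton_prime hir.ne_zero).mpr hir.prime
  rw [Set.not_subset] at hnot
  obtain ⟨b, hbI, hb⟩ := hnot
  refine ⟨a, haI, b, hbI, ?_⟩
  intro c hca hcb
  by_contra hc
  have hc0 : c ≠ 0 := fun h0 => ha (zero_dvd_iff.mp (h0 ▸ hca))
  obtain ⟨p, hp, hpc⟩ := WfDvdMonoid.exists_irreducible_factor hc hc0
  obtain ⟨p', hp', hass⟩ := UniqueFactorizationMonoid.exists_mem_factors_of_dvd ha hp (hpc.trans hca)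
  apply hb
  rw [Set.mem_iUnion₂]
  refine ⟨p', Finset.mem_coe.mpr (Multiset.mem_toFinset.mpr hp'), ?_⟩
  exact Ideal.mem_span_singleton.mpr (hass.symm.dvd.trans (hpc.trans hcb))

end Pool.Agent.Lib.MP_17a322_nt.VN
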