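import Pool.Agent.Lib.MP_17a322_nt.VN.E19a

/-!
Counting transcendence degrees.
-/

namespace Pool.Agent.Lib.MP_17a322_nt.VN

private theorem E19_trans {K L : Type*} [Field K] [Field L] [Algebra K L] {S T : Set L}
    (h : ∀ y ∈ S, IsAlgebraic (IntermediateField.adjoin K T) y) {x : L}
    (hx : IsAlgebraic (IntermediateField.adjoin K S) x) :
    IsAlgebraic (IntermediateField.adjoin K T) x := by
  let C : IntermediateField (IntermediateField.adjoin K T) L :=
    algebraicClosure (IntermediateField.adjoin K T) L
  have h1 : IntermediateField.adjoin K S ≤ C.restrictScalars K := by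
    rw [IntermediateField.adjoin_le_iff]
    intro y hy
    exact mem_algebraicClosure_iff.mpr (h y hy)
  have h2 : IsAlgebraic (C.restrictScalars K) x :=
    IsAlgebraic.tower_top_of_subalgebra_le (A := (IntermediateField.adjoin K S).toSubalgebra)
      (B := (C.restrictScalars K).toSubalgebra) h1 hx
  have h3 : IsAlgebraic C x := h2
  exact h3.restrictScalars _

private theorem E19_map {K k F : Type*} [Field K] [Field k] [Field F] [Algebra K k] [Algebra k F]
    [Algebra K F] [IsScalarTower K k F] (V : Set k) {v : k}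
    (hv : IsAlgebraic (IntermediateField.adjoin K V) v) :
    IsAlgebraic (IntermediateField.adjoin K (algebraMap k F '' V)) (algebraMap k F v) := by
  have h1 : ∀ x : IntermediateField.adjoin K V,
      ((algebraMap k F).comp (algebraMap (IntermediateField.adjoin K V) k)) x ∈
        IntermediateField.adjoin K (algebraMap k F '' V) := by
    intro x
    have h2 : (IsScalarTower.toAlgHom K k F) x.1 ∈
        (IntermediateField.adjoin K V).map (IsScalarTower.toAlgHom K k F) :=
      ⟨x.1, x.2, rfl⟩
    rw [IntermediateField.adjoin_map] at h2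
    exact h2
  refine hv.ringHom_of_comp_eq
    (((algebraMap k F).comp (algebraMap (IntermediateField.adjoin K V) k)).codRestrict _ h1)
    (algebraMap k F) (RingHom.injective _) ?_
  rfl

private theorem E19_self {K L : Type*} [Field K] [Field L] [Algebra K L] {S : Set L} {x : L}
    (hx : x ∈ S) : IsAlgebraic (IntermediateField.adjoin K S) x :=
  isAlgebraic_algebraMap (R := IntermediateField.adjoin K S) (A := L)
    ⟨x, IntermediateField.subset_adjoin K S hx⟩

private theorem E19_base {K k : Type*} [Field K] [Field k] [Algebra K k] (V : Set k) :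
    ∃ V₀ : Set k, V₀ ⊆ V ∧ AlgebraicIndependent K (Subtype.val : V₀ → k) ∧
      ∀ v ∈ V, IsAlgebraic (IntermediateField.adjoin K V₀) v := by
  obtain ⟨V₀, -, hV₀⟩ := exists_maximal_algebraicIndependent (R := K) ∅ V (Set.empty_subset V)
    ((algebraicIndependent_empty_iff K k).mpr (FaithfulSMul.algebraMap_injective K k))
  refine ⟨V₀, hV₀.prop.2, hV₀.prop.1, ?_⟩
  intro v hv
  by_cases hv0 : v ∈ V₀
  · exact E19_self hv0
  · by_contra hna
    have h1 : Transcendental (Algebra.adjoin K (id '' V₀)) (id v) := by
      rw [Set.image_id, id]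
      intro halg
      exact hna (IsAlgebraic.tower_top_of_subalgebra_le
        (B := (IntermediateField.adjoin K V₀).toSubalgebra)
        (IntermediateField.algebra_adjoin_le_adjoin K V₀) halg)
    have h2 : AlgebraicIndepOn K id (insert v V₀) :=
      (AlgebraicIndepOn.insert_iff hv0).mpr ⟨hV₀.prop.1, h1⟩
    have h3 : insert v V₀ ⊆ V₀ := hV₀.le_of_ge ⟨h2, Set.insert_subset hv hV₀.prop.2⟩
      (Set.subset_insert v V₀)
    exact hv0 (h3 (Set.mem_insert v V₀))

/-- The count. Proof. Let `V₀ ⊆ V` be such that the elements of `V₀` are algebraically independent over `K`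
and every element of `V` is algebraic over `K(V₀)` (`exists_isTranscendenceBasis_subset` for the field
`K(V)`). In `Ω` the family `V₀` (mapped) together with the `p t`, `t ∈ J`, `t ≠ i`, is algebraically independent
over `K` (`V₀` is independent over `K` in `k`, the `p t` over `k`: Mathlib `AlgebraicIndependent.sumElim..`), and
all its members are algebraic over `K(p)`. In `F` the `n` independent elements `s t` are algebraic over
`K(V₀, s_J)` (transitivity), so by `indep_card_le` `n ≤ |V₀| + |J|` (`V₀` is finite by the first family). Choose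
`T ⊆ Fin n` by `exists_basis_subset` for `p`; `|V₀| + |J| - 1 ≤ |T|` by `indep_card_le`. So `n - 1 ≤ |T|`, hence
there is `j` such that all `t ≠ j` are in `T` (if `n = 0` there is no `i ∈ J`). -/
theorem count {K k F Ω : Type*} [Field K] [Field k] [Field F] [Field Ω] [Algebra K k]
    [Algebra k F] [Algebra K F] [IsScalarTower K k F] [Algebra k Ω] [Algebra K Ω]
    [IsScalarTower K k Ω] {n : ℕ} (V : Set k) (J : Finset (Fin n)) (s : Fin n → F)
    (hs : AlgebraicIndependent K s)
    (hsV : ∀ t, IsAlgebraic (IntermediateField.adjoin K (algebraMap k F '' V ∪ s '' J)) (s t))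
    (p : Fin n → Ω) (i : Fin n) (hi : i ∈ J)
    (hp : AlgebraicIndependent k (fun t : {t : Fin n // t ∈ J ∧ t ≠ i} => p t))
    (hpV : ∀ v ∈ V, IsAlgebraic (IntermediateField.adjoin K (Set.range p)) (algebraMap k Ω v)) :
    ∃ j : Fin n, AlgebraicIndependent K (fun t : {t : Fin n // t ≠ j} => p t) := by
  classical
  obtain ⟨V₀, hV₀V, hV₀i, hV₀a⟩ := E19_base (K := K) V
  obtain ⟨T, hTi, hTa⟩ := exists_basis_subset (K := K) p
  have hsum : AlgebraicIndependent K
      (Sum.elim (fun t : {t : Fin n // t ∈ J ∧ t ≠ i} => p t)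
        (algebraMap k Ω ∘ (Subtype.val : V₀ → k))) := hV₀i.sumElim_comp hp
  have hrT : Set.range (fun t : T => p t) = p '' T := (Set.image_eq_range p T).symm
  have h1 := indep_card_le (K := K) _ hsum (fun t : T => p t) (by
    rw [hrT]
    rintro (t | v)
    · exact hTa t
    · refine E19_trans (S := Set.range p) ?_ (hpV v (hV₀V v.2))
      rintro y ⟨t, rfl⟩
      exact hTa t)
  obtain ⟨hfin, hcard1⟩ := h1
  have hV₀fin : Finite V₀ := Finite.sum_right {t : Fin n // t ∈ J ∧ t ≠ i}
  have h2 := indep_card_le (K := K) s hs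
    (Sum.elim (fun t : J => s t) (fun v : V₀ => algebraMap k F v)) (by
    intro t
    refine E19_trans ?_ (hsV t)
    have hw1 : ∀ v ∈ V₀, algebraMap k F v ∈
        Set.range (Sum.elim (fun t : J => s t) (fun v : V₀ => algebraMap k F v)) :=
      fun v hv => ⟨Sum.inr ⟨v, hv⟩, rfl⟩
    have hw2 : ∀ t ∈ J, s t ∈
        Set.range (Sum.elim (fun t : J => s t) (fun v : V₀ => algebraMap k F v)) :=
      fun t ht => ⟨Sum.inl ⟨t, ht⟩, rfl⟩
    rintro y (⟨v, hv, rfl⟩ | ⟨t, ht, rfl⟩)
    · refine E19_trans (S := algebraMap k F '' V₀) ?_ (E19_map V₀ (hV₀a v hv))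
      rintro z ⟨v', hv', rfl⟩
      exact E19_self (hw1 v' hv')
    · exact E19_self (hw2 t ht))
  have hcard2 := h2.2
  have hJ : Nat.card {t : Fin n // t ∈ J ∧ t ≠ i} = J.card - 1 := by
    rw [Nat.card_eq_fintype_card, Fintype.card_of_subtype (J.erase i), Finset.card_erase_of_mem hi]
    intro x
    rw [Finset.mem_erase, and_comm]
  have hJ1 : 1 ≤ J.card := Finset.card_pos.mpr ⟨i, hi⟩
  rw [Nat.card_sum, hJ] at hcard1
  rw [Nat.card_sum, Nat.card_eq_fintype_card, Fintype.card_fin, Nat.card_eq_fintype_card,
    Fintype.card_coe] at hcard2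
  have hT : Nat.card T = (Finset.univ.filter (fun t => t ∈ T)).card := by
    rw [Nat.card_eq_fintype_card, Fintype.card_of_subtype]
    intro x
    simp
  have hnT : n ≤ (Finset.univ.filter (fun t => t ∈ T)).card + 1 := by
    rw [hT] at hcard1
    have e1 : Nat.card {x // x ∈ V₀} = Nat.card V₀ := rfl
    omega
  have key : ∃ j : Fin n, ∀ t, t ≠ j → t ∈ T := by
    by_cases hall : ∀ t, t ∈ T
    · exact ⟨i, fun t _ => hall t⟩
    · obtain ⟨j, hj⟩ := not_forall.mp hall
      refine ⟨j, fun t ht => ?_⟩
      by_contra htT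
      have h3 : Finset.univ.filter (fun t => t ∈ T) ⊆ (Finset.univ.erase j).erase t := by
        intro x hx
        rw [Finset.mem_filter] at hx
        rw [Finset.mem_erase, Finset.mem_erase]
        refine ⟨?_, ?_, Finset.mem_univ x⟩
        · rintro rfl
          exact htT hx.2
        · rintro rfl
          exact hj hx.2
      have h4 := Finset.card_le_card h3
      rw [Finset.card_erase_of_mem (Finset.mem_erase.mpr ⟨ht, Finset.mem_univ t⟩),
        Finset.card_erase_of_mem (Finset.mem_univ j), Finset.card_univ, Fintype.card_fin] at h4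
      have h5 : 2 ≤ n := by
        have h6 := Finset.card_le_card (Finset.subset_univ ({t, j} : Finset (Fin n)))
        rw [Finset.card_pair ht, Finset.card_univ, Fintype.card_fin] at h6
        exact h6
      omega
  obtain ⟨j, hj⟩ := key
  refine ⟨j, ?_⟩
  exact hTi.comp (fun t : {t : Fin n // t ≠ j} => (⟨t.1, hj t.1 t.2⟩ : T))
    (fun a b hab => Subtype.ext (congrArg (fun x : T => x.1) hab))

end Pool.Agent.Lib.MP_17a322_nt.VN
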