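import Pool.Agent.Lib.MP_17a322_nt.VN.E2

/-!
Algebraicity from a relation; coprime polynomials.
-/

namespace Pool.Agent.Lib.MP_17a322_nt.VN

open MvPolynomial

private theorem E20c_mem {K k F : Type*} [Field K] [Field k] [Field F]
    [Algebra k F] [Algebra K F] {n : ℕ} (s : Fin n → F)
    (J : Finset (Fin n)) (V : Set k) (q : MvPolynomial J k)
    (hq : ∀ d, coeff d q ∈ V) :
    aeval (fun t : J => s t) q ∈
      IntermediateField.adjoin K (algebraMap k F '' V ∪ s '' J) := by
  rw [aeval_def, eval₂_eq]
  refine sum_mem fun d _ => mul_mem ?_ (prod_mem fun i _ => pow_mem ?_ _)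
  · exact IntermediateField.subset_adjoin _ _ (Or.inl ⟨_, hq d, rfl⟩)
  · exact IntermediateField.subset_adjoin _ _ (Or.inr ⟨i, i.2, rfl⟩)

private noncomputable def E20c_e {n : ℕ} (J : Finset (Fin n)) (r : Fin n) (hr : r ∉ J) :
    Option J ≃ {t : Fin n // t ∈ insert r J} :=
  Equiv.ofBijective (fun o => o.elim ⟨r, Finset.mem_insert_self r J⟩
    (fun j => ⟨j, Finset.mem_insert_of_mem j.2⟩)) (by
      constructor
      · rintro (_ | a) (_ | b) h
        · rfl
        · exfalso
          have h1 : r = (b : Fin n) := congrArg (fun z : {t : Fin n // t ∈ insert r J} => (z : Fin n)) h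
          exact hr (h1 ▸ b.2)
        · exfalso
          have h1 : (a : Fin n) = r := congrArg (fun z : {t : Fin n // t ∈ insert r J} => (z : Fin n)) h
          exact hr (h1 ▸ a.2)
        · have h1 : (a : Fin n) = (b : Fin n) := congrArg (fun z : {t : Fin n // t ∈ insert r J} => (z : Fin n)) h
          exact congrArg some (Subtype.ext h1)
      · rintro ⟨t, ht⟩
        rcases Finset.mem_insert.mp ht with h | h
        · exact ⟨none, Subtype.ext h.symm⟩
        · exact ⟨some ⟨t, h⟩, rfl⟩)

/-- Algebraicity of `s r` over the field generated by the coefficients and the `s t`, `t ∈ J`. Proof. Write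
`g` as a polynomial in `X r` with coefficients in the other variables; the leading coefficient is a nonzero
polynomial in the `X t`, `t ∈ J`, its value at `s` is not `0` by independence over `k`; all values of the
coefficients are in `K(V, s_J)`. -/
theorem algebraic_of_relation {K k F : Type*} [Field K] [Field k] [Field F] [Algebra K k]
    [Algebra k F] [Algebra K F] [IsScalarTower K k F] {n : ℕ} (s : Fin n → F)
    (J : Finset (Fin n)) (hJ : AlgebraicIndependent k fun t : J => s t) (r : Fin n) (hr : r ∉ J)
    (g : MvPolynomial {t : Fin n // t ∈ insert r J} k)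
    (hg : g.degreeOf ⟨r, Finset.mem_insert_self r J⟩ ≠ 0)
    (h0 : aeval (fun t : {t : Fin n // t ∈ insert r J} => s t) g = 0) (V : Set k)
    (hV : ∀ m, coeff m g ∈ V) :
    IsAlgebraic (IntermediateField.adjoin K (algebraMap k F '' V ∪ s '' J)) (s r) := by
  classical
  set e := E20c_e J r hr with he
  set g' : MvPolynomial (Option J) k := rename e.symm g with hg'
  set G : Polynomial (MvPolynomial J k) := optionEquivLeft k J g' with hG
  have hsymm : e.symm ⟨r, Finset.mem_insert_self r J⟩ = none := by
    rw [Equiv.symm_apply_eq]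
    rfl
  have hG0 : G ≠ 0 := by
    intro h
    have h1 : G.natDegree = g'.degreeOf none := natDegree_optionEquivLeft k g'
    rw [h, Polynomial.natDegree_zero, hg', ← hsymm,
      degreeOf_rename_of_injective e.symm.injective] at h1
    exact hg h1.symm
  set φ : MvPolynomial J k →+* F := (aeval (fun t : J => s t) : MvPolynomial J k →ₐ[k] F).toRingHom
    with hφ
  have hφi : Function.Injective φ := hJ
  have hP0 : G.map φ ≠ 0 := (Polynomial.map_ne_zero_iff hφi).mpr hG0
  have hcoef : ∀ m, coeff m g' ∈ V := by
    intro m
    have h1 : m = (m.mapDomain e).mapDomain e.symm := by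
      rw [← Finsupp.mapDomain_comp]
      have h2 : (e.symm ∘ e) = id := by
        funext x
        simp
      rw [h2, Finsupp.mapDomain_id]
    rw [h1, hg', coeff_rename_mapDomain _ e.symm.injective]
    exact hV _
  have hval : ∀ i, (G.map φ).coeff i ∈
      IntermediateField.adjoin K (algebraMap k F '' V ∪ s '' J) := by
    intro i
    rw [Polynomial.coeff_map]
    refine E20c_mem s J V _ fun d => ?_
    rw [hG, optionEquivLeft_coeff_coeff]
    exact hcoef _
  have heval : (G.map φ).eval (s r) = 0 := by
    have h1 : ((Polynomial.eval₂RingHom φ (s r)).comp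
        (optionEquivLeft k J : MvPolynomial (Option J) k ≃ₐ[k] _).toRingEquiv.toRingHom) =
        (aeval (fun o : Option J => o.elim (s r) (fun j => s j)) :
          MvPolynomial (Option J) k →ₐ[k] F).toRingHom := by
      refine MvPolynomial.ringHom_ext ?_ ?_
      · intro a
        simp [hφ]
      · rintro (_ | j)
        · simp
        · simp [hφ]
    have h2 := RingHom.congr_fun h1 g'
    have h3 : (aeval (fun o : Option J => o.elim (s r) (fun j => s j)) :
          MvPolynomial (Option J) k →ₐ[k] F) g' = 0 := by
      rw [hg', aeval_rename]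
      have h4 : (fun o : Option J => o.elim (s r) (fun j => s j)) ∘ e.symm =
          (fun t : {t : Fin n // t ∈ insert r J} => s t) := by
        funext t
        obtain ⟨o, rfl⟩ := e.surjective t
        simp only [Function.comp_apply, Equiv.symm_apply_apply]
        cases o
        · rfl
        · rfl
      rw [h4]
      exact h0
    rw [Polynomial.eval_map]
    exact h2.trans h3
  have hl : G.map φ ∈ Polynomial.lifts (algebraMap
      (IntermediateField.adjoin K (algebraMap k F '' V ∪ s '' J)) F) := by
    rw [Polynomial.lifts_iff_coeff_lifts]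
    intro i
    exact ⟨⟨_, hval i⟩, rfl⟩
  obtain ⟨Q, hQ⟩ := (Polynomial.mem_lifts _).mp hl
  refine ⟨Q, ?_, ?_⟩
  · rintro rfl
    rw [Polynomial.map_zero] at hQ
    exact hP0 hQ.symm
  · rw [Polynomial.aeval_def, ← Polynomial.eval_map, hQ]
    exact heval

/-- Coprime polynomials have no common zero whose coordinates except one are algebraically independent.
Proof. If `f = 0` then `g` is a unit. Otherwise an irreducible factor `f₀` of `f` vanishes at `p`, and
`f₀ ∣ g` by `generic_dvd` (E2), contradiction. -/
theorem no_common_zero {K Ω σ : Type*} [Finite σ] [Field K] [Field Ω] [Algebra K Ω]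
    (f g : MvPolynomial σ K) (hfg : IsRelPrime f g) (p : σ → Ω) (j : σ)
    (hp : AlgebraicIndependent K (fun t : {t : σ // t ≠ j} => p t)) (hf : aeval p f = 0)
    (hg : aeval p g = 0) : False := by
  classical
  have hunit : ∀ q : MvPolynomial σ K, IsUnit q → aeval p q ≠ 0 := by
    intro q hq h
    exact (hq.map (aeval p : MvPolynomial σ K →ₐ[K] Ω)).ne_zero h
  by_cases h0 : f = 0
  · subst h0
    exact hunit g (hfg (dvd_zero g) dvd_rfl) hg
  · have key : ∃ f₀ : MvPolynomial σ K, Irreducible f₀ ∧ f₀ ∣ f ∧ aeval p f₀ = 0 := by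
      have h1 := UniqueFactorizationMonoid.factors_prod h0
      obtain ⟨u, hu⟩ := h1
      have h2 : aeval p (UniqueFactorizationMonoid.factors f).prod = 0 := by
        rw [← hu, map_mul] at hf
        rcases mul_eq_zero.mp hf with h | h
        · exact h
        · exact absurd h (hunit _ u.isUnit)
      rw [map_multiset_prod] at h2
      rw [Multiset.prod_eq_zero_iff, Multiset.mem_map] at h2
      obtain ⟨f₀, hf₀, h3⟩ := h2
      exact ⟨f₀, UniqueFactorizationMonoid.irreducible_of_factor f₀ hf₀,
        UniqueFactorizationMonoid.dvd_of_mem_factors hf₀, h3⟩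
    obtain ⟨f₀, hirr, hdvd, hz⟩ := key
    exact hirr.not_isUnit (hfg hdvd (generic_dvd j p hp f₀ g hirr hz hg))

end Pool.Agent.Lib.MP_17a322_nt.VN
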