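import Pool.Agent.Lib.MP_17a322_nt.VN.E3
import Pool.Agent.Lib.MP_17a322_nt.VN.E20a
import Pool.Agent.Lib.MP_17a322_nt.VN.E20b

/-!
The relations used in END.
-/

universe u

namespace Pool.Agent.Lib.MP_17a322_nt.VN

open MvPolynomial

theorem END_relation {K F : Type u} [Field K] [Field F] [CharZero K] [Algebra K F]
    (k : IntermediateField K F) (hk : ∀ a : F, IsAlgebraic k a → a ∈ k) {n : ℕ}
    (Q : Fin n → Polynomial K) (hQd : ∀ t, 3 ≤ (Q t).natDegree)
    (s y : Fin n → F) (hy : ∀ t, y t ^ 2 = Polynomial.aeval (s t) (Q t))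
    (hs : AlgebraicIndependent K s) (J : Finset (Fin n))
    (hJ : AlgebraicIndependent k fun t : J => s t)
    (hJ' : ∀ t, IsAlgebraic (Algebra.adjoin k (s '' J)) (s t))
    (hsl : ∀ r ∉ J, ∀ g : MvPolynomial (Fin n) k, Irreducible g → g.vars ⊆ insert r J →
      aeval s g = 0 → ∀ l ∈ J,
        aeval s (pderiv l g) * y l / (aeval s (pderiv r g) * y r) ∈ k)
    (r : Fin n) (hr : r ∉ J) :
    ∃ (g : MvPolynomial {t : Fin n // t ∈ insert r J} k) (m₀ : _ →₀ ℕ)
      (c : {t : Fin n // t ∈ insert r J} → k),
      (∀ (Ω : Type u) [Field Ω] [Algebra k Ω], Irreducible (map (algebraMap k Ω) g)) ∧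
      coeff m₀ g = 1 ∧ g.degreeOf ⟨r, Finset.mem_insert_self r J⟩ ≠ 0 ∧
      aeval (fun t : {t : Fin n // t ∈ insert r J} => s t) g = 0 ∧
      ∀ l, l ≠ ⟨r, Finset.mem_insert_self r J⟩ →
        g ∣ Polynomial.aeval (X l : MvPolynomial {t : Fin n // t ∈ insert r J} k) (Q l) *
            pderiv l g ^ 2 - C (c l ^ 2) *
          (Polynomial.aeval (X ⟨r, Finset.mem_insert_self r J⟩ :
            MvPolynomial {t : Fin n // t ∈ insert r J} k) (Q r) *
            pderiv ⟨r, Finset.mem_insert_self r J⟩ g ^ 2) := by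
  classical
  have : CharZero k := charZero_of_injective_algebraMap (algebraMap K k).injective
  obtain ⟨g, m₀, hg, hm, hdeg, h0⟩ := exists_relation s J hJ r hr (hJ' r)
  set r' : {t : Fin n // t ∈ insert r J} := ⟨r, Finset.mem_insert_self r J⟩ with hr'
  have hmem : ∀ t : {t : {t : Fin n // t ∈ insert r J} // t ≠ r'}, t.1.1 ∈ J := by
    intro t
    rcases Finset.mem_insert.mp t.1.2 with h | h
    · exact absurd (Subtype.ext h) t.2
    · exact h
  have hind : AlgebraicIndependent k
      (fun t : {t : {t : Fin n // t ∈ insert r J} // t ≠ r'} => s t.1.1) := by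
    have := hJ.comp (fun t : {t : {t : Fin n // t ∈ insert r J} // t ≠ r'} =>
      (⟨t.1.1, hmem t⟩ : J)) (by
        intro a b hab
        have : a.1.1 = b.1.1 := Subtype.mk.inj hab
        exact Subtype.ext (Subtype.ext this))
    exact this
  have hyr : y r ≠ 0 := by
    intro h
    have h1 := hy r
    rw [h] at h1
    have h2 : Q r = 0 := by
      by_contra h3
      exact (hs.transcendental r) ⟨Q r, h3, by rw [← h1]; simp⟩
    have := hQd r
    rw [h2] at this
    simp at this
  have hslope : ∀ l : {t : Fin n // t ∈ insert r J}, l ≠ r' →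
      aeval (fun t : {t : Fin n // t ∈ insert r J} => s t) (pderiv l g) * y l /
        (aeval (fun t : {t : Fin n // t ∈ insert r J} => s t) (pderiv r' g) * y r) ∈ k := by
    intro l hl
    have h1 := hsl r hr (rename Subtype.val g)
      (rename_irreducible Subtype.val Subtype.val_injective g hg) (by
        intro t ht
        have := vars_rename Subtype.val g ht
        obtain ⟨a, ha, rfl⟩ := Finset.mem_image.mp this
        exact a.2) (by
        rw [aeval_rename]
        exact h0) l.1 (hmem ⟨l, hl⟩)
    have e1 : pderiv l.1 (rename Subtype.val g) = rename Subtype.val (pderiv l g) :=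
      pderiv_rename Subtype.val_injective l g
    have e2 : pderiv r (rename Subtype.val g) = rename Subtype.val (pderiv r' g) :=
      pderiv_rename Subtype.val_injective r' g
    rw [e1, e2, aeval_rename, aeval_rename] at h1
    exact h1
  refine ⟨g, m₀, fun l => if hl : l ≠ r' then ⟨_, hslope l hl⟩ else 0, ?_, hm, hdeg, h0, ?_⟩
  · intro Ω _ _
    exact ABSIRR (k := k) (F := F) (σ := {t : Fin n // t ∈ insert r J})
      (fun z hz => ⟨⟨z, hk z hz⟩, rfl⟩) r' (fun t => s t) hind g hg h0 Ω
  · intro l hl
    have key := slope_dvd (k := k) (F := F) (B := {t : Fin n // t ∈ insert r J})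
      (fun t => (Q t).map (algebraMap K k)) r' (fun t => s t) (fun t => y t) hind
      (fun t => by rw [Polynomial.aeval_map_algebraMap]; exact hy t) hyr g hg h0
      (fun l => if hl : l ≠ r' then ⟨_, hslope l hl⟩ else 0)
      (by
        intro l hl
        rw [dif_pos hl]
        rfl) l hl
    rw [Polynomial.aeval_map_algebraMap, Polynomial.aeval_map_algebraMap] at key
    exact key

end Pool.Agent.Lib.MP_17a322_nt.VN
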