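import Pool.Agent.Lib.MP_17a322_nt.VN.E17
import Pool.Agent.Lib.MP_17a322_nt.VN.E18
import Pool.Agent.Lib.MP_17a322_nt.VN.E18a
import Pool.Agent.Lib.MP_17a322_nt.VN.E19
import Pool.Agent.Lib.MP_17a322_nt.VN.E20c
import Pool.Agent.Lib.MP_17a322_nt.VN.E21

/-!
The field theoretic end.
-/

universe u

namespace Pool.Agent.Lib.MP_17a322_nt.VN

open MvPolynomial

/-- Elements of the ideal generated by `f`, `g` and relations at the point `s`. -/
theorem END_comb {K F : Type u} [Field K] [Field F] [Algebra K F] (k : IntermediateField K F)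
    {n : ℕ} (s : Fin n → F) (f g : MvPolynomial (Fin n) K) (T : Set (MvPolynomial (Fin n) k))
    (hT : ∀ a ∈ T, a = map (algebraMap K k) f ∨ a = map (algebraMap K k) g ∨ aeval s a = 0)
    (a : MvPolynomial (Fin n) k) (ha : a ∈ Ideal.span T) :
    ∃ A B : MvPolynomial (Fin n) k,
      aeval s a = aeval s A * aeval s f + aeval s B * aeval s g := by
  refine Submodule.span_induction (p := fun a _ => ∃ A B : MvPolynomial (Fin n) k,
      aeval s a = aeval s A * aeval s f + aeval s B * aeval s g) ?_ ?_ ?_ ?_ ha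
  · intro a ha
    rcases hT a ha with rfl | rfl | h
    · exact ⟨1, 0, by rw [aeval_map_algebraMap]; simp⟩
    · exact ⟨0, 1, by rw [aeval_map_algebraMap]; simp⟩
    · exact ⟨0, 0, by rw [h]; simp⟩
  · exact ⟨0, 0, by simp⟩
  · rintro a b _ _ ⟨A, B, h⟩ ⟨A', B', h'⟩
    exact ⟨A + A', B + B', by rw [map_add, h, h', map_add, map_add]; ring⟩
  · rintro c a _ ⟨A, B, h⟩
    exact ⟨c * A, c * B, by rw [smul_eq_mul, map_mul, h, map_mul, map_mul]; ring⟩

theorem isAlgebraic_of_le {K L : Type*} [Field K] [Field L] [Algebra K L]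
    {E₁ E₂ : IntermediateField K L} (h : E₁ ≤ E₂) {x : L} (hx : IsAlgebraic E₁ x) :
    IsAlgebraic E₂ x :=
  IsAlgebraic.tower_top_of_subalgebra_le (A := E₁.toSubalgebra) (B := E₂.toSubalgebra) h hx

/-- The case of the empty set `J`. -/
theorem END_empty {K F : Type u} [Field K] [Field F] [Algebra K F] (k : IntermediateField K F)
    {n : ℕ} (s : Fin n → F) (hs : AlgebraicIndependent K s) (hk : ∀ t, s t ∈ k)
    (f g : MvPolynomial (Fin n) K) (hfg : IsRelPrime f g) :
    ∃ f' g' A B A' B' : MvPolynomial (Fin n) k, f'.vars ⊆ ∅ ∧ g'.vars ⊆ ∅ ∧ IsRelPrime f' g' ∧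
      aeval s f' = aeval s A * aeval s f + aeval s B * aeval s g ∧
      aeval s g' = aeval s A' * aeval s f + aeval s B' * aeval s g := by
  classical
  have key : ∀ a : MvPolynomial (Fin n) K,
      algebraMap k F (aeval (fun t => (⟨s t, hk t⟩ : k)) a) = aeval s a := by
    intro a
    rw [← aeval_algebraMap_apply]
    rfl
  refine ⟨C (aeval (fun t => (⟨s t, hk t⟩ : k)) f), C (aeval (fun t => (⟨s t, hk t⟩ : k)) g),
    1, 0, 0, 1, by rw [vars_C], by rw [vars_C], ?_, ?_, ?_⟩
  · have hne : aeval (fun t => (⟨s t, hk t⟩ : k)) f ≠ 0 ∨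
        aeval (fun t => (⟨s t, hk t⟩ : k)) g ≠ 0 := by
      by_contra h
      rw [not_or, not_not, not_not] at h
      have hf : f = 0 := by
        refine (algebraicIndependent_iff_injective_aeval.mp hs) ?_
        rw [← key, h.1, map_zero, map_zero]
      have hg : g = 0 := by
        refine (algebraicIndependent_iff_injective_aeval.mp hs) ?_
        rw [← key, h.2, map_zero, map_zero]
      rw [hf, hg] at hfg
      exact not_isUnit_zero (hfg (dvd_refl 0) (dvd_refl 0))
    rcases hne with h | h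
    · intro d hd _
      exact isUnit_of_dvd_unit hd ((isUnit_iff_ne_zero.mpr h).map C)
    · intro d _ hd
      exact isUnit_of_dvd_unit hd ((isUnit_iff_ne_zero.mpr h).map C)
  · rw [aeval_C, key]; simp
  · rw [aeval_C, key]; simp

/-- The end: pure field theory. -/
theorem END {K F : Type u} [Field K] [Field F] [CharZero K] [Algebra K F]
    (k : IntermediateField K F) (hk : ∀ a : F, IsAlgebraic k a → a ∈ k) {n : ℕ}
    (Q : Fin n → Polynomial K) (hQ : ∀ t, Squarefree (Q t)) (hQd : ∀ t, 3 ≤ (Q t).natDegree)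
    (s y : Fin n → F) (hy : ∀ t, y t ^ 2 = Polynomial.aeval (s t) (Q t))
    (hs : AlgebraicIndependent K s) (J : Finset (Fin n))
    (hJ : AlgebraicIndependent k fun t : J => s t)
    (hJ' : ∀ t, IsAlgebraic (Algebra.adjoin k (s '' J)) (s t))
    (hsl : ∀ r ∉ J, ∀ g : MvPolynomial (Fin n) k, Irreducible g → g.vars ⊆ insert r J →
      aeval s g = 0 → ∀ l ∈ J,
        aeval s (pderiv l g) * y l / (aeval s (pderiv r g) * y r) ∈ k)
    (f g : MvPolynomial (Fin n) K) (hfg : IsRelPrime f g) :
    ∃ f' g' A B A' B' : MvPolynomial (Fin n) k, f'.vars ⊆ J ∧ g'.vars ⊆ J ∧ IsRelPrime f' g' ∧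
      aeval s f' = aeval s A * aeval s f + aeval s B * aeval s g ∧
      aeval s g' = aeval s A' * aeval s f + aeval s B' * aeval s g := by
  classical
  rcases J.eq_empty_or_nonempty with hJe | ⟨i₀, hi₀⟩
  · subst hJe
    refine END_empty k s hs (fun t => hk _ ?_) f g hfg
    have h1 := hJ' t
    have h2 : Algebra.adjoin k (s '' ((∅ : Finset (Fin n)) : Set (Fin n))) = ⊥ := by
      rw [Finset.coe_empty, Set.image_empty, Algebra.adjoin_empty]
    rw [h2] at h1
    have h3 : Algebra.IsAlgebraic k (⊥ : Subalgebra k F) := by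
      refine ⟨fun x => ?_⟩
      obtain ⟨a, ha⟩ := Algebra.mem_bot.mp x.2
      have : x = algebraMap k (⊥ : Subalgebra k F) a := Subtype.ext ha.symm
      rw [this]
      exact isAlgebraic_algebraMap a
    exact h1.restrictScalars k
  have hR := fun r (hr : r ∉ J) => END_relation k hk Q hQd s y hy hs J hJ hJ' hsl r hr
  choose G m₀ c hG1 hG2 hG3 hG4 hG5 using hR
  set T : Set (MvPolynomial (Fin n) k) :=
    {a | a = map (algebraMap K k) f ∨ a = map (algebraMap K k) g ∨
      ∃ (r : Fin n) (hr : r ∉ J), a = rename Subtype.val (G r hr)} with hT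
  have hTs : ∀ a ∈ T, a = map (algebraMap K k) f ∨ a = map (algebraMap K k) g ∨
      aeval s a = 0 := by
    rintro a (h | h | ⟨r, hr, h⟩)
    · exact Or.inl h
    · exact Or.inr (Or.inl h)
    · right; right
      rw [h, aeval_rename]
      exact hG4 r hr
  set ι : MvPolynomial J k →+* MvPolynomial (Fin n) k :=
    (rename (Subtype.val : J → Fin n) : MvPolynomial J k →ₐ[k] MvPolynomial (Fin n) k).toRingHom
    with hι
  rcases avoidance ((Ideal.span T).comap ι) (X (⟨i₀, hi₀⟩ : J)) X_prime.irreducible with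
    ⟨f', hf', g', hg', hrel⟩ | ⟨h, hh, hI⟩
  · obtain ⟨A, B, hAB⟩ := END_comb k s f g T hTs _ (Ideal.mem_comap.mp hf')
    obtain ⟨A', B', hAB'⟩ := END_comb k s f g T hTs _ (Ideal.mem_comap.mp hg')
    refine ⟨ι f', ι g', A, B, A', B', ?_, ?_, ?_, hAB, hAB'⟩
    · intro t ht
      obtain ⟨a, ha, rfl⟩ := Finset.mem_image.mp (vars_rename (Subtype.val : J → Fin n) f' ht)
      exact a.2
    · intro t ht
      obtain ⟨a, ha, rfl⟩ := Finset.mem_image.mp (vars_rename (Subtype.val : J → Fin n) g' ht)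
      exact a.2
    · exact rename_isRelPrime (Subtype.val : J → Fin n) Subtype.val_injective f' g' hrel
  · exfalso
    obtain ⟨Ω, _, _, _, p, i, hiJ, hp0, hpi⟩ := elim_point J (Ideal.span T) h hh
      (fun a ha => hI a (Ideal.mem_comap.mpr ha))
    let _ : Algebra K Ω := ((algebraMap k Ω).comp (algebraMap K k)).toAlgebra
    have : IsScalarTower K k Ω := IsScalarTower.of_algebraMap_eq (fun _ => rfl)
    set V : Set k := {v | ∃ (r : Fin n) (hr : r ∉ J) (m : _ →₀ ℕ), v = coeff m (G r hr)} with hV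
    have hpV : ∀ v ∈ V,
        IsAlgebraic (IntermediateField.adjoin K (Set.range p)) (algebraMap k Ω v) := by
      rintro v ⟨r, hr, m, rfl⟩
      have h1 := FD (K := K) (k := k) (Ω := Ω) (B := {t : Fin n // t ∈ insert r J})
        (fun t => Q t) (fun t => hQ t) (fun t => hQd t) ⟨r, Finset.mem_insert_self r J⟩
        (G r hr) (hG1 r hr Ω) (hG3 r hr) (m₀ r hr) (hG2 r hr) (c r hr) (hG5 r hr)
        (fun t => p t) (by
          have h2 := hp0 (rename Subtype.val (G r hr))
            (Ideal.subset_span (Or.inr (Or.inr ⟨r, hr, rfl⟩)))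
          rw [aeval_rename] at h2
          exact h2) m
      refine isAlgebraic_of_le (IntermediateField.adjoin.mono K _ _ ?_) h1
      rintro _ ⟨t, rfl⟩
      exact ⟨t, rfl⟩
    have hsV : ∀ t, IsAlgebraic
        (IntermediateField.adjoin K (algebraMap k F '' V ∪ s '' J)) (s t) := by
      intro t
      by_cases ht : t ∈ J
      · exact isAlgebraic_algebraMap (⟨s t, IntermediateField.subset_adjoin K _
          (Or.inr ⟨t, ht, rfl⟩)⟩ : IntermediateField.adjoin K (algebraMap k F '' V ∪ s '' J))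
      · exact algebraic_of_relation s J hJ t ht (G t ht) (hG3 t ht) (hG4 t ht) V
          (fun m => ⟨t, ht, m, rfl⟩)
    obtain ⟨j, hj⟩ := count V J s hs hsV p i hiJ hpi hpV
    refine no_common_zero f g hfg p j hj ?_ ?_
    · have h1 := hp0 _ (Ideal.subset_span (Or.inl rfl))
      rwa [aeval_map_algebraMap] at h1
    · have h1 := hp0 _ (Ideal.subset_span (Or.inr (Or.inl rfl)))
      rwa [aeval_map_algebraMap] at h1

end Pool.Agent.Lib.MP_17a322_nt.VN
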