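import Pool.Agent.Lib.MP_17a322_nt.VN.E4a

/-!
Extension of derivations.
-/

namespace Pool.Agent.Lib.MP_17a322_nt.VN

open MvPolynomial

open scoped IntermediateField.algebraAdjoinAdjoin in
/-- (D1). Proof. `A = MvPolynomial ι k` maps injectively to `L`; `L` is formally étale over `A`
(`Algebra.FormallyEtale.of_isLocalization` for the fraction field `k(X)` of `A`,
`Algebra.FormallyEtale.of_isSeparable` for `L / k(X)` (characteristic `0`), `Algebra.FormallyEtale.comp`).
So the derivation `A → L` of `exists_derivation_poly` extends: use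
`KaehlerDifferential.tensorKaehlerEquivOfFormallyEtale ℤ A L`: `L ⊗ Ω[A/ℤ] ≃ Ω[L/ℤ]` (compose its inverse with
the linear map `L ⊗ Ω[A/ℤ] → L` given by the derivation), or extend by hand: first to the fraction field
(quotient rule), then to simple algebraic extensions and by Zorn's lemma; or use dual numbers `L[ε]`:
`A → L[ε]`, `p ↦ p(X) + ε D p`, lifts to `L → L[ε]` by formal étaleness. -/
theorem exists_derivation {k L ι : Type*} [Field k] [CharZero k] [Field L] [Algebra k L] (X : ι → L)
    (hX : AlgebraicIndependent k X)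
    (hL : Algebra.IsAlgebraic (IntermediateField.adjoin k (Set.range X)) L)
    (δ : Derivation ℤ k L) (v : ι → L) :
    ∃ D : Derivation ℤ L L, (∀ a : k, D (algebraMap k L a) = δ a) ∧ ∀ i, D (X i) = v i := by
  obtain ⟨D0, hD0, hD1, hD2⟩ := exists_derivation_poly X δ v
  have hsep : Algebra.IsSeparable (IntermediateField.adjoin k (Set.range X)) L :=
    inferInstance
  have h1 : Algebra.FormallyEtale (Algebra.adjoin k (Set.range X))
      (IntermediateField.adjoin k (Set.range X)) :=
    Algebra.FormallyEtale.of_isLocalization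
      (nonZeroDivisors (Algebra.adjoin k (Set.range X)))
  have h2 : Algebra.FormallyEtale (IntermediateField.adjoin k (Set.range X)) L :=
    Algebra.FormallyEtale.of_isSeparable _ L
  have h3 : Algebra.FormallyEtale (Algebra.adjoin k (Set.range X)) L :=
    Algebra.FormallyEtale.comp _ (IntermediateField.adjoin k (Set.range X)) _
  have hbc : IsBaseChange L (KaehlerDifferential.map ℤ ℤ (Algebra.adjoin k (Set.range X)) L) :=
    KaehlerDifferential.isBaseChange_of_formallyEtale ℤ (Algebra.adjoin k (Set.range X)) L
  have hsm : ∀ s : Algebra.adjoin k (Set.range X), aeval X (hX.aevalEquiv.symm s) = (s : L) := by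
    intro s
    rw [← hX.algebraMap_aevalEquiv, AlgEquiv.apply_symm_apply]
    rfl
  let D1 : Algebra.adjoin k (Set.range X) →+ L :=
    D0.comp (hX.aevalEquiv.symm : Algebra.adjoin k (Set.range X) →+ MvPolynomial ι k)
  have hD1a : ∀ s, D1 s = D0 (hX.aevalEquiv.symm s) := fun _ => rfl
  let d : Derivation ℤ (Algebra.adjoin k (Set.range X)) L :=
    Derivation.mk' D1.toIntLinearMap (by
      intro a b
      change D1 (a * b) = (a : L) * D1 b + (b : L) * D1 a
      rw [hD1a, hD1a, hD1a, map_mul, hD0, hsm, hsm])
  have hd : ∀ s, d s = D0 (hX.aevalEquiv.symm s) := fun _ => rfl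
  let D : Derivation ℤ L L :=
    (hbc.lift d.liftKaehlerDifferential).compDer (KaehlerDifferential.D ℤ L)
  have hD : ∀ s : Algebra.adjoin k (Set.range X), D (s : L) = d s := by
    intro s
    have h4 : KaehlerDifferential.D ℤ L (algebraMap (Algebra.adjoin k (Set.range X)) L s)
        = KaehlerDifferential.map ℤ ℤ (Algebra.adjoin k (Set.range X)) L
          (KaehlerDifferential.D ℤ (Algebra.adjoin k (Set.range X)) s) := by
      rw [KaehlerDifferential.map_D]
    change hbc.lift d.liftKaehlerDifferential
      (KaehlerDifferential.D ℤ L (algebraMap (Algebra.adjoin k (Set.range X)) L s)) = _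
    rw [h4, hbc.lift_eq, Derivation.liftKaehlerDifferential_comp_D]
  refine ⟨D, ?_, ?_⟩
  · intro a
    have h5 := hD (algebraMap k (Algebra.adjoin k (Set.range X)) a)
    rw [hd, AlgEquiv.commutes, MvPolynomial.algebraMap_eq, hD1] at h5
    exact h5
  · intro i
    have h5 := hD (hX.aevalEquiv (MvPolynomial.X i))
    rw [hd, AlgEquiv.symm_apply_apply, hD2] at h5
    rw [← h5]
    congr 1
    have h6 := hX.algebraMap_aevalEquiv (MvPolynomial.X i)
    rw [aeval_X] at h6
    exact h6.symm

end Pool.Agent.Lib.MP_17a322_nt.VN
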