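import Pool.Agent.Lib.MP_17a322_nt.Mb

/-!
Uniqueness of extensions of derivations; derivations of polynomial rings with values in an algebra.
-/

namespace Pool.Agent.Lib.MP_17a322_nt.VN

open MvPolynomial

/-- Uniqueness. Proof. The difference `D₀ = D - D'` vanishes on `k` and the `X i`, hence on
`k(X) = IntermediateField.adjoin` (induction, or: the elements killed by `D₀` form a subfield); for `f ∈ L`
let `p` be the minimal polynomial over `k(X)`: `0 = D₀ (p(f)) = p'(f) D₀ f` and `p'(f) ≠ 0`
(characteristic `0`). -/
theorem derivation_eq {k L ι : Type*} [Field k] [CharZero k] [Field L] [Algebra k L] (X : ι → L)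
    (hL : Algebra.IsAlgebraic (IntermediateField.adjoin k (Set.range X)) L)
    (D D' : Derivation ℤ L L) (h : ∀ a : k, D (algebraMap k L a) = D' (algebraMap k L a))
    (h' : ∀ i, D (X i) = D' (X i)) : D = D' := by
  set F := IntermediateField.adjoin k (Set.range X) with hF
  have hz : ∀ a ∈ F, (D - D') a = 0 := by
    intro a ha
    induction ha using IntermediateField.adjoin_induction with
    | mem x hx =>
      obtain ⟨i, rfl⟩ := hx
      rw [Derivation.sub_apply, h' i, sub_self]
    | algebraMap x => rw [Derivation.sub_apply, h x, sub_self]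
    | add x y _ _ hx hy => rw [map_add, hx, hy, add_zero]
    | inv x _ hx => rw [Derivation.leibniz_inv, hx, smul_zero]
    | mul x y _ _ hx hy => rw [Derivation.leibniz, hx, hy, smul_zero, smul_zero, add_zero]
  let D₁ : Derivation F L L :=
    { toFun := fun f => (D - D') f
      map_add' := fun f g => map_add _ f g
      map_smul' := fun a f => by
        have h1 : (D - D') (algebraMap F L a) = 0 := hz _ a.2
        rw [RingHom.id_apply, Algebra.smul_def a f, Derivation.leibniz, h1, smul_zero, add_zero,
          smul_eq_mul]
        exact (Algebra.smul_def a _).symm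
      map_one_eq_zero' := Derivation.map_one_eq_zero _
      leibniz' := fun f g => Derivation.leibniz _ f g }
  have hcz : CharZero F := charZero_of_injective_algebraMap (algebraMap k F).injective
  have hint : ∀ f : L, IsIntegral F f := fun f => (hL.isAlgebraic f).isIntegral
  ext f
  have h1 : D₁ (Polynomial.aeval f (minpoly F f)) = 0 := by
    rw [minpoly.aeval, map_zero]
  rw [Derivation.map_aeval] at h1
  have h2 : Polynomial.aeval f (Polynomial.derivative (minpoly F f)) ≠ 0 :=
    (minpoly.irreducible (hint f)).separable.aeval_derivative_ne_zero (minpoly.aeval F f)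
  have h3 : D₁ f = 0 := (smul_eq_zero.1 h1).resolve_left h2
  have h4 : (D - D') f = 0 := h3
  rw [Derivation.sub_apply] at h4
  exact sub_eq_zero.1 h4

/-- A derivation of the polynomial ring with values in an algebra, with given values on the coefficients
and on the variables: `p ↦ ∑_m δ(coeff m p) x^m + ∑_i (∂_i p)(x) v_i`. -/
theorem exists_derivation_poly {k L ι : Type*} [Field k] [Field L] [Algebra k L] (x : ι → L)
    (δ : Derivation ℤ k L) (v : ι → L) :
    ∃ D : MvPolynomial ι k →+ L, (∀ p q, D (p * q) = aeval x p * D q + aeval x q * D p) ∧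
      (∀ a, D (C a) = δ a) ∧ ∀ i, D (X i) = v i := by
  let c : k →+* TrivSqZeroExt L L :=
    { toFun := fun a => (algebraMap k L a, δ a)
      map_one' := TrivSqZeroExt.ext (map_one _) (Derivation.map_one_eq_zero δ)
      map_mul' := fun a b => TrivSqZeroExt.ext (map_mul _ a b) (by
        rw [TrivSqZeroExt.snd_mul]
        show δ (a * b) = algebraMap k L a • δ b + MulOpposite.op (algebraMap k L b) • δ a
        rw [Derivation.leibniz, Algebra.smul_def, Algebra.smul_def, smul_eq_mul,
          op_smul_eq_mul, mul_comm (algebraMap k L b)])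
      map_zero' := TrivSqZeroExt.ext (map_zero _) (map_zero δ)
      map_add' := fun a b => TrivSqZeroExt.ext (map_add _ a b) (map_add δ a b) }
  let φ : MvPolynomial ι k →+* TrivSqZeroExt L L := eval₂Hom c fun i => (x i, v i)
  have hfst : ∀ p, (φ p).fst = aeval x p := by
    intro p
    induction p using MvPolynomial.induction_on with
    | C a =>
      show (eval₂Hom c _ (C a)).fst = _
      rw [eval₂Hom_C, aeval_C]
      rfl
    | add p q hp hq => rw [map_add, TrivSqZeroExt.fst_add, hp, hq, map_add]
    | mul_X p i hp =>
      rw [map_mul, TrivSqZeroExt.fst_mul, hp, map_mul, aeval_X]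
      congr 1
      show (eval₂Hom c _ (X i)).fst = _
      rw [eval₂Hom_X']
      rfl
  refine ⟨{ toFun := fun p => (φ p).snd, map_zero' := ?_, map_add' := fun p q => ?_ },
    fun p q => ?_, fun a => ?_, fun i => ?_⟩
  · rw [map_zero, TrivSqZeroExt.snd_zero]
  · rw [map_add, TrivSqZeroExt.snd_add]
  · show (φ (p * q)).snd = aeval x p * (φ q).snd + aeval x q * (φ p).snd
    rw [map_mul, TrivSqZeroExt.snd_mul, hfst, hfst, smul_eq_mul, op_smul_eq_mul,
      mul_comm (φ p).snd]
  · show (eval₂Hom c _ (C a)).snd = δ a
    rw [eval₂Hom_C]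
    rfl
  · show (eval₂Hom c _ (X i)).snd = v i
    rw [eval₂Hom_X']
    rfl

end Pool.Agent.Lib.MP_17a322_nt.VN
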