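import Pool.Agent.Lib.MP_17a322_nt.Mb

/-!
The invariant differential is not exact, rational function part.
-/

namespace Pool.Agent.Lib.MP_17a322_nt.VN

open Polynomial

private theorem E6_not_dvd_derivative {Ω : Type*} [Field Ω] [CharZero Ω] {q : Polynomial Ω}
    (hq : Irreducible q) : ¬ q ∣ derivative q := by
  intro hd
  have hdeg : 0 < q.natDegree := hq.natDegree_pos
  have h0 : derivative q ≠ 0 := by
    intro h
    have := Polynomial.derivative_eq_zero.1 h
    omega
  have h1 := natDegree_le_of_dvd hd h0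
  have h2 := natDegree_derivative_lt (p := q) (by omega)
  omega

private theorem E6_isUnit {Ω : Type*} [Field Ω] [CharZero Ω] (p : Polynomial Ω)
    (hs : Squarefree p) (u v : Polynomial Ω) (hv : v ≠ 0)
    (huv : IsCoprime u v) (γ : Ω)
    (h : 2 * (derivative u * v - u * derivative v) * p + u * v * derivative p =
      C (2 * γ) * v ^ 2) : IsUnit v := by
  by_contra hvu
  obtain ⟨q, hq, hqv⟩ := WfDvdMonoid.exists_irreducible_factor hvu hv
  have hqp : Prime q := hq.prime
  have hq0 : q ≠ 0 := hq.ne_zero
  have hfin : FiniteMultiplicity q v := FiniteMultiplicity.of_not_isUnit hq.not_isUnit hv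
  obtain ⟨w, hw, hqw⟩ := hfin.exists_eq_pow_mul_and_not_dvd
  obtain ⟨k, hk⟩ : ∃ k, multiplicity q v = k + 1 := by
    rcases Nat.eq_zero_or_eq_succ_pred (multiplicity q v) with h0 | h0
    · exfalso
      rw [h0, pow_zero, one_mul] at hw
      rw [hw] at hqv
      exact hqw hqv
    · exact ⟨_, h0⟩
  rw [hk] at hw
  have hqu : ¬ q ∣ u := by
    intro h1
    exact hq.not_isUnit (huv.isUnit_of_dvd' h1 hqv)
  have hq' : ¬ q ∣ derivative q := E6_not_dvd_derivative hq
  have hdv : derivative v = C ((k : Ω) + 1) * q ^ k * derivative q * w + q ^ (k + 1) * derivative w := by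
    rw [hw, derivative_mul, derivative_pow_succ]
  have hconst : ∀ a : Ω, a ≠ 0 → ¬ q ∣ C a := by
    intro a ha hd
    exact hq.not_isUnit (isUnit_of_dvd_unit hd (isUnit_C.2 (isUnit_iff_ne_zero.2 ha)))
  have hk1 : ((k : Ω) + 1) ≠ 0 := by exact_mod_cast Nat.succ_ne_zero k
  by_cases hpq : q ∣ p
  · obtain ⟨p1, hp1⟩ := hpq
    have hqp1 : ¬ q ∣ p1 := by
      rintro ⟨p2, hp2⟩
      have := hs q ⟨p2, by rw [hp1, hp2, mul_assoc]⟩
      exact hq.not_isUnit this
    have hdp : derivative p = derivative q * p1 + q * derivative p1 := by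
      rw [hp1, derivative_mul]
    have key : q ^ (k + 1) * (C (1 - 2 * ((k : Ω) + 1)) * u * w * derivative q * p1) =
        q ^ (k + 1) * (q * (C (2 * γ) * q ^ k * w ^ 2 - 2 * (derivative u * w - u * derivative w) * p1 -
          u * w * derivative p1)) := by
      rw [hdv, hdp, hp1] at h
      rw [hw] at h
      have e1 : (C (1 - 2 * ((k : Ω) + 1)) : Polynomial Ω) = 1 - 2 * C ((k : Ω) + 1) := by
        rw [C_sub, C_mul, C_1]
        rfl
      rw [e1]
      linear_combination h
    have key2 := mul_left_cancel₀ (pow_ne_zero _ hq0) key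
    have hd : q ∣ C (1 - 2 * ((k : Ω) + 1)) * u * w * derivative q * p1 := ⟨_, key2⟩
    have hne : (1 - 2 * ((k : Ω) + 1)) ≠ 0 := by
      intro h0
      have h1 : (2 * (k : Ω) + 1) = 0 := by linear_combination -h0
      have h2 : ((2 * k + 1 : ℕ) : Ω) = 0 := by push_cast; exact h1
      exact absurd h2 (Nat.cast_ne_zero.2 (by omega))
    rcases hqp.dvd_or_dvd hd with hd | hd
    · rcases hqp.dvd_or_dvd hd with hd | hd
      · rcases hqp.dvd_or_dvd hd with hd | hd
        · rcases hqp.dvd_or_dvd hd with hd | hd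
          · exact hconst _ hne hd
          · exact hqu hd
        · exact hqw hd
      · exact hq' hd
    · exact hqp1 hd
  · have key : q ^ k * (C (2 * ((k : Ω) + 1)) * u * w * derivative q * p) =
        q ^ k * (q * (2 * (derivative u * w - u * derivative w) * p +
          u * w * derivative p - C (2 * γ) * q ^ (k + 1) * w ^ 2)) := by
      rw [hdv] at h
      rw [hw] at h
      have e1 : (C (2 * ((k : Ω) + 1)) : Polynomial Ω) = 2 * C ((k : Ω) + 1) := by
        rw [C_mul]
        rfl
      rw [e1]
      linear_combination -h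
    have key2 := mul_left_cancel₀ (pow_ne_zero _ hq0) key
    have hd : q ∣ C (2 * ((k : Ω) + 1)) * u * w * derivative q * p := ⟨_, key2⟩
    have hne : (2 * ((k : Ω) + 1)) ≠ 0 := mul_ne_zero two_ne_zero hk1
    rcases hqp.dvd_or_dvd hd with hd | hd
    · rcases hqp.dvd_or_dvd hd with hd | hd
      · rcases hqp.dvd_or_dvd hd with hd | hd
        · rcases hqp.dvd_or_dvd hd with hd | hd
          · exact hconst _ hne hd
          · exact hqu hd
        · exact hqw hd
      · exact hq' hd
    · exact hpq hd

/-- If `b = u / v` (coprime) satisfies `b' p + b p' / 2 = γ` for a squarefree polynomial `p` of degree at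
least `3`, then `γ = 0`.
Proof. Map everything to the algebraic closure first (`Squarefree` iff `Separable` in characteristic `0`,
`PerfectField.separable_iff_squarefree`; `Separable` is preserved by `map`). Suppose `v`
has a root `α` of multiplicity `m ≥ 1`, `v = (X - α)^m w`, `w(α) ≠ 0`, `u(α) ≠ 0`. The equation is
`2 (u' v - u v') p + u v p' = 2 γ v^2`. If `p(α) ≠ 0` divide by `(X - α)^(m - 1)` and evaluate at `α`:
`- 2 m u(α) w(α) p(α) = 0`, impossible. If `p(α) = 0` then `p = (X - α) p₁`, `p₁(α) ≠ 0`, `p'(α) = p₁(α)`;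
divide by `(X - α)^m` and evaluate at `α`: `(1 - 2 m) u(α) w(α) p₁(α) = 0`, impossible. So `v` is a nonzero
constant `c`; then `2 c u' p + c u p' = 2 γ c^2`; if `u ≠ 0` has degree `e`, and `d = natDegree p`, the left
side has degree `e + d - 1 ≥ 2` with leading coefficient `(2 e + d) c lc(u) lc(p) ≠ 0`, impossible as the
right side is constant. So `u = 0`, `γ = 0`. -/
theorem no_rational_antiderivative {Ω : Type*} [Field Ω] [CharZero Ω] (p : Polynomial Ω)
    (hp : 3 ≤ p.natDegree) (hs : Squarefree p) (u v : Polynomial Ω) (hv : v ≠ 0)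
    (huv : IsCoprime u v) (γ : Ω)
    (h : 2 * (derivative u * v - u * derivative v) * p + u * v * derivative p =
      C (2 * γ) * v ^ 2) : γ = 0 := by
  have hvu : IsUnit v := E6_isUnit p hs u v hv huv γ h
  obtain ⟨c, hc, hcv⟩ := Polynomial.isUnit_iff.1 hvu
  have hc0 : c ≠ 0 := hc.ne_zero
  rw [← hcv] at h
  by_cases hu : u = 0
  · rw [hu] at h
    have h1 : (C (2 * γ * c ^ 2) : Polynomial Ω) = 0 := by
      rw [C_mul, C_pow, ← h]
      simp
    rw [C_eq_zero] at h1
    rcases mul_eq_zero.1 h1 with h2 | h2
    · exact (mul_eq_zero.1 h2).resolve_left two_ne_zero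
    · exact absurd h2 (pow_ne_zero _ hc0)
  · exfalso
    obtain ⟨d, hd⟩ : ∃ d, p.natDegree = d + 1 := ⟨p.natDegree - 1, by omega⟩
    have hp0 : p ≠ 0 := by
      intro h0
      rw [h0, natDegree_zero] at hp
      omega
    have hlp : p.coeff (d + 1) ≠ 0 := by
      rw [← hd]
      exact leadingCoeff_ne_zero.2 hp0
    have hlu : u.coeff u.natDegree ≠ 0 := leadingCoeff_ne_zero.2 hu
    have hdd : (derivative p).natDegree ≤ d := by
      have := natDegree_derivative_le p
      omega
    have e2 : (u * derivative p).coeff (u.natDegree + d) =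
        u.coeff u.natDegree * (p.coeff (d + 1) * ((d : Ω) + 1)) := by
      rw [coeff_mul_add_eq_of_natDegree_le le_rfl hdd, coeff_derivative]
    have e1 : (derivative u * p).coeff (u.natDegree + d) =
        (u.natDegree : Ω) * u.coeff u.natDegree * p.coeff (d + 1) := by
      rcases Nat.eq_zero_or_eq_succ_pred u.natDegree with h0 | h0
      · rw [eq_C_of_natDegree_eq_zero h0]
        simp
      · obtain ⟨e, he⟩ : ∃ e, u.natDegree = e + 1 := ⟨_, h0⟩
        have hud : (derivative u).natDegree ≤ e := by
          have := natDegree_derivative_le u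
          omega
        rw [he, show e + 1 + d = e + (d + 1) by ring,
          coeff_mul_add_eq_of_natDegree_le hud (le_of_eq hd), coeff_derivative]
        push_cast
        ring
    have e3 : 2 * (derivative u * C c - u * derivative (C c)) * p + u * C c * derivative p =
        C (2 * c) * (derivative u * p) + C c * (u * derivative p) := by
      rw [derivative_C, C_mul]
      have : (C 2 : Polynomial Ω) = 2 := rfl
      rw [this]
      ring
    rw [e3] at h
    have h1 := congrArg (fun r : Polynomial Ω => r.coeff (u.natDegree + d)) h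
    simp only [coeff_add, coeff_C_mul] at h1
    rw [e1, e2, ← C_pow, coeff_C, if_neg (by omega), mul_zero] at h1
    have h2 : c * u.coeff u.natDegree * p.coeff (d + 1) * ((2 * u.natDegree + d + 1 : ℕ) : Ω) = 0 := by
      push_cast
      linear_combination h1
    have h3 : ((2 * u.natDegree + d + 1 : ℕ) : Ω) ≠ 0 := Nat.cast_ne_zero.2 (by omega)
    exact (mul_ne_zero (mul_ne_zero (mul_ne_zero hc0 hlu) hlp) h3) h2

end Pool.Agent.Lib.MP_17a322_nt.VN
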