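import Pool.Agent.Lib.MP_17a322_nt.Mb

/-!
Antiderivatives in algebraic extensions.
-/

namespace Pool.Agent.Lib.MP_17a322_nt.VN

open Polynomial

/-- First reduction: an antiderivative in the algebraic extension gives one in any subfield `M` that is
stable under `D` and over which the element is algebraic. Proof. Minimal polynomial
`X^r + a_1 X^(r-1) + ...` of `κ` over `M`; apply `D` to the equation (`D κ = γ`, `D` maps `M` to `M`): this is a
polynomial relation of degree at most `r - 1` for `κ`, whose coefficient of `X^(r-1)` is `r γ + D a_1`; by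
minimality it vanishes. Take `κ' = - a_1 / r`. -/
theorem exists_antiderivative {L : Type*} [Field L] [CharZero L] (M : Subfield L)
    (D : Derivation ℤ L L) (hM : ∀ a ∈ M, D a ∈ M) (κ γ : L) (hκ : IsAlgebraic M κ)
    (hγ : γ ∈ M) (h : D κ = γ) : ∃ κ' ∈ M, D κ' = γ := by
  classical
  let dl : M →ₗ[ℤ] M := AddMonoidHom.toIntLinearMap
    { toFun := fun a => ⟨D a, hM a a.2⟩
      map_zero' := by ext; simp
      map_add' := fun a b => by ext; simp }
  let d : Derivation ℤ M M := Derivation.mk' dl (fun a b => by
    apply Subtype.ext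
    change D ((a : L) * b) = a * D b + b * D a
    rw [D.leibniz, smul_eq_mul, smul_eq_mul])
  have hd : ∀ a : M, ((d a : M) : L) = D a := fun a => rfl
  let _ : Differential L := ⟨D⟩
  let _ : Differential M := ⟨d⟩
  have _ : DifferentialAlgebra M L := ⟨fun a => rfl⟩
  set p := minpoly M κ with hp
  have hint : IsIntegral M κ := hκ.isIntegral
  have hmon : p.Monic := minpoly.monic hint
  have hr : 0 < p.natDegree := minpoly.natDegree_pos hint
  have key := Differential.deriv_aeval_eq (A := M) κ p
  rw [hp, minpoly.aeval, ← hp] at key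
  let g : M := ⟨γ, hγ⟩
  let q : M[X] := Differential.mapCoeffs p + derivative p * C g
  have hq0 : aeval κ q = 0 := by
    have h1 : (Differential.deriv κ : L) = γ := h
    rw [h1] at key
    simp only [q, map_add, map_mul, aeval_C]
    change aeval κ (Differential.mapCoeffs p) + aeval κ (derivative p) * γ = 0
    rw [← key]
    exact map_zero D
  have hcoef : ∀ i, q.coeff i = d (p.coeff i) + p.coeff (i + 1) * (i + 1) * g := by
    intro i
    simp only [q, coeff_add, Differential.coeff_mapCoeffs, coeff_mul_C, coeff_derivative]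
    rfl
  have hdeg : q.degree < p.degree := by
    rw [degree_eq_natDegree hmon.ne_zero, degree_lt_iff_coeff_zero]
    intro m hm
    rw [hcoef]
    have h2 : p.coeff (m + 1) = 0 := coeff_eq_zero_of_natDegree_lt (by omega)
    rw [h2]
    rcases hm.lt_or_eq with h3 | h3
    · rw [coeff_eq_zero_of_natDegree_lt h3]; simp
    · rw [← h3, hmon.coeff_natDegree]; simp
  have hqz : q = 0 := by
    by_contra hne
    exact absurd (minpoly.degree_le_of_ne_zero M κ hne hq0) (not_le.mpr hdeg)
  obtain ⟨r, hr'⟩ : ∃ r, p.natDegree = r + 1 := ⟨p.natDegree - 1, by omega⟩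
  have h4 := hcoef r
  rw [hqz, coeff_zero] at h4
  have h5 : p.coeff (r + 1) = 1 := by rw [← hr']; exact hmon.coeff_natDegree
  rw [h5, one_mul] at h4
  have h6 : (0 : L) = D (p.coeff r : L) + ((r : L) + 1) * γ := by
    have := congrArg (fun a : M => (a : L)) h4
    simpa [hd, g] using this
  have hrne : ((r : L) + 1) ≠ 0 := by exact_mod_cast Nat.succ_ne_zero r
  refine ⟨-((p.coeff r : L)) / ((r : L) + 1), ?_, ?_⟩
  · apply M.div_mem (M.neg_mem (p.coeff r).2)
    exact M.add_mem (natCast_mem M r) M.one_mem
  · have h7 : D ((r : L) + 1) = 0 := by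
      rw [map_add, D.map_natCast, D.map_one_eq_zero, add_zero]
    have h8 : D (((r : L) + 1) * (-((p.coeff r : L)) / ((r : L) + 1))) = -D (p.coeff r : L) := by
      rw [mul_div_cancel₀ _ hrne, map_neg]
    rw [D.leibniz, h7, smul_zero, add_zero, smul_eq_mul] at h8
    have h9 : ((r : L) + 1) * D (-((p.coeff r : L)) / ((r : L) + 1)) = ((r : L) + 1) * γ := by
      rw [h8]; linear_combination h6
    exact mul_left_cancel₀ hrne h9

end Pool.Agent.Lib.MP_17a322_nt.VN
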