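import Pool.Agent.Lib.MP_17a322_nt.Mb

/-!
The square root of a squarefree polynomial is not rational.
-/

namespace Pool.Agent.Lib.MP_17a322_nt.VN

open Polynomial

/-- `ψ = sqrt (p(x))` is not in `Ω(x)`.
Proof. `ψ = u(x) / v(x)` with coprime `u`, `v`; `x` is transcendental, so `u^2 = p v^2` as polynomials. If `v`
is not constant it has a common factor with `u`; so `p = (u / v)^2` with a constant `v`, not squarefree since
`natDegree p ≥ 1`. -/
theorem sqrt_notMem {Ω L : Type*} [Field Ω] [Field L] [Algebra Ω L] (x ψ : L)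
    (hx : Transcendental Ω x) (p : Polynomial Ω) (hp : 1 ≤ p.natDegree) (hs : Squarefree p)
    (hψ : ψ ^ 2 = aeval x p) : ψ ∉ IntermediateField.adjoin Ω {x} := by
  intro hmem
  obtain ⟨u, w, huw⟩ := (IntermediateField.mem_adjoin_simple_iff Ω _).1 hmem
  have hinj : Function.Injective (aeval x : Polynomial Ω → L) :=
    transcendental_iff_injective.1 hx
  have hw : w ≠ 0 := by
    rintro rfl
    rw [map_zero, div_zero] at huw
    rw [huw, zero_pow two_ne_zero] at hψ
    have h1 : p = 0 := hinj (by rw [← hψ, map_zero])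
    rw [h1, natDegree_zero] at hp
    omega
  have hwx : aeval x w ≠ 0 := fun h => hw (hinj (by rw [h, map_zero]))
  have h1 : u ^ 2 = w ^ 2 * p := by
    apply hinj
    rw [map_pow, map_mul, map_pow, ← hψ, huw, div_pow, mul_div_cancel₀ _ (pow_ne_zero 2 hwx)]
  have h2 : w ∣ u := by
    rw [← UniqueFactorizationMonoid.pow_dvd_pow_iff_dvd (n := 2) two_ne_zero]
    exact ⟨p, h1⟩
  obtain ⟨q, rfl⟩ := h2
  have h3 : p = q * q := by
    have h4 : w ^ 2 * (q * q) = w ^ 2 * p := by
      rw [← h1]
      ring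
    exact (mul_left_cancel₀ (pow_ne_zero 2 hw) h4).symm
  have h5 : IsUnit q := hs q (by rw [h3])
  have h6 := natDegree_eq_zero_of_isUnit h5
  rw [h3, natDegree_mul', h6] at hp
  · omega
  · rw [← leadingCoeff_mul, leadingCoeff_ne_zero]
    exact mul_ne_zero h5.ne_zero h5.ne_zero

end Pool.Agent.Lib.MP_17a322_nt.VN
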