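import Pool.Agent.Lib.MP_17a322_nt.VN.E5
import Pool.Agent.Lib.MP_17a322_nt.VN.E6
import Pool.Agent.Lib.MP_17a322_nt.VN.E7a
import Pool.Agent.Lib.MP_17a322_nt.VN.E7b

/-!
The invariant differential is not exact.
-/

namespace Pool.Agent.Lib.MP_17a322_nt.VN

open Polynomial

/-- Elements of `Ω(x)` as quotients of coprime polynomials. -/
private theorem E7_frac {Ω L : Type*} [Field Ω] [Field L] [Algebra Ω L] (x : L)
    (hx : Transcendental Ω x) (b : L) (hb : b ∈ IntermediateField.adjoin Ω {x}) :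
    ∃ u v : Polynomial Ω, v ≠ 0 ∧ IsCoprime u v ∧ aeval x v ≠ 0 ∧ b = aeval x u / aeval x v := by
  classical
  rw [IntermediateField.mem_adjoin_simple_iff] at hb
  obtain ⟨r, s, hb⟩ := hb
  by_cases hs : s = 0
  · refine ⟨0, 1, one_ne_zero, isCoprime_zero_left.2 isUnit_one, ?_, ?_⟩
    · rw [map_one]
      exact one_ne_zero
    · rw [hb, hs, map_zero, div_zero, zero_div]
  · letI := EuclideanDomain.gcdMonoid (Polynomial Ω)
    have hg : GCDMonoid.gcd r s ≠ 0 := gcd_ne_zero_of_right hs
    have h1 : GCDMonoid.gcd r s * (r / GCDMonoid.gcd r s) = r :=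
      EuclideanDomain.mul_div_cancel' hg (gcd_dvd_left _ _)
    have h2 : GCDMonoid.gcd r s * (s / GCDMonoid.gcd r s) = s :=
      EuclideanDomain.mul_div_cancel' hg (gcd_dvd_right _ _)
    have hv : s / GCDMonoid.gcd r s ≠ 0 := by
      intro h0
      rw [h0, mul_zero] at h2
      exact hs h2.symm
    have hne : ∀ f : Polynomial Ω, f ≠ 0 → aeval x f ≠ 0 := fun f hf h0 => hx ⟨f, hf, h0⟩
    refine ⟨r / GCDMonoid.gcd r s, s / GCDMonoid.gcd r s, hv, isCoprime_div_gcd_div_gcd hs,
      hne _ hv, ?_⟩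
    have h3 : aeval x r = aeval x (GCDMonoid.gcd r s) * aeval x (r / GCDMonoid.gcd r s) := by
      rw [← map_mul, h1]
    have h4 : aeval x s = aeval x (GCDMonoid.gcd r s) * aeval x (s / GCDMonoid.gcd r s) := by
      rw [← map_mul, h2]
    rw [hb, h3, h4, mul_div_mul_left _ _ (hne _ hg)]

/-- The derivation on polynomials in `x`. -/
private theorem E7_poly {Ω L : Type*} [Field Ω] [Field L] [Algebra Ω L] (x ψ : L)
    (D : Derivation ℤ L L) (hD : ∀ a : Ω, D (algebraMap Ω L a) = 0) (hDx : D x = ψ)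
    (f : Polynomial Ω) : D (aeval x f) = aeval x (derivative f) * ψ := by
  induction f using Polynomial.induction_on' with
  | add f g hf hg => rw [map_add, map_add, hf, hg, derivative_add, map_add, add_mul]
  | monomial n a =>
    rw [derivative_monomial, aeval_monomial, aeval_monomial, Derivation.leibniz, hD, smul_zero,
      add_zero, Derivation.leibniz_pow, hDx, smul_eq_mul, smul_eq_mul, nsmul_eq_mul, map_mul,
      map_natCast]
    ring

/-- The derivation on `Ω(x)`. -/
private theorem E7_div {Ω L : Type*} [Field Ω] [Field L] [Algebra Ω L] (x ψ : L)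
    (D : Derivation ℤ L L) (hD : ∀ a : Ω, D (algebraMap Ω L a) = 0) (hDx : D x = ψ)
    (u v : Polynomial Ω) (hv : aeval x v ≠ 0) :
    D (aeval x u / aeval x v) =
      (aeval x (derivative u * v - u * derivative v) / aeval x v ^ 2) * ψ := by
  rw [Derivation.leibniz_div, E7_poly x ψ D hD hDx, E7_poly x ψ D hD hDx, map_sub, map_mul, map_mul]
  simp only [smul_eq_mul]
  field_simp

/-- Exactness. Proof. Let `E = Ω(x)`, `M = Ω(x, ψ) = E + E ψ` (`ψ ∉ E` by `sqrt_notMem`; so `ψ ≠ 0`).
`D ψ = p'(x) / 2` from `ψ^2 = p(x)` (`D` kills the coefficients of `p`), so `D` maps `M` to `M`. By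
`exists_antiderivative` there is `κ' = a + b ψ`, `a, b ∈ E`, with `D κ' = γ`. For `a = a(x) ∈ E` one has
`D a = a'(x) ψ` (`a'` the derivative with respect to `x`; every element of `E` is `u(x) / v(x)` with coprime
polynomials). So `D κ' = a' ψ + (b' p + b p' / 2)` and, by `ψ ∉ E`, `b' p + b p' / 2 = γ` in `E`; multiply by
`2 v^2` (`b = u / v`) and use that `x` is transcendental to get the identity of polynomials in
`no_rational_antiderivative`. -/
theorem exactness {Ω L : Type*} [Field Ω] [CharZero Ω] [Field L] [Algebra Ω L] (x ψ : L)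
    (hx : Transcendental Ω x) (hL : Algebra.IsAlgebraic (IntermediateField.adjoin Ω {x}) L)
    (p : Polynomial Ω) (hp : 3 ≤ p.natDegree) (hs : Squarefree p) (hψ : ψ ^ 2 = aeval x p)
    (D : Derivation ℤ L L) (hD : ∀ a : Ω, D (algebraMap Ω L a) = 0) (hDx : D x = ψ) (κ : L) (γ : Ω)
    (hκ : D κ = algebraMap Ω L γ) : γ = 0 := by
  have hchar : CharZero L := charZero_of_injective_algebraMap (algebraMap Ω L).injective
  have hψE : ψ ∉ IntermediateField.adjoin Ω {x} := sqrt_notMem x ψ hx p (by omega) hs hψ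
  have hψ0 : ψ ≠ 0 := by
    intro h0
    exact hψE (h0 ▸ zero_mem _)
  have hpE : ∀ f : Polynomial Ω, aeval x f ∈ IntermediateField.adjoin Ω {x} := fun f => by
    rw [IntermediateField.mem_adjoin_simple_iff]
    exact ⟨f, 1, by rw [map_one, div_one]⟩
  have h2 : (2 : L) ≠ 0 := two_ne_zero
  have h2E : (2 : L) ∈ IntermediateField.adjoin Ω {x} := by
    have := hpE 2
    rwa [map_ofNat] at this
  -- the derivative of `ψ`
  have hDψ : D ψ = aeval x (derivative p) / 2 := by
    have h1 : D (ψ ^ 2) = aeval x (derivative p) * ψ := by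
      rw [hψ, E7_poly x ψ D hD hDx]
    rw [Derivation.leibniz_pow] at h1
    simp only [smul_eq_mul, nsmul_eq_mul, Nat.cast_ofNat] at h1
    have h3 : ψ * (2 * D ψ) = ψ * aeval x (derivative p) := by
      calc ψ * (2 * D ψ) = 2 * (ψ ^ (2 - 1) * D ψ) := by
            rw [show (2 - 1 : ℕ) = 1 from rfl, pow_one]
            ring
        _ = aeval x (derivative p) * ψ := h1
        _ = ψ * aeval x (derivative p) := mul_comm _ _
    have h4 := mul_left_cancel₀ hψ0 h3
    rw [← h4]
    field_simp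
  -- the derivation on `Ω(x)`
  have hDE : ∀ a ∈ IntermediateField.adjoin Ω {x}, ∃ a' ∈ IntermediateField.adjoin Ω {x},
      D a = a' * ψ := by
    intro a ha
    obtain ⟨u, v, _, _, hv, rfl⟩ := E7_frac x hx a ha
    exact ⟨_, div_mem (hpE _) (pow_mem (hpE v) 2), E7_div x ψ D hD hDx u v hv⟩
  -- the field `M`
  obtain ⟨M, hMdef⟩ : ∃ M : Subfield L, ∀ z : L, z ∈ M ↔
      ∃ a ∈ IntermediateField.adjoin Ω {x}, ∃ b ∈ IntermediateField.adjoin Ω {x},
        z = a + b * ψ := by
    refine ⟨{ carrier := {z : L | ∃ a ∈ IntermediateField.adjoin Ω {x},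
                ∃ b ∈ IntermediateField.adjoin Ω {x}, z = a + b * ψ}
              mul_mem' := ?_
              one_mem' := ⟨1, one_mem _, 0, zero_mem _, by ring⟩
              add_mem' := ?_
              zero_mem' := ⟨0, zero_mem _, 0, zero_mem _, by ring⟩
              neg_mem' := ?_
              inv_mem' := ?_ }, fun z => Iff.rfl⟩
    · rintro _ _ ⟨a, ha, b, hb, rfl⟩ ⟨c, hc, d, hd, rfl⟩
      refine ⟨a * c + b * d * ψ ^ 2, add_mem (mul_mem ha hc) (mul_mem (mul_mem hb hd) ?_),
        a * d + b * c, add_mem (mul_mem ha hd) (mul_mem hb hc), by ring⟩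
      rw [hψ]
      exact hpE p
    · rintro _ _ ⟨a, ha, b, hb, rfl⟩ ⟨c, hc, d, hd, rfl⟩
      exact ⟨a + c, add_mem ha hc, b + d, add_mem hb hd, by ring⟩
    · rintro _ ⟨a, ha, b, hb, rfl⟩
      exact ⟨-a, neg_mem ha, -b, neg_mem hb, by ring⟩
    · rintro _ ⟨a, ha, b, hb, rfl⟩
      by_cases hz : a + b * ψ = 0
      · refine ⟨0, zero_mem _, 0, zero_mem _, ?_⟩
        rw [hz, inv_zero]
        ring
      · have hz' : a - b * ψ ≠ 0 := by
          intro h0
          have hb0 : b = 0 := by
            by_contra hb0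
            apply hψE
            have : ψ = a / b := by
              rw [eq_div_iff hb0]
              linear_combination -h0
            rw [this]
            exact div_mem ha hb
          rw [hb0] at h0 hz
          apply hz
          linear_combination h0
        have hn : a ^ 2 - b ^ 2 * ψ ^ 2 ≠ 0 := by
          have : a ^ 2 - b ^ 2 * ψ ^ 2 = (a + b * ψ) * (a - b * ψ) := by ring
          rw [this]
          exact mul_ne_zero hz hz'
        have hnE : a ^ 2 - b ^ 2 * ψ ^ 2 ∈ IntermediateField.adjoin Ω {x} := by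
          rw [hψ]
          exact sub_mem (pow_mem ha 2) (mul_mem (pow_mem hb 2) (hpE p))
        refine ⟨a / (a ^ 2 - b ^ 2 * ψ ^ 2), div_mem ha hnE, -b / (a ^ 2 - b ^ 2 * ψ ^ 2),
          div_mem (neg_mem hb) hnE, ?_⟩
        rw [inv_eq_iff_eq_inv, eq_comm, inv_eq_iff_eq_inv]
        have h5 : a / (a ^ 2 - b ^ 2 * ψ ^ 2) + -b / (a ^ 2 - b ^ 2 * ψ ^ 2) * ψ =
            (a - b * ψ) / ((a + b * ψ) * (a - b * ψ)) := by
          rw [show (a + b * ψ) * (a - b * ψ) = a ^ 2 - b ^ 2 * ψ ^ 2 by ring]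
          ring
        rw [h5, div_mul_cancel_right₀ hz']
  -- `D` maps `M` to `M`
  have hDM : ∀ z ∈ M, D z ∈ M := by
    intro z hz
    obtain ⟨a, ha, b, hb, rfl⟩ := (hMdef z).1 hz
    obtain ⟨a', ha', hDa⟩ := hDE a ha
    obtain ⟨b', hb', hDb⟩ := hDE b hb
    rw [hMdef]
    refine ⟨b' * ψ ^ 2 + b * (aeval x (derivative p) / 2), ?_, a', ha', ?_⟩
    · refine add_mem (mul_mem hb' ?_) (mul_mem hb (div_mem (hpE _) h2E))
      rw [hψ]
      exact hpE p
    · rw [map_add, Derivation.leibniz, hDa, hDb, hDψ]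
      simp only [smul_eq_mul]
      ring
  have hEM : ∀ a ∈ IntermediateField.adjoin Ω {x}, a ∈ M := fun a ha => by
    rw [hMdef]
    exact ⟨a, ha, 0, zero_mem _, by ring⟩
  have halg : IsAlgebraic M κ := by
    obtain ⟨f, hf0, hf⟩ := hL.isAlgebraic κ
    let i : IntermediateField.adjoin Ω {x} →+* M :=
      { toFun := fun a => ⟨a.1, hEM a.1 a.2⟩
        map_one' := rfl
        map_mul' := fun _ _ => rfl
        map_zero' := rfl
        map_add' := fun _ _ => rfl }
    refine ⟨f.map i, (Polynomial.map_ne_zero_iff i.injective).2 hf0, ?_⟩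
    rw [aeval_def, eval₂_map]
    rw [aeval_def] at hf
    exact hf
  have hγM : algebraMap Ω L γ ∈ M := hEM _ (IntermediateField.algebraMap_mem _ γ)
  obtain ⟨κ', hκ'M, hκ'⟩ := exists_antiderivative M D hDM κ _ halg hγM hκ
  obtain ⟨a, ha, b, hb, rfl⟩ := (hMdef κ').1 hκ'M
  obtain ⟨a', ha', hDa⟩ := hDE a ha
  obtain ⟨u, v, hv0, huv, hv, rfl⟩ := E7_frac x hx b hb
  rw [map_add, Derivation.leibniz, hDa, hDψ, E7_div x ψ D hD hDx u v hv] at hκ'
  simp only [smul_eq_mul] at hκ'
  obtain ⟨w, hw⟩ : ∃ w : L, w = aeval x (derivative u * v - u * derivative v) / aeval x v ^ 2 :=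
    ⟨_, rfl⟩
  have hwE : w ∈ IntermediateField.adjoin Ω {x} := hw ▸ div_mem (hpE _) (pow_mem (hpE v) 2)
  rw [← hw] at hκ'
  have ha0 : a' = 0 := by
    by_contra ha0
    apply hψE
    have : ψ = (algebraMap Ω L γ - (w * ψ ^ 2 +
        aeval x u / aeval x v * (aeval x (derivative p) / 2))) / a' := by
      rw [eq_div_iff ha0]
      linear_combination hκ'
    rw [this]
    refine div_mem (sub_mem (IntermediateField.algebraMap_mem _ γ)
      (add_mem (mul_mem hwE ?_) (mul_mem hb (div_mem (hpE _) h2E)))) ha'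
    rw [hψ]
    exact hpE p
  have hkey : w * aeval x p + aeval x u / aeval x v * (aeval x (derivative p) / 2) =
      algebraMap Ω L γ := by
    rw [← hψ]
    rw [ha0] at hκ'
    linear_combination hκ'
  have hkey2 : aeval x (2 * (derivative u * v - u * derivative v) * p + u * v * derivative p) =
      aeval x (C (2 * γ) * v ^ 2) := by
    have h6 : w * aeval x v ^ 2 = aeval x (derivative u * v - u * derivative v) := by
      rw [hw]
      field_simp
    have h7 : aeval x u / aeval x v * aeval x v ^ 2 = aeval x u * aeval x v := by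
      field_simp
    rw [map_add, map_mul, map_mul, map_mul, map_mul, map_mul, map_pow, aeval_C, map_mul, ← h6,
      map_ofNat, map_ofNat, ← hkey]
    linear_combination (-aeval x (derivative p)) * h7
  have hpoly : 2 * (derivative u * v - u * derivative v) * p + u * v * derivative p =
      C (2 * γ) * v ^ 2 := (transcendental_iff_injective.1 hx) hkey2
  exact no_rational_antiderivative p hp hs u v hv0 huv γ hpoly

end Pool.Agent.Lib.MP_17a322_nt.VN
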