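import Pool.Agent.Lib.MP_17a322_nt.VN.E0

/-!
Chain rules.
-/

namespace Pool.Agent.Lib.MP_17a322_nt.VN

open MvPolynomial

/-- Chain rule: a derivation `Δ` of `L` extending `δ`, applied to `H(x)`. Proof. Induction on `H`
(`MvPolynomial.induction_on`), with `dc_C`, `dc_X` and the Leibniz rules. -/
theorem chain {Ω L σ : Type*} [Fintype σ] [Field Ω] [Field L] [Algebra Ω L]
    (δ : Derivation ℤ Ω Ω) (Δ : Derivation ℤ L L)
    (h : ∀ a, Δ (algebraMap Ω L a) = algebraMap Ω L (δ a)) (x : σ → L) (H : MvPolynomial σ Ω) :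
    Δ (aeval x H) = aeval x (dc σ δ H) + ∑ j, aeval x (pderiv j H) * Δ (x j) := by
  classical
  induction H using MvPolynomial.induction_on with
  | C a =>
    rw [dc_C, aeval_C, aeval_C, h]
    simp only [pderiv_C, map_zero, zero_mul, Finset.sum_const_zero, add_zero]
  | add p q hp hq =>
    simp only [map_add, add_mul, Finset.sum_add_distrib] at hp hq ⊢
    rw [hp, hq]
    ring
  | mul_X p i hp =>
    have h1 : ∀ j, aeval x (pderiv j (p * X i)) * Δ (x j) =
        (if j = i then aeval x p * Δ (x i) else 0) + x i * (aeval x (pderiv j p) * Δ (x j)) := by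
      intro j
      rw [Derivation.leibniz, pderiv_X, smul_eq_mul, smul_eq_mul, map_add, map_mul, map_mul, aeval_X]
      by_cases hj : j = i
      · subst hj
        rw [if_pos rfl, Pi.single_eq_same, map_one]
        ring
      · rw [if_neg hj, Pi.single_eq_of_ne (Ne.symm hj), map_zero]
        ring
    rw [Finset.sum_congr rfl fun j _ => h1 j, Finset.sum_add_distrib, Finset.sum_ite_eq',
      if_pos (Finset.mem_univ i), ← Finset.mul_sum, map_mul, Derivation.leibniz,
      Derivation.leibniz, dc_X, aeval_X, hp, smul_eq_mul, smul_eq_mul, smul_eq_mul, smul_eq_mul,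
      mul_zero, zero_add, map_mul, aeval_X]
    ring

/-- Chain rule for one variable, coefficients killed by `Δ`. -/
theorem chain_poly {Ω L : Type*} [Field Ω] [Field L] [Algebra Ω L] (Δ : Derivation ℤ L L)
    (q : Polynomial Ω) (h : ∀ m, Δ (algebraMap Ω L (q.coeff m)) = 0) (z : L) :
    Δ (Polynomial.aeval z q) = Polynomial.aeval z (Polynomial.derivative q) * Δ z := by
  rw [Polynomial.aeval_def, Polynomial.eval₂_eq_sum, Polynomial.sum_def, map_sum,
    Polynomial.derivative_apply, Polynomial.sum_def, map_sum, Finset.sum_mul]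
  refine Finset.sum_congr rfl fun m _ => ?_
  rw [Derivation.leibniz, h m, smul_zero, add_zero, Derivation.leibniz_pow, smul_eq_mul,
    nsmul_eq_mul, smul_eq_mul]
  rw [map_mul, map_pow, Polynomial.aeval_X, Polynomial.aeval_C, map_mul, map_natCast]
  ring

end Pool.Agent.Lib.MP_17a322_nt.VN
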