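import Pool.Agent.Lib.MP_17a322_nt.Mb

/-!
Differential prime ideals in characteristic zero.
-/

namespace Pool.Agent.Lib.MP_17a322_nt.VN

private theorem E9_leibniz {R : Type*} [CommRing R] (D : Derivation ℤ R R) (n : ℕ) :
    ∀ a b : R, D^[n] (a * b) =
      ∑ ij ∈ Finset.HasAntidiagonal.antidiagonal n, (n.choose ij.1) • (D^[ij.1] a * D^[ij.2] b) := by
  induction n with
  | zero =>
    intro a b
    simp
  | succ n ih =>
    intro a b
    have h := Finset.sum_antidiagonal_choose_succ_nsmul (fun i j => D^[i] a * D^[j] b) n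
    rw [h, Function.iterate_succ_apply', ih, map_sum, ← Finset.sum_add_distrib]
    refine Finset.sum_congr rfl fun ij hij => ?_
    rw [Finset.HasAntidiagonal.mem_antidiagonal] at hij
    have hs : n.choose ij.2 = n.choose ij.1 := by
      rw [← hij]
      exact Nat.choose_symm_add.symm
    rw [hs, map_nsmul, Derivation.leibniz, smul_eq_mul, smul_eq_mul, Function.iterate_succ_apply',
      Function.iterate_succ_apply', ← smul_add]
    congr 1
    ring

/-- For a prime ideal `m` the set `{a | ∀ k, D^k a ∈ m}` is a prime ideal, stable under `D`, contained in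
`m`, and it contains every `D`-stable ideal contained in `m`.
Proof. Ideal: `D^k (a b) = ∑ choose k i • D^i a D^(k-i) b` (Leibniz: prove it by induction, or look for
`Derivation.leibniz_pow`/`iterate`; `Derivation` iterates as `D^[k]`). Prime: if `a`, `b` are not in the set
take the minimal `i`, `j` with `D^i a ∉ m`, `D^j b ∉ m`; in `D^(i+j) (a b)` all terms except
`choose (i+j) i • D^i a D^j b` are in `m`, and this one is not (the integer is invertible because of
`Algebra ℚ R`). -/
theorem exists_stable_prime {R : Type*} [CommRing R] [Algebra ℚ R] (D : Derivation ℤ R R)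
    (m : Ideal R) (hm : m.IsPrime) : ∃ P : Ideal R, P.IsPrime ∧ P ≤ m ∧ (∀ a ∈ P, D a ∈ P) ∧
      ∀ I : Ideal R, I ≤ m → (∀ a ∈ I, D a ∈ I) → I ≤ P := by
  classical
  let P : Ideal R :=
    { carrier := {a | ∀ k : ℕ, D^[k] a ∈ m}
      add_mem' := by
        intro a b ha hb k
        rw [iterate_map_add]
        exact m.add_mem (ha k) (hb k)
      zero_mem' := by
        intro k
        rw [iterate_map_zero]
        exact m.zero_mem
      smul_mem' := by
        intro c a ha k
        rw [smul_eq_mul, E9_leibniz]
        refine m.sum_mem fun ij _ => ?_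
        exact m.smul_of_tower_mem _ (m.mul_mem_left _ (ha ij.2)) }
  have hmem : ∀ a, a ∈ P ↔ ∀ k : ℕ, D^[k] a ∈ m := fun a => Iff.rfl
  have hPm : P ≤ m := fun a ha => by simpa using (hmem a).1 ha 0
  refine ⟨P, ⟨?_, ?_⟩, hPm, ?_, ?_⟩
  · intro h
    exact hm.ne_top (top_le_iff.1 (h ▸ hPm))
  · intro a b hab
    by_contra hcon
    rw [not_or] at hcon
    obtain ⟨ha, hb⟩ := hcon
    rw [hmem, not_forall] at ha hb
    have hi := Nat.find_spec ha
    have hj := Nat.find_spec hb
    have hi' : ∀ p, p < Nat.find ha → D^[p] a ∈ m := fun p hp => not_not.1 (Nat.find_min ha hp)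
    have hj' : ∀ p, p < Nat.find hb → D^[p] b ∈ m := fun p hp => not_not.1 (Nat.find_min hb hp)
    have h1 := (hmem _).1 hab (Nat.find ha + Nat.find hb)
    rw [E9_leibniz, ← Finset.add_sum_erase _ _
      (show (Nat.find ha, Nat.find hb) ∈ Finset.HasAntidiagonal.antidiagonal (Nat.find ha + Nat.find hb) from
        Finset.HasAntidiagonal.mem_antidiagonal.2 rfl)] at h1
    have h2 : ∑ ij ∈ (Finset.HasAntidiagonal.antidiagonal (Nat.find ha + Nat.find hb)).erase
        (Nat.find ha, Nat.find hb),
        ((Nat.find ha + Nat.find hb).choose ij.1) • (D^[ij.1] a * D^[ij.2] b) ∈ m := by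
      refine m.sum_mem fun ij hij => ?_
      rw [Finset.mem_erase, Finset.HasAntidiagonal.mem_antidiagonal] at hij
      refine m.smul_of_tower_mem _ ?_
      rcases Nat.lt_or_ge ij.1 (Nat.find ha) with h3 | h3
      · exact m.mul_mem_right _ (hi' _ h3)
      · have h4 : ij.2 < Nat.find hb := by
          rcases Nat.lt_or_ge ij.2 (Nat.find hb) with h5 | h5
          · exact h5
          · exfalso
            apply hij.1
            ext
            · show ij.1 = Nat.find ha
              omega
            · show ij.2 = Nat.find hb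
              omega
        exact m.mul_mem_left _ (hj' _ h4)
    have h3 : ((Nat.find ha + Nat.find hb).choose (Nat.find ha)) •
        (D^[Nat.find ha] a * D^[Nat.find hb] b) ∈ m := (m.add_mem_iff_left h2).1 h1
    have hc0 : ((Nat.find ha + Nat.find hb).choose (Nat.find ha) : ℚ) ≠ 0 := by
      exact_mod_cast (Nat.choose_pos (Nat.le_add_right _ _)).ne'
    have h4 : D^[Nat.find ha] a * D^[Nat.find hb] b ∈ m := by
      have h5 := m.mul_mem_left (algebraMap ℚ R
        (((Nat.find ha + Nat.find hb).choose (Nat.find ha) : ℚ))⁻¹) h3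
      rw [nsmul_eq_mul, ← mul_assoc, ← map_natCast (algebraMap ℚ R), ← map_mul,
        inv_mul_cancel₀ hc0, map_one, one_mul] at h5
      exact h5
    rcases hm.mem_or_mem h4 with h5 | h5
    · exact hi h5
    · exact hj h5
  · intro a ha k
    have := (hmem a).1 ha (k + 1)
    rwa [Function.iterate_succ_apply] at this
  · intro I hI hst a ha k
    have : ∀ k : ℕ, D^[k] a ∈ I := by
      intro k
      induction k with
      | zero => exact ha
      | succ k ih =>
        rw [Function.iterate_succ_apply']
        exact hst _ ih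
    exact hI (this k)

/-- The minimal primes over a `D`-stable ideal are `D`-stable. Proof. `exists_stable_prime` for `m = P`:
the prime `P'` contains `I` and is contained in `P`, so `P' = P` by minimality. -/
theorem minimalPrimes_stable {R : Type*} [CommRing R] [Algebra ℚ R] (D : Derivation ℤ R R)
    (I P : Ideal R) (hP : P ∈ I.minimalPrimes) (hI : ∀ a ∈ I, D a ∈ I) : ∀ a ∈ P, D a ∈ P := by
  obtain ⟨P', hp', hle, hst, hmax⟩ := exists_stable_prime D P hP.1.1
  have h1 : I ≤ P' := hmax I hP.1.2 hI
  have h2 : P ≤ P' := hP.2 ⟨hp', h1⟩ hle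
  have h3 : P' = P := le_antisymm hle h2
  rw [← h3]
  exact hst

end Pool.Agent.Lib.MP_17a322_nt.VN
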