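import Pool.Agent.Lib.MP_17a322_nt.VN.E22

/-!
The input `END` of part Z.
-/
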