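import Pool.Agent.Lib.MP_17a322_nt.VN.Defs

/-!
VN, part F: germs of sequences.
-/

universe u

namespace Pool.Agent.Lib.MP_17a322_nt.VN

open MvPolynomial Height Filter
open Pool.Agent.Lib.MP_17a322_nt.RO
open Pool.Agent.Lib.MP_17a322_nt.VJ

section

variable {K : Type*}

theorem gm_eq_iff {a b : ℕ → K} :
    gm a = gm b ↔ ∀ᶠ i in (hyperfilter ℕ : Filter ℕ), a i = b i :=
  Germ.coe_eq

theorem exists_gm (a : GK K) : ∃ α : ℕ → K, gm α = a :=
  Quotient.exists_rep a

/-- If for almost all `i` there is an object, there is a sequence of objects. -/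
theorem exists_seq {X : Type*} [Nonempty X] {Q : ℕ → X → Prop}
    (h : ∀ᶠ i in (hyperfilter ℕ : Filter ℕ), ∃ x, Q i x) :
    ∃ x : ℕ → X, ∀ᶠ i in (hyperfilter ℕ : Filter ℕ), Q i (x i) := by
  classical
  refine ⟨fun i => if h : ∃ x, Q i x then h.choose else Classical.arbitrary X, ?_⟩
  filter_upwards [h] with i hi
  rw [dif_pos hi]
  exact hi.choose_spec

/-- A function to a finite type is constant almost everywhere. -/
theorem exists_const {X : Type*} [Finite X] (x : ℕ → X) :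
    ∃ c, ∀ᶠ i in (hyperfilter ℕ : Filter ℕ), x i = c := by
  have h : ∀ᶠ i in (hyperfilter ℕ : Filter ℕ), ∃ c, x i = c := Eventually.of_forall fun i => ⟨_, rfl⟩
  exact Ultrafilter.eventually_exists_iff.mp h

theorem not_eventually_iff {p : ℕ → Prop} :
    (¬ ∀ᶠ i in (hyperfilter ℕ : Filter ℕ), p i) ↔ ∀ᶠ i in (hyperfilter ℕ : Filter ℕ), ¬ p i :=
  Ultrafilter.eventually_not.symm

theorem eventually_ge_hyper (n : ℕ) : ∀ᶠ i in (hyperfilter ℕ : Filter ℕ), n ≤ i := by
  have h : ∀ᶠ i in (atTop : Filter ℕ), n ≤ i := eventually_ge_atTop n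
  exact h.filter_mono Nat.hyperfilter_le_atTop

/-- Diagonal choice. -/
theorem exists_diag {Q : ℕ → ℕ → Prop} (h : ∀ n, ∀ᶠ i in (hyperfilter ℕ : Filter ℕ), Q n i) :
    ∃ n : ℕ → ℕ, (∀ᶠ i in (hyperfilter ℕ : Filter ℕ), Q (n i) i) ∧
      ∀ N, ∀ᶠ i in (hyperfilter ℕ : Filter ℕ), N ≤ n i := by
  classical
  refine ⟨fun i => Nat.findGreatest (fun n => Q n i) i, ?_, ?_⟩
  · filter_upwards [h 0] with i hi
    exact Nat.findGreatest_spec (P := fun n => Q n i) (Nat.zero_le i) hi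
  · intro N
    filter_upwards [h N, eventually_ge_hyper N] with i hi hN
    exact Nat.le_findGreatest hN hi

end

section

variable {K : Type*} [Field K]

/-- The ring homomorphism from sequences to germs. -/
noncomputable def gR (K : Type*) [Field K] : (ℕ → K) →+* GK K :=
  Germ.coeRingHom (hyperfilter ℕ : Filter ℕ)

theorem gR_apply (a : ℕ → K) : gR K a = gm a := rfl

theorem gm_zero : gm (fun _ => (0 : K)) = 0 := rfl

theorem gm_one : gm (fun _ => (1 : K)) = 1 := rfl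

theorem gm_add (a b : ℕ → K) : gm (fun i => a i + b i) = gm a + gm b := rfl

theorem gm_mul (a b : ℕ → K) : gm (fun i => a i * b i) = gm a * gm b := rfl

theorem gm_sub (a b : ℕ → K) : gm (fun i => a i - b i) = gm a - gm b := rfl

theorem gm_neg (a : ℕ → K) : gm (fun i => - a i) = - gm a := rfl

theorem gm_inv (a : ℕ → K) : gm (fun i => (a i)⁻¹) = (gm a)⁻¹ := rfl

theorem gm_div (a b : ℕ → K) : gm (fun i => a i / b i) = gm a / gm b := rfl

theorem gm_pow (a : ℕ → K) (n : ℕ) : gm (fun i => a i ^ n) = gm a ^ n := rfl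

theorem gm_sum {ι : Type*} (s : Finset ι) (a : ι → ℕ → K) :
    gm (fun i => ∑ j ∈ s, a j i) = ∑ j ∈ s, gm (a j) := by
  simp only [← gR_apply, ← map_sum]
  congr 1
  funext i
  simp

theorem gm_prod {ι : Type*} (s : Finset ι) (a : ι → ℕ → K) :
    gm (fun i => ∏ j ∈ s, a j i) = ∏ j ∈ s, gm (a j) := by
  simp only [← gR_apply, ← map_prod]
  congr 1
  funext i
  simp

theorem algebraMap_GK (c : K) : algebraMap K (GK K) c = gm fun _ => c := rfl

theorem gm_ne_zero_iff {a : ℕ → K} :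
    gm a ≠ 0 ↔ ∀ᶠ i in (hyperfilter ℕ : Filter ℕ), a i ≠ 0 := by
  rw [← gm_zero, Ne, gm_eq_iff, not_eventually_iff]

theorem gm_eq_zero_iff {a : ℕ → K} :
    gm a = 0 ↔ ∀ᶠ i in (hyperfilter ℕ : Filter ℕ), a i = 0 := by
  rw [← gm_zero, gm_eq_iff]

end

end Pool.Agent.Lib.MP_17a322_nt.VN
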