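import Pool.Agent.Lib.MP_17a322_nt.VN.F1

/-!
VN, part F: lifts of polynomials over the field of germs.
-/

universe u

namespace Pool.Agent.Lib.MP_17a322_nt.VN

open MvPolynomial Height Filter
open Pool.Agent.Lib.MP_17a322_nt.RO
open Pool.Agent.Lib.MP_17a322_nt.VJ

section

variable {K : Type*} [Field K] {σ : Type*}

open Classical in
/-- A representative of a germ. -/
noncomputable def rp (c : GK K) : ℕ → K := if c = 0 then 0 else (exists_gm c).choose

theorem gm_rp (c : GK K) : gm (rp c) = c := by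
  unfold rp
  split_ifs with h
  · rw [h]
    rfl
  · exact (exists_gm c).choose_spec

theorem rp_zero : rp (0 : GK K) = 0 := if_pos rfl

/-- A lift of a polynomial over the field of germs. -/
noncomputable def lf (p : MvPolynomial σ (GK K)) : MvPolynomial σ (ℕ → K) :=
  ∑ m ∈ p.support, monomial m (rp (coeff m p))

theorem coeff_lf (p : MvPolynomial σ (GK K)) (m : σ →₀ ℕ) : coeff m (lf p) = rp (coeff m p) := by
  classical
  unfold lf
  rw [coeff_sum]
  simp only [coeff_monomial]
  rw [Finset.sum_ite_eq']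
  split_ifs with h
  · rfl
  · rw [notMem_support_iff.mp h, rp_zero]

theorem map_lf (p : MvPolynomial σ (GK K)) : map (gR K) (lf p) = p := by
  ext m
  rw [coeff_map, coeff_lf, gR_apply, gm_rp]

/-- The `i`-th member of a sequence of polynomials. -/
noncomputable def ev (i : ℕ) : MvPolynomial σ (ℕ → K) →+* MvPolynomial σ K :=
  map (Pi.evalRingHom (fun _ => K) i)

theorem coeff_ev (i : ℕ) (P : MvPolynomial σ (ℕ → K)) (m : σ →₀ ℕ) :
    coeff m (ev i P) = coeff m P i := by
  unfold ev
  rw [coeff_map]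
  rfl

theorem ev_eq_of_map_eq {P Q : MvPolynomial σ (ℕ → K)} (h : map (gR K) P = map (gR K) Q) :
    ∀ᶠ i in (hyperfilter ℕ : Filter ℕ), ev i P = ev i Q := by
  classical
  have h1 : ∀ m ∈ P.support ∪ Q.support,
      ∀ᶠ i in (hyperfilter ℕ : Filter ℕ), coeff m P i = coeff m Q i := by
    intro m _
    rw [← gm_eq_iff, ← gR_apply, ← gR_apply, ← coeff_map, ← coeff_map, h]
  rw [← eventually_all_finset] at h1
  filter_upwards [h1] with i hi
  ext m
  rw [coeff_ev, coeff_ev]
  by_cases hm : m ∈ P.support ∪ Q.support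
  · exact hi m hm
  · rw [Finset.mem_union, not_or] at hm
    rw [notMem_support_iff.mp hm.1, notMem_support_iff.mp hm.2]

theorem ev_ne_zero {P : MvPolynomial σ (ℕ → K)} (h : map (gR K) P ≠ 0) :
    ∀ᶠ i in (hyperfilter ℕ : Filter ℕ), ev i P ≠ 0 := by
  obtain ⟨m, hm⟩ := ne_zero_iff.mp h
  rw [coeff_map, gR_apply, gm_ne_zero_iff] at hm
  filter_upwards [hm] with i hi
  rw [ne_zero_iff]
  exact ⟨m, by rwa [coeff_ev]⟩

theorem gm_eval (P : MvPolynomial σ (ℕ → K)) (s : ℕ → σ → K) :
    gm (fun i => eval (s i) (ev i P)) = eval (fun t => gm fun i => s i t) (map (gR K) P) := by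
  have h1 : eval (fun t => gm fun i => s i t) (map (gR K) P) =
      gR K (eval (fun t => fun i => s i t) P) := by
    rw [eval_map]
    exact (eval₂_comp_left (gR K) (RingHom.id _) (fun t => fun i => s i t) P).symm
  rw [h1, gR_apply]
  congr 1
  funext i
  unfold ev
  rw [eval_map]
  have h2 := eval₂_comp_left (Pi.evalRingHom (fun _ : ℕ => K) i) (RingHom.id _)
    (fun t => fun i => s i t) P
  exact h2.symm

theorem support_ev_lf (p : MvPolynomial σ (GK K)) (i : ℕ) :
    (ev i (lf p)).support ⊆ p.support := by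
  intro m hm
  rw [mem_support_iff, coeff_ev, coeff_lf] at hm
  rw [mem_support_iff]
  intro h
  rw [h, rp_zero] at hm
  exact hm rfl

theorem degreeOf_ev_lf (p : MvPolynomial σ (GK K)) (i : ℕ) (t : σ) :
    (ev i (lf p)).degreeOf t ≤ p.degreeOf t := by
  classical
  rw [degreeOf_eq_sup, degreeOf_eq_sup]
  exact Finset.sup_mono (support_ev_lf p i)

theorem totalDegree_ev_lf (p : MvPolynomial σ (GK K)) (i : ℕ) :
    (ev i (lf p)).totalDegree ≤ p.totalDegree :=
  Finset.sup_mono (support_ev_lf p i)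

theorem ev_pderiv (r : σ) (P : MvPolynomial σ (ℕ → K)) (i : ℕ) :
    ev i (pderiv r P) = pderiv r (ev i P) := by
  unfold ev
  rw [pderiv_map]

end

end Pool.Agent.Lib.MP_17a322_nt.VN
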