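import Pool.Agent.Lib.MP_17a322_nt.VN.L0
import Pool.Agent.Lib.MP_17a322_nt.VJ.E3

/-!
# Translation by a second point: explicit formulas

`tz W c Z R y₁ y₂` is a multiple of the x-coordinate of the sum of two points with x-coordinates `Z`,
`R` and `y₁ ^ 2 = ph W Z`, `y₂ ^ 2 = ph W R`; `ty` is its square root of `ph`.
-/

namespace Pool.Agent.Lib.MP_17a322_nt.VN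

open MvPolynomial Height
open Pool.Agent.Lib.MP_17a322_nt.RO
open Pool.Agent.Lib.MP_17a322_nt.VJ

section

variable {A : Type*} [CommRing A]

/-- Coefficients of the square root. -/
def tp1 (b2 b4 b6 x1 z1 x2 z2 : A) : A :=
  -(6 * x1 * x2 ^ 2 * z2 + b2 * x1 * x2 * z2 ^ 2 + b4 * x1 * z2 ^ 3 + 2 * z1 * x2 ^ 3 + b2
  * z1 * x2 ^ 2 * z2 + 3 * b4 * z1 * x2 * z2 ^ 2 + 2 * b6 * z1 * z2 ^ 3)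

/-- Coefficients of the square root. -/
def tp2 (b2 b4 b6 x1 z1 x2 z2 : A) : A :=
  (2 * x1 ^ 3 * z2 + 6 * x1 ^ 2 * z1 * x2 + b2 * x1 ^ 2 * z1 * z2 + b2 * x1 * z1 ^ 2 * x2 +
  3 * b4 * x1 * z1 ^ 2 * z2 + b4 * z1 ^ 3 * x2 + 2 * b6 * z1 ^ 3 * z2)

/-- Coefficients of the square root. -/
def tq1 (b2 b4 b6 b8 x1 z1 x2 z2 : A) : A :=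
  (4 * x1 ^ 2 * x2 ^ 4 + 2 * b2 * x1 ^ 2 * x2 ^ 3 * z2 + 6 * b4 * x1 ^ 2 * x2 ^ 2 * z2 ^ 2
  + 4 * b6 * x1 ^ 2 * x2 * z2 ^ 3 + 4 * b4 * x1 * z1 * x2 ^ 3 * z2 + 12 * b6 * x1 * z1 *
  x2 ^ 2 * z2 ^ 2 + 8 * b8 * x1 * z1 * x2 * z2 ^ 3 + 4 * b6 * z1 ^ 2 * x2 ^ 3 * z2 + 12 *
  b8 * z1 ^ 2 * x2 ^ 2 * z2 ^ 2 + 2 * b2 * b8 * z1 ^ 2 * x2 * z2 ^ 3 - 2 * b4 * b6 * z1 ^ 2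
  * x2 * z2 ^ 3 + 2 * b4 * b8 * z1 ^ 2 * z2 ^ 4 - 2 * b6 ^ 2 * z1 ^ 2 * z2 ^ 4)

/-- Coefficients of the square root. -/
def tq2 (b2 b4 b6 b8 x1 z1 x2 z2 : A) : A :=
  (4 * x1 ^ 4 * x2 ^ 2 + 2 * b2 * x1 ^ 3 * z1 * x2 ^ 2 + 4 * b4 * x1 ^ 3 * z1 * x2 * z2 + 4
  * b6 * x1 ^ 3 * z1 * z2 ^ 2 + 6 * b4 * x1 ^ 2 * z1 ^ 2 * x2 ^ 2 + 12 * b6 * x1 ^ 2 *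
  z1 ^ 2 * x2 * z2 + 12 * b8 * x1 ^ 2 * z1 ^ 2 * z2 ^ 2 + 4 * b6 * x1 * z1 ^ 3 * x2 ^ 2 + 8
  * b8 * x1 * z1 ^ 3 * x2 * z2 + 2 * b2 * b8 * x1 * z1 ^ 3 * z2 ^ 2 - 2 * b4 * b6 * x1 *
  z1 ^ 3 * z2 ^ 2 + 2 * b4 * b8 * z1 ^ 4 * z2 ^ 2 - 2 * b6 ^ 2 * z1 ^ 4 * z2 ^ 2)

/-- The form `ph`. -/
def tph (b2 b4 b6 x z : A) : A := z * (4 * x ^ 3 + b2 * x ^ 2 * z + 2 * b4 * x * z ^ 2 + b6 * z ^ 3)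

/-- The forms `SV`. -/
def tS0 (b4 b6 b8 x1 z1 x2 z2 : A) : A :=
  (x1 * x2) ^ 2 - b4 * (x1 * x2) * (z1 * z2) - b6 * (x1 * z2 + z1 * x2) * (z1 * z2) -
    b8 * (z1 * z2) ^ 2

/-- The forms `SV`. -/
def tS1 (b2 b4 b6 x1 z1 x2 z2 : A) : A :=
  2 * (x1 * z2 + z1 * x2) * (x1 * x2) + b2 * (x1 * x2) * (z1 * z2) +
    b4 * (x1 * z2 + z1 * x2) * (z1 * z2) + b6 * (z1 * z2) ^ 2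

theorem tid_P1 (b2 b4 b6 b8 x1 z1 x2 z2 : A) (h : b2 * b6 - b4 ^ 2 - 4 * b8 = 0) :
    tp1 b2 b4 b6 x1 z1 x2 z2 * tp2 b2 b4 b6 x1 z1 x2 z2 =
      -(4 * tS1 b2 b4 b6 x1 z1 x2 z2 ^ 2 -
        4 * tS0 b4 b6 b8 x1 z1 x2 z2 * (x1 * z2 - z1 * x2) ^ 2 +
        b2 * tS1 b2 b4 b6 x1 z1 x2 z2 * (x1 * z2 - z1 * x2) ^ 2 +
        2 * b4 * (x1 * z2 - z1 * x2) ^ 4) := by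
  unfold tp1 tp2 tS0 tS1
  linear_combination (
      -1 * x1 ^ 2 * z1 ^ 2 * z2 ^ 4 + 2 * x1 * z1 ^ 3 * x2 * z2 ^ 3 - 1 * z1 ^ 4 * x2 ^ 2 *
      z2 ^ 2) * h

theorem tid_P2 (b2 b4 b6 b8 x1 z1 x2 z2 : A) (h : b2 * b6 - b4 ^ 2 - 4 * b8 = 0) :
    2 * (tp1 b2 b4 b6 x1 z1 x2 z2 ^ 2 * tph b2 b4 b6 x1 z1 +
      tp2 b2 b4 b6 x1 z1 x2 z2 ^ 2 * tph b2 b4 b6 x2 z2) =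
      (16 * tS1 b2 b4 b6 x1 z1 x2 z2 ^ 2 -
        16 * tS0 b4 b6 b8 x1 z1 x2 z2 * (x1 * z2 - z1 * x2) ^ 2 +
        4 * b2 * tS1 b2 b4 b6 x1 z1 x2 z2 * (x1 * z2 - z1 * x2) ^ 2 +
        8 * b4 * (x1 * z2 - z1 * x2) ^ 4) * tS1 b2 b4 b6 x1 z1 x2 z2 -
      32 * tS0 b4 b6 b8 x1 z1 x2 z2 * tS1 b2 b4 b6 x1 z1 x2 z2 * (x1 * z2 - z1 * x2) ^ 2 -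
      8 * b2 * tS0 b4 b6 b8 x1 z1 x2 z2 * (x1 * z2 - z1 * x2) ^ 4 +
      8 * b6 * (x1 * z2 - z1 * x2) ^ 6 := by
  unfold tp1 tp2 tS0 tS1 tph
  linear_combination (
      24 * x1 ^ 4 * z1 ^ 2 * x2 * z2 ^ 5 + 2 * x1 ^ 4 * z1 ^ 2 * z2 ^ 6 * b2 - 24 * x1 ^ 3
      * z1 ^ 3 * x2 ^ 2 * z2 ^ 4 + 4 * x1 ^ 3 * z1 ^ 3 * x2 * z2 ^ 5 * b2 + 12 * x1 ^ 3 *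
      z1 ^ 3 * z2 ^ 6 * b4 - 24 * x1 ^ 2 * z1 ^ 4 * x2 ^ 3 * z2 ^ 3 - 12 * x1 ^ 2 * z1 ^ 4
      * x2 ^ 2 * z2 ^ 4 * b2 - 12 * x1 ^ 2 * z1 ^ 4 * x2 * z2 ^ 5 * b4 + 12 * x1 ^ 2 *
      z1 ^ 4 * z2 ^ 6 * b6 + 24 * x1 * z1 ^ 5 * x2 ^ 4 * z2 ^ 2 + 4 * x1 * z1 ^ 5 * x2 ^ 3
      * z2 ^ 3 * b2 - 12 * x1 * z1 ^ 5 * x2 ^ 2 * z2 ^ 4 * b4 - 24 * x1 * z1 ^ 5 * x2 *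
      z2 ^ 5 * b6 + 2 * z1 ^ 6 * x2 ^ 4 * z2 ^ 2 * b2 + 12 * z1 ^ 6 * x2 ^ 3 * z2 ^ 3 * b4
      + 12 * z1 ^ 6 * x2 ^ 2 * z2 ^ 4 * b6) * h

theorem tid_Q1 (b2 b4 b6 b8 x1 z1 x2 z2 : A) (h : b2 * b6 - b4 ^ 2 - 4 * b8 = 0) :
    32 * tS0 b4 b6 b8 x1 z1 x2 z2 ^ 3 +
      8 * b2 * tS0 b4 b6 b8 x1 z1 x2 z2 ^ 2 * tS1 b2 b4 b6 x1 z1 x2 z2 +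
      16 * b4 * tS0 b4 b6 b8 x1 z1 x2 z2 * (tS1 b2 b4 b6 x1 z1 x2 z2 ^ 2 -
        tS0 b4 b6 b8 x1 z1 x2 z2 * (x1 * z2 - z1 * x2) ^ 2) +
      8 * b6 * (tS1 b2 b4 b6 x1 z1 x2 z2 ^ 3 -
        2 * tS0 b4 b6 b8 x1 z1 x2 z2 * tS1 b2 b4 b6 x1 z1 x2 z2 * (x1 * z2 - z1 * x2) ^ 2) =
      2 * tq1 b2 b4 b6 b8 x1 z1 x2 z2 * tq2 b2 b4 b6 b8 x1 z1 x2 z2 := by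
  unfold tq1 tq2 tS0 tS1
  linear_combination (
      16 * x1 ^ 5 * z1 * x2 ^ 3 * z2 ^ 3 + 72 * x1 ^ 4 * z1 ^ 2 * x2 ^ 4 * z2 ^ 2 + 32 *
      x1 ^ 4 * z1 ^ 2 * x2 ^ 3 * z2 ^ 3 * b2 + 64 * x1 ^ 4 * z1 ^ 2 * x2 ^ 2 * z2 ^ 4 * b4
      + 32 * x1 ^ 4 * z1 ^ 2 * x2 * z2 ^ 5 * b6 + 16 * x1 ^ 3 * z1 ^ 3 * x2 ^ 5 * z2 + 32 *
      x1 ^ 3 * z1 ^ 3 * x2 ^ 4 * z2 ^ 2 * b2 + 8 * x1 ^ 3 * z1 ^ 3 * x2 ^ 3 * z2 ^ 3 *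
      b2 ^ 2 + 96 * x1 ^ 3 * z1 ^ 3 * x2 ^ 3 * z2 ^ 3 * b4 + 24 * x1 ^ 3 * z1 ^ 3 * x2 ^ 2
      * z2 ^ 4 * b2 * b4 + 120 * x1 ^ 3 * z1 ^ 3 * x2 ^ 2 * z2 ^ 4 * b6 + 8 * x1 ^ 3 *
      z1 ^ 3 * x2 * z2 ^ 5 * b2 * b6 + 16 * x1 ^ 3 * z1 ^ 3 * x2 * z2 ^ 5 * b4 ^ 2 + 48 *
      x1 ^ 3 * z1 ^ 3 * x2 * z2 ^ 5 * b8 + 8 * x1 ^ 3 * z1 ^ 3 * z2 ^ 6 * b4 * b6 + 64 *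
      x1 ^ 2 * z1 ^ 4 * x2 ^ 4 * z2 ^ 2 * b4 + 24 * x1 ^ 2 * z1 ^ 4 * x2 ^ 3 * z2 ^ 3 * b2
      * b4 + 120 * x1 ^ 2 * z1 ^ 4 * x2 ^ 3 * z2 ^ 3 * b6 + 40 * x1 ^ 2 * z1 ^ 4 * x2 ^ 2 *
      z2 ^ 4 * b2 * b6 + 32 * x1 ^ 2 * z1 ^ 4 * x2 ^ 2 * z2 ^ 4 * b4 ^ 2 + 80 * x1 ^ 2 *
      z1 ^ 4 * x2 ^ 2 * z2 ^ 4 * b8 + 16 * x1 ^ 2 * z1 ^ 4 * x2 * z2 ^ 5 * b2 * b8 + 56 *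
      x1 ^ 2 * z1 ^ 4 * x2 * z2 ^ 5 * b4 * b6 + 16 * x1 ^ 2 * z1 ^ 4 * z2 ^ 6 * b4 * b8 + 8
      * x1 ^ 2 * z1 ^ 4 * z2 ^ 6 * b6 ^ 2 + 32 * x1 * z1 ^ 5 * x2 ^ 4 * z2 ^ 2 * b6 + 8 *
      x1 * z1 ^ 5 * x2 ^ 3 * z2 ^ 3 * b2 * b6 + 16 * x1 * z1 ^ 5 * x2 ^ 3 * z2 ^ 3 * b4 ^ 2
      + 48 * x1 * z1 ^ 5 * x2 ^ 3 * z2 ^ 3 * b8 + 16 * x1 * z1 ^ 5 * x2 ^ 2 * z2 ^ 4 * b2 *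
      b8 + 56 * x1 * z1 ^ 5 * x2 ^ 2 * z2 ^ 4 * b4 * b6 + 32 * x1 * z1 ^ 5 * x2 * z2 ^ 5 *
      b4 * b8 + 40 * x1 * z1 ^ 5 * x2 * z2 ^ 5 * b6 ^ 2 + 24 * x1 * z1 ^ 5 * z2 ^ 6 * b6 *
      b8 + 8 * z1 ^ 6 * x2 ^ 3 * z2 ^ 3 * b4 * b6 + 16 * z1 ^ 6 * x2 ^ 2 * z2 ^ 4 * b4 * b8
      + 8 * z1 ^ 6 * x2 ^ 2 * z2 ^ 4 * b6 ^ 2 + 24 * z1 ^ 6 * x2 * z2 ^ 5 * b6 * b8 + 8 *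
      z1 ^ 6 * z2 ^ 6 * b8 ^ 2) * h

theorem tid_Q2 (b2 b4 b6 b8 x1 z1 x2 z2 : A) (h : b2 * b6 - b4 ^ 2 - 4 * b8 = 0) :
    (32 * tS0 b4 b6 b8 x1 z1 x2 z2 ^ 3 +
      8 * b2 * tS0 b4 b6 b8 x1 z1 x2 z2 ^ 2 * tS1 b2 b4 b6 x1 z1 x2 z2 +
      16 * b4 * tS0 b4 b6 b8 x1 z1 x2 z2 * (tS1 b2 b4 b6 x1 z1 x2 z2 ^ 2 -
        tS0 b4 b6 b8 x1 z1 x2 z2 * (x1 * z2 - z1 * x2) ^ 2) +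
      8 * b6 * (tS1 b2 b4 b6 x1 z1 x2 z2 ^ 3 -
        2 * tS0 b4 b6 b8 x1 z1 x2 z2 * tS1 b2 b4 b6 x1 z1 x2 z2 * (x1 * z2 - z1 * x2) ^ 2)) *
        tS1 b2 b4 b6 x1 z1 x2 z2 -
      16 * b2 * tS0 b4 b6 b8 x1 z1 x2 z2 ^ 3 * (x1 * z2 - z1 * x2) ^ 2 -
      32 * b4 * tS0 b4 b6 b8 x1 z1 x2 z2 ^ 2 * tS1 b2 b4 b6 x1 z1 x2 z2 *
        (x1 * z2 - z1 * x2) ^ 2 -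
      16 * b6 * tS0 b4 b6 b8 x1 z1 x2 z2 * tS1 b2 b4 b6 x1 z1 x2 z2 ^ 2 *
        (x1 * z2 - z1 * x2) ^ 2 +
      16 * b6 * tS0 b4 b6 b8 x1 z1 x2 z2 ^ 2 * (x1 * z2 - z1 * x2) ^ 4 =
      tq1 b2 b4 b6 b8 x1 z1 x2 z2 ^ 2 * tph b2 b4 b6 x1 z1 +
        tq2 b2 b4 b6 b8 x1 z1 x2 z2 ^ 2 * tph b2 b4 b6 x2 z2 := by
  unfold tq1 tq2 tS0 tS1 tph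
  linear_combination (
      208 * x1 ^ 6 * z1 ^ 2 * x2 ^ 5 * z2 ^ 3 + 60 * x1 ^ 6 * z1 ^ 2 * x2 ^ 4 * z2 ^ 4 * b2
      + 128 * x1 ^ 6 * z1 ^ 2 * x2 ^ 3 * z2 ^ 5 * b4 + 64 * x1 ^ 6 * z1 ^ 2 * x2 ^ 2 *
      z2 ^ 6 * b6 + 208 * x1 ^ 5 * z1 ^ 3 * x2 ^ 6 * z2 ^ 2 + 240 * x1 ^ 5 * z1 ^ 3 *
      x2 ^ 5 * z2 ^ 3 * b2 + 48 * x1 ^ 5 * z1 ^ 3 * x2 ^ 4 * z2 ^ 4 * b2 ^ 2 + 424 * x1 ^ 5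
      * z1 ^ 3 * x2 ^ 4 * z2 ^ 4 * b4 + 160 * x1 ^ 5 * z1 ^ 3 * x2 ^ 3 * z2 ^ 5 * b2 * b4 +
      272 * x1 ^ 5 * z1 ^ 3 * x2 ^ 3 * z2 ^ 5 * b6 + 64 * x1 ^ 5 * z1 ^ 3 * x2 ^ 2 * z2 ^ 6
      * b2 * b6 + 128 * x1 ^ 5 * z1 ^ 3 * x2 ^ 2 * z2 ^ 6 * b4 ^ 2 + 64 * x1 ^ 5 * z1 ^ 3 *
      x2 ^ 2 * z2 ^ 6 * b8 + 96 * x1 ^ 5 * z1 ^ 3 * x2 * z2 ^ 7 * b4 * b6 + 16 * x1 ^ 5 *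
      z1 ^ 3 * z2 ^ 8 * b6 ^ 2 + 60 * x1 ^ 4 * z1 ^ 4 * x2 ^ 6 * z2 ^ 2 * b2 + 48 * x1 ^ 4
      * z1 ^ 4 * x2 ^ 5 * z2 ^ 3 * b2 ^ 2 + 424 * x1 ^ 4 * z1 ^ 4 * x2 ^ 5 * z2 ^ 3 * b4 +
      8 * x1 ^ 4 * z1 ^ 4 * x2 ^ 4 * z2 ^ 4 * b2 ^ 3 + 224 * x1 ^ 4 * z1 ^ 4 * x2 ^ 4 *
      z2 ^ 4 * b2 * b4 + 648 * x1 ^ 4 * z1 ^ 4 * x2 ^ 4 * z2 ^ 4 * b6 + 32 * x1 ^ 4 *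
      z1 ^ 4 * x2 ^ 3 * z2 ^ 5 * b2 ^ 2 * b4 + 232 * x1 ^ 4 * z1 ^ 4 * x2 ^ 3 * z2 ^ 5 * b2
      * b6 + 224 * x1 ^ 4 * z1 ^ 4 * x2 ^ 3 * z2 ^ 5 * b4 ^ 2 + 288 * x1 ^ 4 * z1 ^ 4 *
      x2 ^ 3 * z2 ^ 5 * b8 + 8 * x1 ^ 4 * z1 ^ 4 * x2 ^ 2 * z2 ^ 6 * b2 ^ 2 * b6 + 40 *
      x1 ^ 4 * z1 ^ 4 * x2 ^ 2 * z2 ^ 6 * b2 * b4 ^ 2 + 88 * x1 ^ 4 * z1 ^ 4 * x2 ^ 2 *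
      z2 ^ 6 * b2 * b8 + 384 * x1 ^ 4 * z1 ^ 4 * x2 ^ 2 * z2 ^ 6 * b4 * b6 + 16 * x1 ^ 4 *
      z1 ^ 4 * x2 * z2 ^ 7 * b2 * b4 * b6 + 16 * x1 ^ 4 * z1 ^ 4 * x2 * z2 ^ 7 * b4 ^ 3 +
      128 * x1 ^ 4 * z1 ^ 4 * x2 * z2 ^ 7 * b4 * b8 + 96 * x1 ^ 4 * z1 ^ 4 * x2 * z2 ^ 7 *
      b6 ^ 2 + 8 * x1 ^ 4 * z1 ^ 4 * z2 ^ 8 * b4 ^ 2 * b6 + 32 * x1 ^ 4 * z1 ^ 4 * z2 ^ 8 *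
      b6 * b8 + 128 * x1 ^ 3 * z1 ^ 5 * x2 ^ 6 * z2 ^ 2 * b4 + 160 * x1 ^ 3 * z1 ^ 5 *
      x2 ^ 5 * z2 ^ 3 * b2 * b4 + 272 * x1 ^ 3 * z1 ^ 5 * x2 ^ 5 * z2 ^ 3 * b6 + 32 *
      x1 ^ 3 * z1 ^ 5 * x2 ^ 4 * z2 ^ 4 * b2 ^ 2 * b4 + 232 * x1 ^ 3 * z1 ^ 5 * x2 ^ 4 *
      z2 ^ 4 * b2 * b6 + 224 * x1 ^ 3 * z1 ^ 5 * x2 ^ 4 * z2 ^ 4 * b4 ^ 2 + 288 * x1 ^ 3 *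
      z1 ^ 5 * x2 ^ 4 * z2 ^ 4 * b8 + 48 * x1 ^ 3 * z1 ^ 5 * x2 ^ 3 * z2 ^ 5 * b2 ^ 2 * b6
      + 80 * x1 ^ 3 * z1 ^ 5 * x2 ^ 3 * z2 ^ 5 * b2 * b4 ^ 2 + 128 * x1 ^ 3 * z1 ^ 5 *
      x2 ^ 3 * z2 ^ 5 * b2 * b8 + 384 * x1 ^ 3 * z1 ^ 5 * x2 ^ 3 * z2 ^ 5 * b4 * b6 + 16 *
      x1 ^ 3 * z1 ^ 5 * x2 ^ 2 * z2 ^ 6 * b2 ^ 2 * b8 + 128 * x1 ^ 3 * z1 ^ 5 * x2 ^ 2 *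
      z2 ^ 6 * b2 * b4 * b6 + 48 * x1 ^ 3 * z1 ^ 5 * x2 ^ 2 * z2 ^ 6 * b4 ^ 3 + 176 *
      x1 ^ 3 * z1 ^ 5 * x2 ^ 2 * z2 ^ 6 * b4 * b8 + 152 * x1 ^ 3 * z1 ^ 5 * x2 ^ 2 * z2 ^ 6
      * b6 ^ 2 + 32 * x1 ^ 3 * z1 ^ 5 * x2 * z2 ^ 7 * b2 * b4 * b8 + 16 * x1 ^ 3 * z1 ^ 5 *
      x2 * z2 ^ 7 * b2 * b6 ^ 2 + 80 * x1 ^ 3 * z1 ^ 5 * x2 * z2 ^ 7 * b4 ^ 2 * b6 + 112 *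
      x1 ^ 3 * z1 ^ 5 * x2 * z2 ^ 7 * b6 * b8 + 16 * x1 ^ 3 * z1 ^ 5 * z2 ^ 8 * b4 ^ 2 * b8
      + 16 * x1 ^ 3 * z1 ^ 5 * z2 ^ 8 * b4 * b6 ^ 2 + 64 * x1 ^ 2 * z1 ^ 6 * x2 ^ 6 *
      z2 ^ 2 * b6 + 64 * x1 ^ 2 * z1 ^ 6 * x2 ^ 5 * z2 ^ 3 * b2 * b6 + 128 * x1 ^ 2 *
      z1 ^ 6 * x2 ^ 5 * z2 ^ 3 * b4 ^ 2 + 64 * x1 ^ 2 * z1 ^ 6 * x2 ^ 5 * z2 ^ 3 * b8 + 8 *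
      x1 ^ 2 * z1 ^ 6 * x2 ^ 4 * z2 ^ 4 * b2 ^ 2 * b6 + 40 * x1 ^ 2 * z1 ^ 6 * x2 ^ 4 *
      z2 ^ 4 * b2 * b4 ^ 2 + 88 * x1 ^ 2 * z1 ^ 6 * x2 ^ 4 * z2 ^ 4 * b2 * b8 + 384 *
      x1 ^ 2 * z1 ^ 6 * x2 ^ 4 * z2 ^ 4 * b4 * b6 + 16 * x1 ^ 2 * z1 ^ 6 * x2 ^ 3 * z2 ^ 5
      * b2 ^ 2 * b8 + 128 * x1 ^ 2 * z1 ^ 6 * x2 ^ 3 * z2 ^ 5 * b2 * b4 * b6 + 48 * x1 ^ 2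
      * z1 ^ 6 * x2 ^ 3 * z2 ^ 5 * b4 ^ 3 + 176 * x1 ^ 2 * z1 ^ 6 * x2 ^ 3 * z2 ^ 5 * b4 *
      b8 + 152 * x1 ^ 2 * z1 ^ 6 * x2 ^ 3 * z2 ^ 5 * b6 ^ 2 + 64 * x1 ^ 2 * z1 ^ 6 * x2 ^ 2
      * z2 ^ 6 * b2 * b4 * b8 + 80 * x1 ^ 2 * z1 ^ 6 * x2 ^ 2 * z2 ^ 6 * b2 * b6 ^ 2 + 144
      * x1 ^ 2 * z1 ^ 6 * x2 ^ 2 * z2 ^ 6 * b4 ^ 2 * b6 + 80 * x1 ^ 2 * z1 ^ 6 * x2 ^ 2 *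
      z2 ^ 6 * b6 * b8 + 40 * x1 ^ 2 * z1 ^ 6 * x2 * z2 ^ 7 * b2 * b6 * b8 + 48 * x1 ^ 2 *
      z1 ^ 6 * x2 * z2 ^ 7 * b4 ^ 2 * b8 + 104 * x1 ^ 2 * z1 ^ 6 * x2 * z2 ^ 7 * b4 *
      b6 ^ 2 + 16 * x1 ^ 2 * z1 ^ 6 * x2 * z2 ^ 7 * b8 ^ 2 - 4 * x1 ^ 2 * z1 ^ 6 * z2 ^ 8 *
      b2 * b8 ^ 2 + 48 * x1 ^ 2 * z1 ^ 6 * z2 ^ 8 * b4 * b6 * b8 + 4 * x1 ^ 2 * z1 ^ 6 *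
      z2 ^ 8 * b6 ^ 3 + 96 * x1 * z1 ^ 7 * x2 ^ 5 * z2 ^ 3 * b4 * b6 + 16 * x1 * z1 ^ 7 *
      x2 ^ 4 * z2 ^ 4 * b2 * b4 * b6 + 16 * x1 * z1 ^ 7 * x2 ^ 4 * z2 ^ 4 * b4 ^ 3 + 128 *
      x1 * z1 ^ 7 * x2 ^ 4 * z2 ^ 4 * b4 * b8 + 96 * x1 * z1 ^ 7 * x2 ^ 4 * z2 ^ 4 * b6 ^ 2
      + 32 * x1 * z1 ^ 7 * x2 ^ 3 * z2 ^ 5 * b2 * b4 * b8 + 16 * x1 * z1 ^ 7 * x2 ^ 3 *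
      z2 ^ 5 * b2 * b6 ^ 2 + 80 * x1 * z1 ^ 7 * x2 ^ 3 * z2 ^ 5 * b4 ^ 2 * b6 + 112 * x1 *
      z1 ^ 7 * x2 ^ 3 * z2 ^ 5 * b6 * b8 + 40 * x1 * z1 ^ 7 * x2 ^ 2 * z2 ^ 6 * b2 * b6 *
      b8 + 48 * x1 * z1 ^ 7 * x2 ^ 2 * z2 ^ 6 * b4 ^ 2 * b8 + 104 * x1 * z1 ^ 7 * x2 ^ 2 *
      z2 ^ 6 * b4 * b6 ^ 2 + 16 * x1 * z1 ^ 7 * x2 ^ 2 * z2 ^ 6 * b8 ^ 2 + 16 * x1 * z1 ^ 7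
      * x2 * z2 ^ 7 * b2 * b8 ^ 2 + 64 * x1 * z1 ^ 7 * x2 * z2 ^ 7 * b4 * b6 * b8 + 48 * x1
      * z1 ^ 7 * x2 * z2 ^ 7 * b6 ^ 3 + 8 * x1 * z1 ^ 7 * z2 ^ 8 * b4 * b8 ^ 2 + 24 * x1 *
      z1 ^ 7 * z2 ^ 8 * b6 ^ 2 * b8 + 16 * z1 ^ 8 * x2 ^ 5 * z2 ^ 3 * b6 ^ 2 + 8 * z1 ^ 8 *
      x2 ^ 4 * z2 ^ 4 * b4 ^ 2 * b6 + 32 * z1 ^ 8 * x2 ^ 4 * z2 ^ 4 * b6 * b8 + 16 * z1 ^ 8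
      * x2 ^ 3 * z2 ^ 5 * b4 ^ 2 * b8 + 16 * z1 ^ 8 * x2 ^ 3 * z2 ^ 5 * b4 * b6 ^ 2 - 4 *
      z1 ^ 8 * x2 ^ 2 * z2 ^ 6 * b2 * b8 ^ 2 + 48 * z1 ^ 8 * x2 ^ 2 * z2 ^ 6 * b4 * b6 * b8
      + 4 * z1 ^ 8 * x2 ^ 2 * z2 ^ 6 * b6 ^ 3 + 8 * z1 ^ 8 * x2 * z2 ^ 7 * b4 * b8 ^ 2 + 24
      * z1 ^ 8 * x2 * z2 ^ 7 * b6 ^ 2 * b8 + 8 * z1 ^ 8 * z2 ^ 8 * b6 * b8 ^ 2) * h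

end

end Pool.Agent.Lib.MP_17a322_nt.VN
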