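import Pool.Agent.Lib.MP_17a322_nt.VN.L1a

/-!
# Translation by a second point

`tz`, `ty` and their properties.
-/

namespace Pool.Agent.Lib.MP_17a322_nt.VN

open MvPolynomial Height
open Pool.Agent.Lib.MP_17a322_nt.RO
open Pool.Agent.Lib.MP_17a322_nt.VJ

section

variable {K : Type*} [Field K] (W : WeierstrassCurve K) {A : Type*} [CommRing A] [Algebra K A]

/-- The x-coordinate of the sum of the points with x-coordinates `Z`, `R`. -/
noncomputable def tz (c : Bool) (Z R : Fin 2 → A) (y₁ y₂ : A) : Fin 2 → A :=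
  if c then ![2 * SV W Z R 0, SV W Z R 1 + y₁ * y₂]
  else ![SV W Z R 1 - y₁ * y₂, 2 * SV W Z R 2]

/-- The square root of `ph (tz ..)`. -/
noncomputable def ty (c : Bool) (Z R : Fin 2 → A) (y₁ y₂ : A) : A :=
  if c then
    tq1 (algebraMap K A W.b₂) (algebraMap K A W.b₄) (algebraMap K A W.b₆) (algebraMap K A W.b₈)
      (Z 0) (Z 1) (R 0) (R 1) * y₁ +
    tq2 (algebraMap K A W.b₂) (algebraMap K A W.b₄) (algebraMap K A W.b₆) (algebraMap K A W.b₈)
      (Z 0) (Z 1) (R 0) (R 1) * y₂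
  else
    2 * wd Z R *
      (tp1 (algebraMap K A W.b₂) (algebraMap K A W.b₄) (algebraMap K A W.b₆)
        (Z 0) (Z 1) (R 0) (R 1) * y₁ +
      tp2 (algebraMap K A W.b₂) (algebraMap K A W.b₄) (algebraMap K A W.b₆)
        (Z 0) (Z 1) (R 0) (R 1) * y₂)

theorem tb_rel : algebraMap K A W.b₂ * algebraMap K A W.b₆ - algebraMap K A W.b₄ ^ 2 -
    4 * algebraMap K A W.b₈ = 0 := by
  have h := congrArg (algebraMap K A) W.b_relation
  rw [map_mul, map_ofNat, map_sub, map_mul, map_pow] at h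
  rw [h]
  ring

theorem ph_eq_tph (R : Fin 2 → A) : ph W R = tph (algebraMap K A W.b₂) (algebraMap K A W.b₄)
    (algebraMap K A W.b₆) (R 0) (R 1) := by
  unfold ph tph
  ring

theorem SV_zero_eq (Z R : Fin 2 → A) : SV W Z R 0 = tS0 (algebraMap K A W.b₄)
    (algebraMap K A W.b₆) (algebraMap K A W.b₈) (Z 0) (Z 1) (R 0) (R 1) := by
  rw [SV_zero]
  unfold tS0
  ring

theorem SV_one_eq (Z R : Fin 2 → A) : SV W Z R 1 = tS1 (algebraMap K A W.b₂)
    (algebraMap K A W.b₄) (algebraMap K A W.b₆) (Z 0) (Z 1) (R 0) (R 1) := by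
  rw [SV_one]
  unfold tS1
  ring

theorem wd_tz (Z R : Fin 2 → A) (y₁ y₂ : A) (h₁ : y₁ ^ 2 = ph W Z) (h₂ : y₂ ^ 2 = ph W R) :
    wd (tz W false Z R y₁ y₂) (tz W true Z R y₁ y₂) = 0 := by
  have h := SV_disc W Z R
  have h3 : (y₁ * y₂) ^ 2 = SV W Z R 1 ^ 2 - 4 * SV W Z R 0 * SV W Z R 2 := by
    rw [h, mul_pow, h₁, h₂]
  unfold wd tz
  simp only [Bool.false_eq_true, if_false, if_true, Matrix.cons_val_zero, Matrix.cons_val_one]
  linear_combination -h3

theorem ph_tz (c : Bool) (Z R : Fin 2 → A) (y₁ y₂ : A) (h₁ : y₁ ^ 2 = ph W Z)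
    (h₂ : y₂ ^ 2 = ph W R) : ph W (tz W c Z R y₁ y₂) = ty W c Z R y₁ y₂ ^ 2 := by
  have hd : (y₁ * y₂) ^ 2 = SV W Z R 1 ^ 2 - 4 * SV W Z R 0 * wd Z R ^ 2 := by
    rw [← SV_two W Z R, SV_disc W Z R, mul_pow, h₁, h₂]
  have hb := tb_rel (A := A) W
  rw [ph_eq_tph] at h₁ h₂
  cases c
  · have i1 := tid_P1 (algebraMap K A W.b₂) (algebraMap K A W.b₄) (algebraMap K A W.b₆)
      (algebraMap K A W.b₈) (Z 0) (Z 1) (R 0) (R 1) hb
    have i2 := tid_P2 (algebraMap K A W.b₂) (algebraMap K A W.b₄) (algebraMap K A W.b₆)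
      (algebraMap K A W.b₈) (Z 0) (Z 1) (R 0) (R 1) hb
    rw [← SV_zero_eq, ← SV_one_eq] at i1 i2
    have hw : Z 0 * R 1 - Z 1 * R 0 = wd Z R := rfl
    rw [hw] at i1 i2
    rw [ph_eq_tph]
    unfold tz ty tph
    simp only [Bool.false_eq_true, if_false, Matrix.cons_val_zero, Matrix.cons_val_one, SV_two]
    generalize SV W Z R 0 = s0 at *
    generalize SV W Z R 1 = s1 at *
    generalize wd Z R = D at *
    generalize tp1 (algebraMap K A W.b₂) (algebraMap K A W.b₄) (algebraMap K A W.b₆)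
        (Z 0) (Z 1) (R 0) (R 1) = p1 at *
    generalize tp2 (algebraMap K A W.b₂) (algebraMap K A W.b₄) (algebraMap K A W.b₆)
        (Z 0) (Z 1) (R 0) (R 1) = p2 at *
    generalize tph (algebraMap K A W.b₂) (algebraMap K A W.b₄) (algebraMap K A W.b₆)
        (Z 0) (Z 1) = f1 at *
    generalize tph (algebraMap K A W.b₂) (algebraMap K A W.b₄) (algebraMap K A W.b₆)
        (R 0) (R 1) = f2 at *
    generalize algebraMap K A W.b₂ = b2 at *
    generalize algebraMap K A W.b₄ = b4 at *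
    generalize algebraMap K A W.b₆ = b6 at *
    -- reduce powers of B := y₁ * y₂
    have hX2 : (s1 - y₁ * y₂) ^ 2 = 2 * s1 * (s1 - y₁ * y₂) - 4 * s0 * D ^ 2 := by
      linear_combination hd
    have hX3 : (s1 - y₁ * y₂) ^ 3 = (4 * s1 ^ 2 - 4 * s0 * D ^ 2) * (s1 - y₁ * y₂) -
        8 * s0 * s1 * D ^ 2 := by
      linear_combination (s1 - y₁ * y₂) * hX2 + 2 * s1 * hX2
    rw [hX3, hX2]
    linear_combination (-2 * D ^ 2) * i2 - 8 * D ^ 2 * y₁ * y₂ * i1 -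
      4 * D ^ 2 * p1 ^ 2 * h₁ - 4 * D ^ 2 * p2 ^ 2 * h₂
  · have i1 := tid_Q1 (algebraMap K A W.b₂) (algebraMap K A W.b₄) (algebraMap K A W.b₆)
      (algebraMap K A W.b₈) (Z 0) (Z 1) (R 0) (R 1) hb
    have i2 := tid_Q2 (algebraMap K A W.b₂) (algebraMap K A W.b₄) (algebraMap K A W.b₆)
      (algebraMap K A W.b₈) (Z 0) (Z 1) (R 0) (R 1) hb
    rw [← SV_zero_eq, ← SV_one_eq] at i1 i2
    have hw : Z 0 * R 1 - Z 1 * R 0 = wd Z R := rfl
    rw [hw] at i1 i2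
    rw [ph_eq_tph]
    unfold tz ty tph
    simp only [if_true, Matrix.cons_val_zero, Matrix.cons_val_one]
    generalize SV W Z R 0 = s0 at *
    generalize SV W Z R 1 = s1 at *
    generalize wd Z R = D at *
    generalize tq1 (algebraMap K A W.b₂) (algebraMap K A W.b₄) (algebraMap K A W.b₆)
        (algebraMap K A W.b₈) (Z 0) (Z 1) (R 0) (R 1) = p1 at *
    generalize tq2 (algebraMap K A W.b₂) (algebraMap K A W.b₄) (algebraMap K A W.b₆)
        (algebraMap K A W.b₈) (Z 0) (Z 1) (R 0) (R 1) = p2 at *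
    generalize tph (algebraMap K A W.b₂) (algebraMap K A W.b₄) (algebraMap K A W.b₆)
        (Z 0) (Z 1) = f1 at *
    generalize tph (algebraMap K A W.b₂) (algebraMap K A W.b₄) (algebraMap K A W.b₆)
        (R 0) (R 1) = f2 at *
    generalize algebraMap K A W.b₂ = b2 at *
    generalize algebraMap K A W.b₄ = b4 at *
    generalize algebraMap K A W.b₆ = b6 at *
    have hX2 : (s1 + y₁ * y₂) ^ 2 = 2 * s1 * (s1 + y₁ * y₂) - 4 * s0 * D ^ 2 := by
      linear_combination hd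
    have hX3 : (s1 + y₁ * y₂) ^ 3 = (4 * s1 ^ 2 - 4 * s0 * D ^ 2) * (s1 + y₁ * y₂) -
        8 * s0 * s1 * D ^ 2 := by
      linear_combination (s1 + y₁ * y₂) * hX2 + 2 * s1 * hX2
    have hX4 : (s1 + y₁ * y₂) ^ 4 = (8 * s1 ^ 3 - 16 * s0 * s1 * D ^ 2) * (s1 + y₁ * y₂) -
        16 * s0 * s1 ^ 2 * D ^ 2 + 16 * s0 ^ 2 * D ^ 4 := by
      linear_combination (s1 + y₁ * y₂) * hX3 + (4 * s1 ^ 2 - 4 * s0 * D ^ 2) * hX2
    have e : (s1 + y₁ * y₂) * (4 * (2 * s0) ^ 3 + b2 * (2 * s0) ^ 2 * (s1 + y₁ * y₂) +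
        2 * b4 * (2 * s0) * (s1 + y₁ * y₂) ^ 2 + b6 * (s1 + y₁ * y₂) ^ 3) =
        32 * s0 ^ 3 * (s1 + y₁ * y₂) + 4 * b2 * s0 ^ 2 * (s1 + y₁ * y₂) ^ 2 +
          4 * b4 * s0 * (s1 + y₁ * y₂) ^ 3 + b6 * (s1 + y₁ * y₂) ^ 4 := by
      ring
    rw [e, hX4, hX3, hX2]
    linear_combination i2 + y₁ * y₂ * i1 - p1 ^ 2 * h₁ - p2 ^ 2 * h₂

/-- The values at the origin. -/
theorem tz_origin (c : Bool) (Z : Fin 2 → A) (y : A) :
    tz W c Z ![1, 0] y 0 = (2 * (if c then Z 0 else Z 1)) • Z ∧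
      ty W c Z ![1, 0] y 0 = 4 * (if c then Z 0 else Z 1) ^ 2 * y := by
  cases c
  · refine ⟨?_, ?_⟩
    · unfold tz
      simp only [Bool.false_eq_true, if_false]
      rw [SV_one, SV_two]
      funext i
      fin_cases i <;> simp [wd] <;> ring
    · unfold ty tp1 tp2
      simp only [Bool.false_eq_true, if_false, wd, Matrix.cons_val_zero, Matrix.cons_val_one]
      ring
  · refine ⟨?_, ?_⟩
    · unfold tz
      simp only [if_true]
      rw [SV_zero, SV_one]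
      funext i
      fin_cases i <;> simp <;> ring
    · unfold ty tq1 tq2
      simp only [if_true, Matrix.cons_val_zero, Matrix.cons_val_one]
      ring

end

end Pool.Agent.Lib.MP_17a322_nt.VN
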