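import Pool.Agent.Lib.MP_17a322_nt.VN.L0b
import Pool.Agent.Lib.MP_17a322_nt.VJ.J7
import Pool.Agent.Lib.MP_17a322_nt.VJ.E2

/-!
# JOB L1e: the parameter at the origin, and sizes of the translation formulas

PROOFS.
`exists_zeta`. Let `G = 4 Y + b₂ Y ^ 2 + 2 b₄ Y ^ 3 + b₆ Y ^ 4 - 4 X ^ 2` in `MvPolynomial (Fin 2) L` (`X = X 0`,
`Y = X 1`, `bᵢ = algebraMap K L W.bᵢ`). `coeff 0 G = 0`, `coeff (single 1 1) G = 4 ≠ 0`. `J6_implicit` (VJ/J6) gives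
`ζ` with constant coefficient `0` and `aeval ![X, ζ] G = 0`, i.e. `4 X ^ 2 = ζ (4 + b₂ ζ + 2 b₄ ζ ^ 2 + b₆ ζ ^ 3)
= ph W ![1, ζ]`. Coefficient of `X`: `0 = 4 ζ₁` (all other terms are divisible by `ζ ^ 2`, hence by `X ^ 2`), so
`ζ₁ = 0`. Size: `NV v G ≤ lc W v ^ 12` (`A2_sum`-type estimates, `SN_NV`: nonarchimedean: maximum, archimedean: sum of
five terms; `b₂_le`, `b₄_le`, `b₆_le`, `E1_four`, VJ/E1; or use `E2_*` for the seminorm `NV v`), and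
`1 ≤ |4| * max 1 |2⁻¹| ^ 2`. So `(|4| / NV v G) ^ 2 ≥ kc ^ (-28)`, and `J7_size` (VJ/J7) gives
`PN v r n ζ ≤ |4| / NV v G ≤ 1` (`J7_rho`).
`tz_size`: `SV_size` (VJ/E2) for the vectors `Z` (size `lc * z`) and `R` (size `q`):
`ν (SV W Z R i) ≤ lc ^ 16 * (lc * z * q) ^ 2 = lc ^ 18 * (z * q) ^ 2`; `ν (y₁ * y₂) ≤ lc ^ 10 * (z * q) ^ 2`; factor `2`:
`E2_two`; sum: `E2_add`/`E2_sub`.
`ty_size`: `tp1`, `tq1`, ...: every monomial is a coefficient of size `≤ lc ^ 20` times a monomial in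
`Z 0, Z 1, R 0, R 1` (model: `nn_size`, `E2_mon` in VJ/E2). `tp1`: bidegree `(1, 3)`, 7 terms: size
`≤ lc ^ 17 * (z * q ^ 3)`; `tp2`: bidegree `(3, 1)`: `≤ lc ^ 18 * (z ^ 3 * q)`; `tq1`: bidegree `(2, 4)`, 13 terms:
`≤ lc ^ 26 * (z ^ 2 * q ^ 4)`; `tq2`: bidegree `(4, 2)`: `≤ lc ^ 28 * (z ^ 4 * q ^ 2)`; `ν y₁ ≤ lc ^ 9 * z ^ 2`,
`ν y₂ ≤ lc * q ^ 2`, `ν (wd Z R) ≤ lc ^ 2 * (z * q)`. (Any exponents with final bound `lc ^ 60` are fine.)
-/

namespace Pool.Agent.Lib.MP_17a322_nt.VN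

open MvPolynomial Height
open Pool.Agent.Lib.MP_17a322_nt.RO
open Pool.Agent.Lib.MP_17a322_nt.VJ

private theorem L1e_alg {K L : Type*} [Field K] [Field L] [Algebra K L] (b : K) :
    algebraMap K (MvPolynomial (Fin 2) L) b = C (algebraMap K L b) := by
  rw [IsScalarTower.algebraMap_apply K L (MvPolynomial (Fin 2) L)]
  rfl

private theorem L1e_algP {K L : Type*} [Field K] [Field L] [Algebra K L] (b : K) :
    algebraMap K (PowerSeries L) b = PowerSeries.C (algebraMap K L b) := by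
  rw [IsScalarTower.algebraMap_apply K L (PowerSeries L)]
  rfl

theorem exists_zeta {K L : Type*} [Field K] [Field L] [Algebra K L] [CharZero L]
    (W : WeierstrassCurve K) :
    ∃ ζ : PowerSeries L, PowerSeries.constantCoeff ζ = 0 ∧ PowerSeries.coeff 1 ζ = 0 ∧
      (2 * PowerSeries.X) ^ 2 = ph W ![1, ζ] ∧
      ∀ (v : AbsoluteValue L ℝ) (r : ℝ), 0 ≤ r → r * kc W v ^ 40 ≤ 1 →
        ∀ n, PN v r n ζ ≤ 1 := by
  obtain ⟨R, hR⟩ : ∃ R : Fin 2 → MvPolynomial (Fin 2) L, R = ![X 0, X 1] := ⟨_, rfl⟩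
  have hR0 : R 0 = X 0 := by rw [hR]; rfl
  have hR1 : R 1 = X 1 := by rw [hR]; rfl
  obtain ⟨G, hG⟩ : ∃ G : MvPolynomial (Fin 2) L, G = 4 * R 0 ^ 0 * R 1 ^ 1 +
      algebraMap K (MvPolynomial (Fin 2) L) W.b₂ * R 0 ^ 0 * R 1 ^ 2 +
      2 * algebraMap K (MvPolynomial (Fin 2) L) W.b₄ * R 0 ^ 0 * R 1 ^ 3 +
      algebraMap K (MvPolynomial (Fin 2) L) W.b₆ * R 0 ^ 0 * R 1 ^ 4 -
      4 * R 0 ^ 2 * R 1 ^ 0 := ⟨_, rfl⟩
  have hGm : G = monomial (Finsupp.single 1 1) 4 +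
      monomial (Finsupp.single 1 2) (algebraMap K L W.b₂) +
      monomial (Finsupp.single 1 3) (2 * algebraMap K L W.b₄) +
      monomial (Finsupp.single 1 4) (algebraMap K L W.b₆) - monomial (Finsupp.single 0 2) 4 := by
    rw [hG, hR0, hR1, L1e_alg, L1e_alg, L1e_alg]
    rw [← C_mul_X_pow_eq_monomial, ← C_mul_X_pow_eq_monomial, ← C_mul_X_pow_eq_monomial,
      ← C_mul_X_pow_eq_monomial, ← C_mul_X_pow_eq_monomial, C_mul,
      show (C (4 : L) : MvPolynomial (Fin 2) L) = 4 from map_ofNat C 4,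
      show (C (2 : L) : MvPolynomial (Fin 2) L) = 2 from map_ofNat C 2]
    ring
  have h0 : coeff 0 G = 0 := by
    rw [hGm]
    simp [coeff_monomial]
  have h1 : coeff (Finsupp.single 1 1) G = 4 := by
    rw [hGm]
    simp [coeff_monomial, Finsupp.single_eq_single_iff]
  have h4 : (4 : L) ≠ 0 := by norm_num
  obtain ⟨ζ, hζ, hζG⟩ := J6_implicit G h0 (by rw [h1]; exact h4)
  have heq : 4 * ζ + PowerSeries.C (algebraMap K L W.b₂) * ζ ^ 2 +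
      2 * PowerSeries.C (algebraMap K L W.b₄) * ζ ^ 3 +
      PowerSeries.C (algebraMap K L W.b₆) * ζ ^ 4 - 4 * PowerSeries.X ^ 2 = 0 := by
    rw [hG, hR0, hR1, L1e_alg, L1e_alg, L1e_alg] at hζG
    simp only [map_sub, map_add, map_mul, map_pow, aeval_X, aeval_C, map_ofNat,
      Matrix.cons_val_zero, Matrix.cons_val_one, pow_zero, mul_one, pow_one] at hζG
    exact hζG
  refine ⟨ζ, hζ, ?_, ?_, ?_⟩
  · obtain ⟨ξ, rfl⟩ := PowerSeries.X_dvd_iff.mpr hζ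
    have h2 : (PowerSeries.X : PowerSeries L) * (4 * ξ + PowerSeries.X *
        (PowerSeries.C (algebraMap K L W.b₂) * ξ ^ 2 +
          2 * PowerSeries.C (algebraMap K L W.b₄) * PowerSeries.X * ξ ^ 3 +
          PowerSeries.C (algebraMap K L W.b₆) * PowerSeries.X ^ 2 * ξ ^ 4 - 4)) =
        PowerSeries.X * 0 := by
      rw [mul_zero, ← heq]
      ring
    have h3 := congrArg PowerSeries.constantCoeff (mul_left_cancel₀ PowerSeries.X_ne_zero h2)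
    rw [map_add, map_mul, map_mul, PowerSeries.constantCoeff_X, zero_mul, add_zero, map_zero] at h3
    have h5 : PowerSeries.constantCoeff (4 : PowerSeries L) = (4 : L) := map_ofNat _ 4
    rw [h5] at h3
    have h6 : PowerSeries.constantCoeff ξ = 0 := (mul_eq_zero.mp h3).resolve_left h4
    rw [show (1 : ℕ) = 0 + 1 from rfl, PowerSeries.coeff_succ_X_mul,
      PowerSeries.coeff_zero_eq_constantCoeff_apply]
    exact h6
  · unfold ph
    rw [L1e_algP, L1e_algP, L1e_algP]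
    simp only [Matrix.cons_val_zero, Matrix.cons_val_one]
    linear_combination -heq
  · intro v r hr hr' n
    have hR' : ∀ i, NV v (R i) ≤ 1 := by
      intro i
      fin_cases i
      · show NV v (R 0) ≤ 1
        rw [hR0, NV_X]
      · show NV v (R 1) ≤ 1
        rw [hR1, NV_X]
    have hS := SN_NV v (σ := Fin 2)
    have t1 := E2_mon W hS R hR' 4 (E2_four W hS) 0 1
    have t2 := E2_mon W hS R hR' _ (E2_b₂ W hS) 0 2
    have t3 := E2_mon W hS R hR' _ (E2_cc W hS (E2_two W hS) (E2_b₄ W hS)) 0 3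
    have t4 := E2_mon W hS R hR' _ (E2_b₆ W hS) 0 4
    have t5 := E2_mon W hS R hR' 4 (E2_four W hS) 2 0
    rw [one_pow] at t1 t2 t3 t4 t5
    have hN : NV v G ≤ lc W v ^ 12 * 1 := by
      rw [hG]
      have hx : (0 : ℝ) ≤ 1 := zero_le_one
      exact E2_sub W hS (by norm_num) hx (E2_add W hS (by norm_num) hx
        (E2_add W hS (m := 9) (by norm_num) hx (E2_add W hS (m := 8) (by norm_num) hx
          (E2_up W v (by norm_num) hx t1) t2) t3) t4) t5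
    rw [mul_one] at hN
    have h1' : coeff (Finsupp.single 1 1) G ≠ 0 := by rw [h1]; exact h4
    obtain ⟨hρ0, hρ1⟩ := J7_rho v G h1'
    refine (J7_size v G h0 h1' ζ hζ hζG hr ?_ n).trans hρ1
    have hG0 : G ≠ 0 := by
      rintro hG0
      rw [hG0, coeff_zero] at h1'
      exact h1' rfl
    have hNp : 0 < NV v G := NV_pos v hG0
    have hl : 1 ≤ lc W v := one_le_lc W v
    have hm : 1 ≤ max 1 (v (2 : L)⁻¹) := le_max_left _ _
    rw [h1]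
    have h2L : v (4 : L) * (v (2 : L)⁻¹) ^ 2 = 1 := by
      rw [← map_pow, ← map_mul, show (4 : L) * (2 : L)⁻¹ ^ 2 = 1 by norm_num, map_one]
    have h4p : 0 < v (4 : L) := v.pos h4
    have h4m : 1 ≤ v (4 : L) * (max 1 (v (2 : L)⁻¹)) ^ 2 := by
      rw [← h2L]
      exact mul_le_mul_of_nonneg_left (pow_le_pow_left₀ (v.nonneg _) (le_max_right _ _) 2) h4p.le
    have hk : kc W v ^ 40 = lc W v ^ 40 * max 1 (v (2 : L)⁻¹) ^ 40 := by
      unfold kc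
      rw [mul_pow]
    have hk0 : 0 < kc W v ^ 40 := by
      rw [hk]
      positivity
    have h5 : r ≤ 1 / kc W v ^ 40 := by
      rw [le_div_iff₀ hk0]
      exact hr'
    refine h5.trans ?_
    rw [div_pow, div_le_div_iff₀ hk0 (pow_pos hNp 2), one_mul]
    have h6 : NV v G ^ 2 ≤ (lc W v ^ 12) ^ 2 := pow_le_pow_left₀ hNp.le hN 2
    have h7 : (lc W v ^ 12) ^ 2 ≤ lc W v ^ 40 := by
      rw [← pow_mul]
      exact pow_le_pow_right₀ hl (by norm_num)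
    have h8 : (1 : ℝ) ≤ v (4 : L) ^ 2 * max 1 (v (2 : L)⁻¹) ^ 40 := by
      have h9 : (1 : ℝ) ≤ (v (4 : L) * (max 1 (v (2 : L)⁻¹)) ^ 2) ^ 2 := one_le_pow₀ h4m
      have h10 : (v (4 : L) * (max 1 (v (2 : L)⁻¹)) ^ 2) ^ 2 =
          v (4 : L) ^ 2 * max 1 (v (2 : L)⁻¹) ^ 4 := by ring
      rw [h10] at h9
      exact h9.trans (mul_le_mul_of_nonneg_left (pow_le_pow_right₀ hm (by norm_num))
        (by positivity))
    rw [hk]
    calc NV v G ^ 2 ≤ lc W v ^ 40 := h6.trans h7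
      _ ≤ lc W v ^ 40 * (v (4 : L) ^ 2 * max 1 (v (2 : L)⁻¹) ^ 40) :=
          le_mul_of_one_le_right (by positivity) h8
      _ = v (4 : L) ^ 2 * (lc W v ^ 40 * max 1 (v (2 : L)⁻¹) ^ 40) := by ring

section

variable {K : Type*} [Field K] (W : WeierstrassCurve K) {L : Type*} [Field L] [Algebra K L]
  {v : AbsoluteValue L ℝ} {A : Type*} [CommRing A] [Algebra L A] [Algebra K A]
  [IsScalarTower K L A] {ν : A → ℝ} (h : SN v ν)

include h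

theorem tz_size (c : Bool) (Z R : Fin 2 → A) (y₁ y₂ : A) {z q : ℝ} (hz0 : 0 ≤ z) (hq0 : 0 ≤ q)
    (hz : ∀ i, ν (Z i) ≤ lc W v * z) (hq : ∀ i, ν (R i) ≤ q) (h1 : ν y₁ ≤ lc W v ^ 9 * z ^ 2)
    (h2 : ν y₂ ≤ lc W v * q ^ 2) (i : Fin 2) :
    ν (tz W c Z R y₁ y₂ i) ≤ lc W v ^ 30 * (z * q) ^ 2 := by
  have hx : 0 ≤ (z * q) ^ 2 := sq_nonneg _
  have hS : ∀ i, ν (SV W Z R i) ≤ lc W v ^ 18 * (z * q) ^ 2 := by
    intro i
    have e : lc W v ^ 18 * (z * q) ^ 2 = lc W v ^ 16 * (lc W v * z * q) ^ 2 := by ring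
    rw [e]
    exact SV_size W h Z R hz hq i
  have h2S : ∀ i, ν (2 * SV W Z R i) ≤ lc W v ^ 30 * (z * q) ^ 2 := by
    intro i
    refine E2_up W v (m := 19) (by norm_num) hx ?_
    have e : lc W v ^ 19 * (z * q) ^ 2 = lc W v ^ 1 * (lc W v ^ 18 * (z * q) ^ 2) := by ring
    rw [e]
    exact E2_mul h (E2_two W h) (hS i)
  have hy : ν (y₁ * y₂) ≤ lc W v ^ 10 * (z * q) ^ 2 := by
    have e : lc W v ^ 10 * (z * q) ^ 2 = (lc W v ^ 9 * z ^ 2) * (lc W v * q ^ 2) := by ring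
    rw [e]
    exact E2_mul h h1 h2
  have ha : ν (SV W Z R 1 + y₁ * y₂) ≤ lc W v ^ 30 * (z * q) ^ 2 :=
    E2_up W v (m := 19) (by norm_num) hx (E2_add W h (by norm_num) hx (hS 1) hy)
  have hb : ν (SV W Z R 1 - y₁ * y₂) ≤ lc W v ^ 30 * (z * q) ^ 2 :=
    E2_up W v (m := 19) (by norm_num) hx (E2_sub W h (by norm_num) hx (hS 1) hy)
  cases c
  · fin_cases i
    · exact hb
    · exact h2S 2
  · fin_cases i
    · exact h2S 0
    · exact ha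

omit h in
private theorem L1e_mon (h : SN v ν) (Z R : Fin 2 → A) {z q : ℝ}
    (hz : ∀ i, ν (Z i) ≤ lc W v * z) (hq : ∀ i, ν (R i) ≤ q) (c : A) {n : ℕ}
    (hc : ν c ≤ lc W v ^ n) (i j k l : ℕ) :
    ν (c * Z 0 ^ i * Z 1 ^ j * (R 0 ^ k * R 1 ^ l)) ≤
      lc W v ^ (n + (i + j)) * (z ^ (i + j) * q ^ (k + l)) := by
  have e : lc W v ^ (n + (i + j)) * (z ^ (i + j) * q ^ (k + l)) =
      lc W v ^ n * (lc W v * z) ^ (i + j) * (1 * (q ^ k * q ^ l)) := by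
    rw [pow_add, mul_pow, pow_add q]
    ring
  rw [e]
  refine E2_mul h (E2_mon W h Z hz c hc i j) ?_
  rw [one_mul]
  refine E2_mul h ?_ ?_
  · exact (h.pow_le _ _).trans (pow_le_pow_left₀ (h.nonneg _) (hq 0) _)
  · exact (h.pow_le _ _).trans (pow_le_pow_left₀ (h.nonneg _) (hq 1) _)

private theorem L1e_tp1 (Z R : Fin 2 → A) {z q : ℝ} (hz0 : 0 ≤ z) (hq0 : 0 ≤ q)
    (hz : ∀ i, ν (Z i) ≤ lc W v * z) (hq : ∀ i, ν (R i) ≤ q) :
    ν (tp1 (algebraMap K A W.b₂) (algebraMap K A W.b₄) (algebraMap K A W.b₆)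
        (Z 0) (Z 1) (R 0) (R 1)) ≤ lc W v ^ 20 * (z ^ 1 * q ^ 3) := by
  have hx : 0 ≤ z ^ 1 * q ^ 3 := by positivity
  have up : ∀ {c : A} {n : ℕ}, n ≤ 10 → ν c ≤ lc W v ^ n → ν c ≤ lc W v ^ 10 := by
    intro c n hn hc
    exact hc.trans (lc_pow_mono W v hn)
  have c1 : ν (6 : A) ≤ lc W v ^ 10 := up (n := 3) (by norm_num) (by
    simpa using E2_num W h 6 3 (by norm_num))
  have c2 : ν (algebraMap K A W.b₂) ≤ lc W v ^ 10 := up (n := 8) (by norm_num) (E2_b₂ W h)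
  have c3 : ν (algebraMap K A W.b₄) ≤ lc W v ^ 10 := up (n := 8) (by norm_num) (E2_b₄ W h)
  have c4 : ν (2 : A) ≤ lc W v ^ 10 := up (n := 1) (by norm_num) (E2_two W h)
  have c5 : ν (3 * algebraMap K A W.b₄) ≤ lc W v ^ 10 :=
    E2_cc W h (m := 2) (n := 8) (by simpa using E2_num W h 3 2 (by norm_num)) (E2_b₄ W h)
  have c6 : ν (2 * algebraMap K A W.b₆) ≤ lc W v ^ 10 :=
    up (n := 9) (by norm_num) (E2_cc W h (m := 1) (n := 8) (E2_two W h) (E2_b₆ W h))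
  have t1 := L1e_mon W h Z R hz hq _ c1 1 0 2 1
  have t2 := L1e_mon W h Z R hz hq _ c2 1 0 1 2
  have t3 := L1e_mon W h Z R hz hq _ c3 1 0 0 3
  have t4 := L1e_mon W h Z R hz hq _ c4 0 1 3 0
  have t5 := L1e_mon W h Z R hz hq _ c2 0 1 2 1
  have t6 := L1e_mon W h Z R hz hq _ c5 0 1 1 2
  have t7 := L1e_mon W h Z R hz hq _ c6 0 1 0 3
  have e : tp1 (algebraMap K A W.b₂) (algebraMap K A W.b₄) (algebraMap K A W.b₆)
        (Z 0) (Z 1) (R 0) (R 1) =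
      -(6 * Z 0 ^ 1 * Z 1 ^ 0 * (R 0 ^ 2 * R 1 ^ 1) +
        algebraMap K A W.b₂ * Z 0 ^ 1 * Z 1 ^ 0 * (R 0 ^ 1 * R 1 ^ 2) +
        algebraMap K A W.b₄ * Z 0 ^ 1 * Z 1 ^ 0 * (R 0 ^ 0 * R 1 ^ 3) +
        2 * Z 0 ^ 0 * Z 1 ^ 1 * (R 0 ^ 3 * R 1 ^ 0) +
        algebraMap K A W.b₂ * Z 0 ^ 0 * Z 1 ^ 1 * (R 0 ^ 2 * R 1 ^ 1) +
        3 * algebraMap K A W.b₄ * Z 0 ^ 0 * Z 1 ^ 1 * (R 0 ^ 1 * R 1 ^ 2) +
        2 * algebraMap K A W.b₆ * Z 0 ^ 0 * Z 1 ^ 1 * (R 0 ^ 0 * R 1 ^ 3)) := by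
    unfold tp1
    ring
  rw [e, h.neg]
  have s2 := E2_add W h le_rfl hx t1 t2
  have s3 := E2_add W h (by norm_num) hx s2 t3
  have s4 := E2_add W h (by norm_num) hx s3 t4
  have s5 := E2_add W h (by norm_num) hx s4 t5
  have s6 := E2_add W h (by norm_num) hx s5 t6
  have s7 := E2_add W h (by norm_num) hx s6 t7
  exact E2_up W v (by norm_num) hx s7

private theorem L1e_tp2 (Z R : Fin 2 → A) {z q : ℝ} (hz0 : 0 ≤ z) (hq0 : 0 ≤ q)
    (hz : ∀ i, ν (Z i) ≤ lc W v * z) (hq : ∀ i, ν (R i) ≤ q) :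
    ν (tp2 (algebraMap K A W.b₂) (algebraMap K A W.b₄) (algebraMap K A W.b₆)
        (Z 0) (Z 1) (R 0) (R 1)) ≤ lc W v ^ 20 * (z ^ 3 * q ^ 1) := by
  have hx : 0 ≤ z ^ 3 * q ^ 1 := by positivity
  have up : ∀ {c : A} {n : ℕ}, n ≤ 10 → ν c ≤ lc W v ^ n → ν c ≤ lc W v ^ 10 := by
    intro c n hn hc
    exact hc.trans (lc_pow_mono W v hn)
  have c1 : ν (6 : A) ≤ lc W v ^ 10 := up (n := 3) (by norm_num) (by
    simpa using E2_num W h 6 3 (by norm_num))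
  have c2 : ν (algebraMap K A W.b₂) ≤ lc W v ^ 10 := up (n := 8) (by norm_num) (E2_b₂ W h)
  have c3 : ν (algebraMap K A W.b₄) ≤ lc W v ^ 10 := up (n := 8) (by norm_num) (E2_b₄ W h)
  have c4 : ν (2 : A) ≤ lc W v ^ 10 := up (n := 1) (by norm_num) (E2_two W h)
  have c5 : ν (3 * algebraMap K A W.b₄) ≤ lc W v ^ 10 :=
    E2_cc W h (m := 2) (n := 8) (by simpa using E2_num W h 3 2 (by norm_num)) (E2_b₄ W h)
  have c6 : ν (2 * algebraMap K A W.b₆) ≤ lc W v ^ 10 :=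
    up (n := 9) (by norm_num) (E2_cc W h (m := 1) (n := 8) (E2_two W h) (E2_b₆ W h))
  have t1 := L1e_mon W h Z R hz hq _ c4 3 0 0 1
  have t2 := L1e_mon W h Z R hz hq _ c1 2 1 1 0
  have t3 := L1e_mon W h Z R hz hq _ c2 2 1 0 1
  have t4 := L1e_mon W h Z R hz hq _ c2 1 2 1 0
  have t5 := L1e_mon W h Z R hz hq _ c5 1 2 0 1
  have t6 := L1e_mon W h Z R hz hq _ c3 0 3 1 0
  have t7 := L1e_mon W h Z R hz hq _ c6 0 3 0 1
  have e : tp2 (algebraMap K A W.b₂) (algebraMap K A W.b₄) (algebraMap K A W.b₆)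
        (Z 0) (Z 1) (R 0) (R 1) =
      2 * Z 0 ^ 3 * Z 1 ^ 0 * (R 0 ^ 0 * R 1 ^ 1) +
        6 * Z 0 ^ 2 * Z 1 ^ 1 * (R 0 ^ 1 * R 1 ^ 0) +
        algebraMap K A W.b₂ * Z 0 ^ 2 * Z 1 ^ 1 * (R 0 ^ 0 * R 1 ^ 1) +
        algebraMap K A W.b₂ * Z 0 ^ 1 * Z 1 ^ 2 * (R 0 ^ 1 * R 1 ^ 0) +
        3 * algebraMap K A W.b₄ * Z 0 ^ 1 * Z 1 ^ 2 * (R 0 ^ 0 * R 1 ^ 1) +
        algebraMap K A W.b₄ * Z 0 ^ 0 * Z 1 ^ 3 * (R 0 ^ 1 * R 1 ^ 0) +
        2 * algebraMap K A W.b₆ * Z 0 ^ 0 * Z 1 ^ 3 * (R 0 ^ 0 * R 1 ^ 1) := by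
    unfold tp2
    ring
  rw [e]
  have s2 := E2_add W h le_rfl hx t1 t2
  have s3 := E2_add W h (by norm_num) hx s2 t3
  have s4 := E2_add W h (by norm_num) hx s3 t4
  have s5 := E2_add W h (by norm_num) hx s4 t5
  have s6 := E2_add W h (by norm_num) hx s5 t6
  have s7 := E2_add W h (by norm_num) hx s6 t7
  exact E2_up W v (by norm_num) hx s7

private theorem L1e_num (n k : ℕ) (b : A) (m : ℕ) (hn : n ≤ 2 ^ k) (hb : ν b ≤ lc W v ^ m)
    (hkm : k + m ≤ 18) : ν ((n : A) * b) ≤ lc W v ^ 18 :=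
  (E2_cc W h (E2_num W h n k hn) hb).trans (lc_pow_mono W v hkm)

private theorem L1e_tq1 (Z R : Fin 2 → A) {z q : ℝ} (hz0 : 0 ≤ z) (hq0 : 0 ≤ q)
    (hz : ∀ i, ν (Z i) ≤ lc W v * z) (hq : ∀ i, ν (R i) ≤ q) :
    ν (tq1 (algebraMap K A W.b₂) (algebraMap K A W.b₄) (algebraMap K A W.b₆)
        (algebraMap K A W.b₈) (Z 0) (Z 1) (R 0) (R 1)) ≤ lc W v ^ 40 * (z ^ 2 * q ^ 4) := by
  have hx : 0 ≤ z ^ 2 * q ^ 4 := by positivity
  have b2 := E2_b₂ W h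
  have b4 := E2_b₄ W h
  have b6 := E2_b₆ W h
  have b8 := E2_b₈ W h
  have b1 : ν (1 : A) ≤ lc W v ^ 0 := by rw [pow_zero]; exact h.one_le
  have t1 := L1e_mon W h Z R hz hq _ (L1e_num W h 4 2 1 0 (by norm_num) b1 (by norm_num)) 2 0 4 0
  have t2 := L1e_mon W h Z R hz hq _ (L1e_num W h 2 1 _ 8 (by norm_num) b2 (by norm_num)) 2 0 3 1
  have t3 := L1e_mon W h Z R hz hq _ (L1e_num W h 6 3 _ 8 (by norm_num) b4 (by norm_num)) 2 0 2 2
  have t4 := L1e_mon W h Z R hz hq _ (L1e_num W h 4 2 _ 8 (by norm_num) b6 (by norm_num)) 2 0 1 3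
  have t5 := L1e_mon W h Z R hz hq _ (L1e_num W h 4 2 _ 8 (by norm_num) b4 (by norm_num)) 1 1 3 1
  have t6 := L1e_mon W h Z R hz hq _ (L1e_num W h 12 4 _ 8 (by norm_num) b6 (by norm_num)) 1 1 2 2
  have t7 := L1e_mon W h Z R hz hq _ (L1e_num W h 8 3 _ 8 (by norm_num) b8 (by norm_num)) 1 1 1 3
  have t8 := L1e_mon W h Z R hz hq _ (L1e_num W h 4 2 _ 8 (by norm_num) b6 (by norm_num)) 0 2 3 1
  have t9 := L1e_mon W h Z R hz hq _ (L1e_num W h 12 4 _ 8 (by norm_num) b8 (by norm_num)) 0 2 2 2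
  have t10 := L1e_mon W h Z R hz hq _ (L1e_num W h 2 1 _ 16 (by norm_num) (E2_cc W h b2 b8)
    (by norm_num)) 0 2 1 3
  have t11 := L1e_mon W h Z R hz hq _ (L1e_num W h 2 1 _ 16 (by norm_num) (E2_cc W h b4 b6)
    (by norm_num)) 0 2 1 3
  have t12 := L1e_mon W h Z R hz hq _ (L1e_num W h 2 1 _ 16 (by norm_num) (E2_cc W h b4 b8)
    (by norm_num)) 0 2 0 4
  have t13 := L1e_mon W h Z R hz hq _ (L1e_num W h 2 1 _ 16 (by norm_num) (E2_cc W h b6 b6)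
    (by norm_num)) 0 2 0 4
  have s2 := E2_add W h le_rfl hx t1 t2
  have s3 := E2_add W h (by norm_num) hx s2 t3
  have s4 := E2_add W h (by norm_num) hx s3 t4
  have s5 := E2_add W h (by norm_num) hx s4 t5
  have s6 := E2_add W h (by norm_num) hx s5 t6
  have s7 := E2_add W h (by norm_num) hx s6 t7
  have s8 := E2_add W h (by norm_num) hx s7 t8
  have s9 := E2_add W h (by norm_num) hx s8 t9
  have s10 := E2_add W h (by norm_num) hx s9 t10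
  have s11 := E2_sub W h (by norm_num) hx s10 t11
  have s12 := E2_add W h (by norm_num) hx s11 t12
  have s13 := E2_sub W h (by norm_num) hx s12 t13
  refine le_trans (le_of_eq ?_) (E2_up W v (by norm_num) hx s13)
  refine congrArg ν ?_
  unfold tq1
  push_cast
  ring

private theorem L1e_tq2 (Z R : Fin 2 → A) {z q : ℝ} (hz0 : 0 ≤ z) (hq0 : 0 ≤ q)
    (hz : ∀ i, ν (Z i) ≤ lc W v * z) (hq : ∀ i, ν (R i) ≤ q) :
    ν (tq2 (algebraMap K A W.b₂) (algebraMap K A W.b₄) (algebraMap K A W.b₆)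
        (algebraMap K A W.b₈) (Z 0) (Z 1) (R 0) (R 1)) ≤ lc W v ^ 40 * (z ^ 4 * q ^ 2) := by
  have hx : 0 ≤ z ^ 4 * q ^ 2 := by positivity
  have b2 := E2_b₂ W h
  have b4 := E2_b₄ W h
  have b6 := E2_b₆ W h
  have b8 := E2_b₈ W h
  have b1 : ν (1 : A) ≤ lc W v ^ 0 := by rw [pow_zero]; exact h.one_le
  have t1 := L1e_mon W h Z R hz hq _ (L1e_num W h 4 2 1 0 (by norm_num) b1 (by norm_num)) 4 0 2 0
  have t2 := L1e_mon W h Z R hz hq _ (L1e_num W h 2 1 _ 8 (by norm_num) b2 (by norm_num)) 3 1 2 0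
  have t3 := L1e_mon W h Z R hz hq _ (L1e_num W h 4 2 _ 8 (by norm_num) b4 (by norm_num)) 3 1 1 1
  have t4 := L1e_mon W h Z R hz hq _ (L1e_num W h 4 2 _ 8 (by norm_num) b6 (by norm_num)) 3 1 0 2
  have t5 := L1e_mon W h Z R hz hq _ (L1e_num W h 6 3 _ 8 (by norm_num) b4 (by norm_num)) 2 2 2 0
  have t6 := L1e_mon W h Z R hz hq _ (L1e_num W h 12 4 _ 8 (by norm_num) b6 (by norm_num)) 2 2 1 1
  have t7 := L1e_mon W h Z R hz hq _ (L1e_num W h 12 4 _ 8 (by norm_num) b8 (by norm_num)) 2 2 0 2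
  have t8 := L1e_mon W h Z R hz hq _ (L1e_num W h 4 2 _ 8 (by norm_num) b6 (by norm_num)) 1 3 2 0
  have t9 := L1e_mon W h Z R hz hq _ (L1e_num W h 8 3 _ 8 (by norm_num) b8 (by norm_num)) 1 3 1 1
  have t10 := L1e_mon W h Z R hz hq _ (L1e_num W h 2 1 _ 16 (by norm_num) (E2_cc W h b2 b8)
    (by norm_num)) 1 3 0 2
  have t11 := L1e_mon W h Z R hz hq _ (L1e_num W h 2 1 _ 16 (by norm_num) (E2_cc W h b4 b6)
    (by norm_num)) 1 3 0 2
  have t12 := L1e_mon W h Z R hz hq _ (L1e_num W h 2 1 _ 16 (by norm_num) (E2_cc W h b4 b8)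
    (by norm_num)) 0 4 0 2
  have t13 := L1e_mon W h Z R hz hq _ (L1e_num W h 2 1 _ 16 (by norm_num) (E2_cc W h b6 b6)
    (by norm_num)) 0 4 0 2
  have s2 := E2_add W h le_rfl hx t1 t2
  have s3 := E2_add W h (by norm_num) hx s2 t3
  have s4 := E2_add W h (by norm_num) hx s3 t4
  have s5 := E2_add W h (by norm_num) hx s4 t5
  have s6 := E2_add W h (by norm_num) hx s5 t6
  have s7 := E2_add W h (by norm_num) hx s6 t7
  have s8 := E2_add W h (by norm_num) hx s7 t8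
  have s9 := E2_add W h (by norm_num) hx s8 t9
  have s10 := E2_add W h (by norm_num) hx s9 t10
  have s11 := E2_sub W h (by norm_num) hx s10 t11
  have s12 := E2_add W h (by norm_num) hx s11 t12
  have s13 := E2_sub W h (by norm_num) hx s12 t13
  refine le_trans (le_of_eq ?_) (E2_up W v (by norm_num) hx s13)
  refine congrArg ν ?_
  unfold tq2
  push_cast
  ring

theorem ty_size (c : Bool) (Z R : Fin 2 → A) (y₁ y₂ : A) {z q : ℝ} (hz0 : 0 ≤ z) (hq0 : 0 ≤ q)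
    (hz : ∀ i, ν (Z i) ≤ lc W v * z) (hq : ∀ i, ν (R i) ≤ q) (h1 : ν y₁ ≤ lc W v ^ 9 * z ^ 2)
    (h2 : ν y₂ ≤ lc W v * q ^ 2) :
    ν (ty W c Z R y₁ y₂) ≤ lc W v ^ 60 * (z * q) ^ 4 := by
  have hx : 0 ≤ (z * q) ^ 4 := by positivity
  unfold ty
  cases c
  · rw [if_neg (by simp)]
    have hx3 : 0 ≤ (z * q) ^ 3 := by positivity
    have a1 := E2_mul h (L1e_tp1 W h Z R hz0 hq0 hz hq) h1
    have a2 := E2_mul h (L1e_tp2 W h Z R hz0 hq0 hz hq) h2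
    have e1 : lc W v ^ 20 * (z ^ 1 * q ^ 3) * (lc W v ^ 9 * z ^ 2) =
        lc W v ^ 29 * (z * q) ^ 3 := by ring
    have e2 : lc W v ^ 20 * (z ^ 3 * q ^ 1) * (lc W v * q ^ 2) =
        lc W v ^ 21 * (z * q) ^ 3 := by ring
    rw [e1] at a1
    rw [e2] at a2
    have a3 := E2_add W h (by norm_num) hx3 a1 a2
    have hw : ν (wd Z R) ≤ lc W v ^ 2 * (z * q) ^ 1 := by
      have hx1 : 0 ≤ (z * q) ^ 1 := by positivity
      unfold wd
      refine E2_sub W h (m := 1) (n := 1) le_rfl hx1 ?_ ?_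
      · have e : lc W v ^ 1 * (z * q) ^ 1 = (lc W v * z) * q := by ring
        rw [e]
        exact E2_mul h (hz 0) (hq 1)
      · have e : lc W v ^ 1 * (z * q) ^ 1 = (lc W v * z) * q := by ring
        rw [e]
        exact E2_mul h (hz 1) (hq 0)
    have a4 := E2_mul h (E2_mul h (E2_two W h) hw) a3
    have e3 : lc W v ^ 1 * (lc W v ^ 2 * (z * q) ^ 1) * (lc W v ^ (29 + 1) * (z * q) ^ 3) =
        lc W v ^ 33 * (z * q) ^ 4 := by ring
    rw [e3] at a4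
    exact E2_up W v (by norm_num) hx a4
  · rw [if_pos rfl]
    have a1 := E2_mul h (L1e_tq1 W h Z R hz0 hq0 hz hq) h1
    have a2 := E2_mul h (L1e_tq2 W h Z R hz0 hq0 hz hq) h2
    have e1 : lc W v ^ 40 * (z ^ 2 * q ^ 4) * (lc W v ^ 9 * z ^ 2) =
        lc W v ^ 49 * (z * q) ^ 4 := by ring
    have e2 : lc W v ^ 40 * (z ^ 4 * q ^ 2) * (lc W v * q ^ 2) =
        lc W v ^ 41 * (z * q) ^ 4 := by ring
    rw [e1] at a1
    rw [e2] at a2
    exact E2_up W v (by norm_num) hx (E2_add W h (by norm_num) hx a1 a2)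

end

end Pool.Agent.Lib.MP_17a322_nt.VN
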