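import Pool.Agent.Lib.MP_17a322_nt.VN.L1e
import Pool.Agent.Lib.MP_17a322_nt.VN.L1d
import Pool.Agent.Lib.MP_17a322_nt.VJ.E5

/-!
# JOB L1f: the translated point: values at the origin, chart coordinate, sizes

Symbols (VN/L0b): `P2 L = PowerSeries (PowerSeries L)` (variable `z` outside, `T` inside), `cc2` the constant
coefficient, `nu2 v r κ n n'` the seminorm, `tZ`, `tY` the translation formulas `tz`, `ty` (VN/L1b) at
`Z = C (vc χ S)`, `R = (1, ζ(z))`, `y₁ = Y(T)`, `y₂ = 2 z`. `P2 L` is an algebra over `K` and `L`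
(`IsScalarTower` is found by instance search).

PROOFS.
`SN_nu2`: `SN_PA` (L1c) and `SN_PN` (VJ/J5).
`ph_tZ`: `ph_tz` (L1b) with `y₁ ^ 2 = C (Y ^ 2) = C (ph W (vc χ S)) = ph W (fun i => C (vc χ S i))` (`map_ph`, VJ/E3, for the
algebra homomorphism `PowerSeries.C : PowerSeries L → P2 L`) and `y₂ ^ 2 = (2 X) ^ 2 = ph W ![1, map C ζ]` (apply
`PowerSeries.map C` to the hypothesis `hζ`; `map_ph` again or unfold `ph`).
`tZ_zero`: apply the homomorphism `constantCoeff : P2 L → PowerSeries L` (a `K`-algebra homomorphism); it maps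
`tZ .. c` to `tz W c (vc χ S) ![1, 0] Y 0`; `tz_origin` (L1b).
`cc2_tZ`, `cc2_tY`: apply `constantCoeff` once more.
`tZ_prop`: `wd_tz` (L1b).
`coord_u`: let `p = pv χ (tZ .. χ)`. By `tZ_zero` its constant coefficient in `z` is `2 * pv χ (vc χ S) * pv χ (vc χ S) = 2`
(constant in `T` too), a unit of `PowerSeries L`, so `p` is a unit of `P2 L` (`PowerSeries.isUnit_iff_constantCoeff`). Let
`p * e = 1`, `u = ov χ (tZ .. χ) * e`. `vc χ u = e • tZ ..` by cases on `χ` and the component. `constantCoeff u = S`. The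
coefficient of `z`: the coefficient of `z` in `map C ζ` vanishes (`hζ1`), hence that of `SV W (C Z) ![1, map C ζ] i` vanishes
(`SV_zero`, `SV_one`, `SV_two` are polynomials in `map C ζ`; use: `constantCoeff = 0` and `coeff 1 = 0` imply `map C ζ = X ^ 2 * s` and
`coeff 1 (a + X ^ 2 * b) = coeff 1 a`). `χ = false`: `tZ 0 = 2 S - 2 Y z + O(z ^ 2)`, `tZ 1 = 2 + O(z ^ 2)`, `u = S - Y z + ..`.
`χ = true`: `tZ 0 = 2 + O(z ^ 2)`, `tZ 1 = 2 S + 2 Y z + ..`. From `u * p = ov ..` compare the coefficients of `z`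
(`PowerSeries.coeff_mul`, antidiagonal of `1`): `coeff 1 u * 2 + S * coeff 1 p = coeff 1 (ov ..)`, `coeff 1 p = 0`.
`tZ_size`: `tz_size`, `ty_size` (L1e) for the seminorm `nu2 v rho κ n n'` with `z = vn v (vc χ σ)`, `q = 1`.
`vn v (vc χ σ) = max 1 (v σ)`. `nu2 (C f) = PN v rho n f` (`PA_C`). `PN v rho n 1 ≤ 1`. `v β ≤ lc ^ 8 * z ^ 2` from
`v β ^ 2 = v (ph W (vc χ σ)) ≤ lc ^ 16 * z ^ 4` (`ph_size`, VJ/E2, for the seminorm `v`). `nu2 (2 * X) ≤ lc * κ ≤ lc`.
`nu2 (map C ζ) = PN v κ n' ζ ≤ 1` (`PA_map_C`).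
-/

namespace Pool.Agent.Lib.MP_17a322_nt.VN

open MvPolynomial Height
open Pool.Agent.Lib.MP_17a322_nt.RO
open Pool.Agent.Lib.MP_17a322_nt.VJ

/-- `PowerSeries.C` as a homomorphism of algebras. -/
private noncomputable def CK (K : Type*) [Field K] (L : Type*) [Field L] [Algebra K L] :
    PowerSeries L →ₐ[K] P2 L :=
  { (PowerSeries.C : PowerSeries L →+* P2 L) with
    commutes' := fun r => by
      rw [PowerSeries.algebraMap_apply (A := PowerSeries L)]
      rfl }

private theorem CK_apply (K : Type*) [Field K] (L : Type*) [Field L] [Algebra K L]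
    (f : PowerSeries L) : CK K L f = PowerSeries.C f := rfl

/-- `PowerSeries.map C` as a homomorphism of algebras. -/
private noncomputable def MK (K : Type*) [Field K] (L : Type*) [Field L] [Algebra K L] :
    PowerSeries L →ₐ[K] P2 L :=
  { (PowerSeries.map (PowerSeries.C : L →+* PowerSeries L) : PowerSeries L →+* P2 L) with
    commutes' := fun r => by
      rw [PowerSeries.algebraMap_apply (A := PowerSeries L), PowerSeries.algebraMap_apply (A := L)]
      exact PowerSeries.map_C _ _ }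

private theorem MK_apply (K : Type*) [Field K] (L : Type*) [Field L] [Algebra K L]
    (f : PowerSeries L) : MK K L f = PowerSeries.map PowerSeries.C f := rfl

/-- `PowerSeries.constantCoeff` as a homomorphism of algebras. -/
private noncomputable def ZK (K : Type*) [Field K] (L : Type*) [Field L] [Algebra K L] :
    P2 L →ₐ[K] PowerSeries L :=
  { (PowerSeries.constantCoeff : P2 L →+* PowerSeries L) with
    commutes' := fun r => by
      rw [PowerSeries.algebraMap_apply (A := PowerSeries L)]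
      change PowerSeries.constantCoeff (PowerSeries.C (algebraMap K (PowerSeries L) r)) = _
      rw [PowerSeries.constantCoeff_C] }

private theorem ZK_apply (K : Type*) [Field K] (L : Type*) [Field L] [Algebra K L]
    (f : P2 L) : ZK K L f = PowerSeries.constantCoeff f := rfl

section

variable {K : Type*} [Field K] (W : WeierstrassCurve K) {A : Type*} [CommRing A] [Algebra K A]
  {A' : Type*} [CommRing A'] [Algebra K A'] (f : A →ₐ[K] A')

private theorem map_tz (c : Bool) (Z R : Fin 2 → A) (y₁ y₂ : A) (i : Fin 2) :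
    f (tz W c Z R y₁ y₂ i) = tz W c (fun j => f (Z j)) (fun j => f (R j)) (f y₁) (f y₂) i := by
  cases c
  · unfold tz
    simp only [Bool.false_eq_true, if_false]
    fin_cases i
    · change f (SV W Z R 1 - y₁ * y₂) = SV W _ _ 1 - f y₁ * f y₂
      rw [map_sub, map_mul, map_SV]
    · change f (2 * SV W Z R 2) = 2 * SV W _ _ 2
      rw [map_mul, map_SV, map_ofNat]
  · unfold tz
    simp only [if_true]
    fin_cases i
    · change f (2 * SV W Z R 0) = 2 * SV W _ _ 0
      rw [map_mul, map_SV, map_ofNat]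
    · change f (SV W Z R 1 + y₁ * y₂) = SV W _ _ 1 + f y₁ * f y₂
      rw [map_add, map_mul, map_SV]

private theorem map_ty (c : Bool) (Z R : Fin 2 → A) (y₁ y₂ : A) :
    f (ty W c Z R y₁ y₂) = ty W c (fun j => f (Z j)) (fun j => f (R j)) (f y₁) (f y₂) := by
  cases c
  · unfold ty
    simp only [Bool.false_eq_true, if_false, tp1, tp2, wd, map_neg, map_add, map_sub, map_mul,
      map_pow, map_ofNat, AlgHom.commutes]
  · unfold ty
    simp only [if_true, tq1, tq2, map_add, map_sub, map_mul,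
      map_pow, map_ofNat, AlgHom.commutes]

end

private theorem ph_C {K : Type*} [Field K] (W : WeierstrassCurve K) {L : Type*} [Field L]
    [Algebra K L] (χ : Bool) (S Y : PowerSeries L) (hY : Y ^ 2 = ph W (vc χ S)) :
    (PowerSeries.C Y : P2 L) ^ 2 = ph W (fun i => (PowerSeries.C (vc χ S i) : P2 L)) := by
  have h := congrArg (CK K L) hY
  rw [map_pow, map_ph] at h
  exact h

private theorem ph_map_C {K : Type*} [Field K] (W : WeierstrassCurve K) {L : Type*} [Field L]
    [Algebra K L] (ζ : PowerSeries L) (hζ : (2 * PowerSeries.X) ^ 2 = ph W ![1, ζ]) :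
    ((2 * PowerSeries.X : P2 L)) ^ 2 = ph W ![1, PowerSeries.map PowerSeries.C ζ] := by
  have h := congrArg (MK K L) hζ
  rw [map_pow, map_mul, map_ofNat, map_ph, MK_apply, PowerSeries.map_X] at h
  rw [h]
  congr 1
  funext j
  fin_cases j
  · exact map_one (MK K L)
  · rfl

private theorem vc_map {A B : Type*} [CommRing A] [CommRing B] (f : A →+* B) (χ : Bool) (S : A)
    (i : Fin 2) : f (vc χ S i) = vc χ (f S) i := by
  cases χ <;> fin_cases i <;> simp [vc]

private theorem pv_vc {A : Type*} [CommRing A] (χ : Bool) (S : A) : pv χ (vc χ S) = 1 := by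
  cases χ <;> simp [pv, vc]

private theorem ov_vc {A : Type*} [CommRing A] (χ : Bool) (S : A) : ov χ (vc χ S) = S := by
  cases χ <;> simp [ov, vc]

section

variable {K : Type*} [Field K] (W : WeierstrassCurve K) {L : Type*} [Field L] [Algebra K L]

theorem SN_nu2 (v : AbsoluteValue L ℝ) {r κ : ℝ} (hr : 0 ≤ r) (hκ : 0 ≤ κ) (n n' : ℕ) :
    SN v (fun f : P2 L => nu2 v r κ n n' f) := by
  exact SN_PA (SN_PN v hr n) hκ n'

theorem ph_tZ (χ : Bool) (ζ S Y : PowerSeries L)
    (hζ : (2 * PowerSeries.X) ^ 2 = ph W ![1, ζ]) (hY : Y ^ 2 = ph W (vc χ S)) (c : Bool) :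
    ph W (tZ W χ ζ S Y c) = tY W χ ζ S Y c ^ 2 := by
  exact ph_tz W c _ _ _ _ (ph_C W χ S Y hY) (ph_map_C W ζ hζ)

theorem tZ_prop (χ : Bool) (ζ S Y : PowerSeries L)
    (hζ : (2 * PowerSeries.X) ^ 2 = ph W ![1, ζ]) (hY : Y ^ 2 = ph W (vc χ S)) :
    wd (tZ W χ ζ S Y false) (tZ W χ ζ S Y true) = 0 := by
  exact wd_tz W _ _ _ _ (ph_C W χ S Y hY) (ph_map_C W ζ hζ)

theorem tZ_zero (χ : Bool) (ζ S Y : PowerSeries L) (hζ0 : PowerSeries.constantCoeff ζ = 0)
    (c : Bool) (i : Fin 2) :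
    PowerSeries.constantCoeff (tZ W χ ζ S Y c i) = 2 * pv c (vc χ S) * vc χ S i ∧
      PowerSeries.constantCoeff (tY W χ ζ S Y c) = 4 * pv c (vc χ S) ^ 2 * Y := by
  have e1 : (fun j => ZK K L ((fun i => (PowerSeries.C (vc χ S i) : P2 L)) j)) = vc χ S := by
    funext j
    exact PowerSeries.constantCoeff_C _
  have e2 : (fun j => ZK K L ((![1, PowerSeries.map PowerSeries.C ζ] : Fin 2 → P2 L) j)) =
      ![1, 0] := by
    funext j
    fin_cases j
    · exact map_one (ZK K L)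
    · change PowerSeries.constantCoeff (PowerSeries.map PowerSeries.C ζ) = 0
      rw [← PowerSeries.coeff_zero_eq_constantCoeff_apply, PowerSeries.coeff_map,
        PowerSeries.coeff_zero_eq_constantCoeff_apply, hζ0, map_zero]
  have e3 : ZK K L (PowerSeries.C Y) = Y := PowerSeries.constantCoeff_C _
  have e4 : ZK K L (2 * PowerSeries.X) = 0 := by
    rw [map_mul, ZK_apply K L PowerSeries.X, PowerSeries.constantCoeff_X, mul_zero]
  have h := tz_origin W c (vc χ S) Y
  refine ⟨?_, ?_⟩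
  · have h1 := map_tz W (ZK K L) c (fun i => PowerSeries.C (vc χ S i))
      ![1, PowerSeries.map PowerSeries.C ζ] (PowerSeries.C Y) (2 * PowerSeries.X) i
    rw [e1, e2, e3, e4, h.1] at h1
    exact h1
  · have h1 := map_ty W (ZK K L) c (fun i => PowerSeries.C (vc χ S i))
      ![1, PowerSeries.map PowerSeries.C ζ] (PowerSeries.C Y) (2 * PowerSeries.X)
    rw [e1, e2, e3, e4, h.2] at h1
    exact h1

theorem cc2_tZ (χ : Bool) (ζ S Y : PowerSeries L) (hζ0 : PowerSeries.constantCoeff ζ = 0)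
    {σ β : L} (hσ : PowerSeries.constantCoeff S = σ) (hβ : PowerSeries.constantCoeff Y = β)
    (c : Bool) (i : Fin 2) :
    cc2 (tZ W χ ζ S Y c i) = 2 * pv c (vc χ σ) * vc χ σ i ∧
      cc2 (tY W χ ζ S Y c) = 4 * pv c (vc χ σ) ^ 2 * β := by
  have h := tZ_zero W χ ζ S Y hζ0 c i
  have h1 : ∀ j, PowerSeries.constantCoeff (vc χ S j) = vc χ σ j := by
    intro j
    rw [vc_map, hσ]
  have h2 : PowerSeries.constantCoeff (pv c (vc χ S)) = pv c (vc χ σ) := by
    cases c
    · exact h1 1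
    · exact h1 0
  refine ⟨?_, ?_⟩
  · rw [cc2, h.1, map_mul, map_mul, map_ofNat, h1, h2]
  · rw [cc2, h.2, map_mul, map_mul, map_pow, map_ofNat, h2, hβ]

/-- The deformed chart coordinate. -/
theorem coord_u [CharZero L] (χ : Bool) (ζ S Y : PowerSeries L)
    (hζ0 : PowerSeries.constantCoeff ζ = 0) (hζ1 : PowerSeries.coeff 1 ζ = 0) :
    ∃ e u : P2 L, pv χ (tZ W χ ζ S Y χ) * e = 1 ∧ u = ov χ (tZ W χ ζ S Y χ) * e ∧
      vc χ u = e • tZ W χ ζ S Y χ ∧ PowerSeries.constantCoeff u = S ∧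
      PowerSeries.coeff 1 u = if χ then Y else -Y := by
  obtain ⟨s, hs⟩ : PowerSeries.X ^ 2 ∣ ζ := by
    rw [PowerSeries.X_pow_dvd_iff]
    intro m hm
    have hm' : m = 0 ∨ m = 1 := by omega
    rcases hm' with rfl | rfl
    · rw [PowerSeries.coeff_zero_eq_constantCoeff_apply, hζ0]
    · exact hζ1
  have hs2 : PowerSeries.map PowerSeries.C ζ =
      (PowerSeries.X : P2 L) ^ 2 * PowerSeries.map PowerSeries.C s := by
    rw [hs, map_mul, map_pow, PowerSeries.map_X]
  obtain ⟨a, b, hp, ho⟩ : ∃ a b : P2 L, pv χ (tZ W χ ζ S Y χ) = 2 + PowerSeries.X ^ 2 * a ∧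
      ov χ (tZ W χ ζ S Y χ) = 2 * PowerSeries.C S +
        2 * PowerSeries.C (if χ then Y else -Y) * PowerSeries.X + PowerSeries.X ^ 2 * b := by
    generalize PowerSeries.map PowerSeries.C s = t at hs2
    cases χ
    · simp only [pv, ov, tZ, tz, vc, Bool.false_eq_true, if_false, Matrix.cons_val_zero,
        Matrix.cons_val_one, hs2, SV_one, SV_two, wd, map_one, map_neg]
      refine ⟨2 * (-2 * PowerSeries.C S * t + PowerSeries.C S ^ 2 * PowerSeries.X ^ 2 * t ^ 2),
        2 * PowerSeries.C S ^ 2 * t + algebraMap K (P2 L) W.b₂ * PowerSeries.C S * t +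
        algebraMap K (P2 L) W.b₄ * (PowerSeries.C S * (PowerSeries.X ^ 2 * t) + 1) * t +
        algebraMap K (P2 L) W.b₆ * PowerSeries.X ^ 2 * t ^ 2, ?_, ?_⟩
      · ring
      · ring
    · simp only [pv, ov, tZ, tz, vc, if_true, Matrix.cons_val_zero,
        Matrix.cons_val_one, hs2, SV_one, SV_zero, map_one]
      refine ⟨2 * (-(algebraMap K (P2 L) W.b₄ * PowerSeries.C S * t) -
        algebraMap K (P2 L) W.b₆ * (PowerSeries.X ^ 2 * t + PowerSeries.C S) *
          PowerSeries.C S * t - algebraMap K (P2 L) W.b₈ * PowerSeries.C S ^ 2 *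
          PowerSeries.X ^ 2 * t ^ 2),
        2 * t + algebraMap K (P2 L) W.b₂ * PowerSeries.C S * t +
        algebraMap K (P2 L) W.b₄ * (PowerSeries.X ^ 2 * t + PowerSeries.C S) *
          PowerSeries.C S * t +
        algebraMap K (P2 L) W.b₆ * PowerSeries.C S ^ 2 * PowerSeries.X ^ 2 * t ^ 2, ?_, ?_⟩
      · ring
      · ring
  have hX : ∀ a : P2 L, PowerSeries.coeff 1 (PowerSeries.X ^ 2 * a) = 0 := by
    intro a
    rw [PowerSeries.coeff_X_pow_mul']
    simp
  have hX0 : ∀ a : P2 L, PowerSeries.constantCoeff (PowerSeries.X ^ 2 * a) = 0 := by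
    intro a
    rw [map_mul, map_pow, PowerSeries.constantCoeff_X]
    ring
  have h2 : (2 : PowerSeries L) ≠ 0 := by
    intro h
    have h3 := congrArg PowerSeries.constantCoeff h
    rw [map_ofNat, map_zero] at h3
    exact two_ne_zero h3
  have hcp : PowerSeries.constantCoeff (pv χ (tZ W χ ζ S Y χ)) = 2 := by
    rw [hp, map_add, map_ofNat, hX0, add_zero]
  have h1p : PowerSeries.coeff 1 (pv χ (tZ W χ ζ S Y χ)) = 0 := by
    rw [hp, map_add, hX, add_zero]
    have h3 : (2 : P2 L) = PowerSeries.C 2 := (map_ofNat _ 2).symm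
    rw [h3, PowerSeries.coeff_C]
    simp
  have hco : PowerSeries.constantCoeff (ov χ (tZ W χ ζ S Y χ)) = 2 * S := by
    rw [ho, map_add, map_add, map_mul, map_mul, map_ofNat, hX0, add_zero,
      PowerSeries.constantCoeff_C, PowerSeries.constantCoeff_X, mul_zero, add_zero]
  have h1o : PowerSeries.coeff 1 (ov χ (tZ W χ ζ S Y χ)) = 2 * if χ then Y else -Y := by
    have h3 : (2 * PowerSeries.C S + 2 * PowerSeries.C (if χ then Y else -Y) * PowerSeries.X :
        P2 L) = PowerSeries.C (2 * S) +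
          PowerSeries.C (2 * if χ then Y else -Y) * PowerSeries.X := by
      rw [map_mul, map_mul, map_ofNat]
    rw [ho, map_add, hX, add_zero, h3, map_add, PowerSeries.coeff_C, PowerSeries.coeff_C_mul,
      PowerSeries.coeff_one_X]
    simp
  have hunit : IsUnit (pv χ (tZ W χ ζ S Y χ)) := by
    rw [PowerSeries.isUnit_iff_constantCoeff, hcp, PowerSeries.isUnit_iff_constantCoeff,
      map_ofNat]
    exact isUnit_iff_ne_zero.mpr two_ne_zero
  obtain ⟨e, he⟩ := hunit.exists_right_inv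
  have hu : (ov χ (tZ W χ ζ S Y χ) * e) * pv χ (tZ W χ ζ S Y χ) = ov χ (tZ W χ ζ S Y χ) := by
    rw [mul_assoc, mul_comm e, he, mul_one]
  have hcu : PowerSeries.constantCoeff (ov χ (tZ W χ ζ S Y χ) * e) = S := by
    have h3 := congrArg PowerSeries.constantCoeff hu
    rw [map_mul, hcp, hco] at h3
    apply mul_right_cancel₀ h2
    rw [h3, mul_comm]
  refine ⟨e, ov χ (tZ W χ ζ S Y χ) * e, he, rfl, ?_, hcu, ?_⟩
  · funext i
    cases χ
    · fin_cases i
      · simp [vc, ov, mul_comm]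
      · simp only [vc, Bool.false_eq_true, if_false, Pi.smul_apply, smul_eq_mul]
        rw [mul_comm e]
        exact he.symm
    · fin_cases i
      · simp only [vc, if_true, Pi.smul_apply, smul_eq_mul]
        rw [mul_comm e]
        exact he.symm
      · simp [vc, ov, mul_comm]
  · have hcm : ∀ f g : P2 L, PowerSeries.coeff 1 (f * g) =
        PowerSeries.constantCoeff f * PowerSeries.coeff 1 g +
          PowerSeries.coeff 1 f * PowerSeries.constantCoeff g := by
      intro f g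
      rw [PowerSeries.coeff_mul]
      simp [Finset.Nat.antidiagonal_succ]
    have h3 := congrArg (PowerSeries.coeff 1) hu
    rw [hcm, h1o, h1p, mul_zero, zero_add, hcp] at h3
    apply mul_right_cancel₀ h2
    rw [h3, mul_comm]

/-- Sizes. -/
theorem tZ_size (v : AbsoluteValue L ℝ) (χ : Bool) (ζ S Y : PowerSeries L) {σ β : L}
    (hβ : β ^ 2 = ph W (vc χ σ)) {rho κ : ℝ} (hrho : 0 ≤ rho) (hκ : 0 ≤ κ)
    (hκ1 : κ * kc W v ^ 40 ≤ 1)
    (hζ : ∀ r : ℝ, 0 ≤ r → r * kc W v ^ 40 ≤ 1 → ∀ n, PN v r n ζ ≤ 1)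
    (hS : ∀ n, PN v rho n S ≤ cst v 2 * max 1 (v σ))
    (hY : ∀ n, PN v rho n Y ≤ cst v 2 * v β) (c : Bool) (n n' : ℕ) :
    (∀ i, nu2 v rho κ n n' (tZ W χ ζ S Y c i) ≤ lc W v ^ 30 * vn v (vc χ σ) ^ 2) ∧
      nu2 v rho κ n n' (tY W χ ζ S Y c) ≤ lc W v ^ 60 * vn v (vc χ σ) ^ 4 := by
  have h := SN_nu2 v hrho hκ n n'
  have hl := one_le_lc W v
  have hl0 : 0 ≤ lc W v := zero_le_one.trans hl
  have hk : 1 ≤ kc W v := one_le_mul_of_one_le_of_one_le hl (le_max_left _ _)
  have hκ1' : κ ≤ 1 := by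
    have h1 : (1 : ℝ) ≤ kc W v ^ 40 := one_le_pow₀ hk
    exact (le_mul_of_one_le_right hκ h1).trans hκ1
  have hvn : vn v (vc χ σ) = max 1 (v σ) := by
    cases χ
    · simp [vn, vc, max_comm]
    · simp [vn, vc]
  have hz1 : 1 ≤ vn v (vc χ σ) := by
    rw [hvn]
    exact le_max_left _ _
  have hC : ∀ g : PowerSeries L, nu2 v rho κ n n' (PowerSeries.C g) = PN v rho n g := fun g =>
    PA_C (SN_PN v hrho n) κ n' g
  have hz : ∀ i, nu2 v rho κ n n' (PowerSeries.C (vc χ S i)) ≤ lc W v * vn v (vc χ σ) := by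
    have hS' : PN v rho n S ≤ lc W v * vn v (vc χ σ) := by
      rw [hvn]
      exact (hS n).trans (mul_le_mul_of_nonneg_right (cst_two_le_lc W v)
        (zero_le_one.trans (le_max_left _ _)))
    have h1' : PN v rho n (1 : PowerSeries L) ≤ lc W v * vn v (vc χ σ) :=
      (SN_PN v hrho n).one_le.trans (one_le_mul_of_one_le_of_one_le hl hz1)
    intro i
    rw [hC]
    cases χ <;> fin_cases i
    · exact hS'
    · exact h1'
    · exact h1'
    · exact hS'
  have hq : ∀ i, nu2 v rho κ n n' ((![1, PowerSeries.map PowerSeries.C ζ] : Fin 2 → P2 L) i) ≤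
      1 := by
    intro i
    fin_cases i
    · exact h.one_le
    · change PA v (fun g : PowerSeries L => PN v rho n g) κ n' (PowerSeries.map PowerSeries.C ζ) ≤ 1
      rw [PA_map_C]
      exact hζ κ hκ hκ1 n'
  have hβ' : v β ≤ lc W v ^ 8 * vn v (vc χ σ) ^ 2 := by
    have h1 := ph_size W (SN_self v) (vc χ σ) (r := vn v (vc χ σ)) (fun i => le_vn v _ i)
    rw [← hβ, map_pow] at h1
    have h2 : lc W v ^ 16 * vn v (vc χ σ) ^ 4 = (lc W v ^ 8 * vn v (vc χ σ) ^ 2) ^ 2 := by ring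
    rw [h2] at h1
    exact le_of_sq_le_sq h1 (mul_nonneg (pow_nonneg hl0 _) (sq_nonneg _))
  have h1 : nu2 v rho κ n n' (PowerSeries.C Y) ≤ lc W v ^ 9 * vn v (vc χ σ) ^ 2 := by
    rw [hC]
    refine (hY n).trans ?_
    calc cst v 2 * v β ≤ lc W v * (lc W v ^ 8 * vn v (vc χ σ) ^ 2) :=
          mul_le_mul (cst_two_le_lc W v) hβ' (v.nonneg _) hl0
      _ = lc W v ^ 9 * vn v (vc χ σ) ^ 2 := by ring
  have h2 : nu2 v rho κ n n' (2 * PowerSeries.X) ≤ lc W v * 1 ^ 2 := by
    refine (h.mul _ _).trans ?_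
    have h3 : nu2 v rho κ n n' (2 : P2 L) ≤ lc W v := by
      have := E2_two W h
      rwa [pow_one] at this
    have h4 : nu2 v rho κ n n' (PowerSeries.X : P2 L) ≤ 1 :=
      (PA_X_le (SN_PN v hrho n) hκ n').trans hκ1'
    rw [one_pow]
    exact mul_le_mul h3 h4 (h.nonneg _) hl0
  have hz0 : 0 ≤ vn v (vc χ σ) := zero_le_one.trans hz1
  have t1 := tz_size W h c _ _ _ _ hz0 zero_le_one hz hq h1 h2
  have t2 := ty_size W h c _ _ _ _ hz0 zero_le_one hz hq h1 h2
  rw [mul_one] at t2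
  simp only [mul_one] at t1
  exact ⟨t1, t2⟩

end

end Pool.Agent.Lib.MP_17a322_nt.VN
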