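import Pool.Agent.Lib.MP_17a322_nt.VN.L1f

/-!
# JOB L1g: the coordinate `ξ` of the difference, as a series in two variables

`M` is the x-coordinate vector of `2 ^ j Q`, `vc χ σ` that of `P`, `q` the x-coordinate of `P - 2 ^ j Q`, `yM`, `β` square
roots of `ph W M`, `ph W (vc χ σ)` with the right sign: `col W M (vc χ σ) (yM * β) c = lam c • (q, 1)` (`col` is in VN/DefsC).
`M2 M` is `M` as a vector over `P2 L`. In the deformation `P` moves: chart coordinate `u(T, z)`. `ξ` is the x-coordinate of the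
difference.

PROOFS.
`cc2_col`: `cc2` is a homomorphism of `K`-algebras; `cc2_tZ` (L1f): the vector `tZ .. c'` specialises to
`(2 * pv c' (vc χ σ)) • vc χ σ` and `tY` to `4 * pv ^ 2 * β`; `SV_smul` (VJ/E3) with `a = 1`: `SV W M (s • Z) i = s ^ 2 * SV W M Z i`,
`s = 2 * pv ..`, and `yM * (4 pv ^ 2 β) = s ^ 2 * (yM * β)`; so both columns are multiplied by `s ^ 2`.
`col_root`: for `B ^ 2 = ph W R * ph W Q` both columns `p` of `col W R Q B` satisfy `QF (SV W R Q) p = 0`: `QF s p = s 0 * p 1 ^ 2 - s 1 *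
(p 0 * p 1) + s 2 * p 0 ^ 2`; `SV_disc`: `B ^ 2 = s 1 ^ 2 - 4 s 0 s 2`; `linear_combination`.
`root_unique`: domain; `QF s ![ξ, 1] = s 0 - s 1 ξ + s 2 ξ ^ 2`. Subtract: `(ξ - ξ') (s 2 (ξ + ξ') - s 1) = 0`.
`coord_xi`: Choose `c₀` with `lam c₀ ≠ 0` (if both are zero then `col = 0`, `S 1 + B = 0 = S 1 - B` and so `B = yM * β = 0`).
`P2 L` is a domain. For `c'` with `pv c' (vc χ σ) ≠ 0` and `c` with `lam c ≠ 0` the element `col W (M2 M) (tZ .. c') (..) c 1` has
`cc2 = (2 pv) ^ 2 * lam c ≠ 0` (`cc2_col`), so it is a unit of `P2 L` (a power series is a unit iff its constant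
coefficient is, twice). Put `d c' c` its inverse and `ξ c' c = col .. c 0 * d`; `cc2 (ξ c' c) = q`. `ξ c' c` is a root: `QF (SV W (M2 M)
(tZ .. c')) ![ξ c' c, 1] = 0` (`col_root` and `QF_smul`-type homogeneity: `QF s (a • Z) = a ^ 2 * QF s Z`; `ph_tZ` gives
`(C (C yM) * tY) ^ 2 = ph * ph`). All of them are equal: let `e, u` be from `coord_u`; `tZ .. c'` is a multiple of `vc χ u` for both
`c'` (`tZ_prop`: `wd = 0` and `vc χ u = e • tZ .. χ`, so `tZ .. c' = (pv χ (tZ .. c')) • vc χ u`: `vc χ u` has component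
`1`), and a NONZERO one (its `cc2` is `(2 pv c' (vc χ σ)) • vc χ σ ≠ 0`). So by homogeneity (`SV_smul`, `QF_smul`) all the `ξ c' c` are roots of the same
quadratic form `QF (SV W (M2 M) (vc χ u)) ![·, 1]`. With `s = SV W (M2 M) (vc χ u)`: by `root_unique` two of them are equal or
`s 2 * (ξ + ξ') = s 1`; applying `cc2`: `2 q S₂ = S₁` where `Sᵢ = SV W M (vc χ σ) i` (`cc2 u = σ`). But from `hcol`: if `c = true`: `S₁ + B = lam q`,
`2 S₂ = lam`, so `2 q S₂ = S₁ + B`; and also (`c = false`) `2 S₀ = lam' q`, `S₁ - B = lam'`. The first gives `B = 0`: contradiction with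
`hB`. (Both values of `c` are in `hcol`, also if `lam c = 0`.)
-/

namespace Pool.Agent.Lib.MP_17a322_nt.VN

open MvPolynomial Height
open Pool.Agent.Lib.MP_17a322_nt.RO
open Pool.Agent.Lib.MP_17a322_nt.VJ

/-- A vector over `L` as a vector over `P2 L`. -/
noncomputable def M2 {L : Type*} [Field L] (M : Fin 2 → L) : Fin 2 → P2 L :=
  fun i => PowerSeries.C (PowerSeries.C (M i))

theorem col_root {K : Type*} [Field K] (W : WeierstrassCurve K) {A : Type*} [CommRing A]
    [Algebra K A] (R Q : Fin 2 → A) (B : A) (hB : B ^ 2 = ph W R * ph W Q) (c : Bool) :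
    QF (SV W R Q) (col W R Q B c) = 0 := by
  have h := SV_disc W R Q
  unfold QF
  cases c
  · have e0 : col W R Q B false 0 = 2 * SV W R Q 0 := rfl
    have e1 : col W R Q B false 1 = SV W R Q 1 - B := rfl
    rw [e0, e1]
    linear_combination SV W R Q 0 * hB - SV W R Q 0 * h
  · have e0 : col W R Q B true 0 = SV W R Q 1 + B := rfl
    have e1 : col W R Q B true 1 = 2 * SV W R Q 2 := rfl
    rw [e0, e1]
    linear_combination SV W R Q 2 * hB - SV W R Q 2 * h

theorem col_smul {K : Type*} [Field K] (W : WeierstrassCurve K) {A : Type*} [CommRing A]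
    [Algebra K A] (R Q : Fin 2 → A) (B s : A) (c : Bool) :
    col W R (s • Q) (s ^ 2 * B) c = s ^ 2 • col W R Q B c := by
  have h : ∀ i, SV W R (s • Q) i = s ^ 2 * SV W R Q i := by
    intro i
    have h1 := SV_smul W (1 : A) s R Q i
    rw [one_smul, one_mul] at h1
    exact h1
  funext i
  rw [Pi.smul_apply, smul_eq_mul]
  cases c
  · fin_cases i
    · change 2 * SV W R (s • Q) 0 = s ^ 2 * (2 * SV W R Q 0)
      rw [h]
      ring
    · change SV W R (s • Q) 1 - s ^ 2 * B = s ^ 2 * (SV W R Q 1 - B)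
      rw [h]
      ring
  · fin_cases i
    · change SV W R (s • Q) 1 + s ^ 2 * B = s ^ 2 * (SV W R Q 1 + B)
      rw [h]
      ring
    · change 2 * SV W R (s • Q) 2 = s ^ 2 * (2 * SV W R Q 2)
      rw [h]
      ring

theorem root_unique {A : Type*} [CommRing A] [IsDomain A] (s : Fin 3 → A) (ξ ξ' : A)
    (h : QF s ![ξ, 1] = 0) (h' : QF s ![ξ', 1] = 0) :
    ξ = ξ' ∨ s 2 * (ξ + ξ') = s 1 := by
  unfold QF at h h'
  simp only [Matrix.cons_val_zero, Matrix.cons_val_one] at h h'
  have h1 : (ξ - ξ') * (s 2 * (ξ + ξ') - s 1) = 0 := by linear_combination h - h'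
  rcases mul_eq_zero.1 h1 with h2 | h2
  · exact Or.inl (sub_eq_zero.1 h2)
  · exact Or.inr (sub_eq_zero.1 h2)

private theorem L1g_QF_smul {A : Type*} [CommRing A] (s : Fin 3 → A) (a : A) (Z : Fin 2 → A) :
    QF s (a • Z) = a ^ 2 * QF s Z := by
  unfold QF
  simp only [Pi.smul_apply, smul_eq_mul]
  ring

private theorem L1g_map_col {K : Type*} [Field K] (W : WeierstrassCurve K) {A A' : Type*}
    [CommRing A] [Algebra K A] [CommRing A'] [Algebra K A'] (f : A →ₐ[K] A') (R Q : Fin 2 → A)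
    (B : A) (c : Bool) (i : Fin 2) :
    f (col W R Q B c i) = col W (fun j => f (R j)) (fun j => f (Q j)) (f B) c i := by
  have h2 : f 2 = 2 := map_ofNat f 2
  cases c
  · fin_cases i
    · change f (2 * SV W R Q 0) = 2 * SV W _ _ 0
      rw [map_mul, h2, map_SV]
    · change f (SV W R Q 1 - B) = SV W _ _ 1 - f B
      rw [map_sub, map_SV]
  · fin_cases i
    · change f (SV W R Q 1 + B) = SV W _ _ 1 + f B
      rw [map_add, map_SV]
    · change f (2 * SV W R Q 2) = 2 * SV W _ _ 2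
      rw [map_mul, h2, map_SV]

private theorem L1g_alg {K : Type*} [Field K] {L : Type*} [Field L] [Algebra K L] (a : K) :
    algebraMap K (P2 L) a = PowerSeries.C (PowerSeries.C (algebraMap K L a)) := by
  rw [PowerSeries.algebraMap_apply, PowerSeries.algebraMap_apply]

/-- The constant coefficient as a homomorphism. -/
private noncomputable def L1g_hom (K : Type*) [Field K] (L : Type*) [Field L] [Algebra K L] :
    P2 L →ₐ[K] L :=
  { (PowerSeries.constantCoeff (R := L)).comp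
      (PowerSeries.constantCoeff (R := PowerSeries L)) with
    commutes' := fun a => by
      change PowerSeries.constantCoeff (PowerSeries.constantCoeff (algebraMap K (P2 L) a)) = _
      rw [L1g_alg, PowerSeries.constantCoeff_C, PowerSeries.constantCoeff_C] }

private theorem L1g_hom_apply {K : Type*} [Field K] {L : Type*} [Field L] [Algebra K L]
    (f : P2 L) : L1g_hom K L f = cc2 f := rfl

private theorem L1g_cc2_C {L : Type*} [Field L] (a : L) :
    cc2 (PowerSeries.C (PowerSeries.C a)) = a := by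
  unfold cc2
  rw [PowerSeries.constantCoeff_C, PowerSeries.constantCoeff_C]

/-- Constants. -/
private noncomputable def L1g_inc (K : Type*) [Field K] (L : Type*) [Field L] [Algebra K L] :
    L →ₐ[K] P2 L :=
  { (PowerSeries.C (R := PowerSeries L)).comp (PowerSeries.C (R := L)) with
    commutes' := fun a => (L1g_alg a).symm }

private theorem L1g_ph {K : Type*} [Field K] (W : WeierstrassCurve K) {L : Type*} [Field L]
    [Algebra K L] (M : Fin 2 → L) :
    ph W (M2 M) = PowerSeries.C (PowerSeries.C (ph W M)) :=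
  (map_ph W (L1g_inc K L) M).symm

private theorem L1g_wd {A : Type*} [CommRing A] (χ : Bool) (u : A) (Z : Fin 2 → A)
    (h : wd (vc χ u) Z = 0) : Z = pv χ Z • vc χ u := by
  unfold wd at h
  funext i
  cases χ
  · have h1 : u * Z 1 - 1 * Z 0 = 0 := h
    fin_cases i
    · change Z 0 = Z 1 * u
      linear_combination -h1
    · change Z 1 = Z 1 * 1
      ring
  · have h1 : 1 * Z 1 - u * Z 0 = 0 := h
    fin_cases i
    · change Z 0 = Z 0 * 1
      ring
    · change Z 1 = Z 0 * u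
      linear_combination h1

private theorem L1g_pv_vc {A : Type*} [CommRing A] (χ : Bool) (u : A) : pv χ (vc χ u) = 1 := by
  cases χ <;> rfl

private theorem L1g_pv_smul {A : Type*} [CommRing A] (χ : Bool) (a : A) (Z : Fin 2 → A) :
    pv χ (a • Z) = a * pv χ Z := by
  cases χ <;> rfl

section

variable {K : Type*} [Field K] (W : WeierstrassCurve K) {L : Type*} [Field L] [Algebra K L]

theorem cc2_col (χ : Bool) (ζ S Y : PowerSeries L) (hζ0 : PowerSeries.constantCoeff ζ = 0)
    {σ β : L} (hσ : PowerSeries.constantCoeff S = σ) (hβ : PowerSeries.constantCoeff Y = β)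
    (M : Fin 2 → L) (yM : L) (c' c : Bool) (i : Fin 2) :
    cc2 (col W (M2 M) (tZ W χ ζ S Y c')
      (PowerSeries.C (PowerSeries.C yM) * tY W χ ζ S Y c') c i) =
      (2 * pv c' (vc χ σ)) ^ 2 * col W M (vc χ σ) (yM * β) c i := by
  rw [← L1g_hom_apply (K := K), L1g_map_col]
  have e1 : (fun j => L1g_hom K L (M2 M j)) = M := by
    funext j
    exact L1g_cc2_C (M j)
  have e2 : (fun j => L1g_hom K L (tZ W χ ζ S Y c' j)) =
      (2 * pv c' (vc χ σ)) • vc χ σ := by
    funext j
    exact (cc2_tZ W χ ζ S Y hζ0 hσ hβ c' j).1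
  have e3 : L1g_hom K L (PowerSeries.C (PowerSeries.C yM) * tY W χ ζ S Y c') =
      (2 * pv c' (vc χ σ)) ^ 2 * (yM * β) := by
    rw [map_mul, L1g_hom_apply, L1g_hom_apply, L1g_cc2_C,
      (cc2_tZ W χ ζ S Y hζ0 hσ hβ c' 0).2]
    ring
  rw [e1, e2, e3, col_smul]
  rfl

/-- One candidate. -/
private theorem L1g_cand [CharZero L] (χ : Bool) (ζ S Y : PowerSeries L)
    (hζ0 : PowerSeries.constantCoeff ζ = 0)
    (hζ : (2 * PowerSeries.X) ^ 2 = ph W ![1, ζ])
    {σ β : L} (hσ : PowerSeries.constantCoeff S = σ) (hβ : PowerSeries.constantCoeff Y = β)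
    (hY : Y ^ 2 = ph W (vc χ S)) (M : Fin 2 → L) (yM q : L) (lam : Bool → L)
    (hyM : yM ^ 2 = ph W M)
    (hcol : ∀ c, col W M (vc χ σ) (yM * β) c = lam c • ![q, 1])
    (e u : P2 L) (hu : vc χ u = e • tZ W χ ζ S Y χ) (c' c : Bool)
    (hp : pv c' (vc χ σ) ≠ 0) (hl : lam c ≠ 0) :
    ∃ d ξ : P2 L, col W (M2 M) (tZ W χ ζ S Y c')
        (PowerSeries.C (PowerSeries.C yM) * tY W χ ζ S Y c') c 1 * d = 1 ∧
      col W (M2 M) (tZ W χ ζ S Y c')
        (PowerSeries.C (PowerSeries.C yM) * tY W χ ζ S Y c') c 0 * d = ξ ∧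
      cc2 ξ = q ∧ S3 W (M2 M) (vc χ u) ![ξ, 1] = 0 := by
  have h20 : (2 * pv c' (vc χ σ)) ^ 2 ≠ 0 := pow_ne_zero 2 (mul_ne_zero two_ne_zero hp)
  have hK := cc2_col W χ ζ S Y hζ0 hσ hβ M yM c' c
  have hK1 : cc2 (col W (M2 M) (tZ W χ ζ S Y c')
      (PowerSeries.C (PowerSeries.C yM) * tY W χ ζ S Y c') c 1) =
      (2 * pv c' (vc χ σ)) ^ 2 * lam c := by
    rw [hK 1, hcol c]
    change _ * (lam c * 1) = _
    rw [mul_one]
  have hK0 : cc2 (col W (M2 M) (tZ W χ ζ S Y c')
      (PowerSeries.C (PowerSeries.C yM) * tY W χ ζ S Y c') c 0) =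
      (2 * pv c' (vc χ σ)) ^ 2 * lam c * q := by
    rw [hK 0, hcol c]
    change _ * (lam c * q) = _
    ring
  have hroot := col_root W (M2 M) (tZ W χ ζ S Y c')
    (PowerSeries.C (PowerSeries.C yM) * tY W χ ζ S Y c') (by
      rw [L1g_ph, ← hyM, ph_tZ W χ ζ S Y hζ hY c', map_pow, map_pow, mul_pow]) c
  obtain ⟨k, hk⟩ : ∃ k : Fin 2 → P2 L, k = col W (M2 M) (tZ W χ ζ S Y c')
      (PowerSeries.C (PowerSeries.C yM) * tY W χ ζ S Y c') c := ⟨_, rfl⟩
  rw [← hk] at hK0 hK1 hroot ⊢
  have hk1 : IsUnit (k 1) := by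
    rw [PowerSeries.isUnit_iff_constantCoeff, PowerSeries.isUnit_iff_constantCoeff]
    change IsUnit (cc2 (k 1))
    rw [hK1]
    exact (mul_ne_zero h20 hl).isUnit
  obtain ⟨d, hd⟩ := hk1.exists_right_inv
  refine ⟨d, k 0 * d, hd, rfl, ?_, ?_⟩
  · have h1 : cc2 (k 1) * cc2 d = 1 := by
      have h2 := congrArg (L1g_hom K L) hd
      rw [map_mul, map_one] at h2
      exact h2
    have h3 : cc2 (k 0 * d) = cc2 (k 0) * cc2 d := map_mul (L1g_hom K L) _ _
    rw [h3, hK0]
    rw [hK1] at h1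
    linear_combination q * h1
  · -- the quadratic form
    have h1 : k = k 1 • ![k 0 * d, 1] := by
      funext i
      fin_cases i
      · change k 0 = k 1 * (k 0 * d)
        linear_combination -(k 0) * hd
      · change k 1 = k 1 * 1
        rw [mul_one]
    rw [h1, L1g_QF_smul] at hroot
    have h2 : QF (SV W (M2 M) (tZ W χ ζ S Y c')) ![k 0 * d, 1] = 0 := by
      rcases mul_eq_zero.1 hroot with h | h
      · exact absurd h (pow_ne_zero 2 (by
          have := hk1.ne_zero
          simpa using this))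
      · exact h
    -- the vector is a multiple of `vc χ u`
    have hw : wd (vc χ u) (tZ W χ ζ S Y c') = 0 := by
      have h3 := tZ_prop W χ ζ S Y hζ hY
      have h4 : wd (tZ W χ ζ S Y χ) (tZ W χ ζ S Y c') = 0 := by
        unfold wd at h3 ⊢
        cases χ <;> cases c'
        · ring
        · exact h3
        · linear_combination -h3
        · ring
      rw [hu]
      unfold wd at h4 ⊢
      simp only [Pi.smul_apply, smul_eq_mul]
      linear_combination e * h4
    have h5 := L1g_wd χ u _ hw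
    have hpne : pv χ (tZ W χ ζ S Y c') ≠ 0 := by
      intro h6
      have h7 : cc2 (pv χ (tZ W χ ζ S Y c')) = 2 * pv c' (vc χ σ) := by
        have h8 := fun i => (cc2_tZ W χ ζ S Y hζ0 hσ hβ c' i).1
        cases χ
        · have h9 := h8 1
          have h10 : vc false σ 1 = 1 := rfl
          rw [h10, mul_one] at h9
          exact h9
        · have h9 := h8 0
          have h10 : vc true σ 0 = 1 := rfl
          rw [h10, mul_one] at h9
          exact h9
      rw [h6] at h7
      have h8 : cc2 (0 : P2 L) = 0 := map_zero (L1g_hom K L)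
      rw [h8] at h7
      exact mul_ne_zero two_ne_zero hp h7.symm
    have h6 : SV W (M2 M) (tZ W χ ζ S Y c') =
        (pv χ (tZ W χ ζ S Y c')) ^ 2 • SV W (M2 M) (vc χ u) := by
      funext i
      have h7 := SV_smul W (1 : P2 L) (pv χ (tZ W χ ζ S Y c')) (M2 M) (vc χ u) i
      rw [one_smul, one_mul, ← h5] at h7
      exact h7
    rw [h6, QF_smul] at h2
    rcases mul_eq_zero.1 h2 with h | h
    · exact absurd h (pow_ne_zero 2 hpne)
    · exact h

/-- The coordinate `ξ`. -/
theorem coord_xi [CharZero L] (χ : Bool) (ζ S Y : PowerSeries L)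
    (hζ0 : PowerSeries.constantCoeff ζ = 0) (hζ1 : PowerSeries.coeff 1 ζ = 0)
    (hζ : (2 * PowerSeries.X) ^ 2 = ph W ![1, ζ])
    {σ β : L} (hσ : PowerSeries.constantCoeff S = σ) (hβ : PowerSeries.constantCoeff Y = β)
    (hY : Y ^ 2 = ph W (vc χ S)) (M : Fin 2 → L) (yM q : L) (lam : Bool → L)
    (hyM : yM ^ 2 = ph W M) (hB : yM * β ≠ 0)
    (hcol : ∀ c, col W M (vc χ σ) (yM * β) c = lam c • ![q, 1]) :
    ∃ ξ : P2 L, cc2 ξ = q ∧
      (∀ u : P2 L, (∃ e : P2 L, vc χ u = e • tZ W χ ζ S Y χ) →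
        S3 W (M2 M) (vc χ u) ![ξ, 1] = 0) ∧
      ∀ c' c, pv c' (vc χ σ) ≠ 0 → lam c ≠ 0 →
        ∃ d : P2 L, col W (M2 M) (tZ W χ ζ S Y c')
            (PowerSeries.C (PowerSeries.C yM) * tY W χ ζ S Y c') c 1 * d = 1 ∧
          col W (M2 M) (tZ W χ ζ S Y c')
            (PowerSeries.C (PowerSeries.C yM) * tY W χ ζ S Y c') c 0 * d = ξ := by
  obtain ⟨e, u, he, -, hu, huS, -⟩ := coord_u W χ ζ S Y hζ0 hζ1
  -- the equations for the columns
  have q1 : SV W M (vc χ σ) 1 + yM * β = lam true * q := congrFun (hcol true) 0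
  have q2 : 2 * SV W M (vc χ σ) 2 = lam true * 1 := congrFun (hcol true) 1
  have q4 : SV W M (vc χ σ) 1 - yM * β = lam false * 1 := congrFun (hcol false) 1
  obtain ⟨c₀, hc₀⟩ : ∃ c₀, lam c₀ ≠ 0 := by
    by_contra hc
    push Not at hc
    rw [hc true, zero_mul] at q1
    rw [hc false, zero_mul] at q4
    have h2 : 2 * (yM * β) = 0 := by linear_combination q1 - q4
    rcases mul_eq_zero.1 h2 with h | h
    · exact two_ne_zero h
    · exact hB h
  have hpχ : pv χ (vc χ σ) ≠ 0 := by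
    rw [L1g_pv_vc]
    exact one_ne_zero
  have hcand := L1g_cand W χ ζ S Y hζ0 hζ hσ hβ hY M yM q lam hyM hcol e u hu
  obtain ⟨d₀, ξ, -, -, hξq, hξ⟩ := hcand χ c₀ hpχ hc₀
  -- values at the origin
  have hcu : ∀ i, cc2 (vc χ u i) = vc χ σ i := by
    intro i
    have h1 : cc2 u = σ := by
      unfold cc2
      rw [huS, hσ]
    have h2 : cc2 (1 : P2 L) = 1 := map_one (L1g_hom K L)
    cases χ
    · fin_cases i
      · exact h1
      · exact h2
    · fin_cases i
      · exact h2
      · exact h1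
  have hsv : ∀ i, cc2 (SV W (M2 M) (vc χ u) i) = SV W M (vc χ σ) i := by
    intro i
    have a1 : (fun j => L1g_hom K L (M2 M j)) = M := funext fun j => L1g_cc2_C (M j)
    have a2 : (fun j => L1g_hom K L (vc χ u j)) = vc χ σ := funext fun j => hcu j
    rw [← L1g_hom_apply (K := K), map_SV, a1, a2]
  refine ⟨ξ, hξq, ?_, ?_⟩
  · rintro u' ⟨e', hu'⟩
    have h1 : e' * pv χ (tZ W χ ζ S Y χ) = 1 := by
      rw [← L1g_pv_smul, ← hu', L1g_pv_vc]
    have h2 : e' = e := by linear_combination e * h1 - e' * he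
    rw [hu', h2, ← hu]
    exact hξ
  · intro c' c hp hl
    obtain ⟨d, ξ', hd1, hd2, hq', hξ'⟩ := hcand c' c hp hl
    refine ⟨d, hd1, ?_⟩
    rw [hd2]
    rcases root_unique (SV W (M2 M) (vc χ u)) ξ' ξ hξ' hξ with h | h
    · exact h
    · exfalso
      have h1 := congrArg (L1g_hom K L) h
      rw [map_mul, map_add, L1g_hom_apply, L1g_hom_apply, L1g_hom_apply, L1g_hom_apply, hsv, hsv,
        hξq, hq'] at h1
      apply hB
      linear_combination q1 - q * q2 + h1

end

end Pool.Agent.Lib.MP_17a322_nt.VN
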