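import Pool.Agent.Lib.MP_17a322_nt.VN.L1g

/-!
# JOB L1h: the local theorem for one coordinate

PROOF of `coord_package`. Take `ζ` from `exists_zeta` (L1e), `u` from `coord_u`, `ξ` from `coord_xi`. The first four properties are in
`coord_u` and `coord_xi`. Fix `v`, `rho`. Symbols `k = kc W v ≥ 1`, `lc ≤ k`, `|2|⁻¹ ≤ k`, `X = max 1 (v q)`, `z₀ = vn v (vc χ σ) =
max 1 (v σ)`, `m = vn v M > 0`, `κ₀ = (k ^ 40)⁻¹`.
(a) Sizes at the radii `(rho, κ₀)`: `tZ_size`: `tZ ≤ lc ^ 30 * z₀ ^ 2`, `tY ≤ lc ^ 60 * z₀ ^ 4`. `v yM ≤ lc ^ 8 * m ^ 2` (from `yM ^ 2 = ph W M`,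
`ph_size`). `SV_size`: `SV W (M2 M) (tZ ..) i ≤ lc ^ 16 * (m * lc ^ 30 * z₀ ^ 2) ^ 2 = lc ^ 76 * m ^ 2 * z₀ ^ 4`; `C (C yM) * tY ≤ lc ^ 68 * m ^ 2 * z₀ ^ 4`; so all
entries of `col` are `≤ lc ^ 78 * m ^ 2 * z₀ ^ 4`.
(b) Choose `c'` with `v (pv c' (vc χ σ)) = z₀` (the larger component; `c' = χ` if `v σ ≤ 1`, `c' = !χ` otherwise) and `c` with
`v (lam c) = max ..`; by `hlow`: `(m * z₀) ^ 2 ≤ k ^ 10 * (v (lam c) * X)`, so `lam c ≠ 0`. By `cc2_col` and `hcol` (entry `1`):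
`v (cc2 (col .. c 1)) = (v 2) ^ 2 * z₀ ^ 2 * v (lam c) ≥ k ^ (-12) * m ^ 2 * z₀ ^ 4 / X`.
(c) `PA2_inv` (L1d; `nu2` is `PA v (PN v r n) κ n'`) with `r = rho`, `κ = κ₀`, `B = lc ^ 78 * m ^ 2 * z₀ ^ 4` and the scaling factor
`l₁ = (k ^ 91 * X)⁻¹`: `l₁ * (cst v 2 * B) ≤ k ^ (-12) * m ^ 2 * z₀ ^ 4 / X`. So the inverse `d` of `col .. c 1` has size
`≤ cst v 2 / v (cc2 ..) ≤ k ^ 13 * X / (m ^ 2 * z₀ ^ 4)` at `(l₁ * rho, l₁ * κ₀)`. Hence `ξ = col .. c 0 * d ≤ k ^ 91 * X`. For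
`lam' ≤ (k ^ 200 * X)⁻¹` we have `lam' ≤ l₁ * κ₀ ≤ l₁`, and `PA2_mono`: the sizes at `(lam' * rho, lam')` are smaller.
(d) `v σ ≤ 1`: `z₀ = 1`, `c' = χ`. `p = pv χ (tZ .. χ)`, `p * e = 1`, `cc2 p = 2`; `PA2_inv` with `B = lc ^ 30`, factor `(k ^ 32)⁻¹`:
`e ≤ cst v 2 / v 2 ≤ k ^ 2` at `(rho / k ^ 32, κ₀ / k ^ 32)`, so `u = ov .. * e ≤ k ^ 32` there, in particular for all radii
`r ≤ rho / k ^ 200`, `κ ≤ 1 / k ^ 200`. `B := C (C yM) * tY .. * e ^ 2`: `B ^ 2 = ph W (M2 M) * ph W (vc χ u)` by `ph_tZ` and `ph_smul`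
(`vc χ u = e • tZ`). `col W (M2 M) (vc χ u) B c = e ^ 2 • col W (M2 M) (tZ ..) (C (C yM) * tY ..) c` (`col_smul`). So `p ^ 2 * d` is the inverse of the
entry `1`: `d' := p ^ 2 * d ≤ k ^ 60 * k ^ 13 * X / m ^ 2`. `B ≤ k ^ 8 m ^ 2 * k ^ 60 * k ^ 4`.
-/

namespace Pool.Agent.Lib.MP_17a322_nt.VN

open MvPolynomial Height
open Pool.Agent.Lib.MP_17a322_nt.RO
open Pool.Agent.Lib.MP_17a322_nt.VJ

section

variable {K : Type*} [Field K] (W : WeierstrassCurve K) {L : Type*} [Field L] [Algebra K L]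

private theorem one_le_kc (v : AbsoluteValue L ℝ) : 1 ≤ kc W v :=
  one_le_mul_of_one_le_of_one_le (one_le_lc W v) (le_max_left _ _)

private theorem lc_le_kc (v : AbsoluteValue L ℝ) : lc W v ≤ kc W v :=
  le_mul_of_one_le_right (zero_le_one.trans (one_le_lc W v)) (le_max_left _ _)

private theorem inv_two_le_kc (v : AbsoluteValue L ℝ) : v ((2 : L)⁻¹) ≤ kc W v :=
  (le_max_right _ _).trans (le_mul_of_one_le_left (zero_le_one.trans (le_max_left _ _))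
    (one_le_lc W v))

private theorem one_le_kc_mul_two [CharZero L] (v : AbsoluteValue L ℝ) :
    1 ≤ kc W v * v 2 := by
  have h1 : v ((2 : L)⁻¹) * v 2 = 1 := by rw [← map_mul, inv_mul_cancel₀ two_ne_zero, map_one]
  calc (1 : ℝ) = v ((2 : L)⁻¹) * v 2 := h1.symm
    _ ≤ kc W v * v 2 := mul_le_mul_of_nonneg_right (inv_two_le_kc W v) (v.nonneg _)

private theorem nu2_CC (v : AbsoluteValue L ℝ) {r κ : ℝ} (hr : 0 ≤ r) (n n' : ℕ) (a : L) :
    nu2 v r κ n n' (PowerSeries.C (PowerSeries.C a)) = v a := by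
  rw [nu2, PA_C (SN_PN v hr n) κ n', PN_C]

private theorem col_size {v : AbsoluteValue L ℝ} {A : Type*} [CommRing A] [Algebra L A]
    [Algebra K A] [IsScalarTower K L A] {ν : A → ℝ} (h : SN v ν) (R Q : Fin 2 → A) (B : A)
    {a b : ℕ} {x : ℝ} (hx : 0 ≤ x) (hab : b ≤ a) (hS : ∀ i, ν (SV W R Q i) ≤ lc W v ^ a * x)
    (hB : ν B ≤ lc W v ^ b * x) (c : Bool) (i : Fin 2) :
    ν (col W R Q B c i) ≤ lc W v ^ (a + 1) * x := by
  have h2 : ∀ i, ν (2 * SV W R Q i) ≤ lc W v ^ (a + 1) * x := by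
    intro i
    have h3 := E2_mul h (E2_two W h) (hS i)
    have e : lc W v ^ 1 * (lc W v ^ a * x) = lc W v ^ (a + 1) * x := by ring
    rwa [e] at h3
  cases c
  · fin_cases i
    · exact h2 0
    · exact E2_sub W h hab hx (hS 1) hB
  · fin_cases i
    · exact E2_add W h hab hx (hS 1) hB
    · exact h2 2

/-- `C ∘ C` as a homomorphism of algebras. -/
private noncomputable def CCK (K : Type*) [Field K] (L : Type*) [Field L] [Algebra K L] :
    L →ₐ[K] P2 L :=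
  { ((PowerSeries.C : PowerSeries L →+* P2 L).comp (PowerSeries.C : L →+* PowerSeries L)) with
    commutes' := fun r => by
      rw [PowerSeries.algebraMap_apply (A := PowerSeries L), PowerSeries.algebraMap_apply (A := L)]
      rfl }

private theorem CCK_apply (K : Type*) [Field K] (L : Type*) [Field L] [Algebra K L] (a : L) :
    CCK K L a = PowerSeries.C (PowerSeries.C a) := rfl

/-- The constant coefficient as a homomorphism of algebras. -/
private noncomputable def cK (K : Type*) [Field K] (L : Type*) [Field L] [Algebra K L] :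
    PowerSeries L →ₐ[K] L :=
  { (PowerSeries.constantCoeff : PowerSeries L →+* L) with
    commutes' := fun r => by
      rw [PowerSeries.algebraMap_apply (A := L)]
      exact PowerSeries.constantCoeff_C _ }

private theorem cK_apply (K : Type*) [Field K] (L : Type*) [Field L] [Algebra K L]
    (f : PowerSeries L) : cK K L f = PowerSeries.constantCoeff f := rfl

private theorem beta_sq (χ : Bool) (S Y : PowerSeries L) {σ β : L}
    (hσ : PowerSeries.constantCoeff S = σ) (hβ : PowerSeries.constantCoeff Y = β)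
    (hY : Y ^ 2 = ph W (vc χ S)) : β ^ 2 = ph W (vc χ σ) := by
  have h := congrArg (cK K L) hY
  rw [map_pow, map_ph, cK_apply, hβ] at h
  rw [h]
  congr 1
  funext j
  cases χ <;> fin_cases j <;> simp [vc, cK_apply, hσ]

private theorem vn_vc (v : AbsoluteValue L ℝ) (χ : Bool) (σ : L) :
    vn v (vc χ σ) = max 1 (v σ) := by
  cases χ
  · simp [vn, vc, max_comm]
  · simp [vn, vc]

private theorem hlam_aux {k X V N c2 : ℝ} (hk : 1 ≤ k) (hX : 1 ≤ X)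
    (hc : c2 ≤ k) (hN0 : 0 ≤ N) (hN : N ≤ k ^ 12 * (V * X)) :
    (k ^ 91 * X)⁻¹ * (c2 * (k ^ 78 * N)) ≤ V := by
  have hk0 : 0 < k := zero_lt_one.trans_le hk
  have hX0 : 0 < X := zero_lt_one.trans_le hX
  rw [inv_mul_le_iff₀ (by positivity)]
  calc c2 * (k ^ 78 * N) ≤ k * (k ^ 78 * N) :=
        mul_le_mul_of_nonneg_right hc (by positivity)
    _ ≤ k * (k ^ 78 * (k ^ 12 * (V * X))) :=
        mul_le_mul_of_nonneg_left (mul_le_mul_of_nonneg_left hN (by positivity)) hk0.le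
    _ = k ^ 91 * X * V := by ring

private theorem div_aux {k X V N c2 : ℝ} (hk : 1 ≤ k) (hX : 1 ≤ X)
    (hc : c2 ≤ k) (hN0 : 0 < N) (hV : 0 < V) (hN : N ≤ k ^ 12 * (V * X)) :
    c2 / V ≤ k ^ 13 * X / N := by
  have hk0 : 0 < k := zero_lt_one.trans_le hk
  have hX0 : 0 < X := zero_lt_one.trans_le hX
  rw [div_le_div_iff₀ hV hN0]
  calc c2 * N ≤ k * N := mul_le_mul_of_nonneg_right hc hN0.le
    _ ≤ k * (k ^ 12 * (V * X)) := mul_le_mul_of_nonneg_left hN hk0.le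
    _ = k ^ 13 * X * V := by ring

private theorem N_aux {k X m z v2 l : ℝ} (hk : 1 ≤ k) (hX : 1 ≤ X) (hl : 0 ≤ l)
    (h2 : 1 ≤ k * v2) (h : (m * z) ^ 2 ≤ k ^ 10 * (l * X)) :
    m ^ 2 * z ^ 4 ≤ k ^ 12 * ((v2 * z) ^ 2 * l * X) := by
  have hk0 : 0 < k := zero_lt_one.trans_le hk
  have hX0 : 0 < X := zero_lt_one.trans_le hX
  have h3 : 0 ≤ z ^ 2 * (k ^ 10 * (l * X)) := by positivity
  have h4 : 1 ≤ (k * v2) ^ 2 := one_le_pow₀ h2
  calc m ^ 2 * z ^ 4 = z ^ 2 * (m * z) ^ 2 := by ring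
    _ ≤ z ^ 2 * (k ^ 10 * (l * X)) := mul_le_mul_of_nonneg_left h (sq_nonneg z)
    _ ≤ (k * v2) ^ 2 * (z ^ 2 * (k ^ 10 * (l * X))) := le_mul_of_one_le_left h3 h4
    _ = k ^ 12 * ((v2 * z) ^ 2 * l * X) := by ring

end

/-- The local theorem for one coordinate. -/
theorem coord_package {K : Type*} [Field K] (W : WeierstrassCurve K) {L : Type*} [Field L]
    [Algebra K L] [CharZero L] (χ : Bool) (S Y : PowerSeries L) {σ β : L}
    (hσ : PowerSeries.constantCoeff S = σ) (hβ : PowerSeries.constantCoeff Y = β)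
    (hY : Y ^ 2 = ph W (vc χ S)) (M : Fin 2 → L) (hM : M ≠ 0) (yM q : L) (lam : Bool → L)
    (hyM : yM ^ 2 = ph W M) (hB : yM * β ≠ 0)
    (hcol : ∀ c, col W M (vc χ σ) (yM * β) c = lam c • ![q, 1])
    (hlow : ∀ v : AbsoluteValue L ℝ, (vn v M * vn v (vc χ σ)) ^ 2 ≤
      kc W v ^ 10 * (max (v (lam true)) (v (lam false)) * max 1 (v q))) :
    ∃ u ξ : P2 L, PowerSeries.constantCoeff u = S ∧
      PowerSeries.coeff 1 u = (if χ then Y else -Y) ∧
      S3 W (M2 M) (vc χ u) ![ξ, 1] = 0 ∧ cc2 ξ = q ∧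
      ∀ (v : AbsoluteValue L ℝ) (rho : ℝ), 0 ≤ rho →
        (∀ n, PN v rho n S ≤ cst v 2 * max 1 (v σ)) →
        (∀ n, PN v rho n Y ≤ cst v 2 * v β) →
        (v σ ≤ 1 → ∀ r κ : ℝ, 0 ≤ r → r * kc W v ^ 200 ≤ rho → 0 ≤ κ → κ * kc W v ^ 200 ≤ 1 →
          ∀ n n', nu2 v r κ n n' u ≤ kc W v ^ 200) ∧
        ∀ lam' : ℝ, 0 ≤ lam' → lam' * (kc W v ^ 200 * max 1 (v q)) ≤ 1 →
          (∀ n n', nu2 v (lam' * rho) lam' n n' ξ ≤ kc W v ^ 200 * max 1 (v q)) ∧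
          (v σ ≤ 1 → ∃ (c : Bool) (B d : P2 L), B ^ 2 = ph W (M2 M) * ph W (vc χ u) ∧
            col W (M2 M) (vc χ u) B c 1 * d = 1 ∧ col W (M2 M) (vc χ u) B c 0 * d = ξ ∧
            ∀ n n', nu2 v (lam' * rho) lam' n n' B ≤ kc W v ^ 200 * vn v M ^ 2 ∧
              nu2 v (lam' * rho) lam' n n' d ≤ kc W v ^ 200 * max 1 (v q) / vn v M ^ 2) := by
  obtain ⟨ζ, hζ0, hζ1, hζ, hζs⟩ := exists_zeta (L := L) W
  obtain ⟨e, u, he, hue, hvu, hcu, h1u⟩ := coord_u W χ ζ S Y hζ0 hζ1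
  obtain ⟨ξ, hξq, hξS, hξd⟩ := coord_xi W χ ζ S Y hζ0 hζ1 hζ hσ hβ hY M yM q lam hyM hB hcol
  refine ⟨u, ξ, hcu, h1u, hξS u ⟨e, hvu⟩, hξq, fun v rho hrho hS hYv => ?_⟩
  have hβ2 := beta_sq W χ S Y hσ hβ hY
  have hk := one_le_kc W v
  have hlk := lc_le_kc W v
  have hl1 := one_le_lc W v
  have hc2 : cst v 2 ≤ kc W v := (cst_two_le_lc W v).trans hlk
  have h2k := one_le_kc_mul_two W v
  have hk0 : 0 < kc W v := zero_lt_one.trans_le hk
  have hX : 1 ≤ max 1 (v q) := le_max_left _ _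
  have hm : 0 < vn v M := vn_pos v hM
  have hz : 1 ≤ vn v (vc χ σ) := by
    rw [vn_vc]
    exact le_max_left _ _
  have hlow' := hlow v
  have hκ0 : 0 ≤ (kc W v ^ 40)⁻¹ := inv_nonneg.mpr (pow_nonneg hk0.le _)
  have hκ1 : (kc W v ^ 40)⁻¹ * kc W v ^ 40 ≤ 1 := by
    rw [inv_mul_cancel₀ (pow_ne_zero _ hk0.ne')]
  have hpow : ∀ {i j : ℕ}, i ≤ j → kc W v ^ i ≤ kc W v ^ j := fun h => pow_le_pow_right₀ hk h
  -- sizes of the translated point
  have hsz : ∀ c' n n', (∀ i, nu2 v rho (kc W v ^ 40)⁻¹ n n' (tZ W χ ζ S Y c' i) ≤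
      lc W v ^ 30 * vn v (vc χ σ) ^ 2) ∧
      nu2 v rho (kc W v ^ 40)⁻¹ n n' (tY W χ ζ S Y c') ≤ lc W v ^ 60 * vn v (vc χ σ) ^ 4 :=
    fun c' n n' => tZ_size W v χ ζ S Y hβ2 hrho hκ0 hκ1 (fun r hr h n => hζs v r hr h n) hS hYv
      c' n n'
  have hyM' : v yM ≤ lc W v ^ 8 * vn v M ^ 2 := by
    have h1 := ph_size W (SN_self v) M (r := vn v M) (fun i => le_vn v _ i)
    rw [← hyM, map_pow] at h1
    have h2 : lc W v ^ 16 * vn v M ^ 4 = (lc W v ^ 8 * vn v M ^ 2) ^ 2 := by ring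
    rw [h2] at h1
    exact le_of_sq_le_sq h1 (mul_nonneg (pow_nonneg (zero_le_one.trans hl1) _) (sq_nonneg _))
  have hN0 : 0 < vn v M ^ 2 * vn v (vc χ σ) ^ 4 := by positivity
  have hcs : ∀ c' c i n n', nu2 v rho (kc W v ^ 40)⁻¹ n n' (col W (M2 M) (tZ W χ ζ S Y c')
      (PowerSeries.C (PowerSeries.C yM) * tY W χ ζ S Y c') c i) ≤
      kc W v ^ 78 * (vn v M ^ 2 * vn v (vc χ σ) ^ 4) := by
    intro c' c i n n'
    have h := SN_nu2 v hrho hκ0 n n'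
    have hS1 : ∀ i, nu2 v rho (kc W v ^ 40)⁻¹ n n' (SV W (M2 M) (tZ W χ ζ S Y c') i) ≤
        lc W v ^ 76 * (vn v M ^ 2 * vn v (vc χ σ) ^ 4) := by
      intro i
      have h1 := SV_size W h (M2 M) (tZ W χ ζ S Y c') (r := vn v M)
        (q := lc W v ^ 30 * vn v (vc χ σ) ^ 2)
        (fun j => by
          change nu2 v rho (kc W v ^ 40)⁻¹ n n' (PowerSeries.C (PowerSeries.C (M j))) ≤ _
          rw [nu2_CC v hrho]
          exact le_vn v M j) (hsz c' n n').1 i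
      refine h1.trans (le_of_eq ?_)
      ring
    have hB1 : nu2 v rho (kc W v ^ 40)⁻¹ n n'
        (PowerSeries.C (PowerSeries.C yM) * tY W χ ζ S Y c') ≤
        lc W v ^ 68 * (vn v M ^ 2 * vn v (vc χ σ) ^ 4) := by
      have h1 := E2_mul h (le_of_eq (nu2_CC v hrho n n' yM)) (hsz c' n n').2
      refine h1.trans ?_
      calc v yM * (lc W v ^ 60 * vn v (vc χ σ) ^ 4) ≤
          (lc W v ^ 8 * vn v M ^ 2) * (lc W v ^ 60 * vn v (vc χ σ) ^ 4) :=
            mul_le_mul_of_nonneg_right hyM' (by positivity)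
        _ = _ := by ring
    have h1 := col_size W h (M2 M) (tZ W χ ζ S Y c')
      (PowerSeries.C (PowerSeries.C yM) * tY W χ ζ S Y c') hN0.le (by norm_num : 68 ≤ 76)
      hS1 hB1 c i
    refine h1.trans (mul_le_mul_of_nonneg_right ?_ hN0.le)
    exact (pow_le_pow_left₀ (zero_le_one.trans hl1) hlk _).trans (hpow (by norm_num))
  -- the inverse of the second entry of the column
  have key : ∀ c', v (pv c' (vc χ σ)) = vn v (vc χ σ) → ∃ (c : Bool) (d : P2 L),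
      col W (M2 M) (tZ W χ ζ S Y c')
        (PowerSeries.C (PowerSeries.C yM) * tY W χ ζ S Y c') c 1 * d = 1 ∧
      col W (M2 M) (tZ W χ ζ S Y c')
        (PowerSeries.C (PowerSeries.C yM) * tY W χ ζ S Y c') c 0 * d = ξ ∧
      ∀ n n', nu2 v ((kc W v ^ 91 * max 1 (v q))⁻¹ * rho)
        ((kc W v ^ 91 * max 1 (v q))⁻¹ * (kc W v ^ 40)⁻¹) n n' d ≤
          kc W v ^ 13 * max 1 (v q) / (vn v M ^ 2 * vn v (vc χ σ) ^ 4) := by
    intro c' hc'
    obtain ⟨c, hc⟩ : ∃ c, max (v (lam true)) (v (lam false)) = v (lam c) := by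
      rcases max_choice (v (lam true)) (v (lam false)) with h | h
      · exact ⟨true, h⟩
      · exact ⟨false, h⟩
    rw [hc] at hlow'
    have hl0 : lam c ≠ 0 := by
      intro h0
      rw [h0, map_zero, zero_mul, mul_zero] at hlow'
      have : 0 < (vn v M * vn v (vc χ σ)) ^ 2 := by positivity
      linarith
    have hpv : pv c' (vc χ σ) ≠ 0 := by
      intro h0
      rw [h0, map_zero] at hc'
      linarith
    obtain ⟨d, hd1, hd0⟩ := hξd c' c hpv hl0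
    have hcc := cc2_col W χ ζ S Y hζ0 hσ hβ M yM c' c 1
    rw [hcol c] at hcc
    have hV : v (cc2 (col W (M2 M) (tZ W χ ζ S Y c')
        (PowerSeries.C (PowerSeries.C yM) * tY W χ ζ S Y c') c 1)) =
        (v 2 * vn v (vc χ σ)) ^ 2 * v (lam c) := by
      rw [hcc, map_mul, map_pow, map_mul, hc']
      simp
    have hN := N_aux hk hX (v.nonneg (lam c)) h2k hlow'
    rw [← hV] at hN
    have hVpos : 0 < v (cc2 (col W (M2 M) (tZ W χ ζ S Y c')
        (PowerSeries.C (PowerSeries.C yM) * tY W χ ζ S Y c') c 1)) := by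
      rw [hV]
      have h2pos : 0 < v (2 : L) := v.pos two_ne_zero
      have hlpos : 0 < v (lam c) := v.pos hl0
      positivity
    refine ⟨c, d, hd1, hd0, fun n n' => ?_⟩
    have h3 : (kc W v ^ 91 * max 1 (v q))⁻¹ ≤ 1 :=
      inv_le_one_of_one_le₀ (one_le_mul_of_one_le_of_one_le (one_le_pow₀ hk) hX)
    have h1 := PA2_inv v hrho hκ0 (lam := (kc W v ^ 91 * max 1 (v q))⁻¹) (by positivity) h3 _ d hd1
      (fun n n' => hcs c' c 1 n n') (hlam_aux hk hX hc2 hN0.le hN) n n'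
    exact h1.trans (div_aux hk hX hc2 hN0 hVpos hN)
  -- monotonicity
  have hmono : ∀ {r κ : ℝ} {l : ℝ}, 0 ≤ r → r ≤ l * rho → 0 ≤ κ → κ ≤ l * (kc W v ^ 40)⁻¹ →
      ∀ n n' (f : P2 L), nu2 v r κ n n' f ≤ nu2 v (l * rho) (l * (kc W v ^ 40)⁻¹) n n' f :=
    fun hr hr' hκ hκ' n n' f => PA2_mono v hr hr' hκ hκ' n n' f
  have hmono1 : ∀ {r κ : ℝ}, 0 ≤ r → r ≤ rho → 0 ≤ κ → κ ≤ (kc W v ^ 40)⁻¹ →
      ∀ n n' (f : P2 L), nu2 v r κ n n' f ≤ nu2 v rho (kc W v ^ 40)⁻¹ n n' f :=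
    fun hr hr' hκ hκ' n n' f => PA2_mono v hr hr' hκ hκ' n n' f
  -- the size of `e`
  have hes : v σ ≤ 1 → ∀ n n', nu2 v ((kc W v ^ 32)⁻¹ * rho)
      ((kc W v ^ 32)⁻¹ * (kc W v ^ 40)⁻¹) n n' e ≤ kc W v ^ 2 := by
    intro hσ1 n n'
    have hz1 : vn v (vc χ σ) = 1 := by rw [vn_vc, max_eq_left hσ1]
    have hcp : cc2 (pv χ (tZ W χ ζ S Y χ)) = 2 := by
      have h1 := fun i => (cc2_tZ W χ ζ S Y hζ0 hσ hβ χ i).1
      have h3 : cc2 (pv χ (tZ W χ ζ S Y χ)) = 2 * pv χ (vc χ σ) * pv χ (vc χ σ) := by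
        cases χ
        · exact h1 1
        · exact h1 0
      rw [h3]
      cases χ <;> simp [pv, vc]
    have hps : ∀ n n', nu2 v rho (kc W v ^ 40)⁻¹ n n' (pv χ (tZ W χ ζ S Y χ)) ≤
        kc W v ^ 30 := by
      intro n n'
      have h1 := (hsz χ n n').1
      rw [hz1, one_pow, mul_one] at h1
      have h3 : nu2 v rho (kc W v ^ 40)⁻¹ n n' (pv χ (tZ W χ ζ S Y χ)) ≤ lc W v ^ 30 := by
        cases χ
        · exact h1 1
        · exact h1 0
      exact h3.trans (pow_le_pow_left₀ (zero_le_one.trans hl1) hlk _)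
    have h3 : (kc W v ^ 32)⁻¹ ≤ 1 := inv_le_one_of_one_le₀ (one_le_pow₀ hk)
    have h4 : (kc W v ^ 32)⁻¹ * (cst v 2 * kc W v ^ 30) ≤
        v (PowerSeries.constantCoeff (PowerSeries.constantCoeff (pv χ (tZ W χ ζ S Y χ)))) := by
      have h5 : PowerSeries.constantCoeff (PowerSeries.constantCoeff (pv χ (tZ W χ ζ S Y χ))) =
          2 := hcp
      rw [h5, inv_mul_le_iff₀ (pow_pos hk0 _)]
      calc cst v 2 * kc W v ^ 30 ≤ kc W v * kc W v ^ 30 :=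
            mul_le_mul_of_nonneg_right hc2 (pow_nonneg hk0.le _)
        _ = kc W v ^ 31 * 1 := by ring
        _ ≤ kc W v ^ 31 * (kc W v * v 2) :=
            mul_le_mul_of_nonneg_left h2k (pow_nonneg hk0.le _)
        _ = kc W v ^ 32 * v 2 := by ring
    have h1 := PA2_inv v hrho hκ0 (lam := (kc W v ^ 32)⁻¹) (by positivity) h3 _ e he
      hps h4 n n'
    have h5 : PowerSeries.constantCoeff (PowerSeries.constantCoeff (pv χ (tZ W χ ζ S Y χ))) =
        2 := hcp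
    rw [h5] at h1
    refine h1.trans ?_
    have h2pos : 0 < v (2 : L) := v.pos two_ne_zero
    rw [div_le_iff₀ h2pos]
    calc cst v 2 ≤ kc W v * 1 := by rw [mul_one]; exact hc2
      _ ≤ kc W v * (kc W v * v 2) := mul_le_mul_of_nonneg_left h2k hk0.le
      _ = kc W v ^ 2 * v 2 := by ring
  have hpos : ∀ i : ℕ, 0 < kc W v ^ i := fun i => pow_pos hk0 i
  have hX0 : 0 < max 1 (v q) := zero_lt_one.trans_le hX
  have hle : ∀ {x T T' : ℝ}, 0 ≤ x → 0 < T → T ≤ T' → x * T' ≤ 1 → x ≤ T⁻¹ := by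
    intro x T T' hx hT hTT h
    rw [← one_div, le_div_iff₀ hT]
    exact (mul_le_mul_of_nonneg_left hTT hx).trans h
  have e72 : (kc W v ^ 32)⁻¹ * (kc W v ^ 40)⁻¹ = (kc W v ^ 72)⁻¹ := by
    rw [← mul_inv, ← pow_add]
  have hts : v σ ≤ 1 → ∀ {r κ : ℝ}, 0 ≤ r → r ≤ rho → 0 ≤ κ → κ ≤ (kc W v ^ 40)⁻¹ → ∀ n n' i,
      nu2 v r κ n n' (tZ W χ ζ S Y χ i) ≤ kc W v ^ 30 := by
    intro hσ1 r κ hr hr1 hκ hκ1 n n' i
    have hz1 : vn v (vc χ σ) = 1 := by rw [vn_vc, max_eq_left hσ1]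
    have h1 := (hsz χ n n').1 i
    rw [hz1, one_pow, mul_one] at h1
    exact ((hmono1 hr hr1 hκ hκ1 n n' _).trans h1).trans
      (pow_le_pow_left₀ (zero_le_one.trans hl1) hlk _)
  refine ⟨fun hσ1 r κ hr hr2 hκ hκ2 n n' => ?_, fun lam' hlam0 hlam1 => ?_⟩
  · have hr32 : r ≤ (kc W v ^ 32)⁻¹ * rho := by
      rw [le_inv_mul_iff₀ (hpos 32), mul_comm]
      exact (mul_le_mul_of_nonneg_left (hpow (by norm_num)) hr).trans hr2
    have hr1 : r ≤ rho := by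
      refine (le_mul_of_one_le_right hr (one_le_pow₀ hk)).trans hr2
    have hκ72 : κ ≤ (kc W v ^ 32)⁻¹ * (kc W v ^ 40)⁻¹ := by
      rw [e72]
      exact hle hκ (hpos 72) (hpow (by norm_num)) hκ2
    have hκ40 : κ ≤ (kc W v ^ 40)⁻¹ := hle hκ (hpos 40) (hpow (by norm_num)) hκ2
    have h := SN_nu2 v hr hκ n n'
    have h1 : nu2 v r κ n n' (ov χ (tZ W χ ζ S Y χ)) ≤ kc W v ^ 30 := by
      have h3 := hts hσ1 hr hr1 hκ hκ40 n n'
      cases χ
      · exact h3 0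
      · exact h3 1
    have h2 : nu2 v r κ n n' e ≤ kc W v ^ 2 :=
      (hmono hr hr32 hκ hκ72 n n' e).trans (hes hσ1 n n')
    rw [hue]
    refine (E2_mul h h1 h2).trans ?_
    rw [← pow_add]
    exact hpow (by norm_num)
  · have hTT : ∀ {i : ℕ}, i ≤ 200 → kc W v ^ i ≤ kc W v ^ 200 * max 1 (v q) := fun hi =>
      (hpow hi).trans (le_mul_of_one_le_right (hpos 200).le hX)
    have hTX : ∀ {i : ℕ}, i ≤ 200 → kc W v ^ i * max 1 (v q) ≤ kc W v ^ 200 * max 1 (v q) :=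
      fun hi => mul_le_mul_of_nonneg_right (hpow hi) hX0.le
    have hl91 : lam' ≤ (kc W v ^ 91 * max 1 (v q))⁻¹ :=
      hle hlam0 (mul_pos (hpos 91) hX0) (hTX (by norm_num)) hlam1
    have hl131 : lam' ≤ (kc W v ^ 91 * max 1 (v q))⁻¹ * (kc W v ^ 40)⁻¹ := by
      have e131 : (kc W v ^ 91 * max 1 (v q))⁻¹ * (kc W v ^ 40)⁻¹ =
          (kc W v ^ 131 * max 1 (v q))⁻¹ := by
        rw [← mul_inv, mul_right_comm, ← pow_add]
      rw [e131]
      exact hle hlam0 (mul_pos (hpos 131) hX0) (hTX (by norm_num)) hlam1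
    have hl32 : lam' ≤ (kc W v ^ 32)⁻¹ := hle hlam0 (hpos 32) (hTT (by norm_num)) hlam1
    have hl72 : lam' ≤ (kc W v ^ 32)⁻¹ * (kc W v ^ 40)⁻¹ := by
      rw [e72]
      exact hle hlam0 (hpos 72) (hTT (by norm_num)) hlam1
    have hl40 : lam' ≤ (kc W v ^ 40)⁻¹ := hle hlam0 (hpos 40) (hTT (by norm_num)) hlam1
    have hl1' : lam' ≤ 1 := by
      have := hle hlam0 (hpos 0) (hTT (by norm_num)) hlam1
      rwa [pow_zero, inv_one] at this
    have hr0 : 0 ≤ lam' * rho := mul_nonneg hlam0 hrho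
    have hrr : lam' * rho ≤ rho := mul_le_of_le_one_left hrho hl1'
    have hd91 : ∀ n n' (d : P2 L), nu2 v ((kc W v ^ 91 * max 1 (v q))⁻¹ * rho)
        ((kc W v ^ 91 * max 1 (v q))⁻¹ * (kc W v ^ 40)⁻¹) n n' d ≤
          kc W v ^ 13 * max 1 (v q) / (vn v M ^ 2 * vn v (vc χ σ) ^ 4) →
        nu2 v (lam' * rho) lam' n n' d ≤
          kc W v ^ 13 * max 1 (v q) / (vn v M ^ 2 * vn v (vc χ σ) ^ 4) := fun n n' d hd =>
      (hmono hr0 (mul_le_mul_of_nonneg_right hl91 hrho) hlam0 hl131 n n' d).trans hd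
    refine ⟨fun n n' => ?_, fun hσ1 => ?_⟩
    · obtain ⟨c', hc'⟩ : ∃ c', v (pv c' (vc χ σ)) = vn v (vc χ σ) := by
        rcases max_choice (v (vc χ σ 0)) (v (vc χ σ 1)) with h | h
        · exact ⟨true, h.symm⟩
        · exact ⟨false, h.symm⟩
      obtain ⟨c, d, hd1, hd0, hd⟩ := key c' hc'
      have h := SN_nu2 v hr0 hlam0 n n'
      have h1 := (hmono1 hr0 hrr hlam0 hl40 n n' _).trans (hcs c' c 0 n n')
      have h2 := hd91 n n' d (hd n n')
      have h3 := E2_mul h h1 h2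
      rw [hd0] at h3
      refine h3.trans ?_
      have e : kc W v ^ 78 * (vn v M ^ 2 * vn v (vc χ σ) ^ 4) *
          (kc W v ^ 13 * max 1 (v q) / (vn v M ^ 2 * vn v (vc χ σ) ^ 4)) =
          kc W v ^ 91 * max 1 (v q) := by
        rw [mul_assoc, mul_div_cancel₀ _ hN0.ne', ← mul_assoc, ← pow_add]
      rw [e]
      exact hTX (by norm_num)
    · have hz1 : vn v (vc χ σ) = 1 := by rw [vn_vc, max_eq_left hσ1]
      have hpc : v (pv χ (vc χ σ)) = vn v (vc χ σ) := by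
        rw [hz1]
        cases χ <;> simp [pv, vc]
      obtain ⟨c, d, hd1, hd0, hd⟩ := key χ hpc
      have hphM : ph W (M2 M) = (PowerSeries.C (PowerSeries.C yM) : P2 L) ^ 2 := by
        have h1 := congrArg (CCK K L) hyM
        rw [map_pow, map_ph, CCK_apply] at h1
        exact h1.symm
      have hcolS := col_smul W (M2 M) (tZ W χ ζ S Y χ)
        (PowerSeries.C (PowerSeries.C yM) * tY W χ ζ S Y χ) e c
      have hpe : pv χ (tZ W χ ζ S Y χ) ^ 2 * e ^ 2 = 1 := by rw [← mul_pow, he, one_pow]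
      refine ⟨c, e ^ 2 * (PowerSeries.C (PowerSeries.C yM) * tY W χ ζ S Y χ),
        pv χ (tZ W χ ζ S Y χ) ^ 2 * d, ?_, ?_, ?_, fun n n' => ⟨?_, ?_⟩⟩
      · rw [hvu, ph_smul, ph_tZ W χ ζ S Y hζ hY χ, hphM]
        ring
      · rw [hvu, hcolS, Pi.smul_apply, smul_eq_mul]
        calc _ = (pv χ (tZ W χ ζ S Y χ) ^ 2 * e ^ 2) * (col W (M2 M) (tZ W χ ζ S Y χ)
              (PowerSeries.C (PowerSeries.C yM) * tY W χ ζ S Y χ) c 1 * d) := by ring
          _ = 1 := by rw [hpe, hd1, one_mul]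
      · rw [hvu, hcolS, Pi.smul_apply, smul_eq_mul]
        calc _ = (pv χ (tZ W χ ζ S Y χ) ^ 2 * e ^ 2) * (col W (M2 M) (tZ W χ ζ S Y χ)
              (PowerSeries.C (PowerSeries.C yM) * tY W χ ζ S Y χ) c 0 * d) := by ring
          _ = ξ := by rw [hpe, hd0, one_mul]
      · have h := SN_nu2 v hr0 hlam0 n n'
        have h1 : nu2 v (lam' * rho) lam' n n' e ≤ kc W v ^ 2 :=
          (hmono hr0 (mul_le_mul_of_nonneg_right hl32 hrho) hlam0 hl72 n n' e).trans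
            (hes hσ1 n n')
        have h2 : nu2 v (lam' * rho) lam' n n' (e ^ 2) ≤ (kc W v ^ 2) ^ 2 :=
          (h.pow_le e 2).trans (pow_le_pow_left₀ (h.nonneg _) h1 2)
        have h3 : nu2 v (lam' * rho) lam' n n' (tY W χ ζ S Y χ) ≤ kc W v ^ 60 := by
          have h4 := (hsz χ n n').2
          rw [hz1, one_pow, mul_one] at h4
          exact ((hmono1 hr0 hrr hlam0 hl40 n n' _).trans h4).trans
            (pow_le_pow_left₀ (zero_le_one.trans hl1) hlk _)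
        have h5 : nu2 v (lam' * rho) lam' n n' (PowerSeries.C (PowerSeries.C yM)) ≤
            kc W v ^ 8 * vn v M ^ 2 := by
          rw [nu2_CC v hr0]
          exact hyM'.trans (mul_le_mul_of_nonneg_right
            (pow_le_pow_left₀ (zero_le_one.trans hl1) hlk _) (sq_nonneg _))
        refine (E2_mul h h2 (E2_mul h h5 h3)).trans ?_
        calc (kc W v ^ 2) ^ 2 * (kc W v ^ 8 * vn v M ^ 2 * kc W v ^ 60) =
              kc W v ^ 72 * vn v M ^ 2 := by ring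
          _ ≤ kc W v ^ 200 * vn v M ^ 2 :=
              mul_le_mul_of_nonneg_right (hpow (by norm_num)) (sq_nonneg _)
      · have h := SN_nu2 v hr0 hlam0 n n'
        have h1 : nu2 v (lam' * rho) lam' n n' (pv χ (tZ W χ ζ S Y χ)) ≤ kc W v ^ 30 := by
          have h3 := hts hσ1 hr0 hrr hlam0 hl40 n n'
          cases χ
          · exact h3 1
          · exact h3 0
        have h2 : nu2 v (lam' * rho) lam' n n' (pv χ (tZ W χ ζ S Y χ) ^ 2) ≤
            (kc W v ^ 30) ^ 2 :=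
          (h.pow_le _ 2).trans (pow_le_pow_left₀ (h.nonneg _) h1 2)
        have h3 := hd91 n n' d (hd n n')
        rw [hz1, one_pow, mul_one] at h3
        refine (E2_mul h h2 h3).trans ?_
        have hm2 : 0 < vn v M ^ 2 := by positivity
        calc (kc W v ^ 30) ^ 2 * (kc W v ^ 13 * max 1 (v q) / vn v M ^ 2) =
              kc W v ^ 73 * max 1 (v q) / vn v M ^ 2 := by ring
          _ ≤ kc W v ^ 200 * max 1 (v q) / vn v M ^ 2 :=
              div_le_div_of_nonneg_right (hTX (by norm_num)) hm2.le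

end Pool.Agent.Lib.MP_17a322_nt.VN
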