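import Pool.Agent.Lib.MP_17a322_nt.VN.L2A2
import Pool.Agent.Lib.MP_17a322_nt.VN.L2A3a

/-!
Part L-II of VN: the elimination `BE` of a block.

`BE_spec`: induction over lists: for a list `l` without repetitions of elements of `Fin m × Fin n` prove
for all `k` and all `N ≠ 0` with `degreeOf (vS p) N = 0` for `p ∈ l`, and
`QB j (4 ^ k * b) (4 ^ k * (H + C * b)) N`: `ELL (alv W χ j) (l.map vZ) N ≠ 0` and
`QB j (4 ^ (k + l.length) * b) (4 ^ (k + l.length) * (H + C * b))` of it. One step (`ELL_cons`, `alv_vZ`):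
`El_al_ne_zero` (L2A2), `QB_El` (L2A3a; bounds `4 * (4 ^ k b)` and
`2 * 4 ^ k * (H + C b) + C * 4 ^ k b ≤ 4 ^ (k + 1) * (H + C b)` since `H, C, b ≥ 0`; `QB_mono`), and
`degreeOf (vS q) (El (vZ p) (al p) N) = 0` for the other `q ∈ l` (`degreeOf_El_le`, `degreeOf_al_eq_zero`).
Then `l = (List.finRange n).map fun t => (i, t)` (`List.map_map`, `List.length_finRange`).
-/

universe u

namespace Pool.Agent.Lib.MP_17a322_nt.VN

open MvPolynomial Height
open Pool.Agent.Lib.MP_17a322_nt.RO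
open Pool.Agent.Lib.MP_17a322_nt.VJ

theorem L2A3b_list {K : Type u} [Field K] [NumberField K] {m n : ℕ} (W : Fin n → WeierstrassCurve K)
    [∀ t, (W t).IsElliptic] (χ : Fin n → Bool) (C : ℝ) (hC : 0 ≤ C) (j : Fin m → ℕ)
    (hal : ∀ p : Fin m × Fin n, nh (al W χ j p) ≤ C * 4 ^ j p.1) (b H : ℝ) (hb : 0 ≤ b)
    (hH : 0 ≤ H) (l : List (Fin m × Fin n)) (hl : l.Nodup) (k : ℕ)
    (N : MvPolynomial (VL m n) K) (hN : N ≠ 0) (hS : ∀ p ∈ l, N.degreeOf (vS p) = 0)
    (h : QB j (4 ^ k * b) (4 ^ k * (H + C * b)) N) :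
    ELL (alv W χ j) (l.map fun p => (vZ p : VL m n)) N ≠ 0 ∧
      QB j (4 ^ (k + l.length) * b) (4 ^ (k + l.length) * (H + C * b))
        (ELL (alv W χ j) (l.map fun p => (vZ p : VL m n)) N) := by
  induction l generalizing k N with
  | nil => exact ⟨hN, h⟩
  | cons p l ih =>
    rw [List.map_cons, ELL_cons, alv_vZ]
    have hE : El (vZ p) (al W χ j p) N ≠ 0 := El_al_ne_zero W χ j p N hN (hS p (by simp))
    have h1 := QB_El W χ C hC j hal p _ _ N h hE
    have h4 : (0 : ℝ) ≤ 4 ^ k := by positivity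
    have hCb : 0 ≤ C * b := mul_nonneg hC hb
    have h2 : QB j (4 ^ (k + 1) * b) (4 ^ (k + 1) * (H + C * b)) (El (vZ p) (al W χ j p) N) := by
      refine QB_mono j ?_ ?_ h1
      · rw [pow_succ]
        exact le_of_eq (by ring)
      · rw [pow_succ]
        nlinarith [mul_nonneg h4 hH, mul_nonneg h4 hCb]
    have h3 : ∀ q ∈ l, (El (vZ p) (al W χ j p) N).degreeOf (vS q) = 0 := by
      intro q hq
      have hqp : q ≠ p := fun e => (List.nodup_cons.1 hl).1 (e ▸ hq)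
      have h5 := degreeOf_El_le (vZ p) (al W χ j p) N (vS q) (by simp [vS, vZ])
      have h6 : (al W χ j p).degreeOf (vS q) = 0 :=
        degreeOf_al_eq_zero W χ j p (vS q) (by simp [vS, vX]) (by simp [vS, hqp]) (by simp [vS, vZ])
      rw [h6, hS q (by simp [hq])] at h5
      simpa using h5
    have h7 := ih (List.nodup_cons.1 hl).2 (k + 1) _ hE h3 h2
    have h8 : k + (p :: l).length = k + 1 + l.length := by
      rw [List.length_cons]
      ring
    rw [h8]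
    exact h7

theorem BE_spec {K : Type u} [Field K] [NumberField K] {m n : ℕ} (W : Fin n → WeierstrassCurve K)
    [∀ t, (W t).IsElliptic] (χ : Fin n → Bool) (C : ℝ) (hC : 0 ≤ C) (j : Fin m → ℕ)
    (hal : ∀ p : Fin m × Fin n, nh (al W χ j p) ≤ C * 4 ^ j p.1) (b H : ℝ) (hb : 0 ≤ b)
    (hH : 0 ≤ H) (i : Fin m) (k : ℕ) (N : MvPolynomial (VL m n) K) (hN : N ≠ 0)
    (hS : ∀ t, N.degreeOf (vS (i, t)) = 0)
    (h : QB j (4 ^ k * b) (4 ^ k * (H + C * b)) N) :
    BE W χ j i N ≠ 0 ∧ QB j (4 ^ (k + n) * b) (4 ^ (k + n) * (H + C * b)) (BE W χ j i N) := by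
  have h1 := L2A3b_list W χ C hC j hal b H hb hH ((List.finRange n).map fun t => (i, t))
    ((List.nodup_finRange n).map fun a b hab => (Prod.mk.injEq _ _ _ _ ▸ hab).2) k N hN
    (fun p hp => by
      obtain ⟨t, -, rfl⟩ := List.mem_map.1 hp
      exact hS t) h
  rw [List.map_map, List.length_map, List.length_finRange] at h1
  exact h1

/-- `degreeOf_ELL_eq_zero` (L2E1), `degreeOf_al_eq_zero`. -/
theorem BE_degreeOf_Z {K : Type*} [Field K] {m n : ℕ} (W : Fin n → WeierstrassCurve K)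
    (χ : Fin n → Bool) (j : Fin m → ℕ) (i : Fin m) (N : MvPolynomial (VL m n) K) (t : Fin n) :
    (BE W χ j i N).degreeOf (vZ (i, t)) = 0 := by
  refine degreeOf_ELL_eq_zero (alv W χ j) _ ?_ N _ (Or.inl (List.mem_map.2 ⟨t, List.mem_finRange t, rfl⟩))
  intro y hy z hz hzy
  obtain ⟨t₁, -, rfl⟩ := List.mem_map.1 hy
  obtain ⟨t₂, -, rfl⟩ := List.mem_map.1 hz
  rw [alv_vZ]
  exact degreeOf_al_eq_zero W χ j (i, t₁) _ (by simp) (by simp) hzy

/-- `degreeOf_ELL_eq_zero` (L2E1), `degreeOf_al_eq_zero`. -/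
theorem BE_degreeOf_eq_zero {K : Type*} [Field K] {m n : ℕ} (W : Fin n → WeierstrassCurve K)
    (χ : Fin n → Bool) (j : Fin m → ℕ) (i : Fin m) (N : MvPolynomial (VL m n) K) (y : VL m n)
    (hX : ∀ t, y ≠ vX t) (hS : ∀ t, y ≠ vS (i, t)) (hy : N.degreeOf y = 0) :
    (BE W χ j i N).degreeOf y = 0 := by
  refine degreeOf_ELL_eq_zero (alv W χ j) _ ?_ N _ ?_
  · intro y hy z hz hzy
    obtain ⟨t₁, -, rfl⟩ := List.mem_map.1 hy
    obtain ⟨t₂, -, rfl⟩ := List.mem_map.1 hz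
    rw [alv_vZ]
    exact degreeOf_al_eq_zero W χ j (i, t₁) _ (by simp) (by simp) hzy
  · by_cases hm : y ∈ (List.finRange n).map fun t => (vZ (i, t) : VL m n)
    · exact Or.inl hm
    · refine Or.inr ⟨hy, fun z hz => ?_⟩
      obtain ⟨t, -, rfl⟩ := List.mem_map.1 hz
      rw [alv_vZ]
      exact degreeOf_al_eq_zero W χ j (i, t) y (hX t) (hS t) fun e => hm (e ▸ hz)

/-- `aeval_dvd_ELL` (L2E1), `degreeOf_al_Z`. -/
theorem aeval_dvd_BE {K : Type*} [Field K] {m n : ℕ} (W : Fin n → WeierstrassCurve K)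
    (χ : Fin n → Bool) (j : Fin m → ℕ) (i : Fin m) (N : MvPolynomial (VL m n) K) {A : Type*}
    [CommRing A] [Algebra K A] (x : VL m n → A) (h : ∀ t, aeval x (al W χ j (i, t)) = 0) :
    aeval x N ∣ aeval x (BE W χ j i N) := by
  refine aeval_dvd_ELL (alv W χ j) _ N (fun y hy => ?_) x fun y hy => ?_
  · obtain ⟨t, -, rfl⟩ := List.mem_map.1 hy
    rw [alv_vZ, degreeOf_al_Z]
    norm_num
  · obtain ⟨t, -, rfl⟩ := List.mem_map.1 hy
    rw [alv_vZ]
    exact h t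

end Pool.Agent.Lib.MP_17a322_nt.VN
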