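import Pool.Agent.Lib.MP_17a322_nt.VN.L2R
import Pool.Agent.Lib.MP_17a322_nt.VN.L2A3b

/-!
Part L-II of VN: (II.1), stage 1.

`elim_one`: `C` from `nh_al_le`, `C₁ = 4 ^ (m * n) * (1 + C)`. Apply `exists_chain` (L2R) to
`P k N`: `N ≠ 0`, `degreeOf (vS (i', t)) N = 0` for `k ≤ i'`, `degreeOf (vZ (i', t)) N = 0` for `i' < k`,
`QB j (4 ^ (k * n) * b) (4 ^ (k * n) * (H + C * b)) N`, and
`Q i N N'`: for all `A`, `x` with the relations of the block `i`, `aeval x N ∣ aeval x N'`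
(the universe of `A` is that of `K`). The step is `N' = BE W χ j i N` (`BE_spec`, `BE_degreeOf_Z`,
`BE_degreeOf_eq_zero`, `aeval_dvd_BE`, L2A3b). `H ≥ 0` by `nh_nonneg` (VJ/A5).
-/

universe u

namespace Pool.Agent.Lib.MP_17a322_nt.VN

open MvPolynomial Height
open Pool.Agent.Lib.MP_17a322_nt.RO
open Pool.Agent.Lib.MP_17a322_nt.VJ

/-- (II.1), stage 1. -/
theorem elim_one {K : Type u} [Field K] [NumberField K] {n : ℕ} (W : Fin n → WeierstrassCurve K)
    [∀ t, (W t).IsElliptic] (χ : Fin n → Bool) (m : ℕ) :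
    ∃ C₁ : ℝ, 0 ≤ C₁ ∧ ∀ (j : Fin m → ℕ) (b H : ℝ) (N₀ : MvPolynomial (VL m n) K), 0 ≤ b →
      N₀ ≠ 0 →
      (∀ p, N₀.degreeOf (vS p) = 0) → (∀ t, (N₀.degreeOf (vX t) : ℝ) ≤ b) →
      (∀ p : Fin m × Fin n, (4 : ℝ) ^ j p.1 * N₀.degreeOf (vZ p) ≤ b) → nh N₀ ≤ H →
      ∃ N : Fin (m + 1) → MvPolynomial (VL m n) K,
        N 0 = N₀ ∧ N (Fin.last m) ≠ 0 ∧ (∀ p, (N (Fin.last m)).degreeOf (vZ p) = 0) ∧
        (∀ p : Fin m × Fin n, (4 : ℝ) ^ j p.1 * (N (Fin.last m)).degreeOf (vS p) ≤ C₁ * b) ∧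
        nh (N (Fin.last m)) ≤ C₁ * (H + b) ∧
        (∀ (i i' : Fin m) (t : Fin n), i ≤ i' → (N i.castSucc).degreeOf (vS (i', t)) = 0) ∧
        (∀ (i i' : Fin m) (t : Fin n), i' ≤ i → (N i.succ).degreeOf (vZ (i', t)) = 0) ∧
        ∀ (i : Fin m) (A : Type u) [CommRing A] [Algebra K A] (x : VL m n → A),
          (∀ t, aeval x (al W χ j (i, t)) = 0) →
            aeval x (N i.castSucc) ∣ aeval x (N i.succ) := by
  obtain ⟨C, hC, hal⟩ := nh_al_le W χ m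
  refine ⟨4 ^ (m * n) * (1 + C), by positivity, ?_⟩
  intro j b H N₀ hb hN₀ hS hX hZ hH
  have hH0 : 0 ≤ H := (nh_nonneg hN₀).trans hH
  have hCb : 0 ≤ C * b := mul_nonneg hC hb
  obtain ⟨f, hf0, hfP, hfQ⟩ := exists_chain m
    (fun k (N : MvPolynomial (VL m n) K) => N ≠ 0 ∧
      (∀ (i' : Fin m) (t : Fin n), k ≤ (i' : ℕ) → N.degreeOf (vS (i', t)) = 0) ∧
      (∀ (i' : Fin m) (t : Fin n), (i' : ℕ) < k → N.degreeOf (vZ (i', t)) = 0) ∧
      QB j (4 ^ (k * n) * b) (4 ^ (k * n) * (H + C * b)) N)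
    (fun i N N' => ∀ (A : Type u) [CommRing A] [Algebra K A] (x : VL m n → A),
      (∀ t, aeval x (al W χ j (i, t)) = 0) → aeval x N ∣ aeval x N') N₀
    ⟨hN₀, fun i' t _ => hS (i', t), fun i' t h => absurd h (Nat.not_lt_zero _), by
      refine QB_mono j (b := b) (H := H) ?_ ?_ ⟨hX, fun p => ?_, hZ, hH⟩
      · rw [Nat.zero_mul, pow_zero, one_mul]
      · rw [Nat.zero_mul, pow_zero, one_mul]
        linarith
      · rw [hS p, Nat.cast_zero, mul_zero]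
        exact hb⟩
    (by
      rintro i N ⟨hN, hNS, hNZ, hNQ⟩
      obtain ⟨h1, h2⟩ := BE_spec W χ C hC j (hal j) b H hb hH0 i ((i : ℕ) * n) N hN
        (fun t => hNS i t le_rfl) hNQ
      refine ⟨BE W χ j i N, ⟨h1, ?_, ?_, ?_⟩, ?_⟩
      · intro i' t hi'
        refine BE_degreeOf_eq_zero W χ j i N _ (fun t' => by simp) (fun t' h => ?_)
          (hNS i' t (Nat.le_of_succ_le hi'))
        have h3 : i' = i := congrArg Prod.fst (Sum.inl_injective (Sum.inr_injective h))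
        rw [h3] at hi'
        omega
      · intro i' t hi'
        by_cases h3 : i' = i
        · rw [h3]
          exact BE_degreeOf_Z W χ j i N t
        · have h4 : (i' : ℕ) < i := by
            have h5 : (i' : ℕ) ≠ i := fun h => h3 (Fin.ext h)
            omega
          exact BE_degreeOf_eq_zero W χ j i N _ (fun t' => by simp) (fun t' => by simp)
            (hNZ i' t h4)
      · rw [Nat.succ_mul]
        exact h2
      · intro A _ _ x hx
        exact aeval_dvd_BE W χ j i N x hx)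
  obtain ⟨hl0, -, hlZ, hlX, hlS, -, hlH⟩ := hfP (Fin.last m)
  rw [Fin.val_last] at hlZ hlS hlH
  have h4 : (0 : ℝ) ≤ 4 ^ (m * n) := by positivity
  refine ⟨f, hf0, hl0, fun p => hlZ p.1 p.2 p.1.2, fun p => (hlS p).trans ?_, hlH.trans ?_,
    fun i i' t h => (hfP i.castSucc).2.1 i' t h, fun i i' t h => ?_, fun i A _ _ x hx => ?_⟩
  · have h5 : 0 ≤ 4 ^ (m * n) * (C * b) := mul_nonneg h4 hCb
    linarith
  · have h5 : H + C * b ≤ (1 + C) * (H + b) := by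
      have h6 : 0 ≤ C * H := mul_nonneg hC hH0
      linarith
    rw [mul_assoc]
    exact mul_le_mul_of_nonneg_left h5 h4
  · refine (hfP i.succ).2.2.1 i' t ?_
    rw [Fin.val_succ]
    exact Nat.lt_succ_of_le h
  · exact hfQ i A x hx

end Pool.Agent.Lib.MP_17a322_nt.VN
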