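import Pool.Agent.Lib.MP_17a322_nt.VN.L0
import Pool.Agent.Lib.MP_17a322_nt.VJ.A2

/-!
Part L-II of VN: polynomials in the `S_(i, t)` of one block, `t ∉ r`.

As `block`, VJ/G14: `G = rename f G₀` for the injective map
`f : {t // t ∉ r} → {p // p.2 ∉ r}`, `f t = ⟨(i, t), _⟩` (`exists_rename_eq_of_vars_subset_range`), and
`G' = rename Subtype.val G₀`. `degreeOf_rename_of_injective`, `NV_rename` (VJ/A2), `vars_rename`
(`degreeOf t G' = 0` for `t ∈ r`), `eval_rename`.
-/

universe u

namespace Pool.Agent.Lib.MP_17a322_nt.VN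

open MvPolynomial Height
open Pool.Agent.Lib.MP_17a322_nt.RO
open Pool.Agent.Lib.MP_17a322_nt.VJ

theorem block_r {K : Type*} [Field K] [AdmissibleAbsValues K] {m n : ℕ} (r : Option (Fin n))
    (i : Fin m) (G : MvPolynomial {p : Fin m × Fin n // p.2 ∉ r} K) (hG : G ≠ 0)
    (hv : ∀ p ∈ G.vars, p.1.1 = i) (D : ℕ) (hD : ∀ p, G.degreeOf p ≤ D)
    (σ : Fin m × Fin n → K) :
    ∃ G' : MvPolynomial (Fin n) K, G' ≠ 0 ∧ (∀ t ∈ r, G'.degreeOf t = 0) ∧
      (∀ t, G'.degreeOf t ≤ D) ∧ nh G' = nh G ∧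
      eval (fun t => σ (i, t)) G' = eval (fun p => σ p.1) G := by
  classical
  obtain ⟨f, hf⟩ : ∃ f : {t : Fin n // t ∉ r} → {p : Fin m × Fin n // p.2 ∉ r},
      f = fun t => ⟨(i, t.1), t.2⟩ := ⟨_, rfl⟩
  have hfv : ∀ t, (f t).1 = (i, t.1) := fun t => by rw [hf]
  have hinj : Function.Injective f := by
    intro a b h
    have h1 := congrArg (fun x => x.1.2) h
    simp only [hfv] at h1
    exact Subtype.ext h1
  obtain ⟨G₀, hG₀⟩ := MvPolynomial.exists_rename_eq_of_vars_subset_range G f hinj (by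
    intro a ha
    have h1 := hv a ha
    refine ⟨⟨a.1.2, a.2⟩, ?_⟩
    refine Subtype.ext ?_
    rw [hfv, ← h1])
  subst hG₀
  have hdeg : ∀ s, G₀.degreeOf s ≤ D := by
    intro s
    rw [← MvPolynomial.degreeOf_rename_of_injective hinj s]
    exact hD _
  have hz : ∀ t ∈ r, (rename Subtype.val G₀ : MvPolynomial (Fin n) K).degreeOf t = 0 := by
    intro t ht
    by_contra h1
    have h2 : t ∈ (rename Subtype.val G₀ : MvPolynomial (Fin n) K).vars := by
      rw [MvPolynomial.vars_def, Multiset.mem_toFinset]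
      rw [MvPolynomial.degreeOf_def] at h1
      exact Multiset.count_ne_zero.1 h1
    have h3 := MvPolynomial.vars_rename Subtype.val G₀ h2
    obtain ⟨s, -, hs⟩ := Finset.mem_image.1 h3
    exact s.2 (by rw [hs]; exact ht)
  refine ⟨rename Subtype.val G₀, ?_, hz, ?_, ?_, ?_⟩
  · intro h1
    have h2 : G₀ = 0 := rename_injective _ Subtype.val_injective (by rw [h1, map_zero])
    exact hG (by rw [h2, map_zero])
  · intro t
    by_cases ht : t ∈ r
    · rw [hz t ht]
      exact Nat.zero_le _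
    · have h1 := MvPolynomial.degreeOf_rename_of_injective (p := G₀) Subtype.val_injective
        (⟨t, ht⟩ : {t : Fin n // t ∉ r})
      rw [h1]
      exact hdeg _
  · unfold nh
    congr 1
    funext v
    rw [NV_rename v G₀ _ hinj, NV_rename v G₀ _ Subtype.val_injective]
  · rw [eval_rename, eval_rename]
    congr 1
    congr 1
    funext s
    rw [Function.comp_apply, Function.comp_apply, hfv]

end Pool.Agent.Lib.MP_17a322_nt.VN
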