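import Pool.Agent.Lib.MP_17a322_nt.VN.L0
import Pool.Agent.Lib.MP_17a322_nt.VJ.G8

/-!
Part L-II of VN: infinitely many auxiliary points.

`infinite_xx`: `infinite_x` (VJ/G8) for `Fin (m + m)`, the points `Fin.append S (fun _ => 0)` and the
exponents `Fin.append j (fun i => j i + 1)`: the set of `infinite_x` is contained in the set here
(`Fin.append_left`, `Fin.append_right`; `0 - 2 ^ (j i + 1) • (R + w) ≠ 0` gives
`2 ^ (j i + 1) • (R + w) ≠ 0`).

`infinite_root_one`: as in the proof of `infinite_w` (VJ/G8).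
-/

universe u

namespace Pool.Agent.Lib.MP_17a322_nt.VN

open MvPolynomial Height
open Pool.Agent.Lib.MP_17a322_nt.RO
open Pool.Agent.Lib.MP_17a322_nt.VJ

theorem infinite_xx {Ω : Type*} [Field Ω] [IsAlgClosed Ω] [CharZero Ω] [DecidableEq Ω]
    (V : WeierstrassCurve Ω) [V.IsElliptic] {m : ℕ} (R : V.toAffine.Point)
    (S : Fin m → V.toAffine.Point) (j : Fin m → ℕ) :
    {ξ : Ω | ∃ w : V.toAffine.Point, w ≠ 0 ∧ (∃ N, 0 < N ∧ w.xRep 0 ^ N = 1) ∧ R + w ≠ 0 ∧
      (∀ i, S i - 2 ^ j i • (R + w) ≠ 0) ∧ (∀ i, 2 ^ (j i + 1) • (R + w) ≠ 0) ∧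
      ξ = (R + w).xRep 0}.Infinite := by
  have h := infinite_x V R (Fin.append S (fun _ => 0)) (Fin.append j (fun i => j i + 1))
  refine h.mono ?_
  rintro ξ ⟨w, hw0, hwN, hRw, hS, hξ⟩
  refine ⟨w, hw0, hwN, hRw, fun i => ?_, fun i => ?_, hξ⟩
  · have h1 := hS (Fin.castAdd m i)
    rwa [Fin.append_left, Fin.append_left] at h1
  · have h1 := hS (Fin.natAdd m i)
    rw [Fin.append_right, Fin.append_right] at h1
    intro h2
    apply h1
    rw [h2, sub_zero]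

theorem infinite_root_one (Ω : Type*) [Field Ω] [IsAlgClosed Ω] [CharZero Ω] :
    {ζ : Ω | ∃ N, 0 < N ∧ ζ ^ N = 1}.Infinite := by
  classical
  intro hR
  have hN : NeZero ((hR.toFinset.card + 1 : ℕ) : Ω) := ⟨Nat.cast_ne_zero.2 (Nat.succ_ne_zero _)⟩
  obtain ⟨ζ, hζ⟩ := HasEnoughRootsOfUnity.exists_primitiveRoot Ω (hR.toFinset.card + 1)
  have h1 := hζ.card_nthRootsFinset
  have h2 : Polynomial.nthRootsFinset (hR.toFinset.card + 1) (1 : Ω) ⊆ hR.toFinset := by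
    intro z hz
    rw [Set.Finite.mem_toFinset]
    exact ⟨hR.toFinset.card + 1, Nat.succ_pos _,
      (Polynomial.mem_nthRootsFinset (Nat.succ_pos _) _).1 hz⟩
  have h3 := Finset.card_le_card h2
  rw [h1] at h3
  exact absurd h3 (Nat.not_succ_le_self _)

end Pool.Agent.Lib.MP_17a322_nt.VN
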