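import Pool.Agent.Lib.MP_17a322_nt.Mb

/-!
Part L-II of VN: (II.4), leading coefficients in one variable.

Let `D = MvPolynomial (Fin 2) B` (a domain). `G ^ r * N` has zero coefficients below `r` and the
coefficient `X 0 ^ r * C c₀ ≠ 0` at `r` (`G = X * G'` with constant coefficient of `G'` equal to `X 0`:
`PowerSeries.X_dvd_iff`, or `PowerSeries.order`). So `Φ, Ψ ≠ 0`; with the orders `ρ` of `Φ` and `ψ` of `Ψ`,
`ρ + ψ = r` (`PowerSeries.order_mul`) and the leading coefficients satisfy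
`coeff ρ Φ * coeff ψ Ψ = C c₀ * X 0 ^ r` (`coeff_mul`, or write `Φ = X ^ ρ * Φ₁`, `Ψ = X ^ ψ * Ψ₁`, cancel
`X ^ r` and take constant coefficients). `mul_eq_mul_prime_pow` for the prime `X 0`
(`MvPolynomial.prime_X`/`X_prime`): `coeff ρ Φ = b * X 0 ^ i`, `C c₀ = b * b'`. `b` is a constant: degrees
(`totalDegree_mul_of_isDomain`, `totalDegree_eq_zero_iff_eq_C`): `b = C c`, `b' = C c'`, `c₀ = c c'`.
`coeff ρ Φ = C c * X 0 ^ i` is not zero and homogeneous of degree `ρ` and of degree `i`, so `i = ρ`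
(`IsHomogeneous.inj_right`).
-/

universe u

namespace Pool.Agent.Lib.MP_17a322_nt.VN

open MvPolynomial

theorem L2D1_cancel {D : Type u} [CommRing D] [IsDomain D] (m n : ℕ) (A B : PowerSeries D)
    (hA : PowerSeries.coeff 0 A ≠ 0) (hB : PowerSeries.coeff 0 B ≠ 0)
    (h : (PowerSeries.X : PowerSeries D) ^ m * A = PowerSeries.X ^ n * B) : m = n ∧ A = B := by
  rcases lt_trichotomy m n with hmn | hmn | hmn
  · exfalso
    obtain ⟨s, rfl⟩ := Nat.exists_eq_add_of_lt hmn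
    rw [add_assoc, pow_add, mul_assoc] at h
    have h1 := mul_left_cancel₀ (pow_ne_zero _ PowerSeries.X_ne_zero) h
    apply hA
    rw [h1, pow_succ, mul_assoc, mul_comm, mul_assoc]
    simp
  · subst hmn
    exact ⟨rfl, mul_left_cancel₀ (pow_ne_zero _ PowerSeries.X_ne_zero) h⟩
  · exfalso
    obtain ⟨s, rfl⟩ := Nat.exists_eq_add_of_lt hmn
    rw [add_assoc, pow_add, mul_assoc] at h
    have h1 := mul_left_cancel₀ (pow_ne_zero _ PowerSeries.X_ne_zero) h.symm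
    apply hB
    rw [h1, pow_succ, mul_assoc, mul_comm, mul_assoc]
    simp

theorem L2D1_order {D : Type u} [CommRing D] [IsDomain D] (P : PowerSeries D) (hP : P ≠ 0) :
    ∃ (m : ℕ) (P' : PowerSeries D), P = PowerSeries.X ^ m * P' ∧
      PowerSeries.coeff m P ≠ 0 ∧ PowerSeries.coeff 0 P' = PowerSeries.coeff m P ∧
      ∀ k < m, PowerSeries.coeff k P = 0 := by
  classical
  have hex : ∃ m, PowerSeries.coeff m P ≠ 0 := by
    by_contra hcon
    apply hP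
    ext k
    by_contra hk
    exact hcon ⟨k, by simpa using hk⟩
  have h1 : ∀ k < Nat.find hex, PowerSeries.coeff k P = 0 := fun k hk => by
    by_contra hk'
    exact Nat.find_min hex hk hk'
  obtain ⟨P', hP'⟩ := PowerSeries.X_pow_dvd_iff.2 h1
  refine ⟨Nat.find hex, P', hP', Nat.find_spec hex, ?_, h1⟩
  have h2 := PowerSeries.coeff_X_pow_mul P' (Nat.find hex) 0
  rw [← hP', zero_add] at h2
  exact h2.symm

/-- (II.4) Leading coefficients in one variable. -/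
theorem leading_coeff {B : Type u} [CommRing B] [IsDomain B]
    (Φ Ψ G N : PowerSeries (MvPolynomial (Fin 2) B)) (r : ℕ) (c₀ : B) (hc₀ : c₀ ≠ 0)
    (h : Φ * Ψ = G ^ r * N) (hΦ : ∀ k, (PowerSeries.coeff k Φ).IsHomogeneous k)
    (hG0 : PowerSeries.coeff 0 G = 0) (hG1 : PowerSeries.coeff 1 G = X 0)
    (hN : PowerSeries.coeff 0 N = C c₀) :
    ∃ (ρ : ℕ) (c : B), ρ ≤ r ∧ c ∣ c₀ ∧ (∀ k < ρ, PowerSeries.coeff k Φ = 0) ∧
      PowerSeries.coeff ρ Φ = C c * X 0 ^ ρ := by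
  have hCc : (C c₀ : MvPolynomial (Fin 2) B) ≠ 0 := by
    rw [Ne, MvPolynomial.C_eq_zero]; exact hc₀
  have hX : (X 0 : MvPolynomial (Fin 2) B) ≠ 0 := MvPolynomial.X_ne_zero 0
  have hGd : PowerSeries.X ∣ G := by
    rw [PowerSeries.X_dvd_iff, ← PowerSeries.coeff_zero_eq_constantCoeff_apply]
    exact hG0
  obtain ⟨G', hG'⟩ := hGd
  have hG'0 : PowerSeries.coeff 0 G' = X 0 := by
    rw [← hG1, hG', ← zero_add 1, mul_comm, PowerSeries.coeff_succ_mul_X]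
  have hcc : PowerSeries.coeff 0 (G' ^ r * N) = X 0 ^ r * C c₀ := by
    rw [PowerSeries.coeff_zero_eq_constantCoeff_apply, map_mul, map_pow,
      ← PowerSeries.coeff_zero_eq_constantCoeff_apply,
      ← PowerSeries.coeff_zero_eq_constantCoeff_apply, hG'0, hN]
  have hcc0 : PowerSeries.coeff 0 (G' ^ r * N) ≠ 0 := by
    rw [hcc]; exact mul_ne_zero (pow_ne_zero _ hX) hCc
  have h2 : Φ * Ψ = PowerSeries.X ^ r * (G' ^ r * N) := by
    rw [h, hG', mul_pow, mul_assoc]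
  have hne : Φ * Ψ ≠ 0 := by
    rw [h2]
    apply mul_ne_zero (pow_ne_zero _ PowerSeries.X_ne_zero)
    intro h0
    rw [h0] at hcc0
    exact hcc0 (by simp)
  obtain ⟨ρ, Φ', hΦ1, hΦ2, hΦ3, hΦ4⟩ := L2D1_order Φ (left_ne_zero_of_mul hne)
  obtain ⟨ψ, Ψ', hΨ1, hΨ2, hΨ3, hΨ4⟩ := L2D1_order Ψ (right_ne_zero_of_mul hne)
  have h3 : (PowerSeries.X : PowerSeries (MvPolynomial (Fin 2) B)) ^ (ρ + ψ) * (Φ' * Ψ')
      = PowerSeries.X ^ r * (G' ^ r * N) := by
    calc (PowerSeries.X : PowerSeries (MvPolynomial (Fin 2) B)) ^ (ρ + ψ) * (Φ' * Ψ')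
        = (PowerSeries.X ^ ρ * Φ') * (PowerSeries.X ^ ψ * Ψ') := by ring
      _ = Φ * Ψ := by rw [← hΦ1, ← hΨ1]
      _ = PowerSeries.X ^ r * (G' ^ r * N) := h2
  have h4 : PowerSeries.coeff 0 (Φ' * Ψ') = PowerSeries.coeff ρ Φ * PowerSeries.coeff ψ Ψ := by
    rw [PowerSeries.coeff_zero_eq_constantCoeff_apply, map_mul,
      ← PowerSeries.coeff_zero_eq_constantCoeff_apply,
      ← PowerSeries.coeff_zero_eq_constantCoeff_apply, hΦ3, hΨ3]
  have h4' : PowerSeries.coeff 0 (Φ' * Ψ') ≠ 0 := by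
    rw [h4]; exact mul_ne_zero hΦ2 hΨ2
  obtain ⟨h5, h6⟩ := L2D1_cancel _ _ _ _ h4' hcc0 h3
  rw [h6, hcc] at h4
  obtain ⟨i, j, b, c, hij, hbc, hb, hc⟩ := mul_eq_mul_prime_pow
    (MvPolynomial.X_prime (R := B) (i := (0 : Fin 2))) (h4.symm.trans (mul_comm _ _))
  have hb0 : b ≠ 0 := fun h0 => hCc (by rw [hbc, h0, zero_mul])
  have hc0 : c ≠ 0 := fun h0 => hCc (by rw [hbc, h0, mul_zero])
  have hdeg : b.totalDegree + c.totalDegree = 0 := by
    rw [← MvPolynomial.totalDegree_mul_of_isDomain hb0 hc0, ← hbc, MvPolynomial.totalDegree_C]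
  have hbC := MvPolynomial.totalDegree_eq_zero_iff_eq_C.1 (Nat.eq_zero_of_add_eq_zero_right hdeg)
  have hcC := MvPolynomial.totalDegree_eq_zero_iff_eq_C.1 (Nat.eq_zero_of_add_eq_zero_left hdeg)
  set b₀ := MvPolynomial.coeff 0 b with hb₀
  set c₁ := MvPolynomial.coeff 0 c with hc₁
  have hdiv : c₀ = b₀ * c₁ := by
    apply MvPolynomial.C_injective (Fin 2) B
    rw [hbc, map_mul, ← hbC, ← hcC]
  have hcoef : PowerSeries.coeff ρ Φ = C b₀ * X 0 ^ i := by rw [hb, ← hbC]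
  have hi : i = ρ := by
    have e1 : (C b₀ * X 0 ^ i : MvPolynomial (Fin 2) B).IsHomogeneous (0 + 1 * i) :=
      (MvPolynomial.isHomogeneous_C (Fin 2) b₀).mul ((MvPolynomial.isHomogeneous_X B 0).pow i)
    have e2 := hΦ ρ
    rw [hcoef] at e2
    have e3 := e1.inj_right e2 (by rw [← hcoef]; exact hΦ2)
    omega
  refine ⟨ρ, b₀, by omega, ⟨c₁, hdiv⟩, hΦ4, ?_⟩
  rw [hcoef, hi]

end Pool.Agent.Lib.MP_17a322_nt.VN
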